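import Pool.Agent.FO.AssemO

/-!
# The bounds in the form of the final step, odd characteristic
-/

set_option autoImplicit false

namespace FF

/-- one hypothesis for each element of `D` -/
theorem CoversE.of_fin {E : ℕ → ℝ → Prop} {lam C : ℝ} (D : Set ((ℝ × ℝ × ℝ) × (ℝ × ℝ)))
    (hfin : D.Finite) (hD : ∀ p ∈ D, CoversE E lam C {p}) : CoversE E lam C D := by
  classical
  induction D, hfin using Set.Finite.induction_on with
  | empty => exact coversE_empty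
  | @insert p D' _ _ ih =>
    rw [Set.insert_eq]
    exact CoversE.union (hD p (Set.mem_insert _ _))
      (ih fun q hq => hD q (Set.mem_insert_of_mem _ hq))

end FF

namespace Pool.Agent.FF

variable {k : Type} [Field k] [Finite k]

/-- The Elias-Bassalygo bound, parameters `(B, a, κ)`. -/
theorem coversO_eb (h2 : (2 : k) ≠ 0) {lam : ℝ} (hlam0 : 0 < lam)
    (hlam : (2 : ℝ) ^ lam ≤ Nat.card k) {p : ℝ × ℝ × ℝ} (hp1 : 0 ≤ p.1) (hp2 : 0 ≤ p.2.1)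
    (hp3 : 0 ≤ p.2.2) (B a κb : ℕ) (ha : 0 < a) (hB : 2 * a ≤ B)
    (h : 2 ^ B * a ^ a * (B - a) ^ (B - a) < 2 ^ κb * B ^ B) (hκB : κb < B)
    (H : TowerO k p) (C : ℝ) {R β : ℝ} (hR : R = (κb : ℝ) / B)
    (hβ : β = 4 * a * ((B : ℝ) - a) / (B * ((B : ℝ) - κb))) :
    _root_.FF.CoversE (EC k) lam C {(p, (R, β))} := by
  have hBa : (0 : ℝ) ≤ (B : ℝ) - a := by
    have : ((a : ℕ) : ℝ) ≤ (B : ℕ) := by exact_mod_cast (by omega : a ≤ B)
    linarith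
  have hB0 : (0 : ℝ) < B := by exact_mod_cast (by omega : 0 < B)
  have hBκ : (0 : ℝ) < (B : ℝ) - κb := by
    have : ((κb + 1 : ℕ) : ℝ) ≤ (B : ℕ) := by exact_mod_cast hκB
    push_cast at this
    linarith
  have h1 := coversO_one h2 hlam0 hlam hp1 hp2 hp3 hκB (by positivity) (blkF_eb ha hB h) H C
  have h3 : 2 * (2 * a * ((B : ℝ) - a) / B) / ((B : ℝ) - κb) = β := by
    rw [hβ]
    field_simp
    ring
  rw [h3, ← hR] at h1
  exact h1

/-- The first linear programming bound, parameters `(B, a, κ, u)`. -/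
theorem coversO_lp (h2 : (2 : k) ≠ 0) {lam : ℝ} (hlam0 : 0 < lam)
    (hlam : (2 : ℝ) ^ lam ≤ Nat.card k) {p : ℝ × ℝ × ℝ} (hp1 : 0 ≤ p.1) (hp2 : 0 ≤ p.2.1)
    (hp3 : 0 ≤ p.2.2) (B a κb u : ℕ) (ha : 0 < a) (h2a : 2 * a ≤ B)
    (hκ : B ^ B < 2 ^ κb * (a ^ a * (B - a) ^ (B - a))) (hu : 2 * u ≤ B)
    (hlt : (B - 2 * u) ^ 2 < 4 * a * (B - a)) (hκB : κb < B)
    (H : TowerO k p) (C : ℝ) {R β : ℝ} (hR : R = (κb : ℝ) / B)
    (hβ : β = 2 * u / ((B : ℝ) - κb)) :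
    _root_.FF.CoversE (EC k) lam C {(p, (R, β))} := by
  rw [hR, hβ]
  exact coversO_one h2 hlam0 hlam hp1 hp2 hp3 hκB (Nat.cast_nonneg _)
    (blkF_lp ha h2a hκ hu hlt) H C

end Pool.Agent.FF
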