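import Pool.Agent.FF.RRD
import Pool.Agent.FF.Over
import Pool.Agent.FF.ErDef
import Pool.Agent.FF.Bomb
import Pool.Agent.FF.Bridge

/-!
# Definitions for odd characteristic: quadratic extensions, unramified classes, places of degree `r`,
levels of the tower
-/

set_option autoImplicit false

namespace Pool.Agent.FF

/-- `K' = K(y)`, `y ^ 2 = f`, `f` not a square, `2 ≠ 0` -/
structure Qd (K K' : Type*) [Field K] [Field K'] [Algebra K K'] (f : K) where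
  two : (2 : K) ≠ 0
  y : K'
  sq : y ^ 2 = algebraMap K K' f
  irr : ∀ a : K, a ^ 2 ≠ f
  span : ∀ x : K', ∃ a b : K, x = algebraMap K K' a + algebraMap K K' b * y

/-- the functions with even orders everywhere, modulo squares, form a group with at most `2 ^ s`
elements -/
def Se (K : Type*) [Field K] (s : ℕ) : Prop :=
  ∀ a : Fin (2 ^ s + 1) → K, (∀ i, a i ≠ 0 ∧ ∀ v : DV K, Even (v.ord (a i))) →
    ∃ i j, i ≠ j ∧ ∃ b : K, b ≠ 0 ∧ a i = a j * b ^ 2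

/-- As `HasPl`, for the characteristic `p`. -/
structure HasPlO (p : ℕ) (k K : Type*) [Field k] [Field K] (B C M : ℕ) : Prop where
  wt : ∀ r s e : ℕ, 1 ≤ r → s = p ^ e → s ^ 2 = Nat.card k ^ r → B ≤ s → Wt k K r s C
  few : ∀ D : ℕ, Few k K D (M * (1 + Nat.card k ^ (D + 1)))

/-- the values which split completely in the tower -/
structure SSet {k : Type*} [Field k] (S : Finset k) : Prop where
  ne : ∀ α ∈ S, α ≠ 0 ∧ α ^ 4 ≠ 1
  cl : ∀ α ∈ S, ∃ β : k, β ∈ S ∧ -β ∈ S ∧ 2 * α * β ^ 2 = α ^ 2 + 1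

/-- A tower with parameters `h`, `κ`, `ν` over `k`: at the `j`-th step genus at most `b + h 2 ^ j`,
at most `2 ^ (n + 1)` unramified classes, `n ≤ b + κ 2 ^ j`, at least `ν 2 ^ j - b` rational places,
and at least `q ^ r / (2 r)` places of each degree `r ≥ A (j + 1)`. -/
def TowerO (k : Type) [Field k] (p : ℝ × ℝ × ℝ) : Prop :=
  ∃ (A : ℕ) (b : ℝ), ∀ j : ℕ, ∃ (K : Type) (_ : Field K) (_ : Algebra k K)
    (g n : ℕ) (T : Finset (DV K)), IsFF k K ∧ Cv k K g ∧ (g : ℝ) ≤ b + p.1 * 2 ^ j ∧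
      Se K (n + 1) ∧ (n : ℝ) ≤ b + p.2.1 * 2 ^ j ∧ (∀ P ∈ T, P.Rat k) ∧ T.Nonempty ∧
      p.2.2 * 2 ^ j - b ≤ T.card ∧
      ∀ r : ℕ, A * (j + 1) ≤ r → ∃ Q : Finset (DV K), (∀ v ∈ Q, v.deg (Nat.card k) = r) ∧
        Nat.card k ^ r ≤ 2 * r * Q.card

end Pool.Agent.FF
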