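import Mathlib

/-! # The splitting set of the Garcia - Stichtenoth - Rueck tower for `p = 5, 7, 11, 13` -/

set_option autoImplicit false
set_option maxRecDepth 4000

namespace Pool.Agent.FF

namespace Sset

open Polynomial

section

variable {k : Type} [Field k]


/-- Hasse polynomial, `p = 5` -/
def h5 (t : k) : k := 1 + 4*t + t^2

/-- the cofactor, `p = 5` -/
def q5 (t : k) : k := 4 + 4*t + t^3 + t^4

theorem h5_mul (hp : ((5 : ℕ) : k) = 0) (t : k) : h5 t * q5 t = t ^ 6 - 1 := by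
  push_cast at hp
  unfold h5 q5
  linear_combination (1 + 4*t + 4*t^2 + t^3 + t^4 + t^5) * hp

theorem h5_pol : ∃ P : k[X], P.natDegree ≤ 2 ∧ ∀ t, P.eval t = h5 t :=
  ⟨1 + 4 * X + X^2, by compute_degree, fun t => by simp [h5]⟩

theorem q5_pol : ∃ P : k[X], P.natDegree ≤ 4 ∧ ∀ t, P.eval t = q5 t :=
  ⟨4 + 4 * X + X^3 + X^4, by compute_degree, fun t => by simp [q5]⟩

theorem h5_clo (hp : ((5 : ℕ) : k) = 0) {v s : k} (hs : 4 * v * s = (v + 1) ^ 2) :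
    (4 * v) ^ 2 * h5 s = h5 (v ^ 2) := by
  push_cast at hp
  have e : (4 * v) ^ 2 * h5 s = 1 * (4 * v) ^ 2 * (4 * v * s) ^ 0 + 4 * (4 * v) ^ 1 * (4 * v * s) ^ 1 + 1 * (4 * v) ^ 0 * (4 * v * s) ^ 2 := by
    unfold h5
    ring
  rw [e, hs]
  unfold h5
  linear_combination (4*v + 10*v^2 + 4*v^3) * hp

theorem h5_cube (hp : ((5 : ℕ) : k) = 0) {t : k} (ht : h5 t = 0) :
    (4 * t * (1 - t)) ^ 8 = 1 := by
  push_cast at hp
  unfold h5 at ht
  have e1 : (4 * t * (1 - t)) ^ 1 = 4 := by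
    linear_combination (1) * ht + ((-1) + (-1)*t^2) * hp
  have e2 : (4 * t * (1 - t)) ^ 2 = 1 := by
    have h : (4 * t * (1 - t)) ^ 2 = ((4 * t * (1 - t)) ^ 1) ^ 2 := by rw [← pow_mul]
    rw [h, e1]
    linear_combination (0) * ht + (3) * hp
  have e4 : (4 * t * (1 - t)) ^ 4 = 1 := by
    have h : (4 * t * (1 - t)) ^ 4 = ((4 * t * (1 - t)) ^ 2) ^ 2 := by rw [← pow_mul]
    rw [h, e2]
    linear_combination (0) * ht + (0) * hp
  have e8 : (4 * t * (1 - t)) ^ 8 = 1 := by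
    have h : (4 * t * (1 - t)) ^ 8 = ((4 * t * (1 - t)) ^ 4) ^ 2 := by rw [← pow_mul]
    rw [h, e4]
    linear_combination (0) * ht + (0) * hp
  exact e8

theorem h5_zero : h5 (0 : k) ≠ 0 := by simp [h5]

theorem h5_one (hp : ((5 : ℕ) : k) = 0) : h5 (1 : k) ≠ 0 := by
  push_cast at hp
  have : h5 (1 : k) = 1 := by
    unfold h5
    linear_combination (1) * hp
  rw [this]
  exact one_ne_zero

/-- Hasse polynomial, `p = 7` -/
def h7 (t : k) : k := 1 + 2*t + 2*t^2 + t^3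

/-- the cofactor, `p = 7` -/
def q7 (t : k) : k := 6 + 2*t + 5*t^2 + t^3 + 6*t^6 + 2*t^7 + 5*t^8 + t^9

theorem h7_mul (hp : ((7 : ℕ) : k) = 0) (t : k) : h7 t * q7 t = t ^ 12 - 1 := by
  push_cast at hp
  unfold h7 q7
  linear_combination (1 + 2*t + 3*t^2 + 3*t^3 + 2*t^4 + t^5 + t^6 + 2*t^7 + 3*t^8 + 3*t^9 + 2*t^10 + t^11) * hp

theorem h7_pol : ∃ P : k[X], P.natDegree ≤ 3 ∧ ∀ t, P.eval t = h7 t :=
  ⟨1 + 2 * X + 2 * X^2 + X^3, by compute_degree, fun t => by simp [h7]⟩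

theorem q7_pol : ∃ P : k[X], P.natDegree ≤ 9 ∧ ∀ t, P.eval t = q7 t :=
  ⟨6 + 2 * X + 5 * X^2 + X^3 + 6 * X^6 + 2 * X^7 + 5 * X^8 + X^9, by compute_degree, fun t => by simp [q7]⟩

theorem h7_clo (hp : ((7 : ℕ) : k) = 0) {v s : k} (hs : 4 * v * s = (v + 1) ^ 2) :
    (4 * v) ^ 3 * h7 s = h7 (v ^ 2) := by
  push_cast at hp
  have e : (4 * v) ^ 3 * h7 s = 1 * (4 * v) ^ 3 * (4 * v * s) ^ 0 + 2 * (4 * v) ^ 2 * (4 * v * s) ^ 1 + 2 * (4 * v) ^ 1 * (4 * v * s) ^ 2 + 1 * (4 * v) ^ 0 * (4 * v * s) ^ 3 := by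
    unfold h7
    ring
  rw [e, hs]
  unfold h7
  linear_combination (2*v + 11*v^2 + 28*v^3 + 11*v^4 + 2*v^5) * hp

theorem h7_cube (hp : ((7 : ℕ) : k) = 0) {t : k} (ht : h7 t = 0) :
    (4 * t * (1 - t)) ^ 16 = 1 := by
  push_cast at hp
  unfold h7 at ht
  have e1 : (4 * t * (1 - t)) ^ 1 = 4*t + 3*t^2 := by
    linear_combination (0) * ht + ((-1)*t^2) * hp
  have e2 : (4 * t * (1 - t)) ^ 2 = 1 := by
    have h : (4 * t * (1 - t)) ^ 2 = ((4 * t * (1 - t)) ^ 1) ^ 2 := by rw [← pow_mul]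
    rw [h, e1]
    linear_combination (6 + 2*t) * ht + ((-1) + (-2)*t + 2*t^3 + t^4) * hp
  have e4 : (4 * t * (1 - t)) ^ 4 = 1 := by
    have h : (4 * t * (1 - t)) ^ 4 = ((4 * t * (1 - t)) ^ 2) ^ 2 := by rw [← pow_mul]
    rw [h, e2]
    linear_combination (0) * ht + (0) * hp
  have e8 : (4 * t * (1 - t)) ^ 8 = 1 := by
    have h : (4 * t * (1 - t)) ^ 8 = ((4 * t * (1 - t)) ^ 4) ^ 2 := by rw [← pow_mul]
    rw [h, e4]
    linear_combination (0) * ht + (0) * hp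
  have e16 : (4 * t * (1 - t)) ^ 16 = 1 := by
    have h : (4 * t * (1 - t)) ^ 16 = ((4 * t * (1 - t)) ^ 8) ^ 2 := by rw [← pow_mul]
    rw [h, e8]
    linear_combination (0) * ht + (0) * hp
  exact e16

theorem h7_zero : h7 (0 : k) ≠ 0 := by simp [h7]

theorem h7_one (hp : ((7 : ℕ) : k) = 0) : h7 (1 : k) ≠ 0 := by
  push_cast at hp
  have : h7 (1 : k) = -1 := by
    unfold h7
    linear_combination (1) * hp
  rw [this]
  exact neg_ne_zero.2 one_ne_zero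

/-- Hasse polynomial, `p = 11` -/
def h11 (t : k) : k := 1 + 3*t + t^2 + t^3 + 3*t^4 + t^5

/-- the cofactor, `p = 11` -/
def q11 (t : k) : k := 10 + 3*t + 3*t^2 + 8*t^4 + 9*t^5 + 8*t^6 + 3*t^8 + 3*t^9 + 10*t^10 + t^15 + 8*t^16 + 8*t^17 + 3*t^19 + 2*t^20 + 3*t^21 + 8*t^23 + 8*t^24 + t^25

theorem h11_mul (hp : ((11 : ℕ) : k) = 0) (t : k) : h11 t * q11 t = t ^ 30 - 1 := by
  push_cast at hp
  unfold h11 q11
  linear_combination (1 + 3*t + 2*t^2 + 2*t^3 + 4*t^4 + 5*t^5 + 5*t^6 + 4*t^7 + 4*t^8 + 5*t^9 + 5*t^10 + 4*t^11 + 2*t^12 + 2*t^13 + 3*t^14 + t^15 + t^16 + 3*t^17 + 3*t^18 + 2*t^19 + 4*t^20 + 4*t^21 + 2*t^22 + 2*t^23 + 4*t^24 + 4*t^25 + 2*t^26 + 3*t^27 + 3*t^28 + t^29) * hp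

theorem h11_pol : ∃ P : k[X], P.natDegree ≤ 5 ∧ ∀ t, P.eval t = h11 t :=
  ⟨1 + 3 * X + X^2 + X^3 + 3 * X^4 + X^5, by compute_degree, fun t => by simp [h11]⟩

theorem q11_pol : ∃ P : k[X], P.natDegree ≤ 25 ∧ ∀ t, P.eval t = q11 t :=
  ⟨10 + 3 * X + 3 * X^2 + 8 * X^4 + 9 * X^5 + 8 * X^6 + 3 * X^8 + 3 * X^9 + 10 * X^10 + X^15 + 8 * X^16 + 8 * X^17 + 3 * X^19 + 2 * X^20 + 3 * X^21 + 8 * X^23 + 8 * X^24 + X^25, by compute_degree, fun t => by simp [q11]⟩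

theorem h11_clo (hp : ((11 : ℕ) : k) = 0) {v s : k} (hs : 4 * v * s = (v + 1) ^ 2) :
    (4 * v) ^ 5 * h11 s = h11 (v ^ 2) := by
  push_cast at hp
  have e : (4 * v) ^ 5 * h11 s = 1 * (4 * v) ^ 5 * (4 * v * s) ^ 0 + 3 * (4 * v) ^ 4 * (4 * v * s) ^ 1 + 1 * (4 * v) ^ 3 * (4 * v * s) ^ 2 + 1 * (4 * v) ^ 2 * (4 * v * s) ^ 3 + 3 * (4 * v) ^ 1 * (4 * v * s) ^ 4 + 1 * (4 * v) ^ 0 * (4 * v * s) ^ 5 := by
    unfold h11
    ring
  rw [e, hs]
  unfold h11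
  linear_combination (2*v + 14*v^2 + 56*v^3 + 195*v^4 + 396*v^5 + 195*v^6 + 56*v^7 + 14*v^8 + 2*v^9) * hp

theorem h11_cube (hp : ((11 : ℕ) : k) = 0) {t : k} (ht : h11 t = 0) :
    (4 * t * (1 - t)) ^ 40 = 1 := by
  push_cast at hp
  unfold h11 at ht
  have e1 : (4 * t * (1 - t)) ^ 1 = 4*t + 7*t^2 := by
    linear_combination (0) * ht + ((-1)*t^2) * hp
  have e2 : (4 * t * (1 - t)) ^ 2 = 5*t^2 + t^3 + 5*t^4 := by
    have h : (4 * t * (1 - t)) ^ 2 = ((4 * t * (1 - t)) ^ 1) ^ 2 := by rw [← pow_mul]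
    rw [h, e1]
    linear_combination (0) * ht + (t^2 + 5*t^3 + 4*t^4) * hp
  have e4 : (4 * t * (1 - t)) ^ 4 = 8 + t + 4*t^2 + t^3 + 5*t^4 := by
    have h : (4 * t * (1 - t)) ^ 4 = ((4 * t * (1 - t)) ^ 2) ^ 2 := by rw [← pow_mul]
    rw [h, e2]
    linear_combination (3 + t + t^2 + 3*t^3) * ht + ((-1) + (-1)*t + (-1)*t^2 + (-1)*t^3 + 4*t^6 + 2*t^8) * hp
  have e5 : (4 * t * (1 - t)) ^ 5 = 1 := by
    have h : (4 * t * (1 - t)) ^ 5 = (4 * t * (1 - t)) ^ 4 * (4 * t * (1 - t)) := by rw [← pow_succ]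
    rw [h, e4]
    linear_combination (10 + 2*t) * ht + ((-1) + (-4)*t^2 + (-4)*t^4 + (-2)*t^6) * hp
  have e10 : (4 * t * (1 - t)) ^ 10 = 1 := by
    have h : (4 * t * (1 - t)) ^ 10 = ((4 * t * (1 - t)) ^ 5) ^ 2 := by rw [← pow_mul]
    rw [h, e5]
    linear_combination (0) * ht + (0) * hp
  have e20 : (4 * t * (1 - t)) ^ 20 = 1 := by
    have h : (4 * t * (1 - t)) ^ 20 = ((4 * t * (1 - t)) ^ 10) ^ 2 := by rw [← pow_mul]
    rw [h, e10]
    linear_combination (0) * ht + (0) * hp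
  have e40 : (4 * t * (1 - t)) ^ 40 = 1 := by
    have h : (4 * t * (1 - t)) ^ 40 = ((4 * t * (1 - t)) ^ 20) ^ 2 := by rw [← pow_mul]
    rw [h, e20]
    linear_combination (0) * ht + (0) * hp
  exact e40

theorem h11_zero : h11 (0 : k) ≠ 0 := by simp [h11]

theorem h11_one (hp : ((11 : ℕ) : k) = 0) : h11 (1 : k) ≠ 0 := by
  push_cast at hp
  have : h11 (1 : k) = -1 := by
    unfold h11
    linear_combination (1) * hp
  rw [this]
  exact neg_ne_zero.2 one_ne_zero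

/-- Hasse polynomial, `p = 13` -/
def h13 (t : k) : k := 1 + 10*t + 4*t^2 + 10*t^3 + 4*t^4 + 10*t^5 + t^6

/-- the cofactor, `p = 13` -/
def q13 (t : k) : k := 12 + 10*t + 8*t^2 + 7*t^3 + 10*t^4 + 9*t^5 + 7*t^6 + t^7 + t^8 + 7*t^9 + 9*t^10 + 10*t^11 + 7*t^12 + 8*t^13 + 10*t^14 + 12*t^15 + t^21 + 3*t^22 + 5*t^23 + 6*t^24 + 3*t^25 + 4*t^26 + 6*t^27 + 12*t^28 + 12*t^29 + 6*t^30 + 4*t^31 + 3*t^32 + 6*t^33 + 5*t^34 + 3*t^35 + t^36

theorem h13_mul (hp : ((13 : ℕ) : k) = 0) (t : k) : h13 t * q13 t = t ^ 42 - 1 := by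
  push_cast at hp
  unfold h13 q13
  linear_combination (1 + 10*t + 12*t^2 + 19*t^3 + 20*t^4 + 29*t^5 + 27*t^6 + 25*t^7 + 19*t^8 + 18*t^9 + 17*t^10 + 17*t^11 + 18*t^12 + 19*t^13 + 25*t^14 + 27*t^15 + 29*t^16 + 20*t^17 + 19*t^18 + 12*t^19 + 10*t^20 + t^21 + t^22 + 3*t^23 + 6*t^24 + 9*t^25 + 10*t^26 + 13*t^27 + 15*t^28 + 21*t^29 + 22*t^30 + 23*t^31 + 23*t^32 + 22*t^33 + 21*t^34 + 15*t^35 + 13*t^36 + 10*t^37 + 9*t^38 + 6*t^39 + 3*t^40 + t^41) * hp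

theorem h13_pol : ∃ P : k[X], P.natDegree ≤ 6 ∧ ∀ t, P.eval t = h13 t :=
  ⟨1 + 10 * X + 4 * X^2 + 10 * X^3 + 4 * X^4 + 10 * X^5 + X^6, by compute_degree, fun t => by simp [h13]⟩

theorem q13_pol : ∃ P : k[X], P.natDegree ≤ 36 ∧ ∀ t, P.eval t = q13 t :=
  ⟨12 + 10 * X + 8 * X^2 + 7 * X^3 + 10 * X^4 + 9 * X^5 + 7 * X^6 + X^7 + X^8 + 7 * X^9 + 9 * X^10 + 10 * X^11 + 7 * X^12 + 8 * X^13 + 10 * X^14 + 12 * X^15 + X^21 + 3 * X^22 + 5 * X^23 + 6 * X^24 + 3 * X^25 + 4 * X^26 + 6 * X^27 + 12 * X^28 + 12 * X^29 + 6 * X^30 + 4 * X^31 + 3 * X^32 + 6 * X^33 + 5 * X^34 + 3 * X^35 + X^36, by compute_degree, fun t => by simp [q13]⟩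

theorem h13_clo (hp : ((13 : ℕ) : k) = 0) {v s : k} (hs : 4 * v * s = (v + 1) ^ 2) :
    (4 * v) ^ 6 * h13 s = h13 (v ^ 2) := by
  push_cast at hp
  have e : (4 * v) ^ 6 * h13 s = 1 * (4 * v) ^ 6 * (4 * v * s) ^ 0 + 10 * (4 * v) ^ 5 * (4 * v * s) ^ 1 + 4 * (4 * v) ^ 4 * (4 * v * s) ^ 2 + 10 * (4 * v) ^ 3 * (4 * v * s) ^ 3 + 4 * (4 * v) ^ 2 * (4 * v * s) ^ 4 + 10 * (4 * v) ^ 1 * (4 * v * s) ^ 5 + 1 * (4 * v) ^ 0 * (4 * v * s) ^ 6 := by
    unfold h13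
    ring
  rw [e, hs]
  unfold h13
  linear_combination (4*v + 40*v^2 + 244*v^3 + 919*v^4 + 2824*v^5 + 4538*v^6 + 2824*v^7 + 919*v^8 + 244*v^9 + 40*v^10 + 4*v^11) * hp

theorem h13_cube (hp : ((13 : ℕ) : k) = 0) {t : k} (ht : h13 t = 0) :
    (4 * t * (1 - t)) ^ 56 = 1 := by
  push_cast at hp
  unfold h13 at ht
  have e1 : (4 * t * (1 - t)) ^ 1 = 4*t + 9*t^2 := by
    linear_combination (0) * ht + ((-1)*t^2) * hp
  have e2 : (4 * t * (1 - t)) ^ 2 = 3*t^2 + 7*t^3 + 3*t^4 := by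
    have h : (4 * t * (1 - t)) ^ 2 = ((4 * t * (1 - t)) ^ 1) ^ 2 := by rw [← pow_mul]
    rw [h, e1]
    linear_combination (0) * ht + (t^2 + 5*t^3 + 6*t^4) * hp
  have e3 : (4 * t * (1 - t)) ^ 3 = 12 + 3*t + 9*t^2 + 2*t^3 + 12*t^4 := by
    have h : (4 * t * (1 - t)) ^ 3 = (4 * t * (1 - t)) ^ 2 * (4 * t * (1 - t)) := by rw [← pow_succ]
    rw [h, e2]
    linear_combination (1) * ht + ((-1) + (-1)*t + (-1)*t^2 + (-2)*t^5 + (-1)*t^6) * hp
  have e6 : (4 * t * (1 - t)) ^ 6 = 9 + 10*t + 6*t^2 + 7*t^3 + 3*t^4 := by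
    have h : (4 * t * (1 - t)) ^ 6 = ((4 * t * (1 - t)) ^ 3) ^ 2 := by rw [← pow_mul]
    rw [h, e3]
    linear_combination (5 + 12*t + t^2) * ht + (10 + 6*t^2 + (-1)*t^3 + 18*t^4 + 7*t^6 + 2*t^7 + 11*t^8) * hp
  have e7 : (4 * t * (1 - t)) ^ 7 = 12 := by
    have h : (4 * t * (1 - t)) ^ 7 = (4 * t * (1 - t)) ^ 6 * (4 * t * (1 - t)) := by rw [← pow_succ]
    rw [h, e6]
    linear_combination (1) * ht + ((-1) + 2*t + (-2)*t^3 + (-2)*t^5 + (-1)*t^6) * hp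
  have e14 : (4 * t * (1 - t)) ^ 14 = 1 := by
    have h : (4 * t * (1 - t)) ^ 14 = ((4 * t * (1 - t)) ^ 7) ^ 2 := by rw [← pow_mul]
    rw [h, e7]
    linear_combination (0) * ht + (11) * hp
  have e28 : (4 * t * (1 - t)) ^ 28 = 1 := by
    have h : (4 * t * (1 - t)) ^ 28 = ((4 * t * (1 - t)) ^ 14) ^ 2 := by rw [← pow_mul]
    rw [h, e14]
    linear_combination (0) * ht + (0) * hp
  have e56 : (4 * t * (1 - t)) ^ 56 = 1 := by
    have h : (4 * t * (1 - t)) ^ 56 = ((4 * t * (1 - t)) ^ 28) ^ 2 := by rw [← pow_mul]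
    rw [h, e28]
    linear_combination (0) * ht + (0) * hp
  exact e56

theorem h13_zero : h13 (0 : k) ≠ 0 := by simp [h13]

theorem h13_one (hp : ((13 : ℕ) : k) = 0) : h13 (1 : k) ≠ 0 := by
  push_cast at hp
  have : h13 (1 : k) = 1 := by
    unfold h13
    linear_combination (3) * hp
  rw [this]
  exact one_ne_zero

end

/-- the data of the Hasse polynomial -/
structure HD (k : Type) [Field k] (p m N : ℕ) (h : k → k) : Prop where
  pol : ∃ P : k[X], P.natDegree ≤ m ∧ ∀ t, P.eval t = h t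
  cof : ∃ Q : k[X], Q.natDegree ≤ N - m ∧ ∀ t, h t * Q.eval t = t ^ N - 1
  clo : ∀ v s : k, 4 * v * s = (v + 1) ^ 2 → (4 * v) ^ m * h s = h (v ^ 2)
  cube : ∀ t, h t = 0 → (4 * t * (1 - t)) ^ ((p ^ 2 - 1) / 3) = 1
  zero : h 0 ≠ 0
  one : h 1 ≠ 0
  hm : 2 * m = p - 1
  hN : 4 * N = p ^ 2 - 1
  hmN : m ≤ N
  h3 : 3 ∣ p ^ 2 - 1
  hp2 : p % 2 = 1
  hp1 : 1 < p

theorem hd5 {k : Type} [Field k] (hp : ((5 : ℕ) : k) = 0) : HD k 5 2 6 h5 where
  pol := h5_pol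
  cof := by
    obtain ⟨Q, h1, h2⟩ := q5_pol (k := k)
    exact ⟨Q, h1, fun t => by rw [h2, h5_mul hp]⟩
  clo _ _ hs := h5_clo hp hs
  cube _ ht := h5_cube hp ht
  zero := h5_zero
  one := h5_one hp
  hm := by norm_num
  hN := by norm_num
  hmN := by norm_num
  h3 := by norm_num
  hp2 := by norm_num
  hp1 := by norm_num

theorem hd7 {k : Type} [Field k] (hp : ((7 : ℕ) : k) = 0) : HD k 7 3 12 h7 where
  pol := h7_pol
  cof := by
    obtain ⟨Q, h1, h2⟩ := q7_pol (k := k)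
    exact ⟨Q, h1, fun t => by rw [h2, h7_mul hp]⟩
  clo _ _ hs := h7_clo hp hs
  cube _ ht := h7_cube hp ht
  zero := h7_zero
  one := h7_one hp
  hm := by norm_num
  hN := by norm_num
  hmN := by norm_num
  h3 := by norm_num
  hp2 := by norm_num
  hp1 := by norm_num

theorem hd11 {k : Type} [Field k] (hp : ((11 : ℕ) : k) = 0) : HD k 11 5 30 h11 where
  pol := h11_pol
  cof := by
    obtain ⟨Q, h1, h2⟩ := q11_pol (k := k)
    exact ⟨Q, h1, fun t => by rw [h2, h11_mul hp]⟩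
  clo _ _ hs := h11_clo hp hs
  cube _ ht := h11_cube hp ht
  zero := h11_zero
  one := h11_one hp
  hm := by norm_num
  hN := by norm_num
  hmN := by norm_num
  h3 := by norm_num
  hp2 := by norm_num
  hp1 := by norm_num

theorem hd13 {k : Type} [Field k] (hp : ((13 : ℕ) : k) = 0) : HD k 13 6 42 h13 where
  pol := h13_pol
  cof := by
    obtain ⟨Q, h1, h2⟩ := q13_pol (k := k)
    exact ⟨Q, h1, fun t => by rw [h2, h13_mul hp]⟩
  clo _ _ hs := h13_clo hp hs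
  cube _ ht := h13_cube hp ht
  zero := h13_zero
  one := h13_one hp
  hm := by norm_num
  hN := by norm_num
  hmN := by norm_num
  h3 := by norm_num
  hp2 := by norm_num
  hp1 := by norm_num

section

variable {k : Type} [Field k]

theorem char_zero_of_card {p : ℕ} (hk : Nat.card k = p ^ 2) : ((p : ℕ) : k) = 0 := by
  have h := card_nsmul_eq_zero' (G := k) (x := (1 : k))
  rw [hk, nsmul_one] at h
  push_cast at h
  exact pow_eq_zero_iff two_ne_zero |>.1 h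

theorem two_ne {p : ℕ} (hp : ((p : ℕ) : k) = 0) (hp2 : p % 2 = 1) : (2 : k) ≠ 0 := by
  intro h2
  have e : p = 2 * (p / 2) + 1 := by omega
  rw [e] at hp
  push_cast at hp
  rw [h2] at hp
  simp at hp

/-- the cyclic group: a `d`-th power criterion -/
theorem exists_root [Finite k] {d : ℕ} (hd : 0 < d) (hdk : d ∣ Nat.card k - 1) {x : k} (hx : x ≠ 0)
    (h : x ^ ((Nat.card k - 1) / d) = 1) : ∃ y : k, y ^ d = x := by
  have := Fintype.ofFinite k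
  obtain ⟨g, hg⟩ := IsCyclic.exists_generator (α := kˣ)
  obtain ⟨n, hn⟩ := Subgroup.mem_zpowers_iff.1 (hg (Units.mk0 x hx))
  have ho : orderOf g = Nat.card k - 1 := by
    rw [orderOf_eq_card_of_forall_mem_zpowers hg, Nat.card_units]
  obtain ⟨c, hc⟩ := hdk
  have h1 : (Units.mk0 x hx) ^ c = 1 := by
    have h2 : (Nat.card k - 1) / d = c := by rw [hc]; exact Nat.mul_div_cancel_left _ hd
    rw [h2] at h
    ext
    simpa using h
  rw [← hn, ← zpow_natCast, ← zpow_mul] at h1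
  have h2 := orderOf_dvd_iff_zpow_eq_one.2 h1
  rw [ho, hc] at h2
  have hc0 : (c : ℤ) ≠ 0 := by
    intro h0
    have hq : 1 < Nat.card k := Finite.one_lt_card
    have : c = 0 := by exact_mod_cast h0
    rw [this] at hc
    omega
  push_cast at h2
  rw [mul_comm (d : ℤ) c, mul_comm n (c : ℤ)] at h2
  obtain ⟨e, he⟩ := (mul_dvd_mul_iff_left hc0).1 h2
  refine ⟨((g ^ e : kˣ) : k), ?_⟩
  have h3 : (g ^ e) ^ d = Units.mk0 x hx := by
    rw [← hn, he, ← zpow_natCast, ← zpow_mul, mul_comm]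
  have := congrArg (fun u : kˣ => (u : k)) h3
  simpa using this

/-- three cube roots -/
theorem exists_cubes [Finite k] (h3 : 3 ∣ Nat.card k - 1) {x : k} (hx : x ≠ 0)
    (h : x ^ ((Nat.card k - 1) / 3) = 1) : ∃ Z : Finset k, Z.card = 3 ∧ ∀ z ∈ Z, z ^ 3 = x := by
  classical
  obtain ⟨y, hy⟩ := exists_root (by norm_num) h3 hx h
  have hy0 : y ≠ 0 := by
    rintro rfl
    exact hx (by rw [← hy]; simp)
  have := Fintype.ofFinite k
  have h3' : (3 : ℕ) ∣ Fintype.card kˣ := by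
    rw [← Nat.card_eq_fintype_card, Nat.card_units]
    exact h3
  have : Fact (Nat.Prime 3) := ⟨Nat.prime_three⟩
  obtain ⟨w, hw⟩ := exists_prime_orderOf_dvd_card 3 h3'
  have hw3 : (w : k) ^ 3 = 1 := by
    have := pow_orderOf_eq_one w
    rw [hw] at this
    rw [← Units.val_pow_eq_pow_val, this, Units.val_one]
  have hw1 : (w : k) ≠ 1 := by
    intro h1
    have : w = 1 := Units.ext (by rw [h1, Units.val_one])
    rw [this, orderOf_one] at hw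
    norm_num at hw
  have hw0 : (w : k) ≠ 0 := w.ne_zero
  have hw2 : (w : k) ^ 2 ≠ 1 := by
    intro h1
    apply hw1
    have : (w : k) ^ 3 = (w : k) ^ 2 * w := by ring
    rw [hw3, h1, one_mul] at this
    exact this.symm
  refine ⟨{y, (w : k) * y, (w : k) ^ 2 * y}, ?_, fun z hz => ?_⟩
  · rw [Finset.card_eq_three]
    refine ⟨y, (w : k) * y, (w : k) ^ 2 * y, ?_, ?_, ?_, rfl⟩
    · intro e
      exact hw1 (mul_right_cancel₀ hy0 (by rw [one_mul]; exact e.symm))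
    · intro e
      exact hw2 (mul_right_cancel₀ hy0 (by rw [one_mul]; exact e.symm))
    · intro e
      have e2 := mul_right_cancel₀ hy0 e
      apply hw1
      have : (w : k) * 1 = (w : k) * w := by rw [mul_one, ← pow_two]; exact e2
      exact (mul_left_cancel₀ hw0 this).symm
  · simp only [Finset.mem_insert, Finset.mem_singleton] at hz
    rcases hz with rfl | rfl | rfl
    · exact hy
    · rw [mul_pow, hw3, one_mul, hy]
    · rw [mul_pow, ← pow_mul, mul_comm 2 3, pow_mul, hw3, one_pow, one_mul, hy]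

theorem card_zeros_le [Fintype k] [DecidableEq k] {P : k[X]} {m : ℕ} (hm : P.natDegree ≤ m)
    (h0 : P.eval 0 ≠ 0) : (Finset.univ.filter fun a : k => P.eval (a ^ 4) = 0).card ≤ 4 * m := by
  have hP : P.comp (X ^ 4) ≠ 0 := by
    intro h
    apply h0
    have := congrArg (fun Q : k[X] => Q.eval 0) h
    simpa [eval_comp] using this
  have hd : (P.comp (X ^ 4)).natDegree ≤ 4 * m := by
    rw [natDegree_comp, natDegree_X_pow, mul_comm]
    exact Nat.mul_le_mul_left 4 hm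
  refine le_trans ?_ (le_trans (card_roots' (P.comp (X ^ 4))) hd)
  refine le_trans (Finset.card_le_card (t := (P.comp (X ^ 4)).roots.toFinset) fun a ha => ?_)
    (Multiset.toFinset_card_le _)
  rw [Finset.mem_filter] at ha
  rw [Multiset.mem_toFinset, mem_roots hP, IsRoot.def, eval_comp]
  simpa using ha.2

theorem exists_of {p m N : ℕ} {h : k → k} (hk : Nat.card k = p ^ 2) (H : HD k p m N h) :
    ∃ S : Finset k, S.card = 2 * (p - 1) ∧ ∀ a ∈ S, a ≠ 0 ∧ a ^ 4 ≠ 1 ∧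
      (∃ b ∈ S, -b ∈ S ∧ b ^ 2 * (2 * a) = a ^ 2 + 1) ∧
      ∃ Z : Finset k, Z.card = 3 ∧ ∀ z ∈ Z, z ^ 3 = 4 * a ^ 4 * (1 - a ^ 4) := by
  classical
  have hp := H.hp1
  have hpos : 0 < Nat.card k := by rw [hk]; positivity
  have : Finite k := Nat.finite_of_card_ne_zero hpos.ne'
  have := Fintype.ofFinite k
  have hcard : Fintype.card k = p ^ 2 := by rw [← Nat.card_eq_fintype_card, hk]
  have hp0 := char_zero_of_card hk
  have h2 : (2 : k) ≠ 0 := two_ne hp0 H.hp2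
  have h4 : (4 : k) ≠ 0 := by
    have : (4 : k) = 2 * 2 := by norm_num
    rw [this]
    exact mul_ne_zero h2 h2
  have hN := H.hN
  have hp2 : 1 < p ^ 2 := Nat.one_lt_pow two_ne_zero hp
  have hNpos : N ≠ 0 := by
    rintro rfl
    omega
  obtain ⟨P, hP1, hP2⟩ := H.pol
  obtain ⟨Q, hQ1, hQ2⟩ := H.cof
  set S : Finset k := Finset.univ.filter fun a : k => P.eval (a ^ 4) = 0 with hS
  have memS : ∀ a : k, a ∈ S ↔ h (a ^ 4) = 0 := fun a => by
    rw [hS, Finset.mem_filter, hP2]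
    simp
  have hQ0 : Q.eval 0 ≠ 0 := by
    intro hq
    have := hQ2 0
    rw [hq, mul_zero, zero_pow hNpos, zero_sub] at this
    exact neg_ne_zero.2 one_ne_zero this.symm
  have c1 : S.card ≤ 4 * m := card_zeros_le hP1 (by rw [hP2]; exact H.zero)
  have c2 := card_zeros_le hQ1 hQ0
  have c3 : (Finset.univ.erase (0 : k)).card ≤
      S.card + (Finset.univ.filter fun a : k => Q.eval (a ^ 4) = 0).card := by
    refine le_trans (Finset.card_le_card fun a ha => ?_) (Finset.card_union_le _ _)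
    rw [Finset.mem_erase] at ha
    have h1 := hQ2 (a ^ 4)
    have h3 : (a ^ 4) ^ N - 1 = 0 := by
      rw [← pow_mul, hN, ← hcard, FiniteField.pow_card_sub_one_eq_one a ha.1, sub_self]
    rw [h3] at h1
    rcases mul_eq_zero.1 h1 with h1 | h1
    · exact Finset.mem_union_left _ ((memS a).2 h1)
    · exact Finset.mem_union_right _ (by rw [Finset.mem_filter]; exact ⟨Finset.mem_univ _, h1⟩)
  rw [Finset.card_erase_of_mem (Finset.mem_univ _), Finset.card_univ, hcard] at c3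
  have hm := H.hm
  have hmN := H.hmN
  have c4 : S.card = 4 * m := by omega
  -- zeros of `h` are `N`-th roots of unity
  have hroot : ∀ t, h t = 0 → t ^ N = 1 := fun t ht => by
    have := hQ2 t
    rw [ht, zero_mul] at this
    exact (sub_eq_zero.1 this.symm)
  refine ⟨S, by rw [c4]; omega, fun a ha => ?_⟩
  rw [memS] at ha
  have ha0 : a ≠ 0 := by
    rintro rfl
    rw [zero_pow (by norm_num)] at ha
    exact H.zero ha
  have ha1 : a ^ 4 ≠ 1 := by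
    intro h1
    rw [h1] at ha
    exact H.one ha
  refine ⟨ha0, ha1, ?_, ?_⟩
  · -- closure
    set u : k := (a ^ 2 + 1) / (2 * a) with hu
    have hu1 : u * (2 * a) = a ^ 2 + 1 := by
      rw [hu]
      field_simp
    have hs : 4 * a ^ 2 * u ^ 2 = (a ^ 2 + 1) ^ 2 := by
      rw [← hu1]
      ring
    have h5 := H.clo (a ^ 2) (u ^ 2) hs
    rw [show (a ^ 2) ^ 2 = a ^ 4 by ring, ha] at h5
    have h6 : h (u ^ 2) = 0 := by
      rcases mul_eq_zero.1 h5 with h7 | h7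
      · exact absurd h7 (pow_ne_zero _ (mul_ne_zero h4 (pow_ne_zero _ ha0)))
      · exact h7
    have h7 := hroot _ h6
    have hu0 : u ≠ 0 := by
      intro h0
      rw [h0, zero_pow two_ne_zero, zero_pow hNpos] at h7
      exact zero_ne_one h7
    have h8 : u ^ (Fintype.card k / 2) = 1 := by
      rw [← pow_mul] at h7
      have : Fintype.card k / 2 = 2 * N := by
        rw [hcard]
        omega
      rw [this]
      exact h7
    have hchar : ringChar k ≠ 2 := by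
      intro hc
      apply h2
      have := ringChar.Nat.cast_ringChar (R := k)
      rw [hc] at this
      exact_mod_cast this
    obtain ⟨b, hb⟩ := (FiniteField.isSquare_iff hchar hu0).2 h8
    refine ⟨b, ?_, ?_, ?_⟩
    · rw [memS, show b ^ 4 = (b * b) ^ 2 by ring, ← hb]
      exact h6
    · rw [memS, show (-b) ^ 4 = (b * b) ^ 2 by ring, ← hb]
      exact h6
    · rw [pow_two, ← hb]
      exact hu1
  · have h5 := H.cube _ ha
    have h6 : 4 * a ^ 4 * (1 - a ^ 4) ≠ 0 :=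
      mul_ne_zero (mul_ne_zero h4 (pow_ne_zero _ ha0)) (sub_ne_zero.2 (Ne.symm ha1))
    refine exists_cubes ?_ h6 ?_
    · rw [hk]
      exact H.h3
    · rw [hk]
      exact h5

/-- The splitting set. -/
theorem exists_sset {p : ℕ} (hp : p = 5 ∨ p = 7 ∨ p = 11 ∨ p = 13) (hk : Nat.card k = p ^ 2) :
    ∃ S : Finset k, S.card = 2 * (p - 1) ∧ ∀ a ∈ S, a ≠ 0 ∧ a ^ 4 ≠ 1 ∧
      (∃ b ∈ S, -b ∈ S ∧ b ^ 2 * (2 * a) = a ^ 2 + 1) ∧
      ∃ Z : Finset k, Z.card = 3 ∧ ∀ z ∈ Z, z ^ 3 = 4 * a ^ 4 * (1 - a ^ 4) := by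
  have h0 := char_zero_of_card hk
  rcases hp with rfl | rfl | rfl | rfl
  · exact exists_of hk (hd5 h0)
  · exact exists_of hk (hd7 h0)
  · exact exists_of hk (hd11 h0)
  · exact exists_of hk (hd13 h0)

end

end Sset

end Pool.Agent.FF
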