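import Pool.Agent.FO.AllP
import Pool.Agent.FO.Sset

/-!
# `L(p ^ 2) ≥ (p + 1) / (2 + 1 / log₂ p)` for all primes `p ≥ 7`, from the towers
-/

set_option autoImplicit false

namespace Pool.Agent.FF

namespace AllP

/-- a single prime -/
theorem small {k : Type} [Field k] [Finite k] (h2 : (2 : k) ≠ 0) {p : ℕ} (hp : 7 ≤ p)
    (hk : Nat.card k = p ^ 2)
    (H : ∀ b : ℕ, TowerO k (8 * 3 ^ b, 16 * 3 ^ b, 8 * ((p : ℝ) - 1) * 3 ^ b)) {B κ : ℕ} {u : ℝ}
    (hb : BlkF B κ u) (hκ : κ < B) (hu : 0 ≤ u) (hu2 : u ≤ B) {x : ℕ}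
    (hx : 2 ^ x ≤ p ^ 4)
    (hin : ∀ l : ℝ, (x : ℝ) / 2 ≤ l → ((p : ℝ) + 1) * (2 * l + 2 + κ / B * (p - 1)) ≤
      (p - 1) * (2 - 2 * u / B) * (2 * l + 2)) :
    ENNReal.ofReal (((p : ℝ) + 1) / (2 + 1 / Real.logb 2 p)) ≤ LL k := by
  have hp0 : (0 : ℝ) < p := by exact_mod_cast (by omega : 0 < p)
  have hp7 : (7 : ℝ) ≤ p := by exact_mod_cast hp
  set lg : ℝ := Real.logb 2 p with hlg
  have hlg0 : 0 < lg := Real.logb_pos (by norm_num) (by linarith)
  have hxl : (x : ℝ) / 2 ≤ 2 * lg := by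
    have h1 : (x : ℝ) ≤ Real.logb 2 ((p : ℝ) ^ 4) := by
      rw [Real.le_logb_iff_rpow_le (by norm_num) (by positivity), Real.rpow_natCast]
      exact_mod_cast hx
    rw [Real.logb_pow] at h1
    push_cast at h1
    linarith
  have hlamk : (2 : ℝ) ^ (2 * lg) ≤ Nat.card k := by
    rw [hk, mul_comm, Real.rpow_mul (by norm_num), hlg,
      Real.rpow_logb (by norm_num) (by norm_num) hp0]
    push_cast
    norm_num
  have hB : (0 : ℝ) < B := by exact_mod_cast (by omega : 0 < B)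
  refine LL_dense h2 (by positivity) hlamk (s := (p : ℝ) - 1) (by linarith) H hb hκ hu hu2 ?_
  have h1 := hin (2 * lg) hxl
  have e2 : ((p : ℝ) + 1) / (2 + 1 / lg) = (p + 1) * (2 * lg) / (2 * (2 * lg) + 2) := by
    field_simp
  have e3 : ((p : ℝ) - 1) * (2 - 2 * u / B) / (2 + (2 + κ / B * (p - 1)) / (2 * lg)) =
      (p - 1) * (2 - 2 * u / B) * (2 * lg) / (2 * (2 * lg) + 2 + κ / B * (p - 1)) := by
    have : (0 : ℝ) ≤ κ / B * (p - 1) := by
      have : (0 : ℝ) ≤ (p : ℝ) - 1 := by linarith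
      positivity
    have h3 : (0 : ℝ) < 2 + (2 + κ / B * (p - 1)) / (2 * lg) := by positivity
    have h4 : (0 : ℝ) < 2 * (2 * lg) + 2 + κ / B * (p - 1) := by positivity
    rw [div_eq_div_iff h3.ne' h4.ne']
    field_simp
    ring
  have h5 : (0 : ℝ) < 2 * (2 * lg) + 2 + κ / B * (p - 1) := by
    have : (0 : ℝ) ≤ (p : ℝ) - 1 := by linarith
    have : (0 : ℝ) ≤ κ / B * (p - 1) := by positivity
    positivity
  rw [e2, e3, div_le_div_iff₀ (by positivity) h5]
  have h6 : 0 < 2 * lg := by positivity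
  nlinarith [mul_le_mul_of_nonneg_left h1 h6.le]

theorem blk_907 : BlkF 1000 907 (2 * (12 : ℕ) * (((1000 : ℕ) : ℝ) - (12 : ℕ)) / (1000 : ℕ)) :=
  blkF_eb (by norm_num) (by norm_num) (by decide +kernel)

theorem blk_46 : BlkF 248 46 ((83 : ℕ) : ℝ) :=
  blkF_lp (a := 7) (by norm_num) (by norm_num) (by decide +kernel) (by norm_num) (by norm_num)

end AllP

open AllP in
/-- **All primes**, from the towers. -/
theorem LL_of_towers {k : Type} [Field k] {p : ℕ} (hpp : p.Prime) (hp : 7 ≤ p)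
    (hk : Nat.card k = p ^ 2)
    (H : ∀ b : ℕ, TowerO k (8 * 3 ^ b, 16 * 3 ^ b, 8 * ((p : ℝ) - 1) * 3 ^ b)) :
    ENNReal.ofReal (((p : ℝ) + 1) / (2 + 1 / Real.logb 2 p)) ≤ LL k := by
  have : Finite k := Nat.finite_of_card_ne_zero (by rw [hk]; exact pow_ne_zero _ hpp.ne_zero)
  have hodd := hpp.odd_of_ne_two (by omega)
  have h2 : (2 : k) ≠ 0 := Sset.two_ne (Sset.char_zero_of_card hk) (Nat.odd_iff.1 hodd)
  obtain ⟨m, hm⟩ := hodd
  by_cases h8 : 8 ≤ m
  · subst hm
    have h := large h2 h8 hk (by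
      intro b
      have := H b
      push_cast at this
      have e : 8 * ((2 * (m : ℝ) + 1) - 1) * 3 ^ b = 8 * (2 * (m : ℝ)) * 3 ^ b := by ring
      rwa [e] at this)
    push_cast
    have e : (2 * (m : ℝ) + 1 + 1) = 2 * m + 2 := by ring
    rw [e]
    exact h
  · have h3 : m = 3 ∨ m = 4 ∨ m = 5 ∨ m = 6 ∨ m = 7 := by omega
    rcases h3 with rfl | rfl | rfl | rfl | rfl
    · subst hm
      refine small h2 hp hk H blk_907 (by norm_num) (by norm_num) (by norm_num) (x := 10)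
        (by norm_num) ?_
      intro l hl
      norm_num at hl ⊢
      nlinarith
    · subst hm
      exact absurd hpp (by norm_num)
    · subst hm
      refine small h2 hp hk H blk_907 (by norm_num) (by norm_num) (by norm_num) (x := 13)
        (by norm_num) ?_
      intro l hl
      norm_num at hl ⊢
      nlinarith
    · subst hm
      refine small h2 hp hk H blk_46 (by norm_num) (by norm_num) (by norm_num) (x := 14)
        (by norm_num) ?_
      intro l hl
      norm_num at hl ⊢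
      nlinarith
    · subst hm
      exact absurd hpp (by norm_num)

end Pool.Agent.FF
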