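import Pool.Agent.FO.BlkFLP

/-!
# The numbers for all primes
-/

set_option autoImplicit false

namespace Pool.Agent.FF

namespace AllP

open Real

theorem inv_log_two : 1 / Real.log 2 ≤ 1.4427 := by
  rw [div_le_iff₀ (Real.log_pos (by norm_num))]
  have := Real.log_two_gt_d9
  linarith

/-- the volume condition -/
theorem vol {m κ : ℕ} (hm : 8 ≤ m)
    (hκ : (m : ℝ) * (2 * Real.logb 2 m + 1 / Real.log 2) ≤ κ) :
    (m ^ 3) ^ (m ^ 3) < 2 ^ κ * (m ^ m * (m ^ 3 - m) ^ (m ^ 3 - m)) := by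
  obtain ⟨n, hn⟩ : ∃ n : ℕ, m ^ 2 = n + 1 := ⟨m ^ 2 - 1, by
    have : 1 ≤ m ^ 2 := Nat.one_le_pow _ _ (by omega)
    omega⟩
  have hn0 : 0 < n := by
    have : 8 ^ 2 ≤ m ^ 2 := Nat.pow_le_pow_left hm 2
    omega
  have h3 : m ^ 3 = m * n + m := by
    calc m ^ 3 = m * m ^ 2 := by ring
      _ = m * n + m := by rw [hn]; ring
  have h3' : m ^ 3 - m = m * n := by omega
  rw [h3', h3]
  have hm0 : (0 : ℝ) < m := by exact_mod_cast (by omega : 0 < m)
  have hn0' : (0 : ℝ) < n := by exact_mod_cast hn0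
  have hl2 : 0 < Real.log 2 := Real.log_pos (by norm_num)
  have key : ((n : ℝ) + 1) ^ (m * n + m) < 2 ^ κ * (n : ℝ) ^ (m * n) := by
    have h1 : ((n : ℝ) + 1) ^ (m * n) < (n : ℝ) ^ (m * n) * Real.exp m := by
      have h2 : (n : ℝ) + 1 = n * (1 / n + 1) := by field_simp; ring
      have h4 : (1 / (n : ℝ) + 1) ^ (m * n) < Real.exp m := by
        have h5 : 1 / (n : ℝ) + 1 < Real.exp (1 / n) := Real.add_one_lt_exp (by positivity)
        calc (1 / (n : ℝ) + 1) ^ (m * n) < Real.exp (1 / n) ^ (m * n) :=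
              pow_lt_pow_left₀ h5 (by positivity) (Nat.mul_ne_zero (by omega) (by omega))
          _ = Real.exp m := by
              rw [← Real.exp_nat_mul]
              congr 1
              push_cast
              field_simp
      rw [h2, mul_pow]
      exact mul_lt_mul_of_pos_left h4 (by positivity)
    have h6 : ((n : ℝ) + 1) ^ m = 2 ^ ((m : ℝ) * (2 * Real.logb 2 m)) := by
      have h7 : (n : ℝ) + 1 = (m : ℝ) ^ 2 := by exact_mod_cast hn.symm
      have h8 : (2 : ℝ) ^ Real.logb 2 m = m := Real.rpow_logb (by norm_num) (by norm_num) hm0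
      rw [h7, ← pow_mul]
      have h9 : (m : ℝ) * (2 * Real.logb 2 m) = Real.logb 2 m * ((2 * m : ℕ) : ℝ) := by
        push_cast
        ring
      rw [h9, Real.rpow_mul (by norm_num), h8, Real.rpow_natCast]
    have h7 : Real.exp m = 2 ^ ((m : ℝ) * (1 / Real.log 2)) := by
      rw [Real.rpow_def_of_pos (by norm_num)]
      congr 1
      field_simp
    have h8 : (2 : ℝ) ^ ((m : ℝ) * (2 * Real.logb 2 m)) * 2 ^ ((m : ℝ) * (1 / Real.log 2)) ≤
        2 ^ κ := by
      rw [← Real.rpow_add (by norm_num), ← Real.rpow_natCast 2 κ]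
      refine Real.rpow_le_rpow_of_exponent_le (by norm_num) ?_
      linarith
    calc ((n : ℝ) + 1) ^ (m * n + m) = ((n : ℝ) + 1) ^ (m * n) * ((n : ℝ) + 1) ^ m := pow_add _ _ _
      _ < (n : ℝ) ^ (m * n) * Real.exp m * ((n : ℝ) + 1) ^ m :=
          mul_lt_mul_of_pos_right h1 (by positivity)
      _ = (2 ^ ((m : ℝ) * (2 * Real.logb 2 m)) * 2 ^ ((m : ℝ) * (1 / Real.log 2))) *
            (n : ℝ) ^ (m * n) := by
          rw [h6, h7]
          ring
      _ ≤ 2 ^ κ * (n : ℝ) ^ (m * n) := mul_le_mul_of_nonneg_right h8 (by positivity)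
  have key' : (n + 1) ^ (m * n + m) < 2 ^ κ * n ^ (m * n) := by exact_mod_cast key
  have e1 : m * n + m = m * (n + 1) := by ring
  calc (m * n + m) ^ (m * n + m) = m ^ (m * n + m) * (n + 1) ^ (m * n + m) := by
        conv_lhs => rw [e1, mul_pow]
        rw [← e1]
    _ < m ^ (m * n + m) * (2 ^ κ * n ^ (m * n)) :=
        Nat.mul_lt_mul_of_pos_left key' (by positivity)
    _ = 2 ^ κ * (m ^ m * (m * n) ^ (m * n)) := by
        rw [mul_pow, pow_add]
        ring

/-- `log₂ m ≤ 3 + (m - 8) / (8 log 2)` -/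
theorem logb_le {m : ℝ} (hm : 8 ≤ m) : Real.logb 2 m ≤ 1.5573 + 0.18034 * m := by
  have hl2 : 0 < Real.log 2 := Real.log_pos (by norm_num)
  have h1 : Real.log m ≤ 3 * Real.log 2 + (m / 8 - 1) := by
    have h2 : Real.log m = Real.log 8 + Real.log (m / 8) := by
      rw [← Real.log_mul (by norm_num) (by positivity)]
      congr 1
      field_simp
    have h3 : Real.log 8 = 3 * Real.log 2 := by
      rw [show (8 : ℝ) = 2 ^ 3 by norm_num, Real.log_pow]
      push_cast
      ring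
    have h4 := Real.log_le_sub_one_of_pos (by positivity : 0 < m / 8)
    rw [h2, h3]
    linarith
  have h5 : Real.logb 2 m = Real.log m / Real.log 2 := rfl
  rw [h5, div_le_iff₀ hl2]
  have h6 := Real.log_two_gt_d9
  nlinarith

/-- the inequality -/
theorem ineq {m L κ lam : ℝ} (hm : 8 ≤ m) (hL : L ≤ 1.5573 + 0.18034 * m)
    (hκ : κ ≤ m * (2 * L + 1.4427) + 1) (hlam : 2 * L + 2 ≤ lam) :
    (m + 1) * κ ≤ (lam + 1) * (m ^ 2 - 3) := by
  have h1 : (m + 1) * κ ≤ (m + 1) * (m * (2 * L + 1.4427) + 1) :=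
    mul_le_mul_of_nonneg_left hκ (by linarith)
  have h2 : (2 * L + 3) * (m ^ 2 - 3) ≤ (lam + 1) * (m ^ 2 - 3) :=
    mul_le_mul_of_nonneg_right (by linarith) (by nlinarith)
  have h3 : (m + 1) * (m * (2 * L + 1.4427) + 1) ≤ (2 * L + 3) * (m ^ 2 - 3) := by
    have h4 : 2 * L * (m + 3) ≤ 2 * (1.5573 + 0.18034 * m) * (m + 3) :=
      mul_le_mul_of_nonneg_right (by linarith) (by linarith)
    nlinarith
  linarith

end AllP

end Pool.Agent.FF
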