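import Pool.Agent.FO.DenseLL
import Pool.Agent.FO.AllPNum

/-!
# `L(p ^ 2) ≥ (p + 1) / (2 + 1 / log₂ p)`
-/

set_option autoImplicit false

namespace Pool.Agent.FF

namespace AllP

/-- the large primes -/
theorem large {k : Type} [Field k] [Finite k] (h2 : (2 : k) ≠ 0) {m : ℕ} (hm : 8 ≤ m)
    (hk : Nat.card k = (2 * m + 1) ^ 2)
    (H : ∀ b : ℕ, TowerO k (8 * 3 ^ b, 16 * 3 ^ b, 8 * (2 * (m : ℝ)) * 3 ^ b)) :
    ENNReal.ofReal ((2 * m + 2) / (2 + 1 / Real.logb 2 (2 * m + 1))) ≤ LL k := by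
  set L : ℝ := Real.logb 2 m with hL
  have hmr : (8 : ℝ) ≤ m := by exact_mod_cast hm
  have hm0 : (0 : ℝ) < m := by linarith
  have hl2 : 0 < Real.log 2 := Real.log_pos (by norm_num)
  have hL0 : 0 ≤ L := Real.logb_nonneg (by norm_num) (by linarith)
  set X : ℝ := (m : ℝ) * (2 * L + 1 / Real.log 2) with hX
  have hX0 : 0 ≤ X := by positivity
  set κ : ℕ := ⌈X⌉₊ with hκ
  have hκ1 : X ≤ κ := Nat.le_ceil _
  have hκ2 : (κ : ℝ) < X + 1 := Nat.ceil_lt_add_one hX0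
  set lg : ℝ := Real.logb 2 (2 * m + 1) with hlg
  have hlg1 : L + 1 ≤ lg := by
    have h1 : L + 1 = Real.logb 2 (2 * m) := by
      rw [Real.logb_mul (by norm_num) (by positivity), Real.logb_self_eq_one (by norm_num)]
      ring
    rw [h1]
    exact Real.logb_le_logb_of_le (by norm_num) (by positivity) (by linarith)
  have hlg0 : 0 < lg := by linarith
  set lam : ℝ := 2 * lg with hlam
  have hlam0 : 0 < lam := by positivity
  have hlamk : (2 : ℝ) ^ lam ≤ Nat.card k := by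
    rw [hk, hlam, mul_comm, Real.rpow_mul (by norm_num), hlg,
      Real.rpow_logb (by norm_num) (by norm_num) (by positivity)]
    push_cast
    norm_num
  -- `t`
  obtain ⟨t, ht1, ht2, u, hu⟩ : ∃ t : ℕ, 2 * m ^ 2 - 3 ≤ t ∧ t ≤ 2 * m ^ 2 - 2 ∧
      ∃ u : ℕ, m ^ 3 = 2 * u + t := by
    have hb : 2 * m ^ 2 ≤ m ^ 3 := by
      have : m ^ 3 = m * m ^ 2 := by ring
      rw [this]
      exact Nat.mul_le_mul_right _ (by omega)
    have h64 : 8 ^ 2 ≤ m ^ 2 := Nat.pow_le_pow_left hm 2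
    rcases Nat.even_or_odd m with he | ho
    · have h3 : Even (m ^ 3) := (Nat.even_pow' (by norm_num)).2 he
      obtain ⟨v, hv⟩ := h3
      exact ⟨2 * m ^ 2 - 2, by omega, by omega, v - m ^ 2 + 1, by omega⟩
    · have h3 : Odd (m ^ 3) := ho.pow
      obtain ⟨v, hv⟩ := h3
      exact ⟨2 * m ^ 2 - 3, by omega, by omega, v - m ^ 2 + 2, by omega⟩
  have hmm : (m : ℝ) ^ 3 = 2 * u + t := by exact_mod_cast hu
  have ht1' : 2 * (m : ℝ) ^ 2 - 3 ≤ t := by
    have h1 : 2 * m ^ 2 ≤ t + 3 := by omega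
    have h2 : ((2 * m ^ 2 : ℕ) : ℝ) ≤ ((t + 3 : ℕ) : ℝ) := by exact_mod_cast h1
    push_cast at h2
    linarith
  -- the volume
  have hvol := vol hm hκ1
  have hL1 := logb_le hmr
  have h14 := inv_log_two
  have hκ3 : (κ : ℝ) ≤ m * (2 * L + 1.4427) + 1 := by
    have : X ≤ m * (2 * L + 1.4427) := mul_le_mul_of_nonneg_left (by linarith) hm0.le
    linarith
  have hin := ineq hmr hL1 hκ3 (lam := lam) (by rw [hlam]; linarith)
  have hκB : κ < m ^ 3 := by
    have h1 : (κ : ℝ) < (m : ℝ) ^ 3 := by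
      have h5 : m * (2 * L + 1.4427) + 1 < (m : ℝ) ^ 3 := by
        have h6 : 2 * L + 1.4427 ≤ 4.5573 + 0.36068 * m := by linarith
        have h7 : (m : ℝ) * (2 * L + 1.4427) ≤ m * (4.5573 + 0.36068 * m) :=
          mul_le_mul_of_nonneg_left h6 hm0.le
        nlinarith [mul_nonneg hm0.le (mul_nonneg hm0.le (by linarith : (0 : ℝ) ≤ m - 8))]
      linarith
    exact_mod_cast h1
  have hsq : (m ^ 3 - 2 * u) ^ 2 < 4 * m * (m ^ 3 - m) := by
    have h1 : m ^ 3 - 2 * u = t := by omega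
    rw [h1]
    obtain ⟨n, hn⟩ : ∃ n : ℕ, m ^ 2 = n + 1 := ⟨m ^ 2 - 1, by
      have : 1 ≤ m ^ 2 := Nat.one_le_pow _ _ (by omega)
      omega⟩
    have h3 : m ^ 3 - m = m * n := by
      have : m ^ 3 = m * n + m := by
        calc m ^ 3 = m * m ^ 2 := by ring
          _ = m * n + m := by rw [hn]; ring
      omega
    rw [h3]
    have h4 : t ≤ 2 * n := by omega
    have h5 : 4 * m * (m * n) = 4 * (n + 1) * n := by
      rw [← hn]
      ring
    rw [h5]
    have hn0 : 0 < n := by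
      have : 8 ^ 2 ≤ m ^ 2 := Nat.pow_le_pow_left hm 2
      omega
    calc t ^ 2 ≤ (2 * n) ^ 2 := Nat.pow_le_pow_left h4 2
      _ < 4 * (n + 1) * n := by nlinarith
  have hb : BlkF (m ^ 3) κ (u : ℝ) := blkF_lp (a := m) (by omega)
    (by
      have : m ^ 3 = m * m * m := by ring
      rw [this]
      nlinarith) hvol (by omega) hsq
  refine LL_dense h2 hlam0 hlamk (s := 2 * (m : ℝ)) (by positivity) H hb hκB (Nat.cast_nonneg _)
    (by
      push_cast
      rw [hmm]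
      have : (0 : ℝ) ≤ t := Nat.cast_nonneg _
      have : (0 : ℝ) ≤ u := Nat.cast_nonneg _
      linarith) ?_
  -- the inequality
  push_cast
  have e1 : (2 : ℝ) - 2 * u / (m : ℝ) ^ 3 = 1 + t / (m : ℝ) ^ 3 := by
    have : (m : ℝ) ^ 3 ≠ 0 := by positivity
    field_simp
    linarith
  rw [e1]
  have e2 : (2 * (m : ℝ) + 2) / (2 + 1 / lg) = (m + 1) * lam / (lam + 1) := by
    rw [hlam]
    field_simp
  have e3 : 2 * (m : ℝ) * (1 + t / (m : ℝ) ^ 3) /
      (2 + (2 + κ / (m : ℝ) ^ 3 * (2 * (m : ℝ))) / lam) =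
      (m + t / (m : ℝ) ^ 2) * lam / (lam + 1 + κ / (m : ℝ) ^ 2) := by
    field_simp
    ring
  rw [e2, e3, div_le_div_iff₀ (by positivity) (by positivity)]
  have h6 : (m + 1 : ℝ) * (lam + 1 + κ / (m : ℝ) ^ 2) ≤ (m + t / (m : ℝ) ^ 2) * (lam + 1) := by
    have h7 : (m + 1 : ℝ) * κ ≤ (t - (m : ℝ) ^ 2) * (lam + 1) := by
      refine hin.trans ?_
      rw [mul_comm]
      exact mul_le_mul_of_nonneg_right (by linarith) (by positivity)
    have hm2 : (0 : ℝ) < (m : ℝ) ^ 2 := by positivity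
    have h8 : (m + 1 : ℝ) * (κ / (m : ℝ) ^ 2) ≤ (t / (m : ℝ) ^ 2 - 1) * (lam + 1) := by
      have e4 : (t / (m : ℝ) ^ 2 - 1) * (lam + 1) = (t - (m : ℝ) ^ 2) * (lam + 1) / (m : ℝ) ^ 2 := by
        field_simp
      rw [e4, ← mul_div_assoc]
      gcongr
    nlinarith
  nlinarith [mul_le_mul_of_nonneg_left h6 hlam0.le]

end AllP

end Pool.Agent.FF
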