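import Pool.Agent.FO.BlkF
import Pool.Agent.FF.LPFam

/-!
# The first linear programming bound for families
-/

set_option autoImplicit false

namespace Pool.Agent.FF

open Finset

/-- **The linear programming bound.** -/
theorem blkF_lp {B a κ u : ℕ} (ha : 0 < a) (h2a : 2 * a ≤ B)
    (hκ : B ^ B < 2 ^ κ * (a ^ a * (B - a) ^ (B - a))) (hu : 2 * u ≤ B)
    (hlt : (B - 2 * u) ^ 2 < 4 * a * (B - a)) : BlkF B κ (u : ℝ) := by
  classical
  intro η hη
  obtain ⟨n₀, hn₀⟩ := LP.lp_block_fam B a κ u ha h2a hκ hu hlt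
  refine ⟨n₀, fun n hn => ⟨u * n, ?_, ?_⟩⟩
  · push_cast
    have : (0 : ℝ) ≤ η * n := by positivity
    have h1 : ((u : ℝ) + η) * n = u * n + η * n := by ring
    rw [h1]
    linarith
  · intro ι _ _ hι α _ f hα
    obtain ⟨x, y, hxy, h1⟩ := hn₀ n hn ι α f hι (by rw [Nat.card_eq_fintype_card]; exact hα)
    refine ⟨x, y, hxy, ?_⟩
    have h2 : hammingDist (f x) (f y) = hammingNorm (f x + f y) := by
      unfold hammingDist hammingNorm
      congr 1
      ext i
      simp only [mem_filter, mem_univ, true_and, Pi.add_apply]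
      have h3 : ∀ c d : ZMod 2, c ≠ d ↔ c + d ≠ 0 := by decide
      exact h3 _ _
    rw [h2]
    exact h1

end Pool.Agent.FF
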