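import Pool.Agent.FO.CoverO
import Pool.Agent.FO.BlkFLP
import Pool.Agent.FF.FinalE
import Pool.Agent.FF.FinalLL

/-! # From a tower to curves of every large genus, odd characteristic -/

set_option autoImplicit false

namespace Pool.Agent.FF

open Filter

/-- a linear function is below `c 2 ^ j` for large `j` -/
theorem linO (A B c : ℝ) (hc : 0 < c) : ∃ j0 : ℕ, ∀ j : ℕ, j0 ≤ j → A * j + B ≤ c * 2 ^ j := by
  have h1 : Tendsto (fun n : ℕ => (n : ℝ) ^ 1 / (2 : ℝ) ^ n) atTop (nhds 0) :=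
    tendsto_pow_const_div_const_pow_of_one_lt 1 one_lt_two
  have h2 : Tendsto (fun n : ℕ => (n : ℝ) ^ 0 / (2 : ℝ) ^ n) atTop (nhds 0) :=
    tendsto_pow_const_div_const_pow_of_one_lt 0 one_lt_two
  have h3 := (h1.const_mul A).add (h2.const_mul B)
  rw [mul_zero, mul_zero, add_zero] at h3
  have h4 := h3.eventually (ge_mem_nhds hc)
  rw [eventually_atTop] at h4
  obtain ⟨j0, hj0⟩ := h4
  refine ⟨j0, fun j hj => ?_⟩
  have h5 := hj0 j hj
  have hpos : (0 : ℝ) < 2 ^ j := by positivity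
  have h6 : A * ((j : ℝ) ^ 1 / 2 ^ j) + B * ((j : ℝ) ^ 0 / 2 ^ j) = (A * j + B) / 2 ^ j := by
    rw [pow_one, pow_zero]
    field_simp
  rw [h6, div_le_iff₀ hpos] at h5
  exact h5

/-- words without letters -/
theorem blkFN_zero : BlkFN 0 1 0 := by
  intro ι _ _ hι α _ f hα
  have h1 : 1 < Fintype.card α := by
    rw [pow_one] at hα
    omega
  obtain ⟨a, b, hab⟩ := Fintype.exists_pair_of_one_lt_card h1
  refine ⟨a, b, hab, ?_⟩
  have : IsEmpty ι := Fintype.card_eq_zero_iff.1 hι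
  have h2 : f a = f b := funext fun i => this.elim i
  rw [h2, hammingDist_self]

/-- **The curves of the families for one triple of parameters.** -/
theorem coversO_one {k : Type} [Field k] [Finite k] (h2 : (2 : k) ≠ 0) {lam : ℝ} (hlam0 : 0 < lam)
    (hlam : (2 : ℝ) ^ lam ≤ Nat.card k) {p : ℝ × ℝ × ℝ} (hp1 : 0 ≤ p.1) (hp2 : 0 ≤ p.2.1)
    (hp3 : 0 ≤ p.2.2) {B κb : ℕ} {u : ℝ} (hκB : κb < B) (hu : 0 ≤ u) (hblk : BlkF B κb u)
    (H : TowerO k p) (C : ℝ) :
    _root_.FF.CoversE (EC k) lam C {(p, ((κb : ℝ) / B, 2 * u / ((B : ℝ) - κb)))} := by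
  classical
  obtain ⟨A, b, HA⟩ := H
  intro ε hε
  obtain ⟨h, κ, ν⟩ := p
  simp only at hp1 hp2 hp3 HA
  -- the constants
  set b' : ℝ := max b 0 with hb'
  have hb'0 : 0 ≤ b' := le_max_right _ _
  have hbb' : b ≤ b' := le_max_left _ _
  have hB1 : (1 : ℝ) ≤ B := by
    have : 1 ≤ B := by omega
    exact_mod_cast this
  have hBκ : (1 : ℝ) ≤ (B : ℝ) - κb := by
    have : ((κb + 1 : ℕ) : ℝ) ≤ B := by exact_mod_cast hκB
    push_cast at this
    linarith
  have hκb0 : (0 : ℝ) ≤ κb := Nat.cast_nonneg _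
  -- the loss per block
  obtain ⟨η, hη0, hη⟩ : ∃ η : ℝ, 0 < η ∧ 8 * η * ν ≤ ε := by
    refine ⟨ε / (8 * (ν + 1)), by positivity, ?_⟩
    rw [mul_div_assoc', div_mul_eq_mul_div, div_le_iff₀ (by positivity)]
    linarith
  obtain ⟨n₀, hn₀⟩ := hblk η hη0
  obtain ⟨c, hc⟩ : ∃ c : ℕ, 2 * (|C| + 1) < (2 : ℝ) ^ c := pow_unbounded_of_one_lt _ one_lt_two
  set c0 : ℝ := 2 * b' * lam + b' + c + 2 with hc0
  have hc00 : 0 ≤ c0 := by positivity
  obtain ⟨j1, hj1⟩ := linO (A * lam) (A * lam + (5 + 2 * b') * lam) ε hε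
  obtain ⟨j2, hj2⟩ := linO 1 (c0 + B * (n₀ + 2) + b' + 1) ε hε
  obtain ⟨j3, hj3⟩ := linO (2 * (u + η)) (2 * b' + 2 + 2 * (u + η) * (c0 + n₀ + 2)) (ε / 4)
    (by linarith)
  obtain ⟨j4, hj4⟩ := linO 2 (2 * (c0 + b' + 2)) ε hε
  refine ⟨max j4 (max j1 (max j2 j3)), fun j hj p' hp' G hG1 hGC => ?_⟩
  rw [Set.mem_singleton_iff] at hp'
  subst hp'
  simp only at hG1
  have e1 := hj1 j (by omega)
  have e2 := hj2 j (by omega)
  have e3 := hj3 j (by omega)
  have e4 := hj4 j (by omega)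
  set m : ℝ := 2 ^ j with hm
  have hm0 : 0 < m := by rw [hm]; positivity
  have hm1 : 1 ≤ m := by rw [hm]; exact one_le_pow₀ one_le_two
  have hεm : 0 < ε * m := by positivity
  have hκm : 0 ≤ κ * m := by positivity
  have hhm : 0 ≤ h * m := by positivity
  have hνm : 0 ≤ ν * m := by positivity
  have hrat : 0 ≤ (κb / B : ℝ) * ν := by positivity
  have hratm : 0 ≤ (κb / B : ℝ) * ν * m := by positivity
  have hj0 : (0 : ℝ) ≤ j := Nat.cast_nonneg _
  -- the room
  set X : ℝ := ((G : ℝ) - 2 * h * m) * lam - κ * m with hX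
  have hXlow : (κb / B : ℝ) * ν * m + ε * m ≤ X := by
    rw [hX]
    linarith
  unfold _root_.FF.phiE
  simp only
  -- the field
  obtain ⟨K, iF, iA, g, n, T, hFF, hCv, hg, hSe, hn, hT, hTne, hTc, hQ⟩ := HA j
  have hgR : (g : ℝ) ≤ b' + h * m := by linarith
  have hnR : (n : ℝ) ≤ b' + κ * m := by linarith
  -- the degree of the places
  have hr5 : (A * (j + 1) + (5 + 2 * b')) * lam ≤ ((G : ℝ) - 2 * h * m) * lam := by
    calc (A * ((j : ℝ) + 1) + (5 + 2 * b')) * lam =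
          A * lam * j + (A * lam + (5 + 2 * b') * lam) := by ring
      _ ≤ ε * m := e1
      _ ≤ (κ + κb / B * ν + ε) * m := by linarith
      _ ≤ _ := hG1
  have hr5' : (A * ((j : ℝ) + 1) + (5 + 2 * b')) ≤ (G : ℝ) - 2 * h * m :=
    le_of_mul_le_mul_right hr5 hlam0
  have hGg : 2 * g + 2 ≤ G := by
    have h0 : (0 : ℝ) ≤ A * ((j : ℝ) + 1) := by positivity
    have : (2 : ℝ) * g + 2 ≤ G := by linarith
    exact_mod_cast this
  obtain ⟨r, hr⟩ : ∃ r : ℕ, 2 * g + r = G + 1 := ⟨G + 1 - 2 * g, by omega⟩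
  have hrR : (2 : ℝ) * g + r = G + 1 := by exact_mod_cast hr
  have hr3 : 3 ≤ r := by omega
  have hrA : A * (j + 1) ≤ r := by
    have : (A : ℝ) * ((j : ℝ) + 1) ≤ r := by linarith
    exact_mod_cast this
  obtain ⟨Q, hQdeg, hQcard⟩ := hQ r hrA
  -- a subset of the rational places
  obtain ⟨τ, hτ0, hτ1, hτ2, hτ3⟩ : ∃ τ : ℕ, 1 ≤ τ ∧ τ ≤ T.card ∧ (τ : ℝ) ≤ ν * m + 1 ∧
      ν * m - b' - 1 ≤ τ := by
    refine ⟨max 1 (min T.card ⌊ν * m⌋₊), le_max_left _ _, max_le hTne.card_pos (min_le_left _ _),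
      ?_, ?_⟩
    · have h1 : ((min T.card ⌊ν * m⌋₊ : ℕ) : ℝ) ≤ (⌊ν * m⌋₊ : ℝ) := by
        exact_mod_cast min_le_right _ _
      have h3 := h1.trans (Nat.floor_le (by positivity))
      rw [Nat.cast_max, max_le_iff, Nat.cast_one]
      exact ⟨by linarith, by linarith⟩
    · have h1 : ν * m - b' - 1 ≤ ((min T.card ⌊ν * m⌋₊ : ℕ) : ℝ) := by
        rw [Nat.cast_min, le_min_iff]
        constructor
        · linarith
        · have := Nat.lt_floor_add_one (ν * m)
          linarith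
      refine h1.trans ?_
      exact_mod_cast le_max_right 1 (min T.card ⌊ν * m⌋₊)
  obtain ⟨T₀, hT₀, hT₀c⟩ := Finset.exists_subset_card_eq hτ1
  have hT₀ne : T₀.Nonempty := by
    rw [← Finset.card_pos, hT₀c]
    omega
  -- the number of bits
  have hbits : ∀ M : ℕ, (M : ℝ) + c + j ≤ lam * r → 2 ^ M ≤ Q.card := by
    intro M hM
    have h1 : (2 : ℝ) ^ M * (2 * r) ≤ (2 * r) * Q.card := by
      have h3 : (2 : ℝ) * r ≤ 2 ^ c * 2 ^ j := by
        have h4 : (G : ℝ) ≤ |C| * m := hGC.trans (mul_le_mul_of_nonneg_right (le_abs_self C) hm0.le)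
        have h5 : (r : ℝ) ≤ G + 1 := by
          have : (0 : ℝ) ≤ g := Nat.cast_nonneg _
          linarith
        have h6 : 2 * (|C| + 1) * m ≤ 2 ^ c * m := mul_le_mul_of_nonneg_right hc.le hm0.le
        rw [← hm]
        linarith
      calc (2 : ℝ) ^ M * (2 * r) ≤ 2 ^ M * (2 ^ c * 2 ^ j) :=
            mul_le_mul_of_nonneg_left h3 (by positivity)
        _ = (2 : ℝ) ^ ((M : ℝ) + c + j) := by
            rw [Real.rpow_add two_pos, Real.rpow_add two_pos, Real.rpow_natCast, Real.rpow_natCast,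
              Real.rpow_natCast]
            ring
        _ ≤ (2 : ℝ) ^ (lam * r) := Real.rpow_le_rpow_of_exponent_le one_le_two hM
        _ = ((2 : ℝ) ^ lam) ^ r := by rw [Real.rpow_mul two_pos.le, Real.rpow_natCast]
        _ ≤ (Nat.card k : ℝ) ^ r := pow_le_pow_left₀ (by positivity) hlam r
        _ ≤ 2 * r * Q.card := by exact_mod_cast hQcard
    have h3 : (0 : ℝ) < 2 * r := by
      have : (0 : ℝ) < r := by exact_mod_cast (by omega : 0 < r)
      linarith
    have h4 : (2 : ℝ) ^ M ≤ Q.card := by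
      rw [mul_comm] at h1
      exact le_of_mul_le_mul_left h1 h3
    exact_mod_cast h4
  -- the room, in the field
  have hroom : X - c0 + c + 2 ≤ lam * r - n := by
    have h1 : lam * r = ((G : ℝ) + 1 - 2 * g) * lam := by
      have : (r : ℝ) = G + 1 - 2 * g := by linarith
      rw [this]; ring
    rw [h1, hX, hc0]
    have h3 : (G : ℝ) - 2 * h * m - 2 * b' ≤ (G : ℝ) + 1 - 2 * g := by linarith
    have h4 := mul_le_mul_of_nonneg_right h3 hlam0.le
    linarith
  have hG : 2 * g + r - 1 = G := by omega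
  have hn₀0 : (0 : ℝ) ≤ n₀ := Nat.cast_nonneg _
  have hn0 : (0 : ℝ) ≤ n := Nat.cast_nonneg _
  have hc'0 : (0 : ℝ) ≤ c := Nat.cast_nonneg _
  have hBn : (0 : ℝ) ≤ B * (n₀ + 2) := by positivity
  rcases le_or_gt (ν * m) X with hle | hlt
  · -- all points split
    obtain ⟨s, hs1, hs2, hs3⟩ : ∃ s : ℕ, s ≤ τ ∧ (s : ℝ) + n + 1 + c + j ≤ lam * r ∧
        ν * m - c0 - b' - 2 - j ≤ s := by
      have h0 : 0 ≤ lam * r - n - 1 - c - j := by linarith
      refine ⟨min τ ⌊lam * r - n - 1 - c - j⌋₊, min_le_left _ _, ?_, ?_⟩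
      · have h1 : ((min τ ⌊lam * r - n - 1 - c - j⌋₊ : ℕ) : ℝ) ≤
            (⌊lam * r - n - 1 - c - j⌋₊ : ℝ) := by exact_mod_cast min_le_right _ _
        have h3 := h1.trans (Nat.floor_le h0)
        linarith
      · rw [Nat.cast_min, le_min_iff]
        constructor
        · linarith
        · have := Nat.lt_floor_add_one (lam * r - n - 1 - c - j)
          linarith
    obtain ⟨N, hN, hcount⟩ := hasCurveO h2 hFF hCv hSe T₀ (fun P hP => hT P (hT₀ hP)) hT₀ne Q
      (by omega) hQdeg (s := s) blkFN_zero (by rw [hT₀c]; omega) (hbits _ (by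
        push_cast
        linarith))
    rw [hG] at hN
    refine ⟨N, ?_, hN⟩
    have h5 : 2 * s ≤ N := by
      rw [hT₀c] at hcount
      omega
    have h5' : 2 * (s : ℝ) ≤ N := by exact_mod_cast h5
    have h6 := min_le_right (2 * ν * m - 2 * u / ((B : ℝ) - κb) *
      (ν * m - (((G : ℝ) - 2 * h * m) * lam - κ * m))) (2 * ν * m)
    linarith
  -- the number of blocks
  set y : ℝ := (ν * m - X + (c0 + j)) / ((B : ℝ) - κb) with hy
  have hy0 : 0 ≤ y := by
    rw [hy]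
    have : 0 ≤ ν * m - X + (c0 + j) := by linarith
    have : 0 < (B : ℝ) - κb := by linarith
    positivity
  have hyB : ((B : ℝ) - κb) * y = ν * m - X + (c0 + j) := by
    rw [hy]
    have : (B : ℝ) - κb ≠ 0 := by linarith
    field_simp
  obtain ⟨w, hw1, hw2, hw3⟩ : ∃ w : ℕ, n₀ + 1 ≤ w ∧ y ≤ w ∧ (w : ℝ) ≤ y + n₀ + 2 := by
    refine ⟨⌈y⌉₊ + n₀ + 1, by omega, ?_, ?_⟩
    · push_cast
      have := Nat.le_ceil y
      linarith
    · push_cast
      have := Nat.ceil_lt_add_one hy0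
      linarith
  -- the blocks fit
  have hBX : (κb : ℝ) * (ν * m) + B * (ε * m) ≤ B * X := by
    have h1 := mul_le_mul_of_nonneg_left hXlow (by linarith : (0 : ℝ) ≤ B)
    have h3 : (B : ℝ) * ((κb / B : ℝ) * ν * m + ε * m) = κb * (ν * m) + B * (ε * m) := by
      field_simp
    rwa [h3] at h1
  have hfit : (B : ℝ) * w ≤ τ := by
    have h1 : (B : ℝ) * w ≤ B * (y + n₀ + 2) := mul_le_mul_of_nonneg_left hw3 (by linarith)
    have h3 : (B : ℝ) * (y + n₀ + 2) ≤ ν * m - b' - 1 := by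
      have h4 : ((B : ℝ) - κb) * (B * (y + n₀ + 2)) ≤ ((B : ℝ) - κb) * (ν * m - b' - 1) := by
        have h5 : ((B : ℝ) - κb) * (B * (y + n₀ + 2)) =
            B * (ν * m - X + (c0 + j)) + ((B : ℝ) - κb) * (B * (n₀ + 2)) := by
          rw [← hyB]; ring
        rw [h5]
        have h6 : ((B : ℝ) - κb) * (B * (n₀ + 2) + b' + 1) ≤ B * (B * (n₀ + 2) + b' + 1) :=
          mul_le_mul_of_nonneg_right (by linarith) (by positivity)
        have h7 : (B : ℝ) * ((c0 + j) + (B * (n₀ + 2) + b' + 1)) ≤ B * (ε * m) :=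
          mul_le_mul_of_nonneg_left (by linarith) (by linarith)
        have h8 : ((B : ℝ) - κb) * (ν * m - b' - 1) =
            B * (ν * m) - κb * (ν * m) - ((B : ℝ) - κb) * (b' + 1) := by ring
        have h9 : ((B : ℝ) - κb) * (B * (n₀ + 2) + b' + 1) =
            ((B : ℝ) - κb) * (B * (n₀ + 2)) + ((B : ℝ) - κb) * (b' + 1) := by ring
        have h10 : (B : ℝ) * (ν * m - X + (c0 + j)) = B * (ν * m) - B * X + B * (c0 + j) := by ring
        have h11 : (B : ℝ) * ((c0 + j) + (B * (n₀ + 2) + b' + 1)) =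
            B * (c0 + j) + B * (B * (n₀ + 2) + b' + 1) := by ring
        rw [h8, h10]
        rw [h9] at h6
        rw [h11] at h7
        linarith
      exact le_of_mul_le_mul_left h4 (by linarith)
    linarith
  have hfitN : B * w ≤ τ := by exact_mod_cast hfit
  obtain ⟨s, hs⟩ : ∃ s : ℕ, s + B * w = τ := ⟨τ - B * w, by omega⟩
  have hsR : (s : ℝ) + B * w = τ := by exact_mod_cast hs
  have hbig : ((n + s + κb * w : ℕ) : ℝ) + c + j ≤ lam * r := by
    push_cast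
    have h3 : ((B : ℝ) - κb) * y ≤ ((B : ℝ) - κb) * w :=
      mul_le_mul_of_nonneg_left hw2 (by linarith)
    have h4 : (s : ℝ) + κb * w = τ - ((B : ℝ) - κb) * w := by rw [← hsR]; ring
    linarith
  obtain ⟨v, hv, hblkN⟩ := hn₀ w (by omega)
  obtain ⟨N, hN, hcount⟩ := hasCurveO h2 hFF hCv hSe T₀ (fun P hP => hT P (hT₀ hP)) hT₀ne Q
    (by omega) hQdeg (s := s) hblkN (by rw [hT₀c, hs]) (hbits _ hbig)
  rw [hG] at hN
  refine ⟨N, ?_, hN⟩
  -- the count in the reals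
  have hw0 : (0 : ℝ) ≤ w := Nat.cast_nonneg _
  have hcR : 2 * (τ : ℝ) ≤ N + 2 * ((u + η) * w) := by
    have h1 : T₀.card - (s + B * w) = 0 := by rw [hT₀c]; omega
    rw [h1, zero_add, hT₀c] at hcount
    have h3 : ((2 * τ : ℕ) : ℝ) ≤ ((N + 2 * v : ℕ) : ℝ) := by exact_mod_cast hcount
    push_cast at h3
    linarith
  set β : ℝ := 2 * u / ((B : ℝ) - κb) with hβ
  have hbeta : β * ((B : ℝ) - κb) = 2 * u := by
    rw [hβ]
    have : (B : ℝ) - κb ≠ 0 := by linarith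
    field_simp
  have hβ0 : 0 ≤ β := by
    rw [hβ]
    have : 0 < (B : ℝ) - κb := by linarith
    positivity
  have hLy : 2 * u * y = β * (ν * m - X) + β * (c0 + j) := by
    rw [← hbeta]
    calc β * ((B : ℝ) - κb) * y = β * (((B : ℝ) - κb) * y) := by ring
      _ = _ := by rw [hyB]; ring
  have hβle : β ≤ 2 * u := by
    rw [← hbeta]
    exact le_mul_of_one_le_right hβ0 hBκ
  have hX0 : 0 ≤ X := by linarith
  have hyle : y ≤ ν * m + (c0 + j) := by
    have h1 : y ≤ ((B : ℝ) - κb) * y := le_mul_of_one_le_left hy0 hBκ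
    rw [hyB] at h1
    linarith
  have hp1' : 2 * u * w ≤ β * (ν * m - X) + 2 * u * ((c0 + j) + n₀ + 2) := by
    have h1 : 2 * u * w ≤ 2 * u * (y + n₀ + 2) := mul_le_mul_of_nonneg_left hw3 (by linarith)
    have h3 : β * (c0 + j) ≤ 2 * u * (c0 + j) := mul_le_mul_of_nonneg_right hβle (by linarith)
    have h4 : 2 * u * (y + n₀ + 2) = 2 * u * y + 2 * u * (n₀ + 2) := by ring
    rw [h4, hLy] at h1
    linarith
  have hp2' : 2 * η * w ≤ ε / 4 * m + 2 * η * ((c0 + j) + n₀ + 2) := by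
    have h1 : 2 * η * w ≤ 2 * η * (ν * m + (c0 + j) + n₀ + 2) :=
      mul_le_mul_of_nonneg_left (by linarith) (by linarith)
    have h3 : 2 * η * (ν * m) ≤ ε / 4 * m := by
      calc 2 * η * (ν * m) = 8 * η * ν / 4 * m := by ring
        _ ≤ _ := mul_le_mul_of_nonneg_right (by linarith) hm0.le
    linarith
  have hmin := min_le_left (2 * ν * m - β *
      (ν * m - (((G : ℝ) - 2 * h * m) * lam - κ * m))) (2 * ν * m)
  rw [← hX] at hmin ⊢
  have h9 : 2 * (u + η) * (c0 + n₀ + 2) + 2 * (u + η) * j =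
      2 * u * ((c0 + j) + n₀ + 2) + 2 * η * ((c0 + j) + n₀ + 2) := by ring
  have h10 : ε / 4 * m + ε / 4 * m ≤ ε * m := by
    have h12 : ε / 4 * m + ε / 4 * m = ε * m / 2 := by ring
    rw [h12]
    linarith
  have h11 : 2 * ((u + η) * w) = 2 * u * w + 2 * η * w := by ring
  linarith

end Pool.Agent.FF
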