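import Pool.Agent.FF.Over
import Pool.Agent.FF.Rat

/-! The special places of the tower `x' ^ 2 = (x ^ 2 + 1) / (2 x)`: above a place which is not special
there is no special place. -/

set_option autoImplicit false
set_option linter.unusedSectionVars false

namespace Pool.Agent.FF

/-- `x`, `x - 1`, `x + 1` and `x ^ 2 + 1` are units at `v`. -/
def UO {K : Type*} [Field K] (v : DV K) (x : K) : Prop :=
  v.ord x = 0 ∧ v.ord (x - 1) = 0 ∧ v.ord (x + 1) = 0 ∧ v.ord (x ^ 2 + 1) = 0 ∧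
    x ≠ 0 ∧ x - 1 ≠ 0 ∧ x + 1 ≠ 0 ∧ x ^ 2 + 1 ≠ 0

/-- a nonzero natural number of a field over a finite field is a unit at all places -/
theorem DV.ord_two {K : Type*} [Field K] {k : Type*} [Field k] [Finite k] [Algebra k K] (v : DV K) :
    v.ord (2 : K) = 0 := by
  have h : (2 : K) = algebraMap k K 2 := (map_ofNat (algebraMap k K) 2).symm
  rw [h]
  exact v.ord_const 2

section

variable {k K K' : Type*} [Field k] [Finite k] [Field K] [Field K'] [Algebra k K] [Algebra K K']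

theorem UO.f (h2 : (2 : K) ≠ 0) {v : DV K} {x : K} (h : UO v x) :
    (x ^ 2 + 1) / (2 * x) ≠ 0 ∧ v.ord ((x ^ 2 + 1) / (2 * x)) = - v.ord (2 : K) := by
  obtain ⟨h1, -, -, h4, h5, -, -, h8⟩ := h
  have h6 : (2 : K) * x ≠ 0 := mul_ne_zero h2 h5
  refine ⟨div_ne_zero h8 h6, ?_⟩
  rw [v.ord_div h8 h6, h4, v.ord_mul _ _ h2 h5, h1]
  ring

include k in
/-- Above a place which is not special there is no special place. -/
theorem UO.up (h2 : (2 : K) ≠ 0) {v : DV K} {x : K} (h : UO v x) {w : DV K'} (hw : Over w v) {z : K'}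
    (hz : z ^ 2 = algebraMap K K' ((x ^ 2 + 1) / (2 * x))) (hv2 : v.ord (2 : K) = 0) : UO w z := by
  have h2' : (2 : K') ≠ 0 := by
    have : (2 : K') = algebraMap K K' 2 := (map_ofNat (algebraMap K K') 2).symm
    rw [this]
    exact map_ne_zero' h2
  obtain ⟨hf0, hf⟩ := h.f h2
  rw [hv2, neg_zero] at hf
  obtain ⟨h1, h3, h4, h5, hx0, hx1, hx2, hx3⟩ := h
  obtain ⟨e, he, hord⟩ := hw
  have hxx : (2 : K) * x ≠ 0 := mul_ne_zero h2 hx0
  have hz0 : z ≠ 0 := by
    rintro rfl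
    rw [zero_pow (by norm_num)] at hz
    exact map_ne_zero' hf0 hz.symm
  have hoz : w.ord z = 0 := by
    have := congrArg w.ord hz
    rw [w.ord_pow hz0, hord _ hf0, hf, mul_zero] at this
    push_cast at this
    omega
  have e1 : (z - 1) * (z + 1) = algebraMap K K' ((x - 1) ^ 2 / (2 * x)) := by
    have e0 : (x - 1) ^ 2 / (2 * x) = (x ^ 2 + 1) / (2 * x) - 1 := by
      field_simp
      ring
    rw [e0, map_sub, map_one, ← hz]
    ring
  have e2 : z ^ 2 + 1 = algebraMap K K' ((x + 1) ^ 2 / (2 * x)) := by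
    have e0 : (x + 1) ^ 2 / (2 * x) = (x ^ 2 + 1) / (2 * x) + 1 := by
      field_simp
      ring
    rw [e0, map_add, map_one, ← hz]
  have hn1 : (x - 1) ^ 2 / (2 * x) ≠ 0 := div_ne_zero (pow_ne_zero 2 hx1) hxx
  have hn2 : (x + 1) ^ 2 / (2 * x) ≠ 0 := div_ne_zero (pow_ne_zero 2 hx2) hxx
  have ho1 : v.ord ((x - 1) ^ 2 / (2 * x)) = 0 := by
    rw [v.ord_div (pow_ne_zero 2 hx1) hxx, v.ord_pow hx1, h3, v.ord_mul _ _ h2 hx0, hv2, h1]
    norm_num
  have ho2 : v.ord ((x + 1) ^ 2 / (2 * x)) = 0 := by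
    rw [v.ord_div (pow_ne_zero 2 hx2) hxx, v.ord_pow hx2, h4, v.ord_mul _ _ h2 hx0, hv2, h1]
    norm_num
  have hz1 : z - 1 ≠ 0 := by
    intro h
    rw [h, zero_mul] at e1
    exact map_ne_zero' hn1 e1.symm
  have hz2 : z + 1 ≠ 0 := by
    intro h
    rw [h, mul_zero] at e1
    exact map_ne_zero' hn1 e1.symm
  have hz3 : z ^ 2 + 1 ≠ 0 := by
    rw [e2]
    exact map_ne_zero' hn2
  have hs : w.ord (z - 1) + w.ord (z + 1) = 0 := by
    have := congrArg w.ord e1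
    rwa [w.ord_mul _ _ hz1 hz2, hord _ hn1, ho1, mul_zero] at this
  have hG : w.G 0 z := DV.G_of_le hoz.ge
  have hm : 0 ≤ w.ord (z - 1) := (hG.sub DV.G_one).le hz1
  have hp : 0 ≤ w.ord (z + 1) := (hG.add DV.G_one).le hz2
  refine ⟨hoz, by omega, by omega, ?_, hz0, hz1, hz2, hz3⟩
  rw [e2, hord _ hn2, ho2, mul_zero]

end

end Pool.Agent.FF
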