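import Pool.Agent.FO.Defs
import Pool.Agent.FO.StepU

/-! # Levels of the tower -/

set_option autoImplicit false

namespace Pool.Agent.FF

/-- A level of the tower: the function `x`, genus `g`, the places where `x`, `x - 1`, `x + 1` or
`x ^ 2 + 1` is not a unit have total degree at most `W`, `t` points over the set `S` of values. -/
structure LvP (p : ℕ) (k K : Type) [Field k] [Field K] [Algebra k K] (S : Finset k) (x : K)
    (g W t B C M : ℕ) : Prop where
  ff : IsFF k K
  cv : Cv k K g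
  se : Se K (2 * g + 1)
  sp : ∃ A : Finset (DV K), (∀ v, v ∉ A → UO v x) ∧ ∑ v ∈ A, v.deg (Nat.card k) ≤ W
  pole : ∃ R : DV K, R.Rat k ∧ R.ord x < 0 ∧ Odd (R.ord x)
  pts : ∃ T : Finset (DV K), t ≤ T.card ∧ ∀ v ∈ T, v.Rat k ∧ ∃ α ∈ S, v.G 1 (x - algebraMap k K α)
  pl : HasPlO p k K B C M

end Pool.Agent.FF
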