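import Pool.Agent.FO.Defs
import Pool.Agent.FF.RatCv

/-! # Unramified classes: monotonicity, the rational function field -/

set_option autoImplicit false

namespace Pool.Agent.FF

open Finset

theorem Se.mono {K : Type} [Field K] {s s' : ℕ} (h : Se K s) (hs : s ≤ s') : Se K s' := by
  intro a ha
  have hle : 2 ^ s + 1 ≤ 2 ^ s' + 1 := by
    have := Nat.pow_le_pow_right (show 0 < 2 by norm_num) hs
    omega
  obtain ⟨i, j, hij, b, hb, h1⟩ := h (fun i => a (Fin.castLE hle i)) (fun i => ha _)
  exact ⟨Fin.castLE hle i, Fin.castLE hle j, fun h => hij (Fin.castLE_injective hle h), b, hb, h1⟩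

section base

open Polynomial

variable {k : Type} [Field k] [Finite k]

/-- a polynomial with even orders everywhere is a constant times a square -/
theorem poly_sq (n : ℕ) : ∀ f : k[X], f ≠ 0 → f.natDegree ≤ n →
    (∀ v : DV (RatFunc k), Even (v.ord (algebraMap k[X] (RatFunc k) f))) →
    ∃ (c : k) (g : k[X]), c ≠ 0 ∧ g ≠ 0 ∧ f = C c * g ^ 2 := by
  induction n with
  | zero =>
    intro f hf hn _
    obtain ⟨c, hc⟩ := natDegree_eq_zero.mp (Nat.le_zero.mp hn)
    refine ⟨c, 1, ?_, one_ne_zero, by rw [hc]; ring⟩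
    rintro rfl
    apply hf
    rw [← hc, C_0]
  | succ n ih =>
    intro f hf hn hev
    by_cases hn' : f.natDegree ≤ n
    · exact ih f hf hn' hev
    have hu : ¬ IsUnit f := by
      intro hu
      have := natDegree_eq_zero_of_isUnit hu
      omega
    obtain ⟨π, hm, hπ, g, rfl⟩ := exists_monic_irreducible_factor f hu
    have hg : g ≠ 0 := right_ne_zero_of_mul hf
    have hπ0 : π ≠ 0 := left_ne_zero_of_mul hf
    have hat := Rat.fin_at hπ hm
    have h1 := hev (Rat.fin π hπ)
    rw [map_mul, DV.ord_mul _ _ _ (Rat.coe_ne hπ0) (Rat.coe_ne hg), hat.ord_self] at h1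
    have h2 : π ∣ g := by
      by_contra hcon
      rw [hat.ord_zero' hcon] at h1
      revert h1
      decide
    obtain ⟨f', rfl⟩ := h2
    have hf' : f' ≠ 0 := right_ne_zero_of_mul hg
    have hpos : 0 < π.natDegree := hπ.natDegree_pos
    obtain ⟨c, g', hc, hg', he⟩ := ih f' hf' (by
      rw [natDegree_mul hπ0 hg, natDegree_mul hπ0 hf'] at hn
      omega) (by
      intro v
      have h3 := hev v
      rw [map_mul, map_mul, DV.ord_mul _ _ _ (Rat.coe_ne hπ0)
        (mul_ne_zero (Rat.coe_ne hπ0) (Rat.coe_ne hf')),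
        DV.ord_mul _ _ _ (Rat.coe_ne hπ0) (Rat.coe_ne hf')] at h3
      obtain ⟨r, hr⟩ := h3
      exact ⟨r - v.ord (algebraMap k[X] (RatFunc k) π), by linarith⟩)
    exact ⟨c, π * g', hc, mul_ne_zero hπ0 hg', by rw [he]; ring⟩

/-- a rational function with even orders everywhere is a constant times a square -/
theorem ratFunc_sq {a : RatFunc k} (ha : a ≠ 0) (hev : ∀ v : DV (RatFunc k), Even (v.ord a)) :
    ∃ (c : k) (b : RatFunc k), c ≠ 0 ∧ b ≠ 0 ∧ a = algebraMap k (RatFunc k) c * b ^ 2 := by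
  have hq : algebraMap k[X] (RatFunc k) a.denom ≠ 0 := Rat.coe_ne (RatFunc.denom_ne_zero a)
  have hp : a.num ≠ 0 := RatFunc.num_ne_zero ha
  have hnd := RatFunc.num_div_denom a
  have hp0 := RatFunc.denom_ne_zero a
  generalize a.denom = D at hq hnd hp0
  generalize a.num = N at hp hnd
  have he : a * algebraMap k[X] (RatFunc k) D ^ 2 = algebraMap k[X] (RatFunc k) (N * D) := by
    rw [← hnd, map_mul, pow_two, ← mul_assoc, div_mul_cancel₀ _ hq]
  obtain ⟨c, g, hc, hg, h⟩ := poly_sq (N * D).natDegree (N * D) (mul_ne_zero hp hp0) le_rfl (by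
      intro v
      rw [← he, DV.ord_mul _ _ _ ha (pow_ne_zero 2 hq), pow_two, DV.ord_mul _ _ _ hq hq]
      exact (hev v).add ⟨_, rfl⟩)
  refine ⟨c, algebraMap k[X] (RatFunc k) g * (algebraMap k[X] (RatFunc k) D)⁻¹, hc,
    mul_ne_zero (Rat.coe_ne hg) (inv_ne_zero hq), ?_⟩
  rw [h, map_mul, map_pow, Rat.coe_C] at he
  rw [mul_pow, ← mul_assoc, ← he, mul_assoc, ← mul_pow, mul_inv_cancel₀ hq, one_pow, mul_one]

/-- the rational function field: only the constants -/
theorem Se.base (k : Type) [Field k] [Finite k] (h2 : (2 : k) ≠ 0) : Se (RatFunc k) 1 := by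
  classical
  have : Fintype k := Fintype.ofFinite k
  intro a ha
  choose c b hc hb hab using fun i => ratFunc_sq (ha i).1 (ha i).2
  -- two of the three constants have the same quadratic character
  obtain ⟨i, j, hij, hχ⟩ : ∃ i j, i ≠ j ∧ quadraticChar k (c i) = quadraticChar k (c j) := by
    by_contra hcon
    push Not at hcon
    have h01 := hcon 0 1 (by decide)
    have h02 := hcon 0 2 (by decide)
    have h12 := hcon 1 2 (by decide)
    rcases quadraticChar_dichotomy (hc 0) with e0 | e0 <;>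
    rcases quadraticChar_dichotomy (hc 1) with e1 | e1 <;>
    rcases quadraticChar_dichotomy (hc 2) with e2 | e2 <;>
    rw [e0, e1] at h01 <;> rw [e0, e2] at h02 <;> rw [e1, e2] at h12 <;> simp_all
  have hsq : IsSquare (c i * c j) := by
    rw [← quadraticChar_one_iff_isSquare (mul_ne_zero (hc i) (hc j)), map_mul, hχ]
    rcases quadraticChar_dichotomy (hc j) with e | e <;> rw [e] <;> simp
  obtain ⟨d, hd⟩ := hsq
  have hd0 : d ≠ 0 := by
    rintro rfl
    rw [mul_zero] at hd
    exact mul_ne_zero (hc i) (hc j) hd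
  have hcj := hc j
  have hcj' : algebraMap k (RatFunc k) (c j) ≠ 0 := by
    rw [Ne, map_eq_zero]
    exact hcj
  refine ⟨i, j, hij, algebraMap k (RatFunc k) (d * (c j)⁻¹) * (b i * (b j)⁻¹), ?_, ?_⟩
  · refine mul_ne_zero ?_ (mul_ne_zero (hb i) (inv_ne_zero (hb j)))
    rw [Ne, map_eq_zero]
    exact mul_ne_zero hd0 (inv_ne_zero hcj)
  · have e1 : c i = c j * (d * (c j)⁻¹) ^ 2 := by
      field_simp
      rw [hd]
      ring
    have hbj := hb j
    have e2 : b i ^ 2 = b j ^ 2 * (b i * (b j)⁻¹) ^ 2 := by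
      field_simp
    rw [hab i, hab j, e1, e2, map_mul, map_pow]
    ring

end base

/-- the odd places of a function: their number is at most their total degree -/
theorem Cv.odd_finset {k K : Type} [Field k] [Finite k] [Field K] [Algebra k K] {g : ℕ}
    (C : Cv k K g) {f : K} (hf : f ≠ 0) : ∃ B : Finset (DV K), (∀ v : DV K, Odd (v.ord f) → v ∈ B) ∧
      B.card ≤ dgS (Nat.card k) {v : DV K | Odd (v.ord f)} := by
  have hfin : {v : DV K | Odd (v.ord f)}.Finite := by
    refine ((C.poles f).union (C.poles f⁻¹)).subset fun v hv => ?_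
    by_contra hcon
    simp only [Set.mem_union, Set.mem_setOf_eq, not_or, not_not] at hcon
    obtain ⟨h1, h2⟩ := hcon
    have h3 := h1.le hf
    have h4 := h2.le (inv_ne_zero hf)
    rw [v.ord_inv hf] at h4
    have h5 : v.ord f = 0 := by omega
    rw [Set.mem_setOf_eq, h5] at hv
    revert hv
    decide
  refine ⟨hfin.toFinset, fun v hv => hfin.mem_toFinset.2 hv, ?_⟩
  rw [dgS, finsum_mem_eq_finite_toFinset_sum _ hfin, Finset.card_eq_sum_ones]
  exact Finset.sum_le_sum fun v _ => (C.res v).1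

end Pool.Agent.FF
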