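import Pool.Agent.FO.Quad
import Pool.Agent.FO.SelB
import Pool.Agent.FF.Twist

/-! # Unramified classes: the genus theory of quadratic extensions -/

set_option autoImplicit false
set_option linter.unusedSectionVars false

namespace Pool.Agent.FF

open Finset

/-! ### The groups -/

/-- the functions with even orders outside `B` -/
def evB (K : Type*) [Field K] (B : Set (DV K)) : Subgroup Kˣ where
  carrier := {a | ∀ v : DV K, v ∉ B → Even (v.ord (a : K))}
  one_mem' := fun v _ => by
    rw [Units.val_one, v.ord_one]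
    exact Even.zero
  mul_mem' := fun {a b} ha hb v hv => by
    rw [Units.val_mul, v.ord_mul _ _ a.ne_zero b.ne_zero]
    exact (ha v hv).add (hb v hv)
  inv_mem' := fun {a} ha v hv => by
    rw [Units.val_inv_eq_inv_val, v.ord_inv a.ne_zero]
    exact (ha v hv).neg

theorem mem_evB {K : Type*} [Field K] {B : Set (DV K)} {a : Kˣ} :
    a ∈ evB K B ↔ ∀ v : DV K, v ∉ B → Even (v.ord (a : K)) := Iff.rfl

/-- the squares -/
def sqG (K : Type*) [Field K] : Subgroup Kˣ := (powMonoidHom 2 : Kˣ →* Kˣ).range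

theorem mem_sqG {K : Type*} [Field K] {a : Kˣ} : a ∈ sqG K ↔ ∃ b : Kˣ, b ^ 2 = a := Iff.rfl

theorem sqG_le {K : Type*} [Field K] (B : Set (DV K)) : sqG K ≤ evB K B := by
  rintro a ⟨b, rfl⟩ v _
  show Even (v.ord (((b ^ 2 : Kˣ)) : K))
  rw [Units.val_pow_eq_pow_val, v.ord_pow b.ne_zero]
  exact ⟨v.ord (b : K), by push_cast; ring⟩

theorem evB_mono {K : Type*} [Field K] {B B' : Set (DV K)} (h : B ⊆ B') : evB K B ≤ evB K B' :=
  fun _ ha v hv => ha v fun h1 => hv (h h1)

/-- `Se` in terms of the index -/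
theorem Se.relIndex {K : Type*} [Field K] {s : ℕ} (h : Se K s) :
    (sqG K).relIndex (evB K ∅) ≠ 0 ∧ (sqG K).relIndex (evB K ∅) ≤ 2 ^ s := by
  by_contra hcon
  have h1 : Nonempty (Fin (2 ^ s + 1) ↪ (evB K ∅) ⧸ (sqG K).subgroupOf (evB K ∅)) := by
    rcases finite_or_infinite ((evB K ∅) ⧸ (sqG K).subgroupOf (evB K ∅)) with hf | hf
    · have h2 : (sqG K).relIndex (evB K ∅) =
        Nat.card ((evB K ∅) ⧸ (sqG K).subgroupOf (evB K ∅)) := rfl
      have := Fintype.ofFinite ((evB K ∅) ⧸ (sqG K).subgroupOf (evB K ∅))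
      have h3 : Nat.card ((evB K ∅) ⧸ (sqG K).subgroupOf (evB K ∅)) ≠ 0 := Nat.card_pos.ne'
      refine Function.Embedding.nonempty_of_card_le ?_
      rw [Fintype.card_fin, ← Nat.card_eq_fintype_card]
      by_contra h4
      exact hcon ⟨h2 ▸ h3, by rw [h2]; omega⟩
    · exact ⟨Fin.valEmbedding.trans (Infinite.natEmbedding _)⟩
  obtain ⟨e⟩ := h1
  obtain ⟨i, j, hij, b, hb, hab⟩ := h (fun i => (((e i).out : evB K ∅) : Kˣ) : Fin (2 ^ s + 1) → K)
    fun i => ⟨Units.ne_zero _, fun v => ((e i).out : evB K ∅).2 v (Set.notMem_empty v)⟩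
  refine hij (e.injective ?_)
  have h5 : (QuotientGroup.mk ((e j).out) : (evB K ∅) ⧸ (sqG K).subgroupOf (evB K ∅)) =
      QuotientGroup.mk ((e i).out) := by
    rw [QuotientGroup.eq, Subgroup.mem_subgroupOf]
    refine ⟨Units.mk0 b hb, ?_⟩
    refine Units.ext ?_
    show ((Units.mk0 b hb) ^ 2 : Kˣ).val = _
    rw [Units.val_pow_eq_pow_val, Units.val_mk0]
    show b ^ 2 = (((((e j).out : evB K ∅) : Kˣ)⁻¹ * (((e i).out : evB K ∅) : Kˣ) : Kˣ) : K)
    rw [Units.val_mul, Units.val_inv_eq_inv_val]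
    have h6 : ((((e j).out : evB K ∅) : Kˣ) : K) ≠ 0 := Units.ne_zero _
    rw [eq_inv_mul_iff_mul_eq₀ h6]
    exact hab.symm
  rw [QuotientGroup.out_eq', QuotientGroup.out_eq'] at h5
  exact h5.symm

theorem se_of_relIndex {K : Type*} [Field K] {s : ℕ} (h0 : (sqG K).relIndex (evB K ∅) ≠ 0)
    (h : (sqG K).relIndex (evB K ∅) ≤ 2 ^ s) : Se K s := by
  intro a ha
  have h2 : (sqG K).relIndex (evB K ∅) =
    Nat.card ((evB K ∅) ⧸ (sqG K).subgroupOf (evB K ∅)) := rfl
  have : Finite ((evB K ∅) ⧸ (sqG K).subgroupOf (evB K ∅)) := Nat.finite_of_card_ne_zero (h2 ▸ h0)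
  have := Fintype.ofFinite ((evB K ∅) ⧸ (sqG K).subgroupOf (evB K ∅))
  let a' : Fin (2 ^ s + 1) → evB K ∅ := fun i => ⟨Units.mk0 (a i) (ha i).1, fun v _ => (ha i).2 v⟩
  obtain ⟨i, j, hij, hq⟩ := Fintype.exists_ne_map_eq_of_card_lt
    (fun i => (QuotientGroup.mk (a' i) : (evB K ∅) ⧸ (sqG K).subgroupOf (evB K ∅))) (by
      rw [Fintype.card_fin, ← Nat.card_eq_fintype_card, ← h2]
      omega)
  rw [eq_comm, QuotientGroup.eq, Subgroup.mem_subgroupOf] at hq
  obtain ⟨b, hb⟩ := hq
  refine ⟨i, j, hij, b, b.ne_zero, ?_⟩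
  have h3 := congrArg (fun u : Kˣ => (u : K)) hb
  have h4 : (b : K) ^ 2 = (a j)⁻¹ * a i := by
    have h5 : (((b ^ 2 : Kˣ)) : K) = (((a' j : Kˣ)⁻¹ * (a' i : Kˣ) : Kˣ) : K) := h3
    rw [Units.val_pow_eq_pow_val, Units.val_mul, Units.val_inv_eq_inv_val] at h5
    exact h5
  rw [h4, mul_inv_cancel_left₀ (ha j).1]

/-! ### Coordinates, conjugation, norm -/

namespace Qd

variable {K K' : Type*} [Field K] [Field K'] [Algebra K K'] {f : K} (S : Qd K K' f)

/-- coordinates -/
noncomputable def ca (x : K') : K := (S.span x).choose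

/-- coordinates -/
noncomputable def cb (x : K') : K := (S.span x).choose_spec.choose

theorem eq_cab (x : K') : x = algebraMap K K' (S.ca x) + algebraMap K K' (S.cb x) * S.y :=
  (S.span x).choose_spec.choose_spec

theorem y_ne_alg (a : K) : algebraMap K K' a ≠ S.y := by
  intro h
  refine S.irr a ((algebraMap K K').injective ?_)
  rw [map_pow, h, S.sq]

theorem coord_zero {a b : K} (h : algebraMap K K' a + algebraMap K K' b * S.y = 0) :
    a = 0 ∧ b = 0 := by
  have hb : b = 0 := by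
    by_contra hb
    have hb' : algebraMap K K' b ≠ 0 := map_ne_zero' hb
    refine S.y_ne_alg (-a / b) ?_
    rw [map_div₀, map_neg, div_eq_iff hb']
    linear_combination -h
  subst hb
  rw [map_zero, zero_mul, add_zero, map_eq_zero] at h
  exact ⟨h, rfl⟩

theorem coord_eq {a b : K} {x : K'} (h : x = algebraMap K K' a + algebraMap K K' b * S.y) :
    S.ca x = a ∧ S.cb x = b := by
  have h1 := S.eq_cab x
  have h2 := S.coord_zero (a := S.ca x - a) (b := S.cb x - b) (by
    rw [map_sub, map_sub]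
    linear_combination h - h1)
  exact ⟨sub_eq_zero.1 h2.1, sub_eq_zero.1 h2.2⟩

/-- conjugation -/
noncomputable def cj : K' →+* K' where
  toFun x := algebraMap K K' (S.ca x) - algebraMap K K' (S.cb x) * S.y
  map_zero' := by
    obtain ⟨h1, h2⟩ := S.coord_eq (x := 0) (a := 0) (b := 0) (by simp)
    rw [h1, h2]
    simp
  map_one' := by
    obtain ⟨h1, h2⟩ := S.coord_eq (x := 1) (a := 1) (b := 0) (by simp)
    rw [h1, h2]
    simp
  map_add' x z := by
    obtain ⟨h1, h2⟩ := S.coord_eq (x := x + z) (a := S.ca x + S.ca z) (b := S.cb x + S.cb z) (by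
      rw [map_add, map_add]
      linear_combination S.eq_cab x + S.eq_cab z)
    rw [h1, h2, map_add, map_add]
    ring
  map_mul' x z := by
    have hx := S.eq_cab x
    have hz := S.eq_cab z
    have hy := S.sq
    obtain ⟨h1, h2⟩ := S.coord_eq (x := x * z) (a := S.ca x * S.ca z + S.cb x * S.cb z * f)
      (b := S.ca x * S.cb z + S.cb x * S.ca z) (by
        have h3 : x * z = (algebraMap K K' (S.ca x) + algebraMap K K' (S.cb x) * S.y) *
          (algebraMap K K' (S.ca z) + algebraMap K K' (S.cb z) * S.y) := by rw [← hx, ← hz]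
        rw [h3, map_add, map_add, map_mul, map_mul, map_mul, map_mul, map_mul]
        linear_combination (algebraMap K K' (S.cb x) * algebraMap K K' (S.cb z)) * hy)
    rw [h1, h2, map_add, map_add, map_mul, map_mul, map_mul, map_mul, map_mul]
    linear_combination (-algebraMap K K' (S.cb x) * algebraMap K K' (S.cb z)) * hy

theorem cj_apply (x : K') : S.cj x = algebraMap K K' (S.ca x) - algebraMap K K' (S.cb x) * S.y := rfl

theorem cj_alg (a : K) : S.cj (algebraMap K K' a) = algebraMap K K' a := by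
  obtain ⟨h1, h2⟩ := S.coord_eq (x := algebraMap K K' a) (a := a) (b := 0) (by simp)
  rw [cj_apply, h1, h2]
  simp

theorem cj_y : S.cj S.y = - S.y := by
  obtain ⟨h1, h2⟩ := S.coord_eq (x := S.y) (a := 0) (b := 1) (by simp)
  rw [cj_apply, h1, h2]
  simp

theorem cj_cj (x : K') : S.cj (S.cj x) = x := by
  rw [cj_apply S x, map_sub, map_mul, cj_alg, cj_alg, cj_y]
  linear_combination -S.eq_cab x

/-- the norm -/
noncomputable def nm (x : K') : K := S.ca x ^ 2 - f * S.cb x ^ 2

theorem alg_nm (x : K') : algebraMap K K' (S.nm x) = x * S.cj x := by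
  have hx := S.eq_cab x
  have h3 : x * S.cj x = (algebraMap K K' (S.ca x) + algebraMap K K' (S.cb x) * S.y) *
    (algebraMap K K' (S.ca x) - algebraMap K K' (S.cb x) * S.y) := by rw [cj_apply, ← hx]
  rw [h3, nm, map_sub, map_pow, map_mul, map_pow]
  linear_combination (algebraMap K K' (S.cb x) ^ 2) * S.sq

/-- the norm on units -/
noncomputable def nmU : K'ˣ →* Kˣ where
  toFun x := Units.mk0 (S.nm x) (by
    intro h
    have h1 := S.alg_nm x
    rw [h, map_zero] at h1
    exact mul_ne_zero x.ne_zero ((map_ne_zero S.cj).2 x.ne_zero) h1.symm)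
  map_one' := by
    refine Units.ext ((algebraMap K K').injective ?_)
    rw [Units.val_mk0, alg_nm, Units.val_one, map_one, one_mul, Units.val_one, map_one]
  map_mul' x z := by
    refine Units.ext ((algebraMap K K').injective ?_)
    show algebraMap K K' (S.nm ((x * z : K'ˣ) : K')) = algebraMap K K' (S.nm x * S.nm z)
    rw [map_mul, alg_nm, alg_nm, alg_nm, Units.val_mul, map_mul]
    ring

theorem nmU_val (x : K'ˣ) : ((S.nmU x : Kˣ) : K) = S.nm x := rfl

/-- **Hilbert 90** -/
theorem hilbert {u : K'} (h : S.nm u = 1) : (∃ h' : K', h' ≠ 0 ∧ ∃ a : K, a ≠ 0 ∧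
    u = algebraMap K K' a * h' ^ 2) := by
  have h2 : (2 : K) ≠ 0 := S.two
  have hf := S.irr 0
  have hf0 : f ≠ 0 := fun h0 => hf (by simp [h0])
  have hu := S.eq_cab u
  have hn : S.ca u ^ 2 - f * S.cb u ^ 2 = 1 := h
  by_cases ha : S.ca u = -1
  · have hb : S.cb u = 0 := by
      rw [ha] at hn
      have h3 : f * S.cb u ^ 2 = 0 := by linear_combination -hn
      rcases mul_eq_zero.1 h3 with h4 | h4
      · exact absurd h4 hf0
      · exact pow_eq_zero_iff (two_ne_zero) |>.1 h4
    refine ⟨1, one_ne_zero, -1, neg_ne_zero.2 one_ne_zero, ?_⟩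
    rw [hu, ha, hb]
    simp
  · have h3 : 1 + S.ca u ≠ 0 := fun h0 => ha (by linear_combination h0)
    have h4 : (2 * (1 + S.ca u)) ≠ 0 := mul_ne_zero h2 h3
    have h5 : algebraMap K K' (2 * (1 + S.ca u)) * u = (1 + u) ^ 2 := by
      have e1 : algebraMap K K' (2 * (1 + S.ca u)) = 2 * (1 + algebraMap K K' (S.ca u)) := by
        rw [map_mul, map_add, map_one, map_ofNat]
      have e2 : algebraMap K K' (S.ca u) ^ 2 - algebraMap K K' f * algebraMap K K' (S.cb u) ^ 2 = 1 := by
        rw [← map_pow, ← map_pow, ← map_mul, ← map_sub, hn, map_one]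
      have e3 := S.sq
      rw [e1]
      have e4 : u ^ 2 - 2 * algebraMap K K' (S.ca u) * u + 1 = 0 := by
        have e5 : u - algebraMap K K' (S.ca u) = algebraMap K K' (S.cb u) * S.y := by
          linear_combination hu
        have e6 : (u - algebraMap K K' (S.ca u)) ^ 2 = (algebraMap K K' (S.cb u) * S.y) ^ 2 := by
          rw [e5]
        linear_combination e6 + (algebraMap K K' (S.cb u) ^ 2) * e3 - e2
      linear_combination -e4
    have hu0 : u ≠ 0 := by
      intro h0
      have := S.alg_nm u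
      rw [h, h0, map_one, zero_mul] at this
      exact one_ne_zero this
    have h6 : 1 + u ≠ 0 := by
      intro h0
      rw [h0] at h5
      have h7 : algebraMap K K' (2 * (1 + S.ca u)) * u = 0 := by
        rw [h5]
        ring
      exact mul_ne_zero (map_ne_zero' h4) hu0 h7
    refine ⟨1 + u, h6, (2 * (1 + S.ca u))⁻¹, inv_ne_zero h4, ?_⟩
    rw [← h5, map_inv₀, inv_mul_cancel_left₀ (map_ne_zero' h4)]

end Qd

/-! ### Orders of norms -/

namespace Qd

variable {k K K' : Type} [Field k] [Finite k] [Field K] [Field K'] [Algebra k K] [Algebra k K']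
  [Algebra K K'] [IsScalarTower k K K'] {f : K} (S : Qd K K' f)

theorem over_pull (S : Qd K K' f) {w : DV K'} {v : DV K} (h : Over w v) :
    Over (w.pull S.cj S.cj_cj) v := by
  obtain ⟨e, he, h⟩ := h
  refine ⟨e, he, fun a ha => ?_⟩
  show w.ord (S.cj (algebraMap K K' a)) = _
  rw [cj_alg, h a ha]

/-- norms have even orders -/
theorem even_nm {g : ℕ} (_ : Cv k K g) {x : K'} (hx : x ≠ 0)
    (h : ∀ w : DV K', Even (w.ord x)) (v : DV K) : Even (v.ord (S.nm x)) := by
  have hcx : S.cj x ≠ 0 := (map_ne_zero S.cj).2 hx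
  rcases Int.even_or_odd (v.ord f) with he | ho
  · obtain ⟨w, hw⟩ := S.exists_above v
    rw [← S.even_ord (k := k) he hw, alg_nm, w.ord_mul _ _ hx hcx]
    exact (h w).add (h (w.pull S.cj S.cj_cj))
  · obtain ⟨w, hw, hun, h2, _⟩ := S.odd_over (k := k) ho
    have h3 := h2 (S.nm x)
    rw [alg_nm, w.ord_mul _ _ hx hcx] at h3
    have h4 : w.ord (S.cj x) = w.ord x := by
      have h5 := hun _ (S.over_pull hw)
      have h6 : (w.pull S.cj S.cj_cj).ord x = w.ord x := by rw [h5]
      exact h6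
    rw [h4] at h3
    have h7 : v.ord (S.nm x) = w.ord x := by omega
    rw [h7]
    exact h w

/-- functions of `K` with even orders at the unramified places have even orders in `K'` -/
theorem even_alg (k : Type) {K K' : Type} [Field k] [Finite k] [Field K] [Field K'] [Algebra k K]
    [Algebra k K'] [Algebra K K'] [IsScalarTower k K K'] {f : K} (S : Qd K K' f) {a : K}
    (h : ∀ v : DV K, Even (v.ord f) → Even (v.ord a)) (w : DV K') :
    Even (w.ord (algebraMap K K' a)) := by
  obtain ⟨v, hv⟩ := S.exists_over w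
  rcases Int.even_or_odd (v.ord f) with he | ho
  · rw [S.even_ord (k := k) he hv]
    exact h v he
  · obtain ⟨w', hw', hun, h2, _⟩ := S.odd_over (k := k) ho
    rw [hun w hv, h2 a]
    exact even_two_mul _

/-- the kernel of the norm -/
theorem kernel {g : ℕ} (_ : Cv k K g) {x : K'} (_ : x ≠ 0) (h : ∀ w : DV K', Even (w.ord x))
    {b : K} (hb : b ≠ 0) (hn : S.nm x = b ^ 2) : ∃ a : K, a ≠ 0 ∧
      (∀ v : DV K, Even (v.ord f) → Even (v.ord a)) ∧ ∃ z : K', z ≠ 0 ∧
        x = algebraMap K K' a * z ^ 2 := by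
  have hb' : algebraMap K K' b ≠ 0 := map_ne_zero' hb
  have h1 : S.nm (algebraMap K K' b⁻¹ * x) = 1 := by
    refine (algebraMap K K').injective ?_
    rw [alg_nm, map_mul, cj_alg]
    have h2 := S.alg_nm x
    rw [hn, map_pow] at h2
    rw [map_inv₀, map_one]
    field_simp
    linear_combination -h2
  obtain ⟨z, hz, a, ha, hu⟩ := S.hilbert h1
  have h3 : x = algebraMap K K' (b * a) * z ^ 2 := by
    rw [map_mul, mul_assoc, ← hu, map_inv₀, mul_inv_cancel_left₀ hb']
  refine ⟨b * a, mul_ne_zero hb ha, fun v he => ?_, z, hz, h3⟩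
  obtain ⟨w, hw⟩ := S.exists_above v
  rw [← S.even_ord (k := k) he hw]
  have h4 := h w
  rw [h3, w.ord_mul _ _ (map_ne_zero' (mul_ne_zero hb ha)) (pow_ne_zero 2 hz), w.ord_pow hz,
    Int.even_add] at h4
  exact h4.2 ⟨w.ord z, by push_cast; ring⟩

/-- the norms do not contain nonsquare constants -/
theorem not_norm {R : DV K} (hR : R.Rat k) (hRf : Odd (R.ord f)) {c : k} (hc : ¬ IsSquare c)
    {x : K'} (hx : x ≠ 0) (h : ∀ w : DV K', Even (w.ord x)) {b : K} (hb : b ≠ 0)
    (hn : algebraMap k K c = b ^ 2 * S.nm x) : False := by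
  have hf0 : f ≠ 0 := fun h0 => S.irr 0 (by simp [h0])
  have hc0 : c ≠ 0 := by
    rintro rfl
    exact hc IsSquare.zero
  obtain ⟨w, hw, _, h2, h3, _⟩ := S.odd_over (k := k) hRf
  have hxe := S.eq_cab x
  have hy0 : S.y ≠ 0 := by
    intro h0
    have := S.sq
    rw [h0] at this
    exact map_ne_zero' (K' := K') hf0 (by rw [← this]; ring)
  have key : S.ca x ≠ 0 ∧ R.G 1 (f * S.cb x ^ 2 / S.ca x ^ 2) := by
    by_cases ha : S.ca x = 0
    · exfalso
      have hb0 : S.cb x ≠ 0 := by
        intro h0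
        rw [ha, h0] at hxe
        exact hx (by rw [hxe]; simp)
      have h4 := h w
      rw [hxe, ha, map_zero, zero_add, w.ord_mul _ _ (map_ne_zero' hb0) hy0, h2, h3] at h4
      exact (Int.not_even_iff_odd.2 (Even.add_odd (even_two_mul _) hRf)) h4
    · refine ⟨ha, ?_⟩
      by_cases hb0 : S.cb x = 0
      · rw [hb0]
        exact Or.inl (by simp)
      · have e1 : algebraMap K K' (S.ca x) ≠ 0 := map_ne_zero' ha
        have e2 : algebraMap K K' (S.cb x) * S.y ≠ 0 := mul_ne_zero (map_ne_zero' hb0) hy0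
        have e3 : w.ord (algebraMap K K' (S.cb x) * S.y) = 2 * R.ord (S.cb x) + R.ord f := by
          rw [w.ord_mul _ _ (map_ne_zero' hb0) hy0, h2, h3]
        have e4 : w.ord (algebraMap K K' (S.ca x)) = 2 * R.ord (S.ca x) := h2 _
        have e5 := w.ord_add_eq_min e1 e2 (by
          rw [e3, e4]
          obtain ⟨m, hm⟩ := hRf
          omega)
        rw [← hxe, e3, e4] at e5
        have e6 := h w
        refine DV.G_of_le ?_
        rw [R.ord_div (mul_ne_zero hf0 (pow_ne_zero 2 hb0)) (pow_ne_zero 2 ha),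
          R.ord_mul _ _ hf0 (pow_ne_zero 2 hb0), R.ord_pow hb0, R.ord_pow ha]
        push_cast
        obtain ⟨m, hm⟩ := hRf
        obtain ⟨l, hl⟩ := e6
        omega
  obtain ⟨ha, ht⟩ := key
  set t := f * S.cb x ^ 2 / S.ca x ^ 2 with ht'
  have h5 : algebraMap k K c = (b * S.ca x) ^ 2 * (1 - t) := by
    rw [hn, nm, ht']
    field_simp
  have hd0 : b * S.ca x ≠ 0 := mul_ne_zero hb ha
  have hck : algebraMap k K c ≠ 0 := (map_ne_zero _).2 hc0
  have h1t : 1 - t ≠ 0 := by
    intro h0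
    rw [h0, mul_zero] at h5
    exact hck h5
  have h6 : R.ord (1 - t) = 0 := by
    have h7 := R.ord_add_of_lt (one_ne_zero) (b := -t) (by
      rw [R.ord_one]
      exact ht.neg)
    rw [← sub_eq_add_neg, R.ord_one] at h7
    exact h7.2
  have h8 : R.ord (b * S.ca x) = 0 := by
    have h9 := congrArg R.ord h5
    rw [ord_algebraMap R hc0, R.ord_mul _ _ (pow_ne_zero 2 hd0) h1t, h6, R.ord_pow hd0] at h9
    push_cast at h9
    omega
  obtain ⟨d, hd⟩ := hR (b * S.ca x) (DV.G_of_le h8.ge)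
  have h10 : R.G 1 (algebraMap k K (c - d ^ 2)) := by
    have e1 : algebraMap k K (c - d ^ 2) = (b * S.ca x - algebraMap k K d) *
        (b * S.ca x + algebraMap k K d) - (b * S.ca x) ^ 2 * t := by
      rw [map_sub, map_pow, h5]
      ring
    rw [e1]
    have e2 : R.G 0 (b * S.ca x) := DV.G_of_le h8.ge
    have e3 := hd.mul (e2.add (G_algebraMap R d))
    have e4 := (e2.pow 2).mul ht
    refine DV.G.sub ?_ ?_
    · simpa using e3
    · simpa using e4
  have h11 : c - d ^ 2 = 0 := by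
    by_contra h0
    have := h10.le ((map_ne_zero _).2 h0)
    rw [ord_algebraMap R h0] at this
    omega
  exact hc ⟨d, by linear_combination h11⟩

end Qd

/-! ### The count -/

/-- functions with even orders outside `B`, `R ∈ B` rational: at most `2 ^ (#B - 1)` times as many
classes -/
theorem relIndex_evB {k K : Type} [Field k] [Finite k] [Field K] [Algebra k K] {g : ℕ}
    (C : Cv k K g) {R : DV K} (hR : R.Rat k) (B : Finset (DV K)) (hRB : R ∈ B) :
    (evB K ∅).relIndex (evB K B) ≠ 0 ∧ (evB K ∅).relIndex (evB K B) ≤ 2 ^ (B.card - 1) := by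
  classical
  let ρ : evB K (B : Set (DV K)) →* Multiplicative ({v // v ∈ B.erase R} → ZMod 2) :=
    { toFun := fun a => Multiplicative.ofAdd fun v => ((v.1.ord ((a : Kˣ) : K) : ℤ) : ZMod 2)
      map_one' := by
        refine congrArg Multiplicative.ofAdd (funext fun v => ?_)
        show ((v.1.ord (((1 : evB K (B : Set (DV K))) : Kˣ) : K) : ℤ) : ZMod 2) = 0
        rw [OneMemClass.coe_one, Units.val_one, v.1.ord_one, Int.cast_zero]
      map_mul' := fun a b => by
        refine congrArg Multiplicative.ofAdd (funext fun v => ?_)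
        show ((v.1.ord (((a * b : evB K (B : Set (DV K))) : Kˣ) : K) : ℤ) : ZMod 2) =
          ((v.1.ord ((a : Kˣ) : K) : ℤ) : ZMod 2) + ((v.1.ord ((b : Kˣ) : K) : ℤ) : ZMod 2)
        rw [Subgroup.coe_mul, Units.val_mul, v.1.ord_mul _ _ (Units.ne_zero _) (Units.ne_zero _),
          Int.cast_add] }
  have hker : ρ.ker = (evB K ∅).subgroupOf (evB K (B : Set (DV K))) := by
    ext a
    rw [MonoidHom.mem_ker, Subgroup.mem_subgroupOf]
    have h1 : ρ a = 1 ↔ ∀ v : {v // v ∈ B.erase R}, Even (v.1.ord ((a : Kˣ) : K)) := by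
      constructor
      · intro h v
        have h2 := congrFun (congrArg Multiplicative.toAdd h) v
        have h3 : ((v.1.ord ((a : Kˣ) : K) : ℤ) : ZMod 2) = 0 := h2
        exact (ZMod.intCast_zmod_eq_zero_iff_dvd _ 2).1 h3 |> even_iff_two_dvd.2
      · intro h
        refine congrArg Multiplicative.ofAdd (funext fun v => ?_)
        exact (ZMod.intCast_zmod_eq_zero_iff_dvd _ 2).2 (even_iff_two_dvd.1 (h v))
    rw [h1]
    constructor
    · intro h v _
      by_cases hvR : v = R
      · -- the degree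
        have h2 := RRD.degZ_divF C ((a : Kˣ).ne_zero)
        have h3 : Even (RRD.degZ k (RRD.divF k C ((a : Kˣ) : K) (a : Kˣ).ne_zero) -
            R.ord ((a : Kˣ) : K) * (RRD.deg k R : ℤ)) := by
          unfold RRD.degZ
          have h4 : ∀ D : DV K →₀ ℤ, D.sum (fun P n => n * (RRD.deg k P : ℤ)) - D R * (RRD.deg k R : ℤ) =
              (D.erase R).sum (fun P n => n * (RRD.deg k P : ℤ)) := by
            intro D
            rw [sub_eq_iff_eq_add, add_comm]
            by_cases hm : R ∈ D.support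
            · rw [Finsupp.add_sum_erase D R (fun P n => n * (RRD.deg k P : ℤ)) hm]
            · rw [Finsupp.erase_of_notMem_support hm, Finsupp.notMem_support_iff.1 hm]
              simp
          have h5 := h4 (RRD.divF k C ((a : Kˣ) : K) (a : Kˣ).ne_zero)
          rw [RRD.divF_apply] at h5
          rw [h5]
          refine Finset.even_sum _ fun P hP => ?_
          have hPR : P ≠ R := by
            rintro rfl
            simp at hP
          rw [Finsupp.erase_ne hPR, RRD.divF_apply]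
          refine Even.mul_right ?_ _
          by_cases hPB : P ∈ B
          · exact h ⟨P, mem_erase.2 ⟨hPR, hPB⟩⟩
          · exact a.2 P (by simpa using hPB)
        rw [h2, zero_sub, even_neg] at h3
        have h6 : RRD.deg k R = 1 := hR.deg_eq_one
        rw [h6, Nat.cast_one, mul_one] at h3
        rw [hvR]
        exact h3
      · by_cases hvB : v ∈ B
        · exact h ⟨v, mem_erase.2 ⟨hvR, hvB⟩⟩
        · exact a.2 v (by simpa using hvB)
    · intro h v
      exact h v.1 (Set.notMem_empty _)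
  have h1 : (evB K ∅).relIndex (evB K (B : Set (DV K))) = Nat.card ρ.range := by
    rw [← Subgroup.index_ker, hker]
    rfl
  have h2 : Nat.card (Multiplicative ({v // v ∈ B.erase R} → ZMod 2)) = 2 ^ (B.card - 1) := by
    rw [Nat.card_congr Multiplicative.toAdd, Nat.card_eq_fintype_card, Fintype.card_fun,
      ZMod.card, Fintype.card_coe, card_erase_of_mem hRB]
  have : Finite (Multiplicative ({v // v ∈ B.erase R} → ZMod 2)) :=
    Finite.of_equiv ({v // v ∈ B.erase R} → ZMod 2) Multiplicative.ofAdd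
  rw [h1]
  refine ⟨Nat.card_pos.ne', ?_⟩
  rw [← h2]
  exact Nat.card_le_card_of_injective _ ρ.range.subtype_injective

/-- **Genus theory**: a step with a rational ramified place -/
theorem Se.up {k K K' : Type} [Field k] [Finite k] [Field K] [Field K'] [Algebra k K]
    [Algebra k K'] [Algebra K K'] [IsScalarTower k K K'] {f : K} (S : Qd K K' f) {g g' : ℕ}
    (C : Cv k K g) (_ : Cv k K' g') {R : DV K} (hR : R.Rat k) (hRf : Odd (R.ord f))
    {B : Finset (DV K)} (hB : ∀ v : DV K, Odd (v.ord f) → v ∈ B) {s s' : ℕ} (h : Se K s)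
    (hs : 2 * s + B.card ≤ s' + 3) : Se K' s' := by
  classical
  have hf0 : f ≠ 0 := fun h0 => S.irr 0 (by simp [h0])
  have hy0 : S.y ≠ 0 := by
    intro h0
    have := S.sq
    rw [h0] at this
    exact map_ne_zero' (K' := K') hf0 (by rw [← this]; ring)
  -- the ramified places
  set B₀ := B.filter (fun v => Odd (v.ord f)) with hB₀
  have hmem : ∀ v : DV K, v ∈ B₀ ↔ Odd (v.ord f) := fun v => by
    rw [hB₀, mem_filter]
    exact ⟨fun h1 => h1.2, fun h1 => ⟨hB v h1, h1⟩⟩
  have hcard : B₀.card ≤ B.card := card_filter_le _ _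
  have hRB : R ∈ B₀ := (hmem R).2 hRf
  have hpos : 1 ≤ B₀.card := card_pos.2 ⟨R, hRB⟩
  obtain ⟨hx0, hx⟩ := h.relIndex
  obtain ⟨hz0, hz⟩ := relIndex_evB C hR B₀ hRB
  set E := evB K ∅ with hE
  set EB := evB K (B₀ : Set (DV K)) with hEB
  set E' := evB K' ∅ with hE'
  have hSE : sqG K ≤ E := sqG_le _
  have hEEB : E ≤ EB := evB_mono (Set.empty_subset _)
  have hS'E' : sqG K' ≤ E' := sqG_le _
  have hEB0 : (sqG K).relIndex EB = (sqG K).relIndex E * E.relIndex EB :=
    (Subgroup.relIndex_mul_relIndex _ _ _ hSE hEEB).symm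
  -- the kernel
  let ι : Kˣ →* K'ˣ := Units.map (algebraMap K K').toMonoidHom
  have hι : ∀ a : Kˣ, ((ι a : K'ˣ) : K') = algebraMap K K' (a : K) := fun a => rfl
  let fu : Kˣ := Units.mk0 f hf0
  have hfS : fu ∉ sqG K := by
    rintro ⟨b, hb⟩
    have h1 := congrArg (fun u : Kˣ => (u : K)) hb
    have h2 : ((b ^ 2 : Kˣ) : K) = f := h1
    rw [Units.val_pow_eq_pow_val] at h2
    exact S.irr b h2
  have hfEB : fu ∈ EB := fun v hv => by
    show Even (v.ord f)
    have h1 : v ∉ B₀ := by simpa using hv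
    rw [hmem] at h1
    exact Int.not_odd_iff_even.1 h1
  set F := sqG K ⊔ Subgroup.zpowers fu with hF
  have hSF : sqG K ≤ F := le_sup_left
  have hFEB : F ≤ EB := sup_le (hSE.trans hEEB) ((Subgroup.zpowers_le).2 hfEB)
  have hFι : F ≤ (sqG K').comap ι := by
    refine sup_le ?_ ((Subgroup.zpowers_le).2 ?_)
    · rintro a ⟨b, rfl⟩
      exact ⟨ι b, by
        show ι b ^ 2 = ι (b ^ 2)
        rw [map_pow]⟩
    · refine ⟨Units.mk0 S.y hy0, Units.ext ?_⟩
      show ((Units.mk0 S.y hy0 ^ 2 : K'ˣ) : K') = algebraMap K K' f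
      rw [Units.val_pow_eq_pow_val]
      exact S.sq
  have hEBne : (sqG K).relIndex EB ≠ 0 := by
    rw [hEB0]
    exact mul_ne_zero hx0 hz0
  have h1 : (sqG K).relIndex F * F.relIndex EB = (sqG K).relIndex EB :=
    Subgroup.relIndex_mul_relIndex _ _ _ hSF hFEB
  have h2 : 2 ≤ (sqG K).relIndex F := by
    have h3 : (sqG K).relIndex F ≠ 0 := by
      intro h0
      rw [h0, zero_mul] at h1
      exact hEBne h1.symm
    have h4 : (sqG K).relIndex F ≠ 1 := by
      intro h0
      rw [Subgroup.relIndex_eq_one] at h0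
      exact hfS (h0 ((le_sup_right : Subgroup.zpowers fu ≤ F) (Subgroup.mem_zpowers fu)))
    omega
  have hF0 : F.relIndex EB ≠ 0 := by
    intro h0
    rw [h0, mul_zero] at h1
    exact hEBne h1.symm
  set P := (sqG K).comap S.nmU with hP
  have hS'P : sqG K' ≤ P := by
    rintro a ⟨b, rfl⟩
    exact ⟨S.nmU b, by
      show S.nmU b ^ 2 = S.nmU (b ^ 2)
      rw [map_pow]⟩
  have hker : P ⊓ E' ≤ sqG K' ⊔ EB.map ι := by
    rintro x ⟨⟨b, hb⟩, hxE⟩
    have h3 : (b : K) ^ 2 = S.nm x := by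
      have h4 := congrArg (fun u : Kˣ => (u : K)) hb
      have h5 : ((b ^ 2 : Kˣ) : K) = S.nm x := h4
      rwa [Units.val_pow_eq_pow_val] at h5
    obtain ⟨a, ha, hae, z, hz', hxz⟩ := S.kernel C x.ne_zero
      (fun w => hxE w (Set.notMem_empty _)) b.ne_zero h3.symm
    rw [sup_comm, Subgroup.mem_sup]
    refine ⟨ι (Units.mk0 a ha), ⟨Units.mk0 a ha, fun v hv => ?_, rfl⟩, (Units.mk0 z hz') ^ 2,
      ⟨Units.mk0 z hz', rfl⟩, Units.ext ?_⟩
    · have h1 : v ∉ B₀ := by simpa using hv
      rw [hmem] at h1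
      exact hae v (Int.not_odd_iff_even.1 h1)
    · rw [Units.val_mul, Units.val_pow_eq_pow_val, hxz]
      rfl
  have e1 : ((sqG K').comap ι).relIndex EB ≤ F.relIndex EB :=
    Subgroup.relIndex_le_of_le_left hFι hF0
  have e2 : ((sqG K').comap ι).relIndex EB ≠ 0 := fun h0 =>
    hF0 (Subgroup.relIndex_eq_zero_of_le_left hFι h0)
  rw [Subgroup.relIndex_comap] at e1 e2
  have e3 : (sqG K').relIndex (sqG K' ⊔ EB.map ι) = (sqG K').relIndex (EB.map ι) :=
    Subgroup.relIndex_sup_left _ _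
  have hA : (sqG K').relIndex (P ⊓ E') ≤ F.relIndex EB := by
    have e4 : (sqG K').relIndex (P ⊓ E') ≤ (sqG K').relIndex (sqG K' ⊔ EB.map ι) :=
      Subgroup.relIndex_le_of_le_right hker (by rw [e3]; exact e2)
    rw [e3] at e4
    exact e4.trans e1
  have hA0 : (sqG K').relIndex (P ⊓ E') ≠ 0 := fun h0 =>
    e2 (e3 ▸ Subgroup.relIndex_eq_zero_of_le_right hker h0)
  -- the image
  have hNE : E'.map S.nmU ≤ E := by
    rintro _ ⟨x, hxE, rfl⟩ v _
    show Even (v.ord (S.nm x))
    exact S.even_nm C x.ne_zero (fun w => hxE w (Set.notMem_empty _)) v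
  have : Fintype k := Fintype.ofFinite k
  have h2k : ringChar k ≠ 2 := by
    intro h0
    have h3 : (2 : k) = 0 := by
      have := ringChar.Nat.cast_ringChar (R := k)
      rw [h0] at this
      exact_mod_cast this
    refine S.two ?_
    have h4 := congrArg (algebraMap k K) h3
    rwa [map_ofNat, map_zero] at h4
  obtain ⟨c, hc⟩ := FiniteField.exists_nonsquare h2k
  have hc0 : c ≠ 0 := by
    rintro rfl
    exact hc IsSquare.zero
  let cu : Kˣ := Units.mk0 (algebraMap k K c) ((map_ne_zero _).2 hc0)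
  have hcE : cu ∈ E := fun v _ => by
    show Even (v.ord (algebraMap k K c))
    rw [ord_algebraMap v hc0]
    exact Even.zero
  set M := sqG K ⊔ E'.map S.nmU with hM
  have hME : M ≤ E := sup_le hSE hNE
  have hcM : cu ∉ M := by
    intro h0
    rw [hM, Subgroup.mem_sup] at h0
    obtain ⟨_, ⟨b, rfl⟩, _, ⟨x, hxE, rfl⟩, h3⟩ := h0
    have h4 : algebraMap k K c = (b : K) ^ 2 * S.nm x := by
      have h5 := congrArg (fun u : Kˣ => (u : K)) h3
      have h6 : (((b ^ 2 : Kˣ) * S.nmU x : Kˣ) : K) = algebraMap k K c := h5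
      rw [Units.val_mul, Units.val_pow_eq_pow_val] at h6
      exact h6.symm
    exact S.not_norm hR hRf hc x.ne_zero (fun w => hxE w (Set.notMem_empty _)) b.ne_zero h4
  have h3 : (sqG K).relIndex M * M.relIndex E = (sqG K).relIndex E :=
    Subgroup.relIndex_mul_relIndex _ _ _ le_sup_left hME
  have h4 : 2 ≤ M.relIndex E := by
    have h5 : M.relIndex E ≠ 0 := by
      intro h0
      rw [h0, mul_zero] at h3
      exact hx0 h3.symm
    have h6 : M.relIndex E ≠ 1 := by
      intro h0
      rw [Subgroup.relIndex_eq_one] at h0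
      exact hcM (h0 hcE)
    omega
  have h5 : P.relIndex E' = (sqG K).relIndex M := by
    rw [hP, Subgroup.relIndex_comap, hM, Subgroup.relIndex_sup_left]
  have h6 : (sqG K').relIndex (P ⊓ E') * (P ⊓ E').relIndex E' = (sqG K').relIndex E' :=
    Subgroup.relIndex_mul_relIndex _ _ _ (le_inf hS'P hS'E') inf_le_right
  rw [Subgroup.inf_relIndex_right, h5] at h6
  have h7 : (sqG K).relIndex M ≠ 0 := by
    intro h0
    rw [h0, zero_mul] at h3
    exact hx0 h3.symm
  refine se_of_relIndex (h6 ▸ mul_ne_zero hA0 h7) ?_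
  rw [← h6]
  -- the numbers
  set x := (sqG K).relIndex E
  set z := E.relIndex EB
  set A := (sqG K').relIndex (P ⊓ E')
  set D := (sqG K).relIndex M
  have i1 : 2 * D ≤ x := by
    rw [← h3]
    nlinarith
  have i2 : 2 * A ≤ x * z := by
    rw [← hEB0, ← h1]
    nlinarith
  have i3 : 4 * (A * D) ≤ 2 ^ s * (2 ^ s * 2 ^ (B₀.card - 1)) := by
    calc 4 * (A * D) = (2 * D) * (2 * A) := by ring
      _ ≤ x * (x * z) := Nat.mul_le_mul i1 i2
      _ ≤ 2 ^ s * (2 ^ s * 2 ^ (B₀.card - 1)) :=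
        Nat.mul_le_mul hx (Nat.mul_le_mul hx hz)
  have i4 : 8 * (A * D) ≤ 2 ^ (s' + 3) := by
    calc 8 * (A * D) = 2 * (4 * (A * D)) := by ring
      _ ≤ 2 * (2 ^ s * (2 ^ s * 2 ^ (B₀.card - 1))) := Nat.mul_le_mul_left _ i3
      _ = 2 ^ (2 * s + B₀.card) := by
        obtain ⟨m, hm⟩ : ∃ m, B₀.card = m + 1 := ⟨B₀.card - 1, by omega⟩
        rw [hm, Nat.add_sub_cancel, ← pow_add, ← pow_add, ← pow_succ']
        congr 1
        ring
      _ ≤ 2 ^ (s' + 3) := Nat.pow_le_pow_right (by norm_num) (by omega)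
  rw [pow_add] at i4
  omega

/-- the same with the total degree -/
theorem Se.up_deg {k K K' : Type} [Field k] [Finite k] [Field K] [Field K'] [Algebra k K]
    [Algebra k K'] [Algebra K K'] [IsScalarTower k K K'] {f : K} (S : Qd K K' f) {g g' : ℕ}
    (C : Cv k K g) (C' : Cv k K' g') {R : DV K} (hR : R.Rat k) (hRf : Odd (R.ord f)) {s s' : ℕ}
    (h : Se K s) (hs : 2 * s + dgS (Nat.card k) {v : DV K | Odd (v.ord f)} ≤ s' + 3) :
    Se K' s' := by
  obtain ⟨B, h1, h2⟩ := C.odd_finset S.f_ne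
  exact Se.up S C C' hR hRf h1 h (by omega)

end Pool.Agent.FF
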