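import Pool.Agent.FO.WtP
import Pool.Agent.FO.Sel
import Pool.Agent.FO.LvP
import Pool.Agent.FF.Tower3

/-! # The tower `x' ^ 2 = (x ^ 2 + 1) / (2 x)` -/

set_option autoImplicit false
set_option linter.unusedSectionVars false

namespace Pool.Agent.FF

open Finset

/-- the order of `(x ^ 2 + 1) / (2 x)` at a pole of `x` -/
theorem ordf_pole {k K : Type} [Field k] [Finite k] [Field K] [Algebra k K] (h2 : (2 : K) ≠ 0)
    {R : DV K} {x : K} (hx : R.ord x < 0) : x ≠ 0 ∧ x ^ 2 + 1 ≠ 0 ∧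
      R.ord ((x ^ 2 + 1) / (2 * x)) = R.ord x := by
  have hx0 : x ≠ 0 := by
    rintro rfl
    rw [R.ord_zero] at hx
    omega
  have h1 := DV.ord_add_of_lt (v := R) (a := x ^ 2) (b := 1) (pow_ne_zero 2 hx0) (DV.G_of_le (by
    rw [R.ord_pow hx0, R.ord_one]; push_cast; omega))
  have h3 : R.ord (2 : K) = 0 := DV.ord_two (k := k) R
  refine ⟨hx0, h1.1, ?_⟩
  rw [R.ord_div h1.1 (mul_ne_zero h2 hx0), h1.2, R.ord_pow hx0, R.ord_mul _ _ h2 hx0, h3]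
  push_cast
  ring

section step

variable {p : ℕ} [Fact p.Prime] {k : Type} [Field k] [Finite k] [CharP k p]

/-- **One level.** -/
theorem LvP.up (hp : p ≠ 2) {S : Finset k} (hS : SSet S) {K : Type} [Field K] [Algebra k K]
    {g W t B C M : ℕ} {x : K} (h : LvP p k K S x g W t B C M) :
    ∃ (K' : Type) (_ : Field K') (_ : Algebra k K') (x' : K') (g' W' : ℕ),
      2 * g' + W' + 2 ≤ 2 * (2 * g + W) ∧
      LvP p k K' S x' g' W' (2 * t) (max B ((g' + 1) * (g' + 2))) (2 * C + 2 * W + 2 * g' + 1)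
        (2 * M) := by
  classical
  obtain ⟨hFF, hC, hSe, ⟨A, hA, hAW⟩, ⟨R, hRr, hRx, hRo⟩, ⟨T, hT, hT'⟩, hPl⟩ := h
  have hchK : CharP K p := charP_of_injective_algebraMap (algebraMap k K).injective p
  have hpr : p.Prime := Fact.out
  have h2k : (2 : k) ≠ 0 := by
    intro h
    have h1 : ((2 : ℕ) : k) = 0 := by exact_mod_cast h
    rw [CharP.cast_eq_zero_iff k p] at h1
    exact hp ((Nat.prime_dvd_prime_iff_eq hpr Nat.prime_two).1 h1)
  have h2 : (2 : K) ≠ 0 := by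
    have : (2 : K) = algebraMap k K 2 := (map_ofNat (algebraMap k K) 2).symm
    rw [this]
    exact (_root_.map_ne_zero _).2 h2k
  obtain ⟨hx0, hx2, hfR⟩ := ordf_pole (k := k) h2 hRx
  set f : K := (x ^ 2 + 1) / (2 * x) with hf
  have hf0 : f ≠ 0 := div_ne_zero hx2 (mul_ne_zero h2 hx0)
  have hRf : Odd (R.ord f) := by rw [hfR]; exact hRo
  have hirr : ∀ a : K, a ^ 2 ≠ f := by
    intro a ha
    have ha0 : a ≠ 0 := by
      rintro rfl
      rw [zero_pow (by norm_num)] at ha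
      exact hf0 ha.symm
    rw [← ha, R.ord_pow ha0] at hRf
    push_cast at hRf
    exact (Int.not_odd_iff_even.2 ⟨R.ord a, by ring⟩) hRf
  obtain ⟨K', _, _, _, _, ⟨Q⟩⟩ := exists_qd (k := k) h2 hirr
  obtain ⟨g', hC', hg'⟩ := Q.cv hC ⟨R, hRf⟩
  have hFF' := Q.isFF hFF hC'
  have hres : ∀ v : DV K, v.resCard ≠ 0 := fun v => res_ne_zero (hC.res v).2
  -- the ramified places
  set O : Finset (DV K) := A.filter fun v => Odd (v.ord f) with hO
  have hOm : {v : DV K | Odd (v.ord f)} = (O : Set (DV K)) := by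
    ext v
    rw [hO, coe_filter]
    constructor
    · intro hv
      refine ⟨?_, hv⟩
      by_contra hvA
      have h1 := (hA v hvA).f h2
      rw [DV.ord_two (k := k) v, neg_zero] at h1
      have h3 : Odd (v.ord f) := hv
      rw [hf, h1.2] at h3
      exact (by decide : ¬ Odd (0 : ℤ)) h3
    · intro hv
      exact hv.2
  have hdgS : dgS (Nat.card k) {v : DV K | Odd (v.ord f)} = ∑ v ∈ O, v.deg (Nat.card k) := by
    unfold dgS
    rw [hOm]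
    exact finsum_mem_coe_finset _ _
  rw [hdgS] at hg'
  -- the special places above
  obtain ⟨A₁, hA₁, hA₁d⟩ := exists_fibers (K' := K') (Nat.card k) 1 O fun v hv => by
    obtain ⟨F, h1, h3, -⟩ := Q.sum_over (k := k) (hres v)
    exact ⟨F, h1, by rw [one_mul]; exact (h3 (mem_filter.1 hv).2).le⟩
  obtain ⟨A₂, hA₂, hA₂d⟩ := exists_fibers (K' := K') (Nat.card k) 2 (A \ O) fun v hv => by
    obtain ⟨F, h1, -, h3⟩ := Q.sum_over (k := k) (hres v)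
    have hv' : Even (v.ord f) := by
      obtain ⟨h4, h5⟩ := mem_sdiff.1 hv
      rw [← Int.not_odd_iff_even]
      exact fun h6 => h5 (mem_filter.2 ⟨h4, h6⟩)
    exact ⟨F, h1, (h3 hv').le⟩
  have hOA : O ⊆ A := filter_subset _ _
  have hsplit : ∑ v ∈ A \ O, v.deg (Nat.card k) + ∑ v ∈ O, v.deg (Nat.card k) =
      ∑ v ∈ A, v.deg (Nat.card k) := sum_sdiff hOA
  have hA' : ∑ w ∈ A₁ ∪ A₂, w.deg (Nat.card k) + ∑ v ∈ O, v.deg (Nat.card k) ≤ 2 * W := by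
    have h1 : ∑ w ∈ A₁ ∪ A₂, w.deg (Nat.card k) ≤
        ∑ w ∈ A₁, w.deg (Nat.card k) + ∑ w ∈ A₂, w.deg (Nat.card k) := by
      rw [← sum_union_inter]
      exact Nat.le_add_right _ _
    omega
  have hOW : ∑ v ∈ O, v.deg (Nat.card k) ≤ W := by
    have : ∑ v ∈ O, v.deg (Nat.card k) ≤ ∑ v ∈ A, v.deg (Nat.card k) := sum_le_sum_of_subset hOA
    omega
  obtain ⟨w, hwR, -, -, hwy, hwres⟩ := Q.odd_over (k := k) hRf
  -- the split points
  have key : ∀ v ∈ T, ∃ F : Finset (DV K'), F.card = 2 ∧ ∀ w ∈ F, Over w v ∧ w.Rat k ∧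
      ∃ α ∈ S, w.G 1 (Q.y - algebraMap k K' α) := by
    intro v hv
    obtain ⟨hvr, α, hα, hvα⟩ := hT' v hv
    obtain ⟨β, hβ, hβ', hαβ⟩ := hS.cl α hα
    have hα0 : α ≠ 0 := (hS.ne α hα).1
    have hβ0 : β ≠ 0 := (hS.ne β hβ).1
    have hαK : algebraMap k K α ≠ 0 := (_root_.map_ne_zero _).2 hα0
    have hβK : algebraMap k K β ≠ 0 := (_root_.map_ne_zero _).2 hβ0
    have hoα : v.ord (algebraMap k K α) = 0 := v.ord_const α
    have hxo : v.ord x = 0 := by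
      have h3 := DV.ord_add_of_lt (v := v) (a := algebraMap k K α) (b := x - algebraMap k K α) hαK
        (by rw [hoα]; exact hvα)
      rw [add_sub_cancel, hoα] at h3
      exact h3.2
    have hv2 : v.ord (2 : K) = 0 := DV.ord_two (k := k) v
    have h2x : (2 : K) * x ≠ 0 := mul_ne_zero h2 hx0
    have hf1 : v.G 1 (f - algebraMap k K β ^ 2) := by
      have h3 := congrArg (algebraMap k K) hαβ
      simp only [map_mul, map_pow, map_add, map_one, map_ofNat] at h3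
      have e : f - algebraMap k K β ^ 2 = (x - algebraMap k K α) *
          ((algebraMap k K α * x - 1) * (2 * (algebraMap k K α * x))⁻¹) := by
        have h4 : algebraMap k K β ^ 2 = (algebraMap k K α ^ 2 + 1) / (2 * algebraMap k K α) := by
          rw [eq_div_iff (mul_ne_zero h2 hαK)]
          linear_combination h3
        rw [hf, h4]
        field_simp
        ring
      rw [e]
      have h5 : v.G 0 (algebraMap k K α * x - 1) :=
        ((DV.G_of_le (by rw [hoα]) : v.G 0 (algebraMap k K α)).mul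
          (DV.G_of_le (by rw [hxo]) : v.G 0 x)).mono (by norm_num) |>.sub DV.G_one
      have hαx : algebraMap k K α * x ≠ 0 := mul_ne_zero hαK hx0
      have h6 : v.G 0 (2 * (algebraMap k K α * x))⁻¹ := DV.G_of_le (by
        rw [v.ord_inv (mul_ne_zero h2 hαx), v.ord_mul _ _ h2 hαx, v.ord_mul _ _ hαK hx0, hv2, hoα,
          hxo]
        norm_num)
      exact (hvα.mul (h5.mul h6)).mono (by norm_num)
    obtain ⟨w₁, w₂, hne, ho1, ho2, -, hy1, hy2, hr1, hr2⟩ := Q.split (k := k) (v := v)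
      (c := algebraMap k K β) (v.ord_const β) hβK hf1
    rw [← IsScalarTower.algebraMap_apply] at hy1 hy2
    refine ⟨{w₁, w₂}, card_pair hne, fun w hw => ?_⟩
    rw [mem_insert, mem_singleton] at hw
    rcases hw with rfl | rfl
    · exact ⟨ho1, Qd.rat_of_resCard (K := K) hvr hr1, β, hβ, hy1⟩
    · refine ⟨ho2, Qd.rat_of_resCard (K := K) hvr hr2, -β, hβ', ?_⟩
      rw [map_neg, sub_neg_eq_add]
      exact hy2
  choose! F hF1 hF2 using key
  refine ⟨K', inferInstance, inferInstance, Q.y, g', ∑ w ∈ A₁ ∪ A₂, w.deg (Nat.card k), by omega,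
    hFF', hC', ?_, ⟨A₁ ∪ A₂, ?_, le_rfl⟩, ⟨w, Qd.rat_of_resCard (K := K) hRr hwres, ?_, ?_⟩,
    ⟨T.biUnion F, ?_, ?_⟩, HasPlO.up hp Q hC hC' hRr hRf (by rw [hdgS]; exact hOW) hPl⟩
  · exact Se.up_deg Q hC hC' hRr hRf hSe (by rw [hdgS]; omega)
  · intro w hw
    obtain ⟨v, hv⟩ := Q.exists_over w
    have hvA : v ∉ A := by
      intro h1
      apply hw
      by_cases h3 : v ∈ O
      · exact mem_union_left _ ((hA₁ w).2 ⟨v, h3, hv⟩)
      · exact mem_union_right _ ((hA₂ w).2 ⟨v, mem_sdiff.2 ⟨h1, h3⟩, hv⟩)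
    exact UO.up (k := k) h2 (hA v hvA) hv Q.sq (DV.ord_two (k := k) v)
  · rw [hwy, hfR]; exact hRx
  · rw [hwy, hfR]; exact hRo
  · rw [card_biUnion]
    · rw [sum_congr rfl hF1, sum_const, smul_eq_mul]
      omega
    · intro v hv v' hv' hne
      change Disjoint (F v) (F v')
      rw [disjoint_left]
      intro w hw hw'
      exact hne ((hF2 v hv w hw).1.unique (hF2 v' hv' w hw').1)
  · intro w hw
    obtain ⟨v, hv, hw⟩ := mem_biUnion.1 hw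
    exact (hF2 v hv w hw).2

/-- the numbers -/
theorem num_tower (B₀ Γ M C₀ : ℕ) : ∃ A : ℕ, 1 ≤ A ∧ ∀ j r : ℕ, A * (j + 1) ≤ r →
    B₀ + (2 ^ j * Γ + 2) ^ 2 ≤ 2 ^ r ∧
      2 * (r * (2 ^ j * M) + 2 ^ j * (C₀ + j * (2 * Γ + 1))) ≤ 2 ^ r := by
  obtain ⟨Z, hZ⟩ : ∃ Z, Z = B₀ + (Γ + 2) ^ 2 + 2 * M + 2 * (C₀ + (2 * Γ + 1)) := ⟨_, rfl⟩
  refine ⟨2 * Z + 6, by omega, fun j r hr => ?_⟩
  have hZ2 : Z ≤ 2 ^ Z := Nat.lt_two_pow_self.le
  obtain ⟨h, hh⟩ : ∃ h, h = r / 2 := ⟨_, rfl⟩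
  have hr1 : 2 * j + 2 * Z + 4 ≤ r := by nlinarith
  have hj : j + 1 ≤ 2 ^ j := Nat.lt_two_pow_self
  have hj1 : 1 ≤ 2 ^ j := Nat.one_le_two_pow
  constructor
  · have h1 : (2 ^ j * Γ + 2) ^ 2 ≤ (2 ^ j * (Γ + 2)) ^ 2 := by
      apply Nat.pow_le_pow_left
      nlinarith
    have h2 : B₀ + (2 ^ j * Γ + 2) ^ 2 ≤ (2 ^ j) ^ 2 * Z := by
      calc B₀ + (2 ^ j * Γ + 2) ^ 2 ≤ (2 ^ j) ^ 2 * B₀ + (2 ^ j * (Γ + 2)) ^ 2 := by
            have : 1 ≤ (2 ^ j) ^ 2 := Nat.one_le_pow _ _ (by positivity)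
            nlinarith
        _ = (2 ^ j) ^ 2 * (B₀ + (Γ + 2) ^ 2) := by ring
        _ ≤ (2 ^ j) ^ 2 * Z := Nat.mul_le_mul_left _ (by omega)
    calc B₀ + (2 ^ j * Γ + 2) ^ 2 ≤ (2 ^ j) ^ 2 * Z := h2
      _ ≤ (2 ^ j) ^ 2 * 2 ^ Z := Nat.mul_le_mul_left _ hZ2
      _ = 2 ^ (2 * j + Z) := by rw [← pow_mul, ← pow_add]; ring_nf
      _ ≤ 2 ^ r := Nat.pow_le_pow_right (by norm_num) (by omega)
  · have h1 : r ≤ 2 * 2 ^ h := by
      have : h + 1 ≤ 2 ^ h := Nat.lt_two_pow_self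
      omega
    have hjr : j + 1 ≤ r := by omega
    have h2 : 2 * (r * (2 ^ j * M) + 2 ^ j * (C₀ + j * (2 * Γ + 1))) ≤ 2 ^ j * (Z * r) := by
      have e1 : C₀ + j * (2 * Γ + 1) ≤ r * (C₀ + (2 * Γ + 1)) := by
        calc C₀ + j * (2 * Γ + 1) ≤ r * C₀ + r * (2 * Γ + 1) := by
              have h3 : C₀ ≤ r * C₀ := Nat.le_mul_of_pos_left _ (by omega)
              have h4 : j * (2 * Γ + 1) ≤ r * (2 * Γ + 1) := Nat.mul_le_mul_right _ (by omega)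
              omega
          _ = r * (C₀ + (2 * Γ + 1)) := by ring
      calc 2 * (r * (2 ^ j * M) + 2 ^ j * (C₀ + j * (2 * Γ + 1)))
          ≤ 2 * (r * (2 ^ j * M) + 2 ^ j * (r * (C₀ + (2 * Γ + 1)))) := by
            have := Nat.mul_le_mul_left (2 ^ j) e1
            omega
        _ = 2 ^ j * ((2 * M + 2 * (C₀ + (2 * Γ + 1))) * r) := by ring
        _ ≤ 2 ^ j * (Z * r) := Nat.mul_le_mul_left _ (Nat.mul_le_mul_right _ (by omega))
    calc _ ≤ 2 ^ j * (Z * r) := h2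
      _ ≤ 2 ^ j * (2 ^ Z * (2 * 2 ^ h)) := Nat.mul_le_mul_left _ (Nat.mul_le_mul hZ2 h1)
      _ = 2 ^ (j + Z + 1 + h) := by rw [pow_add, pow_add, pow_add]; ring
      _ ≤ 2 ^ r := Nat.pow_le_pow_right (by norm_num) (by omega)

/-- all levels -/
theorem LvP.chain (hp : p ≠ 2) {S : Finset k} (hS : SSet S) {Γ t₀ B₀ C₀ M₀ : ℕ}
    (h : ∃ (K : Type) (_ : Field K) (_ : Algebra k K) (x : K) (g W : ℕ), 2 * g + W ≤ Γ ∧
      LvP p k K S x g W t₀ B₀ C₀ M₀)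
    (j : ℕ) : ∃ (K : Type) (_ : Field K) (_ : Algebra k K) (x : K) (g W : ℕ),
      2 * g + W + 2 * 2 ^ j ≤ 2 ^ j * Γ + 2 ∧
      LvP p k K S x g W (2 ^ j * t₀) (B₀ + (2 ^ j * Γ + 2) ^ 2)
        (2 ^ j * (C₀ + j * (2 * Γ + 1))) (2 ^ j * M₀) := by
  induction j with
  | zero =>
    obtain ⟨K, _, _, x, g, W, hg, h⟩ := h
    refine ⟨K, inferInstance, inferInstance, x, g, W, by omega, ?_⟩
    exact ⟨h.ff, h.cv, h.se, h.sp, h.pole, by simpa using h.pts,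
      h.pl.mono (Nat.le_add_right _ _) (by simp) (by simp)⟩
  | succ j ih =>
    obtain ⟨K, _, _, x, g, W, hg, h⟩ := ih
    obtain ⟨K', i1, i2, x', g', W', hg', h'⟩ := h.up hp hS
    have hj1 : 1 ≤ 2 ^ j := Nat.one_le_two_pow
    have e0 : 2 ^ (j + 1) * Γ = 2 * (2 ^ j * Γ) := by rw [pow_succ]; ring
    have e00 : (2 : ℕ) ^ (j + 1) = 2 * 2 ^ j := by rw [pow_succ]; ring
    refine ⟨K', i1, i2, x', g', W', by rw [e0, e00]; omega, ?_⟩
    refine ⟨h'.ff, h'.cv, h'.se, h'.sp, h'.pole, ?_, h'.pl.mono ?_ ?_ ?_⟩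
    · obtain ⟨T, hT, hT'⟩ := h'.pts
      refine ⟨T, ?_, hT'⟩
      calc 2 ^ (j + 1) * t₀ = 2 * (2 ^ j * t₀) := by rw [pow_succ]; ring
        _ ≤ T.card := hT
    · rw [e0]
      refine max_le (Nat.add_le_add_left (Nat.pow_le_pow_left (by omega) 2) _) ?_
      refine le_trans ?_ (Nat.le_add_left _ _)
      rw [sq]
      exact Nat.mul_le_mul (by omega) (by omega)
    · have e1 : 2 ^ (j + 1) * (C₀ + (j + 1) * (2 * Γ + 1)) =
          2 * (2 ^ j * (C₀ + j * (2 * Γ + 1))) + (4 * (2 ^ j * Γ) + 2 * 2 ^ j) := by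
        rw [pow_succ]; ring
      rw [e1]
      omega
    · rw [pow_succ]
      exact le_of_eq (by ring)

/-- **The tower over a base.** -/
theorem towerO_of_base' (hp : p ≠ 2) (hk : Nat.card k = p ^ 2) {S : Finset k} (hS : SSet S)
    {g₀ t₀ : ℕ} (ht : 0 < t₀)
    (h : ∃ (K : Type) (_ : Field K) (_ : Algebra k K) (x : K) (g W B C M : ℕ),
      2 * g + W ≤ 2 * g₀ + 6 ∧ LvP p k K S x g W t₀ B C M) :
    TowerO k ((g₀ + 2 : ℕ), 2 * (g₀ + 2 : ℕ), (t₀ : ℕ)) := by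
  obtain ⟨K, i1, i2, x, g, W, B₀, C₀, M₀, hgW, h⟩ := h
  obtain ⟨A, hA1, hA⟩ := num_tower B₀ (2 * g₀ + 6) (M₀ * (1 + Nat.card k)) C₀
  refine ⟨A, 2, fun j => ?_⟩
  obtain ⟨K', j1, j2, x', g, W, hg, h'⟩ := LvP.chain hp hS ⟨K, i1, i2, x, g, W, hgW, h⟩ j
  obtain ⟨T, hT, hT'⟩ := h'.pts
  have hj1 : 1 ≤ 2 ^ j := Nat.one_le_two_pow
  have hg2 : 2 * g ≤ 2 ^ j * (2 * (g₀ + 2)) + 2 := by
    have e : 2 ^ j * (2 * g₀ + 6) = 2 ^ j * (2 * (g₀ + 2)) + 2 * 2 ^ j := by ring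
    omega
  have hg3 : (2 * g : ℝ) ≤ 2 ^ j * (2 * ((g₀ + 2 : ℕ) : ℝ)) + 2 := by exact_mod_cast hg2
  refine ⟨K', j1, j2, g, 2 * g, T, h'.ff, h'.cv, ?_, h'.se, ?_, fun P hP => (hT' P hP).1, ?_, ?_,
    fun r hr => ?_⟩
  · simp only
    linarith
  · simp only
    push_cast
    push_cast at hg3
    linarith
  · rw [← card_pos]
    exact lt_of_lt_of_le (Nat.mul_pos (by omega) ht) hT
  · have : ((2 ^ j * t₀ : ℕ) : ℝ) ≤ (T.card : ℝ) := by exact_mod_cast hT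
    push_cast at this
    simp only
    linarith
  · have hr1 : 1 ≤ r := by
      have : 1 ≤ A * (j + 1) := Nat.mul_pos hA1 (Nat.succ_pos j)
      omega
    have hp2 : 2 ≤ p := (Fact.out : p.Prime).two_le
    obtain ⟨h1, h2⟩ := hA j r hr
    have h3 : 2 ^ r ≤ p ^ r := Nat.pow_le_pow_left hp2 r
    refine h'.pl.many h'.cv hr1 (s := p ^ r) (e := r) rfl (by rw [hk, ← pow_mul, ← pow_mul, mul_comm])
      (h1.trans h3) (le_trans (le_of_eq ?_) (h2.trans h3))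
    ring

theorem towerO_of_base (hp : p ≠ 2) (hk : Nat.card k = p ^ 2) {S : Finset k} (hS : SSet S)
    {g₀ t₀ : ℕ} (ht : 0 < t₀)
    (h : ∃ (K : Type) (_ : Field K) (_ : Algebra k K) (x : K) (B C M : ℕ),
      LvP p k K S x g₀ 6 t₀ B C M) :
    TowerO k ((g₀ + 2 : ℕ), 2 * (g₀ + 2 : ℕ), (t₀ : ℕ)) := by
  obtain ⟨K, i1, i2, x, B, C, M, h⟩ := h
  exact towerO_of_base' hp hk hS ht ⟨K, i1, i2, x, g₀, 6, B, C, M, le_rfl, h⟩

end step

end Pool.Agent.FF
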