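import Pool.Agent.FO.DefsQ
import Pool.Agent.FO.ChainO

/-! # Cubic steps, then the tower of quadratic steps -/

set_option autoImplicit false

namespace Pool.Agent.FF

/-- the cubic step with the values in `S` and `W3` -/
def CubStep (p : ℕ) (k : Type) [Field k] (S W3 : Finset k) : Prop :=
  ∀ (K : Type) [Field K] [Algebra k K] (x W : K) (g D t B C M : ℕ),
    LvQ p k K S W3 x W g D t B C M →
    ∃ (K' : Type) (_ : Field K') (_ : Algebra k K') (x' W' : K') (g' D' B' C' M' : ℕ),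
      2 * g' + D' + 4 ≤ 3 * (2 * g + D) ∧ LvQ p k K' S W3 x' W' g' D' (3 * t) B' C' M'

/-- the bound for the unramified classes over `k` -/
def SeAll (k : Type) [Field k] : Prop :=
  ∀ (K : Type) [Field K] [Algebra k K] (g : ℕ), Cv k K g → (∃ R : DV K, R.Rat k) →
    Se K (2 * g + 1)

section

variable {p : ℕ} {k : Type} [Field k]

theorem LvQ.toP {S W3 : Finset k} (hSe : SeAll k) {K : Type} [Field K] [Algebra k K] {x W : K}
    {g D t B C M : ℕ} (h : LvQ p k K S W3 x W g D t B C M) : LvP p k K S x g D t B C M := by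
  obtain ⟨hff, hcv, ⟨A, hA, hAD⟩, ⟨R, hR, hx, hox, -, -⟩, ⟨T, hT, hT'⟩, hpl⟩ := h
  exact ⟨hff, hcv, hSe K g hcv ⟨R, hR⟩, ⟨A, fun v hv => (hA v hv).1, hAD⟩, ⟨R, hR, hx, hox⟩,
    ⟨T, hT, fun v hv => ⟨(hT' v hv).1, (hT' v hv).2.1⟩⟩, hpl⟩

/-- `b` cubic steps -/
theorem LvQ.chain {S W3 : Finset k} (hst : CubStep p k S W3) {E t₀ : ℕ}
    (h : ∃ (K : Type) (_ : Field K) (_ : Algebra k K) (x W : K) (g D B C M : ℕ),
      2 * g + D ≤ E + 2 ∧ LvQ p k K S W3 x W g D t₀ B C M) (b : ℕ) :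
    ∃ (K : Type) (_ : Field K) (_ : Algebra k K) (x W : K) (g D B C M : ℕ),
      2 * g + D ≤ 3 ^ b * E + 2 ∧ LvQ p k K S W3 x W g D (3 ^ b * t₀) B C M := by
  induction b with
  | zero => simpa using h
  | succ b ih =>
    obtain ⟨K, i1, i2, x, W, g, D, B, C, M, hg, h⟩ := ih
    obtain ⟨K', j1, j2, x', W', g', D', B', C', M', hg', h'⟩ := hst K x W g D _ B C M h
    refine ⟨K', j1, j2, x', W', g', D', B', C', M', ?_, ?_⟩
    · have e : 3 ^ (b + 1) * E = 3 * (3 ^ b * E) := by rw [pow_succ]; ring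
      rw [e]
      omega
    · have e : 3 ^ (b + 1) * t₀ = 3 * (3 ^ b * t₀) := by rw [pow_succ]; ring
      rw [e]
      exact h'

/-- **The towers of quadratic steps over the levels `3 ^ b`.** -/
theorem towerO_of_baseQ [Fact p.Prime] [Finite k] [CharP k p] (hp : p ≠ 2)
    (hk : Nat.card k = p ^ 2) {S W3 : Finset k} (hS : SSet S) (hst : CubStep p k S W3)
    (hSe : SeAll k) {h₀ t₀ : ℕ} (hh : 2 ≤ h₀) (ht : 0 < t₀)
    (h : ∃ (K : Type) (_ : Field K) (_ : Algebra k K) (x W : K) (g D B C M : ℕ),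
      2 * g + D ≤ 2 * h₀ + 2 ∧ LvQ p k K S W3 x W g D t₀ B C M) (b : ℕ) :
    TowerO k ((3 ^ b * h₀ : ℕ), 2 * (3 ^ b * h₀ : ℕ), (3 ^ b * t₀ : ℕ)) := by
  obtain ⟨K, i1, i2, x, W, g, D, B, C, M, hg, h'⟩ := LvQ.chain hst h b
  have hb : 2 ≤ 3 ^ b * h₀ := le_trans hh (Nat.le_mul_of_pos_left _ (by positivity))
  obtain ⟨g₀, hg₀⟩ := Nat.exists_eq_add_of_le hb
  have e : 3 ^ b * h₀ = g₀ + 2 := by omega
  rw [e]
  refine towerO_of_base' hp hk hS (Nat.mul_pos (by positivity) ht)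
    ⟨K, i1, i2, x, g, D, B, C, M, ?_, h'.toP hSe⟩
  have e2 : 3 ^ b * (2 * h₀) = 2 * (3 ^ b * h₀) := by ring
  rw [e2, e] at hg
  omega

end

end Pool.Agent.FF
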