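import Pool.Agent.FO.KmKl
import Pool.Agent.FO.BombP
import Pool.Agent.FO.Defs

/-! # Places of large degree along a Kummer extension of prime degree, any characteristic -/

set_option autoImplicit false
set_option linter.unusedSectionVars false

namespace Pool.Agent.FF

open Finset

variable {k K L : Type*} [Field k] [Finite k] [Field K] [Field L] [Algebra k K] [Algebra k L]
  [Algebra K L] [IsScalarTower k K L] {n : ℕ} (S : Km k K L n)

/-- the iterate of `σ` as a homomorphism -/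
noncomputable def Km.τ (i : ℕ) : L →+* L := (S.σ : L →+* L) ^ i

theorem Km.τ_apply (i : ℕ) (x : L) : S.τ i x = S.σ^[i] x := by
  unfold Km.τ
  rw [RingHom.coe_pow]
  rfl

/-- **The action of the Frobenius at an unramified place.** -/
theorem Km.cls {p : ℕ} [Fact p.Prime] [CharP L p] {g' : ℕ} (C : Cv k L g') {R : DV K} {R' : DV L}
    (hR' : Over R' R) {v : DV K} (hvR : v ≠ R) (hv : (n : ℤ) ∣ v.ord S.Θ) {r M : ℕ}
    (hM : Nat.card k ^ r = p ^ M) (hE : FF.Er k v r) :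
    ∃ i < n, (∀ w : DV L, Over w v → ∀ x : L, (∀ u : DV L, u ≠ R' → u.G 0 x) →
      w.G 1 (x ^ (Nat.card k ^ r) - S.σ^[i] x)) ∧ (i = 0 → ∀ w : DV L, Over w v → FF.Er k w r) := by
  obtain ⟨a, ha, h0⟩ := S.exists_scale hv
  obtain ⟨i, hi, h⟩ := (S.scale a ha).exists_class h0 hE
  refine ⟨i, hi, fun w hw x hx => (S.scale a ha).frob_LR hw hR' hvR h0 hM hE (h w hw) hx,
    fun hi0 w hw => (S.scale a ha).Er_up C hw hR' hvR h0 hM hE ?_⟩
  have h1 := h w hw
  rw [hi0] at h1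
  exact h1

/-- **The step** for a Kummer extension of prime degree. -/
theorem WtX.km {p : ℕ} [Fact p.Prime] [CharP L p] (hn : n.Prime) {g g' : ℕ} (hcv : Cv k K g)
    (C : Cv k L g') {r s e s' e' C₀ ρ : ℕ}
    (hs : s = p ^ e) (hs' : s' = p ^ e') (hss : s' ≤ s) (hsq : s * s' = Nat.card k ^ r)
    {R : DV K} (hR : R.Rat k) (hRΘ : ¬ (n : ℤ) ∣ R.ord S.Θ) (hg : (g' + 1) * (g' + 2) ≤ s)
    (hρ : ∀ A : Finset (DV K), (∀ v ∈ A, ¬ (n : ℤ) ∣ v.ord S.Θ) → ∑ v ∈ A, deg k v ≤ ρ)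
    (h : WtX k K r s C₀) : WtX k L r s (n * C₀ + n * ρ + (n - 1) * (2 * g' + 1)) := by
  classical
  have hcop : IsCoprime (R.ord S.Θ) (n : ℤ) := by
    have h1 : IsCoprime (n : ℤ) (R.ord S.Θ) :=
      (Prime.coprime_iff_not_dvd (Nat.prime_iff_prime_int.1 hn)).2 hRΘ
    exact h1.symm
  have hR' : Over (S.up R) R := S.up_over R
  have hu : ∀ w : DV L, Over w R → w = S.up R := fun w hw => S.over_unique hcop hw hR'
  have hRrat : (S.up R).Rat k := S.ram_rat hcop hR' hR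
  set R' := S.up R with hR'def
  have hM : Nat.card k ^ r = p ^ (e + e') := by rw [← hsq, hs, hs', pow_add]
  obtain ⟨A, hA, hAs⟩ := h
  set A₁ := A.filter (fun v => (n : ℤ) ∣ v.ord S.Θ) with hA₁
  set A₂ := A.filter (fun v => ¬ (n : ℤ) ∣ v.ord S.Θ) with hA₂
  have hA2 : ∑ v ∈ A₂, deg k v ≤ ρ := hρ A₂ fun v hv => (mem_filter.1 hv).2
  have hA12 : ∑ v ∈ A₁, deg k v + ∑ v ∈ A₂, deg k v = ∑ v ∈ A, deg k v :=
    sum_filter_add_sum_filter_not A _ _
  have hgood : ∀ v ∈ A₁, Er k v r ∧ (n : ℤ) ∣ v.ord S.Θ ∧ v ≠ R := fun v hv => by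
    obtain ⟨h1, h2⟩ := mem_filter.1 hv
    refine ⟨hA v h1, h2, ?_⟩
    rintro rfl
    exact hRΘ h2
  -- the classes
  have hcl : ∀ v : DV K, ∃ i : ℕ, v ∈ A₁ → i < n ∧
      (∀ w : DV L, Over w v → ∀ x : L, (∀ u : DV L, u ≠ R' → u.G 0 x) →
        w.G 1 (x ^ (Nat.card k ^ r) - S.σ^[i] x)) ∧
      (i = 0 → ∀ w : DV L, Over w v → Er k w r) := by
    intro v
    by_cases hv : v ∈ A₁
    · obtain ⟨i, hi, h1⟩ := S.cls C hR' (hgood v hv).2.2 (hgood v hv).2.1 hM (hgood v hv).1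
      exact ⟨i, fun _ => ⟨hi, h1⟩⟩
    · exact ⟨0, fun h => absurd h hv⟩
  choose cl hcl using hcl
  -- the fibres
  let B : DV K → Finset (DV L) := fun v => (S.fib_finite v).toFinset
  have hBo : ∀ v, ∀ w ∈ B v, Over w v := fun v w hw => S.mem_fib.1 hw
  let V : ℕ → Finset (DV K) := fun i => A₁.filter (fun v => cl v = i)
  let W : ℕ → Finset (DV L) := fun i => (V i).biUnion B
  have hVA : ∀ i, ∀ v ∈ V i, v ∈ A₁ ∧ cl v = i := fun i v hv => mem_filter.1 hv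
  have hsum : ∑ v ∈ A₁, deg k v = ∑ i ∈ range n, ∑ v ∈ V i, deg k v :=
    (sum_fiberwise_of_maps_to (fun v hv => mem_range.2 (hcl v hv).1) _).symm
  have hW : ∀ i, n * ∑ v ∈ V i, deg k v ≤ ∑ w ∈ W i, deg k w := by
    intro i
    have h1 : ∑ w ∈ W i, deg k w = ∑ v ∈ V i, ∑ w ∈ B v, deg k w := by
      refine sum_biUnion fun v hv v' hv' hne => ?_
      rw [Function.onFun, disjoint_left]
      intro w hw hw'
      exact hne ((hBo v w hw).unique (hBo v' w hw'))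
    rw [h1, mul_sum]
    exact sum_le_sum fun v hv => (S.sum_deg hcv C (hgood v (hVA i v hv).1).2.1).ge
  have hWov : ∀ i, ∀ w ∈ W i, ∃ v ∈ A₁, cl v = i ∧ Over w v := by
    intro i w hw
    obtain ⟨v, hv, hwv⟩ := mem_biUnion.1 hw
    exact ⟨v, (hVA i v hv).1, (hVA i v hv).2, hBo v w hwv⟩
  -- Bombieri
  have hRR : RRone k (deg k) R' g' := C.rrone hRrat
  have hbomb : ∀ i ∈ (range n).erase 0, n * ∑ v ∈ V i, deg k v ≤
      Nat.card k ^ r + (2 * g' + 1) * s := by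
    intro i _
    refine (hW i).trans ?_
    have h1 := bombieriP hRR (S.τ i) (fun m x hx => by
      rw [S.τ_apply]
      refine ⟨?_, fun w hw => ?_⟩
      · rw [← S.tw_G, hu _ (S.tw_over hR' i)]
        exact hx.1
      · rw [← S.tw_G]
        refine hx.2 _ fun h => hw ?_
        have h1 : Over (S.tw w i) (S.dn w) := S.tw_over (S.dn_over w) i
        rw [h] at h1
        have h2 := S.dn_over w
        rw [h1.unique hR'] at h2
        exact hu _ h2) hs hs' hss hg (W i) (by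
      intro w hw
      obtain ⟨v, hv, hclv, hwv⟩ := hWov i w hw
      obtain ⟨hE, hΘ, hvR⟩ := hgood v hv
      refine ⟨?_, fun m x hx => ?_⟩
      · rintro rfl
        exact hvR (hwv.unique hR')
      · rw [hsq, S.τ_apply]
        have h2 := (hcl v hv).2.1 w hwv x hx.2
        rw [hclv] at h2
        exact h2)
    rw [hsq] at h1
    omega
  refine ⟨W 0, ?_, ?_⟩
  · intro w hw
    obtain ⟨v, hv, hclv, hwv⟩ := hWov 0 w hw
    exact (hcl v hv).2.2 hclv w hwv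
  · have h0 : 0 ∈ range n := mem_range.2 hn.pos
    have h1 : n * ∑ v ∈ A₁, deg k v ≤ ∑ w ∈ W 0, deg k w +
        (n - 1) * (Nat.card k ^ r + (2 * g' + 1) * s) := by
      rw [hsum, mul_sum, ← add_sum_erase _ _ h0]
      refine Nat.add_le_add (hW 0) ?_
      calc ∑ i ∈ (range n).erase 0, n * ∑ v ∈ V i, deg k v
          ≤ ∑ _i ∈ (range n).erase 0, (Nat.card k ^ r + (2 * g' + 1) * s) := sum_le_sum hbomb
        _ = _ := by rw [sum_const, card_erase_of_mem h0, card_range, smul_eq_mul]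
    have hs1 : 1 ≤ s := by rw [hs]; exact Nat.one_le_pow _ _ (Fact.out : p.Prime).pos
    set Q := Nat.card k ^ r with hQ
    have h2 : Q ≤ ∑ v ∈ A₁, deg k v + ρ + C₀ * s := by omega
    have h3 : n * Q ≤ n * ∑ v ∈ A₁, deg k v + n * ρ + n * (C₀ * s) := by
      calc n * Q ≤ n * (∑ v ∈ A₁, deg k v + ρ + C₀ * s) := Nat.mul_le_mul_left _ h2
        _ = _ := by ring
    have h4 : n * Q = Q + (n - 1) * Q := by
      obtain ⟨m, rfl⟩ : ∃ m, n = m + 1 := ⟨n - 1, by have := hn.pos; omega⟩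
      rw [Nat.add_sub_cancel]
      ring
    have h5 : (n - 1) * (Q + (2 * g' + 1) * s) = (n - 1) * Q + (n - 1) * (2 * g' + 1) * s := by ring
    have h6 : (n * C₀ + n * ρ + (n - 1) * (2 * g' + 1)) * s =
        n * (C₀ * s) + n * ρ * s + (n - 1) * (2 * g' + 1) * s := by ring
    have h7 : n * ρ ≤ n * ρ * s := Nat.le_mul_of_pos_right _ hs1
    rw [h6]
    rw [h5] at h1
    omega

/-- **The step.** -/
theorem HasPlO.km {p : ℕ} [Fact p.Prime] [CharP L p] (hn : n.Prime) {g g' : ℕ} (hcv : Cv k K g)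
    (C : Cv k L g') {R : DV K} (hR : R.Rat k) (hRΘ : ¬ (n : ℤ) ∣ R.ord S.Θ) {ρ : ℕ}
    (hρ : ∀ A : Finset (DV K), (∀ v ∈ A, ¬ (n : ℤ) ∣ v.ord S.Θ) → ∑ v ∈ A, deg k v ≤ ρ)
    {B C₀ M : ℕ} (h : HasPlO p k K B C₀ M) :
    HasPlO p k L (max B ((g' + 1) * (g' + 2))) (n * C₀ + n * ρ + (n - 1) * (2 * g' + 1))
      (n * M) where
  wt r s e hr hs hsq hBs := by
    obtain ⟨A, hA, hAs⟩ := h.wt r s e hr hs hsq ((le_max_left _ _).trans hBs)
    have hsq' : s * s = Nat.card k ^ r := by rw [← hsq, sq]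
    have h1 : WtX k K r s C₀ := ⟨A, hA, by rw [← hsq]; exact hAs⟩
    obtain ⟨A', hA', hAs'⟩ := WtX.km S hn hcv C hs hs le_rfl hsq' hR hRΘ
      ((le_max_right _ _).trans hBs) hρ h1
    exact ⟨A', hA', by rw [hsq]; exact hAs'⟩
  few D := by
    have hcop : IsCoprime (R.ord S.Θ) (n : ℤ) := by
      have h1 : IsCoprime (n : ℤ) (R.ord S.Θ) :=
        (Prime.coprime_iff_not_dvd (Nat.prime_iff_prime_int.1 hn)).2 hRΘ
      exact h1.symm
    have h1 := S.few hcv C (S.up_over R) (fun w hw => S.over_unique hcop hw (S.up_over R)) (h.few D)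
    rwa [← mul_assoc] at h1

end Pool.Agent.FF
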