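import Pool.Agent.FO.Defs
import Pool.Agent.FF.RatWt

/-! # Places of degree `r`: monotonicity, base, many places -/

set_option autoImplicit false
set_option linter.unusedSectionVars false

namespace Pool.Agent.FF

open Finset

variable {k K K' : Type} [Field k] [Finite k] [Field K] [Field K'] [Algebra k K] [Algebra k K']
  [Algebra K K'] [IsScalarTower k K K'] {f : K} {p : ℕ} [Fact p.Prime]

theorem HasPlO.mono {B C M B' C' M' : ℕ} (h : HasPlO p k K B C M)
    (hB : B ≤ B') (hC : C ≤ C') (hM : M ≤ M') : HasPlO p k K B' C' M' where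
  wt r s e hr hs hsq hBs := by
    obtain ⟨A, hA, hAs⟩ := h.wt r s e hr hs hsq (hB.trans hBs)
    exact ⟨A, hA, hAs.trans (Nat.add_le_add_left (Nat.mul_le_mul_right _ hC) _)⟩
  few D A hA := (h.few D A hA).trans (Nat.mul_le_mul_right _ hM)

/-- Base: the rational function field. -/
theorem HasPlO.base (k : Type) [Field k] [Finite k] : HasPlO p k (RatFunc k) 0 0 1 where
  wt _ _ _ hr _ hsq _ := Rat.wt hr hsq
  few D A hA := by
    rw [one_mul]
    exact Rat.card_le D A hA

/-- **Many places of degree `r`.** -/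
theorem HasPlO.many {g : ℕ} (hcv : Cv k K g) {B C M : ℕ} (h : HasPlO p k K B C M) {r s e : ℕ}
    (hr : 1 ≤ r) (hs : s = p ^ e) (hsq : s ^ 2 = Nat.card k ^ r) (hB : B ≤ s)
    (hlt : 2 * (r * M * (1 + Nat.card k) + C) ≤ s) :
    ∃ A : Finset (DV K), (∀ v ∈ A, v.deg (Nat.card k) = r) ∧ Nat.card k ^ r ≤ 2 * r * A.card := by
  classical
  have hp0 : 0 < p := (Fact.out : p.Prime).pos
  have hs1 : 1 ≤ s := by rw [hs]; exact Nat.one_le_pow _ _ hp0
  obtain ⟨A, hA, hAs⟩ := h.wt r s e hr hs hsq hB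
  set q := Nat.card k with hq
  have hq1 : 1 ≤ q := Nat.card_pos
  set U := A.filter (fun v => deg k v = r) with hU
  set V := A.filter (fun v => ¬ deg k v = r) with hV
  have hUV : ∑ v ∈ U, deg k v + ∑ v ∈ V, deg k v = ∑ v ∈ A, deg k v :=
    Finset.sum_filter_add_sum_filter_not A _ _
  have hU1 : ∑ v ∈ U, deg k v = U.card * r := by
    rw [Finset.sum_congr rfl fun v hv => (Finset.mem_filter.1 hv).2, Finset.sum_const, smul_eq_mul]
  have hV1 : ∀ v ∈ V, deg k v ≤ r / 2 := by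
    intro v hv
    obtain ⟨hvA, hne⟩ := Finset.mem_filter.1 hv
    obtain ⟨m, hm⟩ := dvd_of_Er (hcv.ffp.res v) (hA v hvA)
    have hm2 : 2 ≤ m := by
      rcases m with _ | _ | m
      · omega
      · exact absurd (by rw [hm]; ring) hne
      · omega
    rw [Nat.le_div_iff_mul_le (by norm_num)]
    calc deg k v * 2 ≤ deg k v * m := Nat.mul_le_mul_left _ hm2
      _ = r := hm.symm
  have h1 : q ^ (r / 2) ≤ s := by
    have h2 : (q ^ (r / 2)) ^ 2 ≤ s ^ 2 := by
      rw [hsq, ← pow_mul]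
      exact Nat.pow_le_pow_right hq1 (Nat.div_mul_le_self r 2)
    exact (Nat.pow_le_pow_iff_left (by norm_num)).1 h2
  have h3 : 1 + q ^ (r / 2 + 1) ≤ (1 + q) * s := by
    rw [pow_succ]
    calc 1 + q ^ (r / 2) * q ≤ s + s * q := Nat.add_le_add hs1 (Nat.mul_le_mul_right _ h1)
      _ = (1 + q) * s := by ring
  have hV2 : ∑ v ∈ V, deg k v ≤ r * M * (1 + q) * s := by
    calc ∑ v ∈ V, deg k v ≤ ∑ _v ∈ V, r / 2 := Finset.sum_le_sum hV1
      _ = r / 2 * V.card := by rw [Finset.sum_const, smul_eq_mul, mul_comm]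
      _ ≤ r / 2 * (M * (1 + q ^ (r / 2 + 1))) := Nat.mul_le_mul_left _ (h.few _ V hV1)
      _ ≤ r * (M * ((1 + q) * s)) := Nat.mul_le_mul (Nat.div_le_self r 2) (Nat.mul_le_mul_left _ h3)
      _ = r * M * (1 + q) * s := by ring
  refine ⟨U, fun v hv => (Finset.mem_filter.1 hv).2, ?_⟩
  rw [← hsq]
  have h4 : 2 * (r * M * (1 + q) * s + C * s) ≤ s ^ 2 := by
    have h5 := Nat.mul_le_mul_right s hlt
    calc 2 * (r * M * (1 + q) * s + C * s) = 2 * (r * M * (1 + q) + C) * s := by ring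
      _ ≤ s * s := h5
      _ = s ^ 2 := (sq s).symm
  have h5 : 2 * r * U.card = 2 * (U.card * r) := by ring
  rw [h5]
  omega

end Pool.Agent.FF
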