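import Pool.Agent.FO.Quad
import Pool.Agent.FO.KmWt
import Pool.Agent.FO.WtP22

/-! # Places of degree `r` along quadratic extensions

`HasPlO.mono`, `HasPlO.base`, `HasPlO.many` are in `FO/WtP22.lean`. -/

set_option autoImplicit false
set_option linter.unusedSectionVars false

namespace Pool.Agent.FF

open Finset

variable {k K K' : Type} [Field k] [Finite k] [Field K] [Field K'] [Algebra k K] [Algebra k K']
  [Algebra K K'] [IsScalarTower k K K'] {f : K} {p : ℕ} [Fact p.Prime]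

/-- **The step**, with a rational ramified place `R`. -/
theorem HasPlO.up [CharP K p] (hp : p ≠ 2) (S : Qd K K' f) {g g' : ℕ} (C₀ : Cv k K g)
    (C₁ : Cv k K' g') {R : DV K} (hR : R.Rat k) (hRf : Odd (R.ord f)) {ρ : ℕ}
    (hρ : dgS (Nat.card k) {v : DV K | Odd (v.ord f)} ≤ ρ) {B C M : ℕ} (h : HasPlO p k K B C M) :
    HasPlO p k K' (max B ((g' + 1) * (g' + 2))) (2 * C + 2 * ρ + 2 * g' + 1) (2 * M) := by
  classical
  have _ := hp
  haveI : CharP K' p := charP_of_injective_algebraMap (algebraMap K K').injective p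
  have hdvd : ∀ v : DV K, ¬ ((2 : ℕ) : ℤ) ∣ v.ord (S.km k).Θ → Odd (v.ord f) := by
    intro v hv
    rw [S.km_Θ] at hv
    rcases Int.even_or_odd (v.ord f) with h1 | h1
    · exact absurd (by exact_mod_cast h1.two_dvd) hv
    · exact h1
  have hRΘ : ¬ ((2 : ℕ) : ℤ) ∣ R.ord (S.km k).Θ := by
    rw [S.km_Θ]
    intro h1
    have h2 : Even (R.ord f) := even_iff_two_dvd.2 (by exact_mod_cast h1)
    exact (Int.not_even_iff_odd.2 hRf) h2
  have hfin : {v : DV K | Odd (v.ord f)}.Finite := by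
    refine Set.Finite.subset (RRD.divF k C₀ f S.f_ne).support.finite_toSet ?_
    intro v hv
    rw [mem_coe, Finsupp.mem_support_iff]
    intro h0
    have h1 : Odd (v.ord f) := hv
    have h2 : v.ord f = 0 := h0
    rw [h2] at h1
    exact absurd h1 (by decide)
  have hρ' : ∀ A : Finset (DV K), (∀ v ∈ A, ¬ ((2 : ℕ) : ℤ) ∣ v.ord (S.km k).Θ) →
      ∑ v ∈ A, deg k v ≤ ρ := by
    intro A hA
    refine le_trans ?_ hρ
    have h1 : dgS (Nat.card k) {v : DV K | Odd (v.ord f)} =
        ∑ v ∈ hfin.toFinset, v.deg (Nat.card k) := by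
      rw [dgS, finsum_mem_eq_finite_toFinset_sum _ hfin]
    rw [h1]
    exact sum_le_sum_of_subset fun v hv => by
      rw [Set.Finite.mem_toFinset]
      exact hdvd v (hA v hv)
  have h1 := HasPlO.km (S.km k) Nat.prime_two C₀ C₁ hR hRΘ hρ' h
  have h2 : 2 * C + 2 * ρ + (2 - 1) * (2 * g' + 1) = 2 * C + 2 * ρ + 2 * g' + 1 := by ring
  rwa [h2] at h1

end Pool.Agent.FF
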