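import Pool.Agent.FO.LvP
import Pool.Agent.FO.WtP
import Pool.Agent.FO.Sel
import Pool.Agent.FF.RatCv

/-! # The first base: `k(x)`

The special places are the six rational places `∞, 0, 1, -1, i, -i`. -/

set_option autoImplicit false
set_option linter.unusedVariables false

namespace Pool.Agent.FF

namespace BaseKAux

variable {k : Type} [Field k] [Finite k]

theorem pt_of_pos {v : DV (RatFunc k)} {a : k}
    (h : 0 < v.ord (RatFunc.X - algebraMap k (RatFunc k) a)) :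
    v = Rat.pt a ∧ v.ord (RatFunc.X - algebraMap k (RatFunc k) a) = 1 := by
  have h1 : v = Rat.pt a := Rat.eq_pt (DV.G_of_le h)
  refine ⟨h1, ?_⟩
  rw [h1]
  exact Rat.pt_ord a

theorem X_sub_ne (a : k) : RatFunc.X - algebraMap k (RatFunc k) a ≠ 0 := by
  intro h
  have := Rat.pt_ord a
  rw [h, DV.ord_zero] at this
  omega

theorem ord_other {a b : k} (hab : a ≠ b) :
    (Rat.pt a).ord (RatFunc.X - algebraMap k (RatFunc k) b) = 0 := by
  have hc : algebraMap k (RatFunc k) (a - b) ≠ 0 := by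
    rw [Ne, FaithfulSMul.algebraMap_eq_zero_iff]
    exact sub_ne_zero.2 hab
  have h1 := DV.ord_add_of_lt (v := Rat.pt a) (b := RatFunc.X - algebraMap k (RatFunc k) a) hc (by
    rw [DV.ord_const]
    exact DV.G_of_le (by rw [Rat.pt_ord]; norm_num))
  have h2 : algebraMap k (RatFunc k) (a - b) + (RatFunc.X - algebraMap k (RatFunc k) a)
      = RatFunc.X - algebraMap k (RatFunc k) b := by
    rw [map_sub]; ring
  rw [h2, DV.ord_const] at h1
  exact h1.2

theorem ord_eq_zero {v : DV (RatFunc k)} {c : k} (h1 : v ≠ Rat.inf k) (h2 : v ≠ Rat.pt c) :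
    v.ord (RatFunc.X - algebraMap k (RatFunc k) c) = 0 := by
  have h3 : v.G 0 (RatFunc.X : RatFunc k) := DV.G_of_le (Rat.ne_inf.1 h1)
  have h4 : 0 ≤ v.ord (RatFunc.X - algebraMap k (RatFunc k) c) :=
    (h3.sub (DV.G_const v c)).le (X_sub_ne c)
  by_contra h5
  exact h2 (pt_of_pos (lt_of_le_of_ne h4 (Ne.symm h5))).1

end BaseKAux

open BaseKAux in
/-- the special places of the first base -/
theorem baseK_sp {k : Type} [Field k] [Finite k] (hi : ∃ i : k, i ^ 2 = -1) :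
    ∃ A : Finset (DV (RatFunc k)), (∀ v, v ∉ A → UO v (RatFunc.X : RatFunc k)) ∧
      (∀ v ∈ A, v.Rat k ∧ v.deg (Nat.card k) = 1) ∧ ∑ v ∈ A, v.deg (Nat.card k) ≤ 6 := by
  classical
  obtain ⟨i, hi⟩ := hi
  have hX2 : (RatFunc.X : RatFunc k) ^ 2 + 1 =
      (RatFunc.X - algebraMap k (RatFunc k) i) * (RatFunc.X - algebraMap k (RatFunc k) (-i)) := by
    have h1 : (algebraMap k (RatFunc k) i) ^ 2 = -1 := by
      rw [← map_pow, hi, map_neg, map_one]
    rw [map_neg]
    linear_combination h1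
  have hA : ∀ v ∈ ({Rat.inf k, Rat.pt 0, Rat.pt 1, Rat.pt (-1), Rat.pt i, Rat.pt (-i)} :
      Finset (DV (RatFunc k))), v.Rat k ∧ v.deg (Nat.card k) = 1 := by
    intro v hv
    simp only [Finset.mem_insert, Finset.mem_singleton] at hv
    rcases hv with h | h | h | h | h | h <;> rw [h]
    · exact ⟨Rat.inf_rat, Rat.deg_inf⟩
    all_goals exact ⟨Rat.pt_rat _, Rat.deg_pt _⟩
  refine ⟨{Rat.inf k, Rat.pt 0, Rat.pt 1, Rat.pt (-1), Rat.pt i, Rat.pt (-i)}, ?_, hA, ?_⟩
  · intro v hv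
    simp only [Finset.mem_insert, Finset.mem_singleton, not_or] at hv
    obtain ⟨h0, h1, h2, h3, h4, h5⟩ := hv
    have e0 := ord_eq_zero h0 h1
    have e1 := ord_eq_zero h0 h2
    have e2 := ord_eq_zero h0 h3
    have e3 := ord_eq_zero h0 h4
    have e4 := ord_eq_zero h0 h5
    have n0 := X_sub_ne (0 : k)
    have n1 := X_sub_ne (1 : k)
    have n2 := X_sub_ne (-1 : k)
    rw [map_zero, sub_zero] at e0 n0
    rw [map_one] at e1 n1
    rw [map_neg, map_one, sub_neg_eq_add] at e2 n2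
    refine ⟨e0, e1, e2, ?_, n0, n1, n2, ?_⟩
    · rw [hX2, v.ord_mul _ _ (X_sub_ne i) (X_sub_ne (-i)), e3, e4, add_zero]
    · rw [hX2]
      exact mul_ne_zero (X_sub_ne i) (X_sub_ne (-i))
  · calc ∑ v ∈ ({Rat.inf k, Rat.pt 0, Rat.pt 1, Rat.pt (-1), Rat.pt i, Rat.pt (-i)} :
          Finset (DV (RatFunc k))), v.deg (Nat.card k)
        = ∑ v ∈ ({Rat.inf k, Rat.pt 0, Rat.pt 1, Rat.pt (-1), Rat.pt i, Rat.pt (-i)} :
          Finset (DV (RatFunc k))), 1 := Finset.sum_congr rfl fun v hv => (hA v hv).2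
      _ ≤ 6 := by
        rw [Finset.sum_const, smul_eq_mul, mul_one]
        exact Finset.card_le_six

/-- the rational places above the set `S` of values -/
theorem baseK_pts {k : Type} [Field k] [Finite k] (S : Finset k) :
    ∃ T : Finset (DV (RatFunc k)), S.card ≤ T.card ∧ ∀ v ∈ T, v.Rat k ∧
      ∃ α ∈ S, v.G 1 ((RatFunc.X : RatFunc k) - algebraMap k (RatFunc k) α) := by
  classical
  refine ⟨S.image Rat.pt, ?_, ?_⟩
  · rw [Finset.card_image_of_injective _ Rat.pt_injective]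
  · intro v hv
    obtain ⟨a, ha, rfl⟩ := Finset.mem_image.1 hv
    exact ⟨Rat.pt_rat a, a, ha, DV.G_of_le (Rat.pt_ord a).ge⟩

theorem baseK {p : ℕ} [Fact p.Prime] (hp : p ≠ 2) {k : Type} [Field k] [Finite k] [CharP k p]
    (hi : ∃ i : k, i ^ 2 = -1) {S : Finset k} (hS : SSet S) :
    ∃ (K : Type) (_ : Field K) (_ : Algebra k K) (x : K) (B C M : ℕ),
      LvP p k K S x 0 6 S.card B C M := by
  have h2 : (2 : k) ≠ 0 := by
    intro h
    have h1 : p ∣ 2 := (CharP.cast_eq_zero_iff k p 2).1 (by exact_mod_cast h)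
    exact hp ((Nat.prime_dvd_prime_iff_eq (Fact.out : p.Prime) Nat.prime_two).1 h1)
  obtain ⟨A, hA, -, hA6⟩ := baseK_sp hi
  refine ⟨RatFunc k, inferInstance, inferInstance, RatFunc.X, 0, 0, 1, ?_⟩
  exact
    { ff := Rat.isFF k
      cv := Rat.cv
      se := Se.base k h2
      sp := ⟨A, hA, hA6⟩
      pole := ⟨Rat.inf k, Rat.inf_rat, by rw [Rat.inf_X]; norm_num, by
        rw [Rat.inf_X]; exact ⟨-1, by norm_num⟩⟩
      pts := baseK_pts S
      pl := HasPlO.base k }

end Pool.Agent.FF
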