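import Pool.Agent.FO.WtP
import Pool.Agent.FO.Sel
import Pool.Agent.FO.StepU
import Pool.Agent.FF.RatCv
import Pool.Agent.FF.RatWt

/-! # The second base, first step: `w ^ 2 = 1 - z ^ 3`, `l = (1 + w) / 2` -/

set_option autoImplicit false

namespace Pool.Agent.FF

namespace BaseM

section gen

variable {K : Type*} [Field K]

theorem ord_zero_of {v : DV K} {a : K} (ha : v.G 0 a) (h : ¬ v.G 1 a) : v.ord a = 0 := by
  have h0 := DV.ne_zero_of_not_G h
  have h1 := ha.le h0
  have h2 := (DV.not_G h0).1 h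
  omega

theorem dg_eq {q : ℕ} {P : DV K → Prop} {F : Finset (DV K)} (h : ∀ v, P v ↔ v ∈ F) :
    dgS q {v | P v} = ∑ v ∈ F, v.deg q := by
  have : {v | P v} = (F : Set (DV K)) := by
    ext v
    simp [h v]
  rw [dgS, this, finsum_mem_coe_finset]

theorem not_sq {f : K} (hf : ∃ v : DV K, Odd (v.ord f)) (a : K) : a ^ 2 ≠ f := by
  rintro rfl
  obtain ⟨v, hv⟩ := hf
  by_cases ha : a = 0
  · rw [ha, zero_pow two_ne_zero, v.ord_zero] at hv
    exact absurd hv (by decide)
  · rw [v.ord_pow ha] at hv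
    push_cast at hv
    rw [Int.odd_iff] at hv
    omega

theorem const_inj {k : Type*} [Field k] [Finite k] [Algebra k K] {v : DV K} {a : K} {c c' : k}
    (h : v.G 1 (a - algebraMap k K c)) (h' : v.G 1 (a - algebraMap k K c')) : c = c' := by
  by_contra hne
  have h1 := h'.sub h
  have h2 : a - algebraMap k K c' - (a - algebraMap k K c) = algebraMap k K (c - c') := by
    rw [map_sub]
    ring
  rw [h2] at h1
  exact v.not_G_const (sub_ne_zero.2 hne) h1

theorem resCard_ne {k : Type*} [Field k] [Finite k] [Algebra k K] {g : ℕ} (C : Cv k K g)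
    (v : DV K) : v.resCard ≠ 0 := by
  rw [← DV.card_Res, (C.res v).2]
  exact pow_ne_zero _ Nat.card_pos.ne'

end gen

section rat

variable {k : Type} [Field k] [Finite k]

theorem X_sub_ne (a : k) : (RatFunc.X - algebraMap k (RatFunc k) a : RatFunc k) ≠ 0 := by
  rw [← Rat.coe_X_sub]
  exact Rat.coe_ne (Polynomial.X_sub_C_ne_zero a)

theorem inf_ord_sub (a : k) : (Rat.inf k).ord (RatFunc.X - algebraMap k (RatFunc k) a) = -1 := by
  rw [← Rat.coe_X_sub, Rat.inf_poly, Polynomial.natDegree_X_sub_C]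
  rfl

open Classical in
theorem rat_ord {v : DV (RatFunc k)} (hv : v ≠ Rat.inf k) (a : k) :
    v.ord (RatFunc.X - algebraMap k (RatFunc k) a) = if v = Rat.pt a then 1 else 0 := by
  split_ifs with h
  · rw [h, Rat.pt_ord]
  · apply ord_zero_of
    · have h1 : v.G 0 (RatFunc.X : RatFunc k) := DV.G_of_le (Rat.ne_inf.1 hv)
      exact h1.sub (v.G_const a)
    · intro h1
      exact h (Rat.eq_pt h1)

variable {ω : k}

omit [Finite k] in
theorem f0_eq (hω : ω ^ 2 + ω + 1 = 0) : (1 - RatFunc.X ^ 3 : RatFunc k) =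
    -((RatFunc.X - algebraMap k (RatFunc k) 1) * (RatFunc.X - algebraMap k (RatFunc k) ω) *
      (RatFunc.X - algebraMap k (RatFunc k) (ω ^ 2))) := by
  have h := congrArg (algebraMap k (RatFunc k)) hω
  rw [map_add, map_add, map_pow, map_one, map_zero] at h
  rw [map_one, map_pow]
  linear_combination (-(RatFunc.X - 1) * (RatFunc.X - algebraMap k (RatFunc k) ω + 1)) * h

theorem f0_ne (hω : ω ^ 2 + ω + 1 = 0) : (1 - RatFunc.X ^ 3 : RatFunc k) ≠ 0 := by
  rw [f0_eq hω]
  exact neg_ne_zero.2 (mul_ne_zero (mul_ne_zero (X_sub_ne _) (X_sub_ne _)) (X_sub_ne _))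

theorem f0_ord (hω : ω ^ 2 + ω + 1 = 0) (v : DV (RatFunc k)) : v.ord (1 - RatFunc.X ^ 3) =
    v.ord (RatFunc.X - algebraMap k (RatFunc k) 1) +
      v.ord (RatFunc.X - algebraMap k (RatFunc k) ω) +
      v.ord (RatFunc.X - algebraMap k (RatFunc k) (ω ^ 2)) := by
  rw [f0_eq hω, v.ord_neg, v.ord_mul _ _ (mul_ne_zero (X_sub_ne _) (X_sub_ne _)) (X_sub_ne _),
    v.ord_mul _ _ (X_sub_ne _) (X_sub_ne _)]

theorem f0_inf (hω : ω ^ 2 + ω + 1 = 0) : (Rat.inf k).ord (1 - RatFunc.X ^ 3) = -3 := by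
  rw [f0_ord hω, inf_ord_sub, inf_ord_sub, inf_ord_sub]
  norm_num

omit [Finite k] in
theorem omega_ne (h3 : (3 : k) ≠ 0) (hω : ω ^ 2 + ω + 1 = 0) : (1 : k) ≠ ω ∧ (1 : k) ≠ ω ^ 2 ∧
    ω ≠ ω ^ 2 := by
  refine ⟨?_, ?_, ?_⟩
  · rintro rfl
    apply h3
    linear_combination hω
  · intro h
    have h1 : ω = -2 := by linear_combination hω + h
    rw [h1] at h
    apply h3
    linear_combination -h
  · intro h
    have h1 : ω ≠ 0 := by
      rintro rfl
      norm_num at hω
    have h2 : ω = 1 := by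
      have : ω * ω = ω * 1 := by linear_combination -h
      exact mul_left_cancel₀ h1 this
    rw [h2] at hω
    apply h3
    linear_combination hω

open Classical in
theorem f0_odd (h3 : (3 : k) ≠ 0) (hω : ω ^ 2 + ω + 1 = 0) (v : DV (RatFunc k)) :
    Odd (v.ord (1 - RatFunc.X ^ 3)) ↔
      v ∈ ({Rat.inf k, Rat.pt 1, Rat.pt ω, Rat.pt (ω ^ 2)} : Finset (DV (RatFunc k))) := by
  obtain ⟨n1, n2, n3⟩ := omega_ne h3 hω
  simp only [Finset.mem_insert, Finset.mem_singleton]
  by_cases hv : v = Rat.inf k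
  · rw [hv, f0_inf hω]
    exact ⟨fun _ => Or.inl rfl, fun _ => by decide⟩
  · rw [f0_ord hω, rat_ord hv, rat_ord hv, rat_ord hv]
    by_cases h1 : v = Rat.pt 1
    · have e2 : v ≠ Rat.pt ω := fun h => n1 (Rat.pt_injective (h1.symm.trans h))
      have e3 : v ≠ Rat.pt (ω ^ 2) := fun h => n2 (Rat.pt_injective (h1.symm.trans h))
      simp only [if_pos h1, if_neg e2, if_neg e3]
      exact ⟨fun _ => Or.inr (Or.inl h1), fun _ => by decide⟩
    · by_cases h2 : v = Rat.pt ω
      · have e3 : v ≠ Rat.pt (ω ^ 2) := fun h => n3 (Rat.pt_injective (h2.symm.trans h))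
        simp only [if_neg h1, if_pos h2, if_neg e3]
        exact ⟨fun _ => Or.inr (Or.inr (Or.inl h2)), fun _ => by decide⟩
      · by_cases h3 : v = Rat.pt (ω ^ 2)
        · simp only [if_neg h1, if_neg h2, if_pos h3]
          exact ⟨fun _ => Or.inr (Or.inr (Or.inr h3)), fun _ => by decide⟩
        · simp only [if_neg h1, if_neg h2, if_neg h3]
          exact ⟨fun h => absurd h (by decide), fun h => by
            rcases h with h | h | h | h
            · exact absurd h hv
            · exact absurd h h1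
            · exact absurd h h2
            · exact absurd h h3⟩

theorem f0_dg (h3 : (3 : k) ≠ 0) (hω : ω ^ 2 + ω + 1 = 0) :
    dgS (Nat.card k) {v : DV (RatFunc k) | Odd (v.ord (1 - RatFunc.X ^ 3))} = 4 := by
  classical
  obtain ⟨n1, n2, n3⟩ := omega_ne h3 hω
  rw [dg_eq (f0_odd h3 hω)]
  have h1 : ∀ v ∈ ({Rat.inf k, Rat.pt 1, Rat.pt ω, Rat.pt (ω ^ 2)} : Finset (DV (RatFunc k))),
      v.deg (Nat.card k) = 1 := by
    intro v hv
    simp only [Finset.mem_insert, Finset.mem_singleton] at hv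
    rcases hv with rfl | rfl | rfl | rfl
    · exact Rat.deg_inf
    · exact Rat.deg_pt _
    · exact Rat.deg_pt _
    · exact Rat.deg_pt _
  rw [Finset.sum_congr rfl h1, Finset.sum_const, smul_eq_mul, mul_one]
  rw [Finset.card_insert_of_notMem, Finset.card_insert_of_notMem, Finset.card_insert_of_notMem,
    Finset.card_singleton]
  · simp only [Finset.mem_singleton]
    exact fun h => n3 (Rat.pt_injective h)
  · simp only [Finset.mem_insert, Finset.mem_singleton, not_or]
    exact ⟨fun h => n1 (Rat.pt_injective h), fun h => n2 (Rat.pt_injective h)⟩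
  · simp only [Finset.mem_insert, Finset.mem_singleton, not_or]
    exact ⟨(Rat.pt_ne_inf _).symm, (Rat.pt_ne_inf _).symm, (Rat.pt_ne_inf _).symm⟩

end rat

/-- The first level: `l` has the simple orders `3`, `-3` at `P0`, `P2`, and `1 - l` has zeros only at
`P1`; all pairs `(t, z)` with `z ^ 3 = 4 t (1 - t)` are values of `(l, Z)` at rational places. -/
structure Lev1 (p : ℕ) (k K : Type) [Field k] [Field K] [Algebra k K] (l Z : K)
    (P0 P1 P2 : DV K) (B C M : ℕ) : Prop where
  ff : IsFF k K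
  cv : Cv k K 1
  se : Se K 3
  pl : HasPlO p k K B C M
  chp : CharP K p
  n01 : P0 ≠ P1
  n02 : P0 ≠ P2
  n12 : P1 ≠ P2
  r0 : P0.Rat k
  r1 : P1.Rat k
  r2 : P2.Rat k
  o0 : P0.ord l = 3
  o2 : P2.ord l = -3
  ol : ∀ v, v ≠ P0 → v ≠ P2 → v.ord l = 0
  l0 : l ≠ 0
  l1 : 1 - l ≠ 0
  om : ∀ v, v ≠ P0 → v ≠ P1 → v ≠ P2 → v.ord (1 - l) = 0
  pts : ∀ t z : k, z ^ 3 = 4 * t * (1 - t) → ∃ v : DV K, v.Rat k ∧
    v.G 1 (l - algebraMap k K t) ∧ v.G 1 (Z - algebraMap k K z)

theorem level1 {p : ℕ} [Fact p.Prime] (hp : 3 < p) {k : Type} [Field k] [Finite k] [CharP k p]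
    {ω : k} (hω : ω ^ 2 + ω + 1 = 0) : ∃ (K : Type) (_ : Field K) (_ : Algebra k K) (l Z : K)
      (P0 P1 P2 : DV K) (B C M : ℕ), Lev1 p k K l Z P0 P1 P2 B C M := by
  have hpp : p.Prime := Fact.out
  have hnat : ∀ n : ℕ, 0 < n → n < p → ((n : ℕ) : k) ≠ 0 := fun n h1 h2 h => by
    have := (CharP.cast_eq_zero_iff k p n).1 h
    exact absurd (Nat.le_of_dvd h1 this) (by omega)
  have k2 : (2 : k) ≠ 0 := by exact_mod_cast hnat 2 (by omega) (by omega)
  have k3 : (3 : k) ≠ 0 := by exact_mod_cast hnat 3 (by omega) (by omega)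
  have h2 : (2 : RatFunc k) ≠ 0 := by
    have : (2 : RatFunc k) = algebraMap k (RatFunc k) 2 := (map_ofNat _ 2).symm
    rw [this]
    exact map_ne_zero' k2
  have hch : CharP (RatFunc k) p :=
    charP_of_injective_algebraMap (algebraMap k (RatFunc k)).injective p
  have hinf : Odd ((Rat.inf k).ord (1 - RatFunc.X ^ 3)) := by
    rw [f0_inf hω]
    decide
  obtain ⟨K, _, _, _, _, ⟨S⟩⟩ := exists_qd (k := k) h2 (not_sq ⟨_, hinf⟩)
  have hf0 := f0_ne (k := k) hω
  -- the genus
  obtain ⟨g', C', hg'⟩ := S.cv (Rat.cv (K := k)) ⟨_, hinf⟩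
  rw [f0_dg k3 hω] at hg'
  have : g' = 1 := by omega
  subst this
  have hff : IsFF k K := S.isFF (Rat.isFF k) C'
  have hse : Se K 3 := Se.up_deg S Rat.cv C' Rat.inf_rat hinf (Se.base k k2) (by
    rw [f0_dg k3 hω])
  have hpl := HasPlO.up (p := p) (by omega) S Rat.cv C' Rat.inf_rat hinf
    (f0_dg k3 hω).le (HasPlO.base k)
  have hchK : CharP K p := charP_of_injective_algebraMap (algebraMap k K).injective p
  have hK2 : (2 : K) ≠ 0 := by
    have : (2 : K) = algebraMap k K 2 := (map_ofNat _ 2).symm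
    rw [this]
    exact map_ne_zero' k2
  have ho2 : ∀ v : DV K, v.ord 2 = 0 := fun v => DV.ord_two (k := k) v
  -- the place at infinity
  obtain ⟨P2, hP2, hP2u, hP2o, hP2y, hP2r⟩ := S.odd_over (k := k) hinf
  rw [f0_inf hω] at hP2y
  -- the places over `z = 0`
  have hX0 : (Rat.pt (0 : k)).ord RatFunc.X = 1 := by
    have := Rat.pt_ord (0 : k)
    rwa [map_zero, sub_zero] at this
  have hsp : (Rat.pt (0 : k)).G 1 (1 - RatFunc.X ^ 3 - 1 ^ 2) := by
    have e : (1 - RatFunc.X ^ 3 - 1 ^ 2 : RatFunc k) = -(RatFunc.X ^ 3) := by ring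
    rw [e]
    refine DV.G_of_le ?_
    rw [DV.ord_neg, DV.ord_pow _ RatFunc.X_ne_zero, hX0]
    norm_num
  obtain ⟨P1, P0, hne, hP1, hP0, hall, hy1, hy0, hr1, hr0⟩ :=
    S.split (k := k) (v := Rat.pt (0 : k)) (c := 1) (DV.ord_one _) one_ne_zero hsp
  rw [map_one] at hy1 hy0
  set y : K := S.y with hy
  have hX3 : (1 + y) * (1 - y) = (algebraMap (RatFunc k) K RatFunc.X) ^ 3 := by
    have := S.sq
    rw [← hy, map_sub, map_one, map_pow] at this
    linear_combination -this
  have hXne : (algebraMap (RatFunc k) K RatFunc.X) ≠ 0 := map_ne_zero' RatFunc.X_ne_zero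
  have hy1ne : 1 + y ≠ 0 := fun h => by
    rw [h, zero_mul] at hX3
    exact pow_ne_zero 3 hXne hX3.symm
  have hy2ne : 1 - y ≠ 0 := fun h => by
    rw [h, mul_zero] at hX3
    exact pow_ne_zero 3 hXne hX3.symm
  have hsum : ∀ v : DV K, v.ord (1 + y) + v.ord (1 - y) =
      3 * v.ord (algebraMap (RatFunc k) K RatFunc.X) := fun v => by
    rw [← v.ord_mul _ _ hy1ne hy2ne, hX3, v.ord_pow hXne]
    rfl
  have hyint : ∀ v : DV K, ∀ v0 : DV (RatFunc k), Over v v0 → v0 ≠ Rat.inf k → v.G 0 y := by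
    intro v v0 hv hv0
    have h1 : v0.G 0 (1 - RatFunc.X ^ 3) := by
      have hX : v0.G 0 (RatFunc.X : RatFunc k) := DV.G_of_le (Rat.ne_inf.1 hv0)
      exact DV.G_one.sub ((hX.pow 3).mono (by norm_num))
    have h2 := (hv.G_zero_iff _).2 h1
    rw [← S.sq, ← hy] at h2
    by_cases hy0 : y = 0
    · rw [hy0]; exact DV.G_zero _
    have h3 := h2.le (pow_ne_zero 2 hy0)
    rw [v.ord_pow hy0] at h3
    refine DV.G_of_le ?_
    push_cast at h3
    omega
  have hf0e : Even ((Rat.pt (0 : k)).ord (1 - RatFunc.X ^ 3)) := by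
    rw [← Int.not_odd_iff_even]
    intro h
    rw [f0_odd k3 hω] at h
    simp only [Finset.mem_insert, Finset.mem_singleton] at h
    rcases h with h | h | h | h
    · exact Rat.pt_ne_inf _ h
    · exact zero_ne_one (Rat.pt_injective h)
    · have := Rat.pt_injective h
      rw [← this] at hω
      norm_num at hω
    · have := Rat.pt_injective h
      have h0 : ω = 0 := by
        rcases pow_eq_zero_iff two_ne_zero |>.1 this.symm with h
        exact h
      rw [h0] at hω
      norm_num at hω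
  -- orders of `1 + y`, `1 - y`
  have ordP0 : P0.ord (1 - y) = 0 ∧ P0.ord (1 + y) = 3 := by
    have h1 : P0.ord (1 - y) = 0 := by
      apply ord_zero_of
      · exact DV.G_one.sub (hyint P0 _ hP0 (Rat.pt_ne_inf _))
      · intro h
        have h3 := h.add hy0
        have h4 : 1 - y + (y + 1) = 2 := by ring
        rw [h4] at h3
        have := h3.le hK2
        rw [ho2] at this
        omega
    have h5 := hsum P0
    rw [S.even_ord (k := k) hf0e hP0, hX0, h1] at h5
    exact ⟨h1, by omega⟩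
  have ordP1 : P1.ord (1 + y) = 0 ∧ P1.ord (1 - y) = 3 := by
    have h1 : P1.ord (1 + y) = 0 := by
      apply ord_zero_of
      · exact DV.G_one.add (hyint P1 _ hP1 (Rat.pt_ne_inf _))
      · intro h
        have h3 := h.sub hy1
        have h4 : 1 + y - (y - 1) = 2 := by ring
        rw [h4] at h3
        have := h3.le hK2
        rw [ho2] at this
        omega
    have h5 := hsum P1
    rw [S.even_ord (k := k) hf0e hP1, hX0, h1] at h5
    exact ⟨h1, by omega⟩
  have hy_ne : y ≠ 0 := by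
    intro h
    rw [h, DV.ord_zero] at hP2y
    omega
  have ordP2 : P2.ord (1 + y) = -3 := by
    have := DV.ord_add_of_lt (v := P2) hy_ne (b := 1) (DV.G_of_le (by rw [hP2y, DV.ord_one]; norm_num))
    rw [add_comm, this.2, hP2y]
  have other : ∀ v : DV K, v ≠ P0 → v ≠ P1 → v ≠ P2 → v.ord (1 + y) = 0 ∧ v.ord (1 - y) = 0 := by
    intro v n0 n1 n2
    obtain ⟨v0, hv0⟩ := S.exists_over v
    have h1 : v0 ≠ Rat.inf k := by
      rintro rfl
      exact n2 (hP2u v hv0)
    have h2 : v0 ≠ Rat.pt 0 := by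
      rintro rfl
      rcases hall v hv0 with h | h
      · exact n1 h
      · exact n0 h
    have h3 : v.ord (algebraMap (RatFunc k) K RatFunc.X) = 0 := by
      have h4 := rat_ord h1 (0 : k)
      rw [map_zero, sub_zero, if_neg h2] at h4
      obtain ⟨e, he, h5⟩ := hv0
      rw [h5 _ RatFunc.X_ne_zero, h4, mul_zero]
    have h4 := hsum v
    rw [h3, mul_zero] at h4
    have h5 := (DV.G_one.add (hyint v _ hv0 h1)).le hy1ne
    have h6 := (DV.G_one.sub (hyint v _ hv0 h1)).le hy2ne
    omega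
  have hl : ∀ v : DV K, v.ord ((1 + y) / 2) = v.ord (1 + y) := fun v => by
    rw [v.ord_div hy1ne hK2, ho2, sub_zero]
  have hl1 : (1 : K) - (1 + y) / 2 = (1 - y) / 2 := by
    field_simp
    ring
  have hm : ∀ v : DV K, v.ord ((1 - y) / 2) = v.ord (1 - y) := fun v => by
    rw [v.ord_div hy2ne hK2, ho2, sub_zero]
  have n02 : P0 ≠ P2 := fun h => by
    have := ordP0.2
    rw [h, ordP2] at this
    omega
  have n12 : P1 ≠ P2 := fun h => by
    have := ordP1.1
    rw [h, ordP2] at this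
    omega
  refine ⟨K, inferInstance, inferInstance, (1 + y) / 2, algebraMap (RatFunc k) K RatFunc.X, P0, P1,
    P2, _, _, _, ⟨hff, C', hse, hpl, hchK, hne.symm, n02, n12, ?_, ?_, ?_, ?_, ?_, ?_, ?_, ?_, ?_,
    ?_⟩⟩
  · exact Qd.rat_of_resCard (Rat.pt_rat 0) hr0
  · exact Qd.rat_of_resCard (Rat.pt_rat 0) hr1
  · exact Qd.rat_of_resCard Rat.inf_rat hP2r
  · rw [hl, ordP0.2]
  · rw [hl, ordP2]
  · intro v h0 h2
    rw [hl]
    by_cases h1 : v = P1
    · rw [h1, ordP1.1]
    · exact (other v h0 h1 h2).1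
  · exact div_ne_zero hy1ne hK2
  · rw [hl1]
    exact div_ne_zero hy2ne hK2
  · intro v h0 h1 h2
    rw [hl1, hm]
    exact (other v h0 h1 h2).2
  · intro t z hz
    set c : k := 2 * t - 1 with hc
    have e1 : (1 - RatFunc.X ^ 3 - (algebraMap k (RatFunc k) c) ^ 2 : RatFunc k) =
        -((RatFunc.X - algebraMap k (RatFunc k) z) * (RatFunc.X ^ 2 + RatFunc.X *
          algebraMap k (RatFunc k) z + (algebraMap k (RatFunc k) z) ^ 2)) := by
      have h1 := congrArg (algebraMap k (RatFunc k)) hz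
      have h2 : algebraMap k (RatFunc k) c = 2 * algebraMap k (RatFunc k) t - 1 := by
        rw [hc, map_sub, map_mul, map_one, map_ofNat]
      simp only [map_mul, map_pow, map_sub, map_one, map_ofNat] at h1
      rw [h2]
      linear_combination -h1
    have hXz : (Rat.pt z).G 0 (RatFunc.X : RatFunc k) :=
      DV.G_of_le (Rat.ne_inf.1 (Rat.pt_ne_inf z))
    have h1 : (Rat.pt z).G 1 (1 - RatFunc.X ^ 3 - (algebraMap k (RatFunc k) c) ^ 2) := by
      rw [e1]
      have h2 : (Rat.pt z).G 1 (RatFunc.X - algebraMap k (RatFunc k) z) :=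
        DV.G_of_le (Rat.pt_ord z).ge
      have h3 : (Rat.pt z).G 0 (RatFunc.X ^ 2 + RatFunc.X * algebraMap k (RatFunc k) z +
          (algebraMap k (RatFunc k) z) ^ 2) := by
        have h4 := DV.G_const (F := RatFunc k) (Rat.pt z) z
        exact (((hXz.pow 2).mono (by norm_num)).add ((hXz.mul h4).mono (by norm_num))).add
          ((h4.pow 2).mono (by norm_num))
      exact ((h2.mul h3).mono (by norm_num)).neg
    -- a place with `y = c`
    have key : ∃ v : DV K, Over v (Rat.pt z) ∧ v.resCard = (Rat.pt z).resCard ∧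
        v.G 1 (y - algebraMap k K c) := by
      by_cases hc0 : c = 0
      · have hodd : Odd ((Rat.pt z).ord (1 - RatFunc.X ^ 3)) := by
          rw [hc0, map_zero] at h1
          rw [f0_odd k3 hω]
          have hz3 : z ^ 3 = 1 := by
            rw [hz]
            have h5 : 2 * t = 1 := by
              rw [hc] at hc0
              linear_combination hc0
            linear_combination (1 - 2 * t) * h5
          have h6 : (z - 1) * ((z - ω) * (z - ω ^ 2)) = 0 := by
            linear_combination hz3 + ((z - 1) * (-z + ω - 1)) * hω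
          simp only [Finset.mem_insert, Finset.mem_singleton]
          rcases mul_eq_zero.1 h6 with h | h
          · exact Or.inr (Or.inl (by rw [sub_eq_zero.1 h]))
          · rcases mul_eq_zero.1 h with h | h
            · exact Or.inr (Or.inr (Or.inl (by rw [sub_eq_zero.1 h])))
            · exact Or.inr (Or.inr (Or.inr (by rw [sub_eq_zero.1 h])))
        obtain ⟨w, hw, -, -, hwy, hwr⟩ := S.odd_over (k := k) hodd
        refine ⟨w, hw, hwr, ?_⟩
        rw [hc0, map_zero, sub_zero]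
        refine DV.G_of_le ?_
        rw [hy, hwy]
        have h7 : (Rat.pt z).G 1 (1 - RatFunc.X ^ 3) := by
          have := h1
          rwa [hc0, map_zero, zero_pow two_ne_zero, sub_zero] at this
        exact h7.le hf0
      · have hcne : algebraMap k (RatFunc k) c ≠ 0 := map_ne_zero' hc0
        obtain ⟨w, -, -, hw, -, -, hwy, -, hwr, -⟩ :=
          S.split (k := k) (v := Rat.pt z) (DV.ord_const (F := RatFunc k) _ c) hcne h1
        refine ⟨w, hw, hwr, ?_⟩
        rw [IsScalarTower.algebraMap_apply k (RatFunc k) K]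
        exact hwy
    obtain ⟨v, hv, hvr, hvy⟩ := key
    refine ⟨v, Qd.rat_of_resCard (Rat.pt_rat z) hvr, ?_, ?_⟩
    · have e2 : (1 + y) / 2 - algebraMap k K t = (y - algebraMap k K c) * algebraMap k K (1 / 2) := by
        have h5 : algebraMap k K c = 2 * algebraMap k K t - 1 := by
          rw [hc, map_sub, map_mul, map_one, map_ofNat]
        have h6 : algebraMap k K (1 / 2) = 1 / 2 := by
          rw [map_div₀, map_one, map_ofNat]
        rw [h5, h6]
        field_simp
        ring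
      rw [e2]
      exact (hvy.mul (v.G_const (1 / 2 : k))).mono (by norm_num)
    · have h5 : algebraMap (RatFunc k) K RatFunc.X - algebraMap k K z =
          algebraMap (RatFunc k) K (RatFunc.X - algebraMap k (RatFunc k) z) := by
        rw [map_sub, ← IsScalarTower.algebraMap_apply k (RatFunc k) K]
      rw [h5, hv.G_one_iff]
      exact DV.G_of_le (Rat.pt_ord z).ge

end BaseM

end Pool.Agent.FF
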