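import Pool.Agent.FO.LamC
import Pool.Agent.FO.BaseM1

/-! # The base of a tower from a curve with a function `l` -/

set_option autoImplicit false

namespace Pool.Agent.FF

namespace BaseL

theorem Over.trans' {K K' K'' : Type*} [Field K] [Field K'] [Field K''] [Algebra K K']
    [Algebra K' K''] {v : DV K} {w : DV K'} {z : DV K''} (h : Over w v) (h' : Over z w) :
    ∃ e : ℤ, 0 < e ∧ ∀ a : K, a ≠ 0 →
      z.ord (algebraMap K' K'' (algebraMap K K' a)) = e * v.ord a := by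
  obtain ⟨e, he, h1⟩ := h
  obtain ⟨e', he', h2⟩ := h'
  refine ⟨e' * e, mul_pos he' he, fun a ha => ?_⟩
  rw [h2 _ (map_ne_zero' ha), h1 a ha]
  ring

theorem ord_y' {k K K' : Type} [Field k] [Finite k] [Field K] [Field K'] [Algebra k K]
    [Algebra k K'] [Algebra K K'] [IsScalarTower k K K'] {f : K} (S : Qd K K' f) {v : DV K}
    (hv : Even (v.ord f)) {w : DV K'} (hw : Over w v) : 2 * w.ord S.y = v.ord f := by
  rw [S.two_ord_y, S.even_ord (k := k) hv hw]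

end BaseL

theorem base_of_lam {p : ℕ} [Fact p.Prime] (hp : p ≠ 2) {k : Type} [Field k] [Finite k]
    [CharP k p] {S : Finset k} (hS : SSet S) {N g r a : ℕ}
    (h : ∃ (K : Type) (_ : Field K) (_ : Algebra k K) (l : K) (B C M : ℕ),
      LamC p k K S l N g r a B C M) :
    ∃ (K : Type) (_ : Field K) (_ : Algebra k K) (x : K) (g' W B C M : ℕ),
      2 * g' + W + 6 ≤ 8 * g + 4 * r + 4 * a ∧ LvP p k K S x g' W (N * S.card) B C M := by
  classical
  obtain ⟨K, _, _, l, B, C, M, H⟩ := h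
  obtain ⟨O, A, hOc, hO, ⟨R, hRO, hRneg⟩, hAa, hO0, hA0⟩ := H.sp
  have hl1 : l - 1 ≠ 0 := sub_ne_zero.2 H.ne1
  have hOdeg : ∑ v ∈ O, v.deg (Nat.card k) ≤ r := by
    rw [Finset.sum_congr rfl fun v hv => (hO v hv).1.deg_eq_one, Finset.sum_const, smul_eq_mul,
      mul_one]
    exact hOc
  -- the first step
  obtain ⟨K2, _, _, _, _, Q1, g2, B2, C2, M2, hg2, L2⟩ := Lv0.up hp H.lv (f := l) (hO R hRO).1
    (hO R hRO).2 (O := O) (fun v hv => by
      by_contra hc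
      rw [hO0 v hc] at hv
      exact absurd hv (by decide)) hOdeg
  obtain ⟨O2, hO2, hO2d⟩ := Q1.fibres_odd H.lv.cv O fun v hv => (hO v hv).2
  obtain ⟨A2, hA2, hA2d⟩ := Q1.fibres H.lv.cv A
  have ordO2 : ∀ (v : DV K) (w : DV K2), v ∈ O → Over w v →
      w.ord Q1.y = v.ord l ∧ w.Rat k := by
    intro v w hv hw
    obtain ⟨w', -, huniq, -, hy, hres⟩ := Q1.odd_over (k := k) (hO v hv).2
    rw [huniq w hw]
    exact ⟨hy, Qd.rat_of_resCard (K := K) (hO v hv).1 hres⟩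
  have ordn2 : ∀ w : DV K2, w ∉ O2 → w.ord Q1.y = 0 := by
    intro w hw
    obtain ⟨v, hv⟩ := Q1.exists_over w
    have hvO : v ∉ O := fun h => hw ((hO2 w).2 ⟨v, h, hv⟩)
    have h1 := BaseL.ord_y' (k := k) Q1 (v := v) (by rw [hO0 v hvO]; decide) hv
    rw [hO0 v hvO] at h1
    omega
  obtain ⟨R2, hR2, -⟩ := Q1.odd_over (k := k) (hO R hRO).2
  obtain ⟨hR2y, hR2r⟩ := ordO2 R R2 hRO hR2
  have hoddu : ∀ w : DV K2, w ∈ O2 → Odd (w.ord Q1.y) := by
    intro w hw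
    obtain ⟨v, hv, hwv⟩ := (hO2 w).1 hw
    rw [(ordO2 v w hv hwv).1]
    exact (hO v hv).2
  -- the second step
  obtain ⟨K3, _, _, _, _, Q2, g3, B3, C3, M3, hg3, L3⟩ := Lv0.up hp L2 (f := Q1.y) hR2r
    (by rw [hR2y]; exact (hO R hRO).2) (O := O2) (fun w hw => by
      by_contra hc
      rw [ordn2 w hc] at hw
      exact absurd hw (by decide)) (hO2d.trans hOdeg)
  obtain ⟨O3, hO3, hO3d⟩ := Q2.fibres_odd L2.cv O2 hoddu
  obtain ⟨A3, hA3, hA3d⟩ := Q2.fibres L2.cv A2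
  obtain ⟨R3, hR3, -, -, hR3y, hR3r⟩ := Q2.odd_over (k := k) (hoddu R2 ((hO2 R2).2 ⟨R, hRO, hR2⟩))
  have hR3rat : R3.Rat k := Qd.rat_of_resCard (K := K2) hR2r hR3r
  have hR3ord : R3.ord Q2.y = R.ord l := by rw [hR3y, hR2y]
  have hy0 : Q2.y ≠ 0 := by
    intro h
    rw [h, DV.ord_zero] at hR3ord
    omega
  have hy4 : Q2.y ^ 4 - 1 = algebraMap K2 K3 (algebraMap K K2 (l - 1)) := by
    have h1 := Q2.sq
    have h2 := congrArg (algebraMap K2 K3) Q1.sq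
    rw [map_pow, ← h1] at h2
    rw [map_sub, map_sub, map_one, map_one, ← h2]
    ring
  have hne4 : Q2.y ^ 4 - 1 ≠ 0 := by
    rw [hy4]
    exact map_ne_zero' (map_ne_zero' hl1)
  have hfac : Q2.y ^ 4 - 1 = (Q2.y - 1) * ((Q2.y + 1) * (Q2.y ^ 2 + 1)) := by ring
  have hn1 : Q2.y - 1 ≠ 0 := fun h => hne4 (by rw [hfac, h, zero_mul])
  have hn2 : Q2.y + 1 ≠ 0 := fun h => hne4 (by rw [hfac, h, zero_mul, mul_zero])
  have hn3 : Q2.y ^ 2 + 1 ≠ 0 := fun h => hne4 (by rw [hfac, h, mul_zero, mul_zero])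
  refine ⟨K3, inferInstance, inferInstance, Q2.y, g3, r + 4 * a, B3, C3, M3, by omega,
    ⟨L3.ff, L3.cv, L3.se, ⟨O3 ∪ A3, ?_, ?_⟩,
      ⟨R3, hR3rat, by rw [hR3ord]; exact hRneg, by rw [hR3ord]; exact (hO R hRO).2⟩, ?_, L3.pl⟩⟩
  · intro z hz
    rw [Finset.mem_union, not_or] at hz
    obtain ⟨hzO, hzA⟩ := hz
    obtain ⟨w, hw⟩ := Q2.exists_over z
    obtain ⟨v, hv⟩ := Q1.exists_over w
    have hwO : w ∉ O2 := fun h => hzO ((hO3 z).2 ⟨w, h, hw⟩)
    have hwA : w ∉ A2 := fun h => hzA ((hA3 z).2 ⟨w, h, hw⟩)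
    have hvO : v ∉ O := fun h => hwO ((hO2 w).2 ⟨v, h, hv⟩)
    have hvA : v ∉ A := fun h => hwA ((hA2 w).2 ⟨v, h, hv⟩)
    have hu := ordn2 w hwO
    have h3 := BaseL.ord_y' (k := k) Q2 (v := w) (by rw [hu]; decide) hw
    rw [hu] at h3
    have hox : z.ord Q2.y = 0 := by omega
    have ho4 : z.ord (Q2.y ^ 4 - 1) = 0 := by
      obtain ⟨e, he, h5⟩ := BaseL.Over.trans' hv hw
      rw [hy4, h5 _ hl1, hA0 v hvO hvA, mul_zero]
    rw [hfac, z.ord_mul _ _ hn1 (mul_ne_zero hn2 hn3), z.ord_mul _ _ hn2 hn3] at ho4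
    have hG : z.G 0 Q2.y := DV.G_of_le hox.ge
    have g1 := (hG.sub DV.G_one).le hn1
    have g2 := (hG.add DV.G_one).le hn2
    have g3 := (((hG.pow 2).mono (by norm_num)).add DV.G_one : z.G 0 (Q2.y ^ 2 + 1)).le hn3
    exact ⟨hox, by omega, by omega, by omega, hy0, hn1, hn2, hn3⟩
  · have h1 : ∑ v ∈ O3 ∪ A3, v.deg (Nat.card k) ≤
        ∑ v ∈ O3, v.deg (Nat.card k) + ∑ v ∈ A3, v.deg (Nat.card k) := by
      rw [← Finset.sum_union_inter]
      exact Nat.le_add_right _ _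
    omega
  · -- the points
    have hT : ∀ α : k, ∃ T : Finset (DV K), α ∈ S → N ≤ T.card ∧ ∀ v ∈ T, v.Rat k ∧
        v.G 1 (l - algebraMap k K (α ^ 4)) := by
      intro α
      by_cases h : α ∈ S
      · obtain ⟨T, hT⟩ := H.pts α h
        exact ⟨T, fun _ => hT⟩
      · exact ⟨∅, fun h' => absurd h' h⟩
    choose Tf hTf using hT
    have hpl : ∀ q : Σ _ : k, DV K, ∃ z : DV K3, (q.1 ∈ S ∧ q.2 ∈ Tf q.1) → z.Rat k ∧
        z.G 1 (Q2.y - algebraMap k K3 q.1) ∧ ∃ w : DV K2, Over w q.2 ∧ Over z w := by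
      rintro ⟨α, v⟩
      by_cases h : α ∈ S ∧ v ∈ Tf α
      · have hα := (hS.ne α h.1).1
        obtain ⟨hv, hvl⟩ := (hTf α h.1).2 v h.2
        obtain ⟨w, hw, hwr, hwy⟩ := Q1.lift hv (c := α ^ 2) (by
          rw [← map_pow, ← pow_mul]
          exact hvl) (Or.inl (pow_ne_zero 2 hα))
        obtain ⟨z, hz, hzr, hzy⟩ := Q2.lift hwr (c := α) (by
          rw [← map_pow]
          exact hwy) (Or.inl hα)
        exact ⟨z, fun _ => ⟨hzr, hzy, w, hw, hz⟩⟩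
      · exact ⟨R3, fun h' => absurd h' h⟩
    choose G hG using hpl
    refine ⟨(S.sigma Tf).image G, ?_, ?_⟩
    · rw [Finset.card_image_of_injOn, Finset.card_sigma]
      · calc N * S.card = ∑ _α ∈ S, N := by rw [Finset.sum_const, smul_eq_mul, mul_comm]
          _ ≤ ∑ α ∈ S, (Tf α).card := Finset.sum_le_sum fun α hα => (hTf α hα).1
      · rintro ⟨α, v⟩ hq ⟨α', v'⟩ hq' he
        simp only [Finset.coe_sigma, Set.mem_sigma_iff, Finset.mem_coe] at hq hq'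
        obtain ⟨-, h1, w, hw, hz⟩ := hG ⟨α, v⟩ hq
        obtain ⟨-, h1', w', hw', hz'⟩ := hG ⟨α', v'⟩ hq'
        rw [← he] at h1' hz'
        have e1 : α = α' := BaseM.const_inj h1 h1'
        have e2 : w = w' := hz.unique hz'
        subst e2
        have e3 : v = v' := hw.unique hw'
        rw [e1, e3]
    · intro z hz
      rw [Finset.mem_image] at hz
      obtain ⟨q, hq, rfl⟩ := hz
      rw [Finset.mem_sigma] at hq
      have h := hG q hq
      exact ⟨h.1, q.1, hq.1, h.2.1⟩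

end Pool.Agent.FF
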