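import Pool.Agent.FO.BaseM2

/-! # The second base: `w ^ 2 = 1 - z ^ 3`, `2 u ^ 2 = 1 + w`, `x ^ 2 = u` -/

set_option autoImplicit false

namespace Pool.Agent.FF

/-- a cube root of unity from three cube roots -/
theorem exists_omega {k : Type} [Field k] {Z : Finset k} (hZ : Z.card = 3) {c : k} (hc : c ≠ 0)
    (h : ∀ z ∈ Z, z ^ 3 = c) : ∃ ω : k, ω ^ 2 + ω + 1 = 0 := by
  obtain ⟨a, ha, b, hb, hab⟩ := Finset.one_lt_card.1 (show 1 < Z.card by omega)
  have h1 := h a ha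
  have h2 := h b hb
  have ha0 : a ≠ 0 := by
    rintro rfl
    exact hc (by rw [← h1]; norm_num)
  refine ⟨b / a, ?_⟩
  have h3 : (b - a) * (b ^ 2 + b * a + a ^ 2) = 0 := by
    linear_combination h2 - h1
  rcases mul_eq_zero.1 h3 with h4 | h4
  · exact absurd (sub_eq_zero.1 h4).symm hab
  · field_simp
    linear_combination h4

theorem baseM {p : ℕ} [Fact p.Prime] (hp : 3 < p) {k : Type} [Field k] [Finite k] [CharP k p]
    {S : Finset k} (hS : SSet S) (hne : S.Nonempty)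
    (hc : ∀ α ∈ S, ∃ Z : Finset k, Z.card = 3 ∧ ∀ z ∈ Z, z ^ 3 = 4 * α ^ 4 * (1 - α ^ 4)) :
    ∃ (K : Type) (_ : Field K) (_ : Algebra k K) (x : K) (B C M : ℕ),
      LvP p k K S x 4 6 (3 * S.card) B C M := by
  have hω : ∃ ω : k, ω ^ 2 + ω + 1 = 0 := by
    obtain ⟨α, hα⟩ := hne
    obtain ⟨Z, hZ, hz⟩ := hc α hα
    obtain ⟨h1, h2⟩ := hS.ne α hα
    have k2 : (2 : k) ≠ 0 := by
      intro h
      have := (CharP.cast_eq_zero_iff k p 2).1 (by exact_mod_cast h)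
      exact absurd (Nat.le_of_dvd (by norm_num) this) (by omega)
    have k4 : (4 : k) ≠ 0 := by
      have : (4 : k) = 2 * 2 := by norm_num
      rw [this]
      exact mul_ne_zero k2 k2
    exact exists_omega hZ (mul_ne_zero (mul_ne_zero k4 (pow_ne_zero 4 h1))
      (sub_ne_zero.2 (Ne.symm h2))) hz
  obtain ⟨ω, hω⟩ := hω
  obtain ⟨K, i1, i2, x, B, C, M, h1, h2, h3, h4, h5, h6, h7⟩ := baseM_all hp hω hS hc
  exact ⟨K, i1, i2, x, B, C, M, ⟨h1, h2, h3, h4, h5, h6, h7⟩⟩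

end Pool.Agent.FF
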