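import Pool.Agent.FO.BaseM1
import Pool.Agent.FO.LvP

/-! # The second base: `u ^ 2 = l`, `x ^ 2 = u` -/

set_option autoImplicit false

namespace Pool.Agent.FF

namespace BaseM

/-- a double cover at a place with given value -/
theorem up_val {k K K' : Type} [Field k] [Finite k] [Field K] [Field K'] [Algebra k K]
    [Algebra k K'] [Algebra K K'] [IsScalarTower k K K'] {f : K} (S : Qd K K' f) {v : DV K} {a : k}
    (ha : a ≠ 0) (hv : v.Rat k) (h : v.G 1 (f - algebraMap k K (a ^ 2))) :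
    ∃ w : DV K', Over w v ∧ w.Rat k ∧ w.G 1 (S.y - algebraMap k K' a) := by
  obtain ⟨w, -, -, hw, -, -, hwy, -, hwr, -⟩ :=
    S.split (k := k) (v := v) (c := algebraMap k K a) (v.ord_const a) (map_ne_zero' ha)
      (by rwa [map_pow] at h)
  refine ⟨w, hw, Qd.rat_of_resCard hv hwr, ?_⟩
  rw [IsScalarTower.algebraMap_apply k K K']
  exact hwy

/-- orders of the root at unramified places -/
theorem ord_y {k K K' : Type} [Field k] [Finite k] [Field K] [Field K'] [Algebra k K]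
    [Algebra k K'] [Algebra K K'] [IsScalarTower k K K'] {f : K} (S : Qd K K' f) {v : DV K}
    (hv : Even (v.ord f)) {w : DV K'} (hw : Over w v) : 2 * w.ord S.y = v.ord f := by
  have h1 := S.even_ord (k := k) hv hw f
  rw [← S.sq] at h1
  have hy : S.y ≠ 0 := by
    intro h
    have := S.sq
    rw [h, zero_pow two_ne_zero] at this
    exact map_ne_zero' S.f_ne this.symm
  rw [w.ord_pow hy] at h1
  exact_mod_cast h1

theorem up_res {k K K' : Type} [Field k] [Field K] [Field K'] [Algebra k K]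
    [Algebra k K'] [Algebra K K'] [IsScalarTower k K K'] {v : DV K} {w : DV K'} (hw : Over w v)
    {Z : K} {z : k} (h : v.G 1 (Z - algebraMap k K z)) :
    w.G 1 (algebraMap K K' Z - algebraMap k K' z) := by
  rw [IsScalarTower.algebraMap_apply k K K', ← map_sub, hw.G_one_iff]
  exact h

/-- The second level: `u ^ 2 = l`. -/
structure Lev2 (p : ℕ) (k K : Type) [Field k] [Field K] [Algebra k K] (u Z : K)
    (Q0 Q2 : DV K) (A1 : Finset (DV K)) (B C M : ℕ) : Prop where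
  ff : IsFF k K
  cv : Cv k K 2
  se : Se K 5
  pl : HasPlO p k K B C M
  chp : CharP K p
  n02 : Q0 ≠ Q2
  r0 : Q0.Rat k
  r2 : Q2.Rat k
  o0 : Q0.ord u = 3
  o2 : Q2.ord u = -3
  ou : ∀ v, v ≠ Q0 → v ≠ Q2 → v.ord u = 0
  u0 : u ≠ 0
  d1 : ∑ v ∈ A1, v.deg (Nat.card k) = 2
  m0 : Q0 ∉ A1
  m2 : Q2 ∉ A1
  u1 : 1 - u ^ 2 ≠ 0
  om : ∀ v, v ≠ Q0 → v ≠ Q2 → v ∉ A1 → v.ord (1 - u ^ 2) = 0
  pts : ∀ b z : k, b ≠ 0 → z ^ 3 = 4 * b ^ 2 * (1 - b ^ 2) → ∃ v : DV K, v.Rat k ∧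
    v.G 1 (u - algebraMap k K b) ∧ v.G 1 (Z - algebraMap k K z)

theorem level2 {p : ℕ} [Fact p.Prime] (hp : 3 < p) {k : Type} [Field k] [Finite k] [CharP k p]
    {ω : k} (hω : ω ^ 2 + ω + 1 = 0) : ∃ (K : Type) (_ : Field K) (_ : Algebra k K) (u Z : K)
      (Q0 Q2 : DV K) (A1 : Finset (DV K)) (B C M : ℕ), Lev2 p k K u Z Q0 Q2 A1 B C M := by
  classical
  obtain ⟨K, _, _, l, Z, P0, P1, P2, B, C, M, L⟩ := level1 (p := p) hp hω
  have hch := L.chp
  have k2 : (2 : k) ≠ 0 := by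
    intro h
    have := (CharP.cast_eq_zero_iff k p 2).1 (by exact_mod_cast h)
    exact absurd (Nat.le_of_dvd (by norm_num) this) (by omega)
  have hK2 : (2 : K) ≠ 0 := by
    have : (2 : K) = algebraMap k K 2 := (map_ofNat _ 2).symm
    rw [this]
    exact map_ne_zero' k2
  have odd0 : Odd (P0.ord l) := by rw [L.o0]; decide
  have odd2 : Odd (P2.ord l) := by rw [L.o2]; decide
  have hodd : ∀ v : DV K, Odd (v.ord l) ↔ v ∈ ({P0, P2} : Finset (DV K)) := by
    intro v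
    rw [Finset.mem_insert, Finset.mem_singleton]
    constructor
    · intro h
      by_contra hc
      push Not at hc
      rw [L.ol v hc.1 hc.2] at h
      exact absurd h (by decide)
    · rintro (rfl | rfl)
      · exact odd0
      · exact odd2
  have hdg : dgS (Nat.card k) {v : DV K | Odd (v.ord l)} = 2 := by
    rw [dg_eq hodd, Finset.sum_pair L.n02, L.r0.deg_eq_one, L.r2.deg_eq_one]
  obtain ⟨K', _, _, _, _, ⟨S⟩⟩ := exists_qd (k := k) hK2 (not_sq ⟨_, odd0⟩)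
  obtain ⟨g', C', hg'⟩ := S.cv L.cv ⟨_, odd0⟩
  rw [hdg] at hg'
  have : g' = 2 := by omega
  subst this
  have hff : IsFF k K' := S.isFF L.ff C'
  have hse : Se K' 5 := Se.up_deg S L.cv C' L.r0 odd0 L.se (by rw [hdg])
  have hpl := HasPlO.up (p := p) (by omega) S L.cv C' L.r0 odd0 hdg.le L.pl
  have hchK : CharP K' p := charP_of_injective_algebraMap (algebraMap k K').injective p
  obtain ⟨Q0, hQ0, hQ0u, -, hQ0y, hQ0r⟩ := S.odd_over (k := k) odd0
  obtain ⟨Q2, hQ2, hQ2u, -, hQ2y, hQ2r⟩ := S.odd_over (k := k) odd2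
  rw [L.o0] at hQ0y
  rw [L.o2] at hQ2y
  have ev1 : Even (P1.ord l) := by
    rw [L.ol P1 L.n01.symm L.n12]
    decide
  obtain ⟨A1, hA1, -, hA1e⟩ := S.sum_over (k := k) (v := P1) (resCard_ne L.cv P1)
  have hy0 : S.y ≠ 0 := by
    intro h
    rw [h, DV.ord_zero] at hQ0y
    omega
  have hsq : 1 - S.y ^ 2 = algebraMap K K' (1 - l) := by
    rw [S.sq, map_sub, map_one]
  refine ⟨K', inferInstance, inferInstance, S.y, algebraMap K K' Z, Q0, Q2, A1, _, _, _,
    ⟨hff, C', hse, hpl, hchK, ?_, ?_, ?_, hQ0y, hQ2y, ?_, hy0, ?_, ?_, ?_, ?_, ?_, ?_⟩⟩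
  · intro h
    rw [h, hQ2y] at hQ0y
    omega
  · exact Qd.rat_of_resCard L.r0 hQ0r
  · exact Qd.rat_of_resCard L.r2 hQ2r
  · intro w h0 h2
    obtain ⟨v, hv⟩ := S.exists_over w
    have n0 : v ≠ P0 := by
      rintro rfl
      exact h0 (hQ0u w hv)
    have n2 : v ≠ P2 := by
      rintro rfl
      exact h2 (hQ2u w hv)
    have h1 := L.ol v n0 n2
    have h3 := ord_y (k := k) S (by rw [h1]; decide) hv
    rw [h1] at h3
    omega
  · have h1 := hA1e ev1
    have h2 : deg k P1 = 1 := L.r1.deg_eq_one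
    rw [h2] at h1
    exact h1
  · intro h
    exact L.n01 (hQ0.unique ((hA1 _).1 h))
  · intro h
    exact L.n12 (((hA1 _).1 h).unique hQ2)
  · rw [hsq]
    exact map_ne_zero' L.l1
  · intro w h0 h2 h1
    obtain ⟨v, hv⟩ := S.exists_over w
    have n0 : v ≠ P0 := by
      rintro rfl
      exact h0 (hQ0u w hv)
    have n2 : v ≠ P2 := by
      rintro rfl
      exact h2 (hQ2u w hv)
    have n1 : v ≠ P1 := by
      rintro rfl
      exact h1 ((hA1 w).2 hv)
    rw [hsq]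
    obtain ⟨e, he, h5⟩ := hv
    rw [h5 _ L.l1, L.om v n0 n1 n2, mul_zero]
  · intro b z hb hz
    obtain ⟨v, hv, hl, hZ⟩ := L.pts (b ^ 2) z hz
    obtain ⟨w, hw, hwr, hwy⟩ := up_val S hb hv hl
    exact ⟨w, hwr, hwy, up_res hw hZ⟩

end BaseM

theorem baseM_all {p : ℕ} [Fact p.Prime] (hp : 3 < p) {k : Type} [Field k] [Finite k] [CharP k p]
    {ω : k} (hω : ω ^ 2 + ω + 1 = 0) {S : Finset k} (hS : SSet S)
    (hc : ∀ α ∈ S, ∃ Z : Finset k, Z.card = 3 ∧ ∀ z ∈ Z, z ^ 3 = 4 * α ^ 4 * (1 - α ^ 4)) :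
    ∃ (K : Type) (_ : Field K) (_ : Algebra k K) (x : K) (B C M : ℕ), IsFF k K ∧ Cv k K 4 ∧
      Se K 9 ∧ (∃ A : Finset (DV K), (∀ v, v ∉ A → UO v x) ∧ ∑ v ∈ A, v.deg (Nat.card k) ≤ 6) ∧
      (∃ R : DV K, R.Rat k ∧ R.ord x < 0 ∧ Odd (R.ord x)) ∧
      (∃ T : Finset (DV K), 3 * S.card ≤ T.card ∧
        ∀ v ∈ T, v.Rat k ∧ ∃ α ∈ S, v.G 1 (x - algebraMap k K α)) ∧ HasPlO p k K B C M := by
  classical
  obtain ⟨K, _, _, u, Z, Q0, Q2, A1, B, C, M, L⟩ := BaseM.level2 (p := p) hp hω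
  have hch := L.chp
  have k2 : (2 : k) ≠ 0 := by
    intro h
    have := (CharP.cast_eq_zero_iff k p 2).1 (by exact_mod_cast h)
    exact absurd (Nat.le_of_dvd (by norm_num) this) (by omega)
  have hK2 : (2 : K) ≠ 0 := by
    have : (2 : K) = algebraMap k K 2 := (map_ofNat _ 2).symm
    rw [this]
    exact map_ne_zero' k2
  have odd0 : Odd (Q0.ord u) := by rw [L.o0]; decide
  have odd2 : Odd (Q2.ord u) := by rw [L.o2]; decide
  have hodd : ∀ v : DV K, Odd (v.ord u) ↔ v ∈ ({Q0, Q2} : Finset (DV K)) := by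
    intro v
    rw [Finset.mem_insert, Finset.mem_singleton]
    constructor
    · intro h
      by_contra hc
      push Not at hc
      rw [L.ou v hc.1 hc.2] at h
      exact absurd h (by decide)
    · rintro (rfl | rfl)
      · exact odd0
      · exact odd2
  have hdg : dgS (Nat.card k) {v : DV K | Odd (v.ord u)} = 2 := by
    rw [BaseM.dg_eq hodd, Finset.sum_pair L.n02, L.r0.deg_eq_one, L.r2.deg_eq_one]
  obtain ⟨K', _, _, _, _, ⟨T⟩⟩ := exists_qd (k := k) hK2 (BaseM.not_sq ⟨_, odd0⟩)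
  obtain ⟨g', C', hg'⟩ := T.cv L.cv ⟨_, odd0⟩
  rw [hdg] at hg'
  have : g' = 4 := by omega
  subst this
  have hff : IsFF k K' := T.isFF L.ff C'
  have hse : Se K' 9 := Se.up_deg T L.cv C' L.r0 odd0 L.se (by rw [hdg])
  have hpl := HasPlO.up (p := p) (by omega) T L.cv C' L.r0 odd0 hdg.le L.pl
  obtain ⟨R0, hR0, hR0u, -, hR0y, hR0r⟩ := T.odd_over (k := k) odd0
  obtain ⟨R2, hR2, hR2u, -, hR2y, hR2r⟩ := T.odd_over (k := k) odd2
  rw [L.o0] at hR0y
  rw [L.o2] at hR2y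
  have hchB : ∀ v : DV K, ∃ B : Finset (DV K'), (∀ w, w ∈ B ↔ Over w v) ∧
      (v ∈ A1 → ∑ w ∈ B, w.deg (Nat.card k) = 2 * v.deg (Nat.card k)) := by
    intro v
    obtain ⟨B, h1, -, h3⟩ := T.sum_over (k := k) (v := v) (BaseM.resCard_ne L.cv v)
    refine ⟨B, h1, fun hv => h3 ?_⟩
    rw [L.ou v (fun h => L.m0 (h ▸ hv)) (fun h => L.m2 (h ▸ hv))]
    decide
  choose Bf hB1 hB2 using hchB
  have hy0 : T.y ≠ 0 := by
    intro h
    rw [h, DV.ord_zero] at hR0y
    omega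
  have hy4 : T.y ^ 4 - 1 = -(algebraMap K K' (1 - u ^ 2)) := by
    have h1 := T.sq
    rw [map_sub, map_one, map_pow, ← h1]
    ring
  have hne4 : T.y ^ 4 - 1 ≠ 0 := by
    rw [hy4]
    exact neg_ne_zero.2 (map_ne_zero' L.u1)
  have hfac : T.y ^ 4 - 1 = (T.y - 1) * ((T.y + 1) * (T.y ^ 2 + 1)) := by ring
  have hn1 : T.y - 1 ≠ 0 := fun h => hne4 (by rw [hfac, h, zero_mul])
  have hn2 : T.y + 1 ≠ 0 := fun h => hne4 (by rw [hfac, h, zero_mul, mul_zero])
  have hn3 : T.y ^ 2 + 1 ≠ 0 := fun h => hne4 (by rw [hfac, h, mul_zero, mul_zero])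
  refine ⟨K', inferInstance, inferInstance, T.y, _, _, _, hff, C', hse, ?_, ?_, ?_, hpl⟩
  · -- the special places
    refine ⟨insert R0 (insert R2 (A1.biUnion Bf)), fun w hw => ?_, ?_⟩
    · simp only [Finset.mem_insert, Finset.mem_biUnion, not_or, not_exists, not_and] at hw
      obtain ⟨w0, w2, w1⟩ := hw
      obtain ⟨v, hv⟩ := T.exists_over w
      have n0 : v ≠ Q0 := by
        rintro rfl
        exact w0 (hR0u w hv)
      have n2 : v ≠ Q2 := by
        rintro rfl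
        exact w2 (hR2u w hv)
      have n1 : v ∉ A1 := fun h => w1 v h ((hB1 v w).2 hv)
      have hu := L.ou v n0 n2
      have h3 := BaseM.ord_y (k := k) T (by rw [hu]; decide) hv
      rw [hu] at h3
      have hox : w.ord T.y = 0 := by omega
      have ho4 : w.ord (T.y ^ 4 - 1) = 0 := by
        rw [hy4, w.ord_neg]
        obtain ⟨e, he, h5⟩ := hv
        rw [h5 _ L.u1, L.om v n0 n2 n1, mul_zero]
      rw [hfac, w.ord_mul _ _ hn1 (mul_ne_zero hn2 hn3), w.ord_mul _ _ hn2 hn3] at ho4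
      have hG : w.G 0 T.y := DV.G_of_le hox.ge
      have g1 := (hG.sub DV.G_one).le hn1
      have g2 := (hG.add DV.G_one).le hn2
      have g3 := (((hG.pow 2).mono (by norm_num)).add DV.G_one : w.G 0 (T.y ^ 2 + 1)).le hn3
      exact ⟨hox, by omega, by omega, by omega, hy0, hn1, hn2, hn3⟩
    · have d0 : R0.deg (Nat.card k) = 1 := (Qd.rat_of_resCard L.r0 hR0r).deg_eq_one
      have d2 : R2.deg (Nat.card k) = 1 := (Qd.rat_of_resCard L.r2 hR2r).deg_eq_one
      have d1 : ∑ v ∈ A1.biUnion Bf, v.deg (Nat.card k) = 4 := by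
        rw [Finset.sum_biUnion]
        · have h := L.d1
          rw [Finset.sum_congr rfl fun v hv => hB2 v hv, ← Finset.mul_sum]
          omega
        · intro v _ v' _ hne
          rw [Function.onFun, Finset.disjoint_left]
          intro w hw hw'
          exact hne (((hB1 v w).1 hw).unique ((hB1 v' w).1 hw'))
      have hins : ∀ (w : DV K') (s : Finset (DV K')), ∑ v ∈ insert w s, v.deg (Nat.card k) ≤
          w.deg (Nat.card k) + ∑ v ∈ s, v.deg (Nat.card k) := fun w s => by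
        by_cases h : w ∈ s
        · rw [Finset.insert_eq_of_mem h]
          omega
        · rw [Finset.sum_insert h]
      have h1 := hins R0 (insert R2 (A1.biUnion Bf))
      have h2 := hins R2 (A1.biUnion Bf)
      omega
  · exact ⟨R2, Qd.rat_of_resCard L.r2 hR2r, by rw [hR2y]; norm_num, by rw [hR2y]; decide⟩
  · -- the points
    have hZ : ∀ α : k, ∃ Z : Finset k, α ∈ S →
        Z.card = 3 ∧ ∀ z ∈ Z, z ^ 3 = 4 * α ^ 4 * (1 - α ^ 4) := by
      intro α
      by_cases h : α ∈ S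
      · obtain ⟨Z, hZ⟩ := hc α h
        exact ⟨Z, fun _ => hZ⟩
      · exact ⟨∅, fun h' => absurd h' h⟩
    choose Zf hZf using hZ
    have hpl : ∀ q : Σ _ : k, k, ∃ w : DV K', (q.1 ∈ S ∧ q.2 ∈ Zf q.1) → w.Rat k ∧
        w.G 1 (T.y - algebraMap k K' q.1) ∧ w.G 1 (algebraMap K K' Z - algebraMap k K' q.2) := by
      rintro ⟨α, z⟩
      by_cases h : α ∈ S ∧ z ∈ Zf α
      · have hα := (hS.ne α h.1).1
        have hz := (hZf α h.1).2 z h.2
        obtain ⟨v, hv, hvu, hvZ⟩ := L.pts (α ^ 2) z (pow_ne_zero 2 hα) (by rw [hz]; ring)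
        obtain ⟨w, hw, hwr, hwy⟩ := BaseM.up_val T hα hv hvu
        exact ⟨w, fun _ => ⟨hwr, hwy, BaseM.up_res hw hvZ⟩⟩
      · exact ⟨R0, fun h' => absurd h' h⟩
    choose G hG using hpl
    refine ⟨(S.sigma Zf).image G, ?_, ?_⟩
    · rw [Finset.card_image_of_injOn, Finset.card_sigma]
      · rw [Finset.sum_congr rfl fun α hα => (hZf α hα).1, Finset.sum_const, smul_eq_mul, mul_comm]
      · rintro ⟨α, z⟩ hq ⟨α', z'⟩ hq' he
        simp only [Finset.coe_sigma, Set.mem_sigma_iff, Finset.mem_coe] at hq hq'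
        have h1 := hG ⟨α, z⟩ hq
        have h2 := hG ⟨α', z'⟩ hq'
        rw [← he] at h2
        have e1 : α = α' := BaseM.const_inj h1.2.1 h2.2.1
        have e2 : z = z' := BaseM.const_inj h1.2.2 h2.2.2
        rw [e1, e2]
    · intro w hw
      rw [Finset.mem_image] at hw
      obtain ⟨q, hq, rfl⟩ := hw
      rw [Finset.mem_sigma] at hq
      have h := hG q hq
      exact ⟨h.1, q.1, hq.1, h.2.1⟩

end Pool.Agent.FF
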