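import Pool.Agent.FO.LvP

/-! # Levels with the parameter `W` of the cubic steps `z ^ 3 = W (9 - W ^ 2)` -/

set_option autoImplicit false

namespace Pool.Agent.FF

/-- `W`, `W - 1`, `W + 1`, `W - 3` and `W + 3` are units at `v`. -/
def UW {K : Type*} [Field K] (v : DV K) (W : K) : Prop :=
  v.ord W = 0 ∧ v.ord (W - 1) = 0 ∧ v.ord (W + 1) = 0 ∧ v.ord (W - 3) = 0 ∧ v.ord (W + 3) = 0 ∧
    W ≠ 0 ∧ W - 1 ≠ 0 ∧ W + 1 ≠ 0 ∧ W - 3 ≠ 0 ∧ W + 3 ≠ 0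

/-- the values of `W` which split completely in the quadratic and in the cubic steps -/
structure WSet {k : Type*} [Field k] (S W3 : Finset k) : Prop where
  ne : ∀ w ∈ W3, w ≠ 0 ∧ w ^ 2 ≠ 1 ∧ w ^ 2 ≠ 9
  al : ∀ w ∈ W3, ∃ A : Finset k, A ⊆ S ∧ A.card = 4 ∧
    ∀ a ∈ A, 16 * w ^ 3 * a ^ 4 = (w - 1) * (w + 3) ^ 3
  cub : ∀ w ∈ W3, ∃ C : Finset k, C.card = 3 ∧ ∀ c ∈ C, c ^ 3 = w * (9 - w ^ 2) ∧ c + w ≠ 0 ∧
    9 * w / (c + w) ^ 2 ∈ W3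

/-- As `LvP`, without the class bound, with the function `W`: outside places of total degree at most
`D` all special functions are units; `t` rational places over values in `S` and `W3`. -/
structure LvQ (p : ℕ) (k K : Type) [Field k] [Field K] [Algebra k K] (S W3 : Finset k) (x W : K)
    (g D t B C M : ℕ) : Prop where
  ff : IsFF k K
  cv : Cv k K g
  sp : ∃ A : Finset (DV K), (∀ v, v ∉ A → UO v x ∧ UW v W) ∧ ∑ v ∈ A, v.deg (Nat.card k) ≤ D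
  pole : ∃ R : DV K, R.Rat k ∧ R.ord x < 0 ∧ Odd (R.ord x) ∧ 0 < R.ord W ∧ ¬ (3 : ℤ) ∣ R.ord W
  pts : ∃ T : Finset (DV K), t ≤ T.card ∧ ∀ v ∈ T, v.Rat k ∧
    (∃ α ∈ S, v.G 1 (x - algebraMap k K α)) ∧ ∃ w ∈ W3, v.G 1 (W - algebraMap k K w)
  pl : HasPlO p k K B C M

end Pool.Agent.FF
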