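import Pool.Agent.FO.BaseQ1
import Pool.Agent.FO.DefsQ

/-! # The base `x ^ 4 = (W - 1) (W + 3) ^ 3 / (16 W ^ 3)` over `k (W)` -/

set_option autoImplicit false

namespace Pool.Agent.FF

namespace BaseQ

variable {k : Type} [Field k] [Finite k]

/-- `(X - 1) (X + 3) ^ 3 / (16 X ^ 3)` -/
noncomputable def al (k : Type) [Field k] : RatFunc k :=
  algebraMap k (RatFunc k) (16)⁻¹ * ((RatFunc.X - algebraMap k (RatFunc k) 1) *
    (RatFunc.X - algebraMap k (RatFunc k) (-3)) ^ 3) /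
      (RatFunc.X - algebraMap k (RatFunc k) 0) ^ 3

omit [Finite k] in
theorem const_ne {c : k} (hc : c ≠ 0) : algebraMap k (RatFunc k) c ≠ 0 :=
  map_ne_zero' hc

theorem al_ord (h16 : (16 : k) ≠ 0) (v : DV (RatFunc k)) : v.ord (al k) =
    v.ord (RatFunc.X - algebraMap k (RatFunc k) 1) +
      3 * v.ord (RatFunc.X - algebraMap k (RatFunc k) (-3)) -
      3 * v.ord (RatFunc.X - algebraMap k (RatFunc k) 0) := by
  have n1 := BaseM.X_sub_ne (1 : k)
  have n2 := BaseM.X_sub_ne (-3 : k)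
  have n3 := BaseM.X_sub_ne (0 : k)
  have n4 := const_ne (inv_ne_zero h16)
  rw [al, v.ord_div (mul_ne_zero n4 (mul_ne_zero n1 (pow_ne_zero 3 n2))) (pow_ne_zero 3 n3),
    v.ord_mul _ _ n4 (mul_ne_zero n1 (pow_ne_zero 3 n2)), v.ord_const,
    v.ord_mul _ _ n1 (pow_ne_zero 3 n2), v.ord_pow n2, v.ord_pow n3]
  push_cast
  ring

theorem al_sub_one (h16 : (16 : k) ≠ 0) : al k - 1 = algebraMap k (RatFunc k) (16)⁻¹ *
    ((RatFunc.X - algebraMap k (RatFunc k) (-1)) *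
      (RatFunc.X - algebraMap k (RatFunc k) 3) ^ 3) /
        (RatFunc.X - algebraMap k (RatFunc k) 0) ^ 3 := by
  have n3 := BaseM.X_sub_ne (0 : k)
  have hK : (16 : RatFunc k) ≠ 0 := by
    have := const_ne h16
    rwa [map_ofNat] at this
  rw [al, map_inv₀, map_neg, map_neg, map_one, map_zero, map_ofNat, map_ofNat] at *
  field_simp
  ring

theorem al_sub_one_ord (h16 : (16 : k) ≠ 0) (v : DV (RatFunc k)) : v.ord (al k - 1) =
    v.ord (RatFunc.X - algebraMap k (RatFunc k) (-1)) +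
      3 * v.ord (RatFunc.X - algebraMap k (RatFunc k) 3) -
      3 * v.ord (RatFunc.X - algebraMap k (RatFunc k) 0) := by
  have n1 := BaseM.X_sub_ne (-1 : k)
  have n2 := BaseM.X_sub_ne (3 : k)
  have n3 := BaseM.X_sub_ne (0 : k)
  have n4 := const_ne (inv_ne_zero h16)
  rw [al_sub_one h16, v.ord_div (mul_ne_zero n4 (mul_ne_zero n1 (pow_ne_zero 3 n2)))
    (pow_ne_zero 3 n3), v.ord_mul _ _ n4 (mul_ne_zero n1 (pow_ne_zero 3 n2)), v.ord_const,
    v.ord_mul _ _ n1 (pow_ne_zero 3 n2), v.ord_pow n2, v.ord_pow n3]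
  push_cast
  ring

theorem al_ne_one (h16 : (16 : k) ≠ 0) : al k ≠ 1 := by
  intro h
  have h1 := al_sub_one h16
  rw [h, sub_self] at h1
  have n1 := BaseM.X_sub_ne (-1 : k)
  have n2 := BaseM.X_sub_ne (3 : k)
  have n3 := BaseM.X_sub_ne (0 : k)
  have n4 := const_ne (inv_ne_zero h16)
  exact div_ne_zero (mul_ne_zero n4 (mul_ne_zero n1 (pow_ne_zero 3 n2))) (pow_ne_zero 3 n3) h1.symm

/-- the value of `al` at a rational place -/
theorem al_pt (h16 : (16 : k) ≠ 0) {w b : k} (hw : w ≠ 0)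
    (h : 16 * w ^ 3 * b = (w - 1) * (w + 3) ^ 3) :
    (Rat.pt w).G 1 (al k - algebraMap k (RatFunc k) b) := by
  have n3 := BaseM.X_sub_ne (0 : k)
  have hK : (16 : RatFunc k) ≠ 0 := by
    have := const_ne h16
    rwa [map_ofNat] at this
  set X : RatFunc k := RatFunc.X with hX
  set ω : RatFunc k := algebraMap k (RatFunc k) w with hω
  have hX0 : X ≠ 0 := RatFunc.X_ne_zero
  have hG : (Rat.pt w).G 0 X := DV.G_of_le (Rat.ne_inf.1 (Rat.pt_ne_inf w))
  have hGω : (Rat.pt w).G 0 ω := DV.G_const _ w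
  have hd : (Rat.pt w).G 1 (X - ω) := DV.G_of_le (by rw [hX, hω, Rat.pt_ord])
  have hoX : (Rat.pt w).ord X = 0 := by
    apply BaseM.ord_zero_of hG
    intro h1
    have h2 := h1.sub hd
    rw [sub_sub_cancel] at h2
    exact (Rat.pt w).not_G_const hw h2
  have hval : (ω - 1) * (ω + 3) ^ 3 = 16 * ω ^ 3 * algebraMap k (RatFunc k) b := by
    have := congrArg (algebraMap k (RatFunc k)) h
    simp only [map_mul, map_pow, map_sub, map_add, map_one, map_ofNat] at this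
    rw [hω]
    exact this.symm
  -- `16 X ^ 3 (al - b)`
  have key : al k - algebraMap k (RatFunc k) b = algebraMap k (RatFunc k) (16)⁻¹ *
      ((X - ω) * ((X + 3) ^ 3 + (ω - 1) * ((X + 3) ^ 2 + (X + 3) * (ω + 3) + (ω + 3) ^ 2) -
        16 * algebraMap k (RatFunc k) b * (X ^ 2 + X * ω + ω ^ 2))) * (X ^ 3)⁻¹ := by
    rw [al, map_inv₀, map_neg, map_one, map_zero, map_ofNat, map_ofNat, sub_zero, ← hX]
    field_simp
    linear_combination hval
  rw [key]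
  have hinv : (Rat.pt w).G 0 (X ^ 3)⁻¹ := DV.G_of_le (by
    rw [DV.ord_inv _ (pow_ne_zero 3 hX0), DV.ord_pow _ hX0, hoX]
    norm_num)
  have h3 : (Rat.pt w).G 0 (3 : RatFunc k) := by
    have := DV.G_const (Rat.pt w) (3 : k)
    rwa [map_ofNat] at this
  have h16' : (Rat.pt w).G 0 (16 : RatFunc k) := by
    have := DV.G_const (Rat.pt w) (16 : k)
    rwa [map_ofNat] at this
  have g3 := hG.add h3
  have g3' := hGω.add h3
  have hb : (Rat.pt w).G 0 (algebraMap k (RatFunc k) b) := DV.G_const _ b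
  have hsum : (Rat.pt w).G 0 ((X + 3) ^ 3 + (ω - 1) * ((X + 3) ^ 2 + (X + 3) * (ω + 3) +
      (ω + 3) ^ 2) - 16 * algebraMap k (RatFunc k) b * (X ^ 2 + X * ω + ω ^ 2)) := by
    have e1 := (g3.pow 3).mono (show (0 : ℤ) ≤ _ by norm_num)
    have e2 := (g3.pow 2).mono (show (0 : ℤ) ≤ _ by norm_num)
    have e3 := (g3'.pow 2).mono (show (0 : ℤ) ≤ _ by norm_num)
    have e4 := (hG.pow 2).mono (show (0 : ℤ) ≤ _ by norm_num)
    have e5 := (hGω.pow 2).mono (show (0 : ℤ) ≤ _ by norm_num)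
    have e6 := (g3.mul g3').mono (show (0 : ℤ) ≤ _ by norm_num)
    have e7 := (hG.mul hGω).mono (show (0 : ℤ) ≤ _ by norm_num)
    have e8 := ((hGω.sub DV.G_one).mul ((e2.add e6).add e3)).mono (show (0 : ℤ) ≤ _ by norm_num)
    have e9 := ((h16'.mul hb).mul ((e4.add e7).add e5)).mono (show (0 : ℤ) ≤ _ by norm_num)
    exact (e1.add e8).sub e9
  have hc : (Rat.pt w).G 0 (algebraMap k (RatFunc k) (16)⁻¹) := DV.G_const _ _
  exact ((hc.mul (hd.mul hsum)).mul hinv).mono (by norm_num)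

end BaseQ

open BaseQ in
/-- **the base of the cubic steps**: `x ^ 4 = (W - 1) (W + 3) ^ 3 / (16 W ^ 3)` -/
theorem baseQ {p : ℕ} [Fact p.Prime] (hp : 3 < p) {k : Type} [Field k] [Finite k] [CharP k p]
    {S W3 : Finset k} (hS : SSet S) (hW : WSet S W3) :
    ∃ (K : Type) (_ : Field K) (_ : Algebra k K) (x W : K) (g D B C M : ℕ),
      2 * g + D ≤ 18 ∧ LvQ p k K S W3 x W g D (4 * W3.card) B C M := by
  classical
  have hnat : ∀ n : ℕ, 0 < n → n < p → ((n : ℕ) : k) ≠ 0 := fun n h1 h2 h => by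
    have := (CharP.cast_eq_zero_iff k p n).1 h
    exact absurd (Nat.le_of_dvd h1 this) (by omega)
  have k2 : (2 : k) ≠ 0 := by exact_mod_cast hnat 2 (by omega) (by omega)
  have k3 : (3 : k) ≠ 0 := by exact_mod_cast hnat 3 (by omega) (by omega)
  have k16 : (16 : k) ≠ 0 := by
    have : (16 : k) = 2 ^ 4 := by norm_num
    rw [this]
    exact pow_ne_zero 4 k2
  have k4 : (4 : k) ≠ 0 := by
    have : (4 : k) = 2 ^ 2 := by norm_num
    rw [this]
    exact pow_ne_zero 2 k2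
  have L0 : Lv0 p k (RatFunc k) 0 0 0 1 := ⟨Rat.isFF k, Rat.cv, Se.base k k2, HasPlO.base k⟩
  set O : Finset (DV (RatFunc k)) := {Rat.inf k, Rat.pt 0, Rat.pt 1, Rat.pt (-3)} with hOdef
  set A : Finset (DV (RatFunc k)) := {Rat.pt (-1), Rat.pt 3} with hAdef
  have memO : ∀ v, v ∈ O ↔ v = Rat.inf k ∨ v = Rat.pt 0 ∨ v = Rat.pt 1 ∨ v = Rat.pt (-3) := by
    intro v
    rw [hOdef]
    simp only [Finset.mem_insert, Finset.mem_singleton]
  have memA : ∀ v, v ∈ A ↔ v = Rat.pt (-1) ∨ v = Rat.pt 3 := by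
    intro v
    rw [hAdef]
    simp only [Finset.mem_insert, Finset.mem_singleton]
  -- distinct constants
  have d1 : (0 : k) ≠ 1 := zero_ne_one
  have d2 : (0 : k) ≠ -3 := fun h => k3 (by linear_combination h)
  have d3 : (1 : k) ≠ -3 := fun h => k4 (by linear_combination h)
  have ptne : ∀ {a b : k}, a ≠ b → Rat.pt a ≠ Rat.pt b := fun h h' => h (Rat.pt_injective h')
  have hOc : O.card ≤ 4 := Finset.card_le_four
  have hAa : ∑ v ∈ A, v.deg (Nat.card k) ≤ 2 := by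
    have h1 : ∀ v ∈ A, v.deg (Nat.card k) = 1 := by
      intro v hv
      rcases (memA v).1 hv with rfl | rfl
      · exact Rat.deg_pt _
      · exact Rat.deg_pt _
    rw [Finset.sum_congr rfl h1, Finset.sum_const, smul_eq_mul, mul_one]
    exact Finset.card_le_two
  have o0 : (Rat.pt (0 : k)).ord (al k) = -3 := by
    rw [al_ord k16, BaseM.rat_ord (Rat.pt_ne_inf _), BaseM.rat_ord (Rat.pt_ne_inf _),
      BaseM.rat_ord (Rat.pt_ne_inf _), if_neg (ptne d1), if_neg (ptne d2), if_pos rfl]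
    norm_num
  have hO : ∀ v ∈ O, v.Rat k ∧ Odd (v.ord (al k)) := by
    intro v hv
    rcases (memO v).1 hv with rfl | rfl | rfl | rfl
    · refine ⟨Rat.inf_rat, ?_⟩
      rw [al_ord k16, BaseM.inf_ord_sub, BaseM.inf_ord_sub, BaseM.inf_ord_sub]
      decide
    · refine ⟨Rat.pt_rat _, ?_⟩
      rw [o0]
      decide
    · refine ⟨Rat.pt_rat _, ?_⟩
      rw [al_ord k16, BaseM.rat_ord (Rat.pt_ne_inf _), BaseM.rat_ord (Rat.pt_ne_inf _),
        BaseM.rat_ord (Rat.pt_ne_inf _), if_pos rfl, if_neg (ptne d3), if_neg (ptne d1.symm)]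
      decide
    · refine ⟨Rat.pt_rat _, ?_⟩
      rw [al_ord k16, BaseM.rat_ord (Rat.pt_ne_inf _), BaseM.rat_ord (Rat.pt_ne_inf _),
        BaseM.rat_ord (Rat.pt_ne_inf _), if_neg (ptne d3.symm), if_pos rfl,
        if_neg (ptne d2.symm)]
      decide
  have ordz : ∀ (v : DV (RatFunc k)) (a : k), v ≠ Rat.inf k → v ≠ Rat.pt a →
      v.ord (RatFunc.X - algebraMap k (RatFunc k) a) = 0 := by
    intro v a h1 h2
    rw [BaseM.rat_ord h1, if_neg h2]
  have hO0 : ∀ v : DV (RatFunc k), v ∉ O → v.ord (al k) = 0 := by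
    intro v hv
    rw [memO, not_or, not_or, not_or] at hv
    obtain ⟨h1, h2, h3, h4⟩ := hv
    rw [al_ord k16, ordz v 1 h1 h3, ordz v (-3) h1 h4, ordz v 0 h1 h2]
    norm_num
  have hA0 : ∀ v : DV (RatFunc k), v ∉ O → v ∉ A → v.ord (al k - 1) = 0 := by
    intro v hv hv'
    rw [memO, not_or, not_or, not_or] at hv
    rw [memA, not_or] at hv'
    obtain ⟨h1, h2, h3, h4⟩ := hv
    obtain ⟨h5, h6⟩ := hv'
    rw [al_sub_one_ord k16, ordz v (-1) h1 h5, ordz v 3 h1 h6, ordz v 0 h1 h2]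
    norm_num
  have hRO : Rat.pt (0 : k) ∈ O := (memO _).2 (Or.inr (Or.inl rfl))
  obtain ⟨K, i1, i2, φ, x, g, B, C, M, D, R, L, hg, hD, hR, hRx, hRφ, hφ, hpt⟩ :=
    base_steps (p := p) (by omega) L0 hOc hO hRO hAa hO0 hA0 (al_ne_one k16)
  have hX0 : (Rat.pt (0 : k)).ord RatFunc.X = 1 := by
    have := Rat.pt_ord (0 : k)
    rwa [map_zero, sub_zero] at this
  have hφX : ∀ a : k, φ RatFunc.X - algebraMap k K a =
      φ (RatFunc.X - algebraMap k (RatFunc k) a) := fun a => by rw [map_sub, hφ]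
  have hun : ∀ (v : DV K), v ∉ D → ∀ a : k, (a = 0 ∨ a = 1 ∨ a = -1 ∨ a = 3 ∨ a = -3) →
      v.ord (φ RatFunc.X - algebraMap k K a) = 0 ∧ φ RatFunc.X - algebraMap k K a ≠ 0 := by
    intro v hv a ha
    rw [hφX]
    refine ⟨(hD v hv).2 _ (BaseM.X_sub_ne a) fun w hw hw' => ?_,
      (map_ne_zero_iff φ φ.injective).2 (BaseM.X_sub_ne a)⟩
    rw [memO, not_or, not_or, not_or] at hw
    rw [memA, not_or] at hw'
    obtain ⟨h1, h2, h3, h4⟩ := hw
    obtain ⟨h5, h6⟩ := hw'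
    refine ordz w a h1 ?_
    rcases ha with rfl | rfl | rfl | rfl | rfl
    · exact h2
    · exact h3
    · exact h5
    · exact h6
    · exact h4
  refine ⟨K, i1, i2, x, φ RatFunc.X, g, ∑ v ∈ D, v.deg (Nat.card k), B, C, M, by omega,
    ⟨L.ff, L.cv, ⟨D, fun v hv => ⟨(hD v hv).1, ?_⟩, le_rfl⟩, ⟨R, hR, ?_, ?_, ?_, ?_⟩, ?_, L.pl⟩⟩
  · obtain ⟨a1, b1⟩ := hun v hv 0 (by tauto)
    obtain ⟨a2, b2⟩ := hun v hv 1 (by tauto)
    obtain ⟨a3, b3⟩ := hun v hv (-1) (by tauto)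
    obtain ⟨a4, b4⟩ := hun v hv 3 (by tauto)
    obtain ⟨a5, b5⟩ := hun v hv (-3) (by tauto)
    rw [map_zero, sub_zero] at a1 b1
    rw [map_one] at a2 b2
    rw [map_neg, map_one, sub_neg_eq_add] at a3 b3
    rw [map_ofNat] at a4 b4
    rw [map_neg, map_ofNat, sub_neg_eq_add] at a5 b5
    exact ⟨a1, a2, a3, a4, a5, b1, b2, b3, b4, b5⟩
  · rw [hRx, o0]
    norm_num
  · rw [hRx, o0]
    decide
  · rw [hRφ, hX0]
    norm_num
  · rw [hRφ, hX0]
    norm_num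
  · -- the points
    have hA : ∀ w : k, ∃ T : Finset k, w ∈ W3 → T ⊆ S ∧ T.card = 4 ∧
        ∀ a ∈ T, 16 * w ^ 3 * a ^ 4 = (w - 1) * (w + 3) ^ 3 := by
      intro w
      by_cases h : w ∈ W3
      · obtain ⟨T, hT⟩ := hW.al w h
        exact ⟨T, fun _ => hT⟩
      · exact ⟨∅, fun h' => absurd h' h⟩
    choose Tf hTf using hA
    have hpl : ∀ q : Σ _ : k, k, ∃ z : DV K, (q.1 ∈ W3 ∧ q.2 ∈ Tf q.1) → z.Rat k ∧
        z.G 1 (x - algebraMap k K q.2) ∧ z.G 1 (φ RatFunc.X - algebraMap k K q.1) := by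
      rintro ⟨w, a⟩
      by_cases h : w ∈ W3 ∧ a ∈ Tf w
      · obtain ⟨hTS, -, hTa⟩ := hTf w h.1
        have ha0 := (hS.ne a (hTS h.2)).1
        obtain ⟨z, hz, hzx, e, he, hze⟩ := hpt (Rat.pt w) (Rat.pt_rat w) a ha0
          (al_pt k16 (hW.ne w h.1).1 (hTa a h.2))
        refine ⟨z, fun _ => ⟨hz, hzx, ?_⟩⟩
        rw [hφX]
        refine DV.G_of_le ?_
        rw [hze _ (BaseM.X_sub_ne w), Rat.pt_ord]
        omega
      · exact ⟨R, fun h' => absurd h' h⟩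
    choose G hG using hpl
    refine ⟨(W3.sigma Tf).image G, ?_, ?_⟩
    · rw [Finset.card_image_of_injOn, Finset.card_sigma]
      · calc 4 * W3.card = ∑ _w ∈ W3, 4 := by rw [Finset.sum_const, smul_eq_mul, mul_comm]
          _ ≤ ∑ w ∈ W3, (Tf w).card := Finset.sum_le_sum fun w hw => (hTf w hw).2.1.ge
      · rintro ⟨w, a⟩ hq ⟨w', a'⟩ hq' he
        simp only [Finset.coe_sigma, Set.mem_sigma_iff, Finset.mem_coe] at hq hq'
        obtain ⟨-, h1, h2⟩ := hG ⟨w, a⟩ hq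
        obtain ⟨-, h1', h2'⟩ := hG ⟨w', a'⟩ hq'
        rw [← he] at h1' h2'
        have e1 : a = a' := BaseM.const_inj h1 h1'
        have e2 : w = w' := BaseM.const_inj h2 h2'
        rw [e1, e2]
    · intro z hz
      rw [Finset.mem_image] at hz
      obtain ⟨q, hq, rfl⟩ := hz
      rw [Finset.mem_sigma] at hq
      have h := hG q hq
      exact ⟨h.1, ⟨q.2, (hTf q.1 hq.1).1 hq.2, h.2.1⟩, ⟨q.1, hq.1, h.2.2⟩⟩

end Pool.Agent.FF
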