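import Pool.Agent.FO.BaseL

/-! # Two quadratic steps `y ^ 2 = l`, `x ^ 2 = y`, with the functions of the bottom curve -/

set_option autoImplicit false

namespace Pool.Agent.FF

theorem base_steps {p : ℕ} [Fact p.Prime] (hp : p ≠ 2) {k : Type} [Field k] [Finite k]
    [CharP k p] {K : Type} [Field K] [Algebra k K] {g r a B C M : ℕ} (L : Lv0 p k K g B C M)
    {l : K} {O A : Finset (DV K)} (hOc : O.card ≤ r) (hO : ∀ v ∈ O, v.Rat k ∧ Odd (v.ord l))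
    {R : DV K} (hRO : R ∈ O) (hAa : ∑ v ∈ A, v.deg (Nat.card k) ≤ a)
    (hO0 : ∀ v : DV K, v ∉ O → v.ord l = 0)
    (hA0 : ∀ v : DV K, v ∉ O → v ∉ A → v.ord (l - 1) = 0) (hne1 : l ≠ 1) :
    ∃ (K' : Type) (_ : Field K') (_ : Algebra k K') (φ : K →+* K') (x : K') (g' B' C' M' : ℕ)
      (D : Finset (DV K')) (R' : DV K'), Lv0 p k K' g' B' C' M' ∧
      2 * g' + ∑ v ∈ D, v.deg (Nat.card k) + 6 ≤ 8 * g + 4 * r + 4 * a ∧
      (∀ z, z ∉ D → UO z x ∧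
        ∀ u : K, u ≠ 0 → (∀ v, v ∉ O → v ∉ A → v.ord u = 0) → z.ord (φ u) = 0) ∧
      R'.Rat k ∧ R'.ord x = R.ord l ∧ (∀ u : K, R'.ord (φ u) = 4 * R.ord u) ∧
      (∀ c : k, φ (algebraMap k K c) = algebraMap k K' c) ∧
      ∀ v : DV K, v.Rat k → ∀ α : k, α ≠ 0 → v.G 1 (l - algebraMap k K (α ^ 4)) →
        ∃ z : DV K', z.Rat k ∧ z.G 1 (x - algebraMap k K' α) ∧
          ∃ e : ℤ, 0 < e ∧ ∀ u : K, u ≠ 0 → z.ord (φ u) = e * v.ord u := by
  classical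
  have hl1 : l - 1 ≠ 0 := sub_ne_zero.2 hne1
  have hOdeg : ∑ v ∈ O, v.deg (Nat.card k) ≤ r := by
    rw [Finset.sum_congr rfl fun v hv => (hO v hv).1.deg_eq_one, Finset.sum_const, smul_eq_mul,
      mul_one]
    exact hOc
  -- the first step
  obtain ⟨K2, _, _, _, _, Q1, g2, B2, C2, M2, hg2, L2⟩ := Lv0.up hp L (f := l) (hO R hRO).1
    (hO R hRO).2 (O := O) (fun v hv => by
      by_contra hc
      rw [hO0 v hc] at hv
      exact absurd hv (by decide)) hOdeg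
  obtain ⟨O2, hO2, hO2d⟩ := Q1.fibres_odd L.cv O fun v hv => (hO v hv).2
  obtain ⟨A2, hA2, hA2d⟩ := Q1.fibres L.cv A
  have ordO2 : ∀ (v : DV K) (w : DV K2), v ∈ O → Over w v →
      w.ord Q1.y = v.ord l ∧ w.Rat k := by
    intro v w hv hw
    obtain ⟨w', -, huniq, -, hy, hres⟩ := Q1.odd_over (k := k) (hO v hv).2
    rw [huniq w hw]
    exact ⟨hy, Qd.rat_of_resCard (K := K) (hO v hv).1 hres⟩
  have ordn2 : ∀ w : DV K2, w ∉ O2 → w.ord Q1.y = 0 := by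
    intro w hw
    obtain ⟨v, hv⟩ := Q1.exists_over w
    have hvO : v ∉ O := fun h => hw ((hO2 w).2 ⟨v, h, hv⟩)
    have h1 := BaseL.ord_y' (k := k) Q1 (v := v) (by rw [hO0 v hvO]; decide) hv
    rw [hO0 v hvO] at h1
    omega
  obtain ⟨R2, hR2, -, hR2e, -⟩ := Q1.odd_over (k := k) (hO R hRO).2
  obtain ⟨hR2y, hR2r⟩ := ordO2 R R2 hRO hR2
  have hoddu : ∀ w : DV K2, w ∈ O2 → Odd (w.ord Q1.y) := by
    intro w hw
    obtain ⟨v, hv, hwv⟩ := (hO2 w).1 hw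
    rw [(ordO2 v w hv hwv).1]
    exact (hO v hv).2
  -- the second step
  obtain ⟨K3, _, _, _, _, Q2, g3, B3, C3, M3, hg3, L3⟩ := Lv0.up hp L2 (f := Q1.y) hR2r
    (by rw [hR2y]; exact (hO R hRO).2) (O := O2) (fun w hw => by
      by_contra hc
      rw [ordn2 w hc] at hw
      exact absurd hw (by decide)) (hO2d.trans hOdeg)
  obtain ⟨O3, hO3, hO3d⟩ := Q2.fibres_odd L2.cv O2 hoddu
  obtain ⟨A3, hA3, hA3d⟩ := Q2.fibres L2.cv A2
  obtain ⟨R3, hR3, -, hR3e, hR3y, hR3r⟩ :=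
    Q2.odd_over (k := k) (hoddu R2 ((hO2 R2).2 ⟨R, hRO, hR2⟩))
  have hR3rat : R3.Rat k := Qd.rat_of_resCard (K := K2) hR2r hR3r
  have hR3ord : R3.ord Q2.y = R.ord l := by rw [hR3y, hR2y]
  have hy0 : Q2.y ≠ 0 := by
    intro h
    rw [h, DV.ord_zero] at hR3ord
    have := (hO R hRO).2
    rw [← hR3ord] at this
    exact absurd this (by decide)
  have hy4 : Q2.y ^ 4 - 1 = algebraMap K2 K3 (algebraMap K K2 (l - 1)) := by
    have h1 := Q2.sq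
    have h2 := congrArg (algebraMap K2 K3) Q1.sq
    rw [map_pow, ← h1] at h2
    rw [map_sub, map_sub, map_one, map_one, ← h2]
    ring
  have hne4 : Q2.y ^ 4 - 1 ≠ 0 := by
    rw [hy4]
    exact map_ne_zero' (map_ne_zero' hl1)
  have hfac : Q2.y ^ 4 - 1 = (Q2.y - 1) * ((Q2.y + 1) * (Q2.y ^ 2 + 1)) := by ring
  have hn1 : Q2.y - 1 ≠ 0 := fun h => hne4 (by rw [hfac, h, zero_mul])
  have hn2 : Q2.y + 1 ≠ 0 := fun h => hne4 (by rw [hfac, h, zero_mul, mul_zero])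
  have hn3 : Q2.y ^ 2 + 1 ≠ 0 := fun h => hne4 (by rw [hfac, h, mul_zero, mul_zero])
  refine ⟨K3, inferInstance, inferInstance, (algebraMap K2 K3).comp (algebraMap K K2), Q2.y, g3,
    B3, C3, M3, O3 ∪ A3, R3, L3, ?_, ?_, hR3rat, hR3ord, ?_, ?_, ?_⟩
  · have h1 : ∑ v ∈ O3 ∪ A3, v.deg (Nat.card k) ≤
        ∑ v ∈ O3, v.deg (Nat.card k) + ∑ v ∈ A3, v.deg (Nat.card k) := by
      rw [← Finset.sum_union_inter]
      exact Nat.le_add_right _ _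
    omega
  · intro z hz
    rw [Finset.mem_union, not_or] at hz
    obtain ⟨hzO, hzA⟩ := hz
    obtain ⟨w, hw⟩ := Q2.exists_over z
    obtain ⟨v, hv⟩ := Q1.exists_over w
    have hwO : w ∉ O2 := fun h => hzO ((hO3 z).2 ⟨w, h, hw⟩)
    have hwA : w ∉ A2 := fun h => hzA ((hA3 z).2 ⟨w, h, hw⟩)
    have hvO : v ∉ O := fun h => hwO ((hO2 w).2 ⟨v, h, hv⟩)
    have hvA : v ∉ A := fun h => hwA ((hA2 w).2 ⟨v, h, hv⟩)
    have hu := ordn2 w hwO
    have h3 := BaseL.ord_y' (k := k) Q2 (v := w) (by rw [hu]; decide) hw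
    rw [hu] at h3
    have hox : z.ord Q2.y = 0 := by omega
    obtain ⟨e, he, h5⟩ := BaseL.Over.trans' hv hw
    have ho4 : z.ord (Q2.y ^ 4 - 1) = 0 := by
      rw [hy4, h5 _ hl1, hA0 v hvO hvA, mul_zero]
    rw [hfac, z.ord_mul _ _ hn1 (mul_ne_zero hn2 hn3), z.ord_mul _ _ hn2 hn3] at ho4
    have hG : z.G 0 Q2.y := DV.G_of_le hox.ge
    have g1 := (hG.sub DV.G_one).le hn1
    have g2 := (hG.add DV.G_one).le hn2
    have g3 := (((hG.pow 2).mono (by norm_num)).add DV.G_one : z.G 0 (Q2.y ^ 2 + 1)).le hn3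
    refine ⟨⟨hox, by omega, by omega, by omega, hy0, hn1, hn2, hn3⟩, fun u hu hu0 => ?_⟩
    rw [RingHom.comp_apply, h5 u hu, hu0 v hvO hvA, mul_zero]
  · intro u
    rw [RingHom.comp_apply, hR3e, hR2e]
    ring
  · intro c
    rw [RingHom.comp_apply, ← IsScalarTower.algebraMap_apply k K K2,
      ← IsScalarTower.algebraMap_apply k K2 K3]
  · intro v hv α hα hvl
    obtain ⟨w, hw, hwr, hwy⟩ := Q1.lift hv (c := α ^ 2) (by
      rw [← map_pow, ← pow_mul]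
      exact hvl) (Or.inl (pow_ne_zero 2 hα))
    obtain ⟨z, hz, hzr, hzy⟩ := Q2.lift hwr (c := α) (by
      rw [← map_pow]
      exact hwy) (Or.inl hα)
    obtain ⟨e, he, h5⟩ := BaseL.Over.trans' hw hz
    exact ⟨z, hzr, hzy, e, he, fun u hu => by rw [RingHom.comp_apply, h5 u hu]⟩

end Pool.Agent.FF
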