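import Pool.Agent.FF.EB
import Pool.Agent.FF.EBEnt

/-!
# Upper bounds for the minimum distance of arbitrary binary codes, in blocks; selection of a pair
-/

set_option autoImplicit false

namespace Pool.Agent.FF

open Finset

/-- Every family of `2 ^ κ` binary words of length `N` contains two (with different indices) at
distance at most `v`. -/
def BlkFN (N κ v : ℕ) : Prop :=
  ∀ (ι : Type) [Fintype ι] [DecidableEq ι], Fintype.card ι = N →
    ∀ (α : Type) [Fintype α] (f : α → ι → ZMod 2), 2 ^ κ ≤ Fintype.card α →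
      ∃ a b : α, a ≠ b ∧ hammingDist (f a) (f b) ≤ v

/-- In blocks of `B` letters, `κ` bits and distance about `u`. -/
def BlkF (B κ : ℕ) (u : ℝ) : Prop :=
  ∀ η : ℝ, 0 < η → ∃ n₀ : ℕ, ∀ n ≥ n₀, ∃ v : ℕ, (v : ℝ) ≤ (u + η) * n ∧ BlkFN (B * n) (κ * n) v

/-- **The Elias-Bassalygo bound.** -/
theorem blkF_eb {B a κ : ℕ} (ha : 0 < a) (hB : 2 * a ≤ B)
    (h : 2 ^ B * a ^ a * (B - a) ^ (B - a) < 2 ^ κ * B ^ B) :
    BlkF B κ (2 * a * ((B : ℝ) - a) / B) := by
  classical
  intro η hη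
  have hBa : (0 : ℝ) ≤ (B : ℝ) - a := by
    have : ((a : ℕ) : ℝ) ≤ (B : ℕ) := by exact_mod_cast (by omega : a ≤ B)
    linarith
  have hB0 : (0 : ℝ) < B := by exact_mod_cast (by omega : 0 < B)
  set u : ℝ := 2 * a * ((B : ℝ) - a) / B with hu
  have hu0 : 0 ≤ u := by positivity
  obtain ⟨M, hM2, hM⟩ : ∃ M : ℕ, 2 ≤ M ∧ u ≤ ((M : ℝ) - 1) * η := by
    obtain ⟨n, hn⟩ := exists_nat_ge (u / η)
    refine ⟨n + 2, by omega, ?_⟩
    rw [div_le_iff₀ hη] at hn
    push_cast
    have h1 : ((n : ℝ) + 2 - 1) * η = n * η + η := by ring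
    rw [h1]
    linarith
  have hM1 : (0 : ℝ) < (M : ℝ) - 1 := by
    have : ((2 : ℕ) : ℝ) ≤ (M : ℕ) := by exact_mod_cast hM2
    push_cast at this
    linarith
  obtain ⟨n₀, hn₀⟩ := EBEnt.ball_block B a κ ha hB h M
  refine ⟨max n₀ 1, fun n hn => ⟨⌊(u + η) * n⌋₊, Nat.floor_le (by positivity), ?_⟩⟩
  intro ι _ _ hι α _ f hα
  have hn1 : 1 ≤ n := le_trans (le_max_right _ _) hn
  have h1 := hn₀ n (le_trans (le_max_left _ _) hn) ι hι
  have hle : 2 * (a * n) ≤ Fintype.card ι := by
    rw [hι, ← mul_assoc]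
    exact Nat.mul_le_mul_right _ hB
  obtain ⟨x, -, y, -, hxy, h2⟩ := eb_exists (ι := ι) (univ : Finset α) f (a * n) M hM2
    hle (by
      rw [hι, card_univ]
      refine h1.trans (Nat.mul_le_mul hα ?_)
      refine le_of_eq ?_
      congr 1)
  refine ⟨x, y, hxy, ?_⟩
  refine Nat.le_floor ?_
  have hsub : B * n - a * n = (B - a) * n := (Nat.sub_mul _ _ _).symm
  rw [hι, hsub] at h2
  have h4 : (((M - 1) * (B * n) * hammingDist (f x) (f y) : ℕ) : ℝ) ≤
      ((2 * M * (a * n) * ((B - a) * n) : ℕ) : ℝ) := by exact_mod_cast h2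
  push_cast [Nat.cast_sub (by omega : 1 ≤ M), Nat.cast_sub (by omega : a ≤ B)] at h4
  have hn0 : (0 : ℝ) < n := by exact_mod_cast hn1
  have hpos : 0 < ((M : ℝ) - 1) * (B * n) := by positivity
  refine le_of_mul_le_mul_left (h4.trans ?_) hpos
  have h5 : 2 * (M : ℝ) * (a * n) * (((B : ℝ) - a) * n) = (u * M) * (B * n) * n := by
    rw [hu]
    field_simp
  rw [h5]
  have h6 : u * M ≤ ((M : ℝ) - 1) * (u + η) := by
    have h7 : ((M : ℝ) - 1) * (u + η) = u * M + (((M : ℝ) - 1) * η - u) := by ring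
    rw [h7]
    linarith
  calc u * M * (B * n) * n ≤ ((M : ℝ) - 1) * (u + η) * (B * n) * n := by
        have : (0 : ℝ) ≤ B * n := by positivity
        exact mul_le_mul_of_nonneg_right (mul_le_mul_of_nonneg_right h6 this) hn0.le
    _ = _ := by ring

/-- the pigeonhole principle with a lower bound for the fibre -/
theorem exists_fibre {α β : Type*} [Fintype α] [Fintype β] [DecidableEq β] (F : α → β) {m κ : ℕ}
    (hβ : Fintype.card β ≤ 2 ^ m) (hbig : 2 ^ (m + κ) ≤ Fintype.card α) :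
    ∃ b : β, 2 ^ κ ≤ Fintype.card {a : α // F a = b} := by
  classical
  by_contra hcon
  push Not at hcon
  have hne : Nonempty β := by
    by_contra hβ'
    rw [not_nonempty_iff] at hβ'
    have h1 : IsEmpty α := ⟨fun a => hβ'.false (F a)⟩
    have h2 : Fintype.card α = 0 := Fintype.card_eq_zero
    have h3 : 0 < 2 ^ (m + κ) := by positivity
    omega
  have h1 : Fintype.card α = ∑ b : β, Fintype.card {a : α // F a = b} := by
    rw [← Fintype.card_sigma]
    exact Fintype.card_congr (Equiv.sigmaFiberEquiv F).symm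
  have h2 : Fintype.card α < ∑ _b : β, 2 ^ κ := by
    rw [h1]
    exact sum_lt_sum_of_nonempty univ_nonempty fun b _ => hcon b
  rw [sum_const, card_univ, smul_eq_mul] at h2
  have h3 : Fintype.card β * 2 ^ κ ≤ 2 ^ m * 2 ^ κ := Nat.mul_le_mul_right _ hβ
  rw [pow_add] at hbig
  omega

/-- **Selection of a pair**: the same class, the same letters at `s` chosen places, few differences
at the others. -/
theorem exists_pair_blk {ι α γ : Type} [Fintype ι] [DecidableEq ι] [Fintype α] [Fintype γ]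
    (f : α → ι → ZMod 2) (cl : α → γ) {m s N κ v : ℕ} (hγ : Fintype.card γ ≤ 2 ^ m)
    (hblk : BlkFN N κ v) (hs : s + N ≤ Fintype.card ι)
    (hbig : 2 ^ (m + s + κ) ≤ Fintype.card α) :
    ∃ a b : α, a ≠ b ∧ cl a = cl b ∧
      hammingDist (f a) (f b) ≤ (Fintype.card ι - (s + N)) + v := by
  classical
  obtain ⟨B, -, hB⟩ := Finset.exists_subset_card_eq (s := (univ : Finset ι)) (n := s)
    (by rw [card_univ]; omega)
  obtain ⟨A, hA', hA⟩ := Finset.exists_subset_card_eq (s := (univ \ B : Finset ι)) (n := N)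
    (by rw [card_sdiff_of_subset (subset_univ B), card_univ, hB]; omega)
  obtain ⟨⟨c, g⟩, hcg⟩ := exists_fibre (α := α) (β := γ × (B → ZMod 2))
    (fun a => (cl a, fun i => f a i)) (m := m + s) (κ := κ) (by
      rw [Fintype.card_prod, Fintype.card_fun, ZMod.card, Fintype.card_coe, hB, pow_add]
      exact Nat.mul_le_mul_right _ hγ) hbig
  obtain ⟨a, b, hab, hd⟩ := hblk A (by rw [Fintype.card_coe, hA])
    {a : α // (fun a => ((cl a, fun i => f a i) : γ × (B → ZMod 2))) a = (c, g)}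
    (fun a i => f a.1 i) hcg
  have ha := Prod.ext_iff.1 a.2
  have hb := Prod.ext_iff.1 b.2
  refine ⟨a.1, b.1, fun h => hab (Subtype.ext h), ha.1.trans hb.1.symm, ?_⟩
  have hBeq : ∀ i ∈ B, f a.1 i = f b.1 i := fun i hi =>
    congrFun (ha.2.trans hb.2.symm) (⟨i, hi⟩ : B)
  have h3 : (univ.filter fun i : ι => f a.1 i ≠ f b.1 i) ⊆
      (univ \ (B ∪ A)) ∪ (A.filter fun i => f a.1 i ≠ f b.1 i) := by
    intro i hi
    rw [mem_filter] at hi
    rw [mem_union, mem_sdiff, mem_union, mem_filter]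
    by_cases hiA : i ∈ A
    · exact Or.inr ⟨hiA, hi.2⟩
    · refine Or.inl ⟨mem_univ _, ?_⟩
      rintro (hiB | hiA')
      · exact hi.2 (hBeq i hiB)
      · exact hiA hiA'
  have h4 : hammingDist (fun i : A => f a.1 i) (fun i : A => f b.1 i) =
      (A.filter fun i => f a.1 i ≠ f b.1 i).card := by
    unfold hammingDist
    rw [← card_map (Function.Embedding.subtype (· ∈ A))]
    congr 1
    ext i
    simp only [mem_map, mem_filter, mem_univ, true_and, Function.Embedding.coe_subtype,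
      Subtype.exists, exists_and_right, exists_eq_right]
    constructor
    · rintro ⟨hi, h5⟩
      exact ⟨hi, h5⟩
    · rintro ⟨hi, h5⟩
      exact ⟨hi, h5⟩
  rw [h4] at hd
  unfold hammingDist
  refine (card_le_card h3).trans ((card_union_le _ _).trans (Nat.add_le_add ?_ hd))
  have hdisj : Disjoint B A := by
    rw [disjoint_left]
    intro i hi hi'
    exact (mem_sdiff.1 (hA' hi')).2 hi
  rw [card_sdiff_of_subset (subset_univ _), card_univ, card_union_of_disjoint hdisj, hA, hB]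

end Pool.Agent.FF
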