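import Pool.Agent.FO.Defs

/-! # Classes of places modulo squares -/

set_option autoImplicit false

namespace Pool.Agent.FF

section

variable {k K : Type} [Field k] [Finite k] [Field K] [Algebra k K]

/-- a function whose only pole is `R` -/
private theorem exists_pole {g : ℕ} (C : Cv k K g) {R : DV K} (hR : R.Rat k) :
    ∃ y : K, ¬ R.G 0 y ∧ ∀ v : DV K, v ≠ R → v.G 0 y := by
  by_contra hc
  push Not at hc
  have h1 := RRD.le_card_LP C (P := R) hR.deg_eq_one (g + 1)
  have hall : ∀ y : RRD.LP R (g + 1), ∃ c : k, (y : K) = algebraMap k K c := by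
    rintro ⟨y, hy⟩
    apply C.const
    intro v
    by_cases hv : v = R
    · subst hv
      by_contra h0
      obtain ⟨w, hw, hw'⟩ := hc y h0
      exact hw' (hy.2 w hw)
    · exact hy.2 v hv
  choose c hc' using hall
  have hinj : Function.Injective c := fun a b hab => Subtype.ext (by rw [hc' a, hc' b, hab])
  have h2 := Nat.card_le_card_of_injective c hinj
  have hq : 1 < Nat.card k := Finite.one_lt_card
  have h3 : Nat.card k ^ g * Nat.card (RRD.LP R (g + 1)) ≤ Nat.card k ^ (g + 1) := by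
    rw [pow_succ]
    exact Nat.mul_le_mul_left _ h2
  have h4 : Nat.card k ^ (g + 1) < Nat.card k ^ (g + 1 + 1) := Nat.pow_lt_pow_right hq (by omega)
  omega

/-- finitely many places of given degree -/
private theorem finite_deg_eq {g : ℕ} (C : Cv k K g) {R : DV K} (hR : R.Rat k) (d : ℕ)
    (hd : 1 ≤ d) : {v : DV K | v.deg (Nat.card k) = d}.Finite := by
  obtain ⟨y, hy1, hy2⟩ := exists_pole C hR
  have hq : 1 < Nat.card k := Finite.one_lt_card
  have hy0 : y ≠ 0 := DV.ne_zero_of_not_G hy1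
  have hord : R.ord y < 0 := (DV.not_G hy0).1 hy1
  have hz : y ^ (Nat.card k ^ d) - y ≠ 0 := by
    intro h0
    have h1 : y ^ (Nat.card k ^ d) = y := sub_eq_zero.1 h0
    have h2 := R.ord_pow hy0 (Nat.card k ^ d)
    rw [h1] at h2
    have h3 : (2 : ℤ) ≤ ((Nat.card k ^ d : ℕ) : ℤ) := by
      have : 1 < Nat.card k ^ d := Nat.one_lt_pow (by omega) hq
      exact_mod_cast this
    nlinarith
  refine ((Set.finite_singleton R).union (C.poles (y ^ (Nat.card k ^ d) - y)⁻¹)).subset ?_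
  intro v hv
  by_cases hvR : v = R
  · exact Or.inl hvR
  · refine Or.inr ?_
    have hres : v.resCard = Nat.card k ^ d := by
      rw [← DV.card_Res, (C.res v).2, hv]
    have h1 : v.G 1 (y ^ v.resCard - y) :=
      DV.pow_resCard v (by rw [hres]; exact pow_ne_zero _ (by omega)) (hy2 v hvR)
    rw [hres] at h1
    have h2 := h1.le hz
    show ¬ v.G 0 (y ^ (Nat.card k ^ d) - y)⁻¹
    rw [DV.not_G (inv_ne_zero hz), v.ord_inv hz]
    omega

private theorem finite_deg_le {g : ℕ} (C : Cv k K g) {R : DV K} (hR : R.Rat k) (D : ℕ) :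
    {v : DV K | v.deg (Nat.card k) ≤ D}.Finite := by
  have h1 : (⋃ d ∈ Finset.Icc 1 D, {v : DV K | v.deg (Nat.card k) = d}).Finite := by
    refine Set.Finite.biUnion (Finset.finite_toSet _) fun d hd => ?_
    exact finite_deg_eq C hR d (Finset.mem_Icc.1 hd).1
  refine h1.subset fun v hv => ?_
  simp only [Set.mem_iUnion]
  exact ⟨v.deg (Nat.card k), Finset.mem_Icc.2 ⟨(C.res v).1, hv⟩, rfl⟩

/-- finitely many effective divisors of given degree -/
private theorem finite_eff {g : ℕ} (C : Cv k K g) {R : DV K} (hR : R.Rat k) (n : ℕ) :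
    {E : DV K →₀ ℤ | (∀ v, 0 ≤ E v) ∧ RRD.degZ k E = n}.Finite := by
  classical
  have hfin := finite_deg_le C hR n
  set S := hfin.toFinset with hS
  have hterm : ∀ E : DV K →₀ ℤ, (∀ v, 0 ≤ E v) → RRD.degZ k E = n → ∀ v,
      E v * (v.deg (Nat.card k) : ℤ) ≤ n := by
    intro E hE hn v
    by_cases hv : E v = 0
    · rw [hv, zero_mul]
      positivity
    · have h1 : E v * (v.deg (Nat.card k) : ℤ) ≤
          ∑ P ∈ E.support, E P * (P.deg (Nat.card k) : ℤ) :=
        Finset.single_le_sum (f := fun P => E P * (P.deg (Nat.card k) : ℤ))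
          (fun P _ => mul_nonneg (hE P) (by positivity)) (Finsupp.mem_support_iff.2 hv)
      exact h1.trans hn.le
  have hsub : {E : DV K →₀ ℤ | (∀ v, 0 ≤ E v) ∧ RRD.degZ k E = n} ⊆
      ((S.finsupp fun _ => Finset.Icc (0 : ℤ) n : Finset (DV K →₀ ℤ)) : Set (DV K →₀ ℤ)) := by
    rintro E ⟨hE, hn⟩
    rw [Finset.mem_coe, Finset.mem_finsupp_iff]
    refine ⟨fun v hv => ?_, fun v _ => ?_⟩
    · rw [hS, Set.Finite.mem_toFinset]
      have h1 := hterm E hE hn v
      have h2 : 1 ≤ E v := by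
        have h3 := hE v
        have h4 := Finsupp.mem_support_iff.1 hv
        omega
      have h5 : (0 : ℤ) ≤ (v.deg (Nat.card k) : ℤ) := by positivity
      have h6 : ((v.deg (Nat.card k) : ℕ) : ℤ) ≤ (n : ℤ) := by nlinarith
      exact_mod_cast h6
    · rw [Finset.mem_Icc]
      refine ⟨hE v, ?_⟩
      have h1 := hterm E hE hn v
      have h2 : (1 : ℤ) ≤ (v.deg (Nat.card k) : ℤ) := by exact_mod_cast (C.res v).1
      have h3 := hE v
      nlinarith
  exact (Finset.finite_toSet _).subset hsub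

/-- the degree as a homomorphism -/
private noncomputable def degH (k K : Type) [Field k] [Finite k] [Field K] [Algebra k K] :
    (DV K →₀ ℤ) →+ ℤ where
  toFun := RRD.degZ k
  map_zero' := RRD.degZ_zero k
  map_add' := RRD.degZ_add k

/-- principal divisors -/
private def Pr (K : Type) [Field K] : AddSubgroup (DV K →₀ ℤ) where
  carrier := {D | ∃ f : K, f ≠ 0 ∧ ∀ v, D v = v.ord f}
  zero_mem' := ⟨1, one_ne_zero, fun v => by rw [v.ord_one]; rfl⟩
  add_mem' := by
    rintro D E ⟨f, hf, hD⟩ ⟨f', hf', hE⟩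
    exact ⟨f * f', mul_ne_zero hf hf', fun v => by
      rw [Finsupp.add_apply, hD, hE, v.ord_mul _ _ hf hf']⟩
  neg_mem' := by
    rintro D ⟨f, hf, hD⟩
    exact ⟨f⁻¹, inv_ne_zero hf, fun v => by rw [Finsupp.neg_apply, hD, v.ord_inv hf]⟩

/-- the divisor classes of degree zero -/
private abbrev Pic0 (k K : Type) [Field k] [Finite k] [Field K] [Algebra k K] : Type :=
  (degH k K).ker ⧸ (Pr K).addSubgroupOf (degH k K).ker

private theorem finite_pic {g : ℕ} (C : Cv k K g) {R : DV K} (hR : R.Rat k) :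
    Finite (Pic0 k K) := by
  classical
  have hfin := finite_eff C hR g
  have hdR : RRD.degZ k (Finsupp.single R (g : ℤ)) = g := by
    rw [RRD.degZ_single]
    have : RRD.deg k R = 1 := hR.deg_eq_one
    rw [this]
    simp
  have hmem : ∀ E : {E : DV K →₀ ℤ | (∀ v, 0 ≤ E v) ∧ RRD.degZ k E = g},
      (E : DV K →₀ ℤ) - Finsupp.single R (g : ℤ) ∈ (degH k K).ker := by
    rintro ⟨E, hE, hn⟩
    rw [AddMonoidHom.mem_ker, map_sub]
    show RRD.degZ k E - RRD.degZ k (Finsupp.single R (g : ℤ)) = 0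
    rw [hn, hdR, sub_self]
  have : Finite {E : DV K →₀ ℤ | (∀ v, 0 ≤ E v) ∧ RRD.degZ k E = g} := hfin
  refine Finite.of_surjective
    (fun E : {E : DV K →₀ ℤ | (∀ v, 0 ≤ E v) ∧ RRD.degZ k E = g} =>
      (QuotientAddGroup.mk ⟨(E : DV K →₀ ℤ) - Finsupp.single R (g : ℤ), hmem E⟩ : Pic0 k K)) ?_
  intro c
  obtain ⟨⟨D, hD⟩, rfl⟩ := QuotientAddGroup.mk_surjective c
  have hD0 : RRD.degZ k D = 0 := hD
  -- a function
  have h1 := RRD.le_card_LInt C (-(D + Finsupp.single R (g : ℤ)))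
  have h2 : RRD.degZ k (-(D + Finsupp.single R (g : ℤ))) = -g := by
    have h3 := map_neg (degH k K) (D + Finsupp.single R (g : ℤ))
    have h4 := map_add (degH k K) D (Finsupp.single R (g : ℤ))
    change RRD.degZ k (-(D + Finsupp.single R (g : ℤ))) = _ at h3
    change RRD.degZ k (D + Finsupp.single R (g : ℤ)) = RRD.degZ k D + RRD.degZ k _ at h4
    rw [h3]
    change -(RRD.degZ k (D + Finsupp.single R (g : ℤ))) = _
    rw [h4, hD0, hdR, zero_add]
  rw [h2] at h1
  have h5 : (1 - (g : ℤ) - -(g : ℤ)) = 1 := by ring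
  rw [h5, zpow_one] at h1
  have h6 : Nat.card k ≤ Nat.card (RRD.LInt
      ((-(D + Finsupp.single R (g : ℤ)) : DV K →₀ ℤ) : DV K → ℤ)) := by exact_mod_cast h1
  have hq : 1 < Nat.card k := Finite.one_lt_card
  have hfin' : Finite (RRD.LInt
      ((-(D + Finsupp.single R (g : ℤ)) : DV K →₀ ℤ) : DV K → ℤ)) :=
    Nat.finite_of_card_ne_zero (by omega)
  obtain ⟨⟨f, hf⟩, hf0⟩ : ∃ f : RRD.LInt
      ((-(D + Finsupp.single R (g : ℤ)) : DV K →₀ ℤ) : DV K → ℤ), f ≠ 0 := by
    have : Nontrivial (RRD.LInt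
      ((-(D + Finsupp.single R (g : ℤ)) : DV K →₀ ℤ) : DV K → ℤ)) :=
      Finite.one_lt_card_iff_nontrivial.1 (by omega)
    exact exists_ne 0
  have hf0' : f ≠ 0 := fun h => hf0 (Subtype.ext h)
  refine ⟨⟨D + Finsupp.single R (g : ℤ) + RRD.divF k C f hf0', ?_, ?_⟩, ?_⟩
  · intro v
    have h7 := (hf v).le hf0'
    rw [Finsupp.add_apply, RRD.divF_apply]
    rw [Finsupp.neg_apply] at h7
    omega
  · have h7 := RRD.degZ_divF C hf0'
    rw [RRD.degZ_add, RRD.degZ_add, h7, hD0, hdR]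
    ring
  · rw [QuotientAddGroup.eq, AddSubgroup.mem_addSubgroupOf]
    refine ⟨f⁻¹, inv_ne_zero hf0', fun v => ?_⟩
    simp only [AddSubgroup.coe_add, AddSubgroup.coe_neg, Finsupp.add_apply, Finsupp.neg_apply,
      Finsupp.sub_apply, RRD.divF_apply, v.ord_inv hf0']
    ring

/-- a nonsquare constant -/
private theorem exists_nonsq (h2 : (2 : k) ≠ 0) : ∃ ε : k, ε ≠ 0 ∧ ∀ c : k, c ^ 2 ≠ ε := by
  have hchar : ringChar k ≠ 2 := by
    intro h
    apply h2
    have := ringChar.Nat.cast_ringChar (R := k)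
    rw [h] at this
    exact_mod_cast this
  have := Fintype.ofFinite k
  obtain ⟨ε, hε⟩ := FiniteField.exists_nonsquare hchar
  refine ⟨ε, ?_, ?_⟩
  · rintro rfl
    exact hε ⟨0, by simp⟩
  · intro c hc
    exact hε ⟨c, by rw [← hc, sq]⟩

/-- the classes killed by two -/
private theorem card_ker {g n : ℕ} (h2 : (2 : k) ≠ 0) (C : Cv k K g) {R : DV K} (hR : R.Rat k)
    (hS : Se K (n + 1)) : Nat.card (nsmulAddMonoidHom (α := Pic0 k K) 2).ker ≤ 2 ^ n := by
  classical
  have hfin := finite_pic C hR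
  obtain ⟨ε, hε0, hε⟩ := exists_nonsq h2
  by_contra hcon
  push Not at hcon
  -- lift of a class killed by two
  have hlift : ∀ c : (nsmulAddMonoidHom (α := Pic0 k K) 2).ker, ∃ (D : (degH k K).ker) (f : K),
      QuotientAddGroup.mk D = (c : Pic0 k K) ∧ f ≠ 0 ∧ ∀ v, v.ord f = 2 * (D : DV K →₀ ℤ) v := by
    rintro ⟨c, hc⟩
    obtain ⟨D, rfl⟩ := QuotientAddGroup.mk_surjective c
    have h1 : (2 : ℕ) • (QuotientAddGroup.mk D : Pic0 k K) = 0 := hc
    rw [← QuotientAddGroup.mk_nsmul, QuotientAddGroup.eq_zero_iff,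
      AddSubgroup.mem_addSubgroupOf] at h1
    obtain ⟨f, hf, hv⟩ := h1
    refine ⟨D, f, rfl, hf, fun v => ?_⟩
    rw [← hv v]
    simp [two_mul, two_nsmul]
  choose D f hD hf hv using hlift
  -- the functions
  have hε' : algebraMap k K ε ≠ 0 := by rwa [Ne, map_eq_zero]
  let F : (nsmulAddMonoidHom (α := Pic0 k K) 2).ker × Bool → K := fun x =>
    if x.2 then algebraMap k K ε * f x.1 else f x.1
  have hF0 : ∀ x, F x ≠ 0 := by
    rintro ⟨c, b⟩
    cases b
    · exact hf c
    · exact mul_ne_zero hε' (hf c)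
  have hFo : ∀ x (v : DV K), v.ord (F x) = 2 * (D x.1 : DV K →₀ ℤ) v := by
    rintro ⟨c, b⟩ v
    cases b
    · exact hv c v
    · show v.ord (algebraMap k K ε * f c) = _
      rw [v.ord_mul _ _ hε' (hf c), RRD.ord_algebraMap v hε0, zero_add, hv]
  have hcard : 2 ^ (n + 1) + 1 ≤
      Nat.card ((nsmulAddMonoidHom (α := Pic0 k K) 2).ker × Bool) := by
    rw [Nat.card_prod, Nat.card_eq_fintype_card (α := Bool), Fintype.card_bool, pow_succ]
    omega
  have := Fintype.ofFinite ((nsmulAddMonoidHom (α := Pic0 k K) 2).ker × Bool)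
  obtain ⟨em⟩ : Nonempty (Fin (2 ^ (n + 1) + 1) ↪
      (nsmulAddMonoidHom (α := Pic0 k K) 2).ker × Bool) := by
    apply Function.Embedding.nonempty_of_card_le
    rw [Fintype.card_fin, ← Nat.card_eq_fintype_card]
    exact hcard
  obtain ⟨i, j, hij, b, hb, heq⟩ := hS (fun i => F (em i)) fun i =>
    ⟨hF0 _, fun v => by rw [hFo]; exact even_two_mul _⟩
  have hij' : em i ≠ em j := fun h => hij (em.injective h)
  -- the classes agree
  have hDD : ∀ v : DV K, (D (em i).1 : DV K →₀ ℤ) v = (D (em j).1 : DV K →₀ ℤ) v + v.ord b := by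
    intro v
    have h3 := congrArg v.ord heq
    rw [v.ord_mul _ _ (hF0 _) (pow_ne_zero 2 hb), v.ord_pow hb, hFo, hFo] at h3
    push_cast at h3
    omega
  have hcc : (em i).1 = (em j).1 := by
    apply Subtype.ext
    rw [← hD, ← hD, eq_comm, QuotientAddGroup.eq, AddSubgroup.mem_addSubgroupOf]
    refine ⟨b, hb, fun v => ?_⟩
    simp only [AddSubgroup.coe_add, AddSubgroup.coe_neg, Finsupp.add_apply, Finsupp.neg_apply]
    rw [hDD v]
    ring
  have hbb : ∀ v : DV K, v.ord b = 0 := by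
    intro v
    have h3 := hDD v
    rw [hcc] at h3
    omega
  obtain ⟨c0, hc0⟩ := C.const b fun v => DV.G_of_le (hbb v).ge
  -- the signs differ
  have hsg : (em i).2 ≠ (em j).2 := fun h => hij' (Prod.ext hcc h)
  have hcne : c0 ≠ 0 := by
    rintro rfl
    exact hb (by rw [hc0, map_zero])
  rcases hbi : (em i).2 with _ | _ <;> rcases hbj : (em j).2 with _ | _
  · exact hsg (by rw [hbi, hbj])
  · have h3 : f (em i).1 = algebraMap k K ε * f (em j).1 * b ^ 2 := by
      have h4 : F (em i) = f (em i).1 := by simp only [F, hbi]; rfl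
      have h5 : F (em j) = algebraMap k K ε * f (em j).1 := by simp only [F, hbj]; rfl
      rw [← h4, ← h5]
      exact heq
    rw [hcc] at h3
    have h4 : f (em j).1 * (algebraMap k K (ε * c0 ^ 2) - 1) = 0 := by
      rw [map_mul, map_pow, ← hc0]
      linear_combination -h3
    have h5 : algebraMap k K (ε * c0 ^ 2) = 1 :=
      sub_eq_zero.1 ((mul_eq_zero.1 h4).resolve_left (hf _))
    have h6 : ε * c0 ^ 2 = 1 := (algebraMap k K).injective (by rw [h5, map_one])
    apply hε c0⁻¹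
    rw [inv_pow]
    exact inv_eq_of_mul_eq_one_left h6
  · have h3 : algebraMap k K ε * f (em i).1 = f (em j).1 * b ^ 2 := by
      have h4 : F (em i) = algebraMap k K ε * f (em i).1 := by simp only [F, hbi]; rfl
      have h5 : F (em j) = f (em j).1 := by simp only [F, hbj]; rfl
      rw [← h4, ← h5]
      exact heq
    rw [hcc] at h3
    have h4 : f (em j).1 * (algebraMap k K (c0 ^ 2) - algebraMap k K ε) = 0 := by
      rw [map_pow, ← hc0]
      linear_combination -h3
    have h5 : algebraMap k K (c0 ^ 2) = algebraMap k K ε :=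
      sub_eq_zero.1 ((mul_eq_zero.1 h4).resolve_left (hf _))
    exact hε c0 ((algebraMap k K).injective h5)
  · exact hsg (by rw [hbi, hbj])

private theorem card_quot {G : Type} [AddCommGroup G] [Finite G] :
    Nat.card (G ⧸ (nsmulAddMonoidHom (α := G) 2).range) =
      Nat.card (nsmulAddMonoidHom (α := G) 2).ker := by
  have h1 := AddSubgroup.card_eq_card_quotient_mul_card_addSubgroup
    (nsmulAddMonoidHom (α := G) 2).range
  have h2 := AddSubgroup.card_eq_card_quotient_mul_card_addSubgroup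
    (nsmulAddMonoidHom (α := G) 2).ker
  have h3 : Nat.card (G ⧸ (nsmulAddMonoidHom (α := G) 2).ker) =
      Nat.card (nsmulAddMonoidHom (α := G) 2).range :=
    Nat.card_congr (QuotientAddGroup.quotientKerEquivRange _).toEquiv
  rw [h3, h1, mul_comm] at h2
  have h4 : 0 < Nat.card (nsmulAddMonoidHom (α := G) 2).range := Nat.card_pos
  exact Nat.eq_of_mul_eq_mul_left h4 h2

end

/-- places of the same class and the same degree are the odd places of a function -/
theorem exists_cl {k K : Type} [Field k] [Finite k] [Field K] [Algebra k K] (h2 : (2 : k) ≠ 0)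
    {g n : ℕ} (C : Cv k K g) {R : DV K} (hR : R.Rat k) (hS : Se K (n + 1)) :
    ∃ cl : DV K → Fin (2 ^ n), ∀ Q Q' : DV K, Q ≠ Q' → Q.deg (Nat.card k) = Q'.deg (Nat.card k) →
      cl Q = cl Q' → ∃ f : K, f ≠ 0 ∧ ∀ v : DV K, Odd (v.ord f) ↔ v = Q ∨ v = Q' := by
  classical
  have hfin := finite_pic C hR
  set H := (nsmulAddMonoidHom (α := Pic0 k K) 2).range with hH
  have hcard : Nat.card (Pic0 k K ⧸ H) ≤ 2 ^ n := by
    rw [hH, card_quot]
    exact card_ker h2 C hR hS
  have := Fintype.ofFinite (Pic0 k K ⧸ H)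
  obtain ⟨em⟩ : Nonempty ((Pic0 k K ⧸ H) ↪ Fin (2 ^ n)) := by
    apply Function.Embedding.nonempty_of_card_le
    rw [Fintype.card_fin, ← Nat.card_eq_fintype_card]
    exact hcard
  have hdeg : ∀ Q : DV K, Finsupp.single Q (1 : ℤ) -
      Finsupp.single R ((Q.deg (Nat.card k) : ℕ) : ℤ) ∈ (degH k K).ker := by
    intro Q
    rw [AddMonoidHom.mem_ker, map_sub]
    show RRD.degZ k _ - RRD.degZ k _ = 0
    rw [RRD.degZ_single, RRD.degZ_single]
    have h3 : RRD.deg k R = 1 := hR.deg_eq_one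
    rw [h3]
    simp
  refine ⟨fun Q => em (QuotientAddGroup.mk (QuotientAddGroup.mk ⟨_, hdeg Q⟩)), ?_⟩
  intro Q Q' hne hd hcl
  have h3 := em.injective hcl
  rw [QuotientAddGroup.eq] at h3
  obtain ⟨E', hE'⟩ := h3
  obtain ⟨E, rfl⟩ := QuotientAddGroup.mk_surjective E'
  have h4 : (2 : ℕ) • (QuotientAddGroup.mk E : Pic0 k K) =
      -QuotientAddGroup.mk ⟨_, hdeg Q⟩ + QuotientAddGroup.mk ⟨_, hdeg Q'⟩ := hE'
  rw [← QuotientAddGroup.mk_nsmul, ← QuotientAddGroup.mk_neg, ← QuotientAddGroup.mk_add,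
    QuotientAddGroup.eq, AddSubgroup.mem_addSubgroupOf] at h4
  obtain ⟨f, hf, hv⟩ := h4
  refine ⟨f, hf, fun v => ?_⟩
  have h5 := hv v
  simp only [AddSubgroup.coe_add, AddSubgroup.coe_neg, AddSubgroup.coe_nsmul, Finsupp.add_apply,
    Finsupp.neg_apply, Finsupp.sub_apply, Finsupp.smul_apply, hd, Finsupp.single_apply] at h5
  rw [← h5]
  by_cases h6 : Q = v
  · subst h6
    have h7 : ¬ Q' = Q := fun h => hne h.symm
    simp only [if_true, h7, if_false, true_or, iff_true]
    rw [Int.odd_iff]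
    simp only [nsmul_eq_mul, Nat.cast_ofNat]
    omega
  · by_cases h7 : Q' = v
    · subst h7
      simp only [if_true, h6, if_false, or_true, iff_true]
      rw [Int.odd_iff]
      simp only [nsmul_eq_mul, Nat.cast_ofNat]
      omega
    · have h8 : ¬ (v = Q ∨ v = Q') := by
        rintro (h | h)
        · exact h6 h.symm
        · exact h7 h.symm
      simp only [h6, h7, if_false, h8, iff_false]
      rw [Int.not_odd_iff_even, Int.even_iff]
      simp only [nsmul_eq_mul, Nat.cast_ofNat]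
      omega

end Pool.Agent.FF
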