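import Pool.Agent.FO.Quad
import Pool.Agent.FO.Cls
import Pool.Agent.FO.BlkF

/-! # The last cover -/

set_option autoImplicit false
set_option linter.unusedSectionVars false

namespace Pool.Agent.FF

/-- the leading coefficient at a rational place, modulo squares -/
theorem exists_lead {k K : Type} [Field k] [Finite k] [Field K] [Algebra k K] {P : DV K}
    (hP : P.Rat k) {f : K} (hf : f ≠ 0) (he : Even (P.ord f)) :
    ∃ (h : K) (c : k), h ≠ 0 ∧ c ≠ 0 ∧ P.G 1 (f * h ^ 2 - algebraMap k K c) := by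
  obtain ⟨m, hm⟩ := he
  obtain ⟨h, hh, hh1⟩ := P.exists_ord (-m)
  have h0 : P.ord (f * h ^ 2) = 0 := by
    rw [P.ord_mul _ _ hf (pow_ne_zero 2 hh), P.ord_pow hh, hh1, hm]
    push_cast
    ring
  obtain ⟨c, hc⟩ := hP (f * h ^ 2) (DV.G_of_le h0.ge)
  refine ⟨h, c, hh, ?_, hc⟩
  rintro rfl
  rw [map_zero, sub_zero] at hc
  have := hc.le (mul_ne_zero hf (pow_ne_zero 2 hh))
  omega

/-- in a finite field the product of two non-squares is a square -/
theorem isSquare_mul_of_iff {k : Type} [Field k] [Finite k] (h2 : (2 : k) ≠ 0) {c d : k}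
    (hc : c ≠ 0) (hd : d ≠ 0) (h : IsSquare c ↔ IsSquare d) : IsSquare (c * d) := by
  classical
  have := Fintype.ofFinite k
  have h2' : ringChar k ≠ 2 := by
    intro h3
    apply h2
    have := ringChar.spec k 2
    rw [h3] at this
    exact_mod_cast this.2 (dvd_refl 2)
  by_cases h1 : IsSquare c
  · exact h1.mul (h.1 h1)
  · have e1 := (quadraticChar_neg_one_iff_not_isSquare (F := k) (a := c)).2 h1
    have e2 := (quadraticChar_neg_one_iff_not_isSquare (F := k) (a := d)).2 (fun h3 => h1 (h.2 h3))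
    refine (quadraticChar_one_iff_isSquare (mul_ne_zero hc hd)).1 ?_
    rw [map_mul, e1, e2]
    norm_num

/-- the square of the residue of a product -/
theorem G_mul_lead {k K : Type} [Field k] [Finite k] [Field K] [Algebra k K] {P : DV K}
    {f f' h h' : K} {c c' d : k} (h1 : P.G 1 (f * h ^ 2 - algebraMap k K c))
    (h1' : P.G 1 (f' * h' ^ 2 - algebraMap k K c')) (hd : c * c' = d * d) :
    P.G 1 (f * f' * (h * h') ^ 2 - algebraMap k K d ^ 2) := by
  have e : f * f' * (h * h') ^ 2 - algebraMap k K d ^ 2 =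
      (f * h ^ 2 - algebraMap k K c) * (f' * h' ^ 2 - algebraMap k K c') +
        (f * h ^ 2 - algebraMap k K c) * algebraMap k K c' +
        algebraMap k K c * (f' * h' ^ 2 - algebraMap k K c') := by
    have e1 : algebraMap k K d ^ 2 = algebraMap k K c * algebraMap k K c' := by
      rw [← map_mul, hd, map_mul, sq]
    rw [e1]
    ring
  rw [e]
  have g1 := h1.mul h1'
  have g2 := h1.mul (G_algebraMap P c')
  have g3 := (G_algebraMap P c).mul h1'
  rw [add_zero] at g2
  rw [zero_add] at g3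
  exact ((g1.mono (by norm_num)).add g2).add g3

/-- A quadratic cover ramified exactly at two places of degree `r`, with its split rational places. -/
theorem hasCurve_of_qd {k K : Type} [Field k] [Finite k] [Field K] [Algebra k K]
    {g r : ℕ} (h2 : (2 : k) ≠ 0) (hF : IsFF k K) (C : Cv k K g) {f : K} {Q Q' : DV K}
    (hQQ : Q ≠ Q') (hQ : Q.deg (Nat.card k) = r) (hQ' : Q'.deg (Nat.card k) = r) (hf0 : f ≠ 0)
    (hf : ∀ v : DV K, Odd (v.ord f) ↔ v = Q ∨ v = Q') {T : Finset (DV K)}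
    (hT : ∀ P ∈ T, P.Rat k ∧ ∃ (h : K) (d : k), h ≠ 0 ∧ d ≠ 0 ∧
      P.G 1 (f * h ^ 2 - algebraMap k K d ^ 2)) :
    HasCurve k (2 * g + r - 1) (2 * T.card) := by
  classical
  have h2K : (2 : K) ≠ 0 := by
    rw [← map_ofNat (algebraMap k K) 2]
    exact map_ne_zero' h2
  have hoddQ : Odd (Q.ord f) := (hf Q).2 (Or.inl rfl)
  have hirr : ∀ a : K, a ^ 2 ≠ f := by
    intro a ha
    have ha0 : a ≠ 0 := by
      rintro rfl
      apply hf0
      rw [← ha]
      ring
    rw [← ha, Q.ord_pow ha0] at hoddQ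
    have h3 : Even (((2 : ℕ) : ℤ) * Q.ord a) := ⟨Q.ord a, by push_cast; ring⟩
    exact (Int.not_odd_iff_even.2 h3) hoddQ
  obtain ⟨K', i1, i2, i3, i4, ⟨S⟩⟩ := exists_qd (k := k) h2K hirr
  obtain ⟨g', C', hg'⟩ := S.cv C ⟨Q, hoddQ⟩
  have hset : {v : DV K | Odd (v.ord f)} = {Q, Q'} := by
    ext v
    rw [Set.mem_ofPred_eq, hf v]
    rfl
  have hdg : dgS (Nat.card k) {v : DV K | Odd (v.ord f)} = 2 * r := by
    rw [hset]
    unfold dgS
    rw [finsum_mem_pair hQQ, hQ, hQ', two_mul]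
  rw [hdg] at hg'
  have hg : 2 * g + r - 1 = g' := by omega
  rw [hg]
  choose hrat h hd using hT
  choose d hh0 hd0 hG using hd
  have hex : ∀ P : T, ∃ w₁ w₂ : DV K', w₁ ≠ w₂ ∧ Over w₁ (P : DV K) ∧ Over w₂ (P : DV K) ∧
      w₁.Rat k ∧ w₂.Rat k := by
    intro P
    obtain ⟨S', -⟩ := S.scale (hh0 P P.2)
    have hc0 : algebraMap k K (d P P.2) ≠ 0 := map_ne_zero' (hd0 P P.2)
    obtain ⟨w₁, w₂, h1, h2, h3, -, -, -, h4, h5⟩ :=
      S'.split (k := k) (v := (P : DV K)) (c := algebraMap k K (d P P.2)) (ord_algebraMap _ (hd0 P P.2)) hc0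
        (hG P P.2)
    exact ⟨w₁, w₂, h1, h2, h3, Qd.rat_of_resCard (hrat P P.2) h4, Qd.rat_of_resCard (hrat P P.2) h5⟩
  choose w₁ w₂ hne ho₁ ho₂ hr₁ hr₂ using hex
  set ψ : T × Bool → DV K' := fun x => if x.2 then w₁ x.1 else w₂ x.1 with hψ
  have hψo : ∀ x : T × Bool, Over (ψ x) (x.1 : DV K) := by
    rintro ⟨P, b⟩
    cases b
    · exact ho₂ P
    · exact ho₁ P
  have hinj : Function.Injective ψ := by
    intro x y hxy
    have h1 : (x.1 : DV K) = y.1 := (hψo x).unique (hxy ▸ hψo y)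
    obtain ⟨P, b⟩ := x
    obtain ⟨P', b'⟩ := y
    have h2 : P = P' := Subtype.ext h1
    subst h2
    cases b <;> cases b'
    · rfl
    · exact absurd hxy.symm (hne P)
    · exact absurd hxy (hne P)
    · rfl
  have hratψ : ∀ x, (ψ x).Rat k := by
    rintro ⟨P, b⟩
    cases b
    · exact hr₂ P
    · exact hr₁ P
  have hcard : Fintype.card (T × Bool) = 2 * T.card := by
    rw [Fintype.card_prod, Fintype.card_coe, Fintype.card_bool, mul_comm]
  let e : Fin (2 * T.card) ≃ T × Bool := (finCongr hcard.symm).trans (Fintype.equivFin (T × Bool)).symm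
  exact ⟨K', i1, i2, S.isFF hF C', C'.genus, fun i => ψ (e i), fun i j hij => e.injective (hinj hij),
    fun i => hratψ _⟩

/-- **Curves of genus `2 g - 1 + r` with many points.** `A` are places of degree `r`, `s` points are
treated by the pigeon hole principle, `N` by the bound `BlkFN N κ v`. -/
theorem hasCurveO {k K : Type} [Field k] [Finite k] (h2 : (2 : k) ≠ 0) [Field K] [Algebra k K]
    {g n r : ℕ} (hF : IsFF k K) (C : Cv k K g) (hS : Se K (n + 1)) (T : Finset (DV K))
    (hT : ∀ P ∈ T, P.Rat k) (hT0 : T.Nonempty) (A : Finset (DV K)) (hr : 2 ≤ r)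
    (hA : ∀ Q ∈ A, Q.deg (Nat.card k) = r) {s N κ v : ℕ} (hblk : BlkFN N κ v)
    (hs : s + N ≤ T.card) (hbig : 2 ^ (n + s + κ) ≤ A.card) :
    ∃ N' : ℕ, HasCurve k (2 * g + r - 1) N' ∧ 2 * T.card ≤ N' + 2 * ((T.card - (s + N)) + v) := by
  classical
  obtain ⟨R, hR⟩ := hT0
  obtain ⟨cl, hcl⟩ := exists_cl h2 C (hT R hR) hS
  have hAne : Nonempty A := by
    have h0 : 0 < A.card := lt_of_lt_of_le (by positivity) hbig
    obtain ⟨a, ha⟩ := Finset.card_pos.1 h0
    exact ⟨⟨a, ha⟩⟩
  -- representatives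
  set ρ : Fin (2 ^ n) → A := Function.invFun (fun a : A => cl (a : DV K)) with hρ
  have hρ' : ∀ a : A, cl (ρ (cl (a : DV K)) : DV K) = cl (a : DV K) := fun a =>
    Function.invFun_eq (f := fun a : A => cl (a : DV K)) ⟨a, rfl⟩
  -- the functions
  have hfun : ∀ a : A, ∃ f : K, f ≠ 0 ∧ ∀ v : DV K, Odd (v.ord f) ↔
      ¬ (v = (a : DV K) ↔ v = (ρ (cl (a : DV K)) : DV K)) := by
    intro a
    by_cases h : (a : DV K) = (ρ (cl (a : DV K)) : DV K)
    · refine ⟨1, one_ne_zero, fun v => ?_⟩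
      rw [v.ord_one, ← h]
      simp
    · obtain ⟨f, hf, hf'⟩ := hcl (a : DV K) (ρ (cl (a : DV K)) : DV K) h
        ((hA _ a.2).trans (hA _ (ρ (cl (a : DV K))).2).symm) (hρ' a).symm
      refine ⟨f, hf, fun v => ?_⟩
      rw [hf' v]
      constructor
      · rintro (h1 | h1) h3
        · exact h (h1.symm.trans (h3.1 h1))
        · exact h ((h3.2 h1).symm.trans h1)
      · intro h3
        by_contra h4
        push Not at h4
        exact h3 ⟨fun h5 => absurd h5 h4.1, fun h5 => absurd h5 h4.2⟩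
  choose F hF0 hFo using hfun
  have hTA : ∀ P ∈ T, ∀ a ∈ A, P ≠ a := by
    rintro P hP a ha rfl
    have h1 := (hT P hP).deg_eq_one
    rw [hA P ha] at h1
    omega
  have hev : ∀ (a : A) (P : T), Even ((P : DV K).ord (F a)) := by
    intro a P
    rw [← Int.not_odd_iff_even, hFo a P, not_not]
    exact ⟨fun h1 => absurd h1 (hTA P P.2 a a.2), fun h1 => absurd h1 (hTA P P.2 _ (ρ _).2)⟩
  choose H c hH0 hc0 hG using fun (a : A) (P : T) =>
    exists_lead (hT P P.2) (hF0 a) (hev a P)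
  -- the words
  obtain ⟨a, b, hab, hclab, hdist⟩ := exists_pair_blk (ι := T) (α := A) (γ := Fin (2 ^ n))
    (fun a P => if IsSquare (c a P) then 0 else 1) (fun a => cl (a : DV K)) (m := n) (s := s)
    (N := N) (κ := κ) (v := v) (by rw [Fintype.card_fin]) hblk (by rw [Fintype.card_coe]; exact hs)
    (by rw [Fintype.card_coe]; exact hbig)
  have hab' : (a : DV K) ≠ (b : DV K) := fun h => hab (Subtype.ext h)
  have hclab' : cl (a : DV K) = cl (b : DV K) := hclab
  have hodd : ∀ v : DV K, Odd (v.ord (F a * F b)) ↔ v = (a : DV K) ∨ v = (b : DV K) := by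
    intro v
    rw [v.ord_mul _ _ (hF0 a) (hF0 b), Int.odd_add, ← Int.not_odd_iff_even, hFo a v, hFo b v,
      ← hclab']
    have h1 : ¬ (v = (a : DV K) ∧ v = (b : DV K)) := fun h1 => hab' (h1.1.symm.trans h1.2)
    tauto
  set T' : Finset (DV K) := ((Finset.univ : Finset T).filter fun P =>
    (if IsSquare (c a P) then (0 : ZMod 2) else 1) = (if IsSquare (c b P) then (0 : ZMod 2) else 1)).map
      (Function.Embedding.subtype _) with hT'
  have hcard : T.card ≤ T'.card + hammingDist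
      (fun P : T => if IsSquare (c a P) then (0 : ZMod 2) else 1)
      (fun P : T => if IsSquare (c b P) then (0 : ZMod 2) else 1) := by
    rw [hT', Finset.card_map]
    unfold hammingDist
    have h3 := Finset.card_filter_add_card_filter_not (s := (Finset.univ : Finset T)) fun P =>
      (if IsSquare (c a P) then (0 : ZMod 2) else 1) = (if IsSquare (c b P) then (0 : ZMod 2) else 1)
    rw [Finset.card_univ, Fintype.card_coe] at h3
    exact h3.ge
  refine ⟨2 * T'.card, hasCurve_of_qd h2 hF C hab' (hA _ a.2) (hA _ b.2) (mul_ne_zero (hF0 a) (hF0 b))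
    hodd (T := T') ?_, ?_⟩
  · intro P hP
    rw [hT', Finset.mem_map] at hP
    obtain ⟨P', hP', rfl⟩ := hP
    rw [Finset.mem_filter] at hP'
    have hw := hP'.2
    refine ⟨hT P' P'.2, ?_⟩
    have hiff : IsSquare (c a P') ↔ IsSquare (c b P') := by
      by_cases h3 : IsSquare (c a P') <;> by_cases h4 : IsSquare (c b P')
      · exact ⟨fun _ => h4, fun _ => h3⟩
      · rw [if_pos h3, if_neg h4] at hw
        exact absurd hw (by decide)
      · rw [if_neg h3, if_pos h4] at hw
        exact absurd hw (by decide)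
      · exact ⟨fun h => absurd h h3, fun h => absurd h h4⟩
    obtain ⟨d, hd⟩ := isSquare_mul_of_iff h2 (hc0 a P') (hc0 b P') hiff
    refine ⟨H a P' * H b P', d, mul_ne_zero (hH0 a P') (hH0 b P'), ?_, G_mul_lead (hG a P') (hG b P') hd⟩
    rintro rfl
    rw [mul_zero] at hd
    exact (mul_ne_zero (hc0 a P') (hc0 b P')) hd
  · have h5 := hdist
    rw [Fintype.card_coe] at h5
    have h6 : T.card ≤ T'.card + ((T.card - (s + N)) + v) := hcard.trans (Nat.add_le_add_left h5 _)
    omega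

end Pool.Agent.FF
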