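import Pool.Agent.FO.KmWt
import Pool.Agent.FF.Kl1
import Pool.Agent.FF.Tower3

/-! # The genus of a cubic Kummer extension -/

set_option autoImplicit false
set_option linter.unusedSectionVars false

namespace Pool.Agent.FF

open Finset

variable {k K L : Type} [Field k] [Finite k] [Field K] [Field L] [Algebra k K] [Algebra k L]
  [Algebra K L] [IsScalarTower k K L]

theorem coprime_three {z : ℤ} (h : ¬ (3 : ℤ) ∣ z) : IsCoprime z ((3 : ℕ) : ℤ) := by
  have h1 : IsCoprime ((3 : ℕ) : ℤ) z :=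
    (Prime.coprime_iff_not_dvd (Nat.prime_iff_prime_int.1 Nat.prime_three)).2 (by exact_mod_cast h)
  exact h1.symm

/-- the divisor `- ⌊m ord f / 3⌋` and its degree -/
theorem degZ_third {g : ℕ} (C : Cv k K g) {f : K} (hf : f ≠ 0) (m : ℤ) :
    ∃ D : DV K →₀ ℤ, (∀ v, D v = -((m * v.ord f) / 3)) ∧
      3 * RRD.degZ k D = ∑ v ∈ (RRD.divF k C f hf).support,
        ((m * v.ord f) % 3) * (v.deg (Nat.card k) : ℤ) := by
  classical
  set E : DV K →₀ ℤ := RRD.divF k C f hf with hE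
  have hEv : ∀ v, E v = v.ord f := fun v => rfl
  set D : DV K →₀ ℤ := E.mapRange (fun z => -((m * z) / 3)) (by simp) with hD
  have hDv : ∀ v, D v = -((m * v.ord f) / 3) := fun v => by
    rw [hD, Finsupp.mapRange_apply, hEv]
  refine ⟨D, hDv, ?_⟩
  have hdegE : (∑ v ∈ E.support, (v.ord f) * (v.deg (Nat.card k) : ℤ)) = 0 := RRD.degZ_divF C hf
  have hdegD : RRD.degZ k D = ∑ v ∈ E.support,
      (-((m * v.ord f) / 3)) * (v.deg (Nat.card k) : ℤ) := by
    unfold RRD.degZ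
    rw [Finsupp.sum_of_support_subset D (s := E.support) ?_ _ (by simp)]
    · refine sum_congr rfl fun v _ => ?_
      rw [hDv]
    · rw [hD]
      exact Finsupp.support_mapRange
  rw [hdegD, mul_sum]
  have h4 : ∑ v ∈ E.support, 3 * (-((m * v.ord f) / 3) * (v.deg (Nat.card k) : ℤ)) -
      ∑ v ∈ E.support, ((m * v.ord f) % 3) * (v.deg (Nat.card k) : ℤ) =
      -m * ∑ v ∈ E.support, (v.ord f) * (v.deg (Nat.card k) : ℤ) := by
    rw [← sum_sub_distrib, mul_sum]
    refine sum_congr rfl fun v _ => ?_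
    have := Int.emod_add_mul_ediv (m * v.ord f) 3
    linear_combination (-(v.deg (Nat.card k) : ℤ)) * this
  rw [hdegE, mul_zero] at h4
  linarith

/-- **the genus of a cubic Kummer extension** -/
theorem Km.cv3 (S : Km k K L 3) {g : ℕ} (C : Cv k K g) {v₀ : DV K}
    (h0 : ¬ (3 : ℤ) ∣ v₀.ord S.Θ) : ∃ g' : ℕ, Cv k L g' ∧
      g' + 2 = 3 * g + dgS (Nat.card k) {v : DV K | ¬ (3 : ℤ) ∣ v.ord S.Θ} := by
  classical
  set f := S.Θ with hf
  have hf0 : f ≠ 0 := S.Θ_ne
  obtain ⟨D₁, hD₁, hd₁⟩ := degZ_third C hf0 1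
  obtain ⟨D₂, hD₂, hd₂⟩ := degZ_third C hf0 2
  set E : DV K →₀ ℤ := RRD.divF k C f hf0 with hE
  have hEv : ∀ v, E v = v.ord f := fun v => rfl
  set R : ℕ := dgS (Nat.card k) {v : DV K | ¬ (3 : ℤ) ∣ v.ord f} with hR
  have hsub : {v : DV K | ¬ (3 : ℤ) ∣ v.ord f} ⊆ (E.support : Set (DV K)) := by
    intro v hv
    rw [mem_coe, Finsupp.mem_support_iff, hEv]
    intro h1
    apply hv
    rw [h1]
    exact dvd_zero 3
  have hRsum : R = ∑ v ∈ E.support.filter (fun v => ¬ (3 : ℤ) ∣ v.ord f),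
      v.deg (Nat.card k) := by
    have hset : {v : DV K | ¬ (3 : ℤ) ∣ v.ord f} =
        ((E.support.filter (fun v => ¬ (3 : ℤ) ∣ v.ord f) : Finset (DV K)) : Set (DV K)) := by
      ext v
      rw [mem_coe, mem_filter]
      constructor
      · intro h
        exact ⟨Finset.mem_coe.1 (hsub h), h⟩
      · exact fun h => h.2
    rw [hR]
    unfold dgS
    rw [hset, finsum_mem_coe_finset]
  have hsum : RRD.degZ k D₁ + RRD.degZ k D₂ = R := by
    have h1 : (R : ℤ) = ∑ v ∈ E.support,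
        (if ¬ (3 : ℤ) ∣ v.ord f then (v.deg (Nat.card k) : ℤ) else 0) := by
      rw [hRsum, Nat.cast_sum, sum_filter]
    have h2 : 3 * (RRD.degZ k D₁ + RRD.degZ k D₂) = 3 * (R : ℤ) := by
      rw [mul_add, hd₁, hd₂, h1, ← sum_add_distrib, mul_sum]
      refine sum_congr rfl fun v _ => ?_
      split_ifs with h
      · have h3 : (1 * v.ord f) % 3 + (2 * v.ord f) % 3 = 0 := by omega
        rw [← add_mul, h3]
        ring
      · have h3 : (1 * v.ord f) % 3 + (2 * v.ord f) % 3 = 3 := by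
          obtain ⟨e, he⟩ : ∃ e : ℤ, v.ord f = 3 * e + 1 ∨ v.ord f = 3 * e + 2 :=
            ⟨v.ord f / 3, by omega⟩
          rcases he with he | he
          · rw [he]
            omega
          · rw [he]
            omega
        rw [← add_mul, h3]
    linarith
  have hpos : ∀ (m : ℤ) (D : DV K →₀ ℤ), ¬ (3 : ℤ) ∣ m * v₀.ord f →
      (3 * RRD.degZ k D = ∑ v ∈ E.support, ((m * v.ord f) % 3) * (v.deg (Nat.card k) : ℤ)) →
      ∃ d : ℕ, RRD.degZ k D = d + 1 := by
    intro m D hm hD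
    have hv₀ : v₀ ∈ E.support := by
      exact Finset.mem_coe.1 (hsub (fun h => hm (h.mul_left m)))
    have h1 := single_le_sum (f := fun v : DV K => ((m * v.ord f) % 3) *
      (v.deg (Nat.card k) : ℤ)) (fun v _ => mul_nonneg (Int.emod_nonneg _ (by norm_num))
        (by positivity)) hv₀
    have h2 : 1 ≤ (m * v₀.ord f) % 3 := by omega
    have h3 : (1 : ℤ) ≤ (v₀.deg (Nat.card k) : ℤ) := by exact_mod_cast (C.res v₀).1
    have h4 : (1 : ℤ) ≤ ((m * v₀.ord f) % 3) * (v₀.deg (Nat.card k) : ℤ) := by nlinarith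
    have h5 : 1 ≤ 3 * RRD.degZ k D := by
      rw [hD]
      exact h4.trans h1
    exact ⟨(RRD.degZ k D - 1).toNat, by omega⟩
  obtain ⟨d₁, hd₁'⟩ := hpos 1 D₁ (by rwa [one_mul]) hd₁
  obtain ⟨d₂, hd₂'⟩ := hpos 2 D₂ (by omega) hd₂
  have hcard₁ := hCard_of_degZ C D₁ d₁ hd₁'
  have hcard₂ := hCard_of_degZ C D₂ d₂ hd₂'
  have hcv : Cv k L (∑ i ∈ range 3, if i = 0 then g else if i = 1 then g + d₁ else g + d₂) := by
    refine S.cvUp C (coprime_three h0) fun i hi => ?_
    by_cases h0 : i = 0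
    · subst h0
      rw [S.D_zero, if_pos rfl]
      exact RRD.hgen C
    by_cases h1 : i = 1
    · subst h1
      rw [if_neg h0, if_pos rfl, ← hcard₁]
      congr 1
      funext v
      rw [hD₁]
      unfold Km.D
      push_cast
      rfl
    · have h2 : i = 2 := by omega
      subst h2
      rw [if_neg h0, if_neg h1, ← hcard₂]
      congr 1
      funext v
      rw [hD₂]
      unfold Km.D
      push_cast
      rfl
  refine ⟨_, hcv, ?_⟩
  rw [sum_range_succ, sum_range_succ, sum_range_one, if_pos rfl, if_neg one_ne_zero, if_pos rfl,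
    if_neg two_ne_zero, if_neg (by norm_num : (2 : ℕ) ≠ 1)]
  have h7 : (R : ℤ) = (d₁ + 1) + (d₂ + 1) := by rw [← hsum, hd₁', hd₂']
  omega

end Pool.Agent.FF
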