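import Pool.Agent.FO.KmCv

/-! # Existence of Kummer extensions -/

set_option autoImplicit false

namespace Pool.Agent.FF

open Polynomial

theorem exists_km {k K : Type} [Field k] [Field K] [Algebra k K] {n : ℕ}
    (hn : n.Prime) (hnk : (n : k) ≠ 0) {ζ : k} (hζ : IsPrimitiveRoot ζ n) {Θ : K}
    (hΘ : ∀ b : K, b ^ n ≠ Θ) : ∃ (L : Type) (_ : Field L) (_ : Algebra k L)
    (_ : Algebra K L) (_ : IsScalarTower k K L) (S : Km k K L n), S.θ ^ n = algebraMap K L Θ := by
  have hirr : Irreducible (X ^ n - C Θ : K[X]) := X_pow_sub_C_irreducible_of_prime hn hΘ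
  have : Fact (Irreducible (X ^ n - C Θ : K[X])) := ⟨hirr⟩
  have : NeZero n := ⟨hn.pos.ne'⟩
  let L := AdjoinRoot (X ^ n - C Θ : K[X])
  have hmon : (X ^ n - C Θ : K[X]).Monic := monic_X_pow_sub_C Θ hn.pos.ne'
  have hdeg : (X ^ n - C Θ : K[X]).degree = n := degree_X_pow_sub_C hn.pos Θ
  let r : L := AdjoinRoot.root (X ^ n - C Θ : K[X])
  have hr : r ^ n = algebraMap K L Θ := root_X_pow_sub_C_pow n Θ
  have hΘ0 : Θ ≠ 0 := by
    rintro rfl
    exact hΘ 0 (zero_pow hn.pos.ne')
  have hr0 : r ≠ 0 := by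
    intro h
    rw [h, zero_pow hn.pos.ne'] at hr
    exact hΘ0 ((map_eq_zero _).1 hr.symm)
  let z : K := algebraMap k K ζ
  have hzp : IsPrimitiveRoot z n := hζ.map_of_injective (algebraMap k K).injective
  have hz : z ^ n = 1 := hzp.pow_eq_one
  let σ : L ≃ₐ[K] L := autAdjoinRootXPowSubC n Θ (rootsOfUnity.mkOfPowEq z hz)
  have hσr : σ r = algebraMap K L z * r := by
    have := autAdjoinRootXPowSubC_root Θ (rootsOfUnity.mkOfPowEq z hz)
    rw [rootsOfUnity.coe_mkOfPowEq, Algebra.smul_def] at this
    exact this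
  have hσj : ∀ j : ℕ, σ^[j] r = algebraMap K L (z ^ j) * r := by
    intro j
    induction j with
    | zero => simp
    | succ j ih =>
      rw [Function.iterate_succ_apply', ih, map_mul, AlgEquiv.commutes, hσr, pow_succ, map_mul]
      ring
  have hae : ∀ (g : K[X]) (y : L), σ (aeval y g) = aeval (σ y) g := fun g y =>
    (Polynomial.aeval_algHom_apply (σ : L →ₐ[K] L) y g).symm
  have haej : ∀ (g : K[X]) (j : ℕ) (y : L), σ^[j] (aeval y g) = aeval (σ^[j] y) g := by
    intro g j y
    induction j with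
    | zero => rfl
    | succ j ih => rw [Function.iterate_succ_apply', ih, hae, Function.iterate_succ_apply']
  have hmk : ∀ x : L, ∃ g : K[X], g.degree < n ∧ aeval r g = x := by
    intro x
    obtain ⟨g, rfl⟩ := AdjoinRoot.mk_surjective x
    refine ⟨g %ₘ (X ^ n - C Θ), ?_, ?_⟩
    · rw [← hdeg]
      exact degree_modByMonic_lt g hmon
    · have h1 : aeval r (g %ₘ (X ^ n - C Θ)) = AdjoinRoot.mk (X ^ n - C Θ) (g %ₘ (X ^ n - C Θ)) :=
        AdjoinRoot.aeval_eq _
      rw [h1, AdjoinRoot.mk_eq_mk]
      refine ⟨-(g /ₘ (X ^ n - C Θ)), ?_⟩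
      have := modByMonic_add_div g (X ^ n - C Θ)
      linear_combination this
  refine ⟨L, inferInstance, inferInstance, inferInstance, inferInstance,
    { σ := σ.toRingEquiv
      σK := fun a => σ.commutes a
      fix := ?_
      per := ?_
      n_ne := hnk
      θ := r
      θ_ne := hr0
      ζ := ζ
      prim := hζ
      σθ := ?_ }, hr⟩
  · intro x hx
    obtain ⟨g, hg, rfl⟩ := hmk x
    have hx' : σ (aeval r g) = aeval r g := hx
    rw [hae, hσr] at hx'
    have h1 : aeval (algebraMap K L z * r) g = aeval r (g.comp (C z * X)) := by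
      rw [aeval_comp, map_mul, aeval_C, aeval_X]
    rw [h1] at hx'
    have h2 : aeval r (g.comp (C z * X) - g) = 0 := by rw [map_sub, hx', sub_self]
    have h3 : g.comp (C z * X) - g = 0 := by
      by_contra h0
      refine AdjoinRoot.mk_ne_zero_of_degree_lt hmon h0 ?_ ?_
      · rw [hdeg]
        refine (degree_sub_le _ _).trans_lt (max_lt ?_ hg)
        refine lt_of_le_of_lt ?_ hg
        rw [degree_le_iff_coeff_zero]
        intro m hm
        rw [comp_C_mul_X_coeff, coeff_eq_zero_of_degree_lt hm, zero_mul]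
      · rw [← AdjoinRoot.aeval_eq]
        exact h2
    refine ⟨g.coeff 0, ?_⟩
    have h4 : g = C (g.coeff 0) := by
      ext m
      by_cases hm : m = 0
      · rw [hm, coeff_C_zero]
      · rw [coeff_C, if_neg hm]
        by_contra hne
        have h5 := congrArg (fun p : K[X] => p.coeff m) h3
        simp only [coeff_sub, comp_C_mul_X_coeff, coeff_zero] at h5
        have h6 : g.coeff m * (z ^ m - 1) = 0 := by linear_combination h5
        rcases mul_eq_zero.1 h6 with h | h
        · exact hne h
        · have h7 : m < n := by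
            by_contra hge
            push Not at hge
            refine hne (coeff_eq_zero_of_degree_lt (lt_of_lt_of_le hg ?_))
            exact_mod_cast hge
          exact hzp.pow_ne_one_of_pos_of_lt hm h7 (sub_eq_zero.1 h)
    rw [h4, aeval_C, coeff_C_zero]
  · intro x
    obtain ⟨g, hg, rfl⟩ := hmk x
    show σ^[n] (aeval r g) = aeval r g
    rw [haej, hσj, hz, map_one, one_mul]
  · show σ r = algebraMap k L ζ * r
    rw [hσr, ← IsScalarTower.algebraMap_apply k K L]

end Pool.Agent.FF
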