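import Pool.Agent.FO.DefsQ
import Pool.Agent.FO.KmCub
import Pool.Agent.FO.KmEx
import Pool.Agent.FO.BaseM1

/-! # One cubic step `z ^ 3 = W (9 - W ^ 2)`, `W' = 9 W / (z + W) ^ 2` -/

set_option autoImplicit false
set_option linter.unusedSectionVars false

namespace Pool.Agent.FF

open Finset

namespace CubQ

section gen

variable {K : Type*} [Field K]

theorem id1 {z W : K} (hz : z ^ 3 = W * (9 - W ^ 2)) :
    ((z ^ 2 - z * W + W ^ 2) - (z + W)) * ((z ^ 2 - z * W + W ^ 2) + 3 * (z + W)) ^ 3 =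
      9 * (z ^ 2 - z * W + W ^ 2) ^ 2 * ((W - 1) ^ 3 * (W + 3)) := by
  linear_combination (z ^ 5 - 4 * z ^ 4 * W + 8 * z ^ 4 + 10 * z ^ 3 * W ^ 2 - 16 * z ^ 3 * W
    + 18 * z ^ 3 - 17 * z ^ 2 * W ^ 3 + 24 * z ^ 2 * W ^ 2 + 9 * z ^ 2 * W + 14 * z * W ^ 4
    - 16 * z * W ^ 3 + 18 * z * W ^ 2 - 8 * W ^ 5 + 8 * W ^ 4) * hz

theorem id2 {z W : K} (hz : z ^ 3 = W * (9 - W ^ 2)) :
    ((z ^ 2 - z * W + W ^ 2) + (z + W)) * (3 * (z + W) - (z ^ 2 - z * W + W ^ 2)) ^ 3 =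
      9 * (z ^ 2 - z * W + W ^ 2) ^ 2 * ((W + 1) ^ 3 * (3 - W)) := by
  linear_combination (- z ^ 5 + 4 * z ^ 4 * W + 8 * z ^ 4 - 10 * z ^ 3 * W ^ 2 - 16 * z ^ 3 * W
    - 18 * z ^ 3 + 17 * z ^ 2 * W ^ 3 + 24 * z ^ 2 * W ^ 2 - 9 * z ^ 2 * W - 14 * z * W ^ 4
    - 16 * z * W ^ 3 - 18 * z * W ^ 2 + 8 * W ^ 5 + 8 * W ^ 4) * hz

theorem two_units {v : DV K} {a b r : K} (ha : v.G 0 a) (hb : v.G 0 b) (h : a * b ^ 3 = r)
    (hr : r ≠ 0) (hro : v.ord r = 0) : v.ord a = 0 ∧ v.ord b = 0 ∧ a ≠ 0 ∧ b ≠ 0 := by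
  have ha0 : a ≠ 0 := by
    rintro rfl
    exact hr (by rw [← h, zero_mul])
  have hb0 : b ≠ 0 := by
    rintro rfl
    exact hr (by rw [← h]; ring)
  have h1 : v.ord a + 3 * v.ord b = 0 := by
    rw [← hro, ← h, v.ord_mul _ _ ha0 (pow_ne_zero 3 hb0), v.ord_pow hb0]
    push_cast
    ring
  have h2 := ha.le ha0
  have h3 := hb.le hb0
  exact ⟨by omega, by omega, ha0, hb0⟩

/-- the units upstairs -/
theorem UW.next {v : DV K} {z W : K} (h9 : (9 : K) ≠ 0) (ho9 : v.ord (9 : K) = 0)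
    (ho3 : v.G 0 (3 : K)) (h : UW v W) (hz : z ^ 3 = W * (9 - W ^ 2)) :
    UW v (9 * W / (z + W) ^ 2) := by
  obtain ⟨o0, o1, o2, o3, o4, n0, n1, n2, n3, n4⟩ := h
  have n5 : (3 : K) - W ≠ 0 := by
    intro h0
    exact n3 (by linear_combination -h0)
  have o5 : v.ord (3 - W) = 0 := by
    rw [show (3 : K) - W = -(W - 3) by ring, v.ord_neg, o3]
  have hz0 : z ≠ 0 := by
    rintro rfl
    have : W * ((3 - W) * (W + 3)) = 0 := by linear_combination -hz
    exact mul_ne_zero n0 (mul_ne_zero n5 n4) this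
  have hoz : v.ord z = 0 := by
    have h1 : z ^ 3 = W * ((3 - W) * (W + 3)) := by rw [hz]; ring
    have h2 := congrArg v.ord h1
    rw [v.ord_pow hz0, v.ord_mul _ _ n0 (mul_ne_zero n5 n4), v.ord_mul _ _ n5 n4, o0, o5, o4] at h2
    push_cast at h2
    omega
  have Gz : v.G 0 z := DV.G_of_le hoz.ge
  have GW : v.G 0 W := DV.G_of_le o0.ge
  have hcu : (z + W) * (z ^ 2 - z * W + W ^ 2) = 9 * W := by linear_combination hz
  have h9W : (9 : K) * W ≠ 0 := mul_ne_zero h9 n0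
  have hc : z + W ≠ 0 := by
    intro h0
    rw [h0, zero_mul] at hcu
    exact h9W hcu.symm
  have hu : z ^ 2 - z * W + W ^ 2 ≠ 0 := by
    intro h0
    rw [h0, mul_zero] at hcu
    exact h9W hcu.symm
  have Gc : v.G 0 (z + W) := Gz.add GW
  have Gu : v.G 0 (z ^ 2 - z * W + W ^ 2) := by
    have h1 : v.G 0 (z ^ 2) := (Gz.pow 2).mono (by norm_num)
    have h2 : v.G 0 (W ^ 2) := (GW.pow 2).mono (by norm_num)
    have h3 : v.G 0 (z * W) := (Gz.mul GW).mono (by norm_num)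
    exact (h1.sub h3).add h2
  have hs : v.ord (z + W) + v.ord (z ^ 2 - z * W + W ^ 2) = 0 := by
    rw [← v.ord_mul _ _ hc hu, hcu, v.ord_mul _ _ h9 n0, ho9, o0]
    norm_num
  have g1 := Gc.le hc
  have g2 := Gu.le hu
  have oc : v.ord (z + W) = 0 := by omega
  have ou : v.ord (z ^ 2 - z * W + W ^ 2) = 0 := by omega
  set c := z + W with hcdef
  set u := z ^ 2 - z * W + W ^ 2 with hudef
  have hW' : 9 * W / c ^ 2 = u / c := by
    rw [← hcu]
    field_simp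
  have i1 : (u - c) * (u + 3 * c) ^ 3 = 9 * u ^ 2 * ((W - 1) ^ 3 * (W + 3)) := id1 hz
  have i2 : (u + c) * (3 * c - u) ^ 3 = 9 * u ^ 2 * ((W + 1) ^ 3 * (3 - W)) := id2 hz
  rw [hW']
  have hq0 : u / c ≠ 0 := div_ne_zero hu hc
  have oq : v.ord (u / c) = 0 := by rw [v.ord_div hu hc, ou, oc]; norm_num
  have Gq : v.G 0 (u / c) := DV.G_of_le oq.ge
  have c4 : c ^ 4 ≠ 0 := pow_ne_zero 4 hc
  have r1 : ∀ {a b : K}, a ≠ 0 → b ≠ 0 → v.ord a = 0 → v.ord b = 0 →
      9 * u ^ 2 * (a ^ 3 * b) / c ^ 4 ≠ 0 ∧ v.ord (9 * u ^ 2 * (a ^ 3 * b) / c ^ 4) = 0 := by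
    intro a b ha hb hoa hob
    have e1 : (9 : K) * u ^ 2 ≠ 0 := mul_ne_zero h9 (pow_ne_zero 2 hu)
    have e2 : a ^ 3 * b ≠ 0 := mul_ne_zero (pow_ne_zero 3 ha) hb
    refine ⟨div_ne_zero (mul_ne_zero e1 e2) c4, ?_⟩
    rw [v.ord_div (mul_ne_zero e1 e2) c4, v.ord_mul _ _ e1 e2, v.ord_mul _ _ h9 (pow_ne_zero 2 hu),
      v.ord_mul _ _ (pow_ne_zero 3 ha) hb, v.ord_pow hu, v.ord_pow ha, v.ord_pow hc, ho9, ou, oc,
      hoa, hob]
    norm_num
  have e1 : (u / c - 1) * (u / c + 3) ^ 3 = 9 * u ^ 2 * ((W - 1) ^ 3 * (W + 3)) / c ^ 4 := by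
    rw [← i1]
    field_simp
  have e2 : (u / c + 1) * (3 - u / c) ^ 3 = 9 * u ^ 2 * ((W + 1) ^ 3 * (3 - W)) / c ^ 4 := by
    rw [← i2]
    field_simp
  obtain ⟨f1, f2⟩ := r1 n1 n4 o1 o4
  obtain ⟨f3, f4⟩ := r1 n2 n5 o2 o5
  obtain ⟨a1, a2, a3, a4⟩ := two_units (Gq.sub DV.G_one) (Gq.add ho3) e1 f1 f2
  obtain ⟨b1, b2, b3, b4⟩ := two_units (Gq.add DV.G_one) (ho3.sub Gq) e2 f3 f4
  refine ⟨oq, a1, b1, ?_, a2, hq0, a3, b3, ?_, a4⟩
  · rw [show u / c - 3 = -(3 - u / c) by ring, v.ord_neg, b2]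
  · intro h0
    exact b4 (by linear_combination -h0)

end gen

section step

variable {K K' : Type*} [Field K] [Field K'] [Algebra K K']

theorem UO.map {v : DV K} {w : DV K'} (hw : Over w v) {x : K} (h : UO v x) :
    UO w (algebraMap K K' x) := by
  obtain ⟨e, he, ho⟩ := hw
  obtain ⟨h1, h2, h3, h4, h5, h6, h7, h8⟩ := h
  have k1 := ho _ h5
  have k2 := ho _ h6
  have k3 := ho _ h7
  have k4 := ho _ h8
  have m5 := map_ne_zero' (K' := K') h5
  have m6 := map_ne_zero' (K' := K') h6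
  have m7 := map_ne_zero' (K' := K') h7
  have m8 := map_ne_zero' (K' := K') h8
  rw [h1, mul_zero] at k1
  rw [h2, mul_zero] at k2
  rw [h3, mul_zero] at k3
  rw [h4, mul_zero] at k4
  simp only [map_sub, map_add, map_one, map_pow] at k2 k3 k4 m6 m7 m8
  exact ⟨k1, k2, k3, k4, m5, m6, m7, m8⟩

theorem UW.map {v : DV K} {w : DV K'} (hw : Over w v) {x : K} (h : UW v x) :
    UW w (algebraMap K K' x) := by
  obtain ⟨e, he, ho⟩ := hw
  obtain ⟨h1, h2, h3, h4, h5, n1, n2, n3, n4, n5⟩ := h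
  have k1 := ho _ n1
  have k2 := ho _ n2
  have k3 := ho _ n3
  have k4 := ho _ n4
  have k5 := ho _ n5
  have m1 := map_ne_zero' (K' := K') n1
  have m2 := map_ne_zero' (K' := K') n2
  have m3 := map_ne_zero' (K' := K') n3
  have m4 := map_ne_zero' (K' := K') n4
  have m5 := map_ne_zero' (K' := K') n5
  rw [h1, mul_zero] at k1
  rw [h2, mul_zero] at k2
  rw [h3, mul_zero] at k3
  rw [h4, mul_zero] at k4
  rw [h5, mul_zero] at k5
  simp only [map_sub, map_add, map_one, map_ofNat] at k2 k3 k4 k5 m2 m3 m4 m5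
  exact ⟨k1, k2, k3, k4, k5, m1, m2, m3, m4, m5⟩

end step

/-- the residue of a quotient -/
theorem G_quot {k K : Type*} [Field k] [Finite k] [Field K] [Algebra k K] {v : DV K} {z W : K}
    {c w : k} (hz : v.G 1 (z - algebraMap k K c)) (hW : v.G 1 (W - algebraMap k K w))
    (hc : c + w ≠ 0) :
    v.G 1 (9 * W / (z + W) ^ 2 - algebraMap k K (9 * w / (c + w) ^ 2)) := by
  set a : K := algebraMap k K (c + w) with ha
  have ha0 : a ≠ 0 := map_ne_zero' hc
  have hoa : v.ord a = 0 := v.ord_const _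
  have h1 : v.G 1 (z + W - a) := by
    have := hz.add hW
    rw [ha, map_add]
    convert this using 1
    ring
  obtain ⟨hs0, hso⟩ := DV.ord_add_of_lt (v := v) (a := a) (b := z + W - a) ha0 (by
    rw [hoa]
    exact h1)
  rw [add_sub_cancel] at hs0 hso
  rw [hoa] at hso
  have Gs : v.G 0 (z + W) := DV.G_of_le hso.ge
  have Ga : v.G 0 a := DV.G_of_le hoa.ge
  set e : K := algebraMap k K (9 * w / (c + w) ^ 2) with he
  have Ge : v.G 0 e := v.G_const _
  have hea : e * a ^ 2 = 9 * algebraMap k K w := by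
    rw [he, ha, ← map_pow, ← map_mul, div_mul_cancel₀ _ (pow_ne_zero 2 hc), map_mul, map_ofNat]
  have h9 : v.G 0 (9 : K) := by
    have : (9 : K) = algebraMap k K 9 := (map_ofNat (algebraMap k K) 9).symm
    rw [this]
    exact v.G_const _
  have h2 : 9 * W / (z + W) ^ 2 - e =
      (9 * (W - algebraMap k K w) - e * ((z + W - a) * (z + W + a))) / (z + W) ^ 2 := by
    field_simp
    linear_combination -hea
  have h3 : v.G 1 (9 * (W - algebraMap k K w) - e * ((z + W - a) * (z + W + a))) := by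
    have g1 := h9.mul hW
    have g2 := Ge.mul (h1.mul (Gs.add Ga))
    rw [zero_add] at g1
    rw [add_zero, zero_add] at g2
    exact g1.sub g2
  rw [h2]
  rcases h3 with h3 | h3
  · rw [h3, zero_div]
    exact DV.G_zero _
  · by_cases h4 : 9 * (W - algebraMap k K w) - e * ((z + W - a) * (z + W + a)) = 0
    · rw [h4, zero_div]
      exact DV.G_zero _
    · refine DV.G_of_le ?_
      rw [v.ord_div h4 (pow_ne_zero 2 hs0), v.ord_pow hs0, hso]
      push_cast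
      omega

theorem prim_three {k : Type*} [Field k] {ω : k} (h3 : (3 : k) ≠ 0) (hω : ω ^ 2 + ω + 1 = 0) :
    IsPrimitiveRoot ω 3 := by
  have h1 : ω ^ 3 = 1 := by linear_combination (ω - 1) * hω
  refine IsPrimitiveRoot.mk_of_lt ω (by norm_num) h1 fun l hl hl3 => ?_
  interval_cases l
  · rw [pow_one]
    rintro rfl
    exact h3 (by linear_combination hω)
  · intro h2
    have h4 : ω = 1 := by
      have : ω * ω ^ 2 = ω := by rw [h2, mul_one]
      rw [← this]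
      linear_combination h1
    rw [h4] at hω
    exact h3 (by linear_combination hω)

end CubQ

open CubQ

/-- **One cubic step.** -/
theorem LvQ.cub {p : ℕ} [Fact p.Prime] (hp : 3 < p) {k : Type} [Field k] [Finite k] [CharP k p]
    {ω : k} (hω : ω ^ 2 + ω + 1 = 0) {S W3 : Finset k} (hW : WSet S W3) {K : Type} [Field K]
    [Algebra k K] {x W : K} {g D t B C M : ℕ} (h : LvQ p k K S W3 x W g D t B C M) :
    ∃ (K' : Type) (_ : Field K') (_ : Algebra k K') (x' W' : K') (g' D' B' C' M' : ℕ),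
      2 * g' + D' + 4 ≤ 3 * (2 * g + D) ∧ LvQ p k K' S W3 x' W' g' D' (3 * t) B' C' M' := by
  classical
  have k3 : (3 : k) ≠ 0 := by
    intro h3
    have := (CharP.cast_eq_zero_iff k p 3).1 (by exact_mod_cast h3)
    exact absurd (Nat.le_of_dvd (by norm_num) this) (by omega)
  have hnk : ((3 : ℕ) : k) ≠ 0 := by exact_mod_cast k3
  have k9 : (9 : k) ≠ 0 := by
    have : (9 : k) = 3 * 3 := by norm_num
    rw [this]
    exact mul_ne_zero k3 k3
  have c9 : ∀ {F : Type} [Field F] [Algebra k F], (9 : F) ≠ 0 ∧ (∀ v : DV F, v.ord (9 : F) = 0) ∧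
      (∀ v : DV F, v.G 0 (3 : F)) ∧ (3 : F) ≠ 0 ∧ (∀ v : DV F, v.ord (3 : F) = 0) := by
    intro F _ _
    have e9 : (9 : F) = algebraMap k F 9 := (map_ofNat (algebraMap k F) 9).symm
    have e3 : (3 : F) = algebraMap k F 3 := (map_ofNat (algebraMap k F) 3).symm
    refine ⟨?_, fun v => ?_, fun v => ?_, ?_, fun v => ?_⟩
    · rw [e9]; exact map_ne_zero' k9
    · rw [e9]; exact v.ord_const _
    · rw [e3]; exact v.G_const _
    · rw [e3]; exact map_ne_zero' k3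
    · rw [e3]; exact v.ord_const _
  obtain ⟨hff, hC, ⟨A, hA, hAd⟩, ⟨R, hRr, hRx, hRo, hRW, hR3⟩, ⟨T, hTt, hT⟩, hPl⟩ := h
  obtain ⟨K9, Ko9, KG3, K3, Ko3⟩ := c9 (F := K)
  -- the function `Θ`
  have hW0 : W ≠ 0 := by
    rintro rfl
    rw [R.ord_zero] at hRW
    omega
  set Θ : K := W * (9 - W ^ 2) with hΘ
  have hRΘ : Θ ≠ 0 ∧ R.ord Θ = R.ord W := by
    obtain ⟨h1, h2⟩ := DV.ord_add_of_lt (v := R) (a := (9 : K)) (b := -(W ^ 2)) K9 (by
      rw [Ko9]
      refine DV.G_of_le ?_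
      rw [R.ord_neg, R.ord_pow hW0]
      push_cast
      omega)
    rw [← sub_eq_add_neg] at h1 h2
    refine ⟨mul_ne_zero hW0 h1, ?_⟩
    rw [hΘ, R.ord_mul _ _ hW0 h1, h2, Ko9, add_zero]
  obtain ⟨hΘ0, hRΘ⟩ := hRΘ
  have hirr : ∀ b : K, b ^ 3 ≠ Θ := by
    intro b hb
    have hb0 : b ≠ 0 := by
      rintro rfl
      rw [zero_pow (by norm_num)] at hb
      exact hΘ0 hb.symm
    apply hR3
    rw [← hRΘ, ← hb, R.ord_pow hb0]
    exact ⟨R.ord b, by push_cast; ring⟩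
  obtain ⟨L, _, _, _, _, S₀, hθ⟩ := exists_km (k := k) Nat.prime_three hnk (prim_three k3 hω) hirr
  have hSΘ : S₀.Θ = Θ := by
    apply (algebraMap K L).injective
    rw [S₀.Θ_spec, hθ]
  obtain ⟨L9, Lo9, LG3, L3, Lo3⟩ := c9 (F := L)
  set z : L := S₀.θ with hz
  set WL : L := algebraMap K L W with hWL
  have hz3 : z ^ 3 = WL * (9 - WL ^ 2) := by
    rw [hθ, hΘ, map_mul, map_sub, map_pow, map_ofNat]
  have hR3' : ¬ (3 : ℤ) ∣ R.ord S₀.Θ := by rw [hSΘ, hRΘ]; exact hR3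
  have hcop : IsCoprime (R.ord S₀.Θ) ((3 : ℕ) : ℤ) := coprime_three hR3'
  -- outside `A` the function `Θ` is a unit
  have hout : ∀ v : DV K, v ∉ A → v.ord Θ = 0 := by
    intro v hv
    obtain ⟨o0, -, -, o3, o4, n0, -, -, n3, n4⟩ := (hA v hv).2
    have e : Θ = -(W * ((W - 3) * (W + 3))) := by rw [hΘ]; ring
    rw [e, v.ord_neg, v.ord_mul _ _ n0 (mul_ne_zero n3 n4), v.ord_mul _ _ n3 n4, o0, o3, o4]
    norm_num
  have hram : ∀ v : DV K, ¬ (3 : ℤ) ∣ v.ord S₀.Θ → v ∈ A := by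
    intro v hv
    by_contra hc
    rw [hSΘ, hout v hc] at hv
    exact hv (dvd_zero 3)
  -- the genus
  obtain ⟨g', hC', hg'⟩ := S₀.cv3 hC hR3'
  have hdgS : dgS (Nat.card k) {v : DV K | ¬ (3 : ℤ) ∣ v.ord S₀.Θ} =
      ∑ v ∈ A.filter (fun v => ¬ (3 : ℤ) ∣ v.ord S₀.Θ), v.deg (Nat.card k) := by
    have hset : {v : DV K | ¬ (3 : ℤ) ∣ v.ord S₀.Θ} =
        ((A.filter (fun v => ¬ (3 : ℤ) ∣ v.ord S₀.Θ) : Finset (DV K)) : Set (DV K)) := by
      ext v
      rw [mem_coe, mem_filter]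
      exact ⟨fun h => ⟨hram v h, h⟩, fun h => h.2⟩
    unfold dgS
    rw [hset, finsum_mem_coe_finset]
  -- the special places
  obtain ⟨A1, hA1, hA1d⟩ := exists_fibers (K' := L) (Nat.card k) 1
    (A.filter (fun v => ¬ (3 : ℤ) ∣ v.ord S₀.Θ)) fun v hv => by
      rw [mem_filter] at hv
      have hc : IsCoprime (v.ord S₀.Θ) ((3 : ℕ) : ℤ) := coprime_three hv.2
      refine ⟨{S₀.up v}, fun w => ?_, ?_⟩
      · rw [mem_singleton]
        constructor
        · rintro rfl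
          exact S₀.up_over v
        · intro hw
          exact S₀.over_unique hc hw (S₀.up_over v)
      · rw [sum_singleton, one_mul]
        exact (S₀.ram_deg hc (S₀.up_over v)).le
  obtain ⟨A2, hA2, hA2d⟩ := exists_fibers (K' := L) (Nat.card k) 3
    (A.filter (fun v => ¬ ¬ (3 : ℤ) ∣ v.ord S₀.Θ)) fun v hv => by
      rw [mem_filter, not_not] at hv
      refine ⟨(S₀.fib_finite v).toFinset, fun w => S₀.mem_fib, ?_⟩
      exact (S₀.sum_deg hC hC' (by exact_mod_cast hv.2)).le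
  have hsplit := sum_filter_add_sum_filter_not A (fun v => ¬ (3 : ℤ) ∣ v.ord S₀.Θ)
    (fun v => v.deg (Nat.card k))
  have : CharP L p := charP_of_injective_algebraMap (algebraMap k L).injective p
  have hPl' := HasPlO.km (p := p) S₀ Nat.prime_three hC hC' hRr (by exact_mod_cast hR3')
    (ρ := ∑ v ∈ A, v.deg (Nat.card k)) (fun A' hA' =>
      sum_le_sum_of_subset fun v hv => hram v (by exact_mod_cast hA' v hv)) hPl
  refine ⟨L, inferInstance, inferInstance, algebraMap K L x, 9 * WL / (z + WL) ^ 2, g',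
    ∑ v ∈ A1 ∪ A2, v.deg (Nat.card k), _, _, _, ?_, IsFF.ofFinite hff S₀.finite hC', hC',
    ⟨A1 ∪ A2, ?_, le_rfl⟩, ?_, ?_, hPl'⟩
  · have h1 : ∑ v ∈ A1 ∪ A2, v.deg (Nat.card k) ≤
        ∑ v ∈ A1, v.deg (Nat.card k) + ∑ v ∈ A2, v.deg (Nat.card k) := by
      rw [← sum_union_inter]
      exact Nat.le_add_right _ _
    rw [hdgS] at hg'
    omega
  · intro w hw
    rw [mem_union, not_or] at hw
    obtain ⟨v, hv⟩ := S₀.below w
    have hvA : v ∉ A := by
      intro hvA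
      by_cases h3 : ¬ (3 : ℤ) ∣ v.ord S₀.Θ
      · exact hw.1 ((hA1 w).2 ⟨v, mem_filter.2 ⟨hvA, h3⟩, hv⟩)
      · exact hw.2 ((hA2 w).2 ⟨v, mem_filter.2 ⟨hvA, h3⟩, hv⟩)
    obtain ⟨h1, h2⟩ := hA v hvA
    exact ⟨UO.map hv h1, UW.next L9 (Lo9 w) (LG3 w) (UW.map hv h2) hz3⟩
  · -- the pole
    have hov := S₀.up_over R
    obtain ⟨ho1, ho2⟩ := S₀.ram_ord hcop hov
    rw [hSΘ, hRΘ] at ho2
    have hx0 : x ≠ 0 := by
      rintro rfl
      rw [R.ord_zero] at hRx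
      omega
    have e1 := ho1 x hx0
    have e2 := ho1 W hW0
    push_cast at e1 e2
    rw [← hWL] at e2
    have hz0 : z ≠ 0 := S₀.θ_ne
    have hWL0 : WL ≠ 0 := map_ne_zero' hW0
    obtain ⟨hc0, hco⟩ := DV.ord_add_of_lt (v := S₀.up R) (a := z) (b := WL) hz0 (by
      rw [ho2]
      refine DV.G_of_le ?_
      rw [e2]
      omega)
    have e3 : (S₀.up R).ord (9 * WL / (z + WL) ^ 2) = R.ord W := by
      rw [(S₀.up R).ord_div (mul_ne_zero L9 hWL0) (pow_ne_zero 2 hc0),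
        (S₀.up R).ord_mul _ _ L9 hWL0, Lo9, (S₀.up R).ord_pow hc0, hco, ho2, e2]
      push_cast
      ring
    refine ⟨S₀.up R, S₀.ram_rat hcop hov hRr, by rw [e1]; omega, ?_, by rw [e3]; exact hRW, by
      rw [e3]; exact hR3⟩
    rw [e1]
    exact (by decide : Odd (3 : ℤ)).mul hRo
  · -- the points
    have hpt : ∀ v : DV K, ∃ Cv' : Finset k, ∃ wv : k, v ∈ T → Cv'.card = 3 ∧
        v.G 1 (W - algebraMap k K wv) ∧ wv ∈ W3 ∧ ∀ c ∈ Cv', c ^ 3 = wv * (9 - wv ^ 2) ∧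
          c + wv ≠ 0 ∧ 9 * wv / (c + wv) ^ 2 ∈ W3 := by
      intro v
      by_cases hv : v ∈ T
      · obtain ⟨-, -, w, hw3, hw⟩ := hT v hv
        obtain ⟨Cv', h1, h2⟩ := hW.cub w hw3
        exact ⟨Cv', w, fun _ => ⟨h1, hw, hw3, h2⟩⟩
      · exact ⟨∅, 0, fun h => absurd h hv⟩
    choose Cf wf hCf using hpt
    have hpl : ∀ q : Σ _ : DV K, k, ∃ w : DV L, (q.1 ∈ T ∧ q.2 ∈ Cf q.1) → Over w q.1 ∧
        w.G 1 (z - algebraMap k L q.2) := by
      rintro ⟨v, c⟩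
      by_cases hq : v ∈ T ∧ c ∈ Cf v
      · obtain ⟨-, h1, h2, h3⟩ := hCf v hq.1
        obtain ⟨h4, -, -⟩ := h3 c hq.2
        have h5 : v.G 1 (S₀.Θ - algebraMap k K (c ^ 3)) := by
          rw [hSΘ, hΘ, h4]
          have hd : v.G 0 (W) := by
            have := (h1.mono (show (0 : ℤ) ≤ 1 by norm_num)).add (v.G_const (wf v))
            rwa [sub_add_cancel] at this
          have Gc : v.G 0 (algebraMap k K (wf v)) := v.G_const _
          have G9 : v.G 0 (9 : K) := DV.G_of_le (Ko9 v).ge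
          have e : W * (9 - W ^ 2) - algebraMap k K (wf v * (9 - wf v ^ 2)) =
              (W - algebraMap k K (wf v)) * (9 - (W * W + W * algebraMap k K (wf v) +
                algebraMap k K (wf v) * algebraMap k K (wf v))) := by
            rw [map_mul, map_sub, map_pow, map_ofNat]
            ring
          rw [e]
          have g1 : v.G 0 (W * W) := (hd.mul hd).mono (by norm_num)
          have g2 : v.G 0 (W * algebraMap k K (wf v)) := (hd.mul Gc).mono (by norm_num)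
          have g3 : v.G 0 (algebraMap k K (wf v) * algebraMap k K (wf v)) :=
            (Gc.mul Gc).mono (by norm_num)
          have g4 := h1.mul (G9.sub ((g1.add g2).add g3))
          rwa [add_zero] at g4
        obtain ⟨w, hw1, hw2⟩ := S₀.exists_over_residue h5 0
        rw [pow_zero, one_mul] at hw2
        exact ⟨w, fun _ => ⟨hw1, hw2⟩⟩
      · exact ⟨S₀.up R, fun h' => absurd h' hq⟩
    choose G hG using hpl
    refine ⟨(T.sigma Cf).image G, ?_, ?_⟩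
    · rw [card_image_of_injOn, card_sigma]
      · calc 3 * t ≤ 3 * T.card := Nat.mul_le_mul_left _ hTt
          _ = ∑ _v ∈ T, 3 := by rw [sum_const, smul_eq_mul, mul_comm]
          _ = ∑ v ∈ T, (Cf v).card := sum_congr rfl fun v hv => ((hCf v hv).1).symm
          _ ≤ ∑ v ∈ T, (Cf v).card := le_rfl
      · rintro ⟨v, c⟩ hq ⟨v', c'⟩ hq' he
        simp only [coe_sigma, Set.mem_sigma_iff, mem_coe] at hq hq'
        obtain ⟨h1, h2⟩ := hG ⟨v, c⟩ hq
        obtain ⟨h1', h2'⟩ := hG ⟨v', c'⟩ hq'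
        rw [← he] at h1' h2'
        have e1 : v = v' := h1.unique h1'
        have e2 : c = c' := BaseM.const_inj h2 h2'
        rw [e1, e2]
    · intro w hw
      rw [mem_image] at hw
      obtain ⟨⟨v, c⟩, hq, rfl⟩ := hw
      rw [mem_sigma] at hq
      obtain ⟨h1, h2⟩ := hG ⟨v, c⟩ hq
      obtain ⟨-, h3, h4, h5⟩ := hCf v hq.1
      obtain ⟨h6, h7, h8⟩ := h5 c hq.2
      obtain ⟨hr, ⟨α, hα, hxα⟩, -⟩ := hT v hq.1
      obtain ⟨w0, w1, w9⟩ := hW.ne _ h4
      have hc0 : c ≠ 0 := by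
        rintro rfl
        rw [zero_pow (by norm_num)] at h6
        rcases mul_eq_zero.1 h6.symm with h | h
        · exact w0 h
        · exact w9 (by linear_combination -h)
      have h9 : v.ord S₀.Θ = 0 := by
        have e0 : (G ⟨v, c⟩).ord z = 0 := by
          have h10 := DV.ord_add_of_lt (v := G ⟨v, c⟩) (a := algebraMap k L c)
            (b := z - algebraMap k L c) (map_ne_zero' hc0) (by
              rw [DV.ord_const]
              exact h2)
          rw [add_sub_cancel, DV.ord_const] at h10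
          exact h10.2
        obtain ⟨e, he, ho⟩ := h1
        have h11 := ho S₀.Θ S₀.Θ_ne
        rw [S₀.Θ_spec, (G ⟨v, c⟩).ord_pow S₀.θ_ne, ← hz, e0, mul_zero] at h11
        rcases mul_eq_zero.1 h11.symm with h | h
        · omega
        · exact h
      refine ⟨S₀.rat_of_residue hr h9 h1 h2, ⟨α, hα, ?_⟩, _, h8, ?_⟩
      · rw [IsScalarTower.algebraMap_apply k K L, ← map_sub, h1.G_one_iff]
        exact hxα
      · refine G_quot h2 ?_ h7
        rw [hWL, IsScalarTower.algebraMap_apply k K L, ← map_sub, h1.G_one_iff]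
        exact h3

end Pool.Agent.FF
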