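import Pool.Agent.FO.DatF

/-! # Explicit data -/

set_option autoImplicit false

namespace Pool.Agent.FF

/-- data for `p = 17` -/
def dat17 : List (Grp 17 3) := [
  ([⟨1, 14⟩, ⟨4, 5⟩, ⟨13, 12⟩, ⟨16, 3⟩],
    [⟨2, 1⟩, ⟨5, 12⟩, ⟨10, 4⟩],
    [(⟨7, 15⟩, ⟨7, 12⟩), (⟨8, 13⟩, ⟨7, 2⟩), (⟨10, 15⟩, ⟨15, 0⟩), (⟨11, 4⟩, ⟨11, 10⟩), (⟨14, 7⟩, ⟨5, 10⟩)]),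
  ([⟨1, 3⟩, ⟨4, 12⟩, ⟨13, 5⟩, ⟨16, 14⟩],
    [⟨2, 16⟩, ⟨5, 5⟩, ⟨10, 13⟩],
    [(⟨7, 2⟩, ⟨7, 5⟩), (⟨8, 4⟩, ⟨7, 15⟩), (⟨10, 2⟩, ⟨15, 0⟩), (⟨11, 13⟩, ⟨11, 7⟩), (⟨14, 10⟩, ⟨5, 7⟩)]),
  ([⟨1, 4⟩, ⟨4, 16⟩, ⟨13, 1⟩, ⟨16, 13⟩],
    [⟨2, 8⟩, ⟨2, 9⟩, ⟨13, 0⟩],
    [(⟨8, 4⟩, ⟨10, 2⟩), (⟨9, 2⟩, ⟨0, 8⟩), (⟨9, 2⟩, ⟨0, 9⟩), (⟨9, 13⟩, ⟨0, 1⟩), (⟨10, 4⟩, ⟨7, 2⟩)]),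
  ([⟨2, 6⟩, ⟨8, 7⟩, ⟨9, 10⟩, ⟨15, 11⟩],
    [⟨4, 0⟩, ⟨15, 8⟩, ⟨15, 9⟩],
    [(⟨8, 12⟩, ⟨16, 5⟩), (⟨9, 6⟩, ⟨0, 14⟩), (⟨9, 12⟩, ⟨0, 1⟩), (⟨9, 13⟩, ⟨0, 16⟩), (⟨10, 12⟩, ⟨1, 5⟩)]),
  ([⟨2, 11⟩, ⟨8, 10⟩, ⟨9, 7⟩, ⟨15, 6⟩],
    [⟨4, 0⟩, ⟨15, 8⟩, ⟨15, 9⟩],
    [(⟨8, 5⟩, ⟨16, 12⟩), (⟨9, 4⟩, ⟨0, 1⟩), (⟨9, 5⟩, ⟨0, 16⟩), (⟨9, 11⟩, ⟨0, 3⟩), (⟨10, 5⟩, ⟨1, 12⟩)]),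
  ([⟨1, 13⟩, ⟨4, 1⟩, ⟨13, 16⟩, ⟨16, 4⟩],
    [⟨2, 8⟩, ⟨2, 9⟩, ⟨13, 0⟩],
    [(⟨8, 13⟩, ⟨10, 15⟩), (⟨9, 4⟩, ⟨0, 16⟩), (⟨9, 15⟩, ⟨0, 8⟩), (⟨9, 15⟩, ⟨0, 9⟩), (⟨10, 13⟩, ⟨7, 15⟩)]),
  ([⟨6, 11⟩, ⟨7, 10⟩, ⟨10, 7⟩, ⟨11, 6⟩],
    [⟨2, 16⟩, ⟨5, 5⟩, ⟨10, 13⟩],
    [(⟨4, 7⟩, ⟨12, 10⟩), (⟨7, 4⟩, ⟨6, 10⟩), (⟨8, 15⟩, ⟨2, 0⟩), (⟨10, 13⟩, ⟨10, 2⟩), (⟨11, 15⟩, ⟨10, 12⟩)]),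
  ([⟨6, 6⟩, ⟨7, 7⟩, ⟨10, 10⟩, ⟨11, 11⟩],
    [⟨2, 1⟩, ⟨5, 12⟩, ⟨10, 4⟩],
    [(⟨4, 10⟩, ⟨12, 7⟩), (⟨7, 13⟩, ⟨6, 7⟩), (⟨8, 2⟩, ⟨2, 0⟩), (⟨10, 4⟩, ⟨10, 15⟩), (⟨11, 2⟩, ⟨10, 5⟩)])]

theorem dat17_spec {k : Type} [Field k] (hk : Nat.card k = 17 ^ 2) :
    ∃ S : Finset k, S.card = 2 * (17 - 1) ∧ SSet S ∧ Good5 k S ∧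
      ∀ α ∈ S, ∃ Z : Finset k, Z.card = 3 ∧ ∀ z ∈ Z, z ^ 3 = 4 * α ^ 4 * (1 - α ^ 4) :=
  dat_core (by norm_num) (by norm_num) hk 3 (by decide +kernel) dat17 (by decide +kernel)
    (by decide +kernel) (by decide +kernel) (by decide +kernel)

/-- data for `p = 19` -/
def dat19 : List (Grp 19 2) := [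
  ([⟨4, 7⟩, ⟨4, 12⟩, ⟨15, 7⟩, ⟨15, 12⟩],
    [⟨5, 0⟩, ⟨16, 0⟩, ⟨17, 0⟩],
    [(⟨0, 0⟩, ⟨17, 0⟩), (⟨10, 2⟩, ⟨4, 0⟩), (⟨10, 17⟩, ⟨4, 0⟩), (⟨17, 7⟩, ⟨7, 15⟩), (⟨17, 12⟩, ⟨7, 4⟩)]),
  ([⟨2, 15⟩, ⟨5, 13⟩, ⟨14, 6⟩, ⟨17, 4⟩],
    [⟨1, 15⟩, ⟨7, 10⟩, ⟨11, 13⟩],
    [(⟨2, 0⟩, ⟨0, 8⟩), (⟨2, 9⟩, ⟨1, 0⟩), (⟨3, 18⟩, ⟨18, 14⟩), (⟨6, 2⟩, ⟨6, 2⟩), (⟨8, 18⟩, ⟨1, 11⟩)]),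
  ([⟨2, 4⟩, ⟨5, 6⟩, ⟨14, 13⟩, ⟨17, 15⟩],
    [⟨1, 4⟩, ⟨7, 9⟩, ⟨11, 6⟩],
    [(⟨2, 0⟩, ⟨0, 11⟩), (⟨2, 10⟩, ⟨1, 0⟩), (⟨3, 1⟩, ⟨18, 5⟩), (⟨6, 17⟩, ⟨6, 17⟩), (⟨8, 1⟩, ⟨1, 8⟩)]),
  ([⟨7, 2⟩, ⟨7, 17⟩, ⟨12, 2⟩, ⟨12, 17⟩],
    [⟨1, 0⟩, ⟨7, 0⟩, ⟨11, 0⟩],
    [(⟨3, 7⟩, ⟨7, 4⟩), (⟨3, 12⟩, ⟨7, 15⟩), (⟨17, 7⟩, ⟨12, 4⟩), (⟨17, 12⟩, ⟨12, 15⟩)]),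
  ([⟨4, 8⟩, ⟨9, 7⟩, ⟨10, 12⟩, ⟨15, 11⟩],
    [⟨4, 0⟩, ⟨6, 0⟩, ⟨9, 0⟩],
    [(⟨6, 11⟩, ⟨12, 12⟩), (⟨7, 4⟩, ⟨5, 18⟩), (⟨10, 0⟩, ⟨0, 1⟩), (⟨13, 4⟩, ⟨14, 18⟩), (⟨14, 11⟩, ⟨7, 12⟩)]),
  ([⟨4, 11⟩, ⟨9, 12⟩, ⟨10, 7⟩, ⟨15, 8⟩],
    [⟨4, 0⟩, ⟨6, 0⟩, ⟨9, 0⟩],
    [(⟨6, 8⟩, ⟨12, 7⟩), (⟨7, 15⟩, ⟨5, 1⟩), (⟨10, 0⟩, ⟨0, 18⟩), (⟨13, 15⟩, ⟨14, 1⟩), (⟨14, 8⟩, ⟨7, 7⟩)]),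
  ([⟨1, 18⟩, ⟨6, 16⟩, ⟨13, 3⟩, ⟨18, 1⟩],
    [⟨1, 4⟩, ⟨7, 9⟩, ⟨11, 6⟩],
    [(⟨12, 18⟩, ⟨18, 11⟩), (⟨14, 2⟩, ⟨13, 2⟩), (⟨17, 18⟩, ⟨1, 14⟩), (⟨18, 0⟩, ⟨0, 8⟩), (⟨18, 9⟩, ⟨18, 0⟩)]),
  ([⟨1, 1⟩, ⟨6, 3⟩, ⟨13, 16⟩, ⟨18, 18⟩],
    [⟨1, 15⟩, ⟨7, 10⟩, ⟨11, 13⟩],
    [(⟨12, 1⟩, ⟨18, 8⟩), (⟨14, 17⟩, ⟨13, 17⟩), (⟨17, 1⟩, ⟨1, 5⟩), (⟨18, 0⟩, ⟨0, 11⟩), (⟨18, 10⟩, ⟨18, 0⟩)]),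
  ([⟨3, 9⟩, ⟨3, 10⟩, ⟨16, 9⟩, ⟨16, 10⟩],
    [⟨5, 0⟩, ⟨16, 0⟩, ⟨17, 0⟩],
    [(⟨1, 0⟩, ⟨2, 0⟩), (⟨3, 7⟩, ⟨12, 15⟩), (⟨3, 12⟩, ⟨12, 4⟩), (⟨10, 2⟩, ⟨15, 0⟩), (⟨10, 17⟩, ⟨15, 0⟩)])]

theorem dat19_spec {k : Type} [Field k] (hk : Nat.card k = 19 ^ 2) :
    ∃ S : Finset k, S.card = 2 * (19 - 1) ∧ SSet S ∧ Good5 k S ∧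
      ∀ α ∈ S, ∃ Z : Finset k, Z.card = 3 ∧ ∀ z ∈ Z, z ^ 3 = 4 * α ^ 4 * (1 - α ^ 4) :=
  dat_core (by norm_num) (by norm_num) hk 2 (by decide +kernel) dat19 (by decide +kernel)
    (by decide +kernel) (by decide +kernel) (by decide +kernel)

/-- data for `p = 23` -/
def dat23 : List (Grp 23 5) := [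
  ([⟨0, 1⟩, ⟨0, 22⟩, ⟨8, 0⟩, ⟨15, 0⟩],
    [⟨1, 2⟩, ⟨1, 21⟩, ⟨21, 0⟩],
    [(⟨0, 0⟩, ⟨21, 0⟩), (⟨5, 0⟩, ⟨6, 0⟩), (⟨7, 0⟩, ⟨15, 0⟩), (⟨11, 11⟩, ⟨22, 18⟩), (⟨11, 12⟩, ⟨22, 5⟩)]),
  ([⟨0, 11⟩, ⟨0, 12⟩, ⟨4, 0⟩, ⟨19, 0⟩],
    [⟨12, 1⟩, ⟨12, 22⟩, ⟨22, 0⟩],
    [(⟨4, 0⟩, ⟨3, 0⟩), (⟨7, 0⟩, ⟨8, 0⟩), (⟨8, 1⟩, ⟨11, 21⟩), (⟨8, 22⟩, ⟨11, 2⟩), (⟨22, 0⟩, ⟨17, 0⟩)]),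
  ([⟨0, 5⟩, ⟨0, 18⟩, ⟨6, 0⟩, ⟨17, 0⟩],
    [⟨8, 0⟩, ⟨19, 8⟩, ⟨19, 15⟩],
    [(⟨6, 0⟩, ⟨4, 0⟩), (⟨10, 0⟩, ⟨19, 0⟩), (⟨13, 7⟩, ⟨19, 15⟩), (⟨13, 16⟩, ⟨19, 8⟩), (⟨22, 0⟩, ⟨6, 0⟩)]),
  ([⟨4, 11⟩, ⟨4, 12⟩, ⟨19, 11⟩, ⟨19, 12⟩],
    [⟨6, 11⟩, ⟨6, 12⟩, ⟨11, 0⟩],
    [(⟨12, 0⟩, ⟨18, 0⟩), (⟨15, 0⟩, ⟨18, 0⟩), (⟨15, 11⟩, ⟨22, 22⟩), (⟨15, 12⟩, ⟨22, 1⟩), (⟨19, 0⟩, ⟨6, 0⟩)]),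
  ([⟨0, 9⟩, ⟨0, 14⟩, ⟨3, 0⟩, ⟨20, 0⟩],
    [⟨1, 0⟩, ⟨11, 1⟩, ⟨11, 22⟩],
    [(⟨10, 0⟩, ⟨4, 0⟩), (⟨12, 11⟩, ⟨0, 14⟩), (⟨12, 12⟩, ⟨0, 9⟩), (⟨14, 0⟩, ⟨19, 0⟩)]),
  ([⟨4, 16⟩, ⟨10, 12⟩, ⟨13, 11⟩, ⟨19, 7⟩],
    [⟨3, 0⟩, ⟨10, 3⟩, ⟨10, 20⟩],
    [(⟨0, 20⟩, ⟨4, 12⟩), (⟨1, 20⟩, ⟨19, 12⟩), (⟨12, 1⟩, ⟨0, 1⟩), (⟨12, 1⟩, ⟨0, 22⟩), (⟨12, 10⟩, ⟨0, 6⟩)]),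
  ([⟨4, 7⟩, ⟨10, 11⟩, ⟨13, 12⟩, ⟨19, 16⟩],
    [⟨3, 0⟩, ⟨10, 3⟩, ⟨10, 20⟩],
    [(⟨0, 3⟩, ⟨4, 11⟩), (⟨1, 3⟩, ⟨19, 11⟩), (⟨12, 13⟩, ⟨0, 17⟩), (⟨12, 22⟩, ⟨0, 1⟩), (⟨12, 22⟩, ⟨0, 22⟩)]),
  ([⟨0, 10⟩, ⟨0, 13⟩, ⟨11, 0⟩, ⟨12, 0⟩],
    [⟨6, 11⟩, ⟨6, 12⟩, ⟨11, 0⟩],
    [(⟨5, 0⟩, ⟨17, 0⟩), (⟨9, 0⟩, ⟨5, 0⟩), (⟨9, 11⟩, ⟨1, 22⟩), (⟨9, 12⟩, ⟨1, 1⟩), (⟨12, 0⟩, ⟨5, 0⟩)]),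
  ([⟨0, 6⟩, ⟨0, 17⟩, ⟨2, 0⟩, ⟨21, 0⟩],
    [⟨8, 0⟩, ⟨19, 8⟩, ⟨19, 15⟩],
    [(⟨2, 0⟩, ⟨17, 0⟩), (⟨11, 7⟩, ⟨4, 15⟩), (⟨11, 16⟩, ⟨4, 8⟩), (⟨14, 0⟩, ⟨4, 0⟩), (⟨18, 0⟩, ⟨19, 0⟩)]),
  ([⟨3, 9⟩, ⟨3, 14⟩, ⟨20, 9⟩, ⟨20, 14⟩],
    [⟨12, 1⟩, ⟨12, 22⟩, ⟨22, 0⟩],
    [(⟨2, 0⟩, ⟨6, 0⟩), (⟨16, 1⟩, ⟨12, 21⟩), (⟨16, 22⟩, ⟨12, 2⟩), (⟨17, 0⟩, ⟨15, 0⟩), (⟨20, 0⟩, ⟨20, 0⟩)]),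
  ([⟨9, 4⟩, ⟨9, 19⟩, ⟨14, 4⟩, ⟨14, 19⟩],
    [⟨1, 2⟩, ⟨1, 21⟩, ⟨21, 0⟩],
    [(⟨1, 0⟩, ⟨2, 0⟩), (⟨13, 11⟩, ⟨1, 18⟩), (⟨13, 12⟩, ⟨1, 5⟩), (⟨17, 0⟩, ⟨8, 0⟩), (⟨19, 0⟩, ⟨17, 0⟩)])]

theorem dat23_spec {k : Type} [Field k] (hk : Nat.card k = 23 ^ 2) :
    ∃ S : Finset k, S.card = 2 * (23 - 1) ∧ SSet S ∧ Good5 k S ∧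
      ∀ α ∈ S, ∃ Z : Finset k, Z.card = 3 ∧ ∀ z ∈ Z, z ^ 3 = 4 * α ^ 4 * (1 - α ^ 4) :=
  dat_core (by norm_num) (by norm_num) hk 5 (by decide +kernel) dat23 (by decide +kernel)
    (by decide +kernel) (by decide +kernel) (by decide +kernel)

end Pool.Agent.FF
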