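import Pool.Agent.FO.DatF

/-! # Explicit data -/

set_option autoImplicit false

namespace Pool.Agent.FF

/-- data for `p = 29` -/
def dat29 : List (Grp 29 2) := [
  ([⟨3, 5⟩, ⟨7, 2⟩, ⟨22, 27⟩, ⟨26, 24⟩],
    [⟨10, 20⟩, ⟨21, 11⟩, ⟨27, 27⟩],
    [(⟨14, 1⟩, ⟨12, 13⟩), (⟨17, 26⟩, ⟨19, 14⟩), (⟨21, 16⟩, ⟨20, 26⟩), (⟨22, 13⟩, ⟨8, 23⟩), (⟨22, 20⟩, ⟨14, 26⟩)]),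
  ([⟨3, 24⟩, ⟨7, 27⟩, ⟨22, 2⟩, ⟨26, 5⟩],
    [⟨10, 9⟩, ⟨21, 18⟩, ⟨27, 2⟩],
    [(⟨14, 28⟩, ⟨12, 16⟩), (⟨17, 3⟩, ⟨19, 15⟩), (⟨21, 13⟩, ⟨20, 3⟩), (⟨22, 9⟩, ⟨14, 3⟩), (⟨22, 16⟩, ⟨8, 6⟩)]),
  ([⟨11, 25⟩, ⟨13, 19⟩, ⟨16, 10⟩, ⟨18, 4⟩],
    [⟨2, 10⟩, ⟨12, 5⟩, ⟨15, 14⟩],
    [(⟨7, 21⟩, ⟨25, 26⟩), (⟨8, 16⟩, ⟨8, 23⟩), (⟨23, 19⟩, ⟨9, 10⟩), (⟨23, 27⟩, ⟨22, 0⟩), (⟨27, 24⟩, ⟨25, 2⟩)]),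
  ([⟨11, 4⟩, ⟨13, 10⟩, ⟨16, 19⟩, ⟨18, 25⟩],
    [⟨2, 19⟩, ⟨12, 24⟩, ⟨15, 15⟩],
    [(⟨7, 8⟩, ⟨25, 3⟩), (⟨8, 13⟩, ⟨8, 6⟩), (⟨23, 2⟩, ⟨22, 0⟩), (⟨23, 10⟩, ⟨9, 19⟩), (⟨27, 5⟩, ⟨25, 27⟩)]),
  ([⟨8, 24⟩, ⟨9, 27⟩, ⟨20, 2⟩, ⟨21, 5⟩],
    [⟨8, 7⟩, ⟨8, 22⟩, ⟨13, 0⟩],
    [(⟨6, 27⟩, ⟨3, 0⟩), (⟨11, 1⟩, ⟨8, 0⟩), (⟨15, 28⟩, ⟨0, 10⟩), (⟨19, 1⟩, ⟨21, 0⟩), (⟨24, 27⟩, ⟨26, 0⟩)]),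
  ([⟨3, 19⟩, ⟨7, 25⟩, ⟨22, 4⟩, ⟨26, 10⟩],
    [⟨9, 0⟩, ⟨10, 13⟩, ⟨10, 16⟩],
    [(⟨3, 25⟩, ⟨10, 5⟩), (⟨15, 5⟩, ⟨11, 0⟩), (⟨15, 5⟩, ⟨18, 0⟩), (⟨15, 9⟩, ⟨0, 23⟩), (⟨27, 25⟩, ⟨19, 5⟩)]),
  ([⟨4, 2⟩, ⟨10, 5⟩, ⟨19, 24⟩, ⟨25, 27⟩],
    [⟨15, 5⟩, ⟨15, 24⟩, ⟨28, 0⟩],
    [(⟨6, 4⟩, ⟨6, 7⟩), (⟨7, 14⟩, ⟨3, 12⟩), (⟨15, 28⟩, ⟨0, 19⟩), (⟨23, 14⟩, ⟨26, 12⟩), (⟨24, 4⟩, ⟨23, 7⟩)]),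
  ([⟨4, 27⟩, ⟨10, 24⟩, ⟨19, 5⟩, ⟨25, 2⟩],
    [⟨15, 5⟩, ⟨15, 24⟩, ⟨28, 0⟩],
    [(⟨6, 25⟩, ⟨6, 22⟩), (⟨7, 15⟩, ⟨3, 17⟩), (⟨15, 1⟩, ⟨0, 10⟩), (⟨23, 15⟩, ⟨26, 17⟩), (⟨24, 25⟩, ⟨23, 22⟩)]),
  ([⟨3, 10⟩, ⟨7, 4⟩, ⟨22, 25⟩, ⟨26, 19⟩],
    [⟨9, 0⟩, ⟨10, 13⟩, ⟨10, 16⟩],
    [(⟨3, 4⟩, ⟨10, 24⟩), (⟨15, 20⟩, ⟨0, 6⟩), (⟨15, 24⟩, ⟨11, 0⟩), (⟨15, 24⟩, ⟨18, 0⟩), (⟨27, 4⟩, ⟨19, 24⟩)]),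
  ([⟨8, 5⟩, ⟨9, 2⟩, ⟨20, 27⟩, ⟨21, 24⟩],
    [⟨8, 7⟩, ⟨8, 22⟩, ⟨13, 0⟩],
    [(⟨6, 2⟩, ⟨3, 0⟩), (⟨11, 28⟩, ⟨8, 0⟩), (⟨15, 1⟩, ⟨0, 19⟩), (⟨19, 28⟩, ⟨21, 0⟩), (⟨24, 2⟩, ⟨26, 0⟩)]),
  ([⟨8, 3⟩, ⟨9, 7⟩, ⟨20, 22⟩, ⟨21, 26⟩],
    [⟨2, 19⟩, ⟨12, 24⟩, ⟨15, 15⟩],
    [(⟨3, 24⟩, ⟨4, 2⟩), (⟨7, 19⟩, ⟨20, 10⟩), (⟨7, 27⟩, ⟨7, 0⟩), (⟨22, 16⟩, ⟨21, 23⟩), (⟨23, 21⟩, ⟨4, 26⟩)]),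
  ([⟨8, 26⟩, ⟨9, 22⟩, ⟨20, 7⟩, ⟨21, 3⟩],
    [⟨2, 10⟩, ⟨12, 5⟩, ⟨15, 14⟩],
    [(⟨3, 5⟩, ⟨4, 27⟩), (⟨7, 2⟩, ⟨7, 0⟩), (⟨7, 10⟩, ⟨20, 19⟩), (⟨22, 13⟩, ⟨21, 6⟩), (⟨23, 8⟩, ⟨4, 3⟩)]),
  ([⟨6, 3⟩, ⟨14, 7⟩, ⟨15, 22⟩, ⟨23, 26⟩],
    [⟨10, 9⟩, ⟨21, 18⟩, ⟨27, 2⟩],
    [(⟨8, 13⟩, ⟨21, 23⟩), (⟨8, 20⟩, ⟨15, 26⟩), (⟨9, 16⟩, ⟨9, 26⟩), (⟨13, 26⟩, ⟨10, 14⟩), (⟨16, 1⟩, ⟨17, 13⟩)]),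
  ([⟨6, 26⟩, ⟨14, 22⟩, ⟨15, 7⟩, ⟨23, 3⟩],
    [⟨10, 20⟩, ⟨21, 11⟩, ⟨27, 27⟩],
    [(⟨8, 9⟩, ⟨15, 3⟩), (⟨8, 16⟩, ⟨21, 6⟩), (⟨9, 13⟩, ⟨9, 3⟩), (⟨13, 3⟩, ⟨10, 15⟩), (⟨16, 28⟩, ⟨17, 16⟩)])]

theorem dat29_spec {k : Type} [Field k] (hk : Nat.card k = 29 ^ 2) :
    ∃ S : Finset k, S.card = 2 * (29 - 1) ∧ SSet S ∧ Good5 k S ∧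
      ∀ α ∈ S, ∃ Z : Finset k, Z.card = 3 ∧ ∀ z ∈ Z, z ^ 3 = 4 * α ^ 4 * (1 - α ^ 4) :=
  dat_core (by norm_num) (by norm_num) hk 2 (by decide +kernel) dat29 (by decide +kernel)
    (by decide +kernel) (by decide +kernel) (by decide +kernel)

end Pool.Agent.FF
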