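import Pool.Agent.FO.DatF

/-! # Explicit data -/

set_option autoImplicit false

namespace Pool.Agent.FF

/-- data for `p = 31` -/
def dat31 : List (Grp 31 3) := [
  ([⟨7, 4⟩, ⟨13, 5⟩, ⟨18, 26⟩, ⟨24, 27⟩],
    [⟨11, 1⟩, ⟨24, 5⟩, ⟨27, 25⟩],
    [(⟨7, 29⟩, ⟨16, 10⟩), (⟨15, 18⟩, ⟨1, 12⟩), (⟨20, 28⟩, ⟨8, 3⟩), (⟨26, 25⟩, ⟨25, 2⟩), (⟨27, 10⟩, ⟨5, 2⟩)]),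
  ([⟨7, 27⟩, ⟨13, 26⟩, ⟨18, 5⟩, ⟨24, 4⟩],
    [⟨11, 30⟩, ⟨24, 26⟩, ⟨27, 6⟩],
    [(⟨7, 2⟩, ⟨16, 21⟩), (⟨15, 13⟩, ⟨1, 19⟩), (⟨20, 3⟩, ⟨8, 28⟩), (⟨26, 6⟩, ⟨25, 29⟩), (⟨27, 21⟩, ⟨5, 29⟩)]),
  ([⟨8, 4⟩, ⟨13, 19⟩, ⟨18, 12⟩, ⟨23, 27⟩],
    [⟨11, 30⟩, ⟨24, 26⟩, ⟨27, 6⟩],
    [(⟨5, 10⟩, ⟨26, 2⟩), (⟨6, 25⟩, ⟨6, 2⟩), (⟨12, 28⟩, ⟨23, 3⟩), (⟨17, 18⟩, ⟨30, 12⟩), (⟨25, 29⟩, ⟨15, 10⟩)]),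
  ([⟨8, 27⟩, ⟨13, 12⟩, ⟨18, 19⟩, ⟨23, 4⟩],
    [⟨11, 1⟩, ⟨24, 5⟩, ⟨27, 25⟩],
    [(⟨5, 21⟩, ⟨26, 29⟩), (⟨6, 6⟩, ⟨6, 29⟩), (⟨12, 3⟩, ⟨23, 28⟩), (⟨17, 13⟩, ⟨30, 19⟩), (⟨25, 2⟩, ⟨15, 21⟩)]),
  ([⟨0, 7⟩, ⟨0, 24⟩, ⟨15, 0⟩, ⟨16, 0⟩],
    [⟨12, 0⟩, ⟨21, 0⟩, ⟨29, 0⟩],
    [(⟨0, 0⟩, ⟨29, 0⟩), (⟨20, 12⟩, ⟨26, 15⟩), (⟨20, 19⟩, ⟨26, 16⟩), (⟨23, 9⟩, ⟨17, 2⟩), (⟨23, 22⟩, ⟨17, 29⟩)]),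
  ([⟨12, 13⟩, ⟨12, 18⟩, ⟨19, 13⟩, ⟨19, 18⟩],
    [⟨6, 0⟩, ⟨26, 0⟩, ⟨30, 0⟩],
    [(⟨2, 0⟩, ⟨2, 0⟩), (⟨12, 11⟩, ⟨11, 18⟩), (⟨12, 20⟩, ⟨11, 13⟩), (⟨22, 6⟩, ⟨0, 15⟩), (⟨22, 25⟩, ⟨0, 16⟩)]),
  ([⟨9, 2⟩, ⟨9, 29⟩, ⟨22, 2⟩, ⟨22, 29⟩],
    [⟨3, 0⟩, ⟨13, 0⟩, ⟨15, 0⟩],
    [(⟨16, 0⟩, ⟨8, 0⟩), (⟨21, 14⟩, ⟨14, 20⟩), (⟨21, 17⟩, ⟨14, 11⟩), (⟨25, 10⟩, ⟨4, 20⟩), (⟨25, 21⟩, ⟨4, 11⟩)]),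
  ([⟨0, 5⟩, ⟨0, 26⟩, ⟨7, 0⟩, ⟨24, 0⟩],
    [⟨8, 0⟩, ⟨9, 0⟩, ⟨14, 0⟩],
    [(⟨22, 7⟩, ⟨3, 7⟩), (⟨22, 24⟩, ⟨3, 24⟩), (⟨24, 7⟩, ⟨6, 11⟩), (⟨24, 24⟩, ⟨6, 20⟩), (⟨30, 0⟩, ⟨2, 0⟩)]),
  ([⟨0, 3⟩, ⟨0, 28⟩, ⟨2, 0⟩, ⟨29, 0⟩],
    [⟨1, 0⟩, ⟨5, 0⟩, ⟨25, 0⟩],
    [(⟨11, 12⟩, ⟨11, 12⟩), (⟨11, 19⟩, ⟨11, 19⟩), (⟨21, 12⟩, ⟨20, 12⟩), (⟨21, 19⟩, ⟨20, 19⟩)]),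
  ([⟨5, 24⟩, ⟨15, 23⟩, ⟨16, 8⟩, ⟨26, 7⟩],
    [⟨4, 0⟩, ⟨7, 0⟩, ⟨20, 0⟩],
    [(⟨9, 18⟩, ⟨19, 12⟩), (⟨14, 13⟩, ⟨19, 24⟩), (⟨16, 27⟩, ⟨0, 30⟩), (⟨18, 13⟩, ⟨12, 24⟩), (⟨23, 18⟩, ⟨12, 12⟩)]),
  ([⟨5, 7⟩, ⟨15, 8⟩, ⟨16, 23⟩, ⟨26, 24⟩],
    [⟨4, 0⟩, ⟨7, 0⟩, ⟨20, 0⟩],
    [(⟨9, 13⟩, ⟨19, 19⟩), (⟨14, 18⟩, ⟨19, 7⟩), (⟨16, 4⟩, ⟨0, 1⟩), (⟨18, 18⟩, ⟨12, 7⟩), (⟨23, 13⟩, ⟨12, 19⟩)]),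
  ([⟨0, 15⟩, ⟨0, 16⟩, ⟨10, 0⟩, ⟨21, 0⟩],
    [⟨8, 0⟩, ⟨9, 0⟩, ⟨14, 0⟩],
    [(⟨2, 0⟩, ⟨29, 0⟩), (⟨8, 7⟩, ⟨25, 11⟩), (⟨8, 24⟩, ⟨25, 20⟩), (⟨10, 7⟩, ⟨28, 7⟩), (⟨10, 24⟩, ⟨28, 24⟩)]),
  ([⟨0, 11⟩, ⟨0, 20⟩, ⟨3, 0⟩, ⟨28, 0⟩],
    [⟨3, 0⟩, ⟨13, 0⟩, ⟨15, 0⟩],
    [(⟨7, 10⟩, ⟨27, 20⟩), (⟨7, 21⟩, ⟨27, 11⟩), (⟨11, 14⟩, ⟨17, 20⟩), (⟨11, 17⟩, ⟨17, 11⟩), (⟨16, 0⟩, ⟨23, 0⟩)]),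
  ([⟨0, 2⟩, ⟨0, 29⟩, ⟨9, 0⟩, ⟨22, 0⟩],
    [⟨6, 0⟩, ⟨26, 0⟩, ⟨30, 0⟩],
    [(⟨10, 6⟩, ⟨0, 15⟩), (⟨10, 25⟩, ⟨0, 16⟩), (⟨20, 11⟩, ⟨20, 18⟩), (⟨20, 20⟩, ⟨20, 13⟩), (⟨30, 0⟩, ⟨29, 0⟩)]),
  ([⟨4, 6⟩, ⟨4, 25⟩, ⟨27, 6⟩, ⟨27, 25⟩],
    [⟨12, 0⟩, ⟨21, 0⟩, ⟨29, 0⟩],
    [(⟨1, 0⟩, ⟨2, 0⟩), (⟨9, 9⟩, ⟨14, 2⟩), (⟨9, 22⟩, ⟨14, 29⟩), (⟨12, 12⟩, ⟨5, 15⟩), (⟨12, 19⟩, ⟨5, 16⟩)])]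

theorem dat31_spec {k : Type} [Field k] (hk : Nat.card k = 31 ^ 2) :
    ∃ S : Finset k, S.card = 2 * (31 - 1) ∧ SSet S ∧ Good5 k S ∧
      ∀ α ∈ S, ∃ Z : Finset k, Z.card = 3 ∧ ∀ z ∈ Z, z ^ 3 = 4 * α ^ 4 * (1 - α ^ 4) :=
  dat_core (by norm_num) (by norm_num) hk 3 (by decide +kernel) dat31 (by decide +kernel)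
    (by decide +kernel) (by decide +kernel) (by decide +kernel)

end Pool.Agent.FF
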