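import Pool.Agent.FO.DatF

/-! # Explicit data -/

set_option autoImplicit false

namespace Pool.Agent.FF

/-- data for `p = 37` -/
def dat37 : List (Grp 37 2) := [
  ([⟨5, 35⟩, ⟨7, 12⟩, ⟨30, 25⟩, ⟨32, 2⟩],
    [⟨5, 32⟩, ⟨13, 24⟩, ⟨19, 18⟩],
    [(⟨1, 2⟩, ⟨23, 23⟩), (⟨12, 9⟩, ⟨25, 10⟩), (⟨21, 30⟩, ⟨12, 7⟩), (⟨23, 6⟩, ⟨31, 9⟩), (⟨26, 12⟩, ⟨32, 32⟩)]),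
  ([⟨5, 2⟩, ⟨7, 25⟩, ⟨30, 12⟩, ⟨32, 35⟩],
    [⟨5, 5⟩, ⟨13, 13⟩, ⟨19, 19⟩],
    [(⟨1, 35⟩, ⟨23, 14⟩), (⟨12, 28⟩, ⟨25, 27⟩), (⟨21, 7⟩, ⟨12, 30⟩), (⟨23, 31⟩, ⟨31, 28⟩), (⟨26, 25⟩, ⟨32, 5⟩)]),
  ([⟨4, 14⟩, ⟨13, 27⟩, ⟨24, 10⟩, ⟨33, 23⟩],
    [⟨17, 17⟩, ⟨22, 22⟩, ⟨35, 35⟩],
    [(⟨5, 30⟩, ⟨8, 16⟩), (⟨11, 10⟩, ⟨9, 15⟩), (⟨12, 4⟩, ⟨9, 4⟩), (⟨20, 35⟩, ⟨23, 18⟩), (⟨32, 7⟩, ⟨26, 25⟩)]),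
  ([⟨4, 23⟩, ⟨13, 10⟩, ⟨24, 27⟩, ⟨33, 14⟩],
    [⟨17, 20⟩, ⟨22, 15⟩, ⟨35, 2⟩],
    [(⟨5, 7⟩, ⟨8, 21⟩), (⟨11, 27⟩, ⟨9, 22⟩), (⟨12, 33⟩, ⟨9, 33⟩), (⟨20, 2⟩, ⟨23, 19⟩), (⟨32, 30⟩, ⟨26, 12⟩)]),
  ([⟨8, 14⟩, ⟨11, 10⟩, ⟨26, 27⟩, ⟨29, 23⟩],
    [⟨18, 36⟩, ⟨24, 11⟩, ⟨32, 27⟩],
    [(⟨0, 28⟩, ⟨13, 12⟩), (⟨3, 21⟩, ⟨6, 35⟩), (⟨3, 34⟩, ⟨1, 8⟩), (⟨9, 32⟩, ⟨15, 17⟩), (⟨12, 30⟩, ⟨9, 11⟩)]),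
  ([⟨8, 23⟩, ⟨11, 27⟩, ⟨26, 10⟩, ⟨29, 14⟩],
    [⟨18, 1⟩, ⟨24, 26⟩, ⟨32, 10⟩],
    [(⟨0, 9⟩, ⟨13, 25⟩), (⟨3, 3⟩, ⟨1, 29⟩), (⟨3, 16⟩, ⟨6, 2⟩), (⟨9, 5⟩, ⟨15, 20⟩), (⟨12, 7⟩, ⟨9, 26⟩)]),
  ([⟨8, 32⟩, ⟨11, 7⟩, ⟨26, 30⟩, ⟨29, 5⟩],
    [⟨2, 16⟩, ⟨15, 9⟩, ⟨20, 12⟩],
    [(⟨10, 3⟩, ⟨12, 30⟩), (⟨14, 18⟩, ⟨36, 13⟩), (⟨16, 13⟩, ⟨12, 34⟩), (⟨17, 5⟩, ⟨34, 18⟩), (⟨22, 9⟩, ⟨3, 34⟩)]),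
  ([⟨8, 5⟩, ⟨11, 30⟩, ⟨26, 7⟩, ⟨29, 32⟩],
    [⟨2, 21⟩, ⟨15, 28⟩, ⟨20, 25⟩],
    [(⟨10, 34⟩, ⟨12, 7⟩), (⟨14, 19⟩, ⟨36, 24⟩), (⟨16, 24⟩, ⟨12, 3⟩), (⟨17, 32⟩, ⟨34, 19⟩), (⟨22, 28⟩, ⟨3, 3⟩)]),
  ([⟨2, 19⟩, ⟨12, 3⟩, ⟨25, 34⟩, ⟨35, 18⟩],
    [⟨11, 0⟩, ⟨27, 0⟩, ⟨36, 0⟩],
    [(⟨12, 11⟩, ⟨24, 14⟩), (⟨19, 16⟩, ⟨0, 24⟩), (⟨19, 20⟩, ⟨0, 8⟩), (⟨19, 24⟩, ⟨0, 32⟩), (⟨26, 11⟩, ⟨13, 14⟩)]),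
  ([⟨2, 18⟩, ⟨12, 34⟩, ⟨25, 3⟩, ⟨35, 19⟩],
    [⟨11, 0⟩, ⟨27, 0⟩, ⟨36, 0⟩],
    [(⟨12, 26⟩, ⟨24, 23⟩), (⟨19, 13⟩, ⟨0, 5⟩), (⟨19, 17⟩, ⟨0, 29⟩), (⟨19, 21⟩, ⟨0, 13⟩), (⟨26, 26⟩, ⟨13, 23⟩)]),
  ([⟨9, 26⟩, ⟨17, 8⟩, ⟨20, 29⟩, ⟨28, 11⟩],
    [⟨2, 21⟩, ⟨15, 28⟩, ⟨20, 25⟩],
    [(⟨16, 9⟩, ⟨34, 34⟩), (⟨21, 5⟩, ⟨3, 18⟩), (⟨22, 13⟩, ⟨25, 34⟩), (⟨24, 18⟩, ⟨1, 13⟩), (⟨28, 3⟩, ⟨25, 30⟩)]),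
  ([⟨9, 11⟩, ⟨17, 29⟩, ⟨20, 8⟩, ⟨28, 26⟩],
    [⟨2, 16⟩, ⟨15, 9⟩, ⟨20, 12⟩],
    [(⟨16, 28⟩, ⟨34, 3⟩), (⟨21, 32⟩, ⟨3, 19⟩), (⟨22, 24⟩, ⟨25, 3⟩), (⟨24, 19⟩, ⟨1, 24⟩), (⟨28, 34⟩, ⟨25, 7⟩)]),
  ([⟨10, 34⟩, ⟨14, 18⟩, ⟨23, 19⟩, ⟨27, 3⟩],
    [⟨18, 1⟩, ⟨24, 26⟩, ⟨32, 10⟩],
    [(⟨1, 28⟩, ⟨24, 12⟩), (⟨26, 30⟩, ⟨28, 11⟩), (⟨29, 32⟩, ⟨22, 17⟩), (⟨35, 21⟩, ⟨31, 35⟩), (⟨35, 34⟩, ⟨36, 8⟩)]),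
  ([⟨10, 3⟩, ⟨14, 19⟩, ⟨23, 18⟩, ⟨27, 34⟩],
    [⟨18, 36⟩, ⟨24, 11⟩, ⟨32, 27⟩],
    [(⟨1, 9⟩, ⟨24, 25⟩), (⟨26, 7⟩, ⟨28, 26⟩), (⟨29, 5⟩, ⟨22, 20⟩), (⟨35, 3⟩, ⟨36, 29⟩), (⟨35, 16⟩, ⟨31, 2⟩)]),
  ([⟨10, 21⟩, ⟨14, 22⟩, ⟨23, 15⟩, ⟨27, 16⟩],
    [⟨17, 20⟩, ⟨22, 15⟩, ⟨35, 2⟩],
    [(⟨6, 7⟩, ⟨11, 25⟩), (⟨18, 35⟩, ⟨14, 18⟩), (⟨26, 4⟩, ⟨28, 4⟩), (⟨27, 10⟩, ⟨28, 15⟩), (⟨33, 30⟩, ⟨29, 16⟩)]),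
  ([⟨10, 16⟩, ⟨14, 15⟩, ⟨23, 22⟩, ⟨27, 21⟩],
    [⟨17, 17⟩, ⟨22, 22⟩, ⟨35, 35⟩],
    [(⟨6, 30⟩, ⟨11, 12⟩), (⟨18, 2⟩, ⟨14, 19⟩), (⟨26, 33⟩, ⟨28, 33⟩), (⟨27, 27⟩, ⟨28, 22⟩), (⟨33, 7⟩, ⟨29, 21⟩)]),
  ([⟨9, 12⟩, ⟨17, 35⟩, ⟨20, 2⟩, ⟨28, 25⟩],
    [⟨5, 5⟩, ⟨13, 13⟩, ⟨19, 19⟩],
    [(⟨0, 2⟩, ⟨14, 23⟩), (⟨12, 12⟩, ⟨5, 32⟩), (⟨15, 6⟩, ⟨6, 9⟩), (⟨17, 30⟩, ⟨25, 7⟩), (⟨26, 9⟩, ⟨12, 10⟩)]),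
  ([⟨9, 25⟩, ⟨17, 2⟩, ⟨20, 35⟩, ⟨28, 12⟩],
    [⟨5, 32⟩, ⟨13, 24⟩, ⟨19, 18⟩],
    [(⟨0, 35⟩, ⟨14, 14⟩), (⟨12, 25⟩, ⟨5, 5⟩), (⟨15, 31⟩, ⟨6, 28⟩), (⟨17, 7⟩, ⟨25, 30⟩), (⟨26, 28⟩, ⟨12, 27⟩)])]

theorem dat37_spec {k : Type} [Field k] (hk : Nat.card k = 37 ^ 2) :
    ∃ S : Finset k, S.card = 2 * (37 - 1) ∧ SSet S ∧ Good5 k S ∧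
      ∀ α ∈ S, ∃ Z : Finset k, Z.card = 3 ∧ ∀ z ∈ Z, z ^ 3 = 4 * α ^ 4 * (1 - α ^ 4) :=
  dat_core (by norm_num) (by norm_num) hk 2 (by decide +kernel) dat37 (by decide +kernel)
    (by decide +kernel) (by decide +kernel) (by decide +kernel)

end Pool.Agent.FF
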