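import Pool.Agent.FO.DatF

/-! # Explicit data -/

set_option autoImplicit false

namespace Pool.Agent.FF

/-- data for `p = 7` -/
def dat7 : List (Grp 7 3) := [
  ([⟨0, 1⟩, ⟨0, 6⟩, ⟨2, 0⟩, ⟨5, 0⟩],
    [⟨3, 0⟩, ⟨5, 0⟩, ⟨6, 0⟩],
    [(⟨0, 0⟩, ⟨5, 0⟩), (⟨4, 0⟩, ⟨3, 0⟩), (⟨6, 0⟩, ⟨3, 0⟩), (⟨6, 1⟩, ⟨2, 2⟩), (⟨6, 6⟩, ⟨2, 5⟩)]),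
  ([⟨0, 2⟩, ⟨0, 5⟩, ⟨3, 0⟩, ⟨4, 0⟩],
    [⟨1, 0⟩, ⟨2, 0⟩, ⟨4, 0⟩],
    [(⟨2, 0⟩, ⟨3, 0⟩), (⟨4, 3⟩, ⟨0, 3⟩), (⟨4, 4⟩, ⟨0, 4⟩), (⟨6, 0⟩, ⟨4, 0⟩)]),
  ([⟨2, 1⟩, ⟨2, 6⟩, ⟨5, 1⟩, ⟨5, 6⟩],
    [⟨3, 0⟩, ⟨5, 0⟩, ⟨6, 0⟩],
    [(⟨1, 0⟩, ⟨2, 0⟩), (⟨2, 0⟩, ⟨4, 0⟩), (⟨2, 1⟩, ⟨5, 2⟩), (⟨2, 6⟩, ⟨5, 5⟩), (⟨4, 0⟩, ⟨4, 0⟩)])]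

theorem dat7_spec {k : Type} [Field k] (hk : Nat.card k = 7 ^ 2) :
    ∃ S : Finset k, S.card = 2 * (7 - 1) ∧ SSet S ∧ Good5 k S ∧
      ∀ α ∈ S, ∃ Z : Finset k, Z.card = 3 ∧ ∀ z ∈ Z, z ^ 3 = 4 * α ^ 4 * (1 - α ^ 4) :=
  dat_core (by norm_num) (by norm_num) hk 3 (by decide +kernel) dat7 (by decide +kernel)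
    (by decide +kernel) (by decide +kernel) (by decide +kernel)

/-- data for `p = 11` -/
def dat11 : List (Grp 11 2) := [
  ([⟨2, 3⟩, ⟨2, 8⟩, ⟨9, 3⟩, ⟨9, 8⟩],
    [⟨1, 2⟩, ⟨1, 9⟩, ⟨9, 0⟩],
    [(⟨0, 0⟩, ⟨9, 0⟩), (⟨2, 4⟩, ⟨0, 3⟩), (⟨2, 7⟩, ⟨0, 8⟩), (⟨7, 2⟩, ⟨6, 2⟩), (⟨7, 9⟩, ⟨6, 9⟩)]),
  ([⟨3, 1⟩, ⟨3, 10⟩, ⟨8, 1⟩, ⟨8, 10⟩],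
    [⟨1, 0⟩, ⟨5, 1⟩, ⟨5, 10⟩],
    [(⟨5, 3⟩, ⟨0, 4⟩), (⟨5, 8⟩, ⟨0, 7⟩), (⟨7, 3⟩, ⟨0, 4⟩), (⟨7, 8⟩, ⟨0, 7⟩)]),
  ([⟨1, 1⟩, ⟨3, 7⟩, ⟨8, 4⟩, ⟨10, 10⟩],
    [⟨3, 5⟩, ⟨3, 6⟩, ⟨5, 0⟩],
    [(⟨2, 0⟩, ⟨0, 3⟩), (⟨6, 0⟩, ⟨0, 1⟩), (⟨6, 1⟩, ⟨4, 0⟩), (⟨6, 1⟩, ⟨7, 0⟩), (⟨10, 0⟩, ⟨0, 3⟩)]),
  ([⟨1, 10⟩, ⟨3, 4⟩, ⟨8, 7⟩, ⟨10, 1⟩],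
    [⟨3, 5⟩, ⟨3, 6⟩, ⟨5, 0⟩],
    [(⟨2, 0⟩, ⟨0, 8⟩), (⟨6, 0⟩, ⟨0, 10⟩), (⟨6, 10⟩, ⟨4, 0⟩), (⟨6, 10⟩, ⟨7, 0⟩), (⟨10, 0⟩, ⟨0, 8⟩)]),
  ([⟨4, 5⟩, ⟨4, 6⟩, ⟨7, 5⟩, ⟨7, 6⟩],
    [⟨1, 2⟩, ⟨1, 9⟩, ⟨9, 0⟩],
    [(⟨1, 0⟩, ⟨2, 0⟩), (⟨5, 2⟩, ⟨5, 2⟩), (⟨5, 9⟩, ⟨5, 9⟩), (⟨10, 4⟩, ⟨0, 3⟩), (⟨10, 7⟩, ⟨0, 8⟩)])]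

theorem dat11_spec {k : Type} [Field k] (hk : Nat.card k = 11 ^ 2) :
    ∃ S : Finset k, S.card = 2 * (11 - 1) ∧ SSet S ∧ Good5 k S ∧
      ∀ α ∈ S, ∃ Z : Finset k, Z.card = 3 ∧ ∀ z ∈ Z, z ^ 3 = 4 * α ^ 4 * (1 - α ^ 4) :=
  dat_core (by norm_num) (by norm_num) hk 2 (by decide +kernel) dat11 (by decide +kernel)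
    (by decide +kernel) (by decide +kernel) (by decide +kernel)

/-- data for `p = 13` -/
def dat13 : List (Grp 13 2) := [
  ([⟨4, 5⟩, ⟨6, 1⟩, ⟨7, 12⟩, ⟨9, 8⟩],
    [⟨7, 7⟩, ⟨8, 8⟩, ⟨11, 11⟩],
    [(⟨3, 11⟩, ⟨0, 0⟩), (⟨4, 7⟩, ⟨9, 10⟩), (⟨8, 8⟩, ⟨9, 3⟩), (⟨9, 12⟩, ⟨3, 8⟩), (⟨12, 8⟩, ⟨2, 9⟩)]),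
  ([⟨4, 8⟩, ⟨6, 12⟩, ⟨7, 1⟩, ⟨9, 5⟩],
    [⟨7, 6⟩, ⟨8, 5⟩, ⟨11, 2⟩],
    [(⟨3, 2⟩, ⟨0, 0⟩), (⟨4, 6⟩, ⟨9, 3⟩), (⟨8, 5⟩, ⟨9, 10⟩), (⟨9, 1⟩, ⟨3, 5⟩), (⟨12, 5⟩, ⟨2, 4⟩)]),
  ([⟨4, 10⟩, ⟨6, 2⟩, ⟨7, 11⟩, ⟨9, 3⟩],
    [⟨4, 0⟩, ⟨10, 0⟩, ⟨12, 0⟩],
    [(⟨5, 10⟩, ⟨10, 4⟩), (⟨7, 5⟩, ⟨0, 8⟩), (⟨7, 7⟩, ⟨0, 0⟩), (⟨7, 9⟩, ⟨0, 8⟩), (⟨9, 10⟩, ⟨3, 4⟩)]),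
  ([⟨4, 3⟩, ⟨6, 11⟩, ⟨7, 2⟩, ⟨9, 10⟩],
    [⟨4, 0⟩, ⟨10, 0⟩, ⟨12, 0⟩],
    [(⟨5, 3⟩, ⟨10, 9⟩), (⟨7, 4⟩, ⟨0, 5⟩), (⟨7, 6⟩, ⟨0, 0⟩), (⟨7, 8⟩, ⟨0, 5⟩), (⟨9, 3⟩, ⟨3, 9⟩)]),
  ([⟨2, 5⟩, ⟨3, 1⟩, ⟨10, 12⟩, ⟨11, 8⟩],
    [⟨7, 6⟩, ⟨8, 5⟩, ⟨11, 2⟩],
    [(⟨2, 8⟩, ⟨11, 9⟩), (⟨5, 12⟩, ⟨10, 8⟩), (⟨6, 8⟩, ⟨4, 3⟩), (⟨10, 7⟩, ⟨4, 10⟩), (⟨11, 11⟩, ⟨0, 0⟩)]),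
  ([⟨2, 8⟩, ⟨3, 12⟩, ⟨10, 1⟩, ⟨11, 5⟩],
    [⟨7, 7⟩, ⟨8, 8⟩, ⟨11, 11⟩],
    [(⟨2, 5⟩, ⟨11, 4⟩), (⟨5, 1⟩, ⟨10, 5⟩), (⟨6, 5⟩, ⟨4, 10⟩), (⟨10, 6⟩, ⟨4, 3⟩), (⟨11, 2⟩, ⟨0, 0⟩)])]

theorem dat13_spec {k : Type} [Field k] (hk : Nat.card k = 13 ^ 2) :
    ∃ S : Finset k, S.card = 2 * (13 - 1) ∧ SSet S ∧ Good5 k S ∧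
      ∀ α ∈ S, ∃ Z : Finset k, Z.card = 3 ∧ ∀ z ∈ Z, z ^ 3 = 4 * α ^ 4 * (1 - α ^ 4) :=
  dat_core (by norm_num) (by norm_num) hk 2 (by decide +kernel) dat13 (by decide +kernel)
    (by decide +kernel) (by decide +kernel) (by decide +kernel)

end Pool.Agent.FF
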