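import Mathlib

/-! # The field with `p ^ 2` elements as a computable ring -/

set_option autoImplicit false

namespace Pool.Agent.FF

/-- A field with `p ^ 2` elements contains (is) `ZMod p [√r]`, `r` a non-square. -/
theorem exists_emb {k : Type} [Field k] {p : ℕ} [Fact p.Prime] (hp : p ≠ 2)
    (hk : Nat.card k = p ^ 2) (r : ZMod p) (hr : ¬ IsSquare r) :
    ∃ φ : QuadraticAlgebra (ZMod p) r 0 →+* k, Function.Injective φ := by
  have hpp : p.Prime := Fact.out
  have hfin : Finite k := Nat.finite_of_card_ne_zero (by rw [hk]; exact pow_ne_zero 2 hpp.ne_zero)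
  cases nonempty_fintype k
  have hcard : Fintype.card k = p ^ 2 := by rw [← Nat.card_eq_fintype_card, hk]
  have hchar : CharP k p := charP_of_card_eq_prime_pow hcard
  letI : Algebra (ZMod p) k := ZMod.algebra k p
  have hr0 : r ≠ 0 := fun h => hr (h ▸ ⟨0, by simp⟩)
  have hr0' : algebraMap (ZMod p) k r ≠ 0 := by
    rw [Ne, map_eq_zero]
    exact hr0
  have hodd : p % 2 = 1 := (hpp.eq_two_or_odd).resolve_left hp
  have hexp : p ^ 2 / 2 = (p - 1) * ((p + 1) / 2) := by
    obtain ⟨m, hm⟩ : ∃ m, p = 2 * m + 1 := ⟨p / 2, by omega⟩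
    have h1 : p ^ 2 = 2 * (2 * m * (m + 1)) + 1 := by rw [hm]; ring
    have h2 : (p + 1) / 2 = m + 1 := by omega
    have h3 : p - 1 = 2 * m := by omega
    rw [h1, h2, h3]
    omega
  have hsq : IsSquare (algebraMap (ZMod p) k r) := by
    rw [FiniteField.isSquare_iff (by rw [ringChar.eq k p]; exact hp) hr0', hcard, hexp, pow_mul,
      ← map_pow, ZMod.pow_card_sub_one_eq_one hr0, map_one, one_pow]
  obtain ⟨w, hw⟩ := hsq
  have hw' : w * w = r • (1 : k) + (0 : ZMod p) • w := by
    rw [zero_smul, add_zero, Algebra.smul_def, mul_one, hw]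
  refine ⟨(QuadraticAlgebra.lift ⟨w, hw'⟩ : QuadraticAlgebra (ZMod p) r 0 →ₐ[ZMod p] k).toRingHom, ?_⟩
  rw [injective_iff_map_eq_zero]
  intro z hz
  have hz' : z.re • (1 : k) + z.im • w = 0 := hz
  rw [Algebra.smul_def, Algebra.smul_def, mul_one] at hz'
  have him : z.im = 0 := by
    by_contra him
    apply hr
    refine ⟨z.re / z.im, ?_⟩
    apply (algebraMap (ZMod p) k).injective
    have h1 : algebraMap (ZMod p) k z.im ≠ 0 := by
      rw [Ne, map_eq_zero]
      exact him
    rw [map_mul, map_div₀, hw]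
    have h2 : algebraMap (ZMod p) k z.re = -(algebraMap (ZMod p) k z.im * w) := by
      linear_combination hz'
    rw [h2]
    field_simp
  rw [him, map_zero, zero_mul, add_zero, map_eq_zero] at hz'
  ext
  · exact hz'
  · exact him

end Pool.Agent.FF
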