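import Pool.Agent.FO.LamC
import Pool.Agent.FO.Fp2

/-! # Transfer of explicit data from `ZMod p [√r]` to a field with `p ^ 2` elements -/

set_option autoImplicit false

namespace Pool.Agent.FF

/-- computable model of the field with `p ^ 2` elements -/
abbrev Q2 (p : ℕ) (r : ZMod p) := QuadraticAlgebra (ZMod p) r 0

/-- explicit data: groups of four `α` with the same `α ^ 4`, cube roots, points -/
abbrev Grp (p : ℕ) (r : ZMod p) := List (Q2 p r) × List (Q2 p r) × List (Q2 p r × Q2 p r)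

section

variable {p : ℕ} {r : ZMod p}

/-- the points of the level five curve -/
def P5 (a : Q2 p r) (z : Q2 p r × Q2 p r) : Prop :=
  z.2 ^ 2 = 4 * (z.1 ^ 2 - z.1 + 1) ^ 3 + 5 * (z.1 ^ 2 * (z.1 - 1) ^ 2) ∧
    1 - z.1 ^ 5 + (1 - z.1) ^ 5 - (z.1 ^ 2 - z.1 + 1) * z.2 = 2 * a ^ 4

instance (a : Q2 p r) (z : Q2 p r × Q2 p r) : Decidable (P5 a z) := by
  unfold P5
  infer_instance

/-- the check of the set `S` and of the points -/
def Chk (G : List (Grp p r)) : Prop :=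
  (∀ a ∈ G.flatMap (·.1), a ≠ 0 ∧ a ^ 4 ≠ 1 ∧ ∃ b ∈ G.flatMap (·.1),
    -b ∈ G.flatMap (·.1) ∧ 2 * a * b ^ 2 = a ^ 2 + 1) ∧
  ∀ g ∈ G, g.2.2.Nodup ∧ ∀ a ∈ g.1, (∀ z ∈ g.2.2, P5 a z) ∧
    (g.2.2.length = 5 ∨ g.2.2.length = 4 ∧ 2 * a ^ 4 = 1)

instance (G : List (Grp p r)) : Decidable (Chk G) := by
  unfold Chk
  infer_instance

/-- the check of the cube roots -/
def ChkZ (G : List (Grp p r)) : Prop :=
  ∀ g ∈ G, g.2.1.Nodup ∧ g.2.1.length = 3 ∧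
    ∀ a ∈ g.1, ∀ z ∈ g.2.1, z ^ 3 = 4 * a ^ 4 * (1 - a ^ 4)

instance (G : List (Grp p r)) : Decidable (ChkZ G) := by
  unfold ChkZ
  infer_instance

end

theorem of_chk {k : Type} [Field k] {p : ℕ} {r : ZMod p} (φ : Q2 p r →+* k)
    (hφ : Function.Injective φ) (G : List (Grp p r)) (hnd : (G.flatMap (·.1)).Nodup)
    (h : Chk G) :
    ∃ S : Finset k, S.card = (G.flatMap (·.1)).length ∧ SSet S ∧ Good5 k S ∧
      (∀ α ∈ S, ∃ g ∈ G, ∃ a ∈ g.1, φ a = α) := by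
  classical
  obtain ⟨h1, h2⟩ := h
  have hmem : ∀ {a : Q2 p r}, a ∈ G.flatMap (·.1) → φ a ∈ (G.flatMap (·.1)).toFinset.map ⟨φ, hφ⟩ :=
    fun {a} ha => Finset.mem_map.2 ⟨a, List.mem_toFinset.2 ha, rfl⟩
  have hex : ∀ α ∈ (G.flatMap (·.1)).toFinset.map ⟨φ, hφ⟩, ∃ a ∈ G.flatMap (·.1), φ a = α := by
    intro α hα
    obtain ⟨a, ha, rfl⟩ := Finset.mem_map.1 hα
    exact ⟨a, List.mem_toFinset.1 ha, rfl⟩
  refine ⟨(G.flatMap (·.1)).toFinset.map ⟨φ, hφ⟩, ?_, ⟨?_, ?_⟩, ?_, ?_⟩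
  · rw [Finset.card_map, List.toFinset_card_of_nodup hnd]
  · intro α hα
    obtain ⟨a, ha, rfl⟩ := hex α hα
    obtain ⟨h3, h4, -⟩ := h1 a ha
    refine ⟨fun h0 => h3 (hφ (by rw [h0, map_zero])), fun h0 => h4 (hφ ?_)⟩
    rw [map_pow, h0, map_one]
  · intro α hα
    obtain ⟨a, ha, rfl⟩ := hex α hα
    obtain ⟨-, -, b, hb, hb', h5⟩ := h1 a ha
    refine ⟨φ b, hmem hb, ?_, ?_⟩
    · rw [← map_neg]
      exact hmem hb'
    · have := congrArg φ h5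
      simpa only [map_mul, map_pow, map_add, map_one, map_ofNat] using this
  · intro α hα
    obtain ⟨a, ha, rfl⟩ := hex α hα
    obtain ⟨g, hg, hag⟩ := List.mem_flatMap.1 ha
    obtain ⟨h3, h4⟩ := h2 g hg
    obtain ⟨h5, h6⟩ := h4 a hag
    let ψ : Q2 p r × Q2 p r ↪ k × k := ⟨fun z => (φ z.1, φ z.2), fun z z' hz => by
      rw [Prod.mk.injEq] at hz
      exact Prod.ext (hφ hz.1) (hφ hz.2)⟩
    refine ⟨g.2.2.toFinset.map ψ, ?_, ?_⟩
    · intro z hz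
      obtain ⟨z₀, hz₀, rfl⟩ := Finset.mem_map.1 hz
      obtain ⟨h7, h8⟩ := h5 z₀ (List.mem_toFinset.1 hz₀)
      have h7' := congrArg φ h7
      have h8' := congrArg φ h8
      simp only [map_mul, map_pow, map_add, map_sub, map_one, map_ofNat] at h7' h8'
      exact ⟨h7', h8'⟩
    · rw [Finset.card_map, List.toFinset_card_of_nodup h3]
      refine h6.imp id fun h => ⟨h.1, ?_⟩
      have := congrArg φ h.2
      simpa only [map_mul, map_pow, map_one, map_ofNat] using this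
  · intro α hα
    obtain ⟨a, ha, rfl⟩ := hex α hα
    obtain ⟨g, hg, hag⟩ := List.mem_flatMap.1 ha
    exact ⟨g, hg, a, hag, rfl⟩

theorem of_chkZ {k : Type} [Field k] {p : ℕ} {r : ZMod p} (φ : Q2 p r →+* k)
    (hφ : Function.Injective φ) (G : List (Grp p r)) (h : ChkZ G) {g : Grp p r} (hg : g ∈ G)
    {a : Q2 p r} (ha : a ∈ g.1) :
    ∃ Z : Finset k, Z.card = 3 ∧ ∀ z ∈ Z, z ^ 3 = 4 * φ a ^ 4 * (1 - φ a ^ 4) := by
  classical
  obtain ⟨h1, h2, h3⟩ := h g hg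
  refine ⟨g.2.1.toFinset.map ⟨φ, hφ⟩, ?_, ?_⟩
  · rw [Finset.card_map, List.toFinset_card_of_nodup h1, h2]
  · intro z hz
    obtain ⟨z₀, hz₀, rfl⟩ := Finset.mem_map.1 hz
    have := congrArg φ (h3 a ha z₀ (List.mem_toFinset.1 hz₀))
    show φ z₀ ^ 3 = 4 * φ a ^ 4 * (1 - φ a ^ 4)
    simpa only [map_mul, map_pow, map_sub, map_one, map_ofNat] using this

/-- everything for one prime -/
theorem dat_core {k : Type} [Field k] {p : ℕ} (hp : p.Prime) (hp2 : p ≠ 2)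
    (hk : Nat.card k = p ^ 2) (r : ZMod p) (hr : ∀ x : ZMod p, r ≠ x * x) (G : List (Grp p r))
    (hnd : (G.flatMap (·.1)).Nodup) (hlen : (G.flatMap (·.1)).length = 2 * (p - 1))
    (h : Chk G) (hZ : ChkZ G) :
    ∃ S : Finset k, S.card = 2 * (p - 1) ∧ SSet S ∧ Good5 k S ∧
      ∀ α ∈ S, ∃ Z : Finset k, Z.card = 3 ∧ ∀ z ∈ Z, z ^ 3 = 4 * α ^ 4 * (1 - α ^ 4) := by
  have : Fact p.Prime := ⟨hp⟩
  obtain ⟨φ, hφ⟩ := exists_emb hp2 hk r (fun ⟨x, hx⟩ => hr x hx)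
  obtain ⟨S, h1, h2, h3, h4⟩ := of_chk φ hφ G hnd h
  refine ⟨S, by rw [h1, hlen], h2, h3, fun α hα => ?_⟩
  obtain ⟨g, hg, a, ha, rfl⟩ := h4 α hα
  exact of_chkZ φ hφ G hZ hg ha

end Pool.Agent.FF
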