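import Pool.Agent.FO.DatThree
import Pool.Agent.FO.Dat7
import Pool.Agent.FO.Dat17
import Pool.Agent.FO.Dat29
import Pool.Agent.FO.Dat31
import Pool.Agent.FO.Dat37

/-! # The completely split values for the primes up to 37

`dat_three` is in `DatThree`. -/

set_option autoImplicit false

namespace Pool.Agent.FF

/-- `7 ≤ p ≤ 37` -/
theorem dat_of {k : Type} [Field k] {p : ℕ}
    (hp : p ∈ ([7, 11, 13, 17, 19, 23, 29, 31, 37] : List ℕ)) (hk : Nat.card k = p ^ 2) :
    ∃ S : Finset k, S.card = 2 * (p - 1) ∧ SSet S ∧ Good5 k S ∧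
      ∀ α ∈ S, ∃ Z : Finset k, Z.card = 3 ∧ ∀ z ∈ Z, z ^ 3 = 4 * α ^ 4 * (1 - α ^ 4) := by
  simp only [List.mem_cons, List.not_mem_nil, or_false] at hp
  rcases hp with rfl | rfl | rfl | rfl | rfl | rfl | rfl | rfl | rfl
  · exact dat7_spec hk
  · exact dat11_spec hk
  · exact dat13_spec hk
  · exact dat17_spec hk
  · exact dat19_spec hk
  · exact dat23_spec hk
  · exact dat29_spec hk
  · exact dat31_spec hk
  · exact dat37_spec hk

end Pool.Agent.FF
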