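import Pool.Agent.FO.DatF

/-! # The completely split values for `p = 3` -/

set_option autoImplicit false

namespace Pool.Agent.FF

/-- data for `p = 3` -/
def dat3 : List (Grp 3 2) := [
  ([⟨1, 1⟩, ⟨1, 2⟩, ⟨2, 1⟩, ⟨2, 2⟩],
    [],
    [(⟨0, 0⟩, ⟨1, 0⟩), (⟨1, 0⟩, ⟨2, 0⟩), (⟨2, 0⟩, ⟨0, 1⟩), (⟨2, 0⟩, ⟨0, 2⟩)])]

/-- the points for `p = 3` -/
def ptsE : List (Q2 3 2 × Q2 3 2) := [(⟨0, 1⟩, ⟨0, 0⟩), (⟨0, 2⟩, ⟨0, 0⟩), (⟨1, 1⟩, ⟨1, 1⟩), (⟨1, 1⟩, ⟨2, 2⟩), (⟨1, 2⟩, ⟨1, 2⟩), (⟨1, 2⟩, ⟨2, 1⟩)]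

theorem dat3_nd : (dat3.flatMap (·.1)).Nodup := by decide +kernel

theorem dat3_chk : Chk dat3 := by decide +kernel

theorem dat3_r : ∀ x : ZMod 3, (2 : ZMod 3) ≠ x * x := by decide +kernel

theorem dat3_four : ∀ g ∈ dat3, ∀ a ∈ g.1, a ^ 4 = -1 := by decide +kernel

theorem ptsE_spec : ptsE.Nodup ∧ ptsE.length = 6 ∧ ∀ z ∈ ptsE,
    z.2 ^ 2 = (z.1 + 1) * (z.1 ^ 2 + 1) ∧ (z.1 ^ 2 + z.1 - 1) * z.2 = 0 ∧ z.1 ≠ -1 := by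
  decide +kernel

/-- `p = 3` -/
theorem dat_three {k : Type} [Field k] (hk : Nat.card k = 9) :
    ∃ S : Finset k, S.card = 4 ∧ SSet S ∧ Good5 k S ∧ (∀ α ∈ S, α ^ 4 = -1) ∧
      ∃ Z : Finset (k × k), Z.card = 6 ∧ ∀ z ∈ Z, z.2 ^ 2 = (z.1 + 1) * (z.1 ^ 2 + 1) ∧
        (z.1 ^ 2 + z.1 - 1) * z.2 = 0 ∧ z.1 ≠ -1 := by
  classical
  have : Fact (Nat.Prime 3) := ⟨Nat.prime_three⟩
  obtain ⟨φ, hφ⟩ := exists_emb (p := 3) (by norm_num) (by rw [hk]; norm_num) (2 : ZMod 3)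
    (fun ⟨x, hx⟩ => dat3_r x hx)
  obtain ⟨S, h1, h2, h3, h4⟩ := of_chk φ hφ dat3 dat3_nd dat3_chk
  refine ⟨S, by rw [h1]; rfl, h2, h3, ?_, ?_⟩
  · intro α hα
    obtain ⟨g, hg, a, ha, rfl⟩ := h4 α hα
    have := congrArg φ (dat3_four g hg a ha)
    simpa only [map_pow, map_neg, map_one] using this
  · let ψ : Q2 3 2 × Q2 3 2 ↪ k × k := ⟨fun z => (φ z.1, φ z.2), fun z z' hz => by
      rw [Prod.mk.injEq] at hz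
      exact Prod.ext (hφ hz.1) (hφ hz.2)⟩
    obtain ⟨h5, h6, h7⟩ := ptsE_spec
    refine ⟨ptsE.toFinset.map ψ, ?_, ?_⟩
    · rw [Finset.card_map, List.toFinset_card_of_nodup h5, h6]
    · intro z hz
      obtain ⟨z₀, hz₀, rfl⟩ := Finset.mem_map.1 hz
      obtain ⟨h8, h9, h10⟩ := h7 z₀ (List.mem_toFinset.1 hz₀)
      have h8' := congrArg φ h8
      have h9' := congrArg φ h9
      simp only [map_mul, map_pow, map_add, map_sub, map_one, map_zero] at h8' h9'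
      refine ⟨h8', h9', fun h0 => h10 (hφ ?_)⟩
      rw [map_neg, map_one]
      exact h0

end Pool.Agent.FF
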