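import Pool.Agent.FF.FinalE
import Pool.Agent.FO.AssemO2

/-!
# Dense families

The numbers `3 ^ b 2 ^ e` are dense; families of the sizes `8 * 3 ^ b`.
-/

set_option autoImplicit false

namespace FF

/-- `3 ^ k ≠ 2 ^ j` -/
theorem logb_ne {k j : ℤ} (hk : 0 < k) : (k : ℝ) * Real.logb 2 3 ≠ j := by
  intro h
  obtain ⟨n, rfl⟩ := Int.eq_ofNat_of_zero_le hk.le
  have hn : 0 < n := by exact_mod_cast hk
  have hpos : 0 < Real.logb 2 3 := Real.logb_pos (by norm_num) (by norm_num)
  have hj : 0 < j := by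
    have : (0 : ℝ) < j := by
      rw [← h]
      have : (0 : ℝ) < n := by exact_mod_cast hn
      push_cast
      positivity
    exact_mod_cast this
  obtain ⟨m, rfl⟩ := Int.eq_ofNat_of_zero_le hj.le
  push_cast at h
  have h1 : (3 : ℝ) ^ n = 2 ^ m := by
    have h2 : Real.logb 2 ((3 : ℝ) ^ n) = Real.logb 2 ((2 : ℝ) ^ m) := by
      rw [Real.logb_pow, Real.logb_pow, Real.logb_self_eq_one (by norm_num), mul_one]
      exact h
    exact Real.logb_injOn_pos (by norm_num) (Set.mem_Ioi.2 (by positivity))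
      (Set.mem_Ioi.2 (by positivity)) h2
  have h2 : (3 : ℕ) ^ n = 2 ^ m := by exact_mod_cast h1
  have h3 : Odd ((3 : ℕ) ^ n) := Odd.pow (by decide)
  rw [h2] at h3
  have hm : m ≠ 0 := by
    rintro rfl
    simp at hj
  exact (Nat.not_even_iff_odd.2 h3) ((Nat.even_pow' hm).2 even_two)

/-- **Density of the numbers `3 ^ b 2 ^ e`.** -/
theorem exists_size {η : ℝ} (hη : 0 < η) : ∃ (N : ℕ) (y₀ : ℝ), ∀ y : ℝ, y₀ ≤ y →
    ∃ b e : ℕ, b ≤ N ∧ (1 - η) * y ≤ 3 ^ b * 2 ^ e ∧ (3 : ℝ) ^ b * 2 ^ e ≤ y := by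
  obtain ⟨n, hn⟩ := exists_nat_gt (1 / η)
  have hn0 : 0 < n := by
    have : (0 : ℝ) < n := lt_trans (by positivity) hn
    exact_mod_cast this
  obtain ⟨j, k, hk, -, hjk⟩ := Real.exists_int_int_abs_mul_sub_le (Real.logb 2 3) hn0
  set θ : ℝ := (k : ℝ) * Real.logb 2 3 - j with hθ
  have hθ0 : θ ≠ 0 := sub_ne_zero.2 (logb_ne hk)
  have hθη : |θ| ≤ η := by
    refine hjk.trans ?_
    rw [div_le_iff₀ (by positivity)]
    rw [div_lt_iff₀ hη] at hn
    nlinarith
  obtain ⟨k', rfl⟩ := Int.eq_ofNat_of_zero_le hk.le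
  have hk' : 0 < k' := by exact_mod_cast hk
  have hθp : 0 < |θ| := abs_pos.2 hθ0
  obtain ⟨T, hT⟩ := exists_nat_gt (1 / |θ| + 1)
  refine ⟨k' * T, 2 ^ ((|(j : ℝ)|) * T + 1), fun y hy => ?_⟩
  have hy0 : 0 < y := lt_of_lt_of_le (by positivity) hy
  set Y : ℝ := Real.logb 2 y with hY
  have hYy : (2 : ℝ) ^ Y = y := Real.rpow_logb (by norm_num) (by norm_num) hy0
  have hY1 : |(j : ℝ)| * T + 1 ≤ Y := by
    rw [hY, Real.le_logb_iff_rpow_le (by norm_num) hy0]
    exact hy
  -- the step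
  obtain ⟨t, n₀, ht, h1, h2, h3⟩ : ∃ (t : ℕ) (n₀ : ℤ), t ≤ T ∧ Y - |θ| ≤ n₀ + t * θ ∧
      n₀ + t * θ ≤ Y ∧ Y - 1 ≤ n₀ := by
    rcases lt_or_gt_of_ne hθ0 with h | h
    · -- `θ < 0`
      have ha : |θ| = -θ := abs_of_neg h
      set g : ℝ := (⌊Y⌋ + 1 : ℤ) - Y with hg
      have hg0 : 0 < g := by
        have := Int.lt_floor_add_one Y
        push_cast at hg
        linarith
      have hg1 : g ≤ 1 := by
        have := Int.floor_le Y
        push_cast at hg
        linarith
      refine ⟨⌈g / |θ|⌉₊, ⌊Y⌋ + 1, ?_, ?_, ?_, ?_⟩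
      · have h5 : (⌈g / |θ|⌉₊ : ℝ) < g / |θ| + 1 := Nat.ceil_lt_add_one (by positivity)
        have h6 : g / |θ| ≤ 1 / |θ| := by gcongr
        have h7 : ((⌈g / |θ|⌉₊ : ℕ) : ℝ) < T := by linarith
        exact_mod_cast h7.le
      · have h5 : (⌈g / |θ|⌉₊ : ℝ) < g / |θ| + 1 := Nat.ceil_lt_add_one (by positivity)
        have h6 : (⌈g / |θ|⌉₊ : ℝ) * |θ| < g + |θ| := by
          have := mul_lt_mul_of_pos_right h5 hθp
          rwa [add_mul, div_mul_cancel₀ _ hθp.ne', one_mul] at this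
        rw [ha] at h6 ⊢
        linarith
      · have h5 : g / |θ| ≤ (⌈g / |θ|⌉₊ : ℝ) := Nat.le_ceil _
        have h6 : g ≤ (⌈g / |θ|⌉₊ : ℝ) * |θ| := by rwa [div_le_iff₀ hθp] at h5
        rw [ha] at h6
        rw [ha]
        linarith
      · have := Int.lt_floor_add_one Y
        push_cast
        linarith
    · have ha : |θ| = θ := abs_of_pos h
      set f : ℝ := Y - ⌊Y⌋ with hf
      have hf0 : 0 ≤ f := by
        have := Int.floor_le Y
        linarith
      have hf1 : f < 1 := by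
        have := Int.lt_floor_add_one Y
        linarith
      refine ⟨⌊f / |θ|⌋₊, ⌊Y⌋, ?_, ?_, ?_, ?_⟩
      · have h5 : (⌊f / |θ|⌋₊ : ℝ) ≤ f / |θ| := Nat.floor_le (by positivity)
        have h6 : f / |θ| ≤ 1 / |θ| := by gcongr
        have h7 : ((⌊f / |θ|⌋₊ : ℕ) : ℝ) ≤ T := by linarith
        exact_mod_cast h7
      · have h5 : f / |θ| < (⌊f / |θ|⌋₊ : ℝ) + 1 := Nat.lt_floor_add_one _
        have h6 : f < ((⌊f / |θ|⌋₊ : ℝ) + 1) * |θ| := by rwa [div_lt_iff₀ hθp] at h5
        rw [ha] at h6 ⊢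
        linarith
      · have h5 : (⌊f / |θ|⌋₊ : ℝ) ≤ f / |θ| := Nat.floor_le (by positivity)
        have h6 : (⌊f / |θ|⌋₊ : ℝ) * |θ| ≤ f := by rwa [le_div_iff₀ hθp] at h5
        rw [ha] at h6
        rw [ha]
        linarith
      · have := Int.lt_floor_add_one Y
        linarith
  have hT' : (t : ℝ) ≤ T := by exact_mod_cast ht
  have hjt : (t : ℝ) * j ≤ |(j : ℝ)| * T := by
    calc (t : ℝ) * j ≤ t * |(j : ℝ)| := mul_le_mul_of_nonneg_left (le_abs_self _) (Nat.cast_nonneg _)
      _ ≤ T * |(j : ℝ)| := mul_le_mul_of_nonneg_right hT' (abs_nonneg _)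
      _ = _ := mul_comm _ _
  have he : 0 ≤ n₀ - t * j := by
    have h5 : (0 : ℝ) ≤ ((n₀ - t * j : ℤ) : ℝ) := by
      push_cast
      linarith
    exact_mod_cast h5
  obtain ⟨e, he'⟩ := Int.eq_ofNat_of_zero_le he
  have hval : (3 : ℝ) ^ (k' * t) * 2 ^ e = 2 ^ ((n₀ : ℝ) + t * θ) := by
    have h5 : (3 : ℝ) = 2 ^ Real.logb 2 3 := (Real.rpow_logb (by norm_num) (by norm_num)
      (by norm_num)).symm
    have h6 : ((e : ℕ) : ℝ) = n₀ - t * j := by
      have := congrArg (fun z : ℤ => (z : ℝ)) he'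
      push_cast at this
      linarith
    rw [← Real.rpow_natCast (3 : ℝ), ← Real.rpow_natCast (2 : ℝ)]
    conv_lhs => rw [h5]
    rw [← Real.rpow_mul (by norm_num), ← Real.rpow_add (by norm_num)]
    congr 1
    rw [h6, hθ]
    push_cast
    ring
  refine ⟨k' * t, e, Nat.mul_le_mul_left _ ht, ?_, ?_⟩
  · rw [hval]
    calc (1 - η) * y ≤ 2 ^ (-|θ|) * y := by
          refine mul_le_mul_of_nonneg_right ?_ hy0.le
          have h5 : (2 : ℝ) ^ (-|θ|) = Real.exp (Real.log 2 * (-|θ|)) :=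
            Real.rpow_def_of_pos (by norm_num) _
          rw [h5]
          have h6 := Real.add_one_le_exp (Real.log 2 * (-|θ|))
          have h7 : Real.log 2 ≤ 1 := by
            have := Real.log_two_lt_d9
            linarith
          nlinarith
      _ = 2 ^ (Y - |θ|) := by
          rw [← hYy, ← Real.rpow_add (by norm_num)]
          congr 1
          ring
      _ ≤ _ := Real.rpow_le_rpow_of_exponent_le (by norm_num) h1
  · rw [hval, ← hYy]
    exact Real.rpow_le_rpow_of_exponent_le (by norm_num) h2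

/-- **The arithmetic of the final step for dense families.** -/
theorem final_dense (E : ℕ → ℝ → Prop) (mono : ∀ G x y, y ≤ x → E G x → E G y)
    {lam s R β : ℝ} (hlam : 0 < lam) (hs : 0 < s) (hR : 0 ≤ R) (hR1 : R ≤ 1) (hβ : 0 ≤ β)
    (hβ2 : β * (1 - R) ≤ 2)
    (H : ∀ (b : ℕ) (C : ℝ), CoversE E lam C
      {(((8 * 3 ^ b : ℝ), (16 * 3 ^ b : ℝ), (8 * s * 3 ^ b : ℝ)), (R, β))}) :
    ∀ ε : ℝ, 0 < ε → ∃ G0 : ℕ, ∀ G : ℕ, G0 ≤ G →
      E G ((s * (2 - β * (1 - R)) / (2 + (2 + R * s) / lam) - ε) * G) := by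
  intro ε hε
  set c : ℝ := s * (2 - β * (1 - R)) / (2 + (2 + R * s) / lam) with hc
  set w : ℝ := 2 * lam + 2 + R * s with hw
  have hw0 : 0 < w := by positivity
  have hcw : c = s * (lam / w) * (2 - β * (1 - R)) := by
    rw [hc, hw]
    field_simp
    ring
  have hc0 : 0 ≤ c := by
    rw [hcw]
    have : 0 ≤ 2 - β * (1 - R) := by linarith
    positivity
  -- `η`
  obtain ⟨η, hη0, hη1, hηc⟩ : ∃ η : ℝ, 0 < η ∧ η < 1 ∧ c - ε / 2 ≤ (1 - η) ^ 2 * c := by
    refine ⟨min (1 / 2) (ε / (4 * (c + 1))), lt_min (by norm_num) (by positivity),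
      lt_of_le_of_lt (min_le_left _ _) (by norm_num), ?_⟩
    set η := min (1 / 2 : ℝ) (ε / (4 * (c + 1))) with hη
    have h1 : η ≤ ε / (4 * (c + 1)) := min_le_right _ _
    have h0 : 0 < η := lt_min (by norm_num) (by positivity)
    have h2 : η * c ≤ ε / 4 := by
      calc η * c ≤ ε / (4 * (c + 1)) * c := mul_le_mul_of_nonneg_right h1 hc0
        _ = ε / 4 * (c / (c + 1)) := by
            have : c + 1 ≠ 0 := by positivity
            field_simp
        _ ≤ ε / 4 * 1 := by
            refine mul_le_mul_of_nonneg_left ?_ (by positivity)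
            rw [div_le_one (by positivity)]
            linarith
        _ = _ := mul_one _
    nlinarith [mul_nonneg (sq_nonneg η) hc0]
  obtain ⟨N, y₀, hN⟩ := exists_size hη0
  set θ : ℝ := lam / w with hθ
  have hθ0 : 0 < θ := by positivity
  set a : ℝ := max 1 (8 * y₀ / (θ * (1 - η))) with ha
  have ha0 : 0 < a := lt_of_lt_of_le one_pos (le_max_left _ _)
  have h1η : 0 < 1 - η := by linarith
  set D : Set ((ℝ × ℝ × ℝ) × (ℝ × ℝ)) :=
    (fun b : ℕ => (((8 * 3 ^ b : ℝ), (16 * 3 ^ b : ℝ), (8 * s * 3 ^ b : ℝ)), (R, β))) ''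
      (Set.Iic N) with hD
  set C : ℝ := 8 * 3 ^ N / ((1 - η) ^ 2 * θ) with hC
  have key := final_generalE E mono lam (c - ε / 2) a (8 * η * w) C hlam ha0 (by positivity) D
    ?_ ?_ ?_ (ε / 2) (by positivity)
  · obtain ⟨G0, hG0⟩ := key
    refine ⟨G0, fun G hG => ?_⟩
    have := hG0 G hG
    have e : c - ε / 2 - ε / 2 = c - ε := by ring
    rwa [e] at this
  · rintro p ⟨b, -, rfl⟩
    refine ⟨by positivity, ?_⟩
    have : 0 ≤ R * (8 * s * 3 ^ b) := by positivity
    simp only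
    positivity
  · intro x hx1 hx2
    have hx0 : 0 < x := lt_of_lt_of_le ha0 hx1
    set y : ℝ := θ * x * (1 - η) / 8 with hy
    have hyy : y₀ ≤ y := by
      have h1 : 8 * y₀ / (θ * (1 - η)) ≤ x := (le_max_right _ _).trans hx1
      rw [div_le_iff₀ (by positivity)] at h1
      rw [hy, le_div_iff₀ (by norm_num)]
      linarith
    obtain ⟨b, e, hb, h1, h2⟩ := hN y hyy
    set m : ℝ := 8 * 3 ^ b * 2 ^ e with hm
    have hm1 : (1 - η) ^ 2 * (θ * x) ≤ m := by
      rw [hm]
      rw [hy] at h1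
      nlinarith
    have hm2 : m ≤ (1 - η) * (θ * x) := by
      rw [hm]
      rw [hy] at h2
      nlinarith
    have hm0 : 0 < m := by positivity
    have hθw : θ * w = lam := by
      rw [hθ]
      field_simp
    refine ⟨_, ⟨b, hb, rfl⟩, e, ?_, ?_, ?_⟩
    · simp only
      have h3 : (8 * η * w) * 2 ^ e ≤ η * w * m := by
        have h4 : (1 : ℝ) ≤ 3 ^ b := one_le_pow₀ (by norm_num)
        have h5 : (8 : ℝ) * 2 ^ e ≤ m := by
          rw [hm]
          have : (0 : ℝ) < 2 ^ e := by positivity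
          nlinarith
        calc (8 * η * w) * 2 ^ e = η * w * (8 * 2 ^ e) := by ring
          _ ≤ η * w * m := mul_le_mul_of_nonneg_left h5 (by positivity)
      have h6 : m * w * (1 + η) ≤ x * lam := by
        calc m * w * (1 + η) ≤ (1 - η) * (θ * x) * w * (1 + η) := by
              have := mul_le_mul_of_nonneg_right hm2 (by positivity : 0 ≤ w * (1 + η))
              nlinarith
          _ = (1 - η ^ 2) * (x * lam) := by
              rw [← hθw]
              ring
          _ ≤ 1 * (x * lam) := by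
              refine mul_le_mul_of_nonneg_right ?_ (by positivity)
              nlinarith [sq_nonneg η]
          _ = _ := one_mul _
      have h7 : (16 * 3 ^ b + R * (8 * s * 3 ^ b)) * (2 : ℝ) ^ e = m * (2 + R * s) := by
        rw [hm]
        ring
      have h8 : (x - 2 * (8 * 3 ^ b) * 2 ^ e) * lam = x * lam - 2 * m * lam := by
        rw [hm]
        ring
      rw [h8, add_mul, h7]
      have h9 : m * (2 + R * s) + 2 * m * lam = m * w := by
        rw [hw]
        ring
      nlinarith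
    · rw [hC]
      have h3 : (3 : ℝ) ^ b ≤ 3 ^ N := pow_le_pow_right₀ (by norm_num) hb
      have h4 : m ≤ 8 * 3 ^ N * 2 ^ e := by
        rw [hm]
        have : (0 : ℝ) < 2 ^ e := by positivity
        nlinarith
      rw [div_mul_eq_mul_div, le_div_iff₀ (by positivity)]
      nlinarith
    · unfold phiE
      simp only
      have h3 : (c - ε / 2) * x ≤ s * m * (2 - β * (1 - R)) := by
        calc (c - ε / 2) * x ≤ (1 - η) ^ 2 * c * x := mul_le_mul_of_nonneg_right hηc hx0.le
          _ = s * (2 - β * (1 - R)) * ((1 - η) ^ 2 * (θ * x)) := by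
              rw [hcw]
              ring
          _ ≤ s * (2 - β * (1 - R)) * m := by
              refine mul_le_mul_of_nonneg_left hm1 ?_
              have : 0 ≤ 2 - β * (1 - R) := by linarith
              positivity
          _ = _ := by ring
      have h5 : 8 * s * 3 ^ b * (2 : ℝ) ^ e = s * m := by
        rw [hm]
        ring
      have hbits : R * (s * m) ≤ (x - 2 * (8 * 3 ^ b) * 2 ^ e) * lam - 16 * 3 ^ b * 2 ^ e := by
        have h6 : m * w ≤ x * lam := by
          calc m * w ≤ (1 - η) * (θ * x) * w := mul_le_mul_of_nonneg_right hm2 hw0.le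
            _ = (1 - η) * (x * lam) := by
                rw [← hθw]
                ring
            _ ≤ 1 * (x * lam) := mul_le_mul_of_nonneg_right (by linarith) (by positivity)
            _ = _ := one_mul _
        have h7 : (x - 2 * (8 * 3 ^ b) * 2 ^ e) * lam - 16 * 3 ^ b * 2 ^ e =
            x * lam - 2 * m * lam - 2 * m := by
          rw [hm]
          ring
        have h9 : m * w = 2 * m * lam + 2 * m + R * (s * m) := by
          rw [hw]
          ring
        linarith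
      rw [le_min_iff]
      have hsm : 0 ≤ s * m := by positivity
      constructor
      · have h6 : 2 * (8 * s * 3 ^ b) * (2 : ℝ) ^ e = 2 * (s * m) := by
          rw [← h5]
          ring
        rw [h6, h5]
        have h10 : β * (s * m - ((x - 2 * (8 * 3 ^ b) * 2 ^ e) * lam - 16 * 3 ^ b * 2 ^ e)) ≤
            β * (s * m - R * (s * m)) := mul_le_mul_of_nonneg_left (by linarith) hβ
        have h11 : s * m * (2 - β * (1 - R)) = 2 * (s * m) - β * (s * m - R * (s * m)) := by ring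
        linarith
      · have h6 : 2 * (8 * s * 3 ^ b) * (2 : ℝ) ^ e = 2 * (s * m) := by
          rw [← h5]
          ring
        rw [h6]
        have h7 : 0 ≤ β * (1 - R) := mul_nonneg hβ (by linarith)
        have h8 : s * m * (2 - β * (1 - R)) = 2 * (s * m) - (s * m) * (β * (1 - R)) := by ring
        have h9 : 0 ≤ (s * m) * (β * (1 - R)) := mul_nonneg hsm h7
        linarith
  · refine CoversE.of_fin D ((Set.finite_Iic N).image _) ?_
    rintro p ⟨b, -, rfl⟩
    exact H b C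

end FF
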