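import Pool.Agent.FO.Dense
import Pool.Agent.FF.FinalLL

/-!
# Lower bounds for `L(q)` from dense families
-/

set_option autoImplicit false

namespace Pool.Agent.FF

/-- **The bound from dense families and a bound for codes.** -/
theorem LL_dense {k : Type} [Field k] [Finite k] (h2 : (2 : k) ≠ 0) {lam : ℝ} (hlam0 : 0 < lam)
    (hlam : (2 : ℝ) ^ lam ≤ Nat.card k) {s : ℝ} (hs : 0 < s)
    (H : ∀ b : ℕ, TowerO k (8 * 3 ^ b, 16 * 3 ^ b, 8 * s * 3 ^ b)) {B κ : ℕ} {u : ℝ}
    (hb : BlkF B κ u) (hκ : κ < B) (hu : 0 ≤ u) (hu2 : u ≤ B) {c : ℝ}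
    (hc : c ≤ s * (2 - 2 * u / B) / (2 + (2 + κ / B * s) / lam)) :
    ENNReal.ofReal c ≤ LL k := by
  refine (ENNReal.ofReal_le_ofReal hc).trans (ofReal_le_LL ?_)
  have hB : (0 : ℝ) < B := by exact_mod_cast (by omega : 0 < B)
  have hBκ : (0 : ℝ) < (B : ℝ) - κ := by
    have : ((κ + 1 : ℕ) : ℝ) ≤ (B : ℕ) := by exact_mod_cast hκ
    push_cast at this
    linarith
  have e : 2 * u / ((B : ℝ) - κ) * (1 - (κ : ℝ) / B) = 2 * u / B := by
    field_simp
  have key := _root_.FF.final_dense (EC k) (EC_mono k) (lam := lam) (s := s) (R := (κ : ℝ) / B)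
    (β := 2 * u / ((B : ℝ) - κ)) hlam0 hs (by positivity)
    (by rw [div_le_one hB]; linarith) (by positivity)
    (by rw [e, div_le_iff₀ hB]; linarith)
    (fun b C => coversO_one h2 hlam0 hlam (by positivity) (by positivity) (by positivity) hκ hu hb
      (H b) C)
  rw [e] at key
  exact key

end Pool.Agent.FF
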