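import Pool.Agent.FF.FinalE

/-!
# The numbers for `q = 9`
-/

set_option autoImplicit false

namespace FF

/-- `q = 9` : `21 / 20` -/
theorem final_nine (E : ℕ → ℝ → Prop) (mono : ∀ G x y, y ≤ x → E G x → E G y)
    (H : CoversE E (168 / 53) 47 {((12, 24, 24), (67 / 217, 59 / 75)),
      ((2, 4, 4), (35 / 103, 53 / 68)),
      ((10, 20, 20), (1 / 300, 896 / 897))}) :
    ∀ ε : ℝ, 0 < ε → ∃ G0 : ℕ, ∀ G : ℕ, G0 ≤ G → E G ((21 / 20 - ε) * G) := by
  apply final_generalE E mono (168 / 53) (21 / 20) (35) (1 / 1000) 47 (by norm_num) (by norm_num)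
    (by norm_num) _ _ _ H
  · intro p hp
    simp only [Set.mem_insert_iff, Set.mem_singleton_iff] at hp
    rcases hp with rfl | rfl | rfl <;> norm_num
  intro x hx1 hx2
  rcases le_or_gt x (320 / 7) with h0 | h0
  · refine ⟨((12, 24, 24), (67 / 217, 59 / 75)),
      Set.mem_insert _ _, 0, ?_, ?_, ?_⟩
    · norm_num; linarith
    · norm_num; linarith
    · unfold phiE
      rw [le_min_iff]
      constructor
      · norm_num; linarith
      · norm_num; linarith
  rcases le_or_gt x (60) with h1 | h1
  · refine ⟨((2, 4, 4), (35 / 103, 53 / 68)),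
      Set.mem_insert_of_mem _ (Set.mem_insert _ _), 3, ?_, ?_, ?_⟩
    · norm_num; linarith
    · norm_num; linarith
    · unfold phiE
      rw [le_min_iff]
      constructor
      · norm_num; linarith
      · norm_num; linarith
  · refine ⟨((10, 20, 20), (1 / 300, 896 / 897)),
      Set.mem_insert_of_mem _ (Set.mem_insert_of_mem _ (Set.mem_singleton _)), 1, ?_, ?_, ?_⟩
    · norm_num; linarith
    · norm_num; linarith
    · unfold phiE
      rw [le_min_iff]
      constructor
      · norm_num; linarith
      · norm_num; linarith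

end FF
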