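import Pool.Agent.FF.FinalE

/-!
# Numerical values for `q = 25, 49, 121, 169`
-/

set_option autoImplicit false

namespace FF

/-- `q = 25` : `41 / 20` -/
theorem final_o25 (E : ℕ → ℝ → Prop) (mono : ∀ G x y, y ≤ x → E G x → E G y)
    (H : CoversE E (65 / 14) 23 {((2, 4, 8), (23 / 124, 83 / 101)),
      ((6, 12, 24), (23 / 124, 83 / 101))}) :
    ∀ ε : ℝ, 0 < ε → ∃ G0 : ℕ, ∀ G : ℕ, G0 ≤ G → E G ((41 / 20 - ε) * G) := by
  apply final_generalE E mono (65 / 14) (41 / 20) (11) (1 / 1000) 23 (by norm_num) (by norm_num)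
    (by norm_num) _ _ _ H
  · intro p hp
    simp only [Set.mem_insert_iff, Set.mem_singleton_iff] at hp
    rcases hp with rfl | rfl <;> norm_num
  intro x hx1 hx2
  rcases le_or_gt x (78 / 5) with h0 | h0
  · refine ⟨((2, 4, 8), (23 / 124, 83 / 101)),
      Set.mem_insert _ _, 1, ?_, ?_, ?_⟩
    · norm_num; linarith
    · norm_num; linarith
    · unfold phiE
      rw [le_min_iff]
      constructor
      · norm_num; linarith
      · norm_num; linarith
  · refine ⟨((6, 12, 24), (23 / 124, 83 / 101)),
      Set.mem_insert_of_mem _ (Set.mem_singleton _), 0, ?_, ?_, ?_⟩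
    · norm_num; linarith
    · norm_num; linarith
    · unfold phiE
      rw [le_min_iff]
      constructor
      · norm_num; linarith
      · norm_num; linarith

/-- `q = 49` : `78 / 25` -/
theorem final_o49 (E : ℕ → ℝ → Prop) (mono : ∀ G x y, y ≤ x → E G x → E G y)
    (H : CoversE E (393 / 70) 23 {((2, 4, 12), (23 / 124, 83 / 101)),
      ((6, 12, 36), (23 / 124, 83 / 101))}) :
    ∀ ε : ℝ, 0 < ε → ∃ G0 : ℕ, ∀ G : ℕ, G0 ≤ G → E G ((78 / 25 - ε) * G) := by
  apply final_generalE E mono (393 / 70) (78 / 25) (11) (1 / 1000) 23 (by norm_num) (by norm_num)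
    (by norm_num) _ _ _ H
  · intro p hp
    simp only [Set.mem_insert_iff, Set.mem_singleton_iff] at hp
    rcases hp with rfl | rfl <;> norm_num
  intro x hx1 hx2
  rcases le_or_gt x (46 / 3) with h0 | h0
  · refine ⟨((2, 4, 12), (23 / 124, 83 / 101)),
      Set.mem_insert _ _, 1, ?_, ?_, ?_⟩
    · norm_num; linarith
    · norm_num; linarith
    · unfold phiE
      rw [le_min_iff]
      constructor
      · norm_num; linarith
      · norm_num; linarith
  · refine ⟨((6, 12, 36), (23 / 124, 83 / 101)),
      Set.mem_insert_of_mem _ (Set.mem_singleton _), 0, ?_, ?_, ?_⟩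
    · norm_num; linarith
    · norm_num; linarith
    · unfold phiE
      rw [le_min_iff]
      constructor
      · norm_num; linarith
      · norm_num; linarith

/-- `q = 121` : `26 / 5` -/
theorem final_o121 (E : ℕ → ℝ → Prop) (mono : ∀ G x y, y ≤ x → E G x → E G y)
    (H : CoversE E (339 / 49) 23 {((2, 4, 20), (23 / 124, 83 / 101)),
      ((6, 12, 60), (23 / 124, 83 / 101))}) :
    ∀ ε : ℝ, 0 < ε → ∃ G0 : ℕ, ∀ G : ℕ, G0 ≤ G → E G ((26 / 5 - ε) * G) := by
  apply final_generalE E mono (339 / 49) (26 / 5) (11) (1 / 1000) 23 (by norm_num) (by norm_num)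
    (by norm_num) _ _ _ H
  · intro p hp
    simp only [Set.mem_insert_iff, Set.mem_singleton_iff] at hp
    rcases hp with rfl | rfl <;> norm_num
  intro x hx1 hx2
  rcases le_or_gt x (123 / 8) with h0 | h0
  · refine ⟨((2, 4, 20), (23 / 124, 83 / 101)),
      Set.mem_insert _ _, 1, ?_, ?_, ?_⟩
    · norm_num; linarith
    · norm_num; linarith
    · unfold phiE
      rw [le_min_iff]
      constructor
      · norm_num; linarith
      · norm_num; linarith
  · refine ⟨((6, 12, 60), (23 / 124, 83 / 101)),
      Set.mem_insert_of_mem _ (Set.mem_singleton _), 0, ?_, ?_, ?_⟩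
    · norm_num; linarith
    · norm_num; linarith
    · unfold phiE
      rw [le_min_iff]
      constructor
      · norm_num; linarith
      · norm_num; linarith

/-- `q = 169` : `31 / 5` -/
theorem final_o169 (E : ℕ → ℝ → Prop) (mono : ∀ G x y, y ≤ x → E G x → E G y)
    (H : CoversE E (37 / 5) 23 {((6, 12, 72), (81 / 250, 265 / 338)),
      ((2, 4, 24), (247 / 1000, 604 / 753)),
      ((2, 4, 24), (168 / 241, 11856 / 17593)),
      ((2, 4, 24), (933 / 1000, 3968 / 8375)),
      ((6, 12, 72), (9 / 50, 169 / 205)),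
      ((6, 12, 72), (52 / 267, 176 / 215))}) :
    ∀ ε : ℝ, 0 < ε → ∃ G0 : ℕ, ∀ G : ℕ, G0 ≤ G → E G ((31 / 5 - ε) * G) := by
  apply final_generalE E mono (37 / 5) (31 / 5) (17) (1 / 1000) 23 (by norm_num) (by norm_num)
    (by norm_num) _ _ _ H
  · intro p hp
    simp only [Set.mem_insert_iff, Set.mem_singleton_iff] at hp
    rcases hp with rfl | rfl | rfl | rfl | rfl | rfl <;> norm_num
  intro x hx1 hx2
  rcases le_or_gt x (171 / 8) with h0 | h0
  · refine ⟨((6, 12, 72), (81 / 250, 265 / 338)),
      Set.mem_insert _ _, 0, ?_, ?_, ?_⟩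
    · norm_num; linarith
    · norm_num; linarith
    · unfold phiE
      rw [le_min_iff]
      constructor
      · norm_num; linarith
      · norm_num; linarith
  rcases le_or_gt x (789 / 29) with h1 | h1
  · refine ⟨((2, 4, 24), (247 / 1000, 604 / 753)),
      Set.mem_insert_of_mem _ (Set.mem_insert _ _), 2, ?_, ?_, ?_⟩
    · norm_num; linarith
    · norm_num; linarith
    · unfold phiE
      rw [le_min_iff]
      constructor
      · norm_num; linarith
      · norm_num; linarith
  rcases le_or_gt x (333 / 11) with h2 | h2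
  · refine ⟨((2, 4, 24), (168 / 241, 11856 / 17593)),
      Set.mem_insert_of_mem _ (Set.mem_insert_of_mem _ (Set.mem_insert _ _)), 2, ?_, ?_, ?_⟩
    · norm_num; linarith
    · norm_num; linarith
    · unfold phiE
      rw [le_min_iff]
      constructor
      · norm_num; linarith
      · norm_num; linarith
  rcases le_or_gt x (2060 / 67) with h3 | h3
  · refine ⟨((2, 4, 24), (933 / 1000, 3968 / 8375)),
      Set.mem_insert_of_mem _ (Set.mem_insert_of_mem _ (Set.mem_insert_of_mem _ (Set.mem_insert _ _))), 2, ?_, ?_, ?_⟩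
    · norm_num; linarith
    · norm_num; linarith
    · unfold phiE
      rw [le_min_iff]
      constructor
      · norm_num; linarith
      · norm_num; linarith
  rcases le_or_gt x (528 / 17) with h4 | h4
  · refine ⟨((6, 12, 72), (9 / 50, 169 / 205)),
      Set.mem_insert_of_mem _ (Set.mem_insert_of_mem _ (Set.mem_insert_of_mem _ (Set.mem_insert_of_mem _ (Set.mem_insert _ _)))), 1, ?_, ?_, ?_⟩
    · norm_num; linarith
    · norm_num; linarith
    · unfold phiE
      rw [le_min_iff]
      constructor
      · norm_num; linarith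
      · norm_num; linarith
  · refine ⟨((6, 12, 72), (52 / 267, 176 / 215)),
      Set.mem_insert_of_mem _ (Set.mem_insert_of_mem _ (Set.mem_insert_of_mem _ (Set.mem_insert_of_mem _ (Set.mem_insert_of_mem _ (Set.mem_singleton _))))), 1, ?_, ?_, ?_⟩
    · norm_num; linarith
    · norm_num; linarith
    · unfold phiE
      rw [le_min_iff]
      constructor
      · norm_num; linarith
      · norm_num; linarith

end FF
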