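import Pool.Agent.FF.FinalE

/-!
# Numerical values for odd squares, part 1
-/

set_option autoImplicit false

namespace FF

/-- `q = 9` : `21 / 20` -/
theorem final_s9 (E : ℕ → ℝ → Prop) (mono : ∀ G x y, y ≤ x → E G x → E G y)
    (H : CoversE E (168 / 53) 47 {((12, 24, 24), (42 / 125, 259 / 332)),
      ((2, 4, 4), (35 / 103, 53 / 68)),
      ((10, 20, 20), (1 / 1000, 3374 / 3375))}) :
    ∀ ε : ℝ, 0 < ε → ∃ G0 : ℕ, ∀ G : ℕ, G0 ≤ G → E G ((21 / 20 - ε) * G) := by
  apply final_generalE E mono (168 / 53) (21 / 20) (35) (1 / 1000) 47 (by norm_num) (by norm_num)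
    (by norm_num) _ _ _ H
  · intro p hp
    simp only [Set.mem_insert_iff, Set.mem_singleton_iff] at hp
    rcases hp with rfl | rfl | rfl <;> norm_num
  intro x hx1 hx2
  rcases le_or_gt x (320 / 7) with h0 | h0
  · refine ⟨((12, 24, 24), (42 / 125, 259 / 332)),
      Set.mem_insert _ _, 0, ?_, ?_, ?_⟩
    · norm_num; linarith
    · norm_num; linarith
    · unfold phiE
      rw [le_min_iff]
      constructor
      · norm_num; linarith
      · norm_num; linarith
  rcases le_or_gt x (60) with h1 | h1
  · refine ⟨((2, 4, 4), (35 / 103, 53 / 68)),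
      Set.mem_insert_of_mem _ (Set.mem_insert _ _), 3, ?_, ?_, ?_⟩
    · norm_num; linarith
    · norm_num; linarith
    · unfold phiE
      rw [le_min_iff]
      constructor
      · norm_num; linarith
      · norm_num; linarith
  · refine ⟨((10, 20, 20), (1 / 1000, 3374 / 3375)),
      Set.mem_insert_of_mem _ (Set.mem_insert_of_mem _ (Set.mem_singleton _)), 1, ?_, ?_, ?_⟩
    · norm_num; linarith
    · norm_num; linarith
    · unfold phiE
      rw [le_min_iff]
      constructor
      · norm_num; linarith
      · norm_num; linarith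

/-- `q = 25` : `41 / 20` -/
theorem final_s25 (E : ℕ → ℝ → Prop) (mono : ∀ G x y, y ≤ x → E G x → E G y)
    (H : CoversE E (339 / 73) 23 {((2, 4, 8), (53 / 291, 14 / 17)),
      ((6, 12, 24), (41 / 250, 347 / 418))}) :
    ∀ ε : ℝ, 0 < ε → ∃ G0 : ℕ, ∀ G : ℕ, G0 ≤ G → E G ((41 / 20 - ε) * G) := by
  apply final_generalE E mono (339 / 73) (41 / 20) (11) (1 / 1000) 23 (by norm_num) (by norm_num)
    (by norm_num) _ _ _ H
  · intro p hp
    simp only [Set.mem_insert_iff, Set.mem_singleton_iff] at hp
    rcases hp with rfl | rfl <;> norm_num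
  intro x hx1 hx2
  rcases le_or_gt x (78 / 5) with h0 | h0
  · refine ⟨((2, 4, 8), (53 / 291, 14 / 17)),
      Set.mem_insert _ _, 1, ?_, ?_, ?_⟩
    · norm_num; linarith
    · norm_num; linarith
    · unfold phiE
      rw [le_min_iff]
      constructor
      · norm_num; linarith
      · norm_num; linarith
  · refine ⟨((6, 12, 24), (41 / 250, 347 / 418)),
      Set.mem_insert_of_mem _ (Set.mem_singleton _), 0, ?_, ?_, ?_⟩
    · norm_num; linarith
    · norm_num; linarith
    · unfold phiE
      rw [le_min_iff]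
      constructor
      · norm_num; linarith
      · norm_num; linarith

/-- `q = 49` : `82 / 25` -/
theorem final_s49 (E : ℕ → ℝ → Prop) (mono : ∀ G x y, y ≤ x → E G x → E G y)
    (H : CoversE E (320 / 57) 35 {((6, 12, 36), (59 / 172, 88 / 113)),
      ((2, 4, 12), (81 / 250, 265 / 338)),
      ((10, 20, 60), (107 / 1000, 766 / 893))}) :
    ∀ ε : ℝ, 0 < ε → ∃ G0 : ℕ, ∀ G : ℕ, G0 ≤ G → E G ((82 / 25 - ε) * G) := by
  apply final_generalE E mono (320 / 57) (82 / 25) (17) (1 / 1000) 35 (by norm_num) (by norm_num)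
    (by norm_num) _ _ _ H
  · intro p hp
    simp only [Set.mem_insert_iff, Set.mem_singleton_iff] at hp
    rcases hp with rfl | rfl | rfl <;> norm_num
  intro x hx1 hx2
  rcases le_or_gt x (351 / 16) with h0 | h0
  · refine ⟨((6, 12, 36), (59 / 172, 88 / 113)),
      Set.mem_insert _ _, 0, ?_, ?_, ?_⟩
    · norm_num; linarith
    · norm_num; linarith
    · unfold phiE
      rw [le_min_iff]
      constructor
      · norm_num; linarith
      · norm_num; linarith
  rcases le_or_gt x (439 / 15) with h1 | h1
  · refine ⟨((2, 4, 12), (81 / 250, 265 / 338)),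
      Set.mem_insert_of_mem _ (Set.mem_insert _ _), 2, ?_, ?_, ?_⟩
    · norm_num; linarith
    · norm_num; linarith
    · unfold phiE
      rw [le_min_iff]
      constructor
      · norm_num; linarith
      · norm_num; linarith
  · refine ⟨((10, 20, 60), (107 / 1000, 766 / 893)),
      Set.mem_insert_of_mem _ (Set.mem_insert_of_mem _ (Set.mem_singleton _)), 0, ?_, ?_, ?_⟩
    · norm_num; linarith
    · norm_num; linarith
    · unfold phiE
      rw [le_min_iff]
      constructor
      · norm_num; linarith
      · norm_num; linarith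

/-- `q = 121` : `107 / 20` -/
theorem final_s121 (E : ℕ → ℝ → Prop) (mono : ∀ G x y, y ≤ x → E G x → E G y)
    (H : CoversE E (339 / 49) 35 {((6, 12, 60), (71 / 200, 100 / 129)),
      ((2, 4, 20), (71 / 200, 100 / 129)),
      ((10, 20, 100), (351 / 1000, 504 / 649))}) :
    ∀ ε : ℝ, 0 < ε → ∃ G0 : ℕ, ∀ G : ℕ, G0 ≤ G → E G ((107 / 20 - ε) * G) := by
  apply final_generalE E mono (339 / 49) (107 / 20) (17) (1 / 1000) 35 (by norm_num) (by norm_num)
    (by norm_num) _ _ _ H
  · intro p hp
    simp only [Set.mem_insert_iff, Set.mem_singleton_iff] at hp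
    rcases hp with rfl | rfl | rfl <;> norm_num
  intro x hx1 hx2
  rcases le_or_gt x (157 / 7) with h0 | h0
  · refine ⟨((6, 12, 60), (71 / 200, 100 / 129)),
      Set.mem_insert _ _, 0, ?_, ?_, ?_⟩
    · norm_num; linarith
    · norm_num; linarith
    · unfold phiE
      rw [le_min_iff]
      constructor
      · norm_num; linarith
      · norm_num; linarith
  rcases le_or_gt x (29) with h1 | h1
  · refine ⟨((2, 4, 20), (71 / 200, 100 / 129)),
      Set.mem_insert_of_mem _ (Set.mem_insert _ _), 2, ?_, ?_, ?_⟩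
    · norm_num; linarith
    · norm_num; linarith
    · unfold phiE
      rw [le_min_iff]
      constructor
      · norm_num; linarith
      · norm_num; linarith
  · refine ⟨((10, 20, 100), (351 / 1000, 504 / 649)),
      Set.mem_insert_of_mem _ (Set.mem_insert_of_mem _ (Set.mem_singleton _)), 0, ?_, ?_, ?_⟩
    · norm_num; linarith
    · norm_num; linarith
    · unfold phiE
      rw [le_min_iff]
      constructor
      · norm_num; linarith
      · norm_num; linarith

end FF
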