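import Pool.Agent.FF.FinalE

/-!
# Numerical values for odd squares, part 2
-/

set_option autoImplicit false

namespace FF

/-- `q = 169` : `157 / 25` -/
theorem final_s169 (E : ℕ → ℝ → Prop) (mono : ∀ G x y, y ≤ x → E G x → E G y)
    (H : CoversE E (37 / 5) 36 {((10, 20, 120), (177 / 281, 2610 / 3653)),
      ((6, 12, 72), (13 / 35, 17 / 22)),
      ((6, 12, 72), (103 / 200, 362 / 485)),
      ((6, 12, 72), (89 / 139, 4921 / 6950)),
      ((6, 12, 72), (166 / 225, 344 / 531)),
      ((6, 12, 72), (203 / 249, 3388 / 5727)),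
      ((2, 4, 24), (57 / 196, 110 / 139)),
      ((2, 4, 24), (71 / 200, 100 / 129)),
      ((2, 4, 24), (491 / 1000, 382 / 509)),
      ((2, 4, 24), (154 / 247, 5496 / 7657)),
      ((10, 20, 120), (59 / 200, 556 / 705)),
      ((10, 20, 120), (18 / 47, 67 / 87)),
      ((10, 20, 120), (97 / 183, 32 / 43))}) :
    ∀ ε : ℝ, 0 < ε → ∃ G0 : ℕ, ∀ G : ℕ, G0 ≤ G → E G ((157 / 25 - ε) * G) := by
  apply final_generalE E mono (37 / 5) (157 / 25) (33) (1 / 1000) 36 (by norm_num) (by norm_num)
    (by norm_num) _ _ _ H
  · intro p hp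
    simp only [Set.mem_insert_iff, Set.mem_singleton_iff] at hp
    rcases hp with rfl | rfl | rfl | rfl | rfl | rfl | rfl | rfl | rfl | rfl | rfl | rfl | rfl <;> norm_num
  intro x hx1 hx2
  rcases le_or_gt x (655 / 19) with h0 | h0
  · refine ⟨((10, 20, 120), (177 / 281, 2610 / 3653)),
      Set.mem_insert _ _, 0, ?_, ?_, ?_⟩
    · norm_num; linarith
    · norm_num; linarith
    · unfold phiE
      rw [le_min_iff]
      constructor
      · norm_num; linarith
      · norm_num; linarith
  rcases le_or_gt x (410 / 11) with h1 | h1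
  · refine ⟨((6, 12, 72), (13 / 35, 17 / 22)),
      Set.mem_insert_of_mem _ (Set.mem_insert _ _), 1, ?_, ?_, ?_⟩
    · norm_num; linarith
    · norm_num; linarith
    · unfold phiE
      rw [le_min_iff]
      constructor
      · norm_num; linarith
      · norm_num; linarith
  rcases le_or_gt x (675 / 17) with h2 | h2
  · refine ⟨((6, 12, 72), (103 / 200, 362 / 485)),
      Set.mem_insert_of_mem _ (Set.mem_insert_of_mem _ (Set.mem_insert _ _)), 1, ?_, ?_, ?_⟩
    · norm_num; linarith
    · norm_num; linarith
    · unfold phiE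
      rw [le_min_iff]
      constructor
      · norm_num; linarith
      · norm_num; linarith
  rcases le_or_gt x (749 / 18) with h3 | h3
  · refine ⟨((6, 12, 72), (89 / 139, 4921 / 6950)),
      Set.mem_insert_of_mem _ (Set.mem_insert_of_mem _ (Set.mem_insert_of_mem _ (Set.mem_insert _ _))), 1, ?_, ?_, ?_⟩
    · norm_num; linarith
    · norm_num; linarith
    · unfold phiE
      rw [le_min_iff]
      constructor
      · norm_num; linarith
      · norm_num; linarith
  rcases le_or_gt x (345 / 8) with h4 | h4
  · refine ⟨((6, 12, 72), (166 / 225, 344 / 531)),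
      Set.mem_insert_of_mem _ (Set.mem_insert_of_mem _ (Set.mem_insert_of_mem _ (Set.mem_insert_of_mem _ (Set.mem_insert _ _)))), 1, ?_, ?_, ?_⟩
    · norm_num; linarith
    · norm_num; linarith
    · unfold phiE
      rw [le_min_iff]
      constructor
      · norm_num; linarith
      · norm_num; linarith
  rcases le_or_gt x (351 / 8) with h5 | h5
  · refine ⟨((6, 12, 72), (203 / 249, 3388 / 5727)),
      Set.mem_insert_of_mem _ (Set.mem_insert_of_mem _ (Set.mem_insert_of_mem _ (Set.mem_insert_of_mem _ (Set.mem_insert_of_mem _ (Set.mem_insert _ _))))), 1, ?_, ?_, ?_⟩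
    · norm_num; linarith
    · norm_num; linarith
    · unfold phiE
      rw [le_min_iff]
      constructor
      · norm_num; linarith
      · norm_num; linarith
  rcases le_or_gt x (228 / 5) with h6 | h6
  · refine ⟨((2, 4, 24), (57 / 196, 110 / 139)),
      Set.mem_insert_of_mem _ (Set.mem_insert_of_mem _ (Set.mem_insert_of_mem _ (Set.mem_insert_of_mem _ (Set.mem_insert_of_mem _ (Set.mem_insert_of_mem _ (Set.mem_insert _ _)))))), 3, ?_, ?_, ?_⟩
    · norm_num; linarith
    · norm_num; linarith
    · unfold phiE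
      rw [le_min_iff]
      constructor
      · norm_num; linarith
      · norm_num; linarith
  rcases le_or_gt x (197 / 4) with h7 | h7
  · refine ⟨((2, 4, 24), (71 / 200, 100 / 129)),
      Set.mem_insert_of_mem _ (Set.mem_insert_of_mem _ (Set.mem_insert_of_mem _ (Set.mem_insert_of_mem _ (Set.mem_insert_of_mem _ (Set.mem_insert_of_mem _ (Set.mem_insert_of_mem _ (Set.mem_insert _ _))))))), 3, ?_, ?_, ?_⟩
    · norm_num; linarith
    · norm_num; linarith
    · unfold phiE
      rw [le_min_iff]
      constructor
      · norm_num; linarith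
      · norm_num; linarith
  rcases le_or_gt x (578 / 11) with h8 | h8
  · refine ⟨((2, 4, 24), (491 / 1000, 382 / 509)),
      Set.mem_insert_of_mem _ (Set.mem_insert_of_mem _ (Set.mem_insert_of_mem _ (Set.mem_insert_of_mem _ (Set.mem_insert_of_mem _ (Set.mem_insert_of_mem _ (Set.mem_insert_of_mem _ (Set.mem_insert_of_mem _ (Set.mem_insert _ _)))))))), 3, ?_, ?_, ?_⟩
    · norm_num; linarith
    · norm_num; linarith
    · unfold phiE
      rw [le_min_iff]
      constructor
      · norm_num; linarith
      · norm_num; linarith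
  rcases le_or_gt x (2089 / 38) with h9 | h9
  · refine ⟨((2, 4, 24), (154 / 247, 5496 / 7657)),
      Set.mem_insert_of_mem _ (Set.mem_insert_of_mem _ (Set.mem_insert_of_mem _ (Set.mem_insert_of_mem _ (Set.mem_insert_of_mem _ (Set.mem_insert_of_mem _ (Set.mem_insert_of_mem _ (Set.mem_insert_of_mem _ (Set.mem_insert_of_mem _ (Set.mem_insert _ _))))))))), 3, ?_, ?_, ?_⟩
    · norm_num; linarith
    · norm_num; linarith
    · unfold phiE
      rw [le_min_iff]
      constructor
      · norm_num; linarith
      · norm_num; linarith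
  rcases le_or_gt x (347 / 6) with h10 | h10
  · refine ⟨((10, 20, 120), (59 / 200, 556 / 705)),
      Set.mem_insert_of_mem _ (Set.mem_insert_of_mem _ (Set.mem_insert_of_mem _ (Set.mem_insert_of_mem _ (Set.mem_insert_of_mem _ (Set.mem_insert_of_mem _ (Set.mem_insert_of_mem _ (Set.mem_insert_of_mem _ (Set.mem_insert_of_mem _ (Set.mem_insert_of_mem _ (Set.mem_insert _ _)))))))))), 1, ?_, ?_, ?_⟩
    · norm_num; linarith
    · norm_num; linarith
    · unfold phiE
      rw [le_min_iff]
      constructor
      · norm_num; linarith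
      · norm_num; linarith
  rcases le_or_gt x (313 / 5) with h11 | h11
  · refine ⟨((10, 20, 120), (18 / 47, 67 / 87)),
      Set.mem_insert_of_mem _ (Set.mem_insert_of_mem _ (Set.mem_insert_of_mem _ (Set.mem_insert_of_mem _ (Set.mem_insert_of_mem _ (Set.mem_insert_of_mem _ (Set.mem_insert_of_mem _ (Set.mem_insert_of_mem _ (Set.mem_insert_of_mem _ (Set.mem_insert_of_mem _ (Set.mem_insert_of_mem _ (Set.mem_insert _ _))))))))))), 1, ?_, ?_, ?_⟩
    · norm_num; linarith
    · norm_num; linarith
    · unfold phiE
      rw [le_min_iff]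
      constructor
      · norm_num; linarith
      · norm_num; linarith
  · refine ⟨((10, 20, 120), (97 / 183, 32 / 43)),
      Set.mem_insert_of_mem _ (Set.mem_insert_of_mem _ (Set.mem_insert_of_mem _ (Set.mem_insert_of_mem _ (Set.mem_insert_of_mem _ (Set.mem_insert_of_mem _ (Set.mem_insert_of_mem _ (Set.mem_insert_of_mem _ (Set.mem_insert_of_mem _ (Set.mem_insert_of_mem _ (Set.mem_insert_of_mem _ (Set.mem_insert_of_mem _ (Set.mem_singleton _)))))))))))), 1, ?_, ?_, ?_⟩
    · norm_num; linarith
    · norm_num; linarith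
    · unfold phiE
      rw [le_min_iff]
      constructor
      · norm_num; linarith
      · norm_num; linarith

/-- `q = 289` : `803 / 100` -/
theorem final_s289 (E : ℕ → ℝ → Prop) (mono : ∀ G x y, y ≤ x → E G x → E G y)
    (H : CoversE E (515 / 63) 32 {((6, 12, 96), (11 / 51, 13 / 16)),
      ((6, 12, 96), (71 / 200, 100 / 129)),
      ((6, 12, 96), (473 / 1000, 398 / 527)),
      ((6, 12, 96), (103 / 200, 362 / 485)),
      ((2, 4, 32), (15 / 131, 99 / 116)),
      ((2, 4, 32), (153 / 1000, 708 / 847)),
      ((2, 4, 32), (32 / 125, 149 / 186)),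
      ((2, 4, 32), (111 / 278, 128 / 167)),
      ((10, 20, 160), (41 / 250, 347 / 418)),
      ((10, 20, 160), (23 / 81, 23 / 29)),
      ((6, 12, 96), (24 / 149, 104 / 125))}) :
    ∀ ε : ℝ, 0 < ε → ∃ G0 : ℕ, ∀ G : ℕ, G0 ≤ G → E G ((803 / 100 - ε) * G) := by
  apply final_generalE E mono (515 / 63) (803 / 100) (33 / 2) (1 / 1000) 32 (by norm_num) (by norm_num)
    (by norm_num) _ _ _ H
  · intro p hp
    simp only [Set.mem_insert_iff, Set.mem_singleton_iff] at hp
    rcases hp with rfl | rfl | rfl | rfl | rfl | rfl | rfl | rfl | rfl | rfl | rfl <;> norm_num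
  intro x hx1 hx2
  rcases le_or_gt x (53 / 3) with h0 | h0
  · refine ⟨((6, 12, 96), (11 / 51, 13 / 16)),
      Set.mem_insert _ _, 0, ?_, ?_, ?_⟩
    · norm_num; linarith
    · norm_num; linarith
    · unfold phiE
      rw [le_min_iff]
      constructor
      · norm_num; linarith
      · norm_num; linarith
  rcases le_or_gt x (495 / 26) with h1 | h1
  · refine ⟨((6, 12, 96), (71 / 200, 100 / 129)),
      Set.mem_insert_of_mem _ (Set.mem_insert _ _), 0, ?_, ?_, ?_⟩
    · norm_num; linarith
    · norm_num; linarith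
    · unfold phiE
      rw [le_min_iff]
      constructor
      · norm_num; linarith
      · norm_num; linarith
  rcases le_or_gt x (137 / 7) with h2 | h2
  · refine ⟨((6, 12, 96), (473 / 1000, 398 / 527)),
      Set.mem_insert_of_mem _ (Set.mem_insert_of_mem _ (Set.mem_insert _ _)), 0, ?_, ?_, ?_⟩
    · norm_num; linarith
    · norm_num; linarith
    · unfold phiE
      rw [le_min_iff]
      constructor
      · norm_num; linarith
      · norm_num; linarith
  rcases le_or_gt x (178 / 9) with h3 | h3
  · refine ⟨((6, 12, 96), (103 / 200, 362 / 485)),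
      Set.mem_insert_of_mem _ (Set.mem_insert_of_mem _ (Set.mem_insert_of_mem _ (Set.mem_insert _ _))), 0, ?_, ?_, ?_⟩
    · norm_num; linarith
    · norm_num; linarith
    · unfold phiE
      rw [le_min_iff]
      constructor
      · norm_num; linarith
      · norm_num; linarith
  rcases le_or_gt x (163 / 8) with h4 | h4
  · refine ⟨((2, 4, 32), (15 / 131, 99 / 116)),
      Set.mem_insert_of_mem _ (Set.mem_insert_of_mem _ (Set.mem_insert_of_mem _ (Set.mem_insert_of_mem _ (Set.mem_insert _ _)))), 2, ?_, ?_, ?_⟩
    · norm_num; linarith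
    · norm_num; linarith
    · unfold phiE
      rw [le_min_iff]
      constructor
      · norm_num; linarith
      · norm_num; linarith
  rcases le_or_gt x (659 / 30) with h5 | h5
  · refine ⟨((2, 4, 32), (153 / 1000, 708 / 847)),
      Set.mem_insert_of_mem _ (Set.mem_insert_of_mem _ (Set.mem_insert_of_mem _ (Set.mem_insert_of_mem _ (Set.mem_insert_of_mem _ (Set.mem_insert _ _))))), 2, ?_, ?_, ?_⟩
    · norm_num; linarith
    · norm_num; linarith
    · unfold phiE
      rw [le_min_iff]
      constructor
      · norm_num; linarith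
      · norm_num; linarith
  rcases le_or_gt x (460 / 19) with h6 | h6
  · refine ⟨((2, 4, 32), (32 / 125, 149 / 186)),
      Set.mem_insert_of_mem _ (Set.mem_insert_of_mem _ (Set.mem_insert_of_mem _ (Set.mem_insert_of_mem _ (Set.mem_insert_of_mem _ (Set.mem_insert_of_mem _ (Set.mem_insert _ _)))))), 2, ?_, ?_, ?_⟩
    · norm_num; linarith
    · norm_num; linarith
    · unfold phiE
      rw [le_min_iff]
      constructor
      · norm_num; linarith
      · norm_num; linarith
  rcases le_or_gt x (77 / 3) with h7 | h7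
  · refine ⟨((2, 4, 32), (111 / 278, 128 / 167)),
      Set.mem_insert_of_mem _ (Set.mem_insert_of_mem _ (Set.mem_insert_of_mem _ (Set.mem_insert_of_mem _ (Set.mem_insert_of_mem _ (Set.mem_insert_of_mem _ (Set.mem_insert_of_mem _ (Set.mem_insert _ _))))))), 2, ?_, ?_, ?_⟩
    · norm_num; linarith
    · norm_num; linarith
    · unfold phiE
      rw [le_min_iff]
      constructor
      · norm_num; linarith
      · norm_num; linarith
  rcases le_or_gt x (1541 / 55) with h8 | h8
  · refine ⟨((10, 20, 160), (41 / 250, 347 / 418)),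
      Set.mem_insert_of_mem _ (Set.mem_insert_of_mem _ (Set.mem_insert_of_mem _ (Set.mem_insert_of_mem _ (Set.mem_insert_of_mem _ (Set.mem_insert_of_mem _ (Set.mem_insert_of_mem _ (Set.mem_insert_of_mem _ (Set.mem_insert _ _)))))))), 0, ?_, ?_, ?_⟩
    · norm_num; linarith
    · norm_num; linarith
    · unfold phiE
      rw [le_min_iff]
      constructor
      · norm_num; linarith
      · norm_num; linarith
  rcases le_or_gt x (123 / 4) with h9 | h9
  · refine ⟨((10, 20, 160), (23 / 81, 23 / 29)),
      Set.mem_insert_of_mem _ (Set.mem_insert_of_mem _ (Set.mem_insert_of_mem _ (Set.mem_insert_of_mem _ (Set.mem_insert_of_mem _ (Set.mem_insert_of_mem _ (Set.mem_insert_of_mem _ (Set.mem_insert_of_mem _ (Set.mem_insert_of_mem _ (Set.mem_insert _ _))))))))), 0, ?_, ?_, ?_⟩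
    · norm_num; linarith
    · norm_num; linarith
    · unfold phiE
      rw [le_min_iff]
      constructor
      · norm_num; linarith
      · norm_num; linarith
  · refine ⟨((6, 12, 96), (24 / 149, 104 / 125)),
      Set.mem_insert_of_mem _ (Set.mem_insert_of_mem _ (Set.mem_insert_of_mem _ (Set.mem_insert_of_mem _ (Set.mem_insert_of_mem _ (Set.mem_insert_of_mem _ (Set.mem_insert_of_mem _ (Set.mem_insert_of_mem _ (Set.mem_insert_of_mem _ (Set.mem_insert_of_mem _ (Set.mem_singleton _)))))))))), 1, ?_, ?_, ?_⟩
    · norm_num; linarith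
    · norm_num; linarith
    · unfold phiE
      rw [le_min_iff]
      constructor
      · norm_num; linarith
      · norm_num; linarith

end FF
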