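import Pool.Agent.FF.FinalE

/-!
# Numerical values for odd squares, part 3
-/

set_option autoImplicit false

namespace FF

/-- `q = 361` : `89 / 10` -/
theorem final_s361 (E : ℕ → ℝ → Prop) (mono : ∀ G x y, y ≤ x → E G x → E G y)
    (H : CoversE E (892 / 105) 32 {((6, 12, 108), (32 / 157, 102 / 125)),
      ((6, 12, 108), (27 / 80, 124 / 159)),
      ((6, 12, 108), (41 / 97, 16 / 21)),
      ((2, 4, 36), (6 / 71, 113 / 130)),
      ((2, 4, 36), (71 / 500, 361 / 429)),
      ((2, 4, 36), (32 / 125, 149 / 186)),
      ((10, 20, 180), (12 / 133, 105 / 121)),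
      ((10, 20, 180), (42 / 281, 200 / 239)),
      ((10, 20, 180), (35 / 128, 74 / 93)),
      ((6, 12, 108), (5 / 33, 41 / 49))}) :
    ∀ ε : ℝ, 0 < ε → ∃ G0 : ℕ, ∀ G : ℕ, G0 ≤ G → E G ((89 / 10 - ε) * G) := by
  apply final_generalE E mono (892 / 105) (89 / 10) (33 / 2) (1 / 1000) 32 (by norm_num) (by norm_num)
    (by norm_num) _ _ _ H
  · intro p hp
    simp only [Set.mem_insert_iff, Set.mem_singleton_iff] at hp
    rcases hp with rfl | rfl | rfl | rfl | rfl | rfl | rfl | rfl | rfl | rfl <;> norm_num
  intro x hx1 hx2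
  rcases le_or_gt x (124 / 7) with h0 | h0
  · refine ⟨((6, 12, 108), (32 / 157, 102 / 125)),
      Set.mem_insert _ _, 0, ?_, ?_, ?_⟩
    · norm_num; linarith
    · norm_num; linarith
    · unfold phiE
      rw [le_min_iff]
      constructor
      · norm_num; linarith
      · norm_num; linarith
  rcases le_or_gt x (94 / 5) with h1 | h1
  · refine ⟨((6, 12, 108), (27 / 80, 124 / 159)),
      Set.mem_insert_of_mem _ (Set.mem_insert _ _), 0, ?_, ?_, ?_⟩
    · norm_num; linarith
    · norm_num; linarith
    · unfold phiE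
      rw [le_min_iff]
      constructor
      · norm_num; linarith
      · norm_num; linarith
  rcases le_or_gt x (425 / 22) with h2 | h2
  · refine ⟨((6, 12, 108), (41 / 97, 16 / 21)),
      Set.mem_insert_of_mem _ (Set.mem_insert_of_mem _ (Set.mem_insert _ _)), 0, ?_, ?_, ?_⟩
    · norm_num; linarith
    · norm_num; linarith
    · unfold phiE
      rw [le_min_iff]
      constructor
      · norm_num; linarith
      · norm_num; linarith
  rcases le_or_gt x (203 / 10) with h3 | h3
  · refine ⟨((2, 4, 36), (6 / 71, 113 / 130)),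
      Set.mem_insert_of_mem _ (Set.mem_insert_of_mem _ (Set.mem_insert_of_mem _ (Set.mem_insert _ _))), 2, ?_, ?_, ?_⟩
    · norm_num; linarith
    · norm_num; linarith
    · unfold phiE
      rw [le_min_iff]
      constructor
      · norm_num; linarith
      · norm_num; linarith
  rcases le_or_gt x (89 / 4) with h4 | h4
  · refine ⟨((2, 4, 36), (71 / 500, 361 / 429)),
      Set.mem_insert_of_mem _ (Set.mem_insert_of_mem _ (Set.mem_insert_of_mem _ (Set.mem_insert_of_mem _ (Set.mem_insert _ _)))), 2, ?_, ?_, ?_⟩
    · norm_num; linarith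
    · norm_num; linarith
    · unfold phiE
      rw [le_min_iff]
      constructor
      · norm_num; linarith
      · norm_num; linarith
  rcases le_or_gt x (170 / 7) with h5 | h5
  · refine ⟨((2, 4, 36), (32 / 125, 149 / 186)),
      Set.mem_insert_of_mem _ (Set.mem_insert_of_mem _ (Set.mem_insert_of_mem _ (Set.mem_insert_of_mem _ (Set.mem_insert_of_mem _ (Set.mem_insert _ _))))), 2, ?_, ?_, ?_⟩
    · norm_num; linarith
    · norm_num; linarith
    · unfold phiE
      rw [le_min_iff]
      constructor
      · norm_num; linarith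
      · norm_num; linarith
  rcases le_or_gt x (485 / 19) with h6 | h6
  · refine ⟨((10, 20, 180), (12 / 133, 105 / 121)),
      Set.mem_insert_of_mem _ (Set.mem_insert_of_mem _ (Set.mem_insert_of_mem _ (Set.mem_insert_of_mem _ (Set.mem_insert_of_mem _ (Set.mem_insert_of_mem _ (Set.mem_insert _ _)))))), 0, ?_, ?_, ?_⟩
    · norm_num; linarith
    · norm_num; linarith
    · unfold phiE
      rw [le_min_iff]
      constructor
      · norm_num; linarith
      · norm_num; linarith
  rcases le_or_gt x (169 / 6) with h7 | h7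
  · refine ⟨((10, 20, 180), (42 / 281, 200 / 239)),
      Set.mem_insert_of_mem _ (Set.mem_insert_of_mem _ (Set.mem_insert_of_mem _ (Set.mem_insert_of_mem _ (Set.mem_insert_of_mem _ (Set.mem_insert_of_mem _ (Set.mem_insert_of_mem _ (Set.mem_insert _ _))))))), 0, ?_, ?_, ?_⟩
    · norm_num; linarith
    · norm_num; linarith
    · unfold phiE
      rw [le_min_iff]
      constructor
      · norm_num; linarith
      · norm_num; linarith
  rcases le_or_gt x (767 / 25) with h8 | h8
  · refine ⟨((10, 20, 180), (35 / 128, 74 / 93)),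
      Set.mem_insert_of_mem _ (Set.mem_insert_of_mem _ (Set.mem_insert_of_mem _ (Set.mem_insert_of_mem _ (Set.mem_insert_of_mem _ (Set.mem_insert_of_mem _ (Set.mem_insert_of_mem _ (Set.mem_insert_of_mem _ (Set.mem_insert _ _)))))))), 0, ?_, ?_, ?_⟩
    · norm_num; linarith
    · norm_num; linarith
    · unfold phiE
      rw [le_min_iff]
      constructor
      · norm_num; linarith
      · norm_num; linarith
  · refine ⟨((6, 12, 108), (5 / 33, 41 / 49)),
      Set.mem_insert_of_mem _ (Set.mem_insert_of_mem _ (Set.mem_insert_of_mem _ (Set.mem_insert_of_mem _ (Set.mem_insert_of_mem _ (Set.mem_insert_of_mem _ (Set.mem_insert_of_mem _ (Set.mem_insert_of_mem _ (Set.mem_insert_of_mem _ (Set.mem_singleton _))))))))), 1, ?_, ?_, ?_⟩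
    · norm_num; linarith
    · norm_num; linarith
    · unfold phiE
      rw [le_min_iff]
      constructor
      · norm_num; linarith
      · norm_num; linarith

/-- `q = 529` : `53 / 5` -/
theorem final_s529 (E : ℕ → ℝ → Prop) (mono : ∀ G x y, y ≤ x → E G x → E G y)
    (H : CoversE E (389 / 43) 31 {((6, 12, 132), (23 / 124, 83 / 101)),
      ((6, 12, 132), (67 / 217, 59 / 75)),
      ((2, 4, 44), (9 / 185, 79 / 88)),
      ((2, 4, 44), (15 / 131, 99 / 116)),
      ((2, 4, 44), (119 / 500, 307 / 381)),
      ((10, 20, 220), (11 / 125, 33 / 38)),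
      ((10, 20, 220), (29 / 144, 94 / 115)),
      ((6, 12, 132), (23 / 212, 6 / 7))}) :
    ∀ ε : ℝ, 0 < ε → ∃ G0 : ℕ, ∀ G : ℕ, G0 ≤ G → E G ((53 / 5 - ε) * G) := by
  apply final_generalE E mono (389 / 43) (53 / 5) (33 / 2) (1 / 1000) 31 (by norm_num) (by norm_num)
    (by norm_num) _ _ _ H
  · intro p hp
    simp only [Set.mem_insert_iff, Set.mem_singleton_iff] at hp
    rcases hp with rfl | rfl | rfl | rfl | rfl | rfl | rfl | rfl <;> norm_num
  intro x hx1 hx2
  rcases le_or_gt x (1908 / 107) with h0 | h0
  · refine ⟨((6, 12, 132), (23 / 124, 83 / 101)),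
      Set.mem_insert _ _, 0, ?_, ?_, ?_⟩
    · norm_num; linarith
    · norm_num; linarith
    · unfold phiE
      rw [le_min_iff]
      constructor
      · norm_num; linarith
      · norm_num; linarith
  rcases le_or_gt x (75 / 4) with h1 | h1
  · refine ⟨((6, 12, 132), (67 / 217, 59 / 75)),
      Set.mem_insert_of_mem _ (Set.mem_insert _ _), 0, ?_, ?_, ?_⟩
    · norm_num; linarith
    · norm_num; linarith
    · unfold phiE
      rw [le_min_iff]
      constructor
      · norm_num; linarith
      · norm_num; linarith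
  rcases le_or_gt x (20) with h2 | h2
  · refine ⟨((2, 4, 44), (9 / 185, 79 / 88)),
      Set.mem_insert_of_mem _ (Set.mem_insert_of_mem _ (Set.mem_insert _ _)), 2, ?_, ?_, ?_⟩
    · norm_num; linarith
    · norm_num; linarith
    · unfold phiE
      rw [le_min_iff]
      constructor
      · norm_num; linarith
      · norm_num; linarith
  rcases le_or_gt x (112 / 5) with h3 | h3
  · refine ⟨((2, 4, 44), (15 / 131, 99 / 116)),
      Set.mem_insert_of_mem _ (Set.mem_insert_of_mem _ (Set.mem_insert_of_mem _ (Set.mem_insert _ _))), 2, ?_, ?_, ?_⟩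
    · norm_num; linarith
    · norm_num; linarith
    · unfold phiE
      rw [le_min_iff]
      constructor
      · norm_num; linarith
      · norm_num; linarith
  rcases le_or_gt x (268 / 11) with h4 | h4
  · refine ⟨((2, 4, 44), (119 / 500, 307 / 381)),
      Set.mem_insert_of_mem _ (Set.mem_insert_of_mem _ (Set.mem_insert_of_mem _ (Set.mem_insert_of_mem _ (Set.mem_insert _ _)))), 2, ?_, ?_, ?_⟩
    · norm_num; linarith
    · norm_num; linarith
    · unfold phiE
      rw [le_min_iff]
      constructor
      · norm_num; linarith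
      · norm_num; linarith
  rcases le_or_gt x (217 / 8) with h5 | h5
  · refine ⟨((10, 20, 220), (11 / 125, 33 / 38)),
      Set.mem_insert_of_mem _ (Set.mem_insert_of_mem _ (Set.mem_insert_of_mem _ (Set.mem_insert_of_mem _ (Set.mem_insert_of_mem _ (Set.mem_insert _ _))))), 0, ?_, ?_, ?_⟩
    · norm_num; linarith
    · norm_num; linarith
    · unfold phiE
      rw [le_min_iff]
      constructor
      · norm_num; linarith
      · norm_num; linarith
  rcases le_or_gt x (179 / 6) with h6 | h6
  · refine ⟨((10, 20, 220), (29 / 144, 94 / 115)),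
      Set.mem_insert_of_mem _ (Set.mem_insert_of_mem _ (Set.mem_insert_of_mem _ (Set.mem_insert_of_mem _ (Set.mem_insert_of_mem _ (Set.mem_insert_of_mem _ (Set.mem_insert _ _)))))), 0, ?_, ?_, ?_⟩
    · norm_num; linarith
    · norm_num; linarith
    · unfold phiE
      rw [le_min_iff]
      constructor
      · norm_num; linarith
      · norm_num; linarith
  · refine ⟨((6, 12, 132), (23 / 212, 6 / 7)),
      Set.mem_insert_of_mem _ (Set.mem_insert_of_mem _ (Set.mem_insert_of_mem _ (Set.mem_insert_of_mem _ (Set.mem_insert_of_mem _ (Set.mem_insert_of_mem _ (Set.mem_insert_of_mem _ (Set.mem_singleton _))))))), 1, ?_, ?_, ?_⟩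
    · norm_num; linarith
    · norm_num; linarith
    · unfold phiE
      rw [le_min_iff]
      constructor
      · norm_num; linarith
      · norm_num; linarith

end FF
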