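import Pool.Agent.FF.FinalE

/-!
# Numerical values for odd squares, part 4
-/

set_option autoImplicit false

namespace FF

/-- `q = 841` : `66 / 5` -/
theorem final_s841 (E : ℕ → ℝ → Prop) (mono : ∀ G x y, y ≤ x → E G x → E G y)
    (H : CoversE E (855 / 88) 30 {((6, 12, 168), (9 / 50, 169 / 205)),
      ((6, 12, 168), (18 / 71, 85 / 106)),
      ((2, 4, 56), (21 / 1000, 912 / 979)),
      ((2, 4, 56), (17 / 257, 53 / 60)),
      ((2, 4, 56), (24 / 149, 104 / 125)),
      ((10, 20, 280), (19 / 500, 437 / 481)),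
      ((10, 20, 280), (15 / 131, 99 / 116)),
      ((6, 12, 168), (9 / 187, 80 / 89)),
      ((6, 12, 168), (29 / 223, 82 / 97))}) :
    ∀ ε : ℝ, 0 < ε → ∃ G0 : ℕ, ∀ G : ℕ, G0 ≤ G → E G ((66 / 5 - ε) * G) := by
  apply final_generalE E mono (855 / 88) (66 / 5) (17) (1 / 1000) 30 (by norm_num) (by norm_num)
    (by norm_num) _ _ _ H
  · intro p hp
    simp only [Set.mem_insert_iff, Set.mem_singleton_iff] at hp
    rcases hp with rfl | rfl | rfl | rfl | rfl | rfl | rfl | rfl | rfl <;> norm_num
  intro x hx1 hx2
  rcases le_or_gt x (141 / 8) with h0 | h0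
  · refine ⟨((6, 12, 168), (9 / 50, 169 / 205)),
      Set.mem_insert _ _, 0, ?_, ?_, ?_⟩
    · norm_num; linarith
    · norm_num; linarith
    · unfold phiE
      rw [le_min_iff]
      constructor
      · norm_num; linarith
      · norm_num; linarith
  rcases le_or_gt x (127 / 7) with h1 | h1
  · refine ⟨((6, 12, 168), (18 / 71, 85 / 106)),
      Set.mem_insert_of_mem _ (Set.mem_insert _ _), 0, ?_, ?_, ?_⟩
    · norm_num; linarith
    · norm_num; linarith
    · unfold phiE
      rw [le_min_iff]
      constructor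
      · norm_num; linarith
      · norm_num; linarith
  rcases le_or_gt x (211 / 11) with h2 | h2
  · refine ⟨((2, 4, 56), (21 / 1000, 912 / 979)),
      Set.mem_insert_of_mem _ (Set.mem_insert_of_mem _ (Set.mem_insert _ _)), 2, ?_, ?_, ?_⟩
    · norm_num; linarith
    · norm_num; linarith
    · unfold phiE
      rw [le_min_iff]
      constructor
      · norm_num; linarith
      · norm_num; linarith
  rcases le_or_gt x (235 / 11) with h3 | h3
  · refine ⟨((2, 4, 56), (17 / 257, 53 / 60)),
      Set.mem_insert_of_mem _ (Set.mem_insert_of_mem _ (Set.mem_insert_of_mem _ (Set.mem_insert _ _))), 2, ?_, ?_, ?_⟩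
    · norm_num; linarith
    · norm_num; linarith
    · unfold phiE
      rw [le_min_iff]
      constructor
      · norm_num; linarith
      · norm_num; linarith
  rcases le_or_gt x (93 / 4) with h4 | h4
  · refine ⟨((2, 4, 56), (24 / 149, 104 / 125)),
      Set.mem_insert_of_mem _ (Set.mem_insert_of_mem _ (Set.mem_insert_of_mem _ (Set.mem_insert_of_mem _ (Set.mem_insert _ _)))), 2, ?_, ?_, ?_⟩
    · norm_num; linarith
    · norm_num; linarith
    · unfold phiE
      rw [le_min_iff]
      constructor
      · norm_num; linarith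
      · norm_num; linarith
  rcases le_or_gt x (634 / 25) with h5 | h5
  · refine ⟨((10, 20, 280), (19 / 500, 437 / 481)),
      Set.mem_insert_of_mem _ (Set.mem_insert_of_mem _ (Set.mem_insert_of_mem _ (Set.mem_insert_of_mem _ (Set.mem_insert_of_mem _ (Set.mem_insert _ _))))), 0, ?_, ?_, ?_⟩
    · norm_num; linarith
    · norm_num; linarith
    · unfold phiE
      rw [le_min_iff]
      constructor
      · norm_num; linarith
      · norm_num; linarith
  rcases le_or_gt x (197 / 7) with h6 | h6
  · refine ⟨((10, 20, 280), (15 / 131, 99 / 116)),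
      Set.mem_insert_of_mem _ (Set.mem_insert_of_mem _ (Set.mem_insert_of_mem _ (Set.mem_insert_of_mem _ (Set.mem_insert_of_mem _ (Set.mem_insert_of_mem _ (Set.mem_insert _ _)))))), 0, ?_, ?_, ?_⟩
    · norm_num; linarith
    · norm_num; linarith
    · unfold phiE
      rw [le_min_iff]
      constructor
      · norm_num; linarith
      · norm_num; linarith
  rcases le_or_gt x (31) with h7 | h7
  · refine ⟨((6, 12, 168), (9 / 187, 80 / 89)),
      Set.mem_insert_of_mem _ (Set.mem_insert_of_mem _ (Set.mem_insert_of_mem _ (Set.mem_insert_of_mem _ (Set.mem_insert_of_mem _ (Set.mem_insert_of_mem _ (Set.mem_insert_of_mem _ (Set.mem_insert _ _))))))), 1, ?_, ?_, ?_⟩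
    · norm_num; linarith
    · norm_num; linarith
    · unfold phiE
      rw [le_min_iff]
      constructor
      · norm_num; linarith
      · norm_num; linarith
  · refine ⟨((6, 12, 168), (29 / 223, 82 / 97)),
      Set.mem_insert_of_mem _ (Set.mem_insert_of_mem _ (Set.mem_insert_of_mem _ (Set.mem_insert_of_mem _ (Set.mem_insert_of_mem _ (Set.mem_insert_of_mem _ (Set.mem_insert_of_mem _ (Set.mem_insert_of_mem _ (Set.mem_singleton _)))))))), 1, ?_, ?_, ?_⟩
    · norm_num; linarith
    · norm_num; linarith
    · unfold phiE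
      rw [le_min_iff]
      constructor
      · norm_num; linarith
      · norm_num; linarith

/-- `q = 961` : `141 / 10` -/
theorem final_s961 (E : ℕ → ℝ → Prop) (mono : ∀ G x y, y ≤ x → E G x → E G y)
    (H : CoversE E (753 / 76) 29 {((6, 12, 180), (14 / 89, 188 / 225)),
      ((6, 12, 180), (219 / 1000, 634 / 781)),
      ((6, 12, 180), (247 / 1000, 604 / 753)),
      ((2, 4, 60), (3 / 250, 469 / 494)),
      ((2, 4, 60), (3 / 100, 446 / 485)),
      ((2, 4, 60), (12 / 133, 105 / 121)),
      ((2, 4, 60), (87 / 500, 341 / 413)),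
      ((10, 20, 300), (19 / 500, 437 / 481)),
      ((10, 20, 300), (23 / 212, 6 / 7)),
      ((6, 12, 180), (2 / 55, 242 / 265)),
      ((6, 12, 180), (101 / 1000, 774 / 899))}) :
    ∀ ε : ℝ, 0 < ε → ∃ G0 : ℕ, ∀ G : ℕ, G0 ≤ G → E G ((141 / 10 - ε) * G) := by
  apply final_generalE E mono (753 / 76) (141 / 10) (33 / 2) (1 / 1000) 29 (by norm_num) (by norm_num)
    (by norm_num) _ _ _ H
  · intro p hp
    simp only [Set.mem_insert_iff, Set.mem_singleton_iff] at hp
    rcases hp with rfl | rfl | rfl | rfl | rfl | rfl | rfl | rfl | rfl | rfl | rfl <;> norm_num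
  intro x hx1 hx2
  rcases le_or_gt x (86 / 5) with h0 | h0
  · refine ⟨((6, 12, 180), (14 / 89, 188 / 225)),
      Set.mem_insert _ _, 0, ?_, ?_, ?_⟩
    · norm_num; linarith
    · norm_num; linarith
    · unfold phiE
      rw [le_min_iff]
      constructor
      · norm_num; linarith
      · norm_num; linarith
  rcases le_or_gt x (71 / 4) with h1 | h1
  · refine ⟨((6, 12, 180), (219 / 1000, 634 / 781)),
      Set.mem_insert_of_mem _ (Set.mem_insert _ _), 0, ?_, ?_, ?_⟩
    · norm_num; linarith
    · norm_num; linarith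
    · unfold phiE
      rw [le_min_iff]
      constructor
      · norm_num; linarith
      · norm_num; linarith
  rcases le_or_gt x (197 / 11) with h2 | h2
  · refine ⟨((6, 12, 180), (247 / 1000, 604 / 753)),
      Set.mem_insert_of_mem _ (Set.mem_insert_of_mem _ (Set.mem_insert _ _)), 0, ?_, ?_, ?_⟩
    · norm_num; linarith
    · norm_num; linarith
    · unfold phiE
      rw [le_min_iff]
      constructor
      · norm_num; linarith
      · norm_num; linarith
  rcases le_or_gt x (92 / 5) with h3 | h3
  · refine ⟨((2, 4, 60), (3 / 250, 469 / 494)),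
      Set.mem_insert_of_mem _ (Set.mem_insert_of_mem _ (Set.mem_insert_of_mem _ (Set.mem_insert _ _))), 2, ?_, ?_, ?_⟩
    · norm_num; linarith
    · norm_num; linarith
    · unfold phiE
      rw [le_min_iff]
      constructor
      · norm_num; linarith
      · norm_num; linarith
  rcases le_or_gt x (713 / 36) with h4 | h4
  · refine ⟨((2, 4, 60), (3 / 100, 446 / 485)),
      Set.mem_insert_of_mem _ (Set.mem_insert_of_mem _ (Set.mem_insert_of_mem _ (Set.mem_insert_of_mem _ (Set.mem_insert _ _)))), 2, ?_, ?_, ?_⟩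
    · norm_num; linarith
    · norm_num; linarith
    · unfold phiE
      rw [le_min_iff]
      constructor
      · norm_num; linarith
      · norm_num; linarith
  rcases le_or_gt x (131 / 6) with h5 | h5
  · refine ⟨((2, 4, 60), (12 / 133, 105 / 121)),
      Set.mem_insert_of_mem _ (Set.mem_insert_of_mem _ (Set.mem_insert_of_mem _ (Set.mem_insert_of_mem _ (Set.mem_insert_of_mem _ (Set.mem_insert _ _))))), 2, ?_, ?_, ?_⟩
    · norm_num; linarith
    · norm_num; linarith
    · unfold phiE
      rw [le_min_iff]
      constructor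
      · norm_num; linarith
      · norm_num; linarith
  rcases le_or_gt x (93 / 4) with h6 | h6
  · refine ⟨((2, 4, 60), (87 / 500, 341 / 413)),
      Set.mem_insert_of_mem _ (Set.mem_insert_of_mem _ (Set.mem_insert_of_mem _ (Set.mem_insert_of_mem _ (Set.mem_insert_of_mem _ (Set.mem_insert_of_mem _ (Set.mem_insert _ _)))))), 2, ?_, ?_, ?_⟩
    · norm_num; linarith
    · norm_num; linarith
    · unfold phiE
      rw [le_min_iff]
      constructor
      · norm_num; linarith
      · norm_num; linarith
  rcases le_or_gt x (76 / 3) with h7 | h7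
  · refine ⟨((10, 20, 300), (19 / 500, 437 / 481)),
      Set.mem_insert_of_mem _ (Set.mem_insert_of_mem _ (Set.mem_insert_of_mem _ (Set.mem_insert_of_mem _ (Set.mem_insert_of_mem _ (Set.mem_insert_of_mem _ (Set.mem_insert_of_mem _ (Set.mem_insert _ _))))))), 0, ?_, ?_, ?_⟩
    · norm_num; linarith
    · norm_num; linarith
    · unfold phiE
      rw [le_min_iff]
      constructor
      · norm_num; linarith
      · norm_num; linarith
  rcases le_or_gt x (111 / 4) with h8 | h8
  · refine ⟨((10, 20, 300), (23 / 212, 6 / 7)),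
      Set.mem_insert_of_mem _ (Set.mem_insert_of_mem _ (Set.mem_insert_of_mem _ (Set.mem_insert_of_mem _ (Set.mem_insert_of_mem _ (Set.mem_insert_of_mem _ (Set.mem_insert_of_mem _ (Set.mem_insert_of_mem _ (Set.mem_insert _ _)))))))), 0, ?_, ?_, ?_⟩
    · norm_num; linarith
    · norm_num; linarith
    · unfold phiE
      rw [le_min_iff]
      constructor
      · norm_num; linarith
      · norm_num; linarith
  rcases le_or_gt x (271 / 9) with h9 | h9
  · refine ⟨((6, 12, 180), (2 / 55, 242 / 265)),
      Set.mem_insert_of_mem _ (Set.mem_insert_of_mem _ (Set.mem_insert_of_mem _ (Set.mem_insert_of_mem _ (Set.mem_insert_of_mem _ (Set.mem_insert_of_mem _ (Set.mem_insert_of_mem _ (Set.mem_insert_of_mem _ (Set.mem_insert_of_mem _ (Set.mem_insert _ _))))))))), 1, ?_, ?_, ?_⟩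
    · norm_num; linarith
    · norm_num; linarith
    · unfold phiE
      rw [le_min_iff]
      constructor
      · norm_num; linarith
      · norm_num; linarith
  · refine ⟨((6, 12, 180), (101 / 1000, 774 / 899)),
      Set.mem_insert_of_mem _ (Set.mem_insert_of_mem _ (Set.mem_insert_of_mem _ (Set.mem_insert_of_mem _ (Set.mem_insert_of_mem _ (Set.mem_insert_of_mem _ (Set.mem_insert_of_mem _ (Set.mem_insert_of_mem _ (Set.mem_insert_of_mem _ (Set.mem_insert_of_mem _ (Set.mem_singleton _)))))))))), 1, ?_, ?_, ?_⟩
    · norm_num; linarith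
    · norm_num; linarith
    · unfold phiE
      rw [le_min_iff]
      constructor
      · norm_num; linarith
      · norm_num; linarith

/-- `q = 1369` : `83 / 5` -/
theorem final_s1369 (E : ℕ → ℝ → Prop) (mono : ∀ G x y, y ≤ x → E G x → E G y)
    (H : CoversE E (448 / 43) 29 {((6, 12, 216), (41 / 250, 347 / 418)),
      ((6, 12, 216), (51 / 245, 79 / 97)),
      ((6, 12, 216), (28 / 125, 157 / 194)),
      ((2, 4, 72), (3 / 250, 469 / 494)),
      ((2, 4, 72), (61 / 1000, 278 / 313)),
      ((2, 4, 72), (71 / 500, 361 / 429)),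
      ((10, 20, 360), (3 / 100, 446 / 485)),
      ((10, 20, 360), (23 / 223, 43 / 50)),
      ((6, 12, 216), (19 / 500, 437 / 481)),
      ((6, 12, 216), (2 / 17, 64 / 75))}) :
    ∀ ε : ℝ, 0 < ε → ∃ G0 : ℕ, ∀ G : ℕ, G0 ≤ G → E G ((83 / 5 - ε) * G) := by
  apply final_generalE E mono (448 / 43) (83 / 5) (50 / 3) (1 / 1000) 29 (by norm_num) (by norm_num)
    (by norm_num) _ _ _ H
  · intro p hp
    simp only [Set.mem_insert_iff, Set.mem_singleton_iff] at hp
    rcases hp with rfl | rfl | rfl | rfl | rfl | rfl | rfl | rfl | rfl | rfl <;> norm_num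
  intro x hx1 hx2
  rcases le_or_gt x (297 / 17) with h0 | h0
  · refine ⟨((6, 12, 216), (41 / 250, 347 / 418)),
      Set.mem_insert _ _, 0, ?_, ?_, ?_⟩
    · norm_num; linarith
    · norm_num; linarith
    · unfold phiE
      rw [le_min_iff]
      constructor
      · norm_num; linarith
      · norm_num; linarith
  rcases le_or_gt x (89 / 5) with h1 | h1
  · refine ⟨((6, 12, 216), (51 / 245, 79 / 97)),
      Set.mem_insert_of_mem _ (Set.mem_insert _ _), 0, ?_, ?_, ?_⟩
    · norm_num; linarith
    · norm_num; linarith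
    · unfold phiE
      rw [le_min_iff]
      constructor
      · norm_num; linarith
      · norm_num; linarith
  rcases le_or_gt x (143 / 8) with h2 | h2
  · refine ⟨((6, 12, 216), (28 / 125, 157 / 194)),
      Set.mem_insert_of_mem _ (Set.mem_insert_of_mem _ (Set.mem_insert _ _)), 0, ?_, ?_, ?_⟩
    · norm_num; linarith
    · norm_num; linarith
    · unfold phiE
      rw [le_min_iff]
      constructor
      · norm_num; linarith
      · norm_num; linarith
  rcases le_or_gt x (250 / 13) with h3 | h3
  · refine ⟨((2, 4, 72), (3 / 250, 469 / 494)),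
      Set.mem_insert_of_mem _ (Set.mem_insert_of_mem _ (Set.mem_insert_of_mem _ (Set.mem_insert _ _))), 2, ?_, ?_, ?_⟩
    · norm_num; linarith
    · norm_num; linarith
    · unfold phiE
      rw [le_min_iff]
      constructor
      · norm_num; linarith
      · norm_num; linarith
  rcases le_or_gt x (279 / 13) with h4 | h4
  · refine ⟨((2, 4, 72), (61 / 1000, 278 / 313)),
      Set.mem_insert_of_mem _ (Set.mem_insert_of_mem _ (Set.mem_insert_of_mem _ (Set.mem_insert_of_mem _ (Set.mem_insert _ _)))), 2, ?_, ?_, ?_⟩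
    · norm_num; linarith
    · norm_num; linarith
    · unfold phiE
      rw [le_min_iff]
      constructor
      · norm_num; linarith
      · norm_num; linarith
  rcases le_or_gt x (528 / 23) with h5 | h5
  · refine ⟨((2, 4, 72), (71 / 500, 361 / 429)),
      Set.mem_insert_of_mem _ (Set.mem_insert_of_mem _ (Set.mem_insert_of_mem _ (Set.mem_insert_of_mem _ (Set.mem_insert_of_mem _ (Set.mem_insert _ _))))), 2, ?_, ?_, ?_⟩
    · norm_num; linarith
    · norm_num; linarith
    · unfold phiE
      rw [le_min_iff]
      constructor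
      · norm_num; linarith
      · norm_num; linarith
  rcases le_or_gt x (790 / 31) with h6 | h6
  · refine ⟨((10, 20, 360), (3 / 100, 446 / 485)),
      Set.mem_insert_of_mem _ (Set.mem_insert_of_mem _ (Set.mem_insert_of_mem _ (Set.mem_insert_of_mem _ (Set.mem_insert_of_mem _ (Set.mem_insert_of_mem _ (Set.mem_insert _ _)))))), 0, ?_, ?_, ?_⟩
    · norm_num; linarith
    · norm_num; linarith
    · unfold phiE
      rw [le_min_iff]
      constructor
      · norm_num; linarith
      · norm_num; linarith
  rcases le_or_gt x (28) with h7 | h7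
  · refine ⟨((10, 20, 360), (23 / 223, 43 / 50)),
      Set.mem_insert_of_mem _ (Set.mem_insert_of_mem _ (Set.mem_insert_of_mem _ (Set.mem_insert_of_mem _ (Set.mem_insert_of_mem _ (Set.mem_insert_of_mem _ (Set.mem_insert_of_mem _ (Set.mem_insert _ _))))))), 0, ?_, ?_, ?_⟩
    · norm_num; linarith
    · norm_num; linarith
    · unfold phiE
      rw [le_min_iff]
      constructor
      · norm_num; linarith
      · norm_num; linarith
  rcases le_or_gt x (499 / 16) with h8 | h8
  · refine ⟨((6, 12, 216), (19 / 500, 437 / 481)),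
      Set.mem_insert_of_mem _ (Set.mem_insert_of_mem _ (Set.mem_insert_of_mem _ (Set.mem_insert_of_mem _ (Set.mem_insert_of_mem _ (Set.mem_insert_of_mem _ (Set.mem_insert_of_mem _ (Set.mem_insert_of_mem _ (Set.mem_insert _ _)))))))), 1, ?_, ?_, ?_⟩
    · norm_num; linarith
    · norm_num; linarith
    · unfold phiE
      rw [le_min_iff]
      constructor
      · norm_num; linarith
      · norm_num; linarith
  · refine ⟨((6, 12, 216), (2 / 17, 64 / 75)),
      Set.mem_insert_of_mem _ (Set.mem_insert_of_mem _ (Set.mem_insert_of_mem _ (Set.mem_insert_of_mem _ (Set.mem_insert_of_mem _ (Set.mem_insert_of_mem _ (Set.mem_insert_of_mem _ (Set.mem_insert_of_mem _ (Set.mem_insert_of_mem _ (Set.mem_singleton _))))))))), 1, ?_, ?_, ?_⟩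
    · norm_num; linarith
    · norm_num; linarith
    · unfold phiE
      rw [le_min_iff]
      constructor
      · norm_num; linarith
      · norm_num; linarith

end FF
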