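import Pool.Agent.FO.KmCv

/-! # Kummer extensions: repartitions (port of `FF/TmGen` to any characteristic) -/

set_option autoImplicit false
set_option linter.unusedSectionVars false

namespace Pool.Agent.FF

open Finset RRD

/-- the classes -/
abbrev Km.Q (K : Type*) [Field K] (D : DV K → ℤ) : Type _ := Adl K ⧸ (AInt D ⊔ Prin K).addSubgroupOf (Adl K)

theorem Km.card_Q (K : Type*) [Field K] (D : DV K → ℤ) : Nat.card (Km.Q K D) = hCard D := rfl

namespace Km

variable {k K L : Type*} [Field k] [Finite k] [Field K] [Field L] [Algebra k K] [Algebra k L]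
  [Algebra K L] [IsScalarTower k K L] {n : ℕ} (S : Km k K L n)

include S

theorem above (v : DV K) : ∃ w : DV L, Over w v := by
  haveI := S.finite
  exact exists_above v

theorem below (w : DV L) : ∃ v : DV K, Over w v := by
  haveI := S.finite
  exact exists_below w

/-- a place above -/
noncomputable def up (v : DV K) : DV L := Classical.choose (S.above v)

theorem up_over (v : DV K) : Over (S.up v) v := Classical.choose_spec (S.above v)

/-- the place below -/
noncomputable def dn (w : DV L) : DV K := Classical.choose (S.below w)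

theorem dn_over (w : DV L) : Over w (S.dn w) := Classical.choose_spec (S.below w)

theorem dn_eq {w : DV L} {v : DV K} (h : Over w v) : S.dn w = v := (S.dn_over w).unique h

theorem up_inj : Function.Injective S.up := by
  intro v v' h
  have h1 := S.up_over v
  rw [h] at h1
  exact h1.unique (S.up_over v')

variable {g : ℕ} (C : Cv k L g)

include C

theorem polesK (a : K) : {v : DV K | ¬ v.G 0 a}.Finite := by
  refine ((C.poles (algebraMap K L a)).preimage S.up_inj.injOn).subset fun v hv => ?_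
  show ¬ (S.up v).G 0 (algebraMap K L a)
  rw [(S.up_over v).G_zero_iff]
  exact hv

theorem constK (a : K) (ha : ∀ v : DV K, v.G 0 a) : ∃ c : k, a = algebraMap k K c := by
  obtain ⟨c, hc⟩ := C.const (algebraMap K L a) fun w => ((S.dn_over w).G_zero_iff a).2 (ha _)
  refine ⟨c, (algebraMap K L).injective ?_⟩
  rw [hc, ← IsScalarTower.algebraMap_apply k K L]

theorem resK_ne (v : DV K) : Nat.card v.Res ≠ 0 := by
  let f : K →+ L := (algebraMap K L).toAddMonoidHom
  have e : v.grp 1 = ((S.up v).grp 1).comap f := by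
    ext a
    exact ((S.up_over v).G_one_iff a).symm
  have h1 : Nat.card v.Res = ((S.up v).grp 1).relIndex ((v.grp 0).map f) := by
    show (v.grp 1).relIndex (v.grp 0) = _
    rw [e, AddSubgroup.relIndex_comap]
  rw [h1]
  intro h0
  have hle : (v.grp 0).map f ≤ (S.up v).grp 0 := by
    rintro _ ⟨a, ha, rfl⟩
    exact ((S.up_over v).G_zero_iff a).2 ha
  have h2 : ((S.up v).grp 1).relIndex ((S.up v).grp 0) = 0 :=
    AddSubgroup.relIndex_eq_zero_of_le_right hle h0
  have h3 : Nat.card (S.up v).Res ≠ 0 := by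
    rw [(C.res _).2]
    exact pow_ne_zero _ Nat.card_pos.ne'
  exact h3 h2

theorem resK (v : DV K) : 1 ≤ v.deg (Nat.card k) ∧
    Nat.card v.Res = Nat.card k ^ v.deg (Nat.card k) := by
  obtain ⟨d, hd⟩ := card_Res_pow k v (S.resK_ne C v)
  have h1 : v.deg (Nat.card k) = d := by
    unfold DV.deg
    rw [hd, Nat.log_pow Finite.one_lt_card]
  rw [h1]
  refine ⟨?_, hd⟩
  rcases Nat.eq_zero_or_pos d with h | h
  · rw [h, pow_zero] at hd
    exact absurd hd v.card_Res_ne_one
  · exact h

omit C

/-- the `n`-th power of `θ` -/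
noncomputable def Θ : K := Classical.choose S.exists_Θ

theorem Θ_spec : algebraMap K L S.Θ = S.θ ^ n := Classical.choose_spec S.exists_Θ

theorem Θ_ne : S.Θ ≠ 0 := by
  intro h
  have := S.Θ_spec
  rw [h, map_zero] at this
  exact pow_ne_zero n S.θ_ne this.symm

/-- the combination of repartitions -/
noncomputable def Psi (a : ℕ → DV K → K) : DV L → L :=
  fun w => ∑ i ∈ range n, algebraMap K L (a i (S.dn w)) * S.θ ^ i

theorem Psi_sub (a b : ℕ → DV K → K) : S.Psi a - S.Psi b = S.Psi (a - b) := by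
  funext w
  simp only [Psi, Pi.sub_apply, map_sub, sub_mul, sum_sub_distrib]

include C in
theorem Psi_mem {a : ℕ → DV K → K} (ha : ∀ i, i < n → a i ∈ Adl K) : S.Psi a ∈ Adl L := by
  have h1 : S.Psi a = ∑ i ∈ range n, fun w => algebraMap K L (a i (S.dn w)) * S.θ ^ i := by
    funext w
    rw [Finset.sum_apply]
    rfl
  rw [h1]
  refine AddSubgroup.sum_mem _ fun i hi => ?_
  have h2 : {v : DV K | ¬ v.G 0 (a i v)}.Finite := ha i (mem_range.1 hi)
  have h3 : (⋃ v ∈ {v : DV K | ¬ v.G 0 (a i v)}, {w : DV L | Over w v}).Finite :=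
    h2.biUnion fun v _ => over_finite C.poles v
  refine (h3.union (C.poles (S.θ ^ i))).subset fun w hw => ?_
  by_contra hc
  rw [Set.mem_union, not_or] at hc
  apply hw
  have h4 : w.G 0 (S.θ ^ i) := not_not.1 hc.2
  have h5 : (S.dn w).G 0 (a i (S.dn w)) := by
    by_contra h6
    exact hc.1 (Set.mem_biUnion (show S.dn w ∈ {v : DV K | ¬ v.G 0 (a i v)} from h6) (S.dn_over w))
  have h7 := (((S.dn_over w).G_zero_iff _).2 h5).mul h4
  rwa [add_zero] at h7

/-- the divisor belonging to the `i`-th component -/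
noncomputable def D (i : ℕ) (v : DV K) : ℤ := -((i * v.ord S.Θ) / n)

theorem D_zero : S.D 0 = 0 := by
  funext v
  simp [D]

/-- the components of a principal + integral repartition -/
theorem key {a : ℕ → DV K → K} (h : S.Psi a ∈ AInt (0 : DV L → ℤ) ⊔ Prin L) {i : ℕ} (hi : i < n) :
    a i ∈ AInt (S.D i) ⊔ Prin K := by
  obtain ⟨b, hb, r, ⟨f, hf⟩, hsum⟩ := AddSubgroup.mem_sup.1 h
  obtain ⟨φ, hφ⟩ := S.exists_coords f
  refine AddSubgroup.mem_sup.2 ⟨fun v => a i v - φ i, ?_, fun _ => φ i, ⟨φ i, fun _ => rfl⟩, ?_⟩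
  · intro v
    have hall : ∀ w : DV L, Over w v →
        w.G 0 (∑ l ∈ range n, algebraMap K L (a l v - φ l) * S.θ ^ l) := by
      intro w hw
      have h1 : (∑ l ∈ range n, algebraMap K L (a l v - φ l) * S.θ ^ l) = b w := by
        have h2 := congrFun hsum w
        rw [Pi.add_apply, hf, hφ] at h2
        have h3 : S.Psi a w = ∑ l ∈ range n, algebraMap K L (a l v) * S.θ ^ l := by
          unfold Psi
          rw [S.dn_eq hw]
        rw [h3] at h2
        rw [eq_sub_of_add_eq h2, ← sum_sub_distrib]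
        refine sum_congr rfl fun l _ => ?_
        rw [map_sub, sub_mul]
      rw [h1]
      exact hb w
    have h4 := S.G_E hall i (S.up v) (S.up_over v)
    rw [S.E_coords (a := fun l => a l v - φ l) hi] at h4
    show v.G (S.D i v) (a i v - φ i)
    by_cases h0 : a i v - φ i = 0
    · rw [h0]
      exact DV.G_zero _
    · apply DV.G_of_le
      obtain ⟨e, he, hov⟩ := S.up_over v
      have h5 := h4.le (mul_ne_zero (map_ne_zero' h0) (pow_ne_zero i S.θ_ne))
      rw [(S.up v).ord_mul _ _ (map_ne_zero' h0) (pow_ne_zero i S.θ_ne), hov _ h0,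
        (S.up v).ord_pow S.θ_ne] at h5
      have h6 : (n : ℤ) * (S.up v).ord S.θ = e * v.ord S.Θ := by
        rw [← (S.up v).ord_pow S.θ_ne, ← S.Θ_spec, hov _ S.Θ_ne]
      have hn : (0 : ℤ) < n := by exact_mod_cast S.n_pos
      have h7 : 0 ≤ e * ((n : ℤ) * v.ord (a i v - φ i) + i * v.ord S.Θ) := by
        have h8 : 0 ≤ (n : ℤ) * (e * v.ord (a i v - φ i) + i * (S.up v).ord S.θ) :=
          mul_nonneg hn.le h5
        calc (0 : ℤ) ≤ (n : ℤ) * (e * v.ord (a i v - φ i) + i * (S.up v).ord S.θ) := h8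
          _ = e * (n * v.ord (a i v - φ i)) + i * (n * (S.up v).ord S.θ) := by ring
          _ = _ := by rw [h6]; ring
      have h9 : 0 ≤ (n : ℤ) * v.ord (a i v - φ i) + i * v.ord S.Θ := by
        by_contra hneg
        push Not at hneg
        have := mul_neg_of_pos_of_neg he hneg
        omega
      unfold D
      have h10 : -v.ord (a i v - φ i) ≤ (i * v.ord S.Θ) / n := by
        rw [Int.le_ediv_iff_mul_le hn]
        linarith
      omega
  · funext v
    show a i v - φ i + φ i = a i v
    rw [sub_add_cancel]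

/-- the map on classes (through representatives) -/
noncomputable def F (C : Cv k L g) (q : ∀ i : Fin n, Q K (S.D i)) : Q L (0 : DV L → ℤ) :=
  QuotientAddGroup.mk ⟨S.Psi fun i => if h : i < n then ((q ⟨i, h⟩).out : DV K → K) else 0,
    S.Psi_mem C fun i hi => by rw [dif_pos hi]; exact (q ⟨i, hi⟩).out.2⟩

theorem F_inj (C : Cv k L g) : Function.Injective (S.F C) := by
  intro q q' h
  unfold F at h
  rw [QuotientAddGroup.eq, AddSubgroup.mem_addSubgroupOf] at h
  funext i
  set a : ℕ → DV K → K := fun i => if h : i < n then ((q ⟨i, h⟩).out : DV K → K) else 0 with ha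
  set a' : ℕ → DV K → K := fun i => if h : i < n then ((q' ⟨i, h⟩).out : DV K → K) else 0 with ha'
  have h1 : S.Psi (a' - a) ∈ AInt (0 : DV L → ℤ) ⊔ Prin L := by
    rw [← S.Psi_sub]
    have h2 : S.Psi a' - S.Psi a = -S.Psi a + S.Psi a' := by ring
    rw [h2]
    exact h
  have h3 := S.key h1 i.2
  have h4 : (a' - a) (i : ℕ) = -((q i).out : DV K → K) + ((q' i).out : DV K → K) := by
    rw [Pi.sub_apply, ha, ha']
    simp only [i.2, dif_pos]
    ring
  rw [h4] at h3
  rw [← QuotientAddGroup.out_eq' (q i), ← QuotientAddGroup.out_eq' (q' i), QuotientAddGroup.eq,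
    AddSubgroup.mem_addSubgroupOf]
  exact h3

theorem finQL (C : Cv k L g) : Finite (Q L (0 : DV L → ℤ)) := by
  apply Nat.finite_of_card_ne_zero
  rw [card_Q, hgen C]
  exact pow_ne_zero _ Nat.card_pos.ne'

theorem prod_le (C : Cv k L g) :
    (∀ i : Fin n, hCard (S.D i) ≠ 0) ∧ ∏ i : Fin n, hCard (S.D i) ≤ Nat.card k ^ g := by
  haveI := S.finQL C
  haveI hfin : Finite (∀ i : Fin n, Q K (S.D i)) := Finite.of_injective _ (S.F_inj C)
  constructor
  · intro i
    rw [← card_Q]
    haveI : Finite (Q K (S.D i)) :=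
      Finite.of_surjective (fun q : ∀ i : Fin n, Q K (S.D i) => q i)
        (Function.surjective_eval i)
    exact Nat.card_pos.ne'
  · have h1 := Nat.card_le_card_of_injective _ (S.F_inj C)
    rw [Nat.card_pi, card_Q, hgen C] at h1
    exact h1

theorem exists_genus (C : Cv k L g) : ∃ g' : ℕ, Cv k K g' := by
  have h0 : hCard (0 : DV K → ℤ) ≠ 0 := by
    have := (S.prod_le C).1 ⟨0, S.n_pos⟩
    rwa [show S.D ((⟨0, S.n_pos⟩ : Fin n) : ℕ) = 0 from S.D_zero] at this
  obtain ⟨g', hg'⟩ := hCard_pow k K h0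
  exact ⟨g', S.polesK C, S.constK C, S.resK C, by
    show Nat.card (HH (0 : DV K → ℤ)) = _
    rw [card_HH_zero, hg']⟩

end Km

end Pool.Agent.FF
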