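import Pool.Agent.FO.KmPl
import Pool.Agent.FO.KmFib
import Pool.Agent.FF.Kl1
import Pool.Agent.FF.Deg

/-! # Kummer extensions: unramified places, total degree of a fibre; quadratic extensions -/

set_option autoImplicit false
set_option linter.unusedSectionVars false

namespace Pool.Agent.FF

open Finset RRD

namespace Km

variable {k K L : Type*} [Field k] [Finite k] [Field K] [Field L] [Algebra k K] [Algebra k L]
  [Algebra K L] [IsScalarTower k K L] {n : ℕ} (S : Km k K L n)

theorem mem_fib {v : DV K} {w : DV L} : w ∈ (S.fib_finite v).toFinset ↔ Over w v := by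
  rw [Set.Finite.mem_toFinset]
  rfl

/-- the same extension with `a θ` in place of `θ` -/
def scale (a : K) (ha : a ≠ 0) : Km k K L n where
  σ := S.σ
  σK := S.σK
  fix := S.fix
  per := S.per
  n_ne := S.n_ne
  θ := algebraMap K L a * S.θ
  θ_ne := mul_ne_zero (map_ne_zero' ha) S.θ_ne
  ζ := S.ζ
  prim := S.prim
  σθ := by rw [map_mul, S.σK, S.σθ]; ring

theorem scale_Θ (a : K) (ha : a ≠ 0) : (S.scale a ha).Θ = a ^ n * S.Θ := by
  apply (algebraMap K L).injective
  rw [Θ_spec, map_mul, map_pow, S.Θ_spec]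
  show (algebraMap K L a * S.θ) ^ n = _
  rw [mul_pow]

/-- a multiple of `θ` which is a unit at `v` -/
theorem exists_scale {v : DV K} (h : (n : ℤ) ∣ v.ord S.Θ) :
    ∃ (a : K) (ha : a ≠ 0), v.ord (S.scale a ha).Θ = 0 := by
  obtain ⟨m, hm⟩ := h
  obtain ⟨a, ha, ha1⟩ := v.exists_ord (-m)
  refine ⟨a, ha, ?_⟩
  rw [S.scale_Θ, v.ord_mul _ _ (pow_ne_zero n ha) S.Θ_ne, v.ord_pow ha, ha1, hm]
  ring

theorem D_eq_zero {v : DV K} (h0 : v.ord S.Θ = 0) (i : ℕ) : S.D i v = 0 := by
  unfold D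
  rw [h0, mul_zero, Int.zero_ediv, neg_zero]

theorem ord_θ' {v : DV K} (h0 : v.ord S.Θ = 0) {w : DV L} (hw : Over w v) : w.ord S.θ = 0 := by
  obtain ⟨e, he, hov, hte⟩ := S.ord_term hw
  have h1 := hte 1 1 one_ne_zero
  rw [map_one, one_mul, pow_one, v.ord_one, mul_zero, zero_add, h0, mul_zero, mul_zero] at h1
  rcases mul_eq_zero.1 h1 with h | h
  · have := S.n_pos'
    omega
  · exact h

/-- coordinates of elements of positive order at all places of the fibre -/
theorem coords_pos {v : DV K} (h0 : v.ord S.Θ = 0) {a : ℕ → K}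
    (hx : ∀ w : DV L, Over w v → w.G 1 (∑ i ∈ range n, algebraMap K L (a i) * S.θ ^ i)) {i : ℕ}
    (hi : i < n) : v.G 1 (a i) := by
  have h1 := S.G_E hx i (S.up v) (S.up_over v)
  rw [S.E_coords hi] at h1
  rw [← (S.up_over v).G_one_iff]
  by_cases ha : a i = 0
  · rw [ha, map_zero]; exact DV.G_zero _
  · have h2 := h1.le (mul_ne_zero (map_ne_zero' ha) (pow_ne_zero i S.θ_ne))
    rw [(S.up v).ord_mul _ _ (map_ne_zero' ha) (pow_ne_zero i S.θ_ne), (S.up v).ord_pow S.θ_ne,
      S.ord_θ' h0 (S.up_over v), mul_zero, add_zero] at h2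
    exact DV.G_of_le h2

/-- the index of ramification is one, first form -/
theorem unr_ord_aux {v : DV K} (h0 : v.ord S.Θ = 0) {w : DV L} (hw : Over w v) (a : K)
    (ha : a ≠ 0) : w.ord (algebraMap K L a) = v.ord a := by
  classical
  obtain ⟨e, he, hov⟩ := hw
  have hw : Over w v := ⟨e, he, hov⟩
  -- uniformizers everywhere
  have hex : ∀ u : DV L, ∃ t : L, t ≠ 0 ∧ u.ord t = 1 := fun u => u.exists_one
  choose b hb0 hb1 using hex
  obtain ⟨y, hy⟩ := DV.weak_approx (S.fib_finite v).toFinset b 2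
  have hy1 : ∀ u : DV L, Over u v → y ≠ 0 ∧ u.ord y = 1 := by
    intro u hu
    have h1 := hy u (by simpa using hu)
    have h2 := DV.ord_add_of_lt (v := u) (a := b u) (b := y - b u) (hb0 u)
      (by rw [hb1 u]; exact h1)
    rw [add_sub_cancel, hb1 u] at h2
    exact h2
  obtain ⟨c, hc⟩ := S.exists_coords y
  obtain ⟨t, ht, ht1⟩ := v.exists_one
  have h3 : w.G 0 (algebraMap K L t⁻¹ * y) := by
    rw [hc, mul_sum]
    refine G_sum_terms fun i hi => ?_
    rw [← mul_assoc, ← map_mul, S.G_term hw, S.D_eq_zero h0]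
    have h4 : v.G 1 (c i) := S.coords_pos h0 (fun u hu => by
      rw [← hc]
      exact DV.G_of_le (hy1 u hu).2.ge) (mem_range.1 hi)
    have h5 := (DV.G_ord (v := v) t⁻¹).mul h4
    rw [v.ord_inv ht, ht1] at h5
    simpa using h5
  have h4 := h3.le (mul_ne_zero (map_ne_zero' (inv_ne_zero ht)) (hy1 w hw).1)
  rw [w.ord_mul _ _ (map_ne_zero' (inv_ne_zero ht)) (hy1 w hw).1, (hy1 w hw).2,
    hov _ (inv_ne_zero ht), v.ord_inv ht, ht1] at h4
  have h5 : e = 1 := by omega
  rw [hov a ha, h5, one_mul]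

theorem unr_ord {v : DV K} (h : (n : ℤ) ∣ v.ord S.Θ) {w : DV L} (hw : Over w v) (a : K)
    (ha : a ≠ 0) : w.ord (algebraMap K L a) = v.ord a := by
  obtain ⟨b, hb, hb0⟩ := S.exists_scale h
  exact (S.scale b hb).unr_ord_aux hb0 hw a ha

/-- the map of residue fields -/
noncomputable def Rs {v : DV K} (h0 : v.ord S.Θ = 0) (q : Fin n → v.Res)
    (w : (S.fib_finite v).toFinset) : (w : DV L).Res :=
  QuotientAddGroup.mk ⟨∑ i ∈ range n, algebraMap K L
    (if h : i < n then ((q ⟨i, h⟩).out : K) else 0) * S.θ ^ i, by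
      have hw : Over (w : DV L) v := S.mem_fib.1 w.2
      refine G_sum_terms fun i hi => ?_
      rw [S.G_term hw, S.D_eq_zero h0, dif_pos (mem_range.1 hi)]
      exact (q ⟨i, mem_range.1 hi⟩).out.2⟩

theorem Rs_inj {v : DV K} (h0 : v.ord S.Θ = 0) : Function.Injective (S.Rs h0) := by
  intro q q' hqq
  funext i
  have h1 : ∀ w : DV L, Over w v → w.G 1 (∑ i ∈ range n, algebraMap K L
      ((if h : i < n then ((q' ⟨i, h⟩).out : K) else 0) -
        (if h : i < n then ((q ⟨i, h⟩).out : K) else 0)) * S.θ ^ i) := by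
    intro w hw
    have h2 := congrFun hqq ⟨w, by simpa using hw⟩
    unfold Rs at h2
    rw [QuotientAddGroup.eq, AddSubgroup.mem_addSubgroupOf] at h2
    have h3 : w.G 1 (-(∑ i ∈ range n, algebraMap K L
      (if h : i < n then ((q ⟨i, h⟩).out : K) else 0) * S.θ ^ i) +
        ∑ i ∈ range n, algebraMap K L (if h : i < n then ((q' ⟨i, h⟩).out : K) else 0) * S.θ ^ i) := h2
    have h4 : ∑ i ∈ range n, algebraMap K L
      ((if h : i < n then ((q' ⟨i, h⟩).out : K) else 0) -
        (if h : i < n then ((q ⟨i, h⟩).out : K) else 0)) * S.θ ^ i =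
        -(∑ i ∈ range n, algebraMap K L
      (if h : i < n then ((q ⟨i, h⟩).out : K) else 0) * S.θ ^ i) +
        ∑ i ∈ range n, algebraMap K L (if h : i < n then ((q' ⟨i, h⟩).out : K) else 0) * S.θ ^ i := by
      simp only [map_sub, sub_mul, sum_sub_distrib]
      ring
    rw [h4]
    exact h3
  have h2 := S.coords_pos h0 h1 i.2
  simp only [i.2, dif_pos] at h2
  rw [← QuotientAddGroup.out_eq' (q i), ← QuotientAddGroup.out_eq' (q' i), QuotientAddGroup.eq,
    AddSubgroup.mem_addSubgroupOf]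
  show v.G 1 (-((q i).out : K) + ((q' i).out : K))
  rw [neg_add_eq_sub]
  exact h2

theorem Rs_surj {v : DV K} (h0 : v.ord S.Θ = 0) : Function.Surjective (S.Rs h0) := by
  classical
  intro y
  obtain ⟨x, hx⟩ := DV.weak_approx (S.fib_finite v).toFinset
    (fun w => if h : w ∈ (S.fib_finite v).toFinset then ((y ⟨w, h⟩).out : L) else 0) 1
  have hx0 : ∀ w : DV L, Over w v → w.G 0 x := by
    intro w hw
    have hm : w ∈ (S.fib_finite v).toFinset := by simpa using hw
    have h1 := hx w hm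
    simp only [hm, dif_pos] at h1
    have h2 : w.G 0 ((y ⟨w, hm⟩).out : L) := (y ⟨w, hm⟩).out.2
    have h3 := (h1.mono (show (0 : ℤ) ≤ ((1 : ℕ) : ℤ) by norm_num)).add h2
    rwa [sub_add_cancel] at h3
  obtain ⟨a, ha⟩ := S.exists_coords x
  have ha0 : ∀ i < n, v.G 0 (a i) := by
    intro i hi
    have h1 := S.G_E hx0 i (S.up v) (S.up_over v)
    rw [ha, S.E_coords hi, S.G_term (S.up_over v), S.D_eq_zero h0] at h1
    exact h1
  refine ⟨fun i => QuotientAddGroup.mk ⟨a i, ha0 i i.2⟩, ?_⟩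
  funext w
  have hw : Over (w : DV L) v := S.mem_fib.1 w.2
  rw [← QuotientAddGroup.out_eq' (y w)]
  unfold Rs
  rw [QuotientAddGroup.eq, AddSubgroup.mem_addSubgroupOf]
  set q : Fin n → v.Res := fun i => QuotientAddGroup.mk ⟨a i, ha0 i i.2⟩ with hq
  show (w : DV L).G 1 (-(∑ i ∈ range n, algebraMap K L
      (if h : i < n then ((q ⟨i, h⟩).out : K) else 0) * S.θ ^ i) + ((y w).out : L))
  have h1 := hx w w.2
  simp only [w.2, dif_pos, Nat.cast_one] at h1
  have h2 : (w : DV L).G 1 (∑ i ∈ range n, algebraMap K L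
      ((if h : i < n then ((q ⟨i, h⟩).out : K) else 0) - a i) * S.θ ^ i) := by
    refine G_sum_terms fun i hi => ?_
    rw [mem_range] at hi
    refine S.G_term_one hw ?_
    rw [S.D_eq_zero h0, dif_pos hi, zero_add]
    have h3 := QuotientAddGroup.out_eq' (q ⟨i, hi⟩)
    rw [hq, QuotientAddGroup.eq, AddSubgroup.mem_addSubgroupOf] at h3
    have h4 : v.G 1 (-((q ⟨i, hi⟩).out : K) + a i) := h3
    have h5 := h4.neg
    rwa [neg_add, neg_neg, ← sub_eq_add_neg] at h5
  have h3 : -(∑ i ∈ range n, algebraMap K L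
      (if h : i < n then ((q ⟨i, h⟩).out : K) else 0) * S.θ ^ i) + ((y w).out : L) =
      -(x - ((y w).out : L)) - ∑ i ∈ range n, algebraMap K L
      ((if h : i < n then ((q ⟨i, h⟩).out : K) else 0) - a i) * S.θ ^ i := by
    simp only [map_sub, sub_mul, sum_sub_distrib]
    rw [← ha]
    ring
  rw [h3]
  exact h1.neg.sub h2

/-- **the total degree of an unramified fibre** -/
theorem sum_deg {g g' : ℕ} (hcv : Cv k K g) (C : Cv k L g') {v : DV K} (h : (n : ℤ) ∣ v.ord S.Θ) :
    ∑ w ∈ (S.fib_finite v).toFinset, deg k w = n * deg k v := by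
  classical
  obtain ⟨b, hb, h0⟩ := S.exists_scale h
  set S' := S.scale b hb with hS'
  have h1 := Nat.card_congr (Equiv.ofBijective _ ⟨S'.Rs_inj h0, S'.Rs_surj h0⟩)
  rw [Nat.card_pi, Nat.card_pi, prod_const, card_univ, Fintype.card_fin, (hcv.res v).2] at h1
  have h2 : ∏ w : (S'.fib_finite v).toFinset, Nat.card (w : DV L).Res =
      Nat.card k ^ ∑ w ∈ (S'.fib_finite v).toFinset, deg k w := by
    rw [← prod_pow_eq_pow_sum, ← Finset.prod_coe_sort _ (fun w => Nat.card k ^ deg k w)]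
    exact Finset.prod_congr rfl fun w _ => (C.res (w : DV L)).2
  rw [h2, ← pow_mul] at h1
  have h3 := Nat.pow_right_injective (Finite.one_lt_card (α := k)) h1
  rw [mul_comm] at h3
  exact h3.symm

/-- degree in a totally ramified fibre -/
theorem ram_deg {v : DV K} (h : IsCoprime (v.ord S.Θ) (n : ℤ)) {w : DV L} (hw : Over w v) :
    deg k w = deg k v := by
  have h1 : w.resCard = v.resCard := by
    refine resCard_eq_of_residue hw fun x hx => ?_
    obtain ⟨a, ha1, ha2⟩ := S.exists_terms hw hx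
    have hn := S.n_pos'
    have h0 := ha1 0 S.n_pos
    rw [show S.D 0 v = 0 from congrFun S.D_zero v] at h0
    refine ⟨a 0, h0, ?_⟩
    have e : x - algebraMap K L (a 0) = (x - ∑ i ∈ range n, algebraMap K L (a i) * S.θ ^ i) +
        ∑ i ∈ (range n).erase 0, algebraMap K L (a i) * S.θ ^ i := by
      rw [← add_sum_erase _ _ (mem_range.2 S.n_pos), pow_zero, mul_one]
      ring
    rw [e]
    refine ha2.add (G_sum_terms fun i hi => ?_)
    rw [mem_erase, mem_range] at hi
    by_cases hai : a i = 0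
    · rw [hai, map_zero, zero_mul]
      exact DV.G_zero _
    have h1 := (S.G_term hw (a i) i).2 (ha1 i hi.2)
    have h2 := h1.le (mul_ne_zero (map_ne_zero' hai) (pow_ne_zero i S.θ_ne))
    obtain ⟨e, he, hov, hte⟩ := S.ord_term hw
    have h3 := hte (a i) i hai
    apply DV.G_of_le
    by_contra hlt
    push Not at hlt
    have h4 : w.ord (algebraMap K L (a i) * S.θ ^ i) = 0 := by omega
    rw [h4, mul_zero] at h3
    have h5 : (n : ℤ) * v.ord (a i) + i * v.ord S.Θ = 0 := by
      rcases mul_eq_zero.1 h3.symm with h | h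
      · omega
      · exact h
    have h6 : (n : ℤ) ∣ i * v.ord S.Θ := ⟨-v.ord (a i), by linarith⟩
    have h7 : (n : ℤ) ∣ (i : ℤ) := h.symm.dvd_of_dvd_mul_right h6
    have h8 : n ∣ i := by exact_mod_cast h7
    have := Nat.le_of_dvd (by omega) h8
    omega
  show Nat.log (Nat.card k) (Nat.card w.Res) = Nat.log (Nat.card k) (Nat.card v.Res)
  have h2 : Nat.card w.Res = Nat.card v.Res := h1
  rw [h2]

end Km

end Pool.Agent.FF
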