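import Pool.Agent.FO.Lam5D

/-! # The rational places of the curve of genus 2 over affine points -/

set_option autoImplicit false
set_option linter.unusedSectionVars false

namespace Pool.Agent.FF

namespace L5

section tools

variable {k F : Type} [Field k] [Finite k] [Field F] [Algebra k F] {v : DV F}

/-- a function congruent to a non zero constant is a unit -/
theorem unit5 {x : F} {c : k} (hc : c ≠ 0) (h : v.G 1 (x - algebraMap k F c)) :
    x ≠ 0 ∧ v.ord x = 0 := by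
  have hc' : algebraMap k F c ≠ 0 := (_root_.map_ne_zero _).2 hc
  have h1 := DV.ord_add_of_lt (v := v) (a := algebraMap k F c) (b := x - algebraMap k F c) hc' (by
    rw [v.ord_const]
    simpa using h)
  rw [add_sub_cancel] at h1
  exact ⟨h1.1, h1.2.trans (v.ord_const c)⟩

theorem int5 {x : F} {c : k} (h : v.G 1 (x - algebraMap k F c)) : v.G 0 x := by
  have h1 := (h.mono (by norm_num : (0 : ℤ) ≤ 1)).add (DV.G_const v c)
  rwa [sub_add_cancel] at h1

theorem add5 {x y : F} {a b : k} (hx : v.G 1 (x - algebraMap k F a))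
    (hy : v.G 1 (y - algebraMap k F b)) : v.G 1 (x + y - algebraMap k F (a + b)) := by
  have h1 := hx.add hy
  rw [map_add]
  convert h1 using 1
  ring

theorem mul5 {x y : F} {a b : k} (hx : v.G 1 (x - algebraMap k F a))
    (hy : v.G 1 (y - algebraMap k F b)) : v.G 1 (x * y - algebraMap k F (a * b)) := by
  have h1 := hx.mul (int5 hy)
  have h2 := (DV.G_const v a).mul hy
  rw [add_zero] at h1
  rw [zero_add] at h2
  have h3 := h1.add h2
  rw [map_mul]
  convert h3 using 1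
  ring

theorem const5 (c : k) : v.G 1 (algebraMap k F c - algebraMap k F c) := by
  rw [sub_self]
  exact DV.G_zero 1

theorem inv5 {x : F} {a : k} (ha : a ≠ 0) (hx : v.G 1 (x - algebraMap k F a)) :
    v.G 1 (x⁻¹ - algebraMap k F a⁻¹) := by
  obtain ⟨h0, h1⟩ := unit5 ha hx
  have ha' : algebraMap k F a ≠ 0 := (_root_.map_ne_zero _).2 ha
  have h2 : v.G 0 x⁻¹ := DV.G_of_le (by rw [v.ord_inv h0, h1, neg_zero])
  have h3 := ((h2.mul hx).mul (DV.G_const v a⁻¹)).neg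
  have e : x⁻¹ - algebraMap k F a⁻¹ = -(x⁻¹ * (x - algebraMap k F a) * algebraMap k F a⁻¹) := by
    rw [map_inv₀]
    field_simp
    ring
  rw [e]
  simpa only [zero_add, add_zero] using h3

end tools

section base

variable {k : Type} [Field k] [Finite k]

theorem X5 (s₀ : k) : (Rat.pt s₀).G 1 (RatFunc.X - algebraMap k (RatFunc k) s₀) :=
  DV.G_of_le (Rat.pt_ord s₀).ge

theorem gs5 (s₀ : k) : (Rat.pt s₀).G 1 (gs k - algebraMap k (RatFunc k) (4 * s₀ + 1)) := by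
  have h1 := (DV.G_const (Rat.pt s₀) (4 : k)).mul (X5 s₀)
  rw [zero_add] at h1
  convert h1 using 1
  simp only [gs, map_add, map_mul, map_one, map_ofNat]
  ring

/-- the quotient of `cs - cs(s₀)` by `s - s₀` -/
noncomputable def qs (s₀ : k) : RatFunc k :=
  4 * (RatFunc.X ^ 2 + RatFunc.X * algebraMap k (RatFunc k) s₀ + algebraMap k (RatFunc k) s₀ ^ 2) +
    17 * (RatFunc.X + algebraMap k (RatFunc k) s₀) + 12

theorem qs5 (s₀ : k) :
    (Rat.pt s₀).G 1 (qs s₀ - algebraMap k (RatFunc k) (2 * (6 * s₀ ^ 2 + 17 * s₀ + 6))) := by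
  have h0 := X5 s₀
  have h1 : (Rat.pt s₀).G 1 (4 * RatFunc.X - algebraMap k (RatFunc k) (4 * s₀)) := by
    have := mul5 (const5 (v := Rat.pt s₀) (4 : k)) h0
    simpa only [map_ofNat] using this
  have h2 := (add5 h1 (const5 (v := Rat.pt s₀) (8 * s₀ + 17 : k)))
  have h3 := h0.mul (int5 h2)
  rw [add_zero] at h3
  convert h3 using 1
  simp only [qs, map_add, map_mul, map_ofNat, map_pow]
  ring

theorem cs_eq (s₀ : k) : cs k = (RatFunc.X - algebraMap k (RatFunc k) s₀) * qs s₀ +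
    algebraMap k (RatFunc k) (4 * s₀ ^ 3 + 17 * s₀ ^ 2 + 12 * s₀ + 4) := by
  simp only [cs, qs, map_add, map_mul, map_ofNat, map_pow]
  ring

theorem cs5 (s₀ : k) : (Rat.pt s₀).G 1
    (cs k - algebraMap k (RatFunc k) (4 * s₀ ^ 3 + 17 * s₀ ^ 2 + 12 * s₀ + 4)) := by
  have h1 := (X5 s₀).mul (int5 (qs5 s₀))
  rw [add_zero] at h1
  rw [cs_eq s₀, add_sub_cancel_right]
  exact h1

theorem gs_ne : gs k ≠ 0 := by
  intro h
  have h1 := gs5 (0 : k)
  rw [h] at h1
  have h2 := unit5 (v := Rat.pt (0 : k)) (x := (0 : RatFunc k)) (c := (4 * 0 + 1 : k)) (by simp) h1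
  exact h2.1 rfl

/-- a simple zero of the cubic factor -/
theorem cs_odd {s₀ : k} (k2 : (2 : k) ≠ 0) (k5 : (5 : k) ≠ 0)
    (h : 4 * s₀ ^ 3 + 17 * s₀ ^ 2 + 12 * s₀ + 4 = 0) : cs k ≠ 0 ∧ (Rat.pt s₀).ord (cs k) = 1 := by
  have hq : 2 * (6 * s₀ ^ 2 + 17 * s₀ + 6) ≠ 0 := by
    refine mul_ne_zero k2 fun hq => ?_
    have h640 : (640 : k) = 0 := by
      linear_combination (457 + 174 * s₀) * h - (198 + 469 * s₀ + 116 * s₀ ^ 2) * hq
    have h640' : (640 : k) = 2 ^ 7 * 5 := by norm_num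
    rw [h640'] at h640
    exact mul_ne_zero (pow_ne_zero _ k2) k5 h640
  obtain ⟨q0, q1⟩ := unit5 hq (qs5 s₀)
  have hX : (RatFunc.X - algebraMap k (RatFunc k) s₀) ≠ 0 := by
    intro h0
    have h1 := Rat.pt_ord s₀
    rw [h0, DV.ord_zero] at h1
    omega
  have hc := cs_eq s₀
  rw [h, map_zero, add_zero] at hc
  rw [hc]
  exact ⟨mul_ne_zero hX q0, by rw [DV.ord_mul _ _ _ hX q0, Rat.pt_ord, q1, add_zero]⟩

end base

variable {k E K : Type} [Field k] [Finite k] [Field E] [Field K] [Algebra k E] [Algebra k K]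
  [Algebra (RatFunc k) E] [Algebra E K] [IsScalarTower k (RatFunc k) E] [IsScalarTower k E K]

/-- every affine point of the curve is the centre of a rational place -/
theorem pts5 (Q₁ : Qd (RatFunc k) E (fs k)) (Q₂ : Qd E K (algebraMap (RatFunc k) E (gs k)))
    (k2 : (2 : k) ≠ 0) (k5 : (5 : k) ≠ 0) {n₀ w₀ : k}
    (h : w₀ ^ 2 = 4 * (n₀ ^ 2 - n₀ + 1) ^ 3 + 5 * (n₀ ^ 2 * (n₀ - 1) ^ 2)) :
    ∃ v : DV K, v.Rat k ∧ v.G 1 (nK Q₂ - algebraMap k K n₀) ∧
      v.G 1 (wK Q₁ Q₂ - algebraMap k K w₀) := by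
  have hsc : ∀ c : k, algebraMap E K (algebraMap k E c) = algebraMap k K c := fun c =>
    (IsScalarTower.algebraMap_apply k E K c).symm
  have hsc' : ∀ c : k, algebraMap (RatFunc k) E (algebraMap k (RatFunc k) c) = algebraMap k E c :=
    fun c => (IsScalarTower.algebraMap_apply k (RatFunc k) E c).symm
  obtain ⟨s₀, hs₀⟩ : ∃ s₀ : k, s₀ = n₀ ^ 2 - n₀ := ⟨_, rfl⟩
  obtain ⟨d₀, hd₀⟩ : ∃ d₀ : k, d₀ = 2 * n₀ - 1 := ⟨_, rfl⟩
  have hd : 4 * s₀ + 1 = d₀ ^ 2 := by rw [hs₀, hd₀]; ring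
  have hw : 4 * s₀ ^ 3 + 17 * s₀ ^ 2 + 12 * s₀ + 4 = w₀ ^ 2 := by rw [h, hs₀]; ring
  have hg := gs5 s₀
  have hc := cs5 s₀
  rw [hd] at hg
  rw [hw] at hc
  have hf : (Rat.pt s₀).G 1 (fs k - algebraMap k (RatFunc k) (d₀ * w₀) ^ 2) := by
    have := mul5 hg hc
    rw [← mul_pow, map_pow] at this
    exact this
  -- the conclusion from the values of `d` and `w`
  have fin : ∀ v : DV K, v.Rat k → v.G 1 (Q₂.y - algebraMap k K d₀) →
      v.G 1 (wK Q₁ Q₂ - algebraMap k K w₀) → ∃ v : DV K, v.Rat k ∧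
      v.G 1 (nK Q₂ - algebraMap k K n₀) ∧ v.G 1 (wK Q₁ Q₂ - algebraMap k K w₀) := by
    intro v hv h1 h2
    refine ⟨v, hv, ?_, h2⟩
    have hK2 : (2 : K) ≠ 0 := by
      rw [← map_ofNat (algebraMap k K) 2]
      exact (_root_.map_ne_zero _).2 k2
    have h3 := mul5 (add5 (const5 (v := v) (1 : k)) h1) (const5 (v := v) (2 : k)⁻¹)
    have e1 : (1 + d₀) * (2 : k)⁻¹ = n₀ := by
      rw [hd₀]
      field_simp
      ring
    rw [e1, map_one, map_inv₀, map_ofNat] at h3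
    rw [nK, div_eq_mul_inv]
    exact h3
  by_cases d0 : d₀ = 0
  · -- the ramification point `n₀ = 1 / 2`
    have hs : 4 * s₀ + 1 = 0 := by rw [hd, d0]; ring
    have hw2 : w₀ ^ 2 = 2 := by
      have k16 : (16 : k) ≠ 0 := by
        have : (16 : k) = 2 ^ 4 := by norm_num
        rw [this]
        exact pow_ne_zero _ k2
      rw [← hw]
      apply mul_left_cancel₀ k16
      linear_combination (16 * s₀ ^ 2 + 64 * s₀ + 32) * hs
    have w0 : w₀ ≠ 0 := by
      rintro rfl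
      rw [zero_pow (by norm_num)] at hw2
      exact k2 hw2.symm
    have hX : (RatFunc.X - algebraMap k (RatFunc k) s₀) ≠ 0 := by
      intro h0
      have h1 := Rat.pt_ord s₀
      rw [h0, DV.ord_zero] at h1
      omega
    have hgX : gs k = algebraMap k (RatFunc k) 4 * (RatFunc.X - algebraMap k (RatFunc k) s₀) := by
      have h1 : algebraMap k (RatFunc k) (4 * s₀ + 1) = 0 := by rw [hs, map_zero]
      simp only [map_add, map_mul, map_one, map_ofNat] at h1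
      rw [gs, map_ofNat]
      linear_combination h1
    have k4 : (4 : k) ≠ 0 := by
      have : (4 : k) = 2 ^ 2 := by norm_num
      rw [this]
      exact pow_ne_zero _ k2
    have hgo : (Rat.pt s₀).ord (gs k) = 1 := by
      rw [hgX, DV.ord_mul _ _ _ ((_root_.map_ne_zero _).2 k4) hX, Rat.pt_ord, DV.ord_const, zero_add]
    obtain ⟨c0, c1⟩ := unit5 (pow_ne_zero 2 w0) hc
    have hfo : (Rat.pt s₀).ord (fs k) = 1 := by
      rw [fs, DV.ord_mul _ _ _ gs_ne c0, hgo, c1, add_zero]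
    have ho : Odd ((Rat.pt s₀).ord (fs k)) := by
      rw [hfo]
      exact odd_one
    obtain ⟨v₁, hv₁, -, -, -, hr₁⟩ := Q₁.odd_over (k := k) ho
    have hR₁ : v₁.Rat k := Qd.rat_of_resCard (K := RatFunc k) (Rat.pt_rat s₀) hr₁
    -- the second step after scaling
    have hy0 : Q₁.y ≠ 0 := Q₁.y_ne
    obtain ⟨Q₂', hQ₂'⟩ := Q₂.scale (inv_ne_zero hy0)
    have e1 : algebraMap (RatFunc k) E (gs k) * Q₁.y⁻¹ ^ 2 = (algebraMap (RatFunc k) E (cs k))⁻¹ := by
      have hg0 : algebraMap (RatFunc k) E (gs k) ≠ 0 := map_ne_zero' gs_ne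
      have hc0 : algebraMap (RatFunc k) E (cs k) ≠ 0 := map_ne_zero' c0
      rw [inv_pow, Q₁.sq, fs, map_mul]
      field_simp
    have h1 : v₁.G 1 (algebraMap (RatFunc k) E (cs k) - algebraMap k E (w₀ ^ 2)) := by
      rw [← hsc', ← map_sub]
      exact (hv₁.G_one_iff _).2 hc
    have h2 := inv5 (pow_ne_zero 2 w0) h1
    rw [← e1] at h2
    have h3 : v₁.G 1 (algebraMap (RatFunc k) E (gs k) * Q₁.y⁻¹ ^ 2 -
        algebraMap k E w₀⁻¹ ^ 2) := by
      rw [← map_pow, inv_pow w₀ 2]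
      exact h2
    obtain ⟨v₂, hv₂, hR₂, hy₂⟩ := Q₂'.lift hR₁ h3 (Or.inl (inv_ne_zero w0))
    rw [hQ₂'] at hy₂
    have h4 := inv5 (inv_ne_zero w0) hy₂
    have e2 : (Q₂.y * algebraMap E K Q₁.y⁻¹)⁻¹ = wK Q₁ Q₂ := by
      rw [wK, map_inv₀, mul_inv, inv_inv, mul_comm, div_eq_mul_inv]
    rw [inv_inv, e2] at h4
    refine fin v₂ hR₂ ?_ h4
    rw [d0, map_zero, sub_zero]
    -- `d` has a zero
    have h5 : v₁.G 1 (algebraMap (RatFunc k) E (gs k)) := by
      rw [d0, zero_pow (by norm_num), map_zero, sub_zero] at hg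
      exact (hv₁.G_one_iff _).2 hg
    have h6 : v₂.G 1 (algebraMap E K (algebraMap (RatFunc k) E (gs k))) :=
      (hv₂.G_one_iff _).2 h5
    have h7 := Q₂.two_ord_y v₂
    have h8 := h6.le (map_ne_zero' (map_ne_zero' gs_ne))
    exact DV.G_of_le (by omega)
  · have hcond : d₀ * w₀ ≠ 0 ∨ Odd ((Rat.pt s₀).ord (fs k)) := by
      by_cases w0 : w₀ = 0
      · right
        rw [w0, zero_pow (by norm_num)] at hw
        obtain ⟨c0, c1⟩ := cs_odd k2 k5 hw
        obtain ⟨g0, g1⟩ := unit5 (pow_ne_zero 2 d0) hg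
        rw [fs, DV.ord_mul _ _ _ g0 c0, g1, c1, zero_add]
        exact odd_one
      · exact Or.inl (mul_ne_zero d0 w0)
    obtain ⟨v₁, hv₁, hR₁, hy₁⟩ := Q₁.lift (Rat.pt_rat s₀) hf hcond
    have h1 : v₁.G 1 (algebraMap (RatFunc k) E (gs k) - algebraMap k E d₀ ^ 2) := by
      rw [← map_pow, ← hsc', ← map_sub]
      exact (hv₁.G_one_iff _).2 hg
    obtain ⟨v₂, hv₂, hR₂, hy₂⟩ := Q₂.lift hR₁ h1 (Or.inl d0)
    refine fin v₂ hR₂ hy₂ ?_
    have h2 : v₂.G 1 (algebraMap E K Q₁.y - algebraMap k K (d₀ * w₀)) := by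
      rw [← hsc, ← map_sub]
      exact (hv₂.G_one_iff _).2 hy₁
    have h3 := mul5 h2 (inv5 d0 hy₂)
    have e1 : d₀ * w₀ * d₀⁻¹ = w₀ := by
      field_simp
    rw [e1] at h3
    rw [wK, div_eq_mul_inv]
    exact h3

end L5

end Pool.Agent.FF
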