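import Pool.Agent.FO.Lam5S
import Pool.Agent.FO.Lam5P

/-! # The curve of genus 2 and the function of degree 5 -/

set_option autoImplicit false

namespace Pool.Agent.FF

open L5 in
theorem lam5 {p : ℕ} [Fact p.Prime] (hp2 : p ≠ 2) (hp5 : p ≠ 5) {k : Type} [Field k] [Finite k]
    [CharP k p] {S : Finset k} (hS : SSet S) (h5 : Good5 k S) :
    ∃ (K : Type) (_ : Field K) (_ : Algebra k K) (l : K) (g B C M : ℕ),
      g ≤ 2 ∧ LamC p k K S l 5 g 2 1 B C M := by
  classical
  have k2 : (2 : k) ≠ 0 := two_ne_zero_of hp2 (k := k) k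
  have k5 : (5 : k) ≠ 0 := by
    intro h
    have h1 : ((5 : ℕ) : k) = 0 := by exact_mod_cast h
    rw [CharP.cast_eq_zero_iff k p] at h1
    exact hp5 ((Nat.prime_dvd_prime_iff_eq Fact.out Nat.prime_five).1 h1)
  obtain ⟨E, _, _, _, _, Q₁, g₁, B₁, C₁, M₁, hg₁, h₁⟩ := step1 hp2 k
  obtain ⟨ep, em, e0, H⟩ := exists_plE Q₁ k2
  obtain ⟨K, _, _, _, _, Q₂, g₂, B, C, M, hg₂, h₂⟩ := h₁.up hp2 (R := ep)
    (f := algebraMap (RatFunc k) E (gs k)) H.rp (by rw [H.gp]; decide)
    (O := {ep, em}) (fun v hv => by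
      rw [Finset.mem_insert, Finset.mem_singleton]
      exact H.odd v hv) (d := 2) (by
      rw [Finset.sum_pair H.ne, H.rp.deg_eq_one, H.rm.deg_eq_one])
  obtain ⟨kp, km, k0, k1, G⟩ := exists_plK Q₁ Q₂ k2 H
  have h2 : (2 : K) ≠ 0 := L5.two_ne k2
  refine ⟨K, inferInstance, inferInstance, lK Q₁ Q₂, g₂, B, C, M, by omega, h₂, ⟨{kp, k0}, {k1},
    Finset.card_le_two, fun v hv => ?_, ⟨kp, by simp, by rw [G.op]; norm_num⟩, ?_, fun v hv => ?_,
    fun v hv hv' => ?_⟩, fun h => ?_, fun α hα => ?_⟩
  · rw [Finset.mem_insert, Finset.mem_singleton] at hv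
    rcases hv with rfl | rfl
    · exact ⟨G.rp, by rw [G.op]; decide⟩
    · exact ⟨G.r0, by rw [G.o0]; decide⟩
  · rw [Finset.sum_singleton, G.r1.deg_eq_one]
  · rw [Finset.mem_insert, Finset.mem_singleton, not_or] at hv
    exact G.l v hv.1 hv.2
  · rw [Finset.mem_insert, Finset.mem_singleton, not_or] at hv
    rw [Finset.mem_singleton] at hv'
    exact G.l1 v hv.1 hv.2 hv'
  · have := G.op
    rw [h, kp.ord_one] at this
    omega
  · obtain ⟨Z, hZ, hc⟩ := h5 α hα
    have hpt : ∀ z : k × k, ∃ v : DV K, z ∈ Z → v.Rat k ∧ v.G 1 (nK Q₂ - algebraMap k K z.1) ∧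
        v.G 1 (wK Q₁ Q₂ - algebraMap k K z.2) := by
      intro z
      by_cases hz : z ∈ Z
      · obtain ⟨v, hv⟩ := pts5 Q₁ Q₂ k2 k5 (hZ z hz).1
        exact ⟨v, fun _ => hv⟩
      · exact ⟨kp, fun h => absurd h hz⟩
    choose F hF using hpt
    have hinj : Set.InjOn F Z := by
      intro z hz z' hz' he
      have a1 := hF z hz
      have a2 := hF z' hz'
      rw [← he] at a2
      have aux : ∀ {a : K} {c c' : k}, (F z).G 1 (a - algebraMap k K c) →
          (F z).G 1 (a - algebraMap k K c') → c = c' := by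
        intro a c c' b b'
        by_contra hne
        have b1 := b'.sub b
        have b2 : a - algebraMap k K c' - (a - algebraMap k K c) = algebraMap k K (c - c') := by
          rw [map_sub]
          ring
        rw [b2] at b1
        exact (F z).not_G_const (sub_ne_zero.2 hne) b1
      exact Prod.ext (aux a1.2.1 a2.2.1) (aux a1.2.2 a2.2.2)
    have hval : ∀ v ∈ Z.image F, v.Rat k ∧ v.G 1 (lK Q₁ Q₂ - algebraMap k K (α ^ 4)) := by
      intro v hv
      obtain ⟨z, hz, rfl⟩ := Finset.mem_image.1 hv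
      obtain ⟨b1, b2, b3⟩ := hF z hz
      refine ⟨b1, ?_⟩
      obtain ⟨b4, -⟩ := l_val Q₁ Q₂ (Cg.of b2 ((F z).G_const _)) (Cg.of b3 ((F z).G_const _)) k2
      have b5 := b4.d
      convert b5 using 2
      have b6 := congrArg (algebraMap k K) (hZ z hz).2
      simp only [map_add, map_sub, map_mul, map_pow, map_one, map_ofNat] at b6
      rw [map_pow, eq_div_iff h2]
      linear_combination -b6
    rcases hc with hc | ⟨hc, hα4⟩
    · exact ⟨Z.image F, by rw [Finset.card_image_of_injOn hinj, hc], hval⟩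
    · have hkm : km ∉ Z.image F := by
        intro hm
        obtain ⟨z, hz, he⟩ := Finset.mem_image.1 hm
        obtain ⟨b1, b2, b3⟩ := hF z hz
        rw [he] at b2
        have b4 := (Cg.of b2 (km.G_const _)).l
        have b5 : nK Q₂ ≠ 0 := by
          intro h0
          have := G.nm
          rw [h0, km.ord_zero] at this
          omega
        have b6 := b4.le b5
        rw [G.nm] at b6
        omega
      refine ⟨insert km (Z.image F), ?_, fun v hv => ?_⟩
      · rw [Finset.card_insert_of_notMem hkm, Finset.card_image_of_injOn hinj, hc]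
      · rcases Finset.mem_insert.1 hv with h | h
        · subst h
          refine ⟨G.rm, ?_⟩
          have e : algebraMap k K (α ^ 4) = 1 / 2 := by
            rw [eq_div_iff h2]
            have := congrArg (algebraMap k K) hα4
            rw [map_mul, map_ofNat, map_one] at this
            linear_combination this
          rw [e]
          exact G.lm
        · exact hval v h

end Pool.Agent.FF
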