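import Pool.Agent.FO.Lam5D
import Pool.Agent.FO.BaseK

/-! # The first quadratic step of the curve of genus 2 -/

set_option autoImplicit false
set_option linter.unusedSectionVars false

namespace Pool.Agent.FF

open Finset

section poly

variable {k : Type} [Field k] [Finite k]

/-- the places where a polynomial has odd order -/
theorem odd_poly {P : Polynomial k} (hP : P ≠ 0) {N : ℕ} (hN : P.natDegree ≤ N) (hE : Even N) :
    ∃ O : Finset (DV (RatFunc k)),
      (∀ v : DV (RatFunc k), Odd (v.ord (algebraMap (Polynomial k) (RatFunc k) P)) → v ∈ O) ∧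
      ∑ v ∈ O, v.deg (Nat.card k) ≤ N := by
  classical
  set y : RatFunc k := algebraMap (Polynomial k) (RatFunc k) P with hy
  have hy0 : y ≠ 0 := Rat.coe_ne hP
  have hcv : Cv k (RatFunc k) 0 := Rat.cv
  set E := RRD.divF k hcv y hy0 with hE'
  refine ⟨E.support.filter fun v => Odd (v.ord y), fun v hv => ?_, ?_⟩
  · rw [mem_filter, Finsupp.mem_support_iff]
    refine ⟨?_, hv⟩
    change v.ord y ≠ 0
    intro h
    rw [h] at hv
    exact (by decide : ¬ Odd (0 : ℤ)) hv
  · set D : DV (RatFunc k) →₀ ℤ := Finsupp.single (Rat.inf k) (N : ℤ) with hD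
    have hinf : (Rat.inf k).ord y = - (P.natDegree : ℤ) := Rat.inf_poly P
    have hint : ∀ v : DV (RatFunc k), v ≠ Rat.inf k → v.G 0 y := fun v hv =>
      Rat.G_poly (Rat.ne_inf.1 hv) P
    have h1 := RRD.sum_deg_zeros_le hcv hy0 (D := D) (fun v => by
      by_cases hv : v = Rat.inf k
      · subst hv
        refine DV.G_of_le ?_
        rw [hinf, hD]
        simp only [Pi.neg_apply, Finsupp.single_eq_same]
        omega
      · rw [hD]
        simp only [Pi.neg_apply]
        rw [Finsupp.single_eq_of_ne hv, neg_zero]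
        exact hint v hv)
      (E.support.filter fun v => Odd (v.ord y)) (fun v hv => by
        rw [mem_filter] at hv
        by_cases hvi : v = Rat.inf k
        · subst hvi
          rw [hD]
          simp only [Finsupp.single_eq_same]
          refine DV.G_of_le ?_
          have h2 := hv.2
          rw [hinf] at h2 ⊢
          have h3 : P.natDegree ≠ N := by
            intro h
            rw [h] at h2
            have h4 : Even (-(N : ℤ)) := by
              rw [even_neg]
              exact_mod_cast hE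
            exact (Int.not_odd_iff_even.2 h4) h2
          omega
        · rw [hD, Finsupp.single_eq_of_ne hvi, sub_zero]
          have h2 := (hint v hvi).le hy0
          refine DV.G_of_le ?_
          have h3 : v.ord y ≠ 0 := by
            intro h
            have := hv.2
            rw [h] at this
            exact (by decide : ¬ Odd (0 : ℤ)) this
          omega)
    have h2 : RRD.degZ k D = N := by
      rw [hD, RRD.degZ_single]
      have : RRD.deg k (Rat.inf k) = 1 := Rat.deg_inf
      rw [this]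
      simp
    rw [h2] at h1
    exact_mod_cast h1

/-- the value of a polynomial at a rational place -/
theorem pt_poly (P : Polynomial k) (a : k) : (Rat.pt a).G 1
    (algebraMap (Polynomial k) (RatFunc k) P - algebraMap k (RatFunc k) (P.eval a)) := by
  obtain ⟨R, hR⟩ := Polynomial.X_sub_C_dvd_sub_C_eval (a := a) (p := P)
  have h1 := congrArg (algebraMap (Polynomial k) (RatFunc k)) hR
  rw [map_sub, map_mul, Rat.coe_C, Rat.coe_X_sub] at h1
  rw [h1]
  have h2 : (Rat.pt a).G 1 (RatFunc.X - algebraMap k (RatFunc k) a) :=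
    DV.G_of_le (Rat.pt_ord a).ge
  have h3 : (Rat.pt a).G 0 (algebraMap (Polynomial k) (RatFunc k) R) :=
    Rat.G_poly (Rat.ne_inf.1 (Rat.pt_ne_inf a)) R
  exact (h2.mul h3).mono (by norm_num)

end poly

/-- congruence of integral elements modulo the place -/
structure Cg {K : Type*} [Field K] (v : DV K) (a b : K) : Prop where
  l : v.G 0 a
  r : v.G 0 b
  d : v.G 1 (a - b)

namespace Cg

variable {K : Type*} [Field K] {v : DV K} {a b a' b' c : K}

theorem refl' (h : v.G 0 a) : Cg v a a := ⟨h, h, by rw [sub_self]; exact DV.G_zero 1⟩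

theorem one : Cg v (1 : K) 1 := refl' DV.G_one

theorem zero : Cg v (0 : K) 0 := refl' (DV.G_zero 0)

theorem ofG (h : v.G 1 a) : Cg v a 0 := ⟨h.mono (by norm_num), DV.G_zero 0, by rwa [sub_zero]⟩

theorem of (h : v.G 1 (a - b)) (hb : v.G 0 b) : Cg v a b :=
  ⟨by
    have := (h.mono (show (0 : ℤ) ≤ 1 by norm_num)).add hb
    rwa [sub_add_cancel] at this, hb, h⟩

theorem symm (h : Cg v a b) : Cg v b a := ⟨h.r, h.l, by
  have := h.d.neg
  rwa [neg_sub] at this⟩

theorem trans (h : Cg v a b) (h' : Cg v b c) : Cg v a c := ⟨h.l, h'.r, by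
  have := h.d.add h'.d
  rwa [sub_add_sub_cancel] at this⟩

theorem add (h : Cg v a b) (h' : Cg v a' b') : Cg v (a + a') (b + b') :=
  ⟨h.l.add h'.l, h.r.add h'.r, by
    have := h.d.add h'.d
    rwa [show a - b + (a' - b') = a + a' - (b + b') by ring] at this⟩

theorem sub (h : Cg v a b) (h' : Cg v a' b') : Cg v (a - a') (b - b') :=
  ⟨h.l.sub h'.l, h.r.sub h'.r, by
    have := h.d.sub h'.d
    rwa [show a - b - (a' - b') = a - a' - (b - b') by ring] at this⟩

theorem neg (h : Cg v a b) : Cg v (-a) (-b) := by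
  have := zero.sub h
  rwa [zero_sub, zero_sub] at this

theorem mul (h : Cg v a b) (h' : Cg v a' b') : Cg v (a * a') (b * b') :=
  ⟨(h.l.mul h'.l).mono (by norm_num), (h.r.mul h'.r).mono (by norm_num), by
    have h1 := (h.d.mul h'.l).add (((h.r.mul h'.d).mono (show (1 : ℤ) + 0 ≤ 0 + 1 by norm_num)))
    rw [show (a - b) * a' + b * (a' - b') = a * a' - b * b' by ring] at h1
    exact h1.mono (by norm_num)⟩

theorem pow (h : Cg v a b) (n : ℕ) : Cg v (a ^ n) (b ^ n) := by
  induction n with
  | zero => rw [pow_zero, pow_zero]; exact one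
  | succ n ih => rw [pow_succ, pow_succ]; exact ih.mul h

theorem unit (h : Cg v a b) (hb0 : b ≠ 0) (hb : v.ord b = 0) : a ≠ 0 ∧ v.ord a = 0 := by
  have h1 := DV.ord_add_of_lt (v := v) (a := b) (b := a - b) hb0 (by rw [hb]; exact h.d)
  rw [add_sub_cancel, hb] at h1
  exact h1

theorem inv (h : Cg v a b) (hb0 : b ≠ 0) (hb : v.ord b = 0) : Cg v a⁻¹ b⁻¹ := by
  obtain ⟨ha0, ha⟩ := h.unit hb0 hb
  have h1 : v.G 0 a⁻¹ := DV.G_of_le (by rw [v.ord_inv ha0, ha]; norm_num)
  have h2 : v.G 0 b⁻¹ := DV.G_of_le (by rw [v.ord_inv hb0, hb]; norm_num)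
  refine ⟨h1, h2, ?_⟩
  have e : a⁻¹ - b⁻¹ = -((a - b) * (a⁻¹ * b⁻¹)) := by
    field_simp
    ring
  rw [e]
  exact ((h.d.mul (h1.mul h2)).mono (by norm_num)).neg

end Cg

section const

variable {k K : Type*} [Field k] [Finite k] [Field K] [Algebra k K]

include k in
theorem Cg.nat (v : DV K) (n : ℕ) [n.AtLeastTwo] : Cg v (OfNat.ofNat n : K) (OfNat.ofNat n) := by
  apply Cg.refl'
  rw [← map_ofNat (algebraMap k K) n]
  exact v.G_const _

theorem Cg.const (v : DV K) (c : k) : Cg v (algebraMap k K c) (algebraMap k K c) :=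
  Cg.refl' (v.G_const c)

include k in
/-- a square root of `f ≡ c ^ 2` -/
theorem Cg.root {v : DV K} {y : K} {c : K} (h : Cg v (y ^ 2) (c ^ 2)) (hc : v.G 0 c) (hy : v.G 0 y) :
    Cg v y c ∨ Cg v y (-c) := by
  have h1 := h.d
  rw [show y ^ 2 - c ^ 2 = (y - c) * (y + c) by ring] at h1
  by_cases h2 : v.G 1 (y - c)
  · exact Or.inl ⟨hy, hc, h2⟩
  · right
    refine ⟨hy, hc.neg, ?_⟩
    rw [sub_neg_eq_add]
    have h3 := DV.ne_zero_of_not_G h2
    by_cases h4 : y + c = 0
    · rw [h4]; exact DV.G_zero 1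
    have h5 := h1.le (mul_ne_zero h3 h4)
    rw [v.ord_mul _ _ h3 h4] at h5
    have h6 := (DV.not_G h3).1 h2
    exact DV.G_of_le (by omega)

end const

end Pool.Agent.FF
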