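import Pool.Agent.FO.Lam5A

/-! # The first quadratic step of the curve of genus 2: places over `∞`, `0`, `-1/4` -/

set_option autoImplicit false
set_option linter.unusedSectionVars false

namespace Pool.Agent.FF

open Finset

namespace L5

section rat

variable {k : Type} [Field k] [Finite k]

/-- `fs` as a polynomial -/
noncomputable def Pf (k : Type) [Field k] : Polynomial k :=
  (4 * Polynomial.X + 1) * (4 * Polynomial.X ^ 3 + 17 * Polynomial.X ^ 2 + 12 * Polynomial.X + 4)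

omit [Finite k] in
theorem Pf_eq : algebraMap (Polynomial k) (RatFunc k) (Pf k) = fs k := by
  rw [Pf, fs, gs, cs]
  simp only [map_add, map_mul, map_one, map_pow, map_ofNat, RatFunc.algebraMap_X]

omit [Finite k] in
theorem Pf_deg : (Pf k).natDegree ≤ 4 := by
  rw [Pf]
  compute_degree

omit [Finite k] in
theorem four_ne (k2 : (2 : k) ≠ 0) : (4 : k) ≠ 0 := by
  have : (4 : k) = 2 * 2 := by norm_num
  rw [this]
  exact mul_ne_zero k2 k2

omit [Finite k] in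
theorem Pf_ne (k2 : (2 : k) ≠ 0) : Pf k ≠ 0 := by
  intro h
  have h1 := congrArg (Polynomial.eval 0) h
  rw [Pf] at h1
  simp at h1
  exact four_ne k2 h1

omit [Finite k] in
theorem gs_eq (k2 : (2 : k) ≠ 0) : gs k =
    algebraMap k (RatFunc k) 4 * (RatFunc.X - algebraMap k (RatFunc k) (-1 / 4)) := by
  have h4 := four_ne k2
  rw [mul_sub, ← map_mul, gs]
  have : (4 : k) * (-1 / 4) = -1 := by field_simp
  rw [this, map_neg, map_one, map_ofNat]
  ring

theorem gs_ord (k2 : (2 : k) ≠ 0) (v : DV (RatFunc k)) : v.ord (gs k) =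
    v.ord (RatFunc.X - algebraMap k (RatFunc k) (-1 / 4)) := by
  have h4 : algebraMap k (RatFunc k) 4 ≠ 0 := map_ne_zero' (four_ne k2)
  rw [gs_eq k2, v.ord_mul _ _ h4 (BaseKAux.X_sub_ne _), v.ord_const, zero_add]

theorem gs_ne_zero (k2 : (2 : k) ≠ 0) : gs k ≠ 0 := by
  rw [gs_eq k2]
  exact mul_ne_zero (map_ne_zero' (four_ne k2)) (BaseKAux.X_sub_ne _)

theorem gs_quarter (k2 : (2 : k) ≠ 0) : (Rat.pt (-1 / 4 : k)).ord (gs k) = 1 := by
  rw [gs_ord k2, Rat.pt_ord]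

theorem gs_inf (k2 : (2 : k) ≠ 0) : (Rat.inf k).ord (gs k) = -1 := by
  rw [gs_ord k2, ← Rat.coe_X_sub, Rat.inf_poly, Polynomial.natDegree_X_sub_C]
  rfl

theorem gs_other (k2 : (2 : k) ≠ 0) {v : DV (RatFunc k)} (h : v ≠ Rat.inf k)
    (h' : v ≠ Rat.pt (-1 / 4 : k)) : v.ord (gs k) = 0 := by
  rw [gs_ord k2]
  exact BaseKAux.ord_eq_zero h h'

theorem fs_quarter (k2 : (2 : k) ≠ 0) : (Rat.pt (-1 / 4 : k)).ord (fs k) = 1 := by
  have h4 := four_ne k2
  have hc : (Rat.pt (-1 / 4 : k)).G 1 (cs k - algebraMap k (RatFunc k) 2) := by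
    have h1 := pt_poly (4 * Polynomial.X ^ 3 + 17 * Polynomial.X ^ 2 + 12 * Polynomial.X + 4 :
      Polynomial k) (-1 / 4)
    have h2 : algebraMap (Polynomial k) (RatFunc k) (4 * Polynomial.X ^ 3 +
        17 * Polynomial.X ^ 2 + 12 * Polynomial.X + 4) = cs k := by
      rw [cs]
      simp only [map_add, map_mul, map_pow, map_ofNat, RatFunc.algebraMap_X]
    have h3 : Polynomial.eval (-1 / 4 : k) (4 * Polynomial.X ^ 3 + 17 * Polynomial.X ^ 2 +
        12 * Polynomial.X + 4) = 2 := by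
      simp only [Polynomial.eval_add, Polynomial.eval_mul, Polynomial.eval_pow, Polynomial.eval_X,
        Polynomial.eval_ofNat]
      field_simp
      ring
    rw [h2, h3] at h1
    exact h1
  have h2ne : algebraMap k (RatFunc k) 2 ≠ 0 := map_ne_zero' k2
  obtain ⟨hc0, hco⟩ := (Cg.of hc (DV.G_const _ _)).unit h2ne (DV.ord_const _ _)
  rw [fs, DV.ord_mul _ _ _ (gs_ne_zero k2) hc0, hco, gs_quarter k2, add_zero]

theorem fs_ne (k2 : (2 : k) ≠ 0) : fs k ≠ 0 := by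
  intro h
  have := fs_quarter (k := k) k2
  rw [h, DV.ord_zero] at this
  omega

/-- the equation at infinity -/
theorem fs_inf : (Rat.inf k).G 1 (fs k * ((RatFunc.X ^ 2)⁻¹) ^ 2 - 4 ^ 2) := by
  have hX : (RatFunc.X : RatFunc k) ≠ 0 := RatFunc.X_ne_zero
  set v := Rat.inf k with hv
  have hu : Cg v (RatFunc.X⁻¹ : RatFunc k) 0 := Cg.ofG (DV.G_of_le (by
    rw [v.ord_inv hX, hv, Rat.inf_X]; norm_num))
  have h1 : Cg v (16 + 72 * (RatFunc.X⁻¹) + 65 * (RatFunc.X⁻¹) ^ 2 + 28 * (RatFunc.X⁻¹) ^ 3 +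
      4 * (RatFunc.X⁻¹) ^ 4 : RatFunc k) (16 + 72 * 0 + 65 * 0 ^ 2 + 28 * 0 ^ 3 + 4 * 0 ^ 4) :=
    ((((Cg.nat (k := k) v 16).add ((Cg.nat (k := k) v 72).mul hu)).add
      ((Cg.nat (k := k) v 65).mul (hu.pow 2))).add ((Cg.nat (k := k) v 28).mul (hu.pow 3))).add
      ((Cg.nat (k := k) v 4).mul (hu.pow 4))
  have h2 := h1.d
  convert h2 using 1
  rw [fs, gs, cs]
  field_simp
  ring

theorem fs_inf_ord (k2 : (2 : k) ≠ 0) : (Rat.inf k).ord (fs k) = -4 := by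
  have hX : (RatFunc.X : RatFunc k) ≠ 0 := RatFunc.X_ne_zero
  have h4 : (4 : RatFunc k) ≠ 0 := by
    rw [← map_ofNat (algebraMap k (RatFunc k)) 4]
    exact map_ne_zero' (four_ne k2)
  have h1 := (Cg.of (fs_inf (k := k)) ((Cg.nat (k := k) _ 4).pow 2).r).unit (pow_ne_zero 2 h4) (by
    rw [DV.ord_pow _ h4, ← map_ofNat (algebraMap k (RatFunc k)) 4, DV.ord_const, mul_zero])
  have h2 := h1.2
  rw [DV.ord_mul _ _ _ (fs_ne k2) (pow_ne_zero 2 (inv_ne_zero (pow_ne_zero 2 hX))),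
    DV.ord_pow _ (inv_ne_zero (pow_ne_zero 2 hX)), DV.ord_inv _ (pow_ne_zero 2 hX),
    DV.ord_pow _ hX, Rat.inf_X] at h2
  push_cast at h2
  linarith

/-- the equation at `0` -/
theorem fs_zero : (Rat.pt (0 : k)).G 1 (fs k - 2 ^ 2) := by
  have h1 := pt_poly (Pf k) 0
  have h3 : Polynomial.eval (0 : k) (Pf k) = 4 := by
    rw [Pf]
    simp
  rw [Pf_eq, h3, map_ofNat] at h1
  convert h1 using 2
  norm_num

theorem fs_zero_ord (k2 : (2 : k) ≠ 0) : (Rat.pt (0 : k)).ord (fs k) = 0 := by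
  have h2 : (2 : RatFunc k) ≠ 0 := by
    rw [← map_ofNat (algebraMap k (RatFunc k)) 2]
    exact map_ne_zero' k2
  exact ((Cg.of (fs_zero (k := k)) ((Cg.nat (k := k) _ 2).pow 2).r).unit (pow_ne_zero 2 h2) (by
    rw [DV.ord_pow _ h2, ← map_ofNat (algebraMap k (RatFunc k)) 2, DV.ord_const, mul_zero])).2

end rat

section E

variable {k E : Type} [Field k] [Finite k] [Field E] [Algebra k E] [Algebra (RatFunc k) E]
  [IsScalarTower k (RatFunc k) E]

/-- the function `s` on `E` -/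
noncomputable def sE (k E : Type) [Field k] [Field E] [Algebra (RatFunc k) E] : E :=
  algebraMap (RatFunc k) E RatFunc.X

/-- the places of `E` which matter: two over infinity, one over `s = 0` with `y = -2` -/
structure PlE (Q₁ : Qd (RatFunc k) E (fs k)) (ep em e0 : DV E) : Prop where
  ne : ep ≠ em
  op : Over ep (Rat.inf k)
  om : Over em (Rat.inf k)
  all : ∀ v : DV E, Over v (Rat.inf k) → v = ep ∨ v = em
  rp : ep.Rat k
  rm : em.Rat k
  yp : ep.G 1 (Q₁.y * (sE k E ^ 2)⁻¹ - 4)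
  ym : em.G 1 (Q₁.y * (sE k E ^ 2)⁻¹ + 4)
  sp : ep.ord (sE k E) = -1
  sm : em.ord (sE k E) = -1
  gp : ep.ord (algebraMap (RatFunc k) E (gs k)) = -1
  gm : em.ord (algebraMap (RatFunc k) E (gs k)) = -1
  odd : ∀ v : DV E, Odd (v.ord (algebraMap (RatFunc k) E (gs k))) → v = ep ∨ v = em
  o0 : Over e0 (Rat.pt (0 : k))
  r0 : e0.Rat k
  y0 : e0.G 1 (Q₁.y + 2)
  s0 : e0.ord (sE k E) = 1
  g0 : e0.G 1 (algebraMap (RatFunc k) E (gs k) - 1)
  u0 : ∀ v : DV E, Over v (Rat.pt (0 : k)) → v.G 1 (Q₁.y + 2) → v = e0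

theorem exists_plE (Q₁ : Qd (RatFunc k) E (fs k)) (k2 : (2 : k) ≠ 0) :
    ∃ ep em e0 : DV E, PlE Q₁ ep em e0 := by
  have hX : (RatFunc.X : RatFunc k) ≠ 0 := RatFunc.X_ne_zero
  have h2 : (2 : RatFunc k) ≠ 0 := by
    rw [← map_ofNat (algebraMap k (RatFunc k)) 2]
    exact map_ne_zero' k2
  have h4 : (4 : RatFunc k) ≠ 0 := by
    rw [← map_ofNat (algebraMap k (RatFunc k)) 4]
    exact map_ne_zero' (four_ne k2)
  have hE4 : (4 : E) ≠ 0 := by
    rw [← map_ofNat (algebraMap (RatFunc k) E) 4]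
    exact map_ne_zero' h4
  obtain ⟨Q', hQ'⟩ := Q₁.scale (h := (RatFunc.X ^ 2)⁻¹) (inv_ne_zero (pow_ne_zero 2 hX))
  obtain ⟨ep, em, hne, hp, hm, hall, hyp, hym, hrp, hrm⟩ := Q'.split (k := k) (v := Rat.inf k)
    (c := 4) (by rw [← map_ofNat (algebraMap k (RatFunc k)) 4]; exact DV.ord_const _ _) h4 fs_inf
  have hyE : Q'.y = Q₁.y * (sE k E ^ 2)⁻¹ := by
    rw [hQ', sE, map_inv₀, map_pow]
  rw [hyE, map_ofNat] at hyp hym
  obtain ⟨e1, e0, hne0, h1, h0, hall0, hy1, hy0, hr1, hr0⟩ := Q₁.split (k := k)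
    (v := Rat.pt (0 : k)) (c := 2)
    (by rw [← map_ofNat (algebraMap k (RatFunc k)) 2]; exact DV.ord_const _ _) h2 fs_zero
  rw [map_ofNat] at hy1 hy0
  have evi : Even ((Rat.inf k).ord (fs k)) := by rw [fs_inf_ord k2]; decide
  have ev0 : Even ((Rat.pt (0 : k)).ord (fs k)) := by rw [fs_zero_ord k2]; decide
  have ordq : Odd ((Rat.pt (-1 / 4 : k)).ord (fs k)) := by rw [fs_quarter k2]; decide
  refine ⟨ep, em, e0, ⟨hne, hp, hm, hall, Qd.rat_of_resCard Rat.inf_rat hrp,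
    Qd.rat_of_resCard Rat.inf_rat hrm, hyp, hym, ?_, ?_, ?_, ?_, ?_, h0,
    Qd.rat_of_resCard (Rat.pt_rat 0) hr0, hy0, ?_, ?_, ?_⟩⟩
  · rw [sE, Q₁.even_ord (k := k) evi hp, Rat.inf_X]
  · rw [sE, Q₁.even_ord (k := k) evi hm, Rat.inf_X]
  · rw [Q₁.even_ord (k := k) evi hp, gs_inf k2]
  · rw [Q₁.even_ord (k := k) evi hm, gs_inf k2]
  · intro v hv
    obtain ⟨v₀, hv₀⟩ := Q₁.exists_over v
    by_cases hi : v₀ = Rat.inf k
    · subst hi
      exact hall v hv₀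
    · exfalso
      by_cases hq : v₀ = Rat.pt (-1 / 4 : k)
      · subst hq
        obtain ⟨w, -, hu, hord, -, -⟩ := Q₁.odd_over (k := k) ordq
        rw [hu v hv₀, hord] at hv
        exact (Int.not_odd_iff_even.2 ⟨_, by ring⟩) hv
      · obtain ⟨e, he, hord⟩ := hv₀
        rw [hord _ (gs_ne_zero k2), gs_other k2 hi hq, mul_zero] at hv
        exact (by decide : ¬ Odd (0 : ℤ)) hv
  · rw [sE, Q₁.even_ord (k := k) ev0 h0]
    have := Rat.pt_ord (0 : k)
    rwa [map_zero, sub_zero] at this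
  · have h5 : (Rat.pt (0 : k)).G 1 (gs k - 1) := by
      rw [gs]
      have h6 : (Rat.pt (0 : k)).G 1 (RatFunc.X : RatFunc k) := by
        have := DV.G_of_le (Rat.pt_ord (0 : k)).ge
        rwa [map_zero, sub_zero] at this
      rw [add_sub_cancel_right]
      exact ((Cg.nat (k := k) _ 4).l.mul h6).mono (by norm_num)
    rw [← map_one (algebraMap (RatFunc k) E), ← map_sub, h0.G_one_iff]
    exact h5
  · intro v hv hy
    rcases hall0 v hv with h | h
    · exfalso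
      rw [h] at hy
      have h5 := hy.sub hy1
      rw [show Q₁.y + 2 - (Q₁.y - 2) = (4 : E) by ring] at h5
      have h6 : (algebraMap k E 4 : E) = 4 := map_ofNat _ 4
      rw [← h6] at h5
      exact e1.not_G_const (four_ne k2) h5
    · exact h

/-- the first step -/
theorem step1 {p : ℕ} [Fact p.Prime] (hp : p ≠ 2) (k : Type) [Field k] [Finite k] [CharP k p] :
    ∃ (E : Type) (_ : Field E) (_ : Algebra k E) (_ : Algebra (RatFunc k) E)
      (_ : IsScalarTower k (RatFunc k) E) (_ : Qd (RatFunc k) E (fs k)) (g B C M : ℕ),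
      g ≤ 1 ∧ Lv0 p k E g B C M := by
  have k2 : (2 : k) ≠ 0 := two_ne_zero_of hp (k := k) k
  obtain ⟨O, hO, hd⟩ := odd_poly (Pf_ne k2) (Pf_deg (k := k)) (by decide)
  rw [Pf_eq] at hO
  have h0 : Lv0 p k (RatFunc k) 0 0 0 1 :=
    ⟨Rat.isFF k, Rat.cv, Se.base k k2, HasPlO.base k⟩
  obtain ⟨E, i1, i2, i3, i4, Q, g, B, C, M, hg, h⟩ := h0.up hp (R := Rat.pt (-1 / 4 : k))
    (f := fs k) (Rat.pt_rat _) (by rw [fs_quarter k2]; decide) hO hd
  exact ⟨E, i1, i2, i3, i4, Q, g, B, C, M, by omega, h⟩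

end E

end L5

end Pool.Agent.FF
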