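import Pool.Agent.FO.Lam5B

/-! # Orders of `l` on the curve of genus 2 -/

set_option autoImplicit false
set_option linter.unusedSectionVars false

namespace Pool.Agent.FF

open Finset

namespace L5

variable {k E K : Type} [Field k] [Finite k] [Field E] [Field K] [Algebra k E] [Algebra k K]
  [Algebra (RatFunc k) E] [Algebra E K] [IsScalarTower k (RatFunc k) E] [IsScalarTower k E K]

section ids

variable (Q₁ : Qd (RatFunc k) E (fs k)) (Q₂ : Qd E K (algebraMap (RatFunc k) E (gs k)))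

theorem two_ne (k2 : (2 : k) ≠ 0) : (2 : K) ≠ 0 := by
  rw [← map_ofNat (algebraMap k K) 2]
  exact map_ne_zero' k2

theorem d_eq (k2 : (2 : k) ≠ 0) : Q₂.y = 2 * nK Q₂ - 1 := by
  have h2 : (2 : K) ≠ 0 := two_ne k2
  rw [nK]
  field_simp
  ring

theorem y_eq : algebraMap E K Q₁.y = wK Q₁ Q₂ * Q₂.y := by
  rw [wK, div_mul_cancel₀ _ (d_ne Q₂)]

theorem l_mul (k2 : (2 : k) ≠ 0) : lK Q₁ Q₂ * lK' Q₁ Q₂ = -nK Q₂ ^ 5 := by
  have h2 : (2 : K) ≠ 0 := two_ne k2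
  have hw := w_sq Q₁ Q₂ h2
  rw [lK, lK']
  set n := nK Q₂
  set w := wK Q₁ Q₂
  have e : (1 - n ^ 5 + (1 - n) ^ 5 - (n ^ 2 - n + 1) * w) / 2 *
      ((1 - n ^ 5 + (1 - n) ^ 5 + (n ^ 2 - n + 1) * w) / 2) =
      ((1 - n ^ 5 + (1 - n) ^ 5) ^ 2 - (n ^ 2 - n + 1) ^ 2 * w ^ 2) / (2 * 2) := by
    field_simp
    ring
  rw [e, hw, div_eq_iff (mul_ne_zero h2 h2)]
  ring

theorem l_mul' (k2 : (2 : k) ≠ 0) : (1 - lK Q₁ Q₂) * (1 - lK' Q₁ Q₂) = -(1 - nK Q₂) ^ 5 := by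
  have h2 : (2 : K) ≠ 0 := two_ne k2
  have h1 := l_mul Q₁ Q₂ k2
  have h3 : lK Q₁ Q₂ + lK' Q₁ Q₂ = 1 - nK Q₂ ^ 5 + (1 - nK Q₂) ^ 5 := by
    rw [lK, lK']
    field_simp
    ring
  linear_combination h1 - h3

end ids

section vals

variable {v : DV K}

/-- values of `l`, `l'` at finite places -/
theorem l_val (Q₁ : Qd (RatFunc k) E (fs k)) (Q₂ : Qd E K (algebraMap (RatFunc k) E (gs k)))
    {c e : K} (hn : Cg v (nK Q₂) c) (hw : Cg v (wK Q₁ Q₂) e) (k2 : (2 : k) ≠ 0) :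
    Cg v (lK Q₁ Q₂) ((1 - c ^ 5 + (1 - c) ^ 5 - (c ^ 2 - c + 1) * e) / 2) ∧
      Cg v (lK' Q₁ Q₂) ((1 - c ^ 5 + (1 - c) ^ 5 + (c ^ 2 - c + 1) * e) / 2) := by
  have h2 : (2 : K) ≠ 0 := two_ne k2
  have ho2 : v.ord (2 : K) = 0 := DV.ord_two (k := k) v
  have hi := (Cg.nat (k := k) v 2).inv h2 ho2
  have h1 := ((Cg.one (v := v)).sub (hn.pow 5)).add (((Cg.one (v := v)).sub hn).pow 5)
  have h3 := (((hn.pow 2).sub hn).add Cg.one).mul hw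
  rw [lK, lK', div_eq_mul_inv, div_eq_mul_inv, div_eq_mul_inv, div_eq_mul_inv]
  exact ⟨(h1.sub h3).mul hi, (h1.add h3).mul hi⟩

/-- values of `l`, `l'` at infinite places -/
theorem l_inf (Q₁ : Qd (RatFunc k) E (fs k)) (Q₂ : Qd E K (algebraMap (RatFunc k) E (gs k)))
    (hn0 : nK Q₂ ≠ 0) {e : K} (ht : Cg v (nK Q₂)⁻¹ 0) (hw : Cg v (wK Q₁ Q₂ * (nK Q₂)⁻¹ ^ 3) e)
    (k2 : (2 : k) ≠ 0) :
    Cg v (2 * lK Q₁ Q₂ * (nK Q₂)⁻¹ ^ 5) (-2 - e) ∧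
      Cg v (2 * lK' Q₁ Q₂ * (nK Q₂)⁻¹ ^ 5) (-2 + e) := by
  have h2 : (2 : K) ≠ 0 := two_ne k2
  have h1 := (((ht.pow 5).sub Cg.one).add ((ht.sub Cg.one).pow 5))
  have h3 := (((Cg.one (v := v)).sub ht).add (ht.pow 2)).mul hw
  have e1 : (0 : K) ^ 5 - 1 + (0 - 1) ^ 5 = -2 := by norm_num
  have e2 : ((1 : K) - 0 + 0 ^ 2) * e = e := by ring
  rw [e1] at h1
  rw [e2] at h3
  constructor
  · have h4 := h1.sub h3
    convert h4 using 1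
    rw [lK]
    field_simp
  · have h4 := h1.add h3
    convert h4 using 1
    rw [lK']
    field_simp

end vals

end L5

end Pool.Agent.FF
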