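import Pool.Agent.FO.LamC

/-! # The curve `w ^ 2 = 4 (n ^ 2 - n + 1) ^ 3 + 5 n ^ 2 (n - 1) ^ 2`: definitions

`E = k(s)(y)`, `y ^ 2 = (4 s + 1) (4 s ^ 3 + 17 s ^ 2 + 12 s + 4)`; `K = E(d)`, `d ^ 2 = 4 s + 1`;
`n = (1 + d) / 2`, `w = y / d`. -/

set_option autoImplicit false
set_option linter.unusedSectionVars false

namespace Pool.Agent.FF

namespace L5

/-- `4 s + 1` -/
noncomputable def gs (k : Type) [Field k] : RatFunc k := 4 * RatFunc.X + 1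

/-- `4 s ^ 3 + 17 s ^ 2 + 12 s + 4` -/
noncomputable def cs (k : Type) [Field k] : RatFunc k :=
  4 * RatFunc.X ^ 3 + 17 * RatFunc.X ^ 2 + 12 * RatFunc.X + 4

/-- the equation of `E` -/
noncomputable def fs (k : Type) [Field k] : RatFunc k := gs k * cs k

variable {k E K : Type} [Field k] [Finite k] [Field E] [Field K] [Algebra k E] [Algebra k K]
  [Algebra (RatFunc k) E] [Algebra E K] [IsScalarTower k (RatFunc k) E] [IsScalarTower k E K]

/-- the function `s` on `K` -/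
noncomputable def sK (k E K : Type) [Field k] [Field E] [Field K] [Algebra (RatFunc k) E]
    [Algebra E K] : K := algebraMap E K (algebraMap (RatFunc k) E RatFunc.X)

/-- the function `n` -/
noncomputable def nK (Q₂ : Qd E K (algebraMap (RatFunc k) E (gs k))) : K := (1 + Q₂.y) / 2

/-- the function `w` -/
noncomputable def wK (Q₁ : Qd (RatFunc k) E (fs k))
    (Q₂ : Qd E K (algebraMap (RatFunc k) E (gs k))) : K := algebraMap E K Q₁.y / Q₂.y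

/-- the function `l` -/
noncomputable def lK (Q₁ : Qd (RatFunc k) E (fs k))
    (Q₂ : Qd E K (algebraMap (RatFunc k) E (gs k))) : K :=
  (1 - nK Q₂ ^ 5 + (1 - nK Q₂) ^ 5 - (nK Q₂ ^ 2 - nK Q₂ + 1) * wK Q₁ Q₂) / 2

/-- the conjugate of `l` -/
noncomputable def lK' (Q₁ : Qd (RatFunc k) E (fs k))
    (Q₂ : Qd E K (algebraMap (RatFunc k) E (gs k))) : K :=
  (1 - nK Q₂ ^ 5 + (1 - nK Q₂) ^ 5 + (nK Q₂ ^ 2 - nK Q₂ + 1) * wK Q₁ Q₂) / 2

section ids

variable (Q₁ : Qd (RatFunc k) E (fs k)) (Q₂ : Qd E K (algebraMap (RatFunc k) E (gs k)))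

theorem d_sq : Q₂.y ^ 2 = 4 * sK k E K + 1 := by
  rw [Q₂.sq, gs, sK]
  simp only [map_add, map_mul, map_one, map_ofNat]

theorem y_sq : (algebraMap E K Q₁.y) ^ 2 = (4 * sK k E K + 1) *
    (4 * sK k E K ^ 3 + 17 * sK k E K ^ 2 + 12 * sK k E K + 4) := by
  rw [← map_pow, Q₁.sq, fs, gs, cs, sK]
  simp only [map_add, map_mul, map_one, map_ofNat, map_pow]

theorem d_ne : Q₂.y ≠ 0 := Q₂.y_ne

theorem n_s (h2 : (2 : K) ≠ 0) : nK Q₂ ^ 2 - nK Q₂ = sK k E K := by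
  have h := d_sq Q₂
  have h4 : (4 : K) ≠ 0 := by
    have : (4 : K) = 2 * 2 := by norm_num
    rw [this]
    exact mul_ne_zero h2 h2
  rw [nK]
  field_simp
  have e : (2 : K) * 2 = 4 := by norm_num
  apply mul_left_cancel₀ h4
  linear_combination (4 : K) * h

theorem w_sq (h2 : (2 : K) ≠ 0) : wK Q₁ Q₂ ^ 2 =
    4 * (nK Q₂ ^ 2 - nK Q₂ + 1) ^ 3 + 5 * (nK Q₂ ^ 2 * (nK Q₂ - 1) ^ 2) := by
  have h := y_sq (K := K) Q₁
  have hd := d_sq Q₂
  have hd0 := d_ne Q₂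
  have hn := n_s Q₂ h2
  have e : nK Q₂ ^ 2 * (nK Q₂ - 1) ^ 2 = (nK Q₂ ^ 2 - nK Q₂) ^ 2 := by ring
  rw [e, hn, wK, div_pow, h, ← hd]
  field_simp
  ring

end ids

end L5

end Pool.Agent.FF
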