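import Pool.Agent.FO.Lam5C

/-! # The places of the curve of genus 2 where `l` or `1 - l` is not a unit -/

set_option autoImplicit false
set_option linter.unusedSectionVars false

namespace Pool.Agent.FF

open Finset

namespace L5

variable {k E K : Type} [Field k] [Finite k] [Field E] [Field K] [Algebra k E] [Algebra k K]
  [Algebra (RatFunc k) E] [Algebra E K] [IsScalarTower k (RatFunc k) E] [IsScalarTower k E K]

/-- at infinity -/
theorem inf_n (Q₂ : Qd E K (algebraMap (RatFunc k) E (gs k))) (k2 : (2 : k) ≠ 0) {v : DV K}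
    (hd : v.ord Q₂.y = -1) : nK Q₂ ≠ 0 ∧ v.ord (nK Q₂) = -1 := by
  have h2 : (2 : K) ≠ 0 := two_ne k2
  have ho2 : v.ord (2 : K) = 0 := DV.ord_two (k := k) v
  have h1 := DV.ord_add_of_lt (v := v) (a := Q₂.y) (b := 1) (d_ne Q₂)
    (DV.G_of_le (by rw [hd, v.ord_one]; norm_num))
  rw [add_comm] at h1
  rw [nK]
  refine ⟨div_ne_zero h1.1 h2, ?_⟩
  rw [v.ord_div h1.1 h2, h1.2, hd, ho2]
  norm_num

theorem inf_w (Q₁ : Qd (RatFunc k) E (fs k)) (Q₂ : Qd E K (algebraMap (RatFunc k) E (gs k)))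
    (k2 : (2 : k) ≠ 0) {v : DV K} {v₁ : DV E} (hv : Over v v₁) (hn0 : nK Q₂ ≠ 0)
    (ht : Cg v (nK Q₂)⁻¹ 0) {e : k}
    (he : v₁.G 1 (Q₁.y * (sE k E ^ 2)⁻¹ - algebraMap k E (2 * e))) :
    Cg v (wK Q₁ Q₂ * (nK Q₂)⁻¹ ^ 3) (algebraMap k K e) := by
  have h2 : (2 : K) ≠ 0 := two_ne k2
  have ho2 : v.ord (2 : K) = 0 := DV.ord_two (k := k) v
  have hY : Cg v (algebraMap E K (Q₁.y * (sE k E ^ 2)⁻¹)) (algebraMap k K (2 * e)) := by
    refine Cg.of ?_ (v.G_const _)
    rw [IsScalarTower.algebraMap_apply k E K, ← map_sub, hv.G_one_iff]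
    exact he
  have h1 := (hY.mul (((Cg.one (v := v)).sub ht).pow 2)).mul
    (((Cg.nat (k := k) v 2).sub ht).inv (by rw [sub_zero]; exact h2)
      (by rw [sub_zero]; exact ho2))
  have hs : algebraMap E K (sE k E) = sK k E K := rfl
  have hd : Q₂.y ≠ 0 := d_ne Q₂
  have hde := d_eq Q₂ k2
  have hsn := n_s Q₂ h2
  have ht2 : (2 : K) - (nK Q₂)⁻¹ ≠ 0 := by
    intro h
    apply hd
    rw [hde]
    have : 2 * nK Q₂ - 1 = (2 - (nK Q₂)⁻¹) * nK Q₂ := by
      field_simp
    rw [this, h, zero_mul]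
  have ht1 : nK Q₂ ^ 2 - nK Q₂ ≠ 0 ∨ nK Q₂ = 1 := by
    by_cases h : nK Q₂ = 1
    · exact Or.inr h
    · left
      have : nK Q₂ ^ 2 - nK Q₂ = nK Q₂ * (nK Q₂ - 1) := by ring
      rw [this]
      exact mul_ne_zero hn0 (sub_ne_zero.2 h)
  rcases ht1 with ht1 | ht1
  · have hd' : 2 * nK Q₂ - 1 ≠ 0 := by rw [← hde]; exact hd
    have hn1 : nK Q₂ - 1 ≠ 0 := by
      intro h
      apply ht1
      have : nK Q₂ ^ 2 - nK Q₂ = nK Q₂ * (nK Q₂ - 1) := by ring
      rw [this, h, mul_zero]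
    convert h1 using 1
    · rw [wK, map_mul, map_inv₀, map_pow, hs, ← hsn, hde]
      field_simp
    · rw [sub_zero, sub_zero, map_mul, map_ofNat]
      field_simp
  · exfalso
    rw [ht1, inv_one] at ht
    have h3 := ht.d
    rw [sub_zero] at h3
    have h4 := h3.le one_ne_zero
    rw [v.ord_one] at h4
    omega

/-- the places of `K` which matter -/
structure PlK (Q₁ : Qd (RatFunc k) E (fs k)) (Q₂ : Qd E K (algebraMap (RatFunc k) E (gs k)))
    (kp km k0 k1 : DV K) : Prop where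
  rp : kp.Rat k
  rm : km.Rat k
  r0 : k0.Rat k
  r1 : k1.Rat k
  op : kp.ord (lK Q₁ Q₂) = -5
  o0 : k0.ord (lK Q₁ Q₂) = 5
  lm : km.G 1 (lK Q₁ Q₂ - 1 / 2)
  nm : km.ord (nK Q₂) = -1
  l : ∀ v : DV K, v ≠ kp → v ≠ k0 → v.ord (lK Q₁ Q₂) = 0
  l1 : ∀ v : DV K, v ≠ kp → v ≠ k0 → v ≠ k1 → v.ord (lK Q₁ Q₂ - 1) = 0

/-- an integral square root -/
theorem int_of_sq {v : DV K} {y : K} (h : v.G 0 (y ^ 2)) : v.G 0 y := by
  by_cases hy : y = 0
  · rw [hy]; exact DV.G_zero 0
  have h1 := h.le (pow_ne_zero 2 hy)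
  rw [v.ord_pow hy] at h1
  push_cast at h1
  exact DV.G_of_le (by omega)

theorem exists_plK (Q₁ : Qd (RatFunc k) E (fs k))
    (Q₂ : Qd E K (algebraMap (RatFunc k) E (gs k))) (k2 : (2 : k) ≠ 0) {ep em e0 : DV E}
    (H : PlE Q₁ ep em e0) : ∃ kp km k0 k1 : DV K, PlK Q₁ Q₂ kp km k0 k1 := by
  have h2 : (2 : K) ≠ 0 := two_ne k2
  have ho2 : ∀ v : DV K, v.ord (2 : K) = 0 := fun v => DV.ord_two (k := k) v
  have h4 : (4 : K) ≠ 0 := by
    rw [← map_ofNat (algebraMap k K) 4]
    exact map_ne_zero' (four_ne k2)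
  have ho4 : ∀ v : DV K, v.ord (4 : K) = 0 := fun v => by
    rw [← map_ofNat (algebraMap k K) 4]
    exact v.ord_const _
  have hlm := l_mul Q₁ Q₂ k2
  have hlm' := l_mul' Q₁ Q₂ k2
  have hde := d_eq Q₂ k2
  have hye := y_eq Q₁ Q₂
  have hsn := n_s Q₂ h2
  have hw2 := w_sq Q₁ Q₂ h2
  set n := nK Q₂ with hn
  set w := wK Q₁ Q₂ with hw
  set l := lK Q₁ Q₂ with hl
  set l' := lK' Q₁ Q₂ with hl'
  set s := sK k E K with hs
  -- the places over infinity
  obtain ⟨kp, hkp, hup, hordp, hyp, hresp⟩ := Q₂.odd_over (k := k) (v := ep)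
    (by rw [H.gp]; decide)
  obtain ⟨km, hkm, hum, hordm, hym, hresm⟩ := Q₂.odd_over (k := k) (v := em)
    (by rw [H.gm]; decide)
  rw [H.gp] at hyp
  rw [H.gm] at hym
  obtain ⟨hn0, hnp⟩ := inf_n Q₂ k2 hyp
  obtain ⟨-, hnm⟩ := inf_n Q₂ k2 hym
  rw [← hn] at hn0 hnp hnm
  have htp : Cg kp n⁻¹ 0 := Cg.ofG (DV.G_of_le (by rw [kp.ord_inv hn0, hnp]; norm_num))
  have htm : Cg km n⁻¹ 0 := Cg.ofG (DV.G_of_le (by rw [km.ord_inv hn0, hnm]; norm_num))
  have hwp : Cg kp (w * n⁻¹ ^ 3) 2 := by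
    have := inf_w Q₁ Q₂ k2 hkp hn0 htp (e := 2) (by
      have h5 : algebraMap k E (2 * 2) = 4 := by
        rw [map_mul, map_ofNat]
        norm_num
      rw [h5]
      exact H.yp)
    rwa [map_ofNat] at this
  have hwm : Cg km (w * n⁻¹ ^ 3) (-2) := by
    have := inf_w Q₁ Q₂ k2 hkm hn0 htm (e := -2) (by
      have h5 : algebraMap k E (2 * -2) = -4 := by
        rw [map_mul, map_neg, map_ofNat]
        norm_num
      rw [h5, sub_neg_eq_add]
      exact H.ym)
    rwa [map_neg, map_ofNat] at this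
  obtain ⟨hlp, -⟩ := l_inf Q₁ Q₂ hn0 htp hwp k2
  obtain ⟨-, hlm2⟩ := l_inf Q₁ Q₂ hn0 htm hwm k2
  rw [← hn, ← hl] at hlp
  rw [← hn, ← hl'] at hlm2
  have hm4 : (-2 : K) - 2 = -4 := by norm_num
  have hm4' : (-2 : K) + -2 = -4 := by norm_num
  rw [hm4] at hlp
  rw [hm4'] at hlm2
  have hn4 : (-4 : K) ≠ 0 := neg_ne_zero.2 h4
  have hl5 : l * l' ≠ 0 := by
    rw [hlm]
    exact neg_ne_zero.2 (pow_ne_zero 5 hn0)
  have hl0 : l ≠ 0 := left_ne_zero_of_mul hl5
  have hl0' : l' ≠ 0 := right_ne_zero_of_mul hl5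
  have hsum : ∀ v : DV K, v.ord l + v.ord l' = 5 * v.ord n := fun v => by
    rw [← v.ord_mul _ _ hl0 hl0', hlm, v.ord_neg, v.ord_pow hn0]
    rfl
  have hti : n⁻¹ ≠ 0 := inv_ne_zero hn0
  have ordlp : kp.ord l = -5 := by
    have h5 := (hlp.unit hn4 (by rw [kp.ord_neg, ho4])).2
    rw [kp.ord_mul _ _ (mul_ne_zero h2 hl0) (pow_ne_zero 5 hti), kp.ord_mul _ _ h2 hl0, ho2,
      kp.ord_pow hti, kp.ord_inv hn0, hnp] at h5
    push_cast at h5
    linarith
  have ordlm' : km.ord l' = -5 := by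
    have h5 := (hlm2.unit hn4 (by rw [km.ord_neg, ho4])).2
    rw [km.ord_mul _ _ (mul_ne_zero h2 hl0') (pow_ne_zero 5 hti), km.ord_mul _ _ h2 hl0', ho2,
      km.ord_pow hti, km.ord_inv hn0, hnm] at h5
    push_cast at h5
    linarith
  have ordlm : km.ord l = 0 := by
    have h5 := hsum km
    rw [ordlm', hnm] at h5
    linarith
  have hlmh : km.G 1 (l - 1 / 2) := by
    -- `l = -1 / (l' / n ^ 5)`, `2 l' / n ^ 5 = -4`
    have h5 := (hlm2.inv hn4 (by rw [km.ord_neg, ho4])).mul (Cg.nat (k := k) km 2)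
    have h6 := h5.neg.d
    have hX : 2 * l' * n⁻¹ ^ 5 ≠ 0 := mul_ne_zero (mul_ne_zero h2 hl0') (pow_ne_zero 5 hti)
    have e1 : l = -((2 * l' * n⁻¹ ^ 5)⁻¹ * 2) := by
      rw [eq_neg_iff_add_eq_zero]
      field_simp
      linear_combination hlm
    have e2 : (1 / 2 : K) = -((-4)⁻¹ * 2) := by
      have : (4 : K) = 2 * 2 := by norm_num
      rw [this]
      field_simp
    rw [e1, e2]
    exact h6
  -- the places over `e0`
  obtain ⟨k1, k0, hne, h1, h0, hall, hy1, hy0, hr1, hr0⟩ := Q₂.split (k := k) (v := e0) (c := 1)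
    e0.ord_one one_ne_zero (by rw [one_pow]; exact H.g0)
  rw [map_one] at hy1 hy0
  have evg : Even (e0.ord (algebraMap (RatFunc k) E (gs k))) := by
    rw [((Cg.of H.g0 DV.G_one).unit one_ne_zero e0.ord_one).2]
    decide
  have hs1 : ∀ v : DV K, Over v e0 → v.ord s = 1 := fun v hv => by
    have : s = algebraMap E K (sE k E) := rfl
    rw [this, Q₂.even_ord (k := k) evg hv, H.s0]
  have hyE : ∀ v : DV K, Over v e0 → Cg v (w * Q₂.y) (-2) := fun v hv => by
    rw [hw, ← hye]
    refine Cg.of ?_ (Cg.nat (k := k) v 2).neg.l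
    rw [sub_neg_eq_add, ← map_ofNat (algebraMap E K) 2, ← map_add, hv.G_one_iff]
    exact H.y0
  have hinv2 : ∀ v : DV K, Cg v ((2 : K)⁻¹) ((2 : K)⁻¹) := fun v =>
    (Cg.nat (k := k) v 2).inv h2 (ho2 v)
  have hnd : n = (1 + Q₂.y) * 2⁻¹ := by
    rw [hde]
    field_simp
    ring
  have hd0 := d_ne Q₂
  -- `k0`: `n = 0`, `w = 2`
  have hd0k : Cg k0 Q₂.y (-1) := Cg.of (by rw [sub_neg_eq_add]; exact hy0) Cg.one.neg.l
  have hn0k : Cg k0 n 0 := by
    have := ((Cg.one (v := k0)).add hd0k).mul (hinv2 k0)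
    rw [← hnd, add_neg_cancel, zero_mul] at this
    exact this
  have hw0k : Cg k0 w 2 := by
    have h5 := (hyE k0 h0).mul (hd0k.inv (neg_ne_zero.2 one_ne_zero) (by
      rw [k0.ord_neg, k0.ord_one]))
    rw [mul_assoc, mul_inv_cancel₀ hd0, mul_one, inv_neg, inv_one, neg_mul_neg, mul_one] at h5
    exact h5
  have ordn0 : k0.ord n = 1 := by
    have hz : Cg k0 (n - 1) (-1) := by
      have := hn0k.sub Cg.one
      rwa [zero_sub] at this
    obtain ⟨h6, h5⟩ := hz.unit (neg_ne_zero.2 one_ne_zero) (by rw [k0.ord_neg, k0.ord_one])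
    have h7 : n * (n - 1) = s := by rw [← hsn]; ring
    have h8 := hs1 k0 h0
    rw [← h7, k0.ord_mul _ _ hn0 h6, h5, add_zero] at h8
    exact h8
  obtain ⟨-, hl0v⟩ := l_val Q₁ Q₂ hn0k hw0k k2
  rw [← hl'] at hl0v
  have e3 : (1 - (0 : K) ^ 5 + (1 - 0) ^ 5 + (0 ^ 2 - 0 + 1) * 2) / 2 = 2 := by
    rw [div_eq_iff h2]
    norm_num
  rw [e3] at hl0v
  have ordl0' : k0.ord l' = 0 := (hl0v.unit h2 (ho2 k0)).2
  have ordl0 : k0.ord l = 5 := by
    have := hsum k0
    rw [ordl0', ordn0] at this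
    linarith
  -- values at finite places
  have key : ∀ v : DV K, v ≠ kp → v ≠ k0 → v.ord l = 0 ∧ (v ≠ k1 → v.ord (l - 1) = 0) := by
    intro v n1 n2
    obtain ⟨v₁, hv₁⟩ := Q₂.exists_over v
    obtain ⟨v₀, hv₀⟩ := Q₁.exists_over v₁
    by_cases hi : v₀ = Rat.inf k
    · subst hi
      rcases H.all v₁ hv₀ with h | h
      · subst h
        exact absurd (hup v hv₁) n1
      · subst h
        have hv := hum v hv₁
        subst hv
        refine ⟨ordlm, fun _ => ?_⟩
        have h5 : Cg v l (1 / 2) := Cg.of hlmh (by rw [one_div]; exact (hinv2 v).l)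
        have h6 := h5.sub Cg.one
        have e4 : (1 / 2 : K) - 1 = -(2⁻¹) := by
          field_simp
          norm_num
        rw [e4] at h6
        exact (h6.unit (neg_ne_zero.2 (inv_ne_zero h2)) (by
          rw [v.ord_neg, v.ord_inv h2, ho2, neg_zero])).2
    · -- a finite place
      have hX : v₀.G 0 (RatFunc.X : RatFunc k) := DV.G_of_le (Rat.ne_inf.1 hi)
      have hsG : v.G 0 s := by
        have h5 : v₁.G 0 (sE k E) := (hv₀.G_zero_iff _).2 hX
        exact (hv₁.G_zero_iff _).2 h5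
      have hdG : v.G 0 Q₂.y := by
        apply int_of_sq
        rw [d_sq Q₂]
        exact (((Cg.nat (k := k) v 4).l.mul hsG).mono (by norm_num)).add DV.G_one
      have hnG : v.G 0 n := by
        rw [hnd]
        exact ((DV.G_one.add hdG).mul (hinv2 v).l).mono (by norm_num)
      have hwG : v.G 0 w := by
        apply int_of_sq
        rw [hw2]
        exact (((Cg.nat (k := k) v 4).mul ((((Cg.refl' hnG).pow 2).sub (Cg.refl' hnG)).add
          Cg.one |>.pow 3)).add ((Cg.nat (k := k) v 5).mul (((Cg.refl' hnG).pow 2).mul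
          (((Cg.refl' hnG).sub Cg.one).pow 2)))).l
      obtain ⟨hlG, hlG'⟩ := l_val Q₁ Q₂ (Cg.refl' hnG) (Cg.refl' hwG) k2
      have hlG := hlG.l
      have hlG' := hlG'.l
      rw [← hl] at hlG
      rw [← hl'] at hlG'
      -- the place is over `e0` if `s = 0`, `y = -2`
      have over0 : v.G 1 s → Cg v (w * Q₂.y) (-2) → v = k1 ∨ v = k0 := by
        intro h5 h6
        have h7 : v₁.G 1 (sE k E) := (hv₁.G_one_iff _).1 h5
        have h8 : v₀.G 1 (RatFunc.X : RatFunc k) := (hv₀.G_one_iff _).1 h7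
        have h9 : v₀ = Rat.pt 0 := Rat.eq_pt (by rw [map_zero, sub_zero]; exact h8)
        subst h9
        have h10 : v₁.G 1 (Q₁.y + 2) := by
          rw [← hv₁.G_one_iff, map_add, map_ofNat]
          have := h6.d
          rw [hw, ← hye, sub_neg_eq_add] at this
          exact this
        have h11 := H.u0 v₁ hv₀ h10
        subst h11
        exact hall v hv₁
      have sG : ∀ c : K, Cg v n c → c ^ 2 - c = 0 → v.G 1 s := by
        intro c hc h5
        have h6 := ((hc.pow 2).sub hc).d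
        rw [h5, sub_zero] at h6
        rwa [hsn] at h6
      by_cases c0 : v.G 1 n
      · -- `n = 0`
        have hc : Cg v n 0 := Cg.ofG c0
        have hs0 := sG 0 hc (by norm_num)
        have hdv : Cg v Q₂.y (-1) := by
          have := ((Cg.nat (k := k) v 2).mul hc).sub Cg.one
          rw [mul_zero, zero_sub] at this
          rw [hde]
          exact this
        have hws : Cg v (w ^ 2) (2 ^ 2) := by
          have := ((Cg.nat (k := k) v 4).mul ((((hc.pow 2).sub hc).add Cg.one).pow 3)).add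
            ((Cg.nat (k := k) v 5).mul ((hc.pow 2).mul ((hc.sub Cg.one).pow 2)))
          rw [← hw2] at this
          convert this using 1
          norm_num
        rcases Cg.root (k := k) hws (Cg.nat (k := k) v 2).l hwG with h5 | h5
        · exfalso
          have h6 := h5.mul hdv
          rw [mul_neg, mul_one] at h6
          rcases over0 hs0 h6 with h7 | h7
          · subst h7
            have h8 := hdv.d.sub hy1
            rw [show Q₂.y - -1 - (Q₂.y - 1) = (2 : K) by ring] at h8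
            have := h8.le h2
            rw [ho2] at this
            omega
          · exact n2 h7
        · obtain ⟨h6, -⟩ := l_val Q₁ Q₂ hc h5 k2
          have e4 : (1 - (0 : K) ^ 5 + (1 - 0) ^ 5 - (0 ^ 2 - 0 + 1) * -2) / 2 = 2 := by
            rw [div_eq_iff h2]
            norm_num
          rw [e4, ← hl] at h6
          refine ⟨(h6.unit h2 (ho2 v)).2, fun _ => ?_⟩
          have h7 := h6.sub Cg.one
          have e5 : (2 : K) - 1 = 1 := by norm_num
          rw [e5] at h7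
          exact (h7.unit one_ne_zero v.ord_one).2
      · by_cases c1 : v.G 1 (n - 1)
        · -- `n = 1`
          have hc : Cg v n 1 := Cg.of c1 DV.G_one
          have hs0 := sG 1 hc (by norm_num)
          have hdv : Cg v Q₂.y 1 := by
            have := ((Cg.nat (k := k) v 2).mul hc).sub Cg.one
            rw [mul_one, show (2 : K) - 1 = 1 by norm_num] at this
            rw [hde]
            exact this
          have hws : Cg v (w ^ 2) (2 ^ 2) := by
            have := ((Cg.nat (k := k) v 4).mul ((((hc.pow 2).sub hc).add Cg.one).pow 3)).add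
              ((Cg.nat (k := k) v 5).mul ((hc.pow 2).mul ((hc.sub Cg.one).pow 2)))
            rw [← hw2] at this
            convert this using 1
            norm_num
          rcases Cg.root (k := k) hws (Cg.nat (k := k) v 2).l hwG with h5 | h5
          · obtain ⟨h6, -⟩ := l_val Q₁ Q₂ hc h5 k2
            have e4 : (1 - (1 : K) ^ 5 + (1 - 1) ^ 5 - (1 ^ 2 - 1 + 1) * 2) / 2 = -1 := by
              rw [div_eq_iff h2]
              norm_num
            rw [e4, ← hl] at h6
            refine ⟨(h6.unit (neg_ne_zero.2 one_ne_zero) (by rw [v.ord_neg, v.ord_one])).2,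
              fun _ => ?_⟩
            have h7 := h6.sub Cg.one
            have e5 : (-1 : K) - 1 = -2 := by norm_num
            rw [e5] at h7
            exact (h7.unit (neg_ne_zero.2 h2) (by rw [v.ord_neg, ho2])).2
          · obtain ⟨h6, -⟩ := l_val Q₁ Q₂ hc h5 k2
            have e4 : (1 - (1 : K) ^ 5 + (1 - 1) ^ 5 - (1 ^ 2 - 1 + 1) * -2) / 2 = 1 := by
              rw [div_eq_iff h2]
              norm_num
            rw [e4, ← hl] at h6
            refine ⟨(h6.unit one_ne_zero v.ord_one).2, fun n3 => ?_⟩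
            exfalso
            have h8 := h5.mul hdv
            rw [mul_one] at h8
            rcases over0 hs0 h8 with h7 | h7
            · exact n3 h7
            · subst h7
              exact n2 rfl
        · -- `n`, `n - 1` units
          have o1 : v.ord n = 0 := by
            have h5 := hnG.le hn0
            have h6 := (DV.not_G hn0).1 c0
            omega
          have o2 := hsum v
          rw [o1] at o2
          have o3 := hlG.le hl0
          have o4 := hlG'.le hl0'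
          refine ⟨by omega, fun _ => ?_⟩
          have hn1 : n - 1 ≠ 0 := DV.ne_zero_of_not_G c1
          have o5 : v.ord (n - 1) = 0 := by
            have h5 := (hnG.sub DV.G_one).le hn1
            have h6 := (DV.not_G hn1).1 c1
            omega
          have e6 : (l - 1) * (l' - 1) = (n - 1) ^ 5 := by
            linear_combination hlm'
          have h7 : (l - 1) * (l' - 1) ≠ 0 := by
            rw [e6]
            exact pow_ne_zero 5 hn1
          have h8 : v.ord ((l - 1) * (l' - 1)) = 0 := by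
            rw [e6, v.ord_pow hn1, o5, mul_zero]
          rw [v.ord_mul _ _ (left_ne_zero_of_mul h7) (right_ne_zero_of_mul h7)] at h8
          have h9 := (hlG.sub DV.G_one).le (left_ne_zero_of_mul h7)
          have h10 := (hlG'.sub DV.G_one).le (right_ne_zero_of_mul h7)
          omega
  exact ⟨kp, km, k0, k1, ⟨Qd.rat_of_resCard H.rp hresp, Qd.rat_of_resCard H.rm hresm,
    Qd.rat_of_resCard H.r0 hr0, Qd.rat_of_resCard H.r0 hr1, ordlp, ordl0, hlmh, hnm,
    fun v n1 n2 => (key v n1 n2).1, fun v n1 n2 n3 => (key v n1 n2).2 n3⟩⟩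

end L5

end Pool.Agent.FF
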