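import Pool.Agent.FO.StepQ

/-! # Curves with a function `l`, the beginning of a tower `u ^ 2 = l`, `x ^ 2 = u` -/

set_option autoImplicit false

namespace Pool.Agent.FF

/-- A curve with a function `l`: `r` rational places of odd order, no other zeros and poles, the
places with `l ≡ 1` have total degree at most `a`, over each `α ^ 4`, `α ∈ S`, there are `N` rational
places. -/
structure LamC (p : ℕ) (k K : Type) [Field k] [Field K] [Algebra k K] (S : Finset k) (l : K)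
    (N g r a B C M : ℕ) : Prop where
  lv : Lv0 p k K g B C M
  sp : ∃ O A : Finset (DV K), O.card ≤ r ∧ (∀ v ∈ O, v.Rat k ∧ Odd (v.ord l)) ∧
    (∃ R ∈ O, R.ord l < 0) ∧ ∑ v ∈ A, v.deg (Nat.card k) ≤ a ∧ (∀ v : DV K, v ∉ O → v.ord l = 0) ∧
      ∀ v : DV K, v ∉ O → v ∉ A → v.ord (l - 1) = 0
  ne1 : l ≠ 1
  pts : ∀ α ∈ S, ∃ T : Finset (DV K), N ≤ T.card ∧ ∀ v ∈ T, v.Rat k ∧
    v.G 1 (l - algebraMap k K (α ^ 4))

/-- The affine points of the curve `w ^ 2 = 4 (n ^ 2 - n + 1) ^ 3 + 5 n ^ 2 (n - 1) ^ 2` with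
`1 - n ^ 5 + (1 - n) ^ 5 - (n ^ 2 - n + 1) w = 2 α ^ 4`: five, or four if `2 α ^ 4 = 1`. -/
def Good5 (k : Type) [Field k] (S : Finset k) : Prop :=
  ∀ α ∈ S, ∃ Z : Finset (k × k), (∀ z ∈ Z,
    z.2 ^ 2 = 4 * (z.1 ^ 2 - z.1 + 1) ^ 3 + 5 * (z.1 ^ 2 * (z.1 - 1) ^ 2) ∧
    1 - z.1 ^ 5 + (1 - z.1) ^ 5 - (z.1 ^ 2 - z.1 + 1) * z.2 = 2 * α ^ 4) ∧
    (Z.card = 5 ∨ Z.card = 4 ∧ 2 * α ^ 4 = 1)

end Pool.Agent.FF
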