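import Pool.Agent.FO.LamC
import Pool.Agent.FO.BaseM1

/-! # The curve `w ^ 2 = (z + 1) (z ^ 2 + 1)` in characteristic 3 and the function of degree 6 -/

set_option autoImplicit false

namespace Pool.Agent.FF

namespace LamEx

open BaseM

section rat

variable {k : Type} [Field k] {i : k}

/-- the function `f = (z + 1) (z ^ 2 + 1)` -/
noncomputable def fE (k : Type) [Field k] : RatFunc k := (RatFunc.X + 1) * (RatFunc.X ^ 2 + 1)

theorem fE_eq (hi : i ^ 2 = -1) : fE k =
    (RatFunc.X - algebraMap k (RatFunc k) (-1)) * (RatFunc.X - algebraMap k (RatFunc k) i) *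
      (RatFunc.X - algebraMap k (RatFunc k) (-i)) := by
  have h := congrArg (algebraMap k (RatFunc k)) hi
  rw [map_pow, map_neg, map_one] at h
  rw [fE, map_neg, map_neg, map_one]
  linear_combination (RatFunc.X + 1) * h

variable [Finite k]

theorem fE_ne (hi : i ^ 2 = -1) : fE k ≠ 0 := by
  rw [fE_eq hi]
  exact mul_ne_zero (mul_ne_zero (X_sub_ne _) (X_sub_ne _)) (X_sub_ne _)

theorem fE_ord (hi : i ^ 2 = -1) (v : DV (RatFunc k)) : v.ord (fE k) =
    v.ord (RatFunc.X - algebraMap k (RatFunc k) (-1)) +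
      v.ord (RatFunc.X - algebraMap k (RatFunc k) i) +
      v.ord (RatFunc.X - algebraMap k (RatFunc k) (-i)) := by
  rw [fE_eq hi, v.ord_mul _ _ (mul_ne_zero (X_sub_ne _) (X_sub_ne _)) (X_sub_ne _),
    v.ord_mul _ _ (X_sub_ne _) (X_sub_ne _)]

theorem fE_inf (hi : i ^ 2 = -1) : (Rat.inf k).ord (fE k) = -3 := by
  rw [fE_ord hi, inf_ord_sub, inf_ord_sub, inf_ord_sub]
  norm_num

omit [Finite k] in
theorem i_ne (h2 : (2 : k) ≠ 0) (hi : i ^ 2 = -1) : (-1 : k) ≠ i ∧ (-1 : k) ≠ -i ∧ i ≠ -i := by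
  refine ⟨?_, ?_, ?_⟩
  · rintro rfl
    apply h2
    linear_combination hi
  · intro h
    have h1 : i = 1 := by linear_combination h
    rw [h1] at hi
    apply h2
    linear_combination hi
  · intro h
    have h1 : 2 * i = 0 := by linear_combination h
    have h3 := (mul_eq_zero.1 h1).resolve_left h2
    rw [h3] at hi
    norm_num at hi

open Classical in
theorem fE_val (h2 : (2 : k) ≠ 0) (hi : i ^ 2 = -1) (v : DV (RatFunc k)) (hv : v ≠ Rat.inf k) :
    v.ord (fE k) = if v ∈ ({Rat.pt (-1), Rat.pt i, Rat.pt (-i)} : Finset (DV (RatFunc k)))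
      then 1 else 0 := by
  obtain ⟨n1, n2, n3⟩ := i_ne h2 hi
  simp only [Finset.mem_insert, Finset.mem_singleton]
  rw [fE_ord hi, rat_ord hv, rat_ord hv, rat_ord hv]
  by_cases h1 : v = Rat.pt (-1)
  · have e2 : v ≠ Rat.pt i := fun h => n1 (Rat.pt_injective (h1.symm.trans h))
    have e3 : v ≠ Rat.pt (-i) := fun h => n2 (Rat.pt_injective (h1.symm.trans h))
    rw [if_pos h1, if_neg e2, if_neg e3, if_pos (Or.inl h1)]
    norm_num
  · by_cases h2 : v = Rat.pt i
    · have e3 : v ≠ Rat.pt (-i) := fun h => n3 (Rat.pt_injective (h2.symm.trans h))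
      simp only [if_neg h1, if_pos h2, if_neg e3]
      rw [if_pos (Or.inr (Or.inl h2))]
      norm_num
    · by_cases h3 : v = Rat.pt (-i)
      · simp only [if_neg h1, if_neg h2, if_pos h3]
        rw [if_pos (Or.inr (Or.inr h3))]
        norm_num
      · simp only [if_neg h1, if_neg h2, if_neg h3]
        rw [if_neg (by
          rintro (h | h | h)
          · exact h1 h
          · exact h2 h
          · exact h3 h)]
        norm_num

open Classical in
theorem fE_odd (h2 : (2 : k) ≠ 0) (hi : i ^ 2 = -1) (v : DV (RatFunc k)) :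
    Odd (v.ord (fE k)) ↔
      v ∈ ({Rat.inf k, Rat.pt (-1), Rat.pt i, Rat.pt (-i)} : Finset (DV (RatFunc k))) := by
  rw [Finset.mem_insert]
  by_cases hv : v = Rat.inf k
  · rw [hv, fE_inf hi]
    exact ⟨fun _ => Or.inl rfl, fun _ => by decide⟩
  · rw [fE_val h2 hi v hv]
    split_ifs with h
    · exact ⟨fun _ => Or.inr h, fun _ => by decide⟩
    · exact ⟨fun h' => absurd h' (by decide), fun h' => absurd h' (by
        rintro (h' | h')
        · exact hv h'
        · exact h h')⟩

theorem fE_dg (h2 : (2 : k) ≠ 0) (hi : i ^ 2 = -1) :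
    dgS (Nat.card k) {v : DV (RatFunc k) | Odd (v.ord (fE k))} = 4 := by
  classical
  obtain ⟨n1, n2, n3⟩ := i_ne h2 hi
  rw [dg_eq (fE_odd h2 hi)]
  have h1 : ∀ v ∈ ({Rat.inf k, Rat.pt (-1), Rat.pt i, Rat.pt (-i)} : Finset (DV (RatFunc k))),
      v.deg (Nat.card k) = 1 := by
    intro v hv
    simp only [Finset.mem_insert, Finset.mem_singleton] at hv
    rcases hv with rfl | rfl | rfl | rfl
    · exact Rat.deg_inf
    · exact Rat.deg_pt _
    · exact Rat.deg_pt _
    · exact Rat.deg_pt _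
  rw [Finset.sum_congr rfl h1, Finset.sum_const, smul_eq_mul, mul_one]
  rw [Finset.card_insert_of_notMem, Finset.card_insert_of_notMem, Finset.card_insert_of_notMem,
    Finset.card_singleton]
  · simp only [Finset.mem_singleton]
    exact fun h => n3 (Rat.pt_injective h)
  · simp only [Finset.mem_insert, Finset.mem_singleton, not_or]
    exact ⟨fun h => n1 (Rat.pt_injective h), fun h => n2 (Rat.pt_injective h)⟩
  · simp only [Finset.mem_insert, Finset.mem_singleton, not_or]
    exact ⟨(Rat.pt_ne_inf _).symm, (Rat.pt_ne_inf _).symm, (Rat.pt_ne_inf _).symm⟩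

end rat

/-- a square root of `-1` from one of the points -/
theorem exists_i {k : Type} [Field k] [CharP k 3] {z : k × k}
    (h1 : z.2 ^ 2 = (z.1 + 1) * (z.1 ^ 2 + 1)) (h2 : (z.1 ^ 2 + z.1 - 1) * z.2 = 0)
    (h3 : z.1 ≠ -1) : ∃ i : k, i ^ 2 = -1 := by
  have c3 : (3 : k) = 0 := by exact_mod_cast CharP.cast_eq_zero k 3
  rcases mul_eq_zero.1 h2 with h | h
  · refine ⟨2 * z.1 + 1, ?_⟩
    linear_combination 4 * h + 2 * c3
  · rw [h] at h1
    have h4 : z.1 ^ 2 + 1 = 0 := by
      have h5 : (z.1 + 1) * (z.1 ^ 2 + 1) = 0 := by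
        rw [← h1]
        norm_num
      exact (mul_eq_zero.1 h5).resolve_left fun h => h3 (by linear_combination h)
    exact ⟨z.1, by linear_combination h4⟩

theorem inf_quad {k : Type} [Field k] [Finite k] [CharP k 3] {i : k} (hi : i ^ 2 = -1) :
    (Rat.inf k).ord (RatFunc.X ^ 2 + RatFunc.X - 1) = -2 := by
  have c3 : (3 : k) = 0 := by exact_mod_cast CharP.cast_eq_zero k 3
  have h3 : (3 : RatFunc k) = 0 := by
    rw [← map_ofNat (algebraMap k (RatFunc k)) 3, c3, map_zero]
  have h := congrArg (algebraMap k (RatFunc k)) hi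
  rw [map_pow, map_neg, map_one] at h
  have e : (RatFunc.X ^ 2 + RatFunc.X - 1 : RatFunc k) =
      (RatFunc.X - algebraMap k (RatFunc k) (1 + i)) *
        (RatFunc.X - algebraMap k (RatFunc k) (1 - i)) := by
    rw [map_add, map_sub, map_one]
    linear_combination h + (RatFunc.X - 1) * h3
  rw [e, DV.ord_mul _ _ _ (X_sub_ne _) (X_sub_ne _), inf_ord_sub, inf_ord_sub]
  norm_num

end LamEx

open LamEx BaseM in
theorem lamE [Fact (Nat.Prime 3)] {k : Type} [Field k] [Finite k] [CharP k 3] {S : Finset k}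
    (hS : ∀ α ∈ S, α ^ 4 = -1)
    (hE : ∃ Z : Finset (k × k), Z.card = 6 ∧ ∀ z ∈ Z, z.2 ^ 2 = (z.1 + 1) * (z.1 ^ 2 + 1) ∧
      (z.1 ^ 2 + z.1 - 1) * z.2 = 0 ∧ z.1 ≠ -1) :
    ∃ (K : Type) (_ : Field K) (_ : Algebra k K) (l : K) (B C M : ℕ),
      LamC 3 k K S l 6 1 4 2 B C M := by
  classical
  obtain ⟨Z, hZc, hZ⟩ := hE
  have c3 : (3 : k) = 0 := by exact_mod_cast CharP.cast_eq_zero k 3
  have k2 : (2 : k) ≠ 0 := by
    intro h
    have : (1 : k) = 0 := by linear_combination c3 - h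
    exact one_ne_zero this
  obtain ⟨q, hq⟩ : Z.Nonempty := Finset.card_pos.1 (by omega)
  obtain ⟨i, hi⟩ := exists_i (hZ q hq).1 (hZ q hq).2.1 (hZ q hq).2.2
  have h2 : (2 : RatFunc k) ≠ 0 := by
    have : (2 : RatFunc k) = algebraMap k (RatFunc k) 2 := (map_ofNat _ 2).symm
    rw [this]
    exact map_ne_zero' k2
  have hinf : Odd ((Rat.inf k).ord (fE k)) := by
    rw [fE_inf hi]
    decide
  obtain ⟨K, _, _, _, _, ⟨Q⟩⟩ := exists_qd (k := k) h2 (not_sq ⟨_, hinf⟩)
  obtain ⟨g', C', hg'⟩ := Q.cv (Rat.cv (K := k)) ⟨_, hinf⟩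
  rw [fE_dg k2 hi] at hg'
  have : g' = 1 := by omega
  subst this
  have hff : IsFF k K := Q.isFF (Rat.isFF k) C'
  have hse : Se K 3 := Se.up_deg Q Rat.cv C' Rat.inf_rat hinf (Se.base k k2) (by
    rw [fE_dg k2 hi])
  have hpl := HasPlO.up (p := 3) (by omega) Q Rat.cv C' Rat.inf_rat hinf
    (fE_dg k2 hi).le (HasPlO.base k)
  have K3 : (3 : K) = 0 := by
    rw [← map_ofNat (algebraMap k K) 3, c3, map_zero]
  have hK2 : (2 : K) ≠ 0 := by
    have : (2 : K) = algebraMap k K 2 := (map_ofNat _ 2).symm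
    rw [this]
    exact map_ne_zero' k2
  have ho2 : ∀ v : DV K, v.ord 2 = 0 := fun v => DV.ord_two (k := k) v
  -- the functions
  set w : K := Q.y with hwdef
  set z : K := algebraMap (RatFunc k) K RatFunc.X with hzdef
  have hza : ∀ a : k, z - algebraMap k K a =
      algebraMap (RatFunc k) K (RatFunc.X - algebraMap k (RatFunc k) a) := fun a => by
    rw [map_sub, ← IsScalarTower.algebraMap_apply k (RatFunc k) K]
  have hs1 : z + 1 = algebraMap (RatFunc k) K (RatFunc.X - algebraMap k (RatFunc k) (-1)) := by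
    rw [← hza, map_neg, map_one]
    ring
  have hz0 : z = algebraMap (RatFunc k) K (RatFunc.X - algebraMap k (RatFunc k) 0) := by
    rw [← hza, map_zero, sub_zero]
  have hz1 : z - 1 = algebraMap (RatFunc k) K (RatFunc.X - algebraMap k (RatFunc k) 1) := by
    rw [← hza, map_one]
  have hw : w ^ 2 = (z + 1) * (z ^ 2 + 1) := by
    have := Q.sq
    rw [← hwdef, fE, map_mul, map_add, map_add, map_pow, map_one] at this
    exact this
  have sne : z + 1 ≠ 0 := by
    rw [hs1]
    exact map_ne_zero' (X_sub_ne _)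
  have zne : z ≠ 0 := by
    rw [hz0]
    exact map_ne_zero' (X_sub_ne _)
  have z1ne : z - 1 ≠ 0 := by
    rw [hz1]
    exact map_ne_zero' (X_sub_ne _)
  set m : K := (z ^ 2 + z - 1) * w with hm
  set U : K := m - (z + 1) with hU
  set V : K := m + (z + 1) with hV
  have hUV : U * V = (z + 1) * (z ^ 5 * (z - 1)) := by
    rw [hU, hV, hm]
    linear_combination (z ^ 2 + z - 1) ^ 2 * hw + (z + 1) * (z ^ 5 - z) * K3
  have hUVne : U * V ≠ 0 := by
    rw [hUV]
    exact mul_ne_zero sne (mul_ne_zero (pow_ne_zero 5 zne) z1ne)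
  have Une : U ≠ 0 := left_ne_zero_of_mul hUVne
  have Vne : V ≠ 0 := right_ne_zero_of_mul hUVne
  have hsum : ∀ v : DV K, v.ord U + v.ord V = v.ord (z + 1) + (5 * v.ord z + v.ord (z - 1)) :=
    fun v => by
      rw [← v.ord_mul _ _ Une Vne, hUV, v.ord_mul _ _ sne (mul_ne_zero (pow_ne_zero 5 zne) z1ne),
        v.ord_mul _ _ (pow_ne_zero 5 zne) z1ne, v.ord_pow zne]
      rfl
  have hl1 : U / (z + 1) - 1 = V / (z + 1) := by
    rw [hU, hV]
    field_simp
    linear_combination (-(z + 1)) * K3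
  have hlo : ∀ v : DV K, v.ord (U / (z + 1)) = v.ord U - v.ord (z + 1) := fun v =>
    v.ord_div Une sne
  have hlo1 : ∀ v : DV K, v.ord (U / (z + 1) - 1) = v.ord V - v.ord (z + 1) := fun v => by
    rw [hl1]
    exact v.ord_div Vne sne
  -- integrality
  have hint : ∀ v : DV K, ∀ v0 : DV (RatFunc k), Over v v0 → v0 ≠ Rat.inf k →
      v.G 0 z ∧ v.G 0 w := by
    intro v v0 hv hv0
    have hX : v0.G 0 (RatFunc.X : RatFunc k) := DV.G_of_le (Rat.ne_inf.1 hv0)
    have h1 : v0.G 0 (fE k) :=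
      ((hX.add DV.G_one).mul (((hX.pow 2).mono (by norm_num)).add DV.G_one)).mono (by norm_num)
    have h2 := (hv.G_zero_iff _).2 h1
    rw [← Q.sq, ← hwdef] at h2
    refine ⟨(hv.G_zero_iff _).2 hX, ?_⟩
    by_cases hy0 : w = 0
    · rw [hy0]; exact DV.G_zero _
    have h3 := h2.le (pow_ne_zero 2 hy0)
    rw [v.ord_pow hy0] at h3
    refine DV.G_of_le ?_
    push_cast at h3
    omega
  have hmint : ∀ v : DV K, v.G 0 z → v.G 0 (z ^ 2 + z - 1) := fun v h =>
    (((h.pow 2).mono (by norm_num)).add h).sub DV.G_one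
  have hUVint : ∀ v : DV K, ∀ v0 : DV (RatFunc k), Over v v0 → v0 ≠ Rat.inf k →
      0 ≤ v.ord U ∧ 0 ≤ v.ord V := by
    intro v v0 hv hv0
    obtain ⟨h1, h2⟩ := hint v v0 hv hv0
    have h3 : v.G 0 m := ((hmint v h1).mul h2).mono (by norm_num)
    exact ⟨(h3.sub (h1.add DV.G_one)).le Une, (h3.add (h1.add DV.G_one)).le Vne⟩
  -- orders of linear functions
  have hlin : ∀ (v : DV K) (v0 : DV (RatFunc k)) (a : k), Over v v0 → v0 ≠ Rat.inf k →
      v0 ≠ Rat.pt a →
      v.ord (algebraMap (RatFunc k) K (RatFunc.X - algebraMap k (RatFunc k) a)) = 0 := by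
    intro v v0 a hv h1 h2
    obtain ⟨e, he, h5⟩ := hv
    rw [h5 _ (X_sub_ne a), rat_ord h1, if_neg h2, mul_zero]
  have hlin1 : ∀ (v : DV K) (a : k), Over v (Rat.pt a) → Even ((Rat.pt a).ord (fE k)) →
      v.ord (algebraMap (RatFunc k) K (RatFunc.X - algebraMap k (RatFunc k) a)) = 1 := by
    intro v a hv h1
    rw [Q.even_ord (k := k) h1 hv, Rat.pt_ord]
  -- the place at infinity
  obtain ⟨Ri, hRi, hRiu, hRio, hRiy, hRir⟩ := Q.odd_over (k := k) hinf
  rw [fE_inf hi] at hRiy
  have hptn : ∀ a : k, a ^ 2 ≠ -1 → a ≠ -1 → (Rat.pt a).ord (fE k) = 0 := by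
    intro a ha ha1
    rw [fE_val k2 hi _ (Rat.pt_ne_inf a), if_neg]
    simp only [Finset.mem_insert, Finset.mem_singleton, not_or]
    refine ⟨fun h => ha1 (Rat.pt_injective h), fun h => ha ?_, fun h => ha ?_⟩
    · rw [Rat.pt_injective h, hi]
    · rw [Rat.pt_injective h, neg_sq, hi]
  have hodd1 : Odd ((Rat.pt (-1 : k)).ord (fE k)) := by
    rw [fE_odd k2 hi]
    simp
  obtain ⟨Rm, hRm, hRmu, hRmo, hRmy, hRmr⟩ := Q.odd_over (k := k) hodd1
  have hfm : (Rat.pt (-1 : k)).ord (fE k) = 1 := by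
    rw [fE_val k2 hi _ (Rat.pt_ne_inf _), if_pos (by simp)]
  rw [hfm] at hRmy
  have e0 : (Rat.pt (0 : k)).ord (fE k) = 0 := hptn 0 (by norm_num) (by norm_num)
  have e1 : (Rat.pt (1 : k)).ord (fE k) = 0 := hptn 1 (fun h => k2 (by linear_combination h))
    (fun h => k2 (by linear_combination h))
  -- the places over `0` and `1`
  have hspa : ∀ a : k, (Rat.pt a).G 1 (fE k - (algebraMap k (RatFunc k) ((a + 1) * (a ^ 2 + 1)))) := by
    intro a
    have hX : (Rat.pt a).G 0 (RatFunc.X : RatFunc k) :=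
      DV.G_of_le (Rat.ne_inf.1 (Rat.pt_ne_inf a))
    have h4 := DV.G_const (F := RatFunc k) (Rat.pt a) a
    have h2 : (Rat.pt a).G 1 (RatFunc.X - algebraMap k (RatFunc k) a) :=
      DV.G_of_le (Rat.pt_ord a).ge
    have e : fE k - (algebraMap k (RatFunc k) ((a + 1) * (a ^ 2 + 1))) =
        (RatFunc.X - algebraMap k (RatFunc k) a) * (RatFunc.X ^ 2 + RatFunc.X *
          algebraMap k (RatFunc k) a + (algebraMap k (RatFunc k) a) ^ 2 + RatFunc.X +
            algebraMap k (RatFunc k) a + 1) := by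
      rw [fE]
      simp only [map_mul, map_add, map_pow, map_one]
      ring
    rw [e]
    exact (h2.mul (((((((hX.pow 2).mono (by norm_num)).add ((hX.mul h4).mono (by norm_num))).add
      ((h4.pow 2).mono (by norm_num))).add hX).add h4).add DV.G_one)).mono (by norm_num)
  have hsp0 : (Rat.pt (0 : k)).G 1 (fE k - 1 ^ 2) := by
    have := hspa 0
    have e : (((0 : k) + 1) * (0 ^ 2 + 1)) = 1 := by norm_num
    rw [e, map_one] at this
    rwa [one_pow]
  have hsp1 : (Rat.pt (1 : k)).G 1 (fE k - 1 ^ 2) := by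
    have := hspa 1
    have e : (((1 : k) + 1) * (1 ^ 2 + 1)) = 1 := by linear_combination c3
    rw [e, map_one] at this
    rwa [one_pow]
  obtain ⟨P0p, P0m, -, hP0p, hP0m, hall0, hy0p, hy0m, hr0p, hr0m⟩ :=
    Q.split (k := k) (v := Rat.pt (0 : k)) (c := 1) (DV.ord_one _) one_ne_zero hsp0
  obtain ⟨P1p, P1m, -, hP1p, hP1m, hall1, hy1p, hy1m, hr1p, hr1m⟩ :=
    Q.split (k := k) (v := Rat.pt (1 : k)) (c := 1) (DV.ord_one _) one_ne_zero hsp1
  rw [map_one] at hy0p hy0m hy1p hy1m
  have n10 : (0 : k) ≠ -1 := by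
    intro h
    exact one_ne_zero (α := k) (by linear_combination h)
  have n11 : (1 : k) ≠ -1 := fun h => k2 (by linear_combination h)
  -- the special polynomial at `w = 1`, `w = -1`
  have hUp : U = (z ^ 2 + z - 1) * (w - 1) + (z ^ 2 - 2) := by rw [hU, hm]; ring
  have hVm : V = (z ^ 2 + z - 1) * (w + 1) - (z ^ 2 - 2) := by rw [hV, hm]; ring
  have hres : ∀ (v : DV K) (a : k), Over v (Rat.pt a) → a ^ 2 ≠ 2 → ¬ v.G 1 (z ^ 2 - 2) := by
    intro v a hv ha h
    have h1 := (hint v _ hv (Rat.pt_ne_inf a)).1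
    have h2 : v.G 1 (z - algebraMap k K a) := by
      rw [hza, hv.G_one_iff]
      exact DV.G_of_le (Rat.pt_ord a).ge
    have h3 : v.G 1 ((z - algebraMap k K a) * (z + algebraMap k K a)) :=
      (h2.mul (h1.add (v.G_const a))).mono (by norm_num)
    have h4 := h.sub h3
    have h5 : z ^ 2 - 2 - (z - algebraMap k K a) * (z + algebraMap k K a) =
        algebraMap k K (a ^ 2 - 2) := by
      rw [map_sub, map_pow, map_ofNat]
      ring
    rw [h5] at h4
    exact v.not_G_const (sub_ne_zero.2 ha) h4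
  have ordp : ∀ (v : DV K) (a : k), Over v (Rat.pt a) → a ^ 2 ≠ 2 → v.G 1 (w - 1) →
      v.ord U = 0 := by
    intro v a hv ha h
    have h1 := (hint v _ hv (Rat.pt_ne_inf a)).1
    apply ord_zero_of
    · exact DV.G_of_le (hUVint v _ hv (Rat.pt_ne_inf a)).1
    · intro h3
      apply hres v a hv ha
      have h4 : v.G 1 ((z ^ 2 + z - 1) * (w - 1)) := ((hmint v h1).mul h).mono (by norm_num)
      have h5 := h3.sub h4
      have h6 : U - (z ^ 2 + z - 1) * (w - 1) = z ^ 2 - 2 := by rw [hUp]; ring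
      rwa [h6] at h5
  have ordm : ∀ (v : DV K) (a : k), Over v (Rat.pt a) → a ^ 2 ≠ 2 → v.G 1 (w + 1) →
      v.ord V = 0 := by
    intro v a hv ha h
    have h1 := (hint v _ hv (Rat.pt_ne_inf a)).1
    apply ord_zero_of
    · exact DV.G_of_le (hUVint v _ hv (Rat.pt_ne_inf a)).2
    · intro h3
      apply hres v a hv ha
      have h4 : v.G 1 ((z ^ 2 + z - 1) * (w + 1)) := ((hmint v h1).mul h).mono (by norm_num)
      have h5 := h4.sub h3
      have h6 : (z ^ 2 + z - 1) * (w + 1) - V = z ^ 2 - 2 := by rw [hVm]; ring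
      rwa [h6] at h5
  have a0 : (0 : k) ^ 2 ≠ 2 := by
    rw [zero_pow two_ne_zero]
    exact k2.symm
  have a1 : (1 : k) ^ 2 ≠ 2 := by
    intro h
    exact one_ne_zero (α := k) (by linear_combination -h)
  have p01 : Rat.pt (0 : k) ≠ Rat.pt 1 := fun h => zero_ne_one (Rat.pt_injective h)
  have p0m : Rat.pt (0 : k) ≠ Rat.pt (-1) := fun h => n10 (Rat.pt_injective h)
  have p1m : Rat.pt (1 : k) ≠ Rat.pt (-1) := fun h => n11 (Rat.pt_injective h)
  -- sums of orders over `0` and `1`
  have sum0 : ∀ v : DV K, Over v (Rat.pt (0 : k)) → v.ord (z + 1) = 0 ∧ v.ord U + v.ord V = 5 := by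
    intro v hv
    have h1 : v.ord (z + 1) = 0 := by rw [hs1]; exact hlin v _ _ hv (Rat.pt_ne_inf _) p0m
    have h2 : v.ord z = 1 := by rw [hz0]; exact hlin1 v 0 hv (by rw [e0]; decide)
    have h3 : v.ord (z - 1) = 0 := by rw [hz1]; exact hlin v _ _ hv (Rat.pt_ne_inf _) p01
    have h4 := hsum v
    rw [h1, h2, h3] at h4
    exact ⟨h1, by omega⟩
  have sum1 : ∀ v : DV K, Over v (Rat.pt (1 : k)) → v.ord (z + 1) = 0 ∧ v.ord U + v.ord V = 1 := by
    intro v hv
    have h1 : v.ord (z + 1) = 0 := by rw [hs1]; exact hlin v _ _ hv (Rat.pt_ne_inf _) p1m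
    have h2 : v.ord z = 0 := by rw [hz0]; exact hlin v _ _ hv (Rat.pt_ne_inf _) p01.symm
    have h3 : v.ord (z - 1) = 1 := by rw [hz1]; exact hlin1 v 1 hv (by rw [e1]; decide)
    have h4 := hsum v
    rw [h1, h2, h3] at h4
    exact ⟨h1, by omega⟩
  -- the orders of `l` and `l - 1`
  have o0m : P0m.ord (U / (z + 1)) = 5 := by
    have h1 := sum0 P0m hP0m
    have h2 := ordm P0m 0 hP0m a0 hy0m
    rw [hlo, h1.1]
    omega
  have o1m : P1m.ord (U / (z + 1)) = 1 := by
    have h1 := sum1 P1m hP1m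
    have h2 := ordm P1m 1 hP1m a1 hy1m
    rw [hlo, h1.1]
    omega
  have o0p : P0p.ord (U / (z + 1)) = 0 := by
    have h1 := sum0 P0p hP0p
    have h2 := ordp P0p 0 hP0p a0 hy0p
    rw [hlo, h1.1]
    omega
  have o1p : P1p.ord (U / (z + 1)) = 0 := by
    have h1 := sum1 P1p hP1p
    have h2 := ordp P1p 1 hP1p a1 hy1p
    rw [hlo, h1.1]
    omega
  have wne : w ≠ 0 := Q.y_ne
  have hquad : z ^ 2 + z - 1 = algebraMap (RatFunc k) K (RatFunc.X ^ 2 + RatFunc.X - 1) := by
    rw [map_sub, map_add, map_pow, map_one]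
  have hqne : z ^ 2 + z - 1 ≠ 0 := by
    intro h
    rw [hquad] at h
    have h1 := (map_eq_zero _).1 h
    have h3 := inf_quad (k := k) hi
    rw [h1, DV.ord_zero] at h3
    omega
  have mne : m ≠ 0 := mul_ne_zero hqne wne
  have oRi : Ri.ord (U / (z + 1)) = -5 := by
    have h1 : Ri.ord (z + 1) = -2 := by
      rw [hs1, hRio, inf_ord_sub]
      norm_num
    have h3 : Ri.ord m = -7 := by
      rw [hm, Ri.ord_mul _ _ hqne wne, hRiy, hquad, hRio, inf_quad hi]
      norm_num
    have h4 := DV.ord_add_of_lt (v := Ri) mne (b := -(z + 1)) (DV.G_of_le (by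
      rw [h3, DV.ord_neg, h1]
      norm_num))
    have h5 : U = m + -(z + 1) := by rw [hU]; ring
    rw [hlo, h1, h5, h4.2, h3]
    norm_num
  have hRmd : Rm.ord (z + 1) = 2 := by
    rw [hs1, hRmo, Rat.pt_ord]
    norm_num
  have hRmm : Rm.ord m = 1 := by
    have h1 := (hint Rm _ hRm (Rat.pt_ne_inf _)).1
    have h5 : Rm.ord (z ^ 2 + z - 1) = 0 := by
      apply ord_zero_of (hmint Rm h1)
      intro h
      have h6 : Rm.G 1 (z * (z + 1)) :=
        (h1.mul (DV.G_of_le (n := 1) (by rw [hRmd]; norm_num))).mono (by norm_num)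
      have h7 := h6.sub h
      have h8 : z * (z + 1) - (z ^ 2 + z - 1) = 1 := by ring
      rw [h8] at h7
      have := h7.le one_ne_zero
      rw [DV.ord_one] at this
      omega
    rw [hm, Rm.ord_mul _ _ hqne wne, hRmy, h5]
    norm_num
  have oRm : Rm.ord (U / (z + 1)) = -1 := by
    have h4 := DV.ord_add_of_lt (v := Rm) mne (b := -(z + 1)) (DV.G_of_le (by
      rw [hRmm, DV.ord_neg, hRmd]
      norm_num))
    have h5 : U = m + -(z + 1) := by rw [hU]; ring
    rw [hlo, hRmd, h5, h4.2, hRmm]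
    norm_num
  have oRm1 : Rm.ord (U / (z + 1) - 1) = -1 := by
    have h4 := DV.ord_add_of_lt (v := Rm) mne (b := z + 1) (DV.G_of_le (by
      rw [hRmm, hRmd]
      norm_num))
    rw [hlo1, hRmd, hV, h4.2, hRmm]
    norm_num
  have other : ∀ (v : DV K) (v0 : DV (RatFunc k)), Over v v0 → v0 ≠ Rat.inf k →
      v0 ≠ Rat.pt (-1) → v0 ≠ Rat.pt 0 → v0 ≠ Rat.pt 1 →
      v.ord (U / (z + 1)) = 0 ∧ v.ord (U / (z + 1) - 1) = 0 := by
    intro v v0 hv n1 n2 n3 n4
    have h1 : v.ord (z + 1) = 0 := by rw [hs1]; exact hlin v _ _ hv n1 n2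
    have h2 : v.ord z = 0 := by rw [hz0]; exact hlin v _ _ hv n1 n3
    have h3 : v.ord (z - 1) = 0 := by rw [hz1]; exact hlin v _ _ hv n1 n4
    have h4 := hsum v
    have h5 := hUVint v v0 hv n1
    rw [h1, h2, h3] at h4
    rw [hlo, hlo1, h1]
    omega
  refine ⟨K, inferInstance, inferInstance, U / (z + 1), _, _, _, ⟨⟨hff, C', hse, hpl⟩, ?_, ?_, ?_⟩⟩
  · refine ⟨{P0m, P1m, Rm, Ri}, {P0p, P1p}, Finset.card_le_four, ?_, ?_, ?_, ?_, ?_⟩
    · intro v hv
      simp only [Finset.mem_insert, Finset.mem_singleton] at hv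
      rcases hv with rfl | rfl | rfl | rfl
      · exact ⟨Qd.rat_of_resCard (Rat.pt_rat 0) hr0m, by rw [o0m]; decide⟩
      · exact ⟨Qd.rat_of_resCard (Rat.pt_rat 1) hr1m, by rw [o1m]; decide⟩
      · exact ⟨Qd.rat_of_resCard (Rat.pt_rat _) hRmr, by rw [oRm]; decide⟩
      · exact ⟨Qd.rat_of_resCard Rat.inf_rat hRir, by rw [oRi]; decide⟩
    · exact ⟨Ri, by simp, by rw [oRi]; norm_num⟩
    · have hd : ∀ v ∈ ({P0p, P1p} : Finset (DV K)), v.deg (Nat.card k) ≤ 1 := by
        intro v hv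
        simp only [Finset.mem_insert, Finset.mem_singleton] at hv
        rcases hv with rfl | rfl
        · exact (Qd.rat_of_resCard (Rat.pt_rat 0) hr0p).deg_eq_one.le
        · exact (Qd.rat_of_resCard (Rat.pt_rat 1) hr1p).deg_eq_one.le
      refine (Finset.sum_le_card_nsmul _ _ 1 hd).trans ?_
      rw [smul_eq_mul, mul_one]
      exact Finset.card_le_two
    · intro v hv
      simp only [Finset.mem_insert, Finset.mem_singleton, not_or] at hv
      obtain ⟨m1, m2, m3, m4⟩ := hv
      obtain ⟨v0, hv0⟩ := Q.exists_over v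
      by_cases n1 : v0 = Rat.inf k
      · subst n1
        exact absurd (hRiu v hv0) m4
      by_cases n2 : v0 = Rat.pt (-1)
      · subst n2
        exact absurd (hRmu v hv0) m3
      by_cases n3 : v0 = Rat.pt 0
      · subst n3
        rcases hall0 v hv0 with h | h
        · rw [h, o0p]
        · exact absurd h m1
      by_cases n4 : v0 = Rat.pt 1
      · subst n4
        rcases hall1 v hv0 with h | h
        · rw [h, o1p]
        · exact absurd h m2
      exact (other v v0 hv0 n1 n2 n3 n4).1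
    · intro v hv hv'
      simp only [Finset.mem_insert, Finset.mem_singleton, not_or] at hv hv'
      obtain ⟨m1, m2, m3, m4⟩ := hv
      obtain ⟨v0, hv0⟩ := Q.exists_over v
      by_cases n1 : v0 = Rat.inf k
      · subst n1
        exact absurd (hRiu v hv0) m4
      by_cases n2 : v0 = Rat.pt (-1)
      · subst n2
        exact absurd (hRmu v hv0) m3
      by_cases n3 : v0 = Rat.pt 0
      · subst n3
        rcases hall0 v hv0 with h | h
        · exact absurd h hv'.1
        · exact absurd h m1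
      by_cases n4 : v0 = Rat.pt 1
      · subst n4
        rcases hall1 v hv0 with h | h
        · exact absurd h hv'.2
        · exact absurd h m2
      exact (other v v0 hv0 n1 n2 n3 n4).2
  · intro h
    rw [h, sub_self, DV.ord_zero] at oRm1
    omega
  · intro α hα
    have hα4 := hS α hα
    have key : ∀ q : k × k, ∃ v : DV K, q ∈ Z → v.Rat k ∧ v.G 1 (w - algebraMap k K q.2) ∧
        v.G 1 (z - algebraMap k K q.1) ∧ v.G 1 (U / (z + 1) - algebraMap k K (α ^ 4)) := by
      rintro ⟨a, b⟩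
      by_cases hq : (a, b) ∈ Z
      · obtain ⟨q1, q2, q3⟩ := hZ _ hq
        simp only at q1 q2 q3
        have h1 : (Rat.pt a).G 1 (fE k - algebraMap k (RatFunc k) b ^ 2) := by
          rw [← map_pow, q1]
          exact hspa a
        have h3 : b ≠ 0 ∨ Odd ((Rat.pt a).ord (fE k)) := by
          by_cases hb : b = 0
          · right
            rw [hb] at q1
            have h4 : a ^ 2 + 1 = 0 := by
              have h5 : (a + 1) * (a ^ 2 + 1) = 0 := by
                rw [← q1]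
                norm_num
              exact (mul_eq_zero.1 h5).resolve_left fun h => q3 (by linear_combination h)
            have h6 : (a - i) * (a + i) = 0 := by linear_combination h4 - hi
            rw [fE_odd k2 hi]
            simp only [Finset.mem_insert, Finset.mem_singleton]
            rcases mul_eq_zero.1 h6 with h | h
            · exact Or.inr (Or.inr (Or.inl (by rw [sub_eq_zero.1 h])))
            · exact Or.inr (Or.inr (Or.inr (by rw [eq_neg_of_add_eq_zero_left h])))
          · exact Or.inl hb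
        obtain ⟨v, hv, hvr, hvy⟩ := Q.lift (Rat.pt_rat a) h1 h3
        refine ⟨v, fun _ => ⟨hvr, hvy, ?_, ?_⟩⟩
        · rw [hza, hv.G_one_iff]
          exact DV.G_of_le (Rat.pt_ord a).ge
        · have hzv : v.G 1 (z - algebraMap k K a) := by
            rw [hza, hv.G_one_iff]
            exact DV.G_of_le (Rat.pt_ord a).ge
          have hzi := (hint v _ hv (Rat.pt_ne_inf a)).1
          have hso : v.ord (z + 1) = 0 := by
            rw [hs1]
            exact hlin v _ _ hv (Rat.pt_ne_inf a) fun h => q3 (Rat.pt_injective h)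
          have hmG : v.G 1 m := by
            have e : m = (z ^ 2 + z - 1) * (w - algebraMap k K b) + algebraMap k K b *
                ((z - algebraMap k K a) * (z + algebraMap k K a + 1)) := by
              have h5 := congrArg (algebraMap k K) q2
              simp only [map_mul, map_sub, map_add, map_pow, map_one, map_zero] at h5
              rw [hm]
              linear_combination h5
            rw [e]
            exact (((hmint v hzi).mul hvy).mono (by norm_num)).add
              (((v.G_const b).mul (hzv.mul ((hzi.add (v.G_const a)).add DV.G_one))).mono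
                (by norm_num))
          have e : U / (z + 1) - algebraMap k K (α ^ 4) = m * (z + 1)⁻¹ := by
            rw [hα4, map_neg, map_one, hU]
            field_simp
            ring
          rw [e]
          exact (hmG.mul (DV.G_of_le (n := 0) (by rw [DV.ord_inv _ sne, hso]; norm_num))).mono
            (by norm_num)
      · exact ⟨Ri, fun h => absurd h hq⟩
    choose G hG using key
    refine ⟨Z.image G, ?_, ?_⟩
    · rw [Finset.card_image_of_injOn, hZc]
      rintro ⟨a, b⟩ hq ⟨a', b'⟩ hq' he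
      have h1 := hG _ hq
      have h2 := hG _ hq'
      rw [← he] at h2
      have e1 : b = b' := BaseM.const_inj h1.2.1 h2.2.1
      have e2 : a = a' := BaseM.const_inj h1.2.2.1 h2.2.2.1
      rw [e1, e2]
    · intro v hv
      rw [Finset.mem_image] at hv
      obtain ⟨q, hq, rfl⟩ := hv
      exact ⟨(hG q hq).1, (hG q hq).2.2.2⟩

end Pool.Agent.FF
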