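import Pool.Agent.FO.LamC
import Pool.Agent.FO.BaseK

/-! # The curve `w ^ 2 = (z + 1) (z ^ 2 + 1)` in characteristic 3: definitions

`l = - 1 + (z ^ 2 + z - 1) w / (z + 1)`. -/

set_option autoImplicit false
set_option linter.unusedSectionVars false

namespace Pool.Agent.FF

namespace LE

/-- the right side of the equation -/
noncomputable def fE (k : Type) [Field k] : RatFunc k := (RatFunc.X + 1) * (RatFunc.X ^ 2 + 1)

/-- `(z ^ 2 + z - 1) / (z + 1)` -/
noncomputable def rhoE (k : Type) [Field k] : RatFunc k :=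
  (RatFunc.X ^ 2 + RatFunc.X - 1) / (RatFunc.X + 1)

variable {k K : Type} [Field k] [Field K] [Algebra k K] [Algebra (RatFunc k) K]
  [IsScalarTower k (RatFunc k) K]

/-- the function `l` -/
noncomputable def lE (Q : Qd (RatFunc k) K (fE k)) : K :=
  -1 + algebraMap (RatFunc k) K (rhoE k) * Q.y

/-- the conjugate of `l`; in characteristic 3 it is `1 - l` -/
noncomputable def lE' (Q : Qd (RatFunc k) K (fE k)) : K :=
  -1 - algebraMap (RatFunc k) K (rhoE k) * Q.y

end LE

end Pool.Agent.FF
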