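import Pool.Agent.FO.LamED

/-! # The six rational places with `l ≡ -1` -/

set_option autoImplicit false
set_option linter.unusedSectionVars false

namespace Pool.Agent.FF

namespace LE

theorem ptsE {k K : Type} [Field k] [Finite k] [CharP k 3] [Field K] [Algebra k K]
    [Algebra (RatFunc k) K] [IsScalarTower k (RatFunc k) K] (Q : Qd (RatFunc k) K (fE k))
    (hE : ∃ Z : Finset (k × k), Z.card = 6 ∧ ∀ z ∈ Z, z.2 ^ 2 = (z.1 + 1) * (z.1 ^ 2 + 1) ∧
      (z.1 ^ 2 + z.1 - 1) * z.2 = 0 ∧ z.1 ≠ -1) :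
    ∃ T : Finset (DV K), 6 ≤ T.card ∧ ∀ v ∈ T, v.Rat k ∧ v.G 1 (lE Q + 1) := sorry

end LE

end Pool.Agent.FF
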