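import Pool.Agent.FO.DenseLL
import Pool.Agent.FO.AllPNum
import Pool.Agent.FO.Sset

/-!
# Numbers for `q = 25, 49, 121, 169, 289, 361` from the towers
-/

set_option autoImplicit false

namespace Pool.Agent.FF

/-- `2 ^ (a / b) ≤ q` -/
theorem rpow_le_nat {a b q : ℕ} (hb : b ≠ 0) (h : 2 ^ a ≤ q ^ b) {lam : ℝ}
    (hlam : (a : ℝ) / b = lam) {N : ℕ} (hN : N = q) : (2 : ℝ) ^ lam ≤ N := by
  subst hN
  rw [← hlam, div_eq_mul_inv, Real.rpow_mul (by norm_num), Real.rpow_natCast]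
  have h1 : ((2 : ℝ) ^ a) ^ ((b : ℝ)⁻¹) ≤ ((N : ℝ) ^ b) ^ ((b : ℝ)⁻¹) :=
    Real.rpow_le_rpow (by positivity) (by exact_mod_cast h) (by positivity)
  rwa [Real.pow_rpow_inv_natCast (Nat.cast_nonneg _) hb] at h1

theorem blkN_25 : BlkF 95 87 (2 * (1 : ℕ) * (((95 : ℕ) : ℝ) - (1 : ℕ)) / (95 : ℕ)) :=
  blkF_eb (by norm_num) (by norm_num) (by decide +kernel)

/-- `q = 25` -/
theorem LL_num_25 {k : Type} [Field k] (hk : Nat.card k = 25)
    (H : ∀ b : ℕ, TowerO k (8 * 3 ^ b, 16 * 3 ^ b, 8 * (((5 : ℕ) : ℝ) - 1) * 3 ^ b)) :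
    ENNReal.ofReal (243 / 100) ≤ LL k := by
  have : Finite k := Nat.finite_of_card_ne_zero (by omega)
  have hk' : Nat.card k = 5 ^ 2 := by rw [hk]; norm_num
  have h2 : (2 : k) ≠ 0 := Sset.two_ne (Sset.char_zero_of_card hk') (by norm_num)
  have hl : (2 : ℝ) ^ ((339 / 73 : ℝ)) ≤ Nat.card k :=
    rpow_le_nat (a := 339) (b := 73) (q := 25) (by norm_num) (by decide +kernel) (by norm_num) hk
  exact LL_dense h2 (by norm_num) hl (by norm_num) H blkN_25 (by norm_num) (by norm_num)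
    (by norm_num) (by norm_num)

theorem blkN_49 : BlkF 95 87 (2 * (1 : ℕ) * (((95 : ℕ) : ℝ) - (1 : ℕ)) / (95 : ℕ)) :=
  blkF_eb (by norm_num) (by norm_num) (by decide +kernel)

/-- `q = 49` -/
theorem LL_num_49 {k : Type} [Field k] (hk : Nat.card k = 49)
    (H : ∀ b : ℕ, TowerO k (8 * 3 ^ b, 16 * 3 ^ b, 8 * (((7 : ℕ) : ℝ) - 1) * 3 ^ b)) :
    ENNReal.ofReal (88 / 25) ≤ LL k := by
  have : Finite k := Nat.finite_of_card_ne_zero (by omega)
  have hk' : Nat.card k = 7 ^ 2 := by rw [hk]; norm_num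
  have h2 : (2 : k) ≠ 0 := Sset.two_ne (Sset.char_zero_of_card hk') (by norm_num)
  have hl : (2 : ℝ) ^ ((320 / 57 : ℝ)) ≤ Nat.card k :=
    rpow_le_nat (a := 320) (b := 57) (q := 49) (by norm_num) (by decide +kernel) (by norm_num) hk
  exact LL_dense h2 (by norm_num) hl (by norm_num) H blkN_49 (by norm_num) (by norm_num)
    (by norm_num) (by norm_num)

theorem blkN_121 : BlkF 105 76 (2 * (5 : ℕ) * (((105 : ℕ) : ℝ) - (5 : ℕ)) / (105 : ℕ)) :=
  blkF_eb (by norm_num) (by norm_num) (by decide +kernel)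

/-- `q = 121` -/
theorem LL_num_121 {k : Type} [Field k] (hk : Nat.card k = 121)
    (H : ∀ b : ℕ, TowerO k (8 * 3 ^ b, 16 * 3 ^ b, 8 * (((11 : ℕ) : ℝ) - 1) * 3 ^ b)) :
    ENNReal.ofReal (109 / 20) ≤ LL k := by
  have : Finite k := Nat.finite_of_card_ne_zero (by omega)
  have hk' : Nat.card k = 11 ^ 2 := by rw [hk]; norm_num
  have h2 : (2 : k) ≠ 0 := Sset.two_ne (Sset.char_zero_of_card hk') (by norm_num)
  have hl : (2 : ℝ) ^ ((339 / 49 : ℝ)) ≤ Nat.card k :=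
    rpow_le_nat (a := 339) (b := 49) (q := 121) (by norm_num) (by decide +kernel) (by norm_num) hk
  exact LL_dense h2 (by norm_num) hl (by norm_num) H blkN_121 (by norm_num) (by norm_num)
    (by norm_num) (by norm_num)

theorem blkN_169 : BlkF 92 64 (2 * (5 : ℕ) * (((92 : ℕ) : ℝ) - (5 : ℕ)) / (92 : ℕ)) :=
  blkF_eb (by norm_num) (by norm_num) (by decide +kernel)

/-- `q = 169` -/
theorem LL_num_169 {k : Type} [Field k] (hk : Nat.card k = 169)
    (H : ∀ b : ℕ, TowerO k (8 * 3 ^ b, 16 * 3 ^ b, 8 * (((13 : ℕ) : ℝ) - 1) * 3 ^ b)) :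
    ENNReal.ofReal (633 / 100) ≤ LL k := by
  have : Finite k := Nat.finite_of_card_ne_zero (by omega)
  have hk' : Nat.card k = 13 ^ 2 := by rw [hk]; norm_num
  have h2 : (2 : k) ≠ 0 := Sset.two_ne (Sset.char_zero_of_card hk') (by norm_num)
  have hl : (2 : ℝ) ^ ((37 / 5 : ℝ)) ≤ Nat.card k :=
    rpow_le_nat (a := 37) (b := 5) (q := 169) (by norm_num) (by decide +kernel) (by norm_num) hk
  exact LL_dense h2 (by norm_num) hl (by norm_num) H blkN_169 (by norm_num) (by norm_num)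
    (by norm_num) (by norm_num)

theorem blkN_289 : BlkF 81 23 ((23 : ℕ) : ℝ) :=
  blkF_lp (a := 4) (by norm_num) (by norm_num) (by decide +kernel) (by norm_num) (by norm_num)

/-- `q = 289` -/
theorem LL_num_289 {k : Type} [Field k] (hk : Nat.card k = 289)
    (H : ∀ b : ℕ, TowerO k (8 * 3 ^ b, 16 * 3 ^ b, 8 * (((17 : ℕ) : ℝ) - 1) * 3 ^ b)) :
    ENNReal.ofReal (409 / 50) ≤ LL k := by
  have : Finite k := Nat.finite_of_card_ne_zero (by omega)
  have hk' : Nat.card k = 17 ^ 2 := by rw [hk]; norm_num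
  have h2 : (2 : k) ≠ 0 := Sset.two_ne (Sset.char_zero_of_card hk') (by norm_num)
  have hl : (2 : ℝ) ^ ((515 / 63 : ℝ)) ≤ Nat.card k :=
    rpow_le_nat (a := 515) (b := 63) (q := 289) (by norm_num) (by decide +kernel) (by norm_num) hk
  exact LL_dense h2 (by norm_num) hl (by norm_num) H blkN_289 (by norm_num) (by norm_num)
    (by norm_num) (by norm_num)

theorem blkN_361 : BlkF 157 32 ((51 : ℕ) : ℝ) :=
  blkF_lp (a := 5) (by norm_num) (by norm_num) (by decide +kernel) (by norm_num) (by norm_num)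

/-- `q = 361` -/
theorem LL_num_361 {k : Type} [Field k] (hk : Nat.card k = 361)
    (H : ∀ b : ℕ, TowerO k (8 * 3 ^ b, 16 * 3 ^ b, 8 * (((19 : ℕ) : ℝ) - 1) * 3 ^ b)) :
    ENNReal.ofReal (911 / 100) ≤ LL k := by
  have : Finite k := Nat.finite_of_card_ne_zero (by omega)
  have hk' : Nat.card k = 19 ^ 2 := by rw [hk]; norm_num
  have h2 : (2 : k) ≠ 0 := Sset.two_ne (Sset.char_zero_of_card hk') (by norm_num)
  have hl : (2 : ℝ) ^ ((892 / 105 : ℝ)) ≤ Nat.card k :=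
    rpow_le_nat (a := 892) (b := 105) (q := 361) (by norm_num) (by decide +kernel) (by norm_num) hk
  exact LL_dense h2 (by norm_num) hl (by norm_num) H blkN_361 (by norm_num) (by norm_num)
    (by norm_num) (by norm_num)

end Pool.Agent.FF
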