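import Pool.Agent.FO.Defs
import Pool.Agent.FO.Sset

/-! # The completely split values for `p = 5, 7, 11, 13` -/

set_option autoImplicit false

namespace Pool.Agent.FF

/-- what is needed about the set of values -/
def Good (k : Type) [Field k] (m : ℕ) : Prop :=
  ∃ S : Finset k, S.card = m ∧ SSet S ∧ ∀ α ∈ S, ∃ Z : Finset k, Z.card = 3 ∧
    ∀ z ∈ Z, z ^ 3 = 4 * α ^ 4 * (1 - α ^ 4)

theorem good_of {k : Type} [Field k] {p : ℕ} (hp : p = 5 ∨ p = 7 ∨ p = 11 ∨ p = 13)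
    (hk : Nat.card k = p ^ 2) : Good k (2 * (p - 1)) := by
  obtain ⟨S, hS, h⟩ := Sset.exists_sset hp hk
  refine ⟨S, hS, ⟨fun α hα => ⟨(h α hα).1, (h α hα).2.1⟩, fun α hα => ?_⟩,
    fun α hα => (h α hα).2.2.2⟩
  obtain ⟨b, hb, hb', e⟩ := (h α hα).2.2.1
  refine ⟨b, hb, hb', ?_⟩
  rw [← e]
  ring

/-- square roots of `-1` -/
theorem roots {k : Type} [Field k] {p : ℕ} [Fact p.Prime] (hp : p ≠ 2) (hk : Nat.card k = p ^ 2) :
    CharP k p ∧ ∃ i : k, i ^ 2 = -1 := by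
  have hpr : p.Prime := Fact.out
  have hf : Finite k := Nat.finite_of_card_ne_zero (by rw [hk]; exact pow_ne_zero _ hpr.ne_zero)
  have h0 : ((p : ℕ) : k) = 0 := Sset.char_zero_of_card hk
  have hc : CharP k p := by
    obtain ⟨c, hc⟩ := CharP.exists k
    have h1 : c ∣ p := (CharP.cast_eq_zero_iff k c p).1 h0
    rcases (Nat.dvd_prime hpr).1 h1 with h2 | h2
    · exact absurd h2 (CharP.char_ne_one k c)
    · rwa [h2] at hc
  refine ⟨hc, ?_⟩
  obtain ⟨m, hm⟩ := hpr.odd_of_ne_two hp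
  have h4 : 4 ∣ Nat.card k - 1 := by
    rw [hk, hm]
    have : (2 * m + 1) ^ 2 - 1 = 4 * (m * m + m) := by
      have : (2 * m + 1) ^ 2 = 4 * (m * m + m) + 1 := by ring
      omega
    rw [this]
    exact Dvd.intro _ rfl
  obtain ⟨c, hc'⟩ := h4
  have hne : (-1 : k) ≠ 0 := by simp
  obtain ⟨y, hy⟩ := Sset.exists_root (k := k) (d := 2) (by norm_num)
    (by rw [hc']; exact ⟨2 * c, by ring⟩) (x := -1) hne (by
      rw [hc']
      have : 4 * c / 2 = 2 * c := by omega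
      rw [this, pow_mul, neg_one_sq, one_pow])
  exact ⟨y, hy⟩

end Pool.Agent.FF
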