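import Pool.Agent.FO.ChainO
import Pool.Agent.FO.BaseK
import Pool.Agent.FO.BaseL
import Pool.Agent.FO.Lam5
import Pool.Agent.FO.LamE
import Pool.Agent.FO.DatThree
import Pool.Agent.FO.SetS
import Pool.Agent.FO.NumP
import Pool.Agent.FO.FinalNine

/-!
# `L(9) ≥ 21 / 20`
-/

set_option autoImplicit false

namespace Pool.Agent.FF

theorem coversN_cons {E : ℕ → ℝ → Prop} {lam C : ℝ} {x : (ℝ × ℝ × ℝ) × (ℝ × ℝ)}
    {D : Set ((ℝ × ℝ × ℝ) × (ℝ × ℝ))} (h : _root_.FF.CoversE E lam C {x})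
    (h' : _root_.FF.CoversE E lam C D) : _root_.FF.CoversE E lam C (insert x D) := by
  rw [Set.insert_eq]
  exact h.union h'

/-- A piece with constants in another form. -/
theorem pieceN {k : Type} [Field k] [Finite k] (h2 : (2 : k) ≠ 0) {lam : ℝ} (hlam0 : 0 < lam)
    (hlam : (2 : ℝ) ^ lam ≤ Nat.card k) {p : ℝ × ℝ × ℝ} (hp1 : 0 ≤ p.1) (hp2 : 0 ≤ p.2.1)
    (hp3 : 0 ≤ p.2.2) (H : TowerO k p) {B κ : ℕ} {u : ℝ} (hb : BlkF B κ u) (hκ : κ < B)
    (hu : 0 ≤ u) {R β : ℝ} (hR : (κ : ℝ) / B = R) (hβ : 2 * u / ((B : ℝ) - κ) = β) (C : ℝ) :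
    _root_.FF.CoversE (EC k) lam C {(p, (R, β))} := by
  rw [← hR, ← hβ]
  exact coversO_one h2 hlam0 hlam hp1 hp2 hp3 hκ hu hb H C

theorem nine_l217_12_67_59 : BlkF 217 67 ((59 : ℕ) : ℝ) :=
  blkF_lp (a := 12) (by norm_num) (by norm_num) (by decide +kernel) (by norm_num) (by norm_num)

theorem nine_l206_13_70_53 : BlkF 206 70 ((53 : ℕ) : ℝ) :=
  blkF_lp (a := 13) (by norm_num) (by norm_num) (by decide +kernel) (by norm_num) (by norm_num)

theorem nine_e300_140_1 : BlkF 300 1 (2 * (140 : ℕ) * (((300 : ℕ) : ℝ) - (140 : ℕ)) / (300 : ℕ)) :=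
  blkF_eb (by norm_num) (by norm_num) (by decide +kernel)

/-- The towers for `q = 9`. -/
theorem towers_nine {k : Type} [Field k] [Finite k] (hk : Nat.card k = 9) :
    (2 : k) ≠ 0 ∧ TowerO k (2, 4, 4) ∧ TowerO k (10, 20, 20) ∧ TowerO k (12, 24, 24) := by
  have : Fact (Nat.Prime 3) := ⟨Nat.prime_three⟩
  have hk' : Nat.card k = 3 ^ 2 := by rw [hk]; norm_num
  obtain ⟨hc, hi⟩ := roots (k := k) (p := 3) (by norm_num) hk'
  have h2 : (2 : k) ≠ 0 := Sset.two_ne (Sset.char_zero_of_card hk') (by norm_num)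
  obtain ⟨S, hS, hS1, hG, hS4, hE⟩ := dat_three hk
  have hK := towerO_of_base (by norm_num) hk' hS1 (by rw [hS]; norm_num)
    (baseK (by norm_num) hi hS1)
  rw [hS] at hK
  refine ⟨h2, ?_, ?_, ?_⟩
  · norm_num at hK ⊢
    exact hK
  · obtain ⟨K, i1, i2, l, g, B, C, M, hg, hl⟩ :=
      lam5 (p := 3) (by norm_num) (by norm_num) hS1 hG
    obtain ⟨K, i1, i2, x, g', W, B, C, M, hg', hL⟩ :=
      base_of_lam (p := 3) (by norm_num) hS1 ⟨K, i1, i2, l, B, C, M, hl⟩
    have hT := towerO_of_base' (p := 3) (g₀ := 8) (by norm_num) hk' hS1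
      (t₀ := 5 * S.card) (by rw [hS]; norm_num) ⟨K, i1, i2, x, g', W, B, C, M, by omega, hL⟩
    rw [hS] at hT
    norm_num at hT ⊢
    exact hT
  · obtain ⟨K, i1, i2, x, g', W, B, C, M, hg, hL⟩ :=
      base_of_lam (p := 3) (by norm_num) hS1 (lamE hS4 hE)
    have hT := towerO_of_base' (p := 3) (g₀ := 10) (by norm_num) hk' hS1
      (t₀ := 6 * S.card) (by rw [hS]; norm_num) ⟨K, i1, i2, x, g', W, B, C, M, by omega, hL⟩
    rw [hS] at hT
    norm_num at hT ⊢
    exact hT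

/-- `q = 9` -/
theorem LL_nine {k : Type} [Field k] (hk : Nat.card k = 9) :
    ENNReal.ofReal (21 / 20) ≤ LL k := by
  have : Finite k := Nat.finite_of_card_ne_zero (by omega)
  obtain ⟨h2, hK, hL, hM⟩ := towers_nine hk
  have hl : (2 : ℝ) ^ ((168 / 53 : ℝ)) ≤ Nat.card k :=
    rpow_le_nat (a := 168) (b := 53) (q := 9) (by norm_num) (by decide +kernel) (by norm_num) hk
  refine ofReal_le_LL (_root_.FF.final_nine (EC k) (EC_mono k) ?_)
  refine coversN_cons (pieceN h2 (by norm_num) hl (by norm_num) (by norm_num) (by norm_num) hM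
    nine_l217_12_67_59 (by norm_num) (by norm_num) (by norm_num) (by norm_num) _) ?_
  refine coversN_cons (pieceN h2 (by norm_num) hl (by norm_num) (by norm_num) (by norm_num) hK
    nine_l206_13_70_53 (by norm_num) (by norm_num) (by norm_num) (by norm_num) _) ?_
  exact pieceN h2 (by norm_num) hl (by norm_num) (by norm_num) (by norm_num) hL
    nine_e300_140_1 (by norm_num) (by norm_num) (by norm_num) (by norm_num) _

end Pool.Agent.FF
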