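import Pool.Agent.FO.Towers3
import Pool.Agent.FO.AllP2
import Pool.Agent.FO.Nine

/-! # Lower bounds for `L(p ^ 2)`, `p` an odd prime -/

set_option autoImplicit false

namespace Pool.Agent.FF

theorem towers3' {p : ℕ} (hpp : p.Prime) (hp : 5 ≤ p) {k : Type} [Field k]
    (hk : Nat.card k = p ^ 2) (b : ℕ) :
    TowerO k (8 * 3 ^ b, 16 * 3 ^ b, 8 * ((p : ℝ) - 1) * 3 ^ b) := by
  haveI : Fact p.Prime := ⟨hpp⟩
  exact towers3 hp hk b

/-- for every prime `p ≥ 7` -/
theorem LL_prime_sq {k : Type} [Field k] {p : ℕ} (hpp : p.Prime) (hp : 7 ≤ p)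
    (hk : Nat.card k = p ^ 2) :
    ENNReal.ofReal (((p : ℝ) + 1) / (2 + 1 / Real.logb 2 p)) ≤ LL k :=
  LL_of_towers hpp hp hk fun b => towers3' hpp (by omega) hk b

theorem LL3_25 {k : Type} [Field k] (hk : Nat.card k = 25) : ENNReal.ofReal (243 / 100) ≤ LL k :=
  LL_num_25 hk fun b => towers3' (p := 5) (by norm_num) (by norm_num) (by rw [hk]; norm_num) b

theorem LL3_49 {k : Type} [Field k] (hk : Nat.card k = 49) : ENNReal.ofReal (88 / 25) ≤ LL k :=
  LL_num_49 hk fun b => towers3' (p := 7) (by norm_num) (by norm_num) (by rw [hk]; norm_num) b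

theorem LL3_121 {k : Type} [Field k] (hk : Nat.card k = 121) : ENNReal.ofReal (109 / 20) ≤ LL k :=
  LL_num_121 hk fun b => towers3' (p := 11) (by norm_num) (by norm_num) (by rw [hk]; norm_num) b

theorem LL3_169 {k : Type} [Field k] (hk : Nat.card k = 169) :
    ENNReal.ofReal (633 / 100) ≤ LL k :=
  LL_num_169 hk fun b => towers3' (p := 13) (by norm_num) (by norm_num) (by rw [hk]; norm_num) b

theorem LL3_289 {k : Type} [Field k] (hk : Nat.card k = 289) : ENNReal.ofReal (409 / 50) ≤ LL k :=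
  LL_num_289 hk fun b => towers3' (p := 17) (by norm_num) (by norm_num) (by rw [hk]; norm_num) b

theorem LL3_361 {k : Type} [Field k] (hk : Nat.card k = 361) :
    ENNReal.ofReal (911 / 100) ≤ LL k :=
  LL_num_361 hk fun b => towers3' (p := 19) (by norm_num) (by norm_num) (by rw [hk]; norm_num) b

end Pool.Agent.FF
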