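import Pool.Agent.FO.AssemO2
import Pool.Agent.FO.ChainO
import Pool.Agent.FO.BaseK
import Pool.Agent.FO.BaseM
import Pool.Agent.FO.SetS
import Pool.Agent.FO.FinalO

/-!
# Lower bounds for `L(q)`, `q = 25, 49, 121, 169`
-/

set_option autoImplicit false

namespace Pool.Agent.FF

theorem coversO_cons {E : ℕ → ℝ → Prop} {lam C : ℝ} {x : (ℝ × ℝ × ℝ) × (ℝ × ℝ)}
    {D : Set ((ℝ × ℝ × ℝ) × (ℝ × ℝ))} (h : _root_.FF.CoversE E lam C {x})
    (h' : _root_.FF.CoversE E lam C D) : _root_.FF.CoversE E lam C (insert x D) := by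
  rw [Set.insert_eq]
  exact h.union h'

/-- `2 ^ (a / b) ≤ q` -/
theorem rpow_le_of_pow_le {a b q : ℕ} (hb : b ≠ 0) (h : 2 ^ a ≤ q ^ b) {lam : ℝ}
    (hlam : (a : ℝ) / b = lam) {N : ℕ} (hN : N = q) : (2 : ℝ) ^ lam ≤ N := by
  subst hN
  rw [← hlam, div_eq_mul_inv, Real.rpow_mul (by norm_num), Real.rpow_natCast]
  have h1 : ((2 : ℝ) ^ a) ^ ((b : ℝ)⁻¹) ≤ ((N : ℝ) ^ b) ^ ((b : ℝ)⁻¹) :=
    Real.rpow_le_rpow (by positivity) (by exact_mod_cast h) (by positivity)
  rwa [Real.pow_rpow_inv_natCast (Nat.cast_nonneg _) hb] at h1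

/-- The two towers. -/
theorem towers {k : Type} [Field k] {p : ℕ} (hp : p = 5 ∨ p = 7 ∨ p = 11 ∨ p = 13)
    (hk : Nat.card k = p ^ 2) :
    (2 : k) ≠ 0 ∧ TowerO k (2, 4, ((2 * (p - 1) : ℕ) : ℝ)) ∧
      TowerO k (6, 12, ((6 * (p - 1) : ℕ) : ℝ)) := by
  have hpp : p.Prime := by rcases hp with rfl | rfl | rfl | rfl <;> norm_num
  have h3 : 3 < p := by rcases hp with rfl | rfl | rfl | rfl <;> norm_num
  have : Fact p.Prime := ⟨hpp⟩
  have : Finite k := Nat.finite_of_card_ne_zero (by rw [hk]; exact pow_ne_zero _ hpp.ne_zero)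
  obtain ⟨hc, hi⟩ := roots (k := k) (p := p) (by omega) hk
  have h2 : (2 : k) ≠ 0 := Sset.two_ne (Sset.char_zero_of_card hk) (by
    rcases hp with rfl | rfl | rfl | rfl <;> norm_num)
  obtain ⟨S, hS, hS1, hS2⟩ := good_of hp hk
  have hK := towerO_of_base (by omega) hk hS1 (by rw [hS]; omega) (baseK (by omega) hi hS1)
  have hM := towerO_of_base (by omega) hk hS1 (by rw [hS]; omega) (baseM h3 hi hS1 hS2)
  rw [hS] at hK hM
  refine ⟨h2, ?_, ?_⟩
  · norm_num at hK ⊢
    exact hK
  · have e : 3 * (2 * (p - 1)) = 6 * (p - 1) := by ring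
    rw [e] at hM
    norm_num at hM ⊢
    exact hM

/-- `q = 25` -/
theorem LL_q25 {k : Type} [Field k] (hk : Nat.card k = 25) :
    ENNReal.ofReal (41 / 20) ≤ LL k := by
  have : Finite k := Nat.finite_of_card_ne_zero (by omega)
  obtain ⟨h2, hK, hM⟩ := towers (k := k) (p := 5) (by norm_num) (by rw [hk]; norm_num)
  have hl : (2 : ℝ) ^ ((65 / 14 : ℝ)) ≤ Nat.card k :=
    rpow_le_of_pow_le (a := 65) (b := 14) (q := 25) (by norm_num) (by decide +kernel) (by norm_num) hk
  norm_num at hK hM
  refine ofReal_le_LL (_root_.FF.final_o25 (EC k) (EC_mono k) ?_)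
  refine coversO_cons (coversO_lp h2 (by norm_num) hl (by norm_num) (by norm_num) (by norm_num)
    248 7 46 83 (by norm_num) (by norm_num) (by decide +kernel) (by norm_num) (by norm_num) (by norm_num) hK _
    (by norm_num) (by norm_num)) ?_
  exact coversO_lp h2 (by norm_num) hl (by norm_num) (by norm_num) (by norm_num)
    248 7 46 83 (by norm_num) (by norm_num) (by decide +kernel) (by norm_num) (by norm_num) (by norm_num) hM _
    (by norm_num) (by norm_num)

/-- `q = 49` -/
theorem LL_q49 {k : Type} [Field k] (hk : Nat.card k = 49) :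
    ENNReal.ofReal (78 / 25) ≤ LL k := by
  have : Finite k := Nat.finite_of_card_ne_zero (by omega)
  obtain ⟨h2, hK, hM⟩ := towers (k := k) (p := 7) (by norm_num) (by rw [hk]; norm_num)
  have hl : (2 : ℝ) ^ ((393 / 70 : ℝ)) ≤ Nat.card k :=
    rpow_le_of_pow_le (a := 393) (b := 70) (q := 49) (by norm_num) (by decide +kernel) (by norm_num) hk
  norm_num at hK hM
  refine ofReal_le_LL (_root_.FF.final_o49 (EC k) (EC_mono k) ?_)
  refine coversO_cons (coversO_lp h2 (by norm_num) hl (by norm_num) (by norm_num) (by norm_num)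
    248 7 46 83 (by norm_num) (by norm_num) (by decide +kernel) (by norm_num) (by norm_num) (by norm_num) hK _
    (by norm_num) (by norm_num)) ?_
  exact coversO_lp h2 (by norm_num) hl (by norm_num) (by norm_num) (by norm_num)
    248 7 46 83 (by norm_num) (by norm_num) (by decide +kernel) (by norm_num) (by norm_num) (by norm_num) hM _
    (by norm_num) (by norm_num)

/-- `q = 121` -/
theorem LL_q121 {k : Type} [Field k] (hk : Nat.card k = 121) :
    ENNReal.ofReal (26 / 5) ≤ LL k := by
  have : Finite k := Nat.finite_of_card_ne_zero (by omega)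
  obtain ⟨h2, hK, hM⟩ := towers (k := k) (p := 11) (by norm_num) (by rw [hk]; norm_num)
  have hl : (2 : ℝ) ^ ((339 / 49 : ℝ)) ≤ Nat.card k :=
    rpow_le_of_pow_le (a := 339) (b := 49) (q := 121) (by norm_num) (by decide +kernel) (by norm_num) hk
  norm_num at hK hM
  refine ofReal_le_LL (_root_.FF.final_o121 (EC k) (EC_mono k) ?_)
  refine coversO_cons (coversO_lp h2 (by norm_num) hl (by norm_num) (by norm_num) (by norm_num)
    248 7 46 83 (by norm_num) (by norm_num) (by decide +kernel) (by norm_num) (by norm_num) (by norm_num) hK _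
    (by norm_num) (by norm_num)) ?_
  exact coversO_lp h2 (by norm_num) hl (by norm_num) (by norm_num) (by norm_num)
    248 7 46 83 (by norm_num) (by norm_num) (by decide +kernel) (by norm_num) (by norm_num) (by norm_num) hM _
    (by norm_num) (by norm_num)

/-- `q = 169` -/
theorem LL_q169 {k : Type} [Field k] (hk : Nat.card k = 169) :
    ENNReal.ofReal (31 / 5) ≤ LL k := by
  have : Finite k := Nat.finite_of_card_ne_zero (by omega)
  obtain ⟨h2, hK, hM⟩ := towers (k := k) (p := 13) (by norm_num) (by rw [hk]; norm_num)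
  have hl : (2 : ℝ) ^ ((37 / 5 : ℝ)) ≤ Nat.card k :=
    rpow_le_of_pow_le (a := 37) (b := 5) (q := 169) (by norm_num) (by decide +kernel) (by norm_num) hk
  norm_num at hK hM
  refine ofReal_le_LL (_root_.FF.final_o169 (EC k) (EC_mono k) ?_)
  refine coversO_cons (coversO_lp h2 (by norm_num) hl (by norm_num) (by norm_num) (by norm_num)
    1000 59 324 265 (by norm_num) (by norm_num) (by decide +kernel) (by norm_num) (by norm_num) (by norm_num) hM _
    (by norm_num) (by norm_num)) ?_
  refine coversO_cons (coversO_lp h2 (by norm_num) hl (by norm_num) (by norm_num) (by norm_num)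
    1000 41 247 302 (by norm_num) (by norm_num) (by decide +kernel) (by norm_num) (by norm_num) (by norm_num) hK _
    (by norm_num) (by norm_num)) ?_
  refine coversO_cons (coversO_eb h2 (by norm_num) hl (by norm_num) (by norm_num) (by norm_num)
    241 13 168 (by norm_num) (by norm_num) (by decide +kernel) (by norm_num) hK _
    (by norm_num) (by norm_num)) ?_
  refine coversO_cons (coversO_eb h2 (by norm_num) hl (by norm_num) (by norm_num) (by norm_num)
    1000 8 933 (by norm_num) (by norm_num) (by decide +kernel) (by norm_num) hK _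
    (by norm_num) (by norm_num)) ?_
  refine coversO_cons (coversO_lp h2 (by norm_num) hl (by norm_num) (by norm_num) (by norm_num)
    1000 27 180 338 (by norm_num) (by norm_num) (by decide +kernel) (by norm_num) (by norm_num) (by norm_num) hM _
    (by norm_num) (by norm_num)) ?_
  exact coversO_lp h2 (by norm_num) hl (by norm_num) (by norm_num) (by norm_num)
    267 8 52 88 (by norm_num) (by norm_num) (by decide +kernel) (by norm_num) (by norm_num) (by norm_num) hM _
    (by norm_num) (by norm_num)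

end Pool.Agent.FF
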