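import Pool.Agent.FO.Defs
import Pool.Agent.FO.KmEx
import Pool.Agent.FO.KmPl
import Pool.Agent.FF.Kl1

/-! # Quadratic extensions in odd characteristic: places, degrees, genus -/

set_option autoImplicit false
set_option linter.unusedSectionVars false

namespace Pool.Agent.FF

open Finset

theorem prim_neg_one {k : Type*} [Field k] (h2 : (2 : k) ≠ 0) : IsPrimitiveRoot (-1 : k) 2 := by
  refine ⟨by norm_num, fun l hl => ?_⟩
  by_contra h
  have ho : Odd l := by
    rw [← Nat.not_even_iff_odd]
    intro he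
    exact h he.two_dvd
  rw [ho.neg_one_pow] at hl
  apply h2
  linear_combination -hl

theorem two_ne_of_algebra {k K : Type*} [Field k] [Field K] [Algebra k K] (h2 : (2 : K) ≠ 0) :
    (2 : k) ≠ 0 := by
  intro h
  apply h2
  rw [← map_ofNat (algebraMap k K) 2, h, map_zero]

theorem exists_qd {k K : Type} [Field k] [Field K] [Algebra k K] (h2 : (2 : K) ≠ 0) {f : K}
    (hf : ∀ a : K, a ^ 2 ≠ f) : ∃ (K' : Type) (_ : Field K') (_ : Algebra k K') (_ : Algebra K K')
      (_ : IsScalarTower k K K'), Nonempty (Qd K K' f) := by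
  have h2k : (2 : k) ≠ 0 := two_ne_of_algebra h2
  obtain ⟨L, iF, iA, iAK, iT, S, hS⟩ := exists_km (k := k) (K := K) Nat.prime_two
    (by exact_mod_cast h2k) (prim_neg_one h2k) hf
  refine ⟨L, iF, iA, iAK, iT, ⟨{ two := h2, y := S.θ, sq := hS, irr := hf, span := ?_ }⟩⟩
  intro x
  obtain ⟨a, ha⟩ := S.exists_coords x
  refine ⟨a 0, a 1, ?_⟩
  rw [ha, sum_range_succ, sum_range_one, pow_zero, mul_one, pow_one]

/-! ### Algebra -/

namespace Qd

section alg

variable {K K' : Type*} [Field K] [Field K'] [Algebra K K'] {f : K}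

theorem f_ne (S : Qd K K' f) : f ≠ 0 := fun h => S.irr 0 (by simp [h])

theorem y_ne (S : Qd K K' f) : S.y ≠ 0 := by
  intro h
  have h1 := S.sq
  rw [h, zero_pow two_ne_zero] at h1
  exact S.f_ne ((map_eq_zero _).1 h1.symm)

variable (S : Qd K K' f)

noncomputable def a (x : K') : K := Classical.choose (S.span x)

noncomputable def b (x : K') : K := Classical.choose (Classical.choose_spec (S.span x))

theorem spec (x : K') : x = algebraMap K K' (S.a x) + algebraMap K K' (S.b x) * S.y :=
  Classical.choose_spec (Classical.choose_spec (S.span x))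

theorem coords_unique {a b a' b' : K} (h : algebraMap K K' a + algebraMap K K' b * S.y =
    algebraMap K K' a' + algebraMap K K' b' * S.y) : a = a' ∧ b = b' := by
  have hb : b = b' := by
    by_contra hne
    have h1 : algebraMap K K' (b - b') ≠ 0 := map_ne_zero' (sub_ne_zero.2 hne)
    have h2 : S.y = algebraMap K K' ((a' - a) / (b - b')) := by
      rw [map_div₀, eq_div_iff h1, map_sub, map_sub]
      linear_combination h
    apply S.irr ((a' - a) / (b - b'))
    apply (algebraMap K K').injective
    rw [map_pow, ← h2, S.sq]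
  refine ⟨(algebraMap K K').injective ?_, hb⟩
  rw [hb] at h
  exact add_right_cancel h

theorem ab_eq {x : K'} {a b : K} (h : x = algebraMap K K' a + algebraMap K K' b * S.y) :
    S.a x = a ∧ S.b x = b := by
  apply S.coords_unique
  rw [← S.spec x, ← h]

/-- the conjugate -/
noncomputable def conj (x : K') : K' := algebraMap K K' (S.a x) - algebraMap K K' (S.b x) * S.y

theorem conj_eq (a b : K) : S.conj (algebraMap K K' a + algebraMap K K' b * S.y) =
    algebraMap K K' a - algebraMap K K' b * S.y := by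
  obtain ⟨h1, h2⟩ := S.ab_eq (rfl : algebraMap K K' a + algebraMap K K' b * S.y = _)
  rw [conj, h1, h2]

theorem conj_K (a : K) : S.conj (algebraMap K K' a) = algebraMap K K' a := by
  have := S.conj_eq a 0
  rwa [map_zero, zero_mul, add_zero, sub_zero] at this

theorem conj_y : S.conj S.y = -S.y := by
  have := S.conj_eq 0 1
  rwa [map_zero, map_one, one_mul, zero_add, zero_sub] at this

theorem conj_conj (x : K') : S.conj (S.conj x) = x := by
  have h1 : S.conj x = algebraMap K K' (S.a x) + algebraMap K K' (-S.b x) * S.y := by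
    rw [conj, map_neg]
    ring
  rw [h1, S.conj_eq, map_neg, neg_mul, sub_neg_eq_add, ← S.spec x]

/-- the automorphism -/
noncomputable def sig : K' ≃+* K' where
  toFun := S.conj
  invFun := S.conj
  left_inv := S.conj_conj
  right_inv := S.conj_conj
  map_mul' x z := by
    have e : x * z = algebraMap K K' (S.a x * S.a z + S.b x * S.b z * f) +
        algebraMap K K' (S.a x * S.b z + S.b x * S.a z) * S.y := by
      conv_lhs => rw [S.spec x, S.spec z]
      simp only [map_add, map_mul, ← S.sq]
      ring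
    rw [e, S.conj_eq, conj, conj]
    simp only [map_add, map_mul, ← S.sq]
    ring
  map_add' x z := by
    have e : x + z = algebraMap K K' (S.a x + S.a z) +
        algebraMap K K' (S.b x + S.b z) * S.y := by
      conv_lhs => rw [S.spec x, S.spec z]
      rw [map_add, map_add]
      ring
    rw [e, S.conj_eq, conj, conj, map_add, map_add]
    ring

theorem sig_apply (x : K') : S.sig x = S.conj x := rfl

/-- the Kummer structure -/
noncomputable def km (k : Type*) [Field k] [Algebra k K] [Algebra k K'] : Km k K K' 2 where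
  σ := S.sig
  σK a := S.conj_K a
  fix x hx := by
    refine ⟨S.a x, ?_⟩
    have h1 : S.conj x = x := hx
    have h2 : S.b x = 0 := by
      have h3 : algebraMap K K' (S.a x) + algebraMap K K' (-S.b x) * S.y =
          algebraMap K K' (S.a x) + algebraMap K K' (S.b x) * S.y := by
        rw [← S.spec x, map_neg]
        rw [conj] at h1
        linear_combination h1
      have h4 := (S.coords_unique h3).2
      have h5 : 2 * S.b x = 0 := by linear_combination -h4
      exact (mul_eq_zero.1 h5).resolve_left S.two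
    have h3 := S.spec x
    rw [h2, map_zero, zero_mul, add_zero] at h3
    exact h3.symm
  per x := S.conj_conj x
  n_ne := by exact_mod_cast two_ne_of_algebra S.two
  θ := S.y
  θ_ne := S.y_ne
  ζ := -1
  prim := prim_neg_one (two_ne_of_algebra S.two)
  σθ := by
    show S.conj S.y = _
    rw [S.conj_y, map_neg, map_one, neg_one_mul]

/-- scaling of the generator -/
theorem scale (S : Qd K K' f) {h : K} (hh : h ≠ 0) :
    ∃ S' : Qd K K' (f * h ^ 2), S'.y = S.y * algebraMap K K' h := by
  have hh' : algebraMap K K' h ≠ 0 := map_ne_zero' hh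
  refine ⟨{ two := S.two, y := S.y * algebraMap K K' h, sq := ?_, irr := ?_, span := ?_ }, rfl⟩
  · rw [mul_pow, S.sq, map_mul, map_pow]
  · intro a ha
    apply S.irr (a / h)
    rw [div_pow, ha]
    field_simp
  · intro x
    refine ⟨S.a x, S.b x / h, ?_⟩
    conv_lhs => rw [S.spec x]
    rw [map_div₀]
    field_simp

end alg

section places

variable {k K K' : Type} [Field k] [Finite k] [Field K] [Field K'] [Algebra k K] [Algebra k K']
  [Algebra K K'] [IsScalarTower k K K'] {f : K}

theorem km_Θ (S : Qd K K' f) : (S.km k).Θ = f := by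
  apply (algebraMap K K').injective
  rw [(S.km k).Θ_spec]
  exact S.sq

theorem finite (S : Qd K K' f) : Module.Finite K K' := by
  classical
  refine ⟨⟨({1, S.y} : Finset K'), ?_⟩⟩
  rw [eq_top_iff]
  rintro x -
  rw [S.spec x]
  refine Submodule.add_mem _ ?_ ?_
  · rw [← mul_one (algebraMap K K' (S.a x)), ← Algebra.smul_def]
    exact Submodule.smul_mem _ _ (Submodule.subset_span (by simp))
  · rw [← Algebra.smul_def]
    exact Submodule.smul_mem _ _ (Submodule.subset_span (by simp))

theorem finrank_le (S : Qd K K' f) : Module.finrank K K' ≤ 2 := by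
  classical
  have h1 : Submodule.span K (({1, S.y} : Finset K') : Set K') = ⊤ := by
    rw [eq_top_iff]
    rintro x -
    rw [S.spec x]
    refine Submodule.add_mem _ ?_ ?_
    · rw [← mul_one (algebraMap K K' (S.a x)), ← Algebra.smul_def]
      exact Submodule.smul_mem _ _ (Submodule.subset_span (by simp))
    · rw [← Algebra.smul_def]
      exact Submodule.smul_mem _ _ (Submodule.subset_span (by simp))
  have h2 : Module.finrank K (Submodule.span K (({1, S.y} : Finset K') : Set K')) ≤
      ({1, S.y} : Finset K').card := finrank_span_finset_le_card _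
  rw [h1, finrank_top] at h2
  exact h2.trans Finset.card_le_two

theorem exists_over (S : Qd K K' f) (w : DV K') : ∃ v : DV K, Over w v := by
  have := S.finite
  exact exists_below w

theorem exists_above (S : Qd K K' f) (v : DV K) : ∃ w : DV K', Over w v := by
  have := S.finite
  exact Pool.Agent.FF.exists_above v

theorem fib_finite (S : Qd K K' f) (v : DV K) : {w : DV K' | Over w v}.Finite := by
  have := S.finite
  exact over_finite' v

theorem card_fib_le (S : Qd K K' f) (v : DV K) (A : Finset (DV K')) (hA : ∀ w ∈ A, Over w v) :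
    A.card ≤ 2 := by
  have := S.finite
  exact (card_over_le v A hA).trans S.finrank_le

/-- the order of `y` -/
theorem two_ord_y (S : Qd K K' f) (w : DV K') : 2 * w.ord S.y = w.ord (algebraMap K K' f) := by
  rw [← S.sq, w.ord_pow S.y_ne]
  norm_num

/-- the order of two -/
theorem ord_two (k : Type*) {F : Type*} [Field k] [Finite k] [Field F] [Algebra k F]
    (h2 : (2 : F) ≠ 0) (v : DV F) : v.ord (2 : F) = 0 := by
  have h := two_ne_of_algebra (k := k) h2
  rw [← map_ofNat (algebraMap k F) 2]
  exact RRD.ord_algebraMap v h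

theorem isCoprime_of_odd {z : ℤ} (h : Odd z) : IsCoprime z ((2 : ℕ) : ℤ) := by
  obtain ⟨m, hm⟩ := h
  refine ⟨1, -m, ?_⟩
  rw [hm]
  push_cast
  ring

include k in
/-- ramified places -/
theorem odd_over (S : Qd K K' f) {v : DV K} (hv : Odd (v.ord f)) : ∃ w : DV K', Over w v ∧
    (∀ w' : DV K', Over w' v → w' = w) ∧ (∀ a : K, w.ord (algebraMap K K' a) = 2 * v.ord a) ∧
      w.ord S.y = v.ord f ∧ w.resCard = v.resCard := by
  have h : IsCoprime (v.ord (S.km k).Θ) ((2 : ℕ) : ℤ) := by
    rw [S.km_Θ]
    exact isCoprime_of_odd hv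
  obtain ⟨w, hw⟩ := S.exists_above v
  obtain ⟨h1, h2⟩ := (S.km k).ram_ord h hw
  have h3 : ∀ a : K, w.ord (algebraMap K K' a) = 2 * v.ord a := by
    intro a
    by_cases ha : a = 0
    · rw [ha, map_zero, w.ord_zero, v.ord_zero, mul_zero]
    · exact h1 a ha
  have h4 : w.ord S.y = v.ord f := by
    have h5 : w.ord S.y = v.ord (S.km k).Θ := h2
    rw [h5, S.km_Θ]
  refine ⟨w, hw, fun w' hw' => ((S.km k).over_unique h hw hw').symm, h3, h4, ?_⟩
  refine resCard_eq_of_residue hw fun x hx => ?_
  obtain ⟨c, hc1, hc2⟩ := (S.km k).exists_terms hw hx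
  have h5 := hc1 0 (by norm_num)
  rw [show (S.km k).D 0 v = 0 from congrFun (S.km k).D_zero v] at h5
  refine ⟨c 0, h5, ?_⟩
  have h6 := (S.km k).G_term hw (c 1) 1
  have h7 : w.G 0 (algebraMap K K' (c 1) * S.y) := by
    have := h6.2 (hc1 1 (by norm_num))
    rwa [pow_one] at this
  have h8 : w.G 1 (algebraMap K K' (c 1) * S.y) := by
    by_cases h0 : c 1 = 0
    · rw [h0, map_zero, zero_mul]; exact DV.G_zero _
    have hne : algebraMap K K' (c 1) * S.y ≠ 0 := mul_ne_zero (map_ne_zero' h0) S.y_ne
    apply DV.G_of_le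
    have h9 := h7.le hne
    rw [w.ord_mul _ _ (map_ne_zero' h0) S.y_ne, h3, h4] at h9 ⊢
    obtain ⟨m, hm⟩ := hv
    omega
  have h9 : x - algebraMap K K' (c 0) = (x - ∑ i ∈ range 2, algebraMap K K' (c i) * (S.km k).θ ^ i) +
      algebraMap K K' (c 1) * S.y := by
    rw [sum_range_succ, sum_range_one, pow_zero, mul_one, pow_one]
    show _ = x - (_ + algebraMap K K' (c 1) * S.y) + _
    ring
  rw [h9]
  exact hc2.add h8

include k in
/-- unramified places: orders -/
theorem even_ord (S : Qd K K' f) {v : DV K} (hv : Even (v.ord f)) {w : DV K'} (hw : Over w v)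
    (a : K) : w.ord (algebraMap K K' a) = v.ord a := by
  obtain ⟨e, he, hov⟩ := hw
  obtain ⟨m, hm⟩ := hv
  obtain ⟨h, hh, hh1⟩ := v.exists_ord (-m)
  obtain ⟨S', hS'⟩ := S.scale hh
  set F : K := f * h ^ 2 with hF
  have hF0 : F ≠ 0 := S'.f_ne
  have hordF : v.ord F = 0 := by
    rw [hF, v.ord_mul _ _ S.f_ne (pow_ne_zero 2 hh), v.ord_pow hh, hh1, hm]
    push_cast
    ring
  have hu : w.ord S'.y = 0 := by
    have := S'.two_ord_y w
    rw [hov F hF0, hordF, mul_zero] at this
    omega
  have h2 : w.ord (2 : K') = 0 := by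
    refine ord_two k ?_ w
    rw [← map_ofNat (algebraMap K K') 2, Ne, map_eq_zero]
    exact S.two
  -- every order is a multiple of `e`
  have key1 : ∀ c : K, c ≠ 0 → v.ord c = 0 → e ∣ w.ord (S'.y + algebraMap K K' c) := by
    intro c hc hc0
    have hp : (S'.y + algebraMap K K' c) * (S'.y - algebraMap K K' c) =
        algebraMap K K' (F - c ^ 2) := by
      rw [map_sub, map_pow, ← S'.sq]
      ring
    have hne : F - c ^ 2 ≠ 0 := by
      intro h0
      exact S'.irr c (sub_eq_zero.1 h0).symm
    have hprod : (S'.y + algebraMap K K' c) * (S'.y - algebraMap K K' c) ≠ 0 := by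
      rw [hp]
      exact map_ne_zero' hne
    have hp1 := left_ne_zero_of_mul hprod
    have hp2 := right_ne_zero_of_mul hprod
    have hord : w.ord (S'.y + algebraMap K K' c) + w.ord (S'.y - algebraMap K K' c) =
        e * v.ord (F - c ^ 2) := by
      rw [← w.ord_mul _ _ hp1 hp2, hp, hov _ hne]
    have hcw : w.ord (algebraMap K K' c) = 0 := by rw [hov c hc, hc0, mul_zero]
    have hG1 : w.G 0 S'.y := DV.G_of_le hu.ge
    have hG2 : w.G 0 (algebraMap K K' c) := DV.G_of_le hcw.ge
    have h3 := (hG1.add hG2).le hp1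
    have h4 := (hG1.sub hG2).le hp2
    by_cases h5 : w.ord (S'.y + algebraMap K K' c) = 0
    · rw [h5]; exact dvd_zero e
    · have h6 : w.ord (S'.y - algebraMap K K' c) = 0 := by
        by_contra h7
        have h8 : w.G 1 (S'.y + algebraMap K K' c) := DV.G_of_le (by omega)
        have h9 : w.G 1 (S'.y - algebraMap K K' c) := DV.G_of_le (by omega)
        have h10 := h8.sub h9
        have h11 : S'.y + algebraMap K K' c - (S'.y - algebraMap K K' c) =
            2 * algebraMap K K' c := by ring
        rw [h11] at h10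
        have h20 : (2 : K') ≠ 0 := by
          rw [← map_ofNat (algebraMap K K') 2, Ne, map_eq_zero]
          exact S.two
        have h12 := h10.le (mul_ne_zero h20 (map_ne_zero' hc))
        rw [w.ord_mul _ _ h20 (map_ne_zero' hc), h2, hcw] at h12
        omega
      rw [h6, add_zero] at hord
      rw [hord]
      exact dvd_mul_right e _
  have key : ∀ x : K', x ≠ 0 → e ∣ w.ord x := by
    intro x hx
    set α := S'.a x with hα
    set β := S'.b x with hβ
    have hsp := S'.spec x
    rw [← hα, ← hβ] at hsp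
    by_cases ha0 : α = 0
    · have hb0 : β ≠ 0 := by
        intro hb0
        apply hx
        rw [hsp, ha0, hb0, map_zero, zero_mul, add_zero]
      rw [hsp, ha0, map_zero, zero_add, w.ord_mul _ _ (map_ne_zero' hb0) S'.y_ne, hov _ hb0, hu,
        add_zero]
      exact dvd_mul_right e _
    by_cases hb0 : β = 0
    · rw [hsp, hb0, map_zero, zero_mul, add_zero, hov _ ha0]
      exact dvd_mul_right e _
    have hby : algebraMap K K' β * S'.y ≠ 0 := mul_ne_zero (map_ne_zero' hb0) S'.y_ne
    have hoby : w.ord (algebraMap K K' β * S'.y) = e * v.ord β := by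
      rw [w.ord_mul _ _ (map_ne_zero' hb0) S'.y_ne, hov _ hb0, hu, add_zero]
    by_cases heq : w.ord (algebraMap K K' α) = w.ord (algebraMap K K' β * S'.y)
    · have h3 : v.ord α = v.ord β := by
        rw [hov _ ha0, hoby] at heq
        exact mul_left_cancel₀ he.ne' heq
      have h4 : x = algebraMap K K' β * (S'.y + algebraMap K K' (α / β)) := by
        rw [hsp, map_div₀]
        have := map_ne_zero' (K' := K') hb0
        field_simp
        ring
      have h5 : S'.y + algebraMap K K' (α / β) ≠ 0 := by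
        intro h0
        rw [h0, mul_zero] at h4
        exact hx h4
      rw [h4, w.ord_mul _ _ (map_ne_zero' hb0) h5, hov _ hb0]
      refine dvd_add (dvd_mul_right e _) (key1 _ (div_ne_zero ha0 hb0) ?_)
      rw [v.ord_div ha0 hb0, h3, sub_self]
    · have h3 := (DV.ord_add_eq_min (v := w) (map_ne_zero' ha0) hby heq).2
      rw [hsp, h3]
      rcases min_choice (w.ord (algebraMap K K' α)) (w.ord (algebraMap K K' β * S'.y)) with h | h
      · rw [h, hov _ ha0]; exact dvd_mul_right e _
      · rw [h, hoby]; exact dvd_mul_right e _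
  obtain ⟨t, ht, ht1⟩ := w.exists_one
  have h1 := key t ht
  rw [ht1] at h1
  have he1 : e = 1 := Int.eq_one_of_dvd_one he.le h1
  by_cases ha : a = 0
  · rw [ha, map_zero, w.ord_zero, v.ord_zero]
  · rw [hov a ha, he1, one_mul]

end places

end Qd

/-! ### Chinese remainders -/

/-- integral at a finite set of places, order at least `n` -/
def DV.OB {F : Type*} [Field F] (B : Finset (DV F)) (n : ℤ) : AddSubgroup F where
  carrier := {a | ∀ w ∈ B, w.G n a}
  zero_mem' := fun _ _ => DV.G_zero n
  add_mem' ha hb := fun w hw => (ha w hw).add (hb w hw)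
  neg_mem' ha := fun w hw => (ha w hw).neg

theorem DV.relIndex_OB {F : Type*} [Field F] (B : Finset (DV F)) :
    (DV.OB B 1).relIndex (DV.OB B 0) = ∏ w ∈ B, w.resCard := by
  classical
  let Φ : DV.OB B 0 →+ (∀ w : B, (w : DV F).O 0 ⧸ ((w : DV F).O 1).addSubgroupOf ((w : DV F).O 0)) :=
    { toFun := fun x w => QuotientAddGroup.mk ⟨(x : F), x.2 w w.2⟩
      map_zero' := by
        funext w
        exact (QuotientAddGroup.eq_zero_iff _).2 (AddSubgroup.zero_mem _)
      map_add' := fun x z => by
        funext w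
        rfl }
  have hker : Φ.ker = (DV.OB B 1).addSubgroupOf (DV.OB B 0) := by
    ext x
    rw [AddMonoidHom.mem_ker, AddSubgroup.mem_addSubgroupOf]
    constructor
    · intro h w hw
      have h1 := congrFun h ⟨w, hw⟩
      exact (QuotientAddGroup.eq_zero_iff _).1 h1
    · intro h
      funext w
      exact (QuotientAddGroup.eq_zero_iff _).2 (h w w.2)
  have hsurj : Function.Surjective Φ := by
    intro q
    obtain ⟨x, hx⟩ := DV.weak_approx B
      (fun w => if h : w ∈ B then (((q ⟨w, h⟩).out : (w : DV F).O 0) : F) else 0) 1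
    have hx1 : ∀ (w : DV F) (hw : w ∈ B), w.G 1 (x - ((q ⟨w, hw⟩).out : w.O 0)) := by
      intro w hw
      have := hx w hw
      rw [dif_pos hw] at this
      exact_mod_cast this
    refine ⟨⟨x, fun w hw => ?_⟩, ?_⟩
    · have h2 := ((hx1 w hw).mono (show (0 : ℤ) ≤ 1 by norm_num)).add ((q ⟨w, hw⟩).out.2)
      rwa [sub_add_cancel] at h2
    · funext w
      have h3 := QuotientAddGroup.out_eq' (q w)
      rw [← h3]
      refine (QuotientAddGroup.eq.2 ?_).symm
      rw [AddSubgroup.mem_addSubgroupOf]
      show w.1.G 1 (-((q w).out : F) + x)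
      rw [neg_add_eq_sub]
      exact hx1 w w.2
  have h1 := Nat.card_congr (QuotientAddGroup.quotientKerEquivOfSurjective Φ hsurj).toEquiv
  rw [hker, Nat.card_pi, Finset.prod_coe_sort B (fun w => Nat.card (w.O 0 ⧸ (w.O 1).addSubgroupOf (w.O 0)))] at h1
  exact h1

namespace Qd

section places

variable {k K K' : Type} [Field k] [Finite k] [Field K] [Field K'] [Algebra k K] [Algebra k K']
  [Algebra K K'] [IsScalarTower k K K'] {f : K}

include k in
theorem prod_unit (S : Qd K K' f) {v : DV K} (h0 : v.ord f = 0) {B : Finset (DV K')}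
    (hB : ∀ w, w ∈ B ↔ Over w v) : ∏ w ∈ B, w.resCard = v.resCard ^ 2 := by
  rw [← DV.relIndex_OB]
  let g : K × K →+ K' :=
    { toFun := fun p => algebraMap K K' p.1 + algebraMap K K' p.2 * S.y
      map_zero' := by simp
      map_add' := fun p q => by simp only [Prod.fst_add, Prod.snd_add, map_add]; ring }
  have hyo : ∀ w : DV K', Over w v → w.ord S.y = 0 := by
    intro w hw
    have := S.two_ord_y w
    obtain ⟨e, he, hov⟩ := hw
    rw [hov f S.f_ne, h0, mul_zero] at this
    omega
  have hmem : ∀ (n : ℤ), (n = 0 ∨ n = 1) → ∀ p : K × K,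
      g p ∈ DV.OB B n ↔ v.G n p.1 ∧ v.G n p.2 := by
    intro n hn p
    have hGn : ∀ w : DV K', Over w v → ∀ a : K, w.G n (algebraMap K K' a) ↔ v.G n a := by
      intro w hw a
      rcases hn with rfl | rfl
      · exact hw.G_zero_iff a
      · exact hw.G_one_iff a
    constructor
    · intro h
      have hx : ∀ w : DV K', Over w v → w.G n (g p) := fun w hw => h w ((hB w).2 hw)
      obtain ⟨w, hw⟩ := S.exists_above v
      let c : ℕ → K := fun i => if i = 0 then p.1 else p.2
      have hg : g p = ∑ l ∈ range 2, algebraMap K K' (c l) * (S.km k).θ ^ l := by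
        rw [sum_range_succ, sum_range_one, pow_zero, mul_one, pow_one]
        rfl
      constructor
      · have h1 := (S.km k).G_E hx 0 w hw
        rw [hg, (S.km k).E_coords (by norm_num), pow_zero, mul_one] at h1
        exact (hGn w hw _).1 h1
      · have h1 := (S.km k).G_E hx 1 w hw
        rw [hg, (S.km k).E_coords (by norm_num), pow_one] at h1
        have h2 : w.G n (algebraMap K K' p.2 * S.y) := h1
        have h3 : w.G 0 (S.y)⁻¹ := DV.G_of_le (by rw [w.ord_inv S.y_ne, hyo w hw]; norm_num)
        have h4 := h2.mul h3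
        rw [add_zero, mul_assoc, mul_inv_cancel₀ S.y_ne, mul_one] at h4
        exact (hGn w hw _).1 h4
    · rintro ⟨h1, h2⟩ w hwB
      have hw := (hB w).1 hwB
      have h3 : w.G 0 S.y := DV.G_of_le (hyo w hw).ge
      refine DV.G.add ((hGn w hw _).2 h1) ?_
      have h4 := ((hGn w hw _).2 h2).mul h3
      rwa [add_zero] at h4
  have hcomap : ∀ (n : ℤ), (n = 0 ∨ n = 1) → (DV.OB B n).comap g = (v.O n).prod (v.O n) := by
    intro n hn
    ext p
    rw [AddSubgroup.mem_comap, AddSubgroup.mem_prod, hmem n hn]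
    rfl
  have hle : DV.OB B 1 ≤ DV.OB B 0 := fun x hx w hw => (hx w hw).mono (by norm_num)
  have hsup : ((v.O 0).prod (v.O 0)).map g ⊔ DV.OB B 1 = DV.OB B 0 := by
    apply le_antisymm
    · refine sup_le ?_ hle
      rintro _ ⟨p, hp, rfl⟩
      exact (hmem 0 (Or.inl rfl) p).2 (AddSubgroup.mem_prod.1 hp)
    · intro x hx
      have hgx : g (S.a x, S.b x) = x := (S.spec x).symm
      refine AddSubgroup.mem_sup.2 ⟨x, ⟨(S.a x, S.b x), ?_, hgx⟩, 0, AddSubgroup.zero_mem _, by simp⟩
      rw [← hgx] at hx
      exact AddSubgroup.mem_prod.2 ((hmem 0 (Or.inl rfl) _).1 hx)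
  rw [relIndex_comap_of_sup g hsup, hcomap 1 (Or.inr rfl), relIndex_prod _ _ _ _
    (v.O_anti (by norm_num)) (v.O_anti (by norm_num)), pow_two]
  rfl

include k in
/-- unramified places: the residue fields -/
theorem prod_even (S : Qd K K' f) {v : DV K} (hv : Even (v.ord f)) {B : Finset (DV K')}
    (hB : ∀ w, w ∈ B ↔ Over w v) : ∏ w ∈ B, w.resCard = v.resCard ^ 2 := by
  obtain ⟨m, hm⟩ := hv
  obtain ⟨h, hh, hh1⟩ := v.exists_ord (-m)
  obtain ⟨S', -⟩ := S.scale hh
  refine S'.prod_unit (k := k) ?_ hB
  rw [v.ord_mul _ _ S.f_ne (pow_ne_zero 2 hh), v.ord_pow hh, hh1, hm]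
  push_cast
  ring

/-- the places above, degrees -/
theorem sum_over (S : Qd K K' f) {v : DV K} (hv : v.resCard ≠ 0) : ∃ B : Finset (DV K'),
    (∀ w, w ∈ B ↔ Over w v) ∧ (Odd (v.ord f) → ∑ w ∈ B, deg k w = deg k v) ∧
      (Even (v.ord f) → ∑ w ∈ B, deg k w = 2 * deg k v) := by
  classical
  have hfin := S.fib_finite v
  have hB : ∀ w, w ∈ hfin.toFinset ↔ Over w v := fun w => by simp
  refine ⟨hfin.toFinset, hB, fun ho => ?_, fun hev => ?_⟩
  · obtain ⟨w, hw, huniq, -, -, hres⟩ := S.odd_over (k := k) ho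
    have : hfin.toFinset = {w} := by
      ext w'
      rw [hB, mem_singleton]
      exact ⟨huniq w', fun h => h ▸ hw⟩
    rw [this, sum_singleton]
    unfold deg
    rw [hres]
  · have h1 := S.prod_even (k := k) hev hB
    have hne : ∏ w ∈ hfin.toFinset, w.resCard ≠ 0 := by
      rw [h1]
      exact pow_ne_zero 2 hv
    have h2 : ∀ w ∈ hfin.toFinset, w.resCard = Nat.card k ^ deg k w := fun w hw =>
      resCard_eq_pow k w (Finset.prod_ne_zero_iff.1 hne w hw)
    rw [prod_congr rfl h2, prod_pow_eq_pow_sum, resCard_eq_pow k v hv, ← pow_mul, mul_comm] at h1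
    exact Nat.pow_right_injective (one_lt_card k) h1

include k in
theorem resCard_ne_zero (S : Qd K K' f) {v : DV K} (hv : v.resCard ≠ 0) {w : DV K'}
    (hw : Over w v) : w.resCard ≠ 0 := by
  rcases Int.even_or_odd (v.ord f) with he | ho
  · have hfin := S.fib_finite v
    have hB : ∀ w, w ∈ hfin.toFinset ↔ Over w v := fun w => by simp
    have h1 := S.prod_even (k := k) he hB
    have hne : ∏ w ∈ hfin.toFinset, w.resCard ≠ 0 := by
      rw [h1]
      exact pow_ne_zero 2 hv
    exact Finset.prod_ne_zero_iff.1 hne w ((hB w).2 hw)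
  · obtain ⟨w', hw', huniq, -, -, hres⟩ := S.odd_over (k := k) ho
    rw [huniq w hw, hres]
    exact hv

include k in
/-- split places -/
theorem split (S : Qd K K' f) {v : DV K} {c : K} (hc : v.ord c = 0) (hc0 : c ≠ 0)
    (h : v.G 1 (f - c ^ 2)) : ∃ w₁ w₂ : DV K', w₁ ≠ w₂ ∧ Over w₁ v ∧ Over w₂ v ∧
      (∀ w, Over w v → w = w₁ ∨ w = w₂) ∧ w₁.G 1 (S.y - algebraMap K K' c) ∧
      w₂.G 1 (S.y + algebraMap K K' c) ∧ w₁.resCard = v.resCard ∧ w₂.resCard = v.resCard := by
  classical
  have h20 : (2 : K') ≠ 0 := by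
    rw [← map_ofNat (algebraMap K K') 2, Ne, map_eq_zero]
    exact S.two
  have hc2 : v.G 0 (c ^ 2) := by
    have := (DV.G_of_le (v := v) hc.ge).pow 2
    rwa [mul_zero] at this
  have hf0 : v.G 0 f := by
    have := (h.mono (show (0 : ℤ) ≤ 1 by norm_num)).add hc2
    rwa [sub_add_cancel] at this
  have hne : f - c ^ 2 ≠ 0 := fun h0 => S.irr c (sub_eq_zero.1 h0).symm
  -- the order of `f`
  have hford : v.ord f = 0 := by
    have h1 := hf0.le S.f_ne
    by_contra h2
    have h3 : v.G 1 f := DV.G_of_le (by omega)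
    have h4 := h3.sub h
    rw [sub_sub_cancel] at h4
    have h5 := h4.le (pow_ne_zero 2 hc0)
    rw [v.ord_pow hc0, hc] at h5
    norm_num at h5
  have hcase : ∀ w : DV K', Over w v → w.G 1 (S.y - algebraMap K K' c) ∨
      w.G 1 (S.y + algebraMap K K' c) := by
    intro w hw
    have hp : (S.y - algebraMap K K' c) * (S.y + algebraMap K K' c) =
        algebraMap K K' (f - c ^ 2) := by
      rw [map_sub, map_pow, ← S.sq]
      ring
    have h1 : w.G 1 ((S.y - algebraMap K K' c) * (S.y + algebraMap K K' c)) := by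
      rw [hp, hw.G_one_iff]
      exact h
    by_contra hno
    rw [not_or] at hno
    have n1 := DV.ne_zero_of_not_G hno.1
    have n2 := DV.ne_zero_of_not_G hno.2
    have h2 := (DV.not_G n1).1 hno.1
    have h3 := (DV.not_G n2).1 hno.2
    have h4 := h1.le (mul_ne_zero n1 n2)
    rw [w.ord_mul _ _ n1 n2] at h4
    omega
  have hcw : ∀ w : DV K', Over w v → w.ord (algebraMap K K' c) = 0 := by
    rintro w ⟨e, he, hov⟩
    rw [hov c hc0, hc, mul_zero]
  have hnot : ∀ w : DV K', Over w v → w.G 1 (S.y - algebraMap K K' c) →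
      w.G 1 (S.y + algebraMap K K' c) → False := by
    intro w hw h1 h2
    have h3 := h2.sub h1
    have h4 : S.y + algebraMap K K' c - (S.y - algebraMap K K' c) = 2 * algebraMap K K' c := by ring
    rw [h4] at h3
    have h5 := h3.le (mul_ne_zero h20 (map_ne_zero' hc0))
    rw [w.ord_mul _ _ h20 (map_ne_zero' hc0), ord_two k h20 w, hcw w hw] at h5
    omega
  have hconj : ∀ w : DV K', Over w v →
      ∃ w' : DV K', Over w' v ∧ ∀ x : K', w'.ord x = w.ord (S.conj x) := by
    intro w hw
    exact ⟨w.comp S.sig, hw.comp S.sig S.conj_K, fun x => rfl⟩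
  have hGc : ∀ {w w' : DV K'} {n : ℤ} {x : K'}, (∀ x : K', w'.ord x = w.ord (S.conj x)) →
      w.G n (S.conj x) → w'.G n x := by
    intro w w' n x hww hx
    rcases hx with hx | hx
    · left
      rw [← S.conj_conj x, hx]
      have := S.conj_K 0
      rwa [map_zero] at this
    · right
      rwa [hww]
  have hconj1 : S.conj (S.y - algebraMap K K' c) = -(S.y + algebraMap K K' c) := by
    have h1 : S.sig (S.y - algebraMap K K' c) = S.sig S.y - S.sig (algebraMap K K' c) := map_sub _ _ _
    rw [S.sig_apply, S.sig_apply, S.sig_apply, S.conj_y, S.conj_K] at h1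
    rw [h1]
    ring
  have hconj2 : S.conj (S.y + algebraMap K K' c) = -(S.y - algebraMap K K' c) := by
    have h1 : S.sig (S.y + algebraMap K K' c) = S.sig S.y + S.sig (algebraMap K K' c) := map_add _ _ _
    rw [S.sig_apply, S.sig_apply, S.sig_apply, S.conj_y, S.conj_K] at h1
    rw [h1]
    ring
  -- the two places
  obtain ⟨w₁, w₂, h1, h2, h3, h4⟩ : ∃ w₁ w₂ : DV K', Over w₁ v ∧ Over w₂ v ∧
      w₁.G 1 (S.y - algebraMap K K' c) ∧ w₂.G 1 (S.y + algebraMap K K' c) := by
    obtain ⟨w, hw⟩ := S.exists_above v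
    obtain ⟨w', hw', hww⟩ := hconj w hw
    rcases hcase w hw with h1 | h1
    · refine ⟨w, w', hw, hw', h1, hGc hww ?_⟩
      rw [hconj2]
      exact h1.neg
    · refine ⟨w', w, hw', hw, hGc hww ?_, h1⟩
      rw [hconj1]
      exact h1.neg
  have hne12 : w₁ ≠ w₂ := fun h => hnot w₁ h1 h3 (h ▸ h4)
  have hres : ∀ (w : DV K') (c' : K), Over w v → v.ord c' = 0 → w.G 1 (S.y - algebraMap K K' c') →
      w.resCard = v.resCard := by
    intro w c' hw hc' hwc
    refine resCard_eq_of_residue hw fun x hx => ?_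
    obtain ⟨d, hd1, hd2⟩ := (S.km k).exists_terms hw hx
    have hD : ∀ i, (S.km k).D i v = 0 := by
      intro i
      unfold Km.D
      rw [S.km_Θ, hford, mul_zero, Int.zero_ediv, neg_zero]
    have e0 := hd1 0 (by norm_num)
    have e1 := hd1 1 (by norm_num)
    rw [hD] at e0 e1
    have hcG : v.G 0 c' := DV.G_of_le hc'.ge
    refine ⟨d 0 + d 1 * c', ?_, ?_⟩
    · have := e1.mul hcG
      rw [add_zero] at this
      exact e0.add this
    · have h9 : x - algebraMap K K' (d 0 + d 1 * c') =
          (x - ∑ i ∈ range 2, algebraMap K K' (d i) * (S.km k).θ ^ i) +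
          algebraMap K K' (d 1) * (S.y - algebraMap K K' c') := by
        rw [sum_range_succ, sum_range_one, pow_zero, mul_one, pow_one, map_add, map_mul]
        show _ = x - (_ + algebraMap K K' (d 1) * S.y) + _
        ring
      rw [h9]
      have := ((hw.G_zero_iff (d 1)).2 e1).mul hwc
      rw [zero_add] at this
      exact hd2.add this
  refine ⟨w₁, w₂, hne12, h1, h2, fun w hw => ?_, h3, h4, hres w₁ c h1 hc h3,
    hres w₂ (-c) h2 (by rw [v.ord_neg, hc]) ?_⟩
  · by_contra hno
    rw [not_or] at hno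
    have h5 := S.card_fib_le v {w, w₁, w₂} (by
      intro u hu
      simp only [mem_insert, mem_singleton] at hu
      rcases hu with rfl | rfl | rfl
      · exact hw
      · exact h1
      · exact h2)
    rw [card_insert_of_notMem (by simp [hno.1, hno.2]), card_pair hne12] at h5
    omega
  · rw [map_neg, sub_neg_eq_add]
    exact h4

/-- **The genus.** -/
theorem cv (S : Qd K K' f) {g : ℕ} (C : Cv k K g) (hodd : ∃ v : DV K, Odd (v.ord f)) :
    ∃ g' : ℕ, Cv k K' g' ∧
      2 * (g' + 1) = 4 * g + dgS (Nat.card k) {v : DV K | Odd (v.ord f)} := by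
  classical
  obtain ⟨v₀, hv₀⟩ := hodd
  set E : DV K →₀ ℤ := RRD.divF k C f S.f_ne with hE
  have hEv : ∀ v, E v = v.ord f := fun v => rfl
  set D : DV K →₀ ℤ := E.mapRange (fun z => -(z / 2)) (by simp) with hD
  have hDv : ∀ v, D v = -(v.ord f / 2) := fun v => by rw [hD, Finsupp.mapRange_apply, hEv]
  set R : ℕ := dgS (Nat.card k) {v : DV K | Odd (v.ord f)} with hR
  have hsub : {v : DV K | Odd (v.ord f)} ⊆ (E.support : Set (DV K)) := by
    intro v hv
    rw [mem_coe, Finsupp.mem_support_iff, hEv]
    intro h0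
    have : Odd (v.ord f) := hv
    rw [h0] at this
    exact absurd this (by decide)
  have hRsum : R = ∑ v ∈ E.support.filter (fun v => Odd (v.ord f)), v.deg (Nat.card k) := by
    have hset : {v : DV K | Odd (v.ord f)} =
        ((E.support.filter (fun v => Odd (v.ord f)) : Finset (DV K)) : Set (DV K)) := by
      ext v
      rw [mem_coe, mem_filter]
      constructor
      · intro h
        exact ⟨Finset.mem_coe.1 (hsub h), h⟩
      · exact fun h => h.2
    rw [hR]
    unfold dgS
    rw [hset, finsum_mem_coe_finset]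
  have hdegE : (∑ v ∈ E.support, (v.ord f) * (v.deg (Nat.card k) : ℤ)) = 0 := RRD.degZ_divF C S.f_ne
  have hdegD : RRD.degZ k D = ∑ v ∈ E.support, (-(v.ord f / 2)) * (v.deg (Nat.card k) : ℤ) := by
    unfold RRD.degZ
    rw [Finsupp.sum_of_support_subset D (s := E.support) ?_ _ (by simp)]
    · refine sum_congr rfl fun v _ => ?_
      rw [hDv]
    · rw [hD]
      exact Finsupp.support_mapRange
  have h2 : 2 * RRD.degZ k D = R := by
    have h3 : (R : ℤ) = ∑ v ∈ E.support, (v.ord f % 2) * (v.deg (Nat.card k) : ℤ) := by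
      rw [hRsum, Nat.cast_sum, sum_filter]
      refine sum_congr rfl fun v _ => ?_
      split_ifs with h
      · rw [Int.odd_iff.1 h, one_mul]
      · rw [Int.not_odd_iff_even, Int.even_iff] at h
        rw [h, zero_mul]
    rw [h3, hdegD, mul_sum]
    have h4 : ∑ v ∈ E.support, 2 * (-(v.ord f / 2) * (v.deg (Nat.card k) : ℤ)) -
        ∑ v ∈ E.support, (v.ord f % 2) * (v.deg (Nat.card k) : ℤ) =
        -∑ v ∈ E.support, (v.ord f) * (v.deg (Nat.card k) : ℤ) := by
      rw [← sum_sub_distrib, ← sum_neg_distrib]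
      refine sum_congr rfl fun v _ => ?_
      have := Int.emod_add_mul_ediv (v.ord f) 2
      linear_combination (-(v.deg (Nat.card k) : ℤ)) * this
    rw [hdegE, neg_zero] at h4
    linarith
  have hRpos : 1 ≤ R := by
    rw [hRsum]
    have h5 : v₀ ∈ E.support.filter (fun v => Odd (v.ord f)) := by
      rw [mem_filter]
      exact ⟨Finset.mem_coe.1 (hsub hv₀), hv₀⟩
    have h6 := single_le_sum (f := fun v : DV K => v.deg (Nat.card k))
      (fun _ _ => Nat.zero_le _) h5
    exact (C.res v₀).1.trans h6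
  obtain ⟨d, hd⟩ : ∃ d : ℕ, RRD.degZ k D = d + 1 := ⟨(RRD.degZ k D - 1).toNat, by omega⟩
  have hcard := hCard_of_degZ C D d hd
  have h1' : IsCoprime (v₀.ord (S.km k).Θ) ((2 : ℕ) : ℤ) := by
    rw [S.km_Θ]
    exact isCoprime_of_odd hv₀
  have hcv : Cv k K' (∑ i ∈ range 2, if i = 0 then g else g + d) := by
    refine (S.km k).cvUp C h1' fun i hi => ?_
    by_cases h0 : i = 0
    · subst h0
      rw [(S.km k).D_zero, if_pos rfl]
      exact RRD.hgen C
    · have hi1 : i = 1 := by omega
      subst hi1
      rw [if_neg h0, ← hcard]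
      congr 1
      funext v
      rw [hDv]
      unfold Km.D
      rw [S.km_Θ]
      push_cast
      rw [one_mul]
  refine ⟨_, hcv, ?_⟩
  rw [sum_range_succ, sum_range_one, if_pos rfl, if_neg one_ne_zero]
  have h7 : (R : ℤ) = 2 * (d + 1) := by rw [← h2, hd]
  omega

theorem isFF (S : Qd K K' f) (h : IsFF k K) {g' : ℕ} (C' : Cv k K' g') : IsFF k K' :=
  IsFF.ofFinite h S.finite C'

/-- the rational places above -/
theorem rat_of_resCard {v : DV K} {w : DV K'} (hv : v.Rat k) (h : w.resCard = v.resCard) :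
    w.Rat k := by
  have h1 := (rational_iff k v).2 hv
  rw [← h] at h1
  exact (rational_iff k w).1 h1

end places

end Qd

end Pool.Agent.FF
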