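import Pool.Agent.FO.Sset

/-! # The splitting set of the Garcia - Stichtenoth - Rueck tower for more primes -/

set_option autoImplicit false
set_option maxRecDepth 8000

namespace Pool.Agent.FF

namespace Sset

open Polynomial

theorem hd_of {k : Type} [Field k] {p m N : ℕ} {h : k → k} {P : k[X]}
    (hd : P ∣ X ^ N - 1) (hdeg : P.natDegree = m) (hev : ∀ t, P.eval t = h t)
    (clo : ∀ v s : k, 4 * v * s = (v + 1) ^ 2 → (4 * v) ^ m * h s = h (v ^ 2))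
    (cube : ∀ t, h t = 0 → (4 * t * (1 - t)) ^ ((p ^ 2 - 1) / 3) = 1) (zero : h 0 ≠ 0)
    (one : h 1 ≠ 0) (hm : 2 * m = p - 1) (hN : 4 * N = p ^ 2 - 1) (hmN : m ≤ N)
    (h3 : 3 ∣ p ^ 2 - 1) (hp2 : p % 2 = 1) (hp1 : 1 < p) : HD k p m N h := by
  obtain ⟨Q, hQ⟩ := hd
  have hN0 : N ≠ 0 := by
    rintro rfl
    have : 1 < p ^ 2 := Nat.one_lt_pow two_ne_zero hp1
    omega
  have hne : (X ^ N - 1 : k[X]) ≠ 0 := (monic_X_pow_sub_C (1 : k) hN0).ne_zero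
  have hP0 : P ≠ 0 := by
    rintro rfl
    rw [zero_mul] at hQ
    exact hne hQ
  have hQ0 : Q ≠ 0 := by
    rintro rfl
    rw [mul_zero] at hQ
    exact hne hQ
  have hdQ : Q.natDegree = N - m := by
    have h1 := congrArg natDegree hQ
    rw [natDegree_mul hP0 hQ0, hdeg] at h1
    have h2 : (X ^ N - 1 : k[X]).natDegree = N := natDegree_X_pow_sub_C (r := (1 : k))
    rw [h2] at h1
    omega
  refine ⟨⟨P, hdeg.le, hev⟩, ⟨Q, hdQ.le, fun t => ?_⟩, clo, cube, zero, one, hm, hN, hmN, h3, hp2, hp1⟩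
  have h1 := congrArg (eval t) hQ
  rw [eval_mul, hev] at h1
  rw [← h1]
  simp

/-- Hasse polynomial, `p = 17` -/
def h17 {R : Type*} [CommRing R] (t : R) : R :=
  1 + 13*t + 2*t^2 + 8*t^3 + 4*t^4 + 8*t^5 + 2*t^6 + 13*t^7 + t^8

theorem h17_dvd {R : Type*} [CommRing R] (hp : ((17 : ℕ) : R) = 0) (t : R) :
    h17 t ∣ t ^ 72 - 1 := by
  push_cast at hp
  have e1 : h17 t ∣ t ^ 1 - t := ⟨0, by ring⟩
  have e2 : h17 t ∣ t ^ 2 - (t^2) := by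
    obtain ⟨c, hc⟩ := e1
    exact ⟨c * (t ^ 1 + (t)) +
      (0), by
      unfold h17 at hc ⊢
      linear_combination (t ^ 1 + (t)) * hc + (0) * hp⟩
  have e4 : h17 t ∣ t ^ 4 - (t^4) := by
    obtain ⟨c, hc⟩ := e2
    exact ⟨c * (t ^ 2 + (t^2)) +
      (0), by
      unfold h17 at hc ⊢
      linear_combination (t ^ 2 + (t^2)) * hc + (0) * hp⟩
  have e8 : h17 t ∣ t ^ 8 - (16 + 4*t + 15*t^2 + 9*t^3 + 13*t^4 + 9*t^5 + 15*t^6 +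
      4*t^7) := by
    obtain ⟨c, hc⟩ := e4
    exact ⟨c * (t ^ 4 + (t^4)) +
      (1), by
      unfold h17 at hc ⊢
      linear_combination (t ^ 4 + (t^4)) * hc + ((-1) +
      (-1)*t + (-1)*t^2 + (-1)*t^3 + (-1)*t^4 + (-1)*t^5 + (-1)*t^6 + (-1)*t^7) * hp⟩
  have e9 : h17 t ∣ t ^ 9 - (13 + 15*t + 13*t^2 + 10*t^4 + 15*t^5 + t^6 +
      14*t^7) := by
    obtain ⟨c, hc⟩ := e8
    exact ⟨c * t +
      (4), by
      unfold h17 at hc ⊢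
      linear_combination t * hc + ((-1) + (-3)*t +
      (-1)*t^2 + (-1)*t^3 + (-1)*t^4 + (-2)*t^5 + (-3)*t^7) * hp⟩
  have e18 : h17 t ∣ t ^ 18 - (4 + 2*t + 9*t^2 + 9*t^3 + t^4 + 8*t^5 + 7*t^6 +
      15*t^7) := by
    obtain ⟨c, hc⟩ := e9
    exact ⟨c * (t ^ 9 + (13 + 15*t + 13*t^2 +
      10*t^4 + 15*t^5 + t^6 + 14*t^7)) + (12 + 11*t + 13*t^2 + 9*t^3 + 13*t^4 + 13*t^5 +
      9*t^6), by
      unfold h17 at hc ⊢
      linear_combination (t ^ 9 + (13 + 15*t + 13*t^2 +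
      10*t^4 + 15*t^5 + t^6 + 14*t^7)) * hc + (9 + 13*t + 22*t^2 + 5*t^3 + 8*t^4 + 14*t^5 +
      17*t^6 + 12*t^7 + 7*t^8 + 14*t^9 + (-3)*t^10 + 2*t^11 + 13*t^12 + (-6)*t^13 +
      11*t^14) * hp⟩
  have e36 : h17 t ∣ t ^ 36 - (1) := by
    obtain ⟨c, hc⟩ := e18
    exact ⟨c * (t ^ 18 + (4 +
      2*t + 9*t^2 + 9*t^3 + t^4 + 8*t^5 + 7*t^6 + 15*t^7)) + (15 + 8*t + 10*t^2 + 12*t^3 +
      12*t^4 + 5*t^5 + 4*t^6), by
      unfold h17 at hc ⊢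
      linear_combination (t ^ 18 + (4 +
      2*t + 9*t^2 + 9*t^3 + t^4 + 8*t^5 + 7*t^6 + 15*t^7)) * hc + ((-11)*t + (-4)*t^2 +
      (-10)*t^3 + (-11)*t^4 + (-11)*t^5 + (-8)*t^6 + (-11)*t^7 + 6*t^9 + 6*t^10 + (-4)*t^11 +
      12*t^12 + 9*t^13 + 13*t^14) * hp⟩
  have e72 : h17 t ∣ t ^ 72 - (1) := by
    obtain ⟨c, hc⟩ := e36
    exact ⟨c * (t ^ 36 + (1)) +
      (0), by
      unfold h17 at hc ⊢
      linear_combination (t ^ 36 + (1)) * hc + (0) * hp⟩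
  exact e72

section

variable {k : Type} [Field k]

theorem h17_clo (hp : ((17 : ℕ) : k) = 0) {v s : k} (hs : 4 * v * s = (v +
      1) ^ 2) :
    (4 * v) ^ 8 * h17 s = h17 (v ^ 2) := by
  push_cast at hp
  have e : (4 * v) ^ 8 * h17 s = 1 * (4 * v) ^ 8 * (4 * v * s) ^ 0 +
      13 * (4 * v) ^ 7 * (4 * v * s) ^ 1 + 2 * (4 * v) ^ 6 * (4 * v * s) ^ 2 +
      8 * (4 * v) ^ 5 * (4 * v * s) ^ 3 + 4 * (4 * v) ^ 4 * (4 * v * s) ^ 4 +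
      8 * (4 * v) ^ 3 * (4 * v * s) ^ 5 + 2 * (4 * v) ^ 2 * (4 * v * s) ^ 6 +
      13 * (4 * v) ^ 1 * (4 * v * s) ^ 7 +
      1 * (4 * v) ^ 0 * (4 * v * s) ^ 8 := by
    unfold h17
    ring
  rw [e, hs]
  unfold h17
  linear_combination (4*v +
      51*v^2 + 364*v^3 + 1706*v^4 + 6052*v^5 + 16200*v^6 + 42732*v^7 + 66242*v^8 + 42732*v^9 +
      16200*v^10 + 6052*v^11 + 1706*v^12 + 364*v^13 + 51*v^14 + 4*v^15) * hp

theorem h17_cube (hp : ((17 : ℕ) : k) = 0) {t : k} (ht : h17 t = 0) :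
    (4 * t * (1 - t)) ^ 96 = 1 := by
  push_cast at hp
  unfold h17 at ht
  have e1 : (4 * t * (1 - t)) ^ 1 = 4*t + (-4)*t^2 := by ring
  have e2 : (4 * t * (1 - t)) ^ 2 = 16*t^2 + 2*t^3 +
      16*t^4 := by
    have h : (4 * t * (1 - t)) ^ 2 = ((4 * t * (1 - t)) ^ 1) ^ 2 := by rw [← pow_mul]
    rw [h, e1]
    linear_combination (0) * ht +
      ((-2)*t^3) * hp
  have e3 : (4 * t * (1 - t)) ^ 3 = 13*t^3 + 12*t^4 + 5*t^5 +
      4*t^6 := by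
    have h : (4 * t * (1 - t)) ^ 3 = (4 * t * (1 - t)) ^ 2 * (4 * t * (1 - t)) := by rw [← pow_succ]
    rw [h, e2]
    linear_combination (0) * ht +
      (3*t^3 + (-4)*t^4 + 3*t^5 + (-4)*t^6) * hp
  have e6 : (4 * t * (1 - t)) ^ 6 = 1 + 9*t + 6*t^2 + 12*t^3 + 8*t^4 + 7*t^5 +
      9*t^6 := by
    have h : (4 * t * (1 - t)) ^ 6 = ((4 * t * (1 - t)) ^ 3) ^ 2 := by rw [← pow_mul]
    rw [h, e3]
    linear_combination (16 +
      4*t + 12*t^2 + 2*t^3 + 16*t^4) * ht + ((-1) + (-13)*t + (-6)*t^2 + (-18)*t^3 + (-10)*t^4 +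
      (-27)*t^5 + (-8)*t^7 + 6*t^8 + (-4)*t^9 + 3*t^10 + (-10)*t^11) * hp
  have e12 : (4 * t * (1 - t)) ^ 12 = 1 := by
    have h : (4 * t * (1 - t)) ^ 12 = ((4 * t * (1 - t)) ^ 6) ^ 2 := by rw [← pow_mul]
    rw [h, e6]
    linear_combination (t +
      12*t^2 + 8*t^3 + 13*t^4) * ht + (t + 4*t^2 + (-2)*t^3 + 7*t^4 + t^5 + 14*t^6 + 12*t^7 +
      11*t^8 + 3*t^9 + 3*t^10 + (-3)*t^11 + 4*t^12) * hp
  have e24 : (4 * t * (1 - t)) ^ 24 = 1 := by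
    have h : (4 * t * (1 - t)) ^ 24 = ((4 * t * (1 - t)) ^ 12) ^ 2 := by rw [← pow_mul]
    rw [h, e12]
    linear_combination (0) * ht +
      (0) * hp
  have e48 : (4 * t * (1 - t)) ^ 48 = 1 := by
    have h : (4 * t * (1 - t)) ^ 48 = ((4 * t * (1 - t)) ^ 24) ^ 2 := by rw [← pow_mul]
    rw [h, e24]
    linear_combination (0) * ht +
      (0) * hp
  have e96 : (4 * t * (1 - t)) ^ 96 = 1 := by
    have h : (4 * t * (1 - t)) ^ 96 = ((4 * t * (1 - t)) ^ 48) ^ 2 := by rw [← pow_mul]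
    rw [h, e48]
    linear_combination (0) * ht +
      (0) * hp
  exact e96

theorem h17_one (hp : ((17 : ℕ) : k) = 0) : h17 (1 : k) ≠ 0 := by
  push_cast at hp
  have : h17 (1 : k) = 1 := by
    unfold h17
    linear_combination (3) * hp
  rw [this]
  exact one_ne_zero

theorem hd17 (hp : ((17 : ℕ) : k) = 0) : HD k 17 8 72 h17 :=
  hd_of (h17_dvd (R := k[X]) (by rw [← map_natCast (C : k →+* k[X]), hp, map_zero]) X) (by
      unfold h17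
      compute_degree!) (fun t => by simp [h17]) (fun _ _ hs => h17_clo hp hs) (fun _ ht => h17_cube hp ht)
    (by simp [h17]) (h17_one hp) (by norm_num) (by norm_num) (by norm_num) (by norm_num) (by norm_num)
    (by norm_num)

end

/-- Hasse polynomial, `p = 19` -/
def h19 {R : Type*} [CommRing R] (t : R) : R :=
  1 + 5*t + 4*t^2 + 7*t^3 + 11*t^4 + 11*t^5 + 7*t^6 + 4*t^7 + 5*t^8 + t^9

theorem h19_dvd {R : Type*} [CommRing R] (hp : ((19 : ℕ) : R) = 0) (t : R) :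
    h19 t ∣ t ^ 90 - 1 := by
  push_cast at hp
  have e1 : h19 t ∣ t ^ 1 - t := ⟨0, by ring⟩
  have e2 : h19 t ∣ t ^ 2 - (t^2) := by
    obtain ⟨c, hc⟩ := e1
    exact ⟨c * (t ^ 1 + (t)) +
      (0), by
      unfold h19 at hc ⊢
      linear_combination (t ^ 1 + (t)) * hc + (0) * hp⟩
  have e4 : h19 t ∣ t ^ 4 - (t^4) := by
    obtain ⟨c, hc⟩ := e2
    exact ⟨c * (t ^ 2 + (t^2)) +
      (0), by
      unfold h19 at hc ⊢
      linear_combination (t ^ 2 + (t^2)) * hc + (0) * hp⟩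
  have e5 : h19 t ∣ t ^ 5 - (t^5) := by
    obtain ⟨c, hc⟩ := e4
    exact ⟨c * t +
      (0), by
      unfold h19 at hc ⊢
      linear_combination t * hc + (0) * hp⟩
  have e10 : h19 t ∣ t ^ 10 - (5 + 5*t + 15*t^2 + 12*t^3 + 10*t^4 + 6*t^5 + 5*t^6 + 13*t^7 +
      2*t^8) := by
    obtain ⟨c, hc⟩ := e5
    exact ⟨c * (t ^ 5 + (t^5)) + (14 +
      t), by
      unfold h19 at hc ⊢
      linear_combination (t ^ 5 + (t^5)) * hc + ((-1) +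
      (-4)*t + (-4)*t^2 + (-6)*t^3 + (-9)*t^4 + (-9)*t^5 + (-6)*t^6 + (-4)*t^7 + (-4)*t^8 +
      (-1)*t^9) * hp⟩
  have e11 : h19 t ∣ t ^ 11 - (17 + 14*t + 16*t^2 + t^3 + 9*t^4 + 7*t^5 + 11*t^6 + 16*t^7 +
      3*t^8) := by
    obtain ⟨c, hc⟩ := e10
    exact ⟨c * t +
      (2), by
      unfold h19 at hc ⊢
      linear_combination t * hc + ((-1) + (-1)*t +
      (-1)*t^2 + (-1)*t^4 + (-1)*t^5 + (-1)*t^6 + (-1)*t^7) * hp⟩
  have e22 : h19 t ∣ t ^ 22 - (12 + 15*t + 13*t^2 + 9*t^3 + 18*t^4 + 13*t^5 + 2*t^6 + 3*t^7 +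
      15*t^8) := by
    obtain ⟨c, hc⟩ := e11
    exact ⟨c * (t ^ 11 + (17 + 14*t + 16*t^2 + t^3 +
      9*t^4 + 7*t^5 + 11*t^6 + 16*t^7 + 3*t^8)) + (11 + 7*t + 2*t^2 + 16*t^3 + 10*t^4 + 12*t^5 +
      13*t^6 + 9*t^7), by
      unfold h19 at hc ⊢
      linear_combination (t ^ 11 + (17 + 14*t +
      16*t^2 + t^3 + 9*t^4 + 7*t^5 + 11*t^6 + 16*t^7 + 3*t^8)) * hc + (14 + 21*t + 34*t^2 +
      18*t^3 + 16*t^4 + 9*t^5 + 24*t^6 + 32*t^7 + 22*t^8 + 11*t^9 + (-6)*t^10 + 5*t^12 + 11*t^13 +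
      11*t^14 + 2*t^15) * hp⟩
  have e44 : h19 t ∣ t ^ 44 - (5 + 4*t + 7*t^2 + 11*t^3 + 11*t^4 + 7*t^5 + 4*t^6 + 5*t^7 +
      t^8) := by
    obtain ⟨c, hc⟩ := e22
    exact ⟨c * (t ^ 22 + (12 + 15*t + 13*t^2 + 9*t^3 +
      18*t^4 + 13*t^5 + 2*t^6 + 3*t^7 + 15*t^8)) + (6 + 3*t + 16*t^2 + 5*t^3 + 12*t^5 + 10*t^6 +
      16*t^7), by
      unfold h19 at hc ⊢
      linear_combination (t ^ 22 + (12 + 15*t +
      13*t^2 + 9*t^3 + 18*t^4 + 13*t^5 + 2*t^6 + 3*t^7 + 15*t^8)) * hc + (7 + 17*t + 25*t^2 +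
      24*t^3 + 36*t^4 + 44*t^5 + 33*t^6 + 21*t^7 + 34*t^8 + 34*t^9 + 12*t^10 + t^11 + 17*t^12 +
      10*t^13 + (-3)*t^14 + 11*t^16) * hp⟩
  have e45 : h19 t ∣ t ^ 45 - (18) := by
    obtain ⟨c, hc⟩ := e44
    exact ⟨c * t +
      (1), by
      unfold h19 at hc ⊢
      linear_combination t * hc + ((-1)) * hp⟩
  have e90 : h19 t ∣ t ^ 90 - (1) := by
    obtain ⟨c, hc⟩ := e45
    exact ⟨c * (t ^ 45 + (18)) +
      (0), by
      unfold h19 at hc ⊢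
      linear_combination (t ^ 45 + (18)) * hc +
      (17) * hp⟩
  exact e90

section

variable {k : Type} [Field k]

theorem h19_clo (hp : ((19 : ℕ) : k) = 0) {v s : k} (hs : 4 * v * s = (v +
      1) ^ 2) :
    (4 * v) ^ 9 * h19 s = h19 (v ^ 2) := by
  push_cast at hp
  have e : (4 * v) ^ 9 * h19 s = 1 * (4 * v) ^ 9 * (4 * v * s) ^ 0 +
      5 * (4 * v) ^ 8 * (4 * v * s) ^ 1 + 4 * (4 * v) ^ 7 * (4 * v * s) ^ 2 +
      7 * (4 * v) ^ 6 * (4 * v * s) ^ 3 + 11 * (4 * v) ^ 5 * (4 * v * s) ^ 4 +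
      11 * (4 * v) ^ 4 * (4 * v * s) ^ 5 + 7 * (4 * v) ^ 3 * (4 * v * s) ^ 6 +
      4 * (4 * v) ^ 2 * (4 * v * s) ^ 7 + 5 * (4 * v) ^ 1 * (4 * v * s) ^ 8 +
      1 * (4 * v) ^ 0 * (4 * v * s) ^ 9 := by
    unfold h19
    ring
  rw [e, hs]
  unfold h19
  linear_combination (2*v +
      28*v^2 + 240*v^3 + 1488*v^4 + 7224*v^5 + 27055*v^6 + 75408*v^7 + 161137*v^8 + 227468*v^9 +
      161137*v^10 + 75408*v^11 + 27055*v^12 + 7224*v^13 + 1488*v^14 + 240*v^15 + 28*v^16 +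
      2*v^17) * hp

theorem h19_cube (hp : ((19 : ℕ) : k) = 0) {t : k} (ht : h19 t = 0) :
    (4 * t * (1 - t)) ^ 120 = 1 := by
  push_cast at hp
  unfold h19 at ht
  have e1 : (4 * t * (1 - t)) ^ 1 = 4*t + (-4)*t^2 := by ring
  have e2 : (4 * t * (1 - t)) ^ 2 = 16*t^2 + 6*t^3 +
      16*t^4 := by
    have h : (4 * t * (1 - t)) ^ 2 = ((4 * t * (1 - t)) ^ 1) ^ 2 := by rw [← pow_mul]
    rw [h, e1]
    linear_combination (0) * ht +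
      ((-2)*t^3) * hp
  have e3 : (4 * t * (1 - t)) ^ 3 = 7*t^3 + 17*t^4 + 2*t^5 +
      12*t^6 := by
    have h : (4 * t * (1 - t)) ^ 3 = (4 * t * (1 - t)) ^ 2 * (4 * t * (1 - t)) := by rw [← pow_succ]
    rw [h, e2]
    linear_combination (0) * ht +
      (3*t^3 + (-3)*t^4 + 2*t^5 + (-4)*t^6) * hp
  have e6 : (4 * t * (1 - t)) ^ 6 = 4 + 16*t + 3*t^2 + 17*t^3 + 8*t^4 + 5*t^5 + 14*t^6 + 11*t^7 +
      2*t^8 := by
    have h : (4 * t * (1 - t)) ^ 6 = ((4 * t * (1 - t)) ^ 3) ^ 2 := by rw [← pow_mul]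
    rw [h, e3]
    linear_combination (15 +
      4*t + 12*t^2 + 11*t^3) * ht + ((-1) + (-5)*t + (-5)*t^2 + (-11)*t^3 + (-16)*t^4 +
      (-18)*t^5 + (-17)*t^6 + (-6)*t^7 + t^8 + 4*t^9 + 16*t^10 + (-1)*t^11 + 7*t^12) * hp
  have e7 : (4 * t * (1 - t)) ^ 7 = 15 + 4*t + 15*t^2 + 9*t^3 + 11*t^4 + 8*t^5 +
      10*t^6 := by
    have h : (4 * t * (1 - t)) ^ 7 = (4 * t * (1 - t)) ^ 6 * (4 * t * (1 - t)) := by rw [← pow_succ]
    rw [h, e6]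
    linear_combination (4 +
      11*t) * ht + ((-1) + (-1)*t + (-2)*t^2 + (-7)*t^3 + (-4)*t^4 + (-11)*t^5 + (-9)*t^6 +
      (-3)*t^7 + (-4)*t^8 + (-5)*t^9 + (-1)*t^10) * hp
  have e14 : (4 * t * (1 - t)) ^ 14 = 4 + 15*t + t^2 + 16*t^3 + 14*t^4 + 13*t^5 + 6*t^6 + 2*t^7 +
      9*t^8 := by
    have h : (4 * t * (1 - t)) ^ 14 = ((4 * t * (1 - t)) ^ 7) ^ 2 := by rw [← pow_mul]
    rw [h, e7]
    linear_combination (12 +
      7*t + 2*t^2 + 5*t^3) * ht + (11 + 2*t + 20*t^2 + 13*t^3 + 21*t^4 + 18*t^5 + 29*t^6 +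
      18*t^7 + 21*t^8 + 14*t^9 + 13*t^10 + 7*t^11 + 5*t^12) * hp
  have e15 : (4 * t * (1 - t)) ^ 15 = 1 := by
    have h : (4 * t * (1 - t)) ^ 15 = (4 * t * (1 - t)) ^ 14 * (4 * t * (1 - t)) := by rw [← pow_succ]
    rw [h, e14]
    linear_combination (18 +
      2*t) * ht + ((-1) + (-4)*t + (-2)*t^2 + (-10)*t^3 + (-8)*t^4 + (-12)*t^5 + (-8)*t^6 +
      (-6)*t^7 + (-6)*t^8 + (-2)*t^10) * hp
  have e30 : (4 * t * (1 - t)) ^ 30 = 1 := by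
    have h : (4 * t * (1 - t)) ^ 30 = ((4 * t * (1 - t)) ^ 15) ^ 2 := by rw [← pow_mul]
    rw [h, e15]
    linear_combination (0) * ht +
      (0) * hp
  have e60 : (4 * t * (1 - t)) ^ 60 = 1 := by
    have h : (4 * t * (1 - t)) ^ 60 = ((4 * t * (1 - t)) ^ 30) ^ 2 := by rw [← pow_mul]
    rw [h, e30]
    linear_combination (0) * ht +
      (0) * hp
  have e120 : (4 * t * (1 - t)) ^ 120 = 1 := by
    have h : (4 * t * (1 - t)) ^ 120 = ((4 * t * (1 - t)) ^ 60) ^ 2 := by rw [← pow_mul]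
    rw [h, e60]
    linear_combination (0) * ht +
      (0) * hp
  exact e120

theorem h19_one (hp : ((19 : ℕ) : k) = 0) : h19 (1 : k) ≠ 0 := by
  push_cast at hp
  have : h19 (1 : k) = -1 := by
    unfold h19
    linear_combination (3) * hp
  rw [this]
  exact neg_ne_zero.2 one_ne_zero

theorem hd19 (hp : ((19 : ℕ) : k) = 0) : HD k 19 9 90 h19 :=
  hd_of (h19_dvd (R := k[X]) (by rw [← map_natCast (C : k →+* k[X]), hp, map_zero]) X) (by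
      unfold h19
      compute_degree!) (fun t => by simp [h19]) (fun _ _ hs => h19_clo hp hs) (fun _ ht => h19_cube hp ht)
    (by simp [h19]) (h19_one hp) (by norm_num) (by norm_num) (by norm_num) (by norm_num) (by norm_num)
    (by norm_num)

end

/-- Hasse polynomial, `p = 23` -/
def h23 {R : Type*} [CommRing R] (t : R) : R :=
  1 + 6*t + 12*t^2 + 16*t^3 + 18*t^4 + 4*t^5 + 4*t^6 + 18*t^7 + 16*t^8 + 12*t^9 + 6*t^10 + t^11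

theorem h23_dvd {R : Type*} [CommRing R] (hp : ((23 : ℕ) : R) = 0) (t : R) :
    h23 t ∣ t ^ 132 - 1 := by
  push_cast at hp
  have e1 : h23 t ∣ t ^ 1 - t := ⟨0, by ring⟩
  have e2 : h23 t ∣ t ^ 2 - (t^2) := by
    obtain ⟨c, hc⟩ := e1
    exact ⟨c * (t ^ 1 + (t)) +
      (0), by
      unfold h23 at hc ⊢
      linear_combination (t ^ 1 + (t)) * hc + (0) * hp⟩
  have e4 : h23 t ∣ t ^ 4 - (t^4) := by
    obtain ⟨c, hc⟩ := e2
    exact ⟨c * (t ^ 2 + (t^2)) +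
      (0), by
      unfold h23 at hc ⊢
      linear_combination (t ^ 2 + (t^2)) * hc + (0) * hp⟩
  have e8 : h23 t ∣ t ^ 8 - (t^8) := by
    obtain ⟨c, hc⟩ := e4
    exact ⟨c * (t ^ 4 + (t^4)) +
      (0), by
      unfold h23 at hc ⊢
      linear_combination (t ^ 4 + (t^4)) * hc + (0) * hp⟩
  have e16 : h23 t ∣ t ^ 16 - (5 + 11*t + 11*t^2 + 11*t^3 + 14*t^4 + 5*t^5 + 14*t^6 + 18*t^7 +
      17*t^8 + 8*t^9 + 16*t^10) := by
    obtain ⟨c, hc⟩ := e8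
    exact ⟨c * (t ^ 8 + (t^8)) +
      (18 + 19*t + 4*t^2 + t^3 + 17*t^4 +
      t^5), by
      unfold h23 at hc ⊢
      linear_combination (t ^ 8 + (t^8)) * hc + ((-1) +
      (-6)*t + (-15)*t^2 + (-24)*t^3 + (-31)*t^4 + (-26)*t^5 + (-20)*t^6 + (-32)*t^7 + (-43)*t^8 +
      (-30)*t^9 + (-22)*t^10 + (-22)*t^11 + (-15)*t^12 + (-10)*t^13 + (-5)*t^14 +
      (-1)*t^15) * hp⟩
  have e32 : h23 t ∣ t ^ 32 - (11 + 8*t + 14*t^2 + 21*t^3 + 21*t^4 + 21*t^5 + 21*t^6 + 14*t^7 +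
      8*t^8 + 11*t^9 + t^10) := by
    obtain ⟨c, hc⟩ := e16
    exact ⟨c * (t ^ 16 + (5 + 11*t +
      11*t^2 + 11*t^3 + 14*t^4 + 5*t^5 + 14*t^6 + 18*t^7 + 17*t^8 + 8*t^9 + 16*t^10)) + (14 +
      18*t + 10*t^2 + 15*t^3 + 8*t^4 + 18*t^5 + 21*t^6 + 18*t^7 + 8*t^8 +
      3*t^9), by
      unfold h23 at hc ⊢
      linear_combination (t ^ 16 + (5 + 11*t + 11*t^2 +
      11*t^3 + 14*t^4 + 5*t^5 + 14*t^6 + 18*t^7 + 17*t^8 + 8*t^9 + 16*t^10)) * hc + ((-3)*t^2 +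
      (-8)*t^3 + (-12)*t^4 + (-9)*t^5 + (-5)*t^6 + (-10)*t^7 + (-12)*t^8 + (-16)*t^9 + (-4)*t^10 +
      12*t^11 + 14*t^12 + 10*t^13 + 15*t^14 + 8*t^15 + 21*t^16 + 25*t^17 + 22*t^18 + 10*t^19 +
      11*t^20) * hp⟩
  have e33 : h23 t ∣ t ^ 33 - (22 + 5*t + 19*t^2 + 21*t^3 + 3*t^4 + 17*t^5 + 17*t^6 + 3*t^7 +
      21*t^8 + 19*t^9 + 5*t^10) := by
    obtain ⟨c, hc⟩ := e32
    exact ⟨c * t +
      (1), by
      unfold h23 at hc ⊢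
      linear_combination t * hc + ((-1) + (-1)*t^2 +
      (-1)*t^3 + (-1)*t^8 + (-1)*t^9) * hp⟩
  have e66 : h23 t ∣ t ^ 66 - (1) := by
    obtain ⟨c, hc⟩ := e33
    exact ⟨c * (t ^ 33 + (22 +
      5*t + 19*t^2 + 21*t^3 + 3*t^4 + 17*t^5 + 17*t^6 + 3*t^7 + 21*t^8 + 19*t^9 + 5*t^10)) +
      (13*t + t^2 + 9*t^3 + 15*t^4 + t^5 + 15*t^6 + 8*t^7 + 17*t^8 +
      2*t^9), by
      unfold h23 at hc ⊢
      linear_combination (t ^ 33 + (22 + 5*t + 19*t^2 +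
      21*t^3 + 3*t^4 + 17*t^5 + 17*t^6 + 3*t^7 + 21*t^8 + 19*t^9 + 5*t^10)) * hc + (21 + 9*t +
      34*t^2 + 41*t^3 + 18*t^4 + 49*t^5 + 46*t^6 + 22*t^7 + 66*t^8 + 52*t^9 + 31*t^10 + 54*t^11 +
      30*t^12 + 21*t^13 + 36*t^14 + 13*t^15 + 10*t^16 + 23*t^17 + 19*t^18 + 7*t^19 + t^20) * hp⟩
  have e132 : h23 t ∣ t ^ 132 - (1) := by
    obtain ⟨c, hc⟩ := e66
    exact ⟨c * (t ^ 66 +
      (1)) + (0), by
      unfold h23 at hc ⊢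
      linear_combination (t ^ 66 + (1)) * hc +
      (0) * hp⟩
  exact e132

section

variable {k : Type} [Field k]

theorem h23_clo (hp : ((23 : ℕ) : k) = 0) {v s : k} (hs : 4 * v * s = (v +
      1) ^ 2) :
    (4 * v) ^ 11 * h23 s = h23 (v ^ 2) := by
  push_cast at hp
  have e : (4 * v) ^ 11 * h23 s = 1 * (4 * v) ^ 11 * (4 * v * s) ^ 0 +
      6 * (4 * v) ^ 10 * (4 * v * s) ^ 1 + 12 * (4 * v) ^ 9 * (4 * v * s) ^ 2 +
      16 * (4 * v) ^ 8 * (4 * v * s) ^ 3 + 18 * (4 * v) ^ 7 * (4 * v * s) ^ 4 +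
      4 * (4 * v) ^ 6 * (4 * v * s) ^ 5 + 4 * (4 * v) ^ 5 * (4 * v * s) ^ 6 +
      18 * (4 * v) ^ 4 * (4 * v * s) ^ 7 + 16 * (4 * v) ^ 3 * (4 * v * s) ^ 8 +
      12 * (4 * v) ^ 2 * (4 * v * s) ^ 9 + 6 * (4 * v) ^ 1 * (4 * v * s) ^ 10 +
      1 * (4 * v) ^ 0 * (4 * v * s) ^ 11 := by
    unfold h23
    ring
  rw [e, hs]
  unfold h23
  linear_combination (2*v +
      39*v^2 + 460*v^3 + 3697*v^4 + 21338*v^5 + 90979*v^6 + 305040*v^7 + 864184*v^8 +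
      2119332*v^9 + 4192798*v^10 + 5593416*v^11 + 4192798*v^12 + 2119332*v^13 + 864184*v^14 +
      305040*v^15 + 90979*v^16 + 21338*v^17 + 3697*v^18 + 460*v^19 + 39*v^20 + 2*v^21) * hp

theorem h23_cube (hp : ((23 : ℕ) : k) = 0) {t : k} (ht : h23 t = 0) :
    (4 * t * (1 - t)) ^ 176 = 1 := by
  push_cast at hp
  unfold h23 at ht
  have e1 : (4 * t * (1 - t)) ^ 1 = 4*t + (-4)*t^2 := by ring
  have e2 : (4 * t * (1 - t)) ^ 2 = 16*t^2 + 14*t^3 +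
      16*t^4 := by
    have h : (4 * t * (1 - t)) ^ 2 = ((4 * t * (1 - t)) ^ 1) ^ 2 := by rw [← pow_mul]
    rw [h, e1]
    linear_combination (0) * ht +
      ((-2)*t^3) * hp
  have e4 : (4 * t * (1 - t)) ^ 4 = 3*t^4 + 11*t^5 + 18*t^6 + 11*t^7 +
      3*t^8 := by
    have h : (4 * t * (1 - t)) ^ 4 = ((4 * t * (1 - t)) ^ 2) ^ 2 := by rw [← pow_mul]
    rw [h, e2]
    linear_combination (0) * ht +
      (11*t^4 + 19*t^5 + 30*t^6 + 19*t^7 + 11*t^8) * hp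
  have e5 : (4 * t * (1 - t)) ^ 5 = 12*t^5 + 9*t^6 + 5*t^7 + 18*t^8 + 14*t^9 +
      11*t^10 := by
    have h : (4 * t * (1 - t)) ^ 5 = (4 * t * (1 - t)) ^ 4 * (4 * t * (1 - t)) := by rw [← pow_succ]
    rw [h, e4]
    linear_combination (0) * ht +
      (t^6 + t^7 + (-2)*t^8 + (-2)*t^9 + (-1)*t^10) * hp
  have e10 : (4 * t * (1 - t)) ^ 10 = 2 + 6*t + 6*t^2 + 21*t^3 + 4*t^4 + 16*t^5 + 14*t^6 + t^7 +
      9*t^8 + 13*t^9 +
      2*t^10 := by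
    have h : (4 * t * (1 - t)) ^ 10 = ((4 * t * (1 - t)) ^ 5) ^ 2 := by rw [← pow_mul]
    rw [h, e5]
    linear_combination (21 +
      6*t + 5*t^2 + t^3 + 8*t^4 + 20*t^5 + 16*t^6 + 15*t^7 + 19*t^8 + 6*t^9) * ht + ((-1) +
      (-6)*t + (-13)*t^2 + (-20)*t^3 + (-24)*t^4 + (-16)*t^5 + (-20)*t^6 + (-40)*t^7 + (-54)*t^8 +
      (-61)*t^9 + (-46)*t^10 + (-37)*t^11 + (-39)*t^12 + (-19)*t^13 + (-10)*t^14 + (-10)*t^15 +
      (-2)*t^16 + 8*t^17 + 17*t^18 + 11*t^19 + 5*t^20) * hp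
  have e11 : (4 * t * (1 - t)) ^ 11 = 19 + 15*t + 16*t^2 + 9*t^3 + t^4 + 14*t^5 + 18*t^6 +
      21*t^7 + 5*t^8 + 20*t^9 +
      19*t^10 := by
    have h : (4 * t * (1 - t)) ^ 11 = (4 * t * (1 - t)) ^ 10 * (4 * t * (1 - t)) := by rw [← pow_succ]
    rw [h, e10]
    linear_combination (4 +
      15*t) * ht + ((-1) + (-2)*t + (-6)*t^2 + (-11)*t^3 + (-11)*t^4 + (-16)*t^5 + (-2)*t^6 +
      (-7)*t^7 + (-17)*t^8 + (-12)*t^9 + (-9)*t^10 + (-6)*t^11 + (-1)*t^12) * hp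
  have e22 : (4 * t * (1 - t)) ^ 22 = 1 := by
    have h : (4 * t * (1 - t)) ^ 22 = ((4 * t * (1 - t)) ^ 11) ^ 2 := by rw [← pow_mul]
    rw [h, e11]
    linear_combination (15 +
      20*t + 4*t^2 + 19*t^3 + 19*t^4 + t^5 + 7*t^6 + 2*t^7 + 20*t^8 + 16*t^9) * ht + (15 + 20*t +
      23*t^2 + 13*t^3 + (-9)*t^4 + t^5 + 20*t^6 + 32*t^7 + 21*t^8 + 40*t^9 + 34*t^10 + 19*t^11 +
      28*t^12 + 18*t^13 + 34*t^14 + 39*t^15 + 38*t^16 + 21*t^17 + 12*t^18 + 28*t^19 +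
      15*t^20) * hp
  have e44 : (4 * t * (1 - t)) ^ 44 = 1 := by
    have h : (4 * t * (1 - t)) ^ 44 = ((4 * t * (1 - t)) ^ 22) ^ 2 := by rw [← pow_mul]
    rw [h, e22]
    linear_combination (0) * ht +
      (0) * hp
  have e88 : (4 * t * (1 - t)) ^ 88 = 1 := by
    have h : (4 * t * (1 - t)) ^ 88 = ((4 * t * (1 - t)) ^ 44) ^ 2 := by rw [← pow_mul]
    rw [h, e44]
    linear_combination (0) * ht +
      (0) * hp
  have e176 : (4 * t * (1 - t)) ^ 176 = 1 := by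
    have h : (4 * t * (1 - t)) ^ 176 = ((4 * t * (1 - t)) ^ 88) ^ 2 := by rw [← pow_mul]
    rw [h, e88]
    linear_combination (0) * ht +
      (0) * hp
  exact e176

theorem h23_one (hp : ((23 : ℕ) : k) = 0) : h23 (1 : k) ≠ 0 := by
  push_cast at hp
  have : h23 (1 : k) = -1 := by
    unfold h23
    linear_combination (5) * hp
  rw [this]
  exact neg_ne_zero.2 one_ne_zero

theorem hd23 (hp : ((23 : ℕ) : k) = 0) : HD k 23 11 132 h23 :=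
  hd_of (h23_dvd (R := k[X]) (by rw [← map_natCast (C : k →+* k[X]), hp, map_zero]) X) (by
      unfold h23
      compute_degree!) (fun t => by simp [h23]) (fun _ _ hs => h23_clo hp hs) (fun _ ht => h23_cube hp ht)
    (by simp [h23]) (h23_one hp) (by norm_num) (by norm_num) (by norm_num) (by norm_num) (by norm_num)
    (by norm_num)

end

end Sset

end Pool.Agent.FF
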