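import Pool.Agent.FO.SsetB

/-! # The splitting set of the Garcia - Stichtenoth - Rueck tower for `p = 29, 31` -/

set_option autoImplicit false
set_option maxRecDepth 8000

namespace Pool.Agent.FF

namespace Sset

open Polynomial

/-- Hasse polynomial, `p = 29` -/
def h29 {R : Type*} [CommRing R] (t : R) : R :=
  1 + 22*t + 16*t^2 + 24*t^3 + 22*t^4 + t^5 + 24*t^6 + 13*t^7 + 24*t^8 + t^9 + 22*t^10 + 24*t^11 +
    16*t^12 + 22*t^13 + t^14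

theorem h29_dvd {R : Type*} [CommRing R] (hp : ((29 : ℕ) : R) = 0) (t : R) :
    h29 t ∣ t ^ 210 - 1 := by
  push_cast at hp
  have e1 : h29 t ∣ t ^ 1 - t := ⟨0, by ring⟩
  have e2 : h29 t ∣ t ^ 2 - (t^2) := by
    obtain ⟨c, hc⟩ := e1
    exact ⟨c * (t ^ 1 + (t)) +
      (0), by
      unfold h29 at hc ⊢
      linear_combination (t ^ 1 + (t)) * hc + (0) * hp⟩
  have e3 : h29 t ∣ t ^ 3 - (t^3) := by
    obtain ⟨c, hc⟩ := e2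
    exact ⟨c * t +
      (0), by
      unfold h29 at hc ⊢
      linear_combination t * hc + (0) * hp⟩
  have e6 : h29 t ∣ t ^ 6 - (t^6) := by
    obtain ⟨c, hc⟩ := e3
    exact ⟨c * (t ^ 3 + (t^3)) +
      (0), by
      unfold h29 at hc ⊢
      linear_combination (t ^ 3 + (t^3)) * hc + (0) * hp⟩
  have e12 : h29 t ∣ t ^ 12 - (t^12) := by
    obtain ⟨c, hc⟩ := e6
    exact ⟨c * (t ^ 6 +
      (t^6)) + (0), by
      unfold h29 at hc ⊢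
      linear_combination (t ^ 6 + (t^6)) * hc +
      (0) * hp⟩
  have e13 : h29 t ∣ t ^ 13 - (t^13) := by
    obtain ⟨c, hc⟩ := e12
    exact ⟨c * t +
      (0), by
      unfold h29 at hc ⊢
      linear_combination t * hc + (0) * hp⟩
  have e26 : h29 t ∣ t ^ 26 - (20 + 26*t + 24*t^2 + 13*t^3 + 6*t^4 + 9*t^5 + 16*t^6 + 8*t^7 +
      2*t^8 + 2*t^9 + 6*t^10 + 23*t^11 + t^12 +
      14*t^13) := by
    obtain ⟨c, hc⟩ := e13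
    exact ⟨c * (t ^ 13 + (t^13)) + (9 + 8*t +
      4*t^2 + 19*t^3 + 21*t^4 + 17*t^5 + 14*t^6 + 4*t^7 + 5*t^8 + 8*t^9 + 4*t^10 + 7*t^11 +
      t^12), by
      unfold h29 at hc ⊢
      linear_combination (t ^ 13 + (t^13)) * hc + ((-1) +
      (-8)*t + (-12)*t^2 + (-16)*t^3 + (-31)*t^4 + (-37)*t^5 + (-52)*t^6 + (-63)*t^7 + (-56)*t^8 +
      (-56)*t^9 + (-60)*t^10 + (-69)*t^11 + (-70)*t^12 + (-68)*t^13 + (-68)*t^14 + (-63)*t^15 +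
      (-63)*t^16 + (-55)*t^17 + (-36)*t^18 + (-30)*t^19 + (-17)*t^20 + (-17)*t^21 + (-15)*t^22 +
      (-8)*t^23 + (-6)*t^24 + (-1)*t^25) * hp⟩
  have e52 : h29 t ∣ t ^ 52 - (11 + 16*t + 25*t^2 + 8*t^3 + 18*t^4 + 18*t^5 + 18*t^6 + 10*t^7 +
      8*t^8 + 13*t^9 + 10*t^10 + 13*t^11 + 23*t^12 +
      28*t^13) := by
    obtain ⟨c, hc⟩ := e26
    exact ⟨c * (t ^ 26 + (20 + 26*t + 24*t^2 +
      13*t^3 + 6*t^4 + 9*t^5 + 16*t^6 + 8*t^7 + 2*t^8 + 2*t^9 + 6*t^10 + 23*t^11 + t^12 +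
      14*t^13)) + (12 + 6*t + 11*t^2 + 3*t^3 + 12*t^4 + 7*t^5 + 13*t^6 + 21*t^8 + t^10 + 8*t^11 +
      22*t^12), by
      unfold h29 at hc ⊢
      linear_combination (t ^ 26 + (20 + 26*t +
      24*t^2 + 13*t^3 + 6*t^4 + 9*t^5 + 16*t^6 + 8*t^7 + 2*t^8 + 2*t^9 + 6*t^10 + 23*t^11 + t^12 +
      14*t^13)) * hc + (13 + 26*t + 44*t^2 + 39*t^3 + 28*t^4 + 19*t^5 + 20*t^6 + 23*t^7 + 8*t^8 +
      (-8)*t^9 + (-20)*t^10 + 13*t^11 + t^12 + 16*t^13 + (-15)*t^14 + (-19)*t^15 + (-25)*t^16 +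
      3*t^17 + (-28)*t^18 + (-24)*t^19 + (-19)*t^20 + (-12)*t^21 + (-4)*t^22 + (-16)*t^23 +
      4*t^24 + (-16)*t^25 + 6*t^26) * hp⟩
  have e104 : h29 t ∣ t ^ 104 - (22 + 16*t + 24*t^2 + 22*t^3 + t^4 + 24*t^5 + 13*t^6 + 24*t^7 +
      t^8 + 22*t^9 + 24*t^10 + 16*t^11 + 22*t^12 +
      t^13) := by
    obtain ⟨c, hc⟩ := e52
    exact ⟨c * (t ^ 52 + (11 + 16*t + 25*t^2 + 8*t^3 +
      18*t^4 + 18*t^5 + 18*t^6 + 10*t^7 + 8*t^8 + 13*t^9 + 10*t^10 + 13*t^11 + 23*t^12 +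
      28*t^13)) + (12 + 14*t + 21*t^2 + 9*t^3 + 26*t^4 + 11*t^5 + 24*t^6 + 8*t^7 + 5*t^8 + 8*t^9 +
      11*t^10 + 19*t^11 + t^12), by
      unfold h29 at hc ⊢
      linear_combination (t ^ 52 +
      (11 + 16*t + 25*t^2 + 8*t^3 + 18*t^4 + 18*t^5 + 18*t^6 + 10*t^7 + 8*t^8 + 13*t^9 + 10*t^10 +
      13*t^11 + 23*t^12 + 28*t^13)) * hc + (3 + 2*t + 9*t^2 + (-1)*t^3 + 4*t^4 + (-7)*t^5 +
      9*t^6 + (-3)*t^7 + (-13)*t^8 + t^9 + (-13)*t^10 + 8*t^11 + (-23)*t^12 + 18*t^13 + 17*t^14 +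
      28*t^15 + 16*t^16 + 14*t^17 + 32*t^18 + 17*t^19 + 21*t^20 + 13*t^21 + 18*t^22 + 20*t^23 +
      28*t^24 + 43*t^25 + 27*t^26) * hp⟩
  have e105 : h29 t ∣ t ^ 105 - (28) := by
    obtain ⟨c, hc⟩ := e104
    exact ⟨c * t +
      (1), by
      unfold h29 at hc ⊢
      linear_combination t * hc + ((-1)) * hp⟩
  have e210 : h29 t ∣ t ^ 210 - (1) := by
    obtain ⟨c, hc⟩ := e105
    exact ⟨c * (t ^ 105 +
      (28)) + (0), by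
      unfold h29 at hc ⊢
      linear_combination (t ^ 105 + (28)) * hc +
      (27) * hp⟩
  exact e210

section

variable {k : Type} [Field k]

theorem h29_clo (hp : ((29 : ℕ) : k) = 0) {v s : k} (hs : 4 * v * s = (v +
      1) ^ 2) :
    (4 * v) ^ 14 * h29 s = h29 (v ^ 2) := by
  push_cast at hp
  have e : (4 * v) ^ 14 * h29 s = 1 * (4 * v) ^ 14 * (4 * v * s) ^ 0 +
      22 * (4 * v) ^ 13 * (4 * v * s) ^ 1 + 16 * (4 * v) ^ 12 * (4 * v * s) ^ 2 +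
      24 * (4 * v) ^ 11 * (4 * v * s) ^ 3 + 22 * (4 * v) ^ 10 * (4 * v * s) ^ 4 +
      1 * (4 * v) ^ 9 * (4 * v * s) ^ 5 + 24 * (4 * v) ^ 8 * (4 * v * s) ^ 6 +
      13 * (4 * v) ^ 7 * (4 * v * s) ^ 7 + 24 * (4 * v) ^ 6 * (4 * v * s) ^ 8 +
      1 * (4 * v) ^ 5 * (4 * v * s) ^ 9 + 22 * (4 * v) ^ 4 * (4 * v * s) ^ 10 +
      24 * (4 * v) ^ 3 * (4 * v * s) ^ 11 + 16 * (4 * v) ^ 2 * (4 * v * s) ^ 12 +
      22 * (4 * v) ^ 1 * (4 * v * s) ^ 13 +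
      1 * (4 * v) ^ 0 * (4 * v * s) ^ 14 := by
    unfold h29
    ring
  rw [e, hs]
  unfold h29
  linear_combination (4*v +
      100*v^2 + 1364*v^3 + 12391*v^4 + 82776*v^5 + 428892*v^6 + 1790488*v^7 + 6219791*v^8 +
      18331596*v^9 + 46597625*v^10 + 105380444*v^11 + 215878783*v^12 + 411284240*v^13 +
      544723047*v^14 + 411284240*v^15 + 215878783*v^16 + 105380444*v^17 + 46597625*v^18 +
      18331596*v^19 + 6219791*v^20 + 1790488*v^21 + 428892*v^22 + 82776*v^23 + 12391*v^24 +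
      1364*v^25 + 100*v^26 + 4*v^27) * hp

theorem h29_cube (hp : ((29 : ℕ) : k) = 0) {t : k} (ht : h29 t = 0) :
    (4 * t * (1 - t)) ^ 280 = 1 := by
  push_cast at hp
  unfold h29 at ht
  have e1 : (4 * t * (1 - t)) ^ 1 = 4*t + (-4)*t^2 := by ring
  have e2 : (4 * t * (1 - t)) ^ 2 = 16*t^2 + 26*t^3 +
      16*t^4 := by
    have h : (4 * t * (1 - t)) ^ 2 = ((4 * t * (1 - t)) ^ 1) ^ 2 := by rw [← pow_mul]
    rw [h, e1]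
    linear_combination (0) * ht +
      ((-2)*t^3) * hp
  have e4 : (4 * t * (1 - t)) ^ 4 = 24*t^4 + 20*t^5 + 28*t^6 + 20*t^7 +
      24*t^8 := by
    have h : (4 * t * (1 - t)) ^ 4 = ((4 * t * (1 - t)) ^ 2) ^ 2 := by rw [← pow_mul]
    rw [h, e2]
    linear_combination (0) * ht +
      (8*t^4 + 28*t^5 + 40*t^6 + 28*t^7 + 8*t^8) * hp
  have e8 : (4 * t * (1 - t)) ^ 8 = 20 + t + 4*t^2 + 11*t^3 + 2*t^4 + 28*t^5 + 13*t^6 + 23*t^7 +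
      27*t^8 + 8*t^9 + 14*t^10 + 11*t^11 +
      3*t^12 := by
    have h : (4 * t * (1 - t)) ^ 8 = ((4 * t * (1 - t)) ^ 4) ^ 2 := by rw [← pow_mul]
    rw [h, e4]
    linear_combination (9 +
      4*t + 25*t^2) * ht + ((-1) + (-7)*t + (-9)*t^2 + (-29)*t^3 + (-24)*t^4 + (-25)*t^5 +
      (-27)*t^6 + (-9)*t^7 + (-11)*t^8 + 18*t^9 + 32*t^10 + 60*t^11 + 67*t^12 + 42*t^13 +
      43*t^14 + 14*t^15 + 19*t^16) * hp
  have e16 : (4 * t * (1 - t)) ^ 16 = 13 + 5*t + 9*t^2 + 3*t^3 + 25*t^5 + 18*t^6 + 22*t^8 +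
      20*t^9 + 11*t^11 +
      3*t^12 := by
    have h : (4 * t * (1 - t)) ^ 16 = ((4 * t * (1 - t)) ^ 8) ^ 2 := by rw [← pow_mul]
    rw [h, e8]
    linear_combination (10 +
      18*t + 2*t^2 + 18*t^3 + 24*t^4 + 4*t^5 + 11*t^6 + 10*t^7 + 7*t^8 + 13*t^9 + 9*t^10) * ht +
      (13 + (-7)*t + (-14)*t^2 + (-5)*t^3 + (-34)*t^4 + (-3)*t^5 + (-18)*t^6 + (-22)*t^7 + 9*t^8 +
      (-23)*t^9 + 5*t^10 + (-12)*t^11 + (-6)*t^12 + 20*t^13 + (-6)*t^14 + 23*t^15 + 14*t^16 +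
      17*t^18 + 3*t^19 + (-11)*t^20 + (-8)*t^21 + (-8)*t^22 + (-5)*t^23) * hp
  have e17 : (4 * t * (1 - t)) ^ 17 = 12 + 26*t + 15*t^2 + 14*t^3 + 8*t^4 + 11*t^6 + 12*t^7 +
      13*t^8 + 13*t^9 + 24*t^10 + 5*t^11 +
      4*t^12 := by
    have h : (4 * t * (1 - t)) ^ 17 = (4 * t * (1 - t)) ^ 16 * (4 * t * (1 - t)) := by rw [← pow_succ]
    rw [h, e16]
    linear_combination (17) * ht +
      ((-1) + (-12)*t + (-11)*t^2 + (-14)*t^3 + (-14)*t^4 + (-1)*t^5 + (-11)*t^6 + (-9)*t^7 +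
      (-17)*t^8 + 2*t^9 + (-14)*t^10 + (-17)*t^11 + (-8)*t^12 + (-14)*t^13 + (-1)*t^14) * hp
  have e34 : (4 * t * (1 - t)) ^ 34 = 20 + 24*t + t^2 + 21*t^3 + 14*t^4 + 20*t^5 + 16*t^6 +
      22*t^7 + 15*t^8 + 6*t^9 + 12*t^10 + 16*t^11 +
      7*t^12 := by
    have h : (4 * t * (1 - t)) ^ 34 = ((4 * t * (1 - t)) ^ 17) ^ 2 := by rw [← pow_mul]
    rw [h, e17]
    linear_combination (8 +
      18*t + 18*t^2 + 16*t^3 + 28*t^4 + 7*t^5 + 20*t^6 + 5*t^7 + 10*t^8 + 7*t^9 + 16*t^10) * ht +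
      (4 + 14*t + 17*t^2 + 7*t^3 + (-5)*t^4 + (-31)*t^5 + (-32)*t^6 + (-37)*t^7 + (-27)*t^8 +
      (-13)*t^9 + (-9)*t^10 + (-2)*t^11 + (-38)*t^12 + (-30)*t^13 + (-61)*t^14 + (-40)*t^15 +
      (-37)*t^16 + (-24)*t^17 + (-8)*t^18 + (-3)*t^19 + (-13)*t^21 + (-7)*t^22 +
      (-11)*t^23) * hp
  have e35 : (4 * t * (1 - t)) ^ 35 = 28 := by
    have h : (4 * t * (1 - t)) ^ 35 = (4 * t * (1 - t)) ^ 34 * (4 * t * (1 - t)) := by rw [← pow_succ]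
    rw [h, e34]
    linear_combination (1) * ht +
      ((-1) + 2*t + (-4)*t^3 + 2*t^4 + (-1)*t^5 + (-1)*t^7 + (-1)*t^9 + (-2)*t^10 + (-2)*t^13 +
      (-1)*t^14) * hp
  have e70 : (4 * t * (1 - t)) ^ 70 = 1 := by
    have h : (4 * t * (1 - t)) ^ 70 = ((4 * t * (1 - t)) ^ 35) ^ 2 := by rw [← pow_mul]
    rw [h, e35]
    linear_combination (0) * ht +
      (27) * hp
  have e140 : (4 * t * (1 - t)) ^ 140 = 1 := by
    have h : (4 * t * (1 - t)) ^ 140 = ((4 * t * (1 - t)) ^ 70) ^ 2 := by rw [← pow_mul]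
    rw [h, e70]
    linear_combination (0) * ht +
      (0) * hp
  have e280 : (4 * t * (1 - t)) ^ 280 = 1 := by
    have h : (4 * t * (1 - t)) ^ 280 = ((4 * t * (1 - t)) ^ 140) ^ 2 := by rw [← pow_mul]
    rw [h, e140]
    linear_combination (0) * ht +
      (0) * hp
  exact e280

theorem h29_one (hp : ((29 : ℕ) : k) = 0) : h29 (1 : k) ≠ 0 := by
  push_cast at hp
  have : h29 (1 : k) = 1 := by
    unfold h29
    linear_combination (8) * hp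
  rw [this]
  exact one_ne_zero

theorem hd29 (hp : ((29 : ℕ) : k) = 0) : HD k 29 14 210 h29 :=
  hd_of (h29_dvd (R := k[X]) (by rw [← map_natCast (C : k →+* k[X]), hp, map_zero]) X) (by
      unfold h29
      compute_degree!) (fun t => by simp [h29]) (fun _ _ hs => h29_clo hp hs) (fun _ ht => h29_cube hp ht)
    (by simp [h29]) (h29_one hp) (by norm_num) (by norm_num) (by norm_num) (by norm_num) (by norm_num)
    (by norm_num)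

end

/-- Hasse polynomial, `p = 31` -/
def h31 {R : Type*} [CommRing R] (t : R) : R :=
  1 + 8*t + 20*t^2 + 7*t^3 + t^4 + 16*t^5 + 10*t^6 + 14*t^7 + 14*t^8 + 10*t^9 + 16*t^10 + t^11 +
    7*t^12 + 20*t^13 + 8*t^14 + t^15

theorem h31_dvd {R : Type*} [CommRing R] (hp : ((31 : ℕ) : R) = 0) (t : R) :
    h31 t ∣ t ^ 240 - 1 := by
  push_cast at hp
  have e1 : h31 t ∣ t ^ 1 - t := ⟨0, by ring⟩
  have e2 : h31 t ∣ t ^ 2 - (t^2) := by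
    obtain ⟨c, hc⟩ := e1
    exact ⟨c * (t ^ 1 + (t)) +
      (0), by
      unfold h31 at hc ⊢
      linear_combination (t ^ 1 + (t)) * hc + (0) * hp⟩
  have e3 : h31 t ∣ t ^ 3 - (t^3) := by
    obtain ⟨c, hc⟩ := e2
    exact ⟨c * t +
      (0), by
      unfold h31 at hc ⊢
      linear_combination t * hc + (0) * hp⟩
  have e6 : h31 t ∣ t ^ 6 - (t^6) := by
    obtain ⟨c, hc⟩ := e3
    exact ⟨c * (t ^ 3 + (t^3)) +
      (0), by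
      unfold h31 at hc ⊢
      linear_combination (t ^ 3 + (t^3)) * hc + (0) * hp⟩
  have e7 : h31 t ∣ t ^ 7 - (t^7) := by
    obtain ⟨c, hc⟩ := e6
    exact ⟨c * t +
      (0), by
      unfold h31 at hc ⊢
      linear_combination t * hc + (0) * hp⟩
  have e14 : h31 t ∣ t ^ 14 - (t^14) := by
    obtain ⟨c, hc⟩ := e7
    exact ⟨c * (t ^ 7 +
      (t^7)) + (0), by
      unfold h31 at hc ⊢
      linear_combination (t ^ 7 + (t^7)) * hc +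
      (0) * hp⟩
  have e15 : h31 t ∣ t ^ 15 - (30 + 23*t + 11*t^2 + 24*t^3 + 30*t^4 + 15*t^5 + 21*t^6 + 17*t^7 +
      17*t^8 + 21*t^9 + 15*t^10 + 30*t^11 + 24*t^12 + 11*t^13 +
      23*t^14) := by
    obtain ⟨c, hc⟩ := e14
    exact ⟨c * t +
      (1), by
      unfold h31 at hc ⊢
      linear_combination t * hc + ((-1) + (-1)*t +
      (-1)*t^2 + (-1)*t^3 + (-1)*t^4 + (-1)*t^5 + (-1)*t^6 + (-1)*t^7 + (-1)*t^8 + (-1)*t^9 +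
      (-1)*t^10 + (-1)*t^11 + (-1)*t^12 + (-1)*t^13 + (-1)*t^14) * hp⟩
  have e30 : h31 t ∣ t ^ 30 - (4 + 20*t + 9*t^2 + 26*t^3 + 18*t^4 + 30*t^5 + 9*t^6 + 2*t^7 +
      29*t^8 + 21*t^9 + 19*t^10 + 3*t^11 + 11*t^12 + 22*t^13 +
      26*t^14) := by
    obtain ⟨c, hc⟩ := e15
    exact ⟨c * (t ^ 15 + (30 + 23*t + 11*t^2 +
      24*t^3 + 30*t^4 + 15*t^5 + 21*t^6 + 17*t^7 + 17*t^8 + 21*t^9 + 15*t^10 + 30*t^11 + 24*t^12 +
      11*t^13 + 23*t^14)) + (28 + 20*t + 26*t^2 + 25*t^4 + 6*t^5 + 19*t^6 + 5*t^7 + 18*t^8 +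
      23*t^9 + 24*t^10 + 24*t^11 + 25*t^12 +
      2*t^13), by
      unfold h31 at hc ⊢
      linear_combination (t ^ 15 + (30 + 23*t +
      11*t^2 + 24*t^3 + 30*t^4 + 15*t^5 + 21*t^6 + 17*t^7 + 17*t^8 + 21*t^9 + 15*t^10 + 30*t^11 +
      24*t^12 + 11*t^13 + 23*t^14)) * hc + (28 + 36*t + 14*t^2 + 36*t^3 + 74*t^4 + 62*t^5 +
      64*t^6 + 74*t^7 + 78*t^8 + 83*t^9 + 82*t^10 + 106*t^11 + 126*t^12 + 99*t^13 + 113*t^14 +
      128*t^15 + 97*t^16 + 91*t^17 + 89*t^18 + 58*t^19 + 72*t^20 + 58*t^21 + 53*t^22 + 59*t^23 +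
      34*t^24 + 38*t^25 + 31*t^26 + 15*t^27 + 17*t^28) * hp⟩
  have e60 : h31 t ∣ t ^ 60 - (6 + 20*t + 3*t^2 + 16*t^3 + 28*t^4 + 25*t^5 + 12*t^6 + 26*t^7 +
      14*t^8 + 29*t^9 + 18*t^10 + 8*t^11 + 3*t^12 + 7*t^13 +
      17*t^14) := by
    obtain ⟨c, hc⟩ := e30
    exact ⟨c * (t ^ 30 + (4 + 20*t + 9*t^2 +
      26*t^3 + 18*t^4 + 30*t^5 + 9*t^6 + 2*t^7 + 29*t^8 + 21*t^9 + 19*t^10 + 3*t^11 + 11*t^12 +
      22*t^13 + 26*t^14)) + (10 + 29*t + 6*t^2 + 9*t^3 + 26*t^4 + 9*t^5 + 12*t^6 + 27*t^7 +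
      26*t^8 + 16*t^9 + 12*t^10 + 10*t^11 + 14*t^12 +
      25*t^13), by
      unfold h31 at hc ⊢
      linear_combination (t ^ 30 + (4 + 20*t + 9*t^2 +
      26*t^3 + 18*t^4 + 30*t^5 + 9*t^6 + 2*t^7 + 29*t^8 + 21*t^9 + 19*t^10 + 3*t^11 + 11*t^12 +
      22*t^13 + 26*t^14)) * hc + (t + t^2 + (-5)*t^3 + 26*t^4 + 25*t^5 + 33*t^6 + 26*t^7 +
      33*t^8 + 30*t^9 + 29*t^10 + 43*t^11 + 35*t^12 + 63*t^13 + 34*t^14 + 43*t^15 + 48*t^16 +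
      66*t^17 + 67*t^18 + 47*t^19 + 14*t^21 + 56*t^22 + 36*t^23 + 26*t^24 + 3*t^25 + 14*t^26 +
      30*t^27 + 21*t^28) * hp⟩
  have e120 : h31 t ∣ t ^ 120 - (1) := by
    obtain ⟨c, hc⟩ := e60
    exact ⟨c * (t ^ 60 + (6 +
      20*t + 3*t^2 + 16*t^3 + 28*t^4 + 25*t^5 + 12*t^6 + 26*t^7 + 14*t^8 + 29*t^9 + 18*t^10 +
      8*t^11 + 3*t^12 + 7*t^13 + 17*t^14)) + (4 + 22*t + 25*t^2 + 16*t^3 + 13*t^4 + 25*t^5 +
      21*t^6 + 15*t^7 + 26*t^8 + 17*t^9 + 24*t^10 + 20*t^11 + 3*t^12 +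
      10*t^13), by
      unfold h31 at hc ⊢
      linear_combination (t ^ 60 + (6 + 20*t + 3*t^2 +
      16*t^3 + 28*t^4 + 25*t^5 + 12*t^6 + 26*t^7 + 14*t^8 + 29*t^9 + 18*t^10 + 8*t^11 + 3*t^12 +
      7*t^13 + 17*t^14)) * hc + (1 + 6*t + 5*t^2 + (-12)*t^3 + 6*t^4 + 26*t^5 + 18*t^6 + 12*t^7 +
      40*t^8 + 35*t^9 + 45*t^10 + 37*t^11 + 40*t^12 + 42*t^13 + 57*t^14 + 26*t^15 + 21*t^16 +
      35*t^17 + 31*t^18 + 24*t^19 + 6*t^20 + 8*t^21 + 5*t^22 + 11*t^23 + 3*t^24 + (-3)*t^26 +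
      5*t^27 + 9*t^28) * hp⟩
  have e240 : h31 t ∣ t ^ 240 - (1) := by
    obtain ⟨c, hc⟩ := e120
    exact ⟨c * (t ^ 120 +
      (1)) + (0), by
      unfold h31 at hc ⊢
      linear_combination (t ^ 120 + (1)) * hc +
      (0) * hp⟩
  exact e240

section

variable {k : Type} [Field k]

theorem h31_clo (hp : ((31 : ℕ) : k) = 0) {v s : k} (hs : 4 * v * s = (v +
      1) ^ 2) :
    (4 * v) ^ 15 * h31 s = h31 (v ^ 2) := by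
  push_cast at hp
  have e : (4 * v) ^ 15 * h31 s = 1 * (4 * v) ^ 15 * (4 * v * s) ^ 0 +
      8 * (4 * v) ^ 14 * (4 * v * s) ^ 1 + 20 * (4 * v) ^ 13 * (4 * v * s) ^ 2 +
      7 * (4 * v) ^ 12 * (4 * v * s) ^ 3 + 1 * (4 * v) ^ 11 * (4 * v * s) ^ 4 +
      16 * (4 * v) ^ 10 * (4 * v * s) ^ 5 + 10 * (4 * v) ^ 9 * (4 * v * s) ^ 6 +
      14 * (4 * v) ^ 8 * (4 * v * s) ^ 7 + 14 * (4 * v) ^ 7 * (4 * v * s) ^ 8 +
      10 * (4 * v) ^ 6 * (4 * v * s) ^ 9 + 16 * (4 * v) ^ 5 * (4 * v * s) ^ 10 +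
      1 * (4 * v) ^ 4 * (4 * v * s) ^ 11 + 7 * (4 * v) ^ 3 * (4 * v * s) ^ 12 +
      20 * (4 * v) ^ 2 * (4 * v * s) ^ 13 + 8 * (4 * v) ^ 1 * (4 * v * s) ^ 14 +
      1 * (4 * v) ^ 0 * (4 * v * s) ^ 15 := by
    unfold h31
    ring
  rw [e, hs]
  unfold h31
  linear_combination (2*v +
      53*v^2 + 804*v^3 + 7975*v^4 + 57270*v^5 + 317976*v^6 + 1431464*v^7 + 5414916*v^8 +
      17648338*v^9 + 50473625*v^10 + 126773532*v^11 + 276597953*v^12 + 551220598*v^13 +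
      992046363*v^14 + 1290090544*v^15 + 992046363*v^16 + 551220598*v^17 + 276597953*v^18 +
      126773532*v^19 + 50473625*v^20 + 17648338*v^21 + 5414916*v^22 + 1431464*v^23 + 317976*v^24 +
      57270*v^25 + 7975*v^26 + 804*v^27 + 53*v^28 + 2*v^29) * hp

theorem h31_cube (hp : ((31 : ℕ) : k) = 0) {t : k} (ht : h31 t = 0) :
    (4 * t * (1 - t)) ^ 320 = 1 := by
  push_cast at hp
  unfold h31 at ht
  have e1 : (4 * t * (1 - t)) ^ 1 = 4*t + (-4)*t^2 := by ring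
  have e2 : (4 * t * (1 - t)) ^ 2 = 16*t^2 + 30*t^3 +
      16*t^4 := by
    have h : (4 * t * (1 - t)) ^ 2 = ((4 * t * (1 - t)) ^ 1) ^ 2 := by rw [← pow_mul]
    rw [h, e1]
    linear_combination (0) * ht +
      ((-2)*t^3) * hp
  have e4 : (4 * t * (1 - t)) ^ 4 = 8*t^4 + 30*t^5 + 17*t^6 + 30*t^7 +
      8*t^8 := by
    have h : (4 * t * (1 - t)) ^ 4 = ((4 * t * (1 - t)) ^ 2) ^ 2 := by rw [← pow_mul]
    rw [h, e2]
    linear_combination (0) * ht +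
      (8*t^4 + 30*t^5 + 45*t^6 + 30*t^7 + 8*t^8) * hp
  have e5 : (4 * t * (1 - t)) ^ 5 = t^5 + 26*t^6 + 10*t^7 + 21*t^8 + 5*t^9 +
      30*t^10 := by
    have h : (4 * t * (1 - t)) ^ 5 = (4 * t * (1 - t)) ^ 4 * (4 * t * (1 - t)) := by rw [← pow_succ]
    rw [h, e4]
    linear_combination (0) * ht +
      (t^5 + 2*t^6 + (-2)*t^7 + t^8 + (-3)*t^9 + (-2)*t^10) * hp
  have e10 : (4 * t * (1 - t)) ^ 10 = 21 + 27*t + 8*t^2 + 3*t^3 + 23*t^4 + 17*t^5 + 9*t^6 +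
      16*t^7 + 28*t^8 + 6*t^9 + 22*t^10 + t^11 + 11*t^12 + 2*t^13 +
      13*t^14 := by
    have h : (4 * t * (1 - t)) ^ 10 = ((4 * t * (1 - t)) ^ 5) ^ 2 := by rw [← pow_mul]
    rw [h, e5]
    linear_combination (10 +
      17*t + 28*t^2 + 14*t^3 + 13*t^4 + t^5) * ht + ((-1) + (-4)*t + (-12)*t^2 + (-21)*t^3 +
      (-27)*t^4 + (-25)*t^5 + (-25)*t^6 + (-29)*t^7 + (-30)*t^8 + (-35)*t^9 + (-35)*t^10 +
      (-29)*t^11 + (-6)*t^12 + (-5)*t^13 + 11*t^14 + (-3)*t^15 + 48*t^16 + 13*t^17 + 37*t^18 +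
      9*t^19 + 29*t^20) * hp
  have e20 : (4 * t * (1 - t)) ^ 20 = 10 + 12*t + 12*t^2 + 25*t^3 + 2*t^4 + 22*t^5 + 13*t^6 +
      5*t^8 + 5*t^9 + 4*t^10 + 16*t^11 + 24*t^12 + 2*t^13 +
      13*t^14 := by
    have h : (4 * t * (1 - t)) ^ 20 = ((4 * t * (1 - t)) ^ 10) ^ 2 := by rw [← pow_mul]
    rw [h, e10]
    linear_combination (28 +
      30*t + 5*t^2 + 7*t^3 + 21*t^4 + 14*t^5 + 4*t^6 + 20*t^7 + 20*t^8 + 19*t^9 + 11*t^10 +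
      25*t^11 + 2*t^12 + 14*t^13) * ht + (13 + 28*t + 8*t^2 + (-10)*t^3 + 25*t^4 + 37*t^5 +
      10*t^6 + 10*t^7 + 47*t^8 + 34*t^9 + 14*t^10 + 23*t^11 + 32*t^12 + (-5)*t^13 + 9*t^14 +
      21*t^15 + 11*t^16 + (-7)*t^17 + 13*t^18 + (-5)*t^19 + 5*t^20 + (-20)*t^21 + 13*t^22 +
      (-17)*t^23 + 2*t^24 + (-9)*t^25 + (-1)*t^26 + (-2)*t^27 + 5*t^28) * hp
  have e40 : (4 * t * (1 - t)) ^ 40 = 1 := by
    have h : (4 * t * (1 - t)) ^ 40 = ((4 * t * (1 - t)) ^ 20) ^ 2 := by rw [← pow_mul]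
    rw [h, e20]
    linear_combination (6 +
      6*t + 30*t^2 + 14*t^3 + 24*t^4 + 25*t^5 + t^6 + 29*t^7 + t^8 + 25*t^9 + 12*t^10 + 22*t^11 +
      2*t^12 + 14*t^13) * ht + (3 + 6*t + 6*t^2 + 12*t^3 + 9*t^5 + 16*t^6 + (-13)*t^7 + 12*t^8 +
      (-25)*t^9 + (-32)*t^10 + (-16)*t^11 + (-33)*t^12 + (-15)*t^13 + (-4)*t^14 + (-14)*t^15 +
      (-20)*t^16 + 4*t^17 + (-29)*t^18 + (-20)*t^19 + (-17)*t^20 + (-20)*t^21 + (-7)*t^22 +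
      3*t^23 + 5*t^24 + 6*t^25 + 10*t^26 + (-2)*t^27 + 5*t^28) * hp
  have e80 : (4 * t * (1 - t)) ^ 80 = 1 := by
    have h : (4 * t * (1 - t)) ^ 80 = ((4 * t * (1 - t)) ^ 40) ^ 2 := by rw [← pow_mul]
    rw [h, e40]
    linear_combination (0) * ht +
      (0) * hp
  have e160 : (4 * t * (1 - t)) ^ 160 = 1 := by
    have h : (4 * t * (1 - t)) ^ 160 = ((4 * t * (1 - t)) ^ 80) ^ 2 := by rw [← pow_mul]
    rw [h, e80]
    linear_combination (0) * ht +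
      (0) * hp
  have e320 : (4 * t * (1 - t)) ^ 320 = 1 := by
    have h : (4 * t * (1 - t)) ^ 320 = ((4 * t * (1 - t)) ^ 160) ^ 2 := by rw [← pow_mul]
    rw [h, e160]
    linear_combination (0) * ht +
      (0) * hp
  exact e320

theorem h31_one (hp : ((31 : ℕ) : k) = 0) : h31 (1 : k) ≠ 0 := by
  push_cast at hp
  have : h31 (1 : k) = -1 := by
    unfold h31
    linear_combination (5) * hp
  rw [this]
  exact neg_ne_zero.2 one_ne_zero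

theorem hd31 (hp : ((31 : ℕ) : k) = 0) : HD k 31 15 240 h31 :=
  hd_of (h31_dvd (R := k[X]) (by rw [← map_natCast (C : k →+* k[X]), hp, map_zero]) X) (by
      unfold h31
      compute_degree!) (fun t => by simp [h31]) (fun _ _ hs => h31_clo hp hs) (fun _ ht => h31_cube hp ht)
    (by simp [h31]) (h31_one hp) (by norm_num) (by norm_num) (by norm_num) (by norm_num) (by norm_num)
    (by norm_num)

end

section

variable {k : Type} [Field k]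

/-- The splitting set, `17 ≤ p ≤ 31`. -/
theorem exists_sset' {p : ℕ} (hp : p = 17 ∨ p = 19 ∨ p = 23 ∨ p = 29 ∨ p = 31)
    (hk : Nat.card k = p ^ 2) :
    ∃ S : Finset k, S.card = 2 * (p - 1) ∧ ∀ a ∈ S, a ≠ 0 ∧ a ^ 4 ≠ 1 ∧
      (∃ b ∈ S, -b ∈ S ∧ b ^ 2 * (2 * a) = a ^ 2 + 1) ∧
      ∃ Z : Finset k, Z.card = 3 ∧ ∀ z ∈ Z, z ^ 3 = 4 * a ^ 4 * (1 - a ^ 4) := by
  have h0 := char_zero_of_card hk
  rcases hp with rfl | rfl | rfl | rfl | rfl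
  · exact exists_of hk (hd17 h0)
  · exact exists_of hk (hd19 h0)
  · exact exists_of hk (hd23 h0)
  · exact exists_of hk (hd29 h0)
  · exact exists_of hk (hd31 h0)

end

end Sset

end Pool.Agent.FF
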