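import Pool.Agent.FO.WtP
import Pool.Agent.FO.Sel
import Pool.Agent.FO.LvP
import Pool.Agent.FF.Tower3

/-! # One quadratic step: genus, classes, places of degree `r`, fibres, points (upper bounds only) -/

set_option autoImplicit false
set_option linter.unusedSectionVars false

namespace Pool.Agent.FF

open Finset

/-- the data of a level without the function `x` -/
structure Lv0 (p : ℕ) (k K : Type) [Field k] [Field K] [Algebra k K] (g B C M : ℕ) : Prop where
  ff : IsFF k K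
  cv : Cv k K g
  se : Se K (2 * g + 1)
  pl : HasPlO p k K B C M

/-- `2 ≠ 0` over a field of odd characteristic -/
theorem two_ne_zero_of {p : ℕ} [Fact p.Prime] (hp : p ≠ 2) {k : Type*} [Field k] [CharP k p]
    (K : Type*) [Field K] [Algebra k K] : (2 : K) ≠ 0 := by
  have h2k : (2 : k) ≠ 0 := by
    intro h
    have h1 : ((2 : ℕ) : k) = 0 := by exact_mod_cast h
    rw [CharP.cast_eq_zero_iff k p] at h1
    exact hp ((Nat.prime_dvd_prime_iff_eq Fact.out Nat.prime_two).1 h1)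
  have : (2 : K) = algebraMap k K 2 := (map_ofNat (algebraMap k K) 2).symm
  rw [this]
  exact (_root_.map_ne_zero _).2 h2k

theorem Lv0.up {p : ℕ} [Fact p.Prime] (hp : p ≠ 2) {k : Type} [Field k] [Finite k] [CharP k p]
    {K : Type} [Field K] [Algebra k K] {g B C M : ℕ} (h : Lv0 p k K g B C M) {f : K} {R : DV K}
    (hR : R.Rat k) (hRf : Odd (R.ord f)) {O : Finset (DV K)}
    (hO : ∀ v : DV K, Odd (v.ord f) → v ∈ O) {d : ℕ} (hd : ∑ v ∈ O, v.deg (Nat.card k) ≤ d) :
    ∃ (K' : Type) (_ : Field K') (_ : Algebra k K') (_ : Algebra K K') (_ : IsScalarTower k K K')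
      (_ : Qd K K' f) (g' B' C' M' : ℕ), 2 * g' + 2 ≤ 4 * g + d ∧ Lv0 p k K' g' B' C' M' := by
  classical
  obtain ⟨hFF, hC, hSe, hPl⟩ := h
  have hchK : CharP K p := charP_of_injective_algebraMap (algebraMap k K).injective p
  have h2 : (2 : K) ≠ 0 := two_ne_zero_of hp (k := k) K
  have hf0 : f ≠ 0 := by
    rintro rfl
    rw [R.ord_zero] at hRf
    exact (by decide : ¬ Odd (0 : ℤ)) hRf
  have hirr : ∀ a : K, a ^ 2 ≠ f := by
    intro a ha
    have ha0 : a ≠ 0 := by
      rintro rfl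
      rw [zero_pow (by norm_num)] at ha
      exact hf0 ha.symm
    rw [← ha, R.ord_pow ha0] at hRf
    push_cast at hRf
    exact (Int.not_odd_iff_even.2 ⟨R.ord a, by ring⟩) hRf
  obtain ⟨K', i1, i2, i3, i4, ⟨Q⟩⟩ := exists_qd (k := k) h2 hirr
  obtain ⟨g', hC', hg'⟩ := Q.cv hC ⟨R, hRf⟩
  have hdgS : dgS (Nat.card k) {v : DV K | Odd (v.ord f)} ≤ d := by
    have hOm : {v : DV K | Odd (v.ord f)} =
        ((O.filter fun v => Odd (v.ord f) : Finset (DV K)) : Set (DV K)) := by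
      ext v
      rw [coe_filter]
      exact ⟨fun hv => ⟨hO v hv, hv⟩, fun hv => hv.2⟩
    unfold dgS
    rw [hOm, finsum_mem_coe_finset]
    exact (sum_le_sum_of_subset (filter_subset _ _)).trans hd
  exact ⟨K', i1, i2, i3, i4, Q, g', _, _, _, by omega, Q.isFF hFF hC', hC',
    Se.up_deg Q hC hC' hR hRf hSe (by omega), HasPlO.up hp Q hC hC' hR hRf le_rfl hPl⟩

section

variable {k K K' : Type} [Field k] [Finite k] [Field K] [Field K'] [Algebra k K] [Algebra k K']
  [Algebra K K'] [IsScalarTower k K K'] {f : K}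

/-- all places above finitely many ones -/
theorem Qd.fibres (Q : Qd K K' f) {g : ℕ} (hC : Cv k K g) (A : Finset (DV K)) :
    ∃ A' : Finset (DV K'), (∀ w, w ∈ A' ↔ ∃ v ∈ A, Over w v) ∧
      ∑ w ∈ A', w.deg (Nat.card k) ≤ 2 * ∑ v ∈ A, v.deg (Nat.card k) := by
  refine exists_fibers (K' := K') (Nat.card k) 2 A fun v _ => ?_
  obtain ⟨F, h1, h2, h3⟩ := Q.sum_over (k := k) (res_ne_zero (hC.res v).2)
  refine ⟨F, h1, ?_⟩
  rcases Int.even_or_odd (v.ord f) with h | h
  · exact (h3 h).le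
  · have := h2 h
    change _ ≤ 2 * deg k v
    change ∑ w ∈ F, deg k w ≤ _
    omega

/-- the same with ramified places -/
theorem Qd.fibres_odd (Q : Qd K K' f) {g : ℕ} (hC : Cv k K g) (A : Finset (DV K))
    (hA : ∀ v ∈ A, Odd (v.ord f)) :
    ∃ A' : Finset (DV K'), (∀ w, w ∈ A' ↔ ∃ v ∈ A, Over w v) ∧
      ∑ w ∈ A', w.deg (Nat.card k) ≤ ∑ v ∈ A, v.deg (Nat.card k) := by
  obtain ⟨A', h1, h2⟩ := exists_fibers (K' := K') (Nat.card k) 1 A fun v hv => by
    obtain ⟨F, h1, h3, -⟩ := Q.sum_over (k := k) (res_ne_zero (hC.res v).2)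
    exact ⟨F, h1, by rw [one_mul]; exact (h3 (hA v hv)).le⟩
  exact ⟨A', h1, by rwa [one_mul] at h2⟩

/-- a rational place over a rational one where `f` is a square -/
theorem Qd.lift (Q : Qd K K' f) {v : DV K} (hv : v.Rat k) {c : k}
    (h : v.G 1 (f - algebraMap k K c ^ 2)) (hc : c ≠ 0 ∨ Odd (v.ord f)) :
    ∃ w : DV K', Over w v ∧ w.Rat k ∧ w.G 1 (Q.y - algebraMap k K' c) := by
  by_cases hc0 : c = 0
  · subst hc0
    have ho : Odd (v.ord f) := hc.resolve_left (fun h => h rfl)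
    obtain ⟨w, hw, -, -, hwy, hres⟩ := Q.odd_over (k := k) ho
    refine ⟨w, hw, Qd.rat_of_resCard (K := K) hv hres, ?_⟩
    rw [map_zero, zero_pow (by norm_num), sub_zero] at h
    rw [map_zero, sub_zero]
    refine DV.G_of_le ?_
    rw [hwy]
    exact h.le Q.f_ne
  · have hcK : algebraMap k K c ≠ 0 := (_root_.map_ne_zero _).2 hc0
    obtain ⟨w₁, w₂, -, ho1, -, -, hy1, -, hr1, -⟩ := Q.split (k := k) (v := v)
      (c := algebraMap k K c) (v.ord_const c) hcK h
    rw [← IsScalarTower.algebraMap_apply] at hy1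
    exact ⟨w₁, ho1, Qd.rat_of_resCard (K := K) hv hr1, hy1⟩

end

end Pool.Agent.FF
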