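import Pool.Agent.FO.BasQ
import Pool.Agent.FO.CubQ

/-! # The towers over the levels `3 ^ b`, from the sets, the base and the class bound -/

set_option autoImplicit false

namespace Pool.Agent.FF

theorem exists_om {p : ℕ} [Fact p.Prime] (hp : 3 < p) {k : Type} [Field k] [Finite k]
    (hk : Nat.card k = p ^ 2) : ∃ om : k, om ^ 2 + om + 1 = 0 := by
  classical
  have := Fintype.ofFinite k
  have hpp : p.Prime := Fact.out
  have h3 : ¬ 3 ∣ p := fun h => by
    have := (Nat.prime_dvd_prime_iff_eq Nat.prime_three hpp).1 h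
    omega
  have hc : Fintype.card kˣ = p ^ 2 - 1 := by
    rw [Fintype.card_units, ← Nat.card_eq_fintype_card, hk]
  have hd : 3 ∣ Fintype.card kˣ := by
    rw [hc]
    have h1 : p % 3 = 1 ∨ p % 3 = 2 := by omega
    have h2 : 1 ≤ p ^ 2 := Nat.one_le_pow _ _ hpp.pos
    have h4 : p ^ 2 % 3 = 1 := by
      rcases h1 with h | h <;> simp [Nat.pow_mod, h]
    omega
  have : Fact (Nat.Prime 3) := ⟨Nat.prime_three⟩
  obtain ⟨u, hu⟩ := exists_prime_orderOf_dvd_card (G := kˣ) 3 hd
  have h1 : u ^ 3 = 1 := by rw [← hu]; exact pow_orderOf_eq_one u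
  have h2 : u ≠ 1 := by
    rintro rfl
    rw [orderOf_one] at hu
    omega
  refine ⟨(u : k), ?_⟩
  have h5 : (u : k) - 1 ≠ 0 := fun h => h2 (Units.ext (by rw [Units.val_one]; linear_combination h))
  have h6 : (u : k) ^ 3 = 1 := by
    rw [← Units.val_pow_eq_pow_val, h1, Units.val_one]
  apply mul_left_cancel₀ h5
  linear_combination h6

theorem cubStep {p : ℕ} [Fact p.Prime] (hp : 3 < p) {k : Type} [Field k] [Finite k] [CharP k p]
    (hk : Nat.card k = p ^ 2) {S W3 : Finset k} (hW : WSet S W3) : CubStep p k S W3 := by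
  obtain ⟨om, hom⟩ := exists_om hp hk
  intro K _ _ x W g D t B C M h
  exact LvQ.cub hp hom hW h

/-- the base over `k` with the values in `S` and `W3` -/
def BaseQs (p : ℕ) (k : Type) [Field k] (S W3 : Finset k) : Prop :=
  ∃ (K : Type) (_ : Field K) (_ : Algebra k K) (x W : K) (g D B C M : ℕ),
    2 * g + D ≤ 18 ∧ LvQ p k K S W3 x W g D (4 * W3.card) B C M

theorem towers3_of {p : ℕ} [Fact p.Prime] (hp : 5 ≤ p) {k : Type} [Field k] [Finite k] [CharP k p]
    (hk : Nat.card k = p ^ 2) {S W3 : Finset k} (hS : SSet S) (hW : WSet S W3)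
    (hc : W3.card = 2 * (p - 1)) (hB : BaseQs p k S W3) (hSe : SeAll k) (b : ℕ) :
    TowerO k (8 * 3 ^ b, 16 * 3 ^ b, 8 * ((p : ℝ) - 1) * 3 ^ b) := by
  have hcb : CubStep p k S W3 := cubStep (by omega) hk hW
  have h := towerO_of_baseQ (p := p) (by omega) hk hS hcb hSe (h₀ := 8)
    (t₀ := 4 * W3.card) (by norm_num) (by rw [hc]; omega) hB b
  convert h using 3
  · push_cast
    ring
  · push_cast
    ring
  · rw [hc]
    push_cast [Nat.cast_sub (show 1 ≤ p by omega)]
    ring

end Pool.Agent.FF
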