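import Pool.Agent.FO.Tow3
import Pool.Agent.FO.BaseQ
import Pool.Agent.FS.SetC
import Pool.Agent.FY.SeR

/-! # The towers over the levels `3 ^ b` over the field with `p ^ 2` elements -/

set_option autoImplicit false

namespace Pool.Agent.FF

theorem towers3 {p : ℕ} [Fact p.Prime] (hp : 5 ≤ p) {k : Type} [Field k]
    (hk : Nat.card k = p ^ 2) (b : ℕ) :
    TowerO k (8 * 3 ^ b, 16 * 3 ^ b, 8 * ((p : ℝ) - 1) * 3 ^ b) := by
  have hpp : p.Prime := Fact.out
  have hfin : Finite k := Nat.finite_of_card_ne_zero (by rw [hk]; exact pow_ne_zero 2 hpp.ne_zero)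
  have := Fintype.ofFinite k
  have hc : Fintype.card k = p ^ 2 := by rw [← hk, Nat.card_eq_fintype_card]
  have hchar : CharP k p := charP_of_card_eq_prime_pow hc
  have h2 : (2 : k) ≠ 0 := by
    intro h
    have h1 : ((2 : ℕ) : k) = 0 := by exact_mod_cast h
    rw [CharP.cast_eq_zero_iff k p] at h1
    have := Nat.le_of_dvd (by norm_num) h1
    omega
  obtain ⟨S, W3, hS, hW, -, hW3⟩ := Pool.Agent.FS.exists_sw hp hk
  exact towers3_of hp hk hS hW hW3 (baseQ (by omega) hS hW) (seAll h2) b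

end Pool.Agent.FF
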